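import Pool.Agent.Lib.Fermi.SCV

/-!
# H9F, base file: euclidean norms, the bilinear form, symbols (complete, no sorry)
-/

open scoped BigOperators Topology
open Set Filter

noncomputable section

namespace H9F

open Fermi

/-- an integer vector as a real vector -/
def rz (s : Zd 3) : Fin 3 → ℝ := fun j => (s j : ℝ)

/-- euclidean norm of a real vector -/
def nr (x : Fin 3 → ℝ) : ℝ := Real.sqrt (dr x x)

/-- euclidean norm of an integer vector -/
def nz (s : Zd 3) : ℝ := nr (rz s)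

/-- euclidean norm of a complex vector -/
def nc (k : Cd 3) : ℝ := Real.sqrt (∑ j, ‖k j‖ ^ 2)

/-- a real vector as a complex vector -/
def rc (x : Fin 3 → ℝ) : Cd 3 := fun j => (x j : ℂ)

/-- `q_s(k) - q_0(k)` -/
def gs (k : Cd 3) (s : Zd 3) : ℂ := 2 * bil k (zc s) + bil (zc s) (zc s)

/-- cross product of real vectors -/
def cr (x y : Fin 3 → ℝ) : Fin 3 → ℝ :=
  ![x 1 * y 2 - x 2 * y 1, x 2 * y 0 - x 0 * y 2, x 0 * y 1 - x 1 * y 0]

/-- cross product of integer vectors -/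
def crz (x y : Zd 3) : Zd 3 :=
  ![x 1 * y 2 - x 2 * y 1, x 2 * y 0 - x 0 * y 2, x 0 * y 1 - x 1 * y 0]

/-- parallel integer vectors -/
def Par (s s' : Zd 3) : Prop := ∀ i j, s i * s' j = s j * s' i

/-! ### real vectors -/

theorem dr3 (x y : Fin 3 → ℝ) : dr x y = x 0 * y 0 + x 1 * y 1 + x 2 * y 2 := by
  unfold dr; rw [Fin.sum_univ_three]

theorem dt_eq (y : Fin 3 → ℝ) (s : Zd 3) : dt y s = dr y (rz s) := rfl

theorem dt3 (y : Fin 3 → ℝ) (s : Zd 3) : dt y s = y 0 * s 0 + y 1 * s 1 + y 2 * s 2 := by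
  unfold dt; rw [Fin.sum_univ_three]

theorem dr_comm (x y : Fin 3 → ℝ) : dr x y = dr y x := by simp only [dr3]; ring
theorem dr_add_left (x y z : Fin 3 → ℝ) : dr (x + y) z = dr x z + dr y z := by
  simp only [dr3, Pi.add_apply]; ring
theorem dr_add_right (x y z : Fin 3 → ℝ) : dr z (x + y) = dr z x + dr z y := by
  simp only [dr3, Pi.add_apply]; ring
theorem dr_sub_left (x y z : Fin 3 → ℝ) : dr (x - y) z = dr x z - dr y z := by
  simp only [dr3, Pi.sub_apply]; ring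
theorem dr_sub_right (x y z : Fin 3 → ℝ) : dr z (x - y) = dr z x - dr z y := by
  simp only [dr3, Pi.sub_apply]; ring
theorem dr_smul_left (c : ℝ) (x y : Fin 3 → ℝ) : dr (c • x) y = c * dr x y := by
  simp only [dr3, Pi.smul_apply, smul_eq_mul]; ring
theorem dr_smul_right (c : ℝ) (x y : Fin 3 → ℝ) : dr y (c • x) = c * dr y x := by
  simp only [dr3, Pi.smul_apply, smul_eq_mul]; ring
theorem dr_self_nonneg (x : Fin 3 → ℝ) : 0 ≤ dr x x := by
  rw [dr3]; nlinarith [mul_self_nonneg (x 0), mul_self_nonneg (x 1), mul_self_nonneg (x 2)]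

theorem nr_nonneg (x : Fin 3 → ℝ) : 0 ≤ nr x := Real.sqrt_nonneg _
theorem nr_sq (x : Fin 3 → ℝ) : nr x ^ 2 = dr x x := Real.sq_sqrt (dr_self_nonneg x)

theorem nr_eq_norm (x : Fin 3 → ℝ) : nr x = ‖(WithLp.toLp 2 x : EuclideanSpace ℝ (Fin 3))‖ := by
  rw [EuclideanSpace.norm_eq, nr, dr]
  congr 1
  refine Finset.sum_congr rfl fun j _ => ?_
  simp [sq]

theorem nr_add_le (x y : Fin 3 → ℝ) : nr (x + y) ≤ nr x + nr y := by
  rw [nr_eq_norm, nr_eq_norm, nr_eq_norm, WithLp.toLp_add]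
  exact norm_add_le _ _
theorem nr_sub_le (x y : Fin 3 → ℝ) : nr (x - y) ≤ nr x + nr y := by
  rw [nr_eq_norm, nr_eq_norm, nr_eq_norm, WithLp.toLp_sub]
  exact norm_sub_le _ _
theorem nr_smul (c : ℝ) (x : Fin 3 → ℝ) : nr (c • x) = |c| * nr x := by
  rw [nr_eq_norm, nr_eq_norm, WithLp.toLp_smul, norm_smul, Real.norm_eq_abs]
theorem nr_neg (x : Fin 3 → ℝ) : nr (-x) = nr x := by
  rw [nr_eq_norm, nr_eq_norm, WithLp.toLp_neg, norm_neg]
theorem nr_sub_comm (x y : Fin 3 → ℝ) : nr (x - y) = nr (y - x) := by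
  rw [← nr_neg, neg_sub]
theorem abs_nr_sub_le (x y : Fin 3 → ℝ) : |nr x - nr y| ≤ nr (x - y) := by
  rw [nr_eq_norm, nr_eq_norm, nr_eq_norm, WithLp.toLp_sub]
  exact abs_norm_sub_norm_le _ _
theorem nr_zero : nr 0 = 0 := by rw [nr_eq_norm]; simp
theorem nr_eq_zero {x : Fin 3 → ℝ} : nr x = 0 ↔ x = 0 := by
  rw [nr_eq_norm, norm_eq_zero]
  constructor
  · intro h; exact (WithLp.toLp_injective 2) (by rw [h]; rfl)
  · rintro rfl; rfl
theorem nr_pos {x : Fin 3 → ℝ} (h : x ≠ 0) : 0 < nr x :=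
  lt_of_le_of_ne (nr_nonneg x) (fun h1 => h (nr_eq_zero.1 h1.symm))

/-- Lagrange identity -/
theorem lagrange (x y : Fin 3 → ℝ) : nr (cr x y) ^ 2 + dr x y ^ 2 = nr x ^ 2 * nr y ^ 2 := by
  rw [nr_sq, nr_sq, nr_sq, dr3, dr3, dr3, dr3]
  simp [cr]
  ring

theorem abs_dr_le (x y : Fin 3 → ℝ) : |dr x y| ≤ nr x * nr y := by
  have h := lagrange x y
  have h1 : dr x y ^ 2 ≤ (nr x * nr y) ^ 2 := by
    rw [mul_pow]; nlinarith [sq_nonneg (nr (cr x y))]
  exact abs_le_of_sq_le_sq h1 (mul_nonneg (nr_nonneg x) (nr_nonneg y))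

theorem nr_cr_le (x y : Fin 3 → ℝ) : nr (cr x y) ≤ nr x * nr y := by
  have h := lagrange x y
  have h1 : nr (cr x y) ^ 2 ≤ (nr x * nr y) ^ 2 := by
    rw [mul_pow]; nlinarith [sq_nonneg (dr x y)]
  exact le_of_sq_le_sq h1 (mul_nonneg (nr_nonneg x) (nr_nonneg y))

theorem abs_le_nr (x : Fin 3 → ℝ) (j : Fin 3) : |x j| ≤ nr x := by
  have h : x j ^ 2 ≤ nr x ^ 2 := by
    rw [nr_sq, dr]
    have := Finset.single_le_sum (f := fun j => x j * x j) (fun i _ => mul_self_nonneg _)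
      (Finset.mem_univ j)
    simpa [sq] using this
  exact abs_le_of_sq_le_sq h (nr_nonneg x)

theorem nr_le_of_abs {x : Fin 3 → ℝ} {c : ℝ} (h : ∀ j, |x j| ≤ c) : nr x ≤ 2 * c := by
  have hc : 0 ≤ c := (abs_nonneg _).trans (h 0)
  refine le_of_sq_le_sq ?_ (by positivity)
  rw [nr_sq, dr3]
  have h0 := sq_le_sq' (abs_le.1 (h 0)).1 (abs_le.1 (h 0)).2
  have h1 := sq_le_sq' (abs_le.1 (h 1)).1 (abs_le.1 (h 1)).2
  have h2 := sq_le_sq' (abs_le.1 (h 2)).1 (abs_le.1 (h 2)).2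
  nlinarith

theorem dr_cr_left (x y : Fin 3 → ℝ) : dr x (cr x y) = 0 := by
  rw [dr3]; simp [cr]; ring
theorem dr_cr_right (x y : Fin 3 → ℝ) : dr y (cr x y) = 0 := by
  rw [dr3]; simp [cr]; ring

/-! ### integer vectors -/

theorem rz_add (s t : Zd 3) : rz (s + t) = rz s + rz t := by
  funext j; simp [rz]
theorem rz_sub (s t : Zd 3) : rz (s - t) = rz s - rz t := by
  funext j; simp [rz]
theorem rz_neg (s : Zd 3) : rz (-s) = -rz s := by
  funext j; simp [rz]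
theorem rz_zero : rz 0 = 0 := by
  funext j; simp [rz]
theorem rz_inj {s t : Zd 3} (h : rz s = rz t) : s = t := by
  funext j
  have := congrFun h j
  simpa [rz] using this
theorem nz_nonneg (s : Zd 3) : 0 ≤ nz s := nr_nonneg _
theorem nz_sq (s : Zd 3) : nz s ^ 2 = dr (rz s) (rz s) := nr_sq _
theorem nz_sq_int (s : Zd 3) : nz s ^ 2 = ((s 0 * s 0 + s 1 * s 1 + s 2 * s 2 : ℤ) : ℝ) := by
  rw [nz_sq, dr3]; push_cast; rfl
theorem nz_neg (s : Zd 3) : nz (-s) = nz s := by rw [nz, rz_neg, nr_neg]; rfl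
theorem nz_zero : nz 0 = 0 := by rw [nz, rz_zero, nr_zero]
theorem nz_add_le (s t : Zd 3) : nz (s + t) ≤ nz s + nz t := by
  rw [nz, rz_add]; exact nr_add_le _ _
theorem nz_sub_le (s t : Zd 3) : nz (s - t) ≤ nz s + nz t := by
  rw [nz, rz_sub]; exact nr_sub_le _ _
theorem one_le_nz {s : Zd 3} (h : s ≠ 0) : 1 ≤ nz s := by
  have h1 : (1 : ℝ) ≤ nz s ^ 2 := by
    rw [nz_sq_int]
    have : 1 ≤ s 0 * s 0 + s 1 * s 1 + s 2 * s 2 := by
      by_contra hcon
      apply h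
      have e0 := mul_self_nonneg (s 0)
      have e1 := mul_self_nonneg (s 1)
      have e2 := mul_self_nonneg (s 2)
      have f0 : s 0 = 0 := by
        have : s 0 * s 0 = 0 := by omega
        exact mul_self_eq_zero.1 this
      have f1 : s 1 = 0 := by
        have : s 1 * s 1 = 0 := by omega
        exact mul_self_eq_zero.1 this
      have f2 : s 2 = 0 := by
        have : s 2 * s 2 = 0 := by omega
        exact mul_self_eq_zero.1 this
      funext j
      fin_cases j <;> simp [f0, f1, f2]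
    exact_mod_cast this
  nlinarith [nz_nonneg s]
theorem nz_pos {s : Zd 3} (h : s ≠ 0) : 0 < nz s := lt_of_lt_of_le one_pos (one_le_nz h)
theorem abs_le_nz (s : Zd 3) (j : Fin 3) : |(s j : ℝ)| ≤ nz s := abs_le_nr (rz s) j

/-! ### complex vectors -/

theorem bil3 (a b : Cd 3) : bil a b = a 0 * b 0 + a 1 * b 1 + a 2 * b 2 := by
  unfold bil; rw [Fin.sum_univ_three]
theorem bil_comm (a b : Cd 3) : bil a b = bil b a := by simp only [bil3]; ring
theorem bil_add_left (a b c : Cd 3) : bil (a + b) c = bil a c + bil b c := by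
  simp only [bil3, Pi.add_apply]; ring
theorem bil_add_right (a b c : Cd 3) : bil c (a + b) = bil c a + bil c b := by
  simp only [bil3, Pi.add_apply]; ring
theorem bil_sub_left (a b c : Cd 3) : bil (a - b) c = bil a c - bil b c := by
  simp only [bil3, Pi.sub_apply]; ring
theorem bil_sub_right (a b c : Cd 3) : bil c (a - b) = bil c a - bil c b := by
  simp only [bil3, Pi.sub_apply]; ring
theorem bil_smul_left (t : ℂ) (b c : Cd 3) : bil (t • b) c = t * bil b c := by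
  simp only [bil3, Pi.smul_apply, smul_eq_mul]; ring
theorem bil_smul_right (t : ℂ) (b c : Cd 3) : bil c (t • b) = t * bil c b := by
  simp only [bil3, Pi.smul_apply, smul_eq_mul]; ring

theorem nc_nonneg (k : Cd 3) : 0 ≤ nc k := Real.sqrt_nonneg _
theorem nc_sq3 (k : Cd 3) : nc k ^ 2 = ‖k 0‖ ^ 2 + ‖k 1‖ ^ 2 + ‖k 2‖ ^ 2 := by
  rw [nc, Real.sq_sqrt (by positivity), Fin.sum_univ_three]
theorem nc_sq (k : Cd 3) : nc k ^ 2 = nr (re k) ^ 2 + nr (im k) ^ 2 := by
  rw [nc_sq3, nr_sq, nr_sq, dr3, dr3]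
  simp only [re, im, ← Complex.normSq_eq_norm_sq, Complex.normSq_apply]
  ring
theorem nc_eq_norm (x : Cd 3) : nc x = ‖(WithLp.toLp 2 x : EuclideanSpace ℂ (Fin 3))‖ := by
  rw [EuclideanSpace.norm_eq, nc]
theorem nc_add_le (x y : Cd 3) : nc (x + y) ≤ nc x + nc y := by
  rw [nc_eq_norm, nc_eq_norm, nc_eq_norm, WithLp.toLp_add]
  exact norm_add_le _ _
theorem nc_sub_le (x y : Cd 3) : nc (x - y) ≤ nc x + nc y := by
  rw [nc_eq_norm, nc_eq_norm, nc_eq_norm, WithLp.toLp_sub]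
  exact norm_sub_le _ _
theorem nc_smul (c : ℂ) (x : Cd 3) : nc (c • x) = ‖c‖ * nc x := by
  rw [nc_eq_norm, nc_eq_norm, WithLp.toLp_smul, norm_smul]
theorem nc_neg (x : Cd 3) : nc (-x) = nc x := by
  rw [nc_eq_norm, nc_eq_norm, WithLp.toLp_neg, norm_neg]

theorem norm_bil_le (a b : Cd 3) : ‖bil a b‖ ≤ nc a * nc b := by
  have h1 : ‖bil a b‖ ≤ ∑ j, ‖a j‖ * ‖b j‖ := by
    unfold bil
    refine (norm_sum_le _ _).trans (Finset.sum_le_sum fun j _ => ?_)
    rw [norm_mul]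
  have h2 : (∑ j, ‖a j‖ * ‖b j‖) ^ 2 ≤ (nc a * nc b) ^ 2 := by
    have := Finset.sum_mul_sq_le_sq_mul_sq Finset.univ (fun j => ‖a j‖) (fun j => ‖b j‖)
    rw [mul_pow, nc, nc, Real.sq_sqrt (by positivity), Real.sq_sqrt (by positivity)]
    exact this
  exact h1.trans (le_of_sq_le_sq h2 (mul_nonneg (nc_nonneg a) (nc_nonneg b)))

theorem norm_le_nc (k : Cd 3) : ‖k‖ ≤ nc k := by
  refine (pi_norm_le_iff_of_nonneg (nc_nonneg k)).2 fun j => ?_
  refine le_of_sq_le_sq ?_ (nc_nonneg k)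
  rw [nc, Real.sq_sqrt (by positivity)]
  exact Finset.single_le_sum (f := fun j => ‖k j‖ ^ 2) (fun i _ => by positivity)
    (Finset.mem_univ j)

theorem nc_le (k : Cd 3) : nc k ≤ 2 * ‖k‖ := by
  refine le_of_sq_le_sq ?_ (by positivity)
  rw [nc_sq3]
  have h0 := norm_le_pi_norm k 0
  have h1 := norm_le_pi_norm k 1
  have h2 := norm_le_pi_norm k 2
  have e0 := pow_le_pow_left₀ (norm_nonneg _) h0 2
  have e1 := pow_le_pow_left₀ (norm_nonneg _) h1 2
  have e2 := pow_le_pow_left₀ (norm_nonneg _) h2 2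
  nlinarith [norm_nonneg k]

/-- the constant `√3 ≤ 7/4` -/
theorem nc_le' (k : Cd 3) : nc k ≤ 7 / 4 * ‖k‖ := by
  refine le_of_sq_le_sq ?_ (by positivity)
  rw [nc_sq3]
  have h0 := norm_le_pi_norm k 0
  have h1 := norm_le_pi_norm k 1
  have h2 := norm_le_pi_norm k 2
  have e0 := pow_le_pow_left₀ (norm_nonneg _) h0 2
  have e1 := pow_le_pow_left₀ (norm_nonneg _) h1 2
  have e2 := pow_le_pow_left₀ (norm_nonneg _) h2 2
  nlinarith [norm_nonneg k]

theorem nr_re_le (k : Cd 3) : nr (re k) ≤ nc k := by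
  refine le_of_sq_le_sq ?_ (nc_nonneg k)
  rw [nc_sq]; nlinarith [sq_nonneg (nr (im k))]
theorem nr_im_le (k : Cd 3) : nr (im k) ≤ nc k := by
  refine le_of_sq_le_sq ?_ (nc_nonneg k)
  rw [nc_sq]; nlinarith [sq_nonneg (nr (re k))]

theorem re_add (k l : Cd 3) : re (k + l) = re k + re l := by funext j; simp [re]
theorem im_add (k l : Cd 3) : im (k + l) = im k + im l := by funext j; simp [im]
theorem re_sub (k l : Cd 3) : re (k - l) = re k - re l := by funext j; simp [re]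
theorem im_sub (k l : Cd 3) : im (k - l) = im k - im l := by funext j; simp [im]
theorem re_zc (n : Zd 3) : re (zc n : Cd 3) = rz n := by funext j; simp [re, zc, rz]
theorem im_zc (n : Zd 3) : im (zc n : Cd 3) = 0 := by funext j; simp [im, zc]
theorem im_add_zc (k : Cd 3) (n : Zd 3) : im (k + zc n) = im k := by
  rw [im_add, im_zc, add_zero]
theorem re_add_zc (k : Cd 3) (n : Zd 3) : re (k + zc n) = re k + rz n := by
  rw [re_add, re_zc]
theorem zc_add (n m : Zd 3) : (zc (n + m) : Cd 3) = zc n + zc m := by funext j; simp [zc]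
theorem zc_zero : (zc (0 : Zd 3) : Cd 3) = 0 := by funext j; simp [zc]
theorem nc_zc (n : Zd 3) : nc (zc n) = nz n := by
  have h : nc (zc n : Cd 3) ^ 2 = nz n ^ 2 := by
    rw [nc_sq, re_zc, im_zc, nr_zero]; rw [nz]; ring
  exact (pow_left_inj₀ (nc_nonneg _) (nz_nonneg _) two_ne_zero).1 h

theorem bil_re (a b : Cd 3) : (bil a b).re = dr (re a) (re b) - dr (im a) (im b) := by
  rw [bil3, dr3, dr3]; simp [re, im]; ring
theorem bil_im (a b : Cd 3) : (bil a b).im = dr (re a) (im b) + dr (im a) (re b) := by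
  rw [bil3, dr3, dr3]; simp [re, im]; ring

theorem bil_zc_re (k : Cd 3) (s : Zd 3) : (bil k (zc s)).re = dt (re k) s := by
  rw [bil_re, re_zc, im_zc, dt_eq]; simp [dr3]
theorem bil_zc_im (k : Cd 3) (s : Zd 3) : (bil k (zc s)).im = dt (im k) s := by
  rw [bil_im, re_zc, im_zc, dt_eq]; simp [dr3]

theorem q_zero (μ : ℂ) (k : Cd 3) : q μ k 0 = bil k k - μ := by
  unfold q; rw [zc_zero, add_zero]
theorem q_shift (μ : ℂ) (k : Cd 3) (n : Zd 3) : q μ k n = q μ (k + zc n) 0 := by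
  rw [q_zero]; rfl
theorem q_add (μ : ℂ) (k : Cd 3) (n m : Zd 3) : q μ k (n + m) = q μ (k + zc n) m := by
  unfold q; rw [zc_add, add_assoc]
theorem q_gs (μ : ℂ) (k : Cd 3) (s : Zd 3) : q μ k s = q μ k 0 + gs k s := by
  rw [q_zero]; unfold q gs; rw [bil_add_left, bil_add_right, bil_add_right, bil_comm (zc s) k]
  ring
theorem q_gs' (μ : ℂ) (k : Cd 3) (n s : Zd 3) : q μ k (n + s) = q μ k n + gs (k + zc n) s := by
  rw [q_add, q_gs, q_shift μ k n]

theorem gs_re (k : Cd 3) (s : Zd 3) : (gs k s).re = 2 * dt (re k) s + nz s ^ 2 := by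
  unfold gs
  rw [Complex.add_re, Complex.mul_re, bil_zc_re, bil_zc_re, re_zc, nz_sq, dt_eq]
  simp [dt_eq]
theorem gs_im (k : Cd 3) (s : Zd 3) : (gs k s).im = 2 * dt (im k) s := by
  unfold gs
  rw [Complex.add_im, Complex.mul_im, bil_zc_im, bil_zc_im, im_zc, dt_eq]
  simp [dr3, dt]

theorem q0_re (μ : ℂ) (k : Cd 3) : (q μ k 0).re = nr (re k) ^ 2 - nr (im k) ^ 2 - μ.re := by
  rw [q_zero, Complex.sub_re, bil_re, nr_sq, nr_sq]
theorem q0_im (μ : ℂ) (k : Cd 3) : (q μ k 0).im = 2 * dr (re k) (im k) - μ.im := by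
  rw [q_zero, Complex.sub_im, bil_im, dr_comm (im k) (re k)]; ring

/-- change of the symbol -/
theorem q_sub (μ : ℂ) (k k' : Cd 3) (m : Zd 3) :
    q μ k' m - q μ k m = bil (k' - k) (k' + k + 2 • zc m) := by
  unfold q
  simp only [bil3, Pi.add_apply, Pi.sub_apply, Pi.smul_apply]
  simp only [nsmul_eq_mul]
  push_cast
  ring

end H9F
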