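import Pool.Agent.Lib.H9F.G3

/-!
# H9F G4: instances of `NrC`; sites far from resonance
-/

open scoped BigOperators Topology
open Set Filter

noncomputable section

namespace H9F

open Fermi

variable {M : ℝ} {μ : ℂ} {P : Big M μ}

/-- lower bound of `R` in `YY c`, `c ≤ 4` -/
theorem YY.lo' {c : ℝ} (hc : c ≤ 4) {y : Fin 3 → ℝ} (h : YY P c y) :
    P.b ^ 9999 ≤ nr y ∧ nr y ≤ P.b ^ 12001 := by
  have h1 := h.lo
  have h2 := h.hi
  have h3 : 4 * P.b ^ 9999 ≤ P.b ^ 10000 := P.mul_pow_le (by norm_num) (by norm_num)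
  have h4 : 4 * P.b ^ 12000 ≤ P.b ^ 12001 := P.mul_pow_le (by norm_num) (by norm_num)
  have h5 := nr_nonneg y
  have h6 : c * nr y ≤ 4 * nr y := mul_le_mul_of_nonneg_right hc h5
  have h7 : c * P.b ^ 12000 ≤ 4 * P.b ^ 12000 := mul_le_mul_of_nonneg_right hc (P.pow_pos 12000).le
  constructor <;> linarith

/-- small moves, from level `c` to level `c' ≥ c + 1/4` -/
theorem YY.move {c c' : ℝ} (hc : 1 ≤ c) (hc' : c + 1 / 4 ≤ c') (hc4 : c' ≤ 4) {y y' : Fin 3 → ℝ}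
    (h : YY P c y) (hy : nr (y' - y) ≤ P.b ^ 550) : YY P c' y' := by
  obtain ⟨hR, hR2⟩ := h.lo' (by linarith)
  have hb0 := P.b_pos
  have h550 := P.pow_pos 550
  have h600 := P.pow_pos 600
  have h9999 := P.pow_pos 9999
  have h12000 := P.pow_pos 12000
  have e1 : 100 * P.b ^ 550 ≤ P.b ^ 600 := P.mul_pow_le (by norm_num) (by norm_num)
  have e2 : 100 * P.b ^ 550 ≤ P.b ^ 9999 := P.mul_pow_le (by norm_num) (by norm_num)
  have e3 : 100 * P.b ^ 550 ≤ P.b ^ 12000 := P.mul_pow_le (by norm_num) (by norm_num)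
  have hn : 0 ≤ nz P.nu := nz_nonneg _
  have d1 := (abs_le.1 (abs_nr_sub_le y' y)).1
  have d2 := (abs_le.1 (abs_nr_sub_le y' y)).2
  refine ⟨?_, ?_, ?_⟩
  · have h1 : dt y' P.nu = dt y P.nu + dr (y' - y) (rz P.nu) := by
      rw [dt_eq, dt_eq, dr_sub_left]; ring
    rw [h1]
    have h2 : |dr (y' - y) (rz P.nu)| ≤ P.b ^ 550 * nz P.nu := (abs_dr_le _ _).trans
      (mul_le_mul_of_nonneg_right hy hn)
    have h3 := h.nu
    have h4 : c * P.b ^ 600 * nz P.nu + P.b ^ 550 * nz P.nu ≤ c' * P.b ^ 600 * nz P.nu := by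
      rw [← add_mul]
      refine mul_le_mul_of_nonneg_right ?_ hn
      have h5 : (c + 1 / 4) * P.b ^ 600 ≤ c' * P.b ^ 600 := mul_le_mul_of_nonneg_right hc' h600.le
      linarith
    exact (abs_add_le _ _).trans ((add_le_add h3 h2).trans h4)
  · have h1 : nr y - P.b ^ 550 ≤ nr y' := by linarith
    have h2 : (c + 1 / 4) * nr y' ≤ c' * nr y' := mul_le_mul_of_nonneg_right hc' (nr_nonneg _)
    have h3 : (c + 1 / 4) * (nr y - P.b ^ 550) ≤ (c + 1 / 4) * nr y' :=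
      mul_le_mul_of_nonneg_left h1 (by linarith)
    have h4 := h.lo
    have h5 : (c + 1 / 4) * P.b ^ 550 ≤ 5 * P.b ^ 550 :=
      mul_le_mul_of_nonneg_right (by linarith) h550.le
    nlinarith
  · have h1 : nr y' ≤ nr y + P.b ^ 550 := by linarith
    have h4 := h.hi
    have h5 : (c + 1 / 4) * P.b ^ 12000 ≤ c' * P.b ^ 12000 :=
      mul_le_mul_of_nonneg_right hc' h12000.le
    linarith

theorem g4_R_big {R : ℝ} (h : P.b ^ 9000 ≤ R) : 10 ^ 36 ≤ R ∧ 10 ^ 6 * P.b ≤ R := by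
  have h1 : 10 ^ 6 * P.b ^ 1 ≤ P.b ^ 9000 := P.mul_pow_le (by norm_num) (by norm_num)
  rw [pow_one] at h1
  have h2 := P.b_ge
  norm_num at h1 h2 ⊢
  constructor <;> linarith

theorem g4_mu {R : ℝ} (h : 10 ^ 6 * P.b ≤ R) : 1000 * ‖μ‖ ≤ R ^ 2 := by
  have h1 := P.mu_le_b
  have h2 := P.one_le_b
  norm_num at h
  nlinarith [norm_nonneg μ]

/-- size of a point with small symbol -/
theorem g4_nc {k : Cd 3} {R : ℝ} (hR : nr (im k) = R) (h36 : 10 ^ 6 * P.b ≤ R)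
    (hq : ‖q μ k 0‖ ≤ R ^ 2 / 200) : nc k ≤ 2 * R := by
  have h1 := q0_re μ k
  have h2 := (Complex.abs_re_le_norm (q μ k 0)).trans hq
  rw [h1, hR] at h2
  have h3 := (abs_le.1 h2).2
  have h4 := (abs_le.1 (Complex.abs_re_le_norm μ)).2
  have h5 := P.mu_le_b
  have h6 := P.one_le_b
  norm_num at h36
  refine le_of_sq_le_sq ?_ (by linarith)
  rw [nc_sq, hR]
  nlinarith

/-- points of the patch: `‖τ‖ ≤ 2 rho` -/
theorem RE.nrc {k : Cd 3} {E : Frm} (h : RE P k E) {τ z : ℂ} (hτ : ‖τ‖ ≤ 4 * P.rho)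
    (hz : ‖z‖ ≤ 4 * P.rho) : NrC μ E (nr (im k)) (E.pt k τ z) := by
  have hR0 := (h.yy.lo' (by norm_num)).1
  have hR1 : P.b ^ 9000 ≤ nr (im k) := (P.pow_le (by norm_num)).trans hR0
  obtain ⟨hR2, hR3⟩ := g4_R_big hR1
  have hρ := P.rho_pos
  have hρ1 := P.rho_le_small
  norm_num at hR2 hρ1
  have hnc : nc k ≤ 2 * nr (im k) := g4_nc (P := P) (μ := μ) rfl hR3 (by
    rw [h.q0, norm_zero]; positivity)
  have key : ∀ e : Fin 3 → ℝ, dr e e = 1 → |dr (im (E.pt k τ z)) e - dr (im k) e| ≤ 24 * P.rho :=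
    fun e he => (abs_dr_im_pt E k τ z e he).trans (by linarith)
  refine ⟨by linarith, g4_mu hR3, ?_, ?_, ?_, ?_⟩
  · have h1 := key _ E.h11
    have h2 := h.f1
    have h3 := abs_add_le (dr (im (E.pt k τ z)) E.e1 - dr (im k) E.e1) (dr (im k) E.e1)
    rw [sub_add_cancel] at h3
    linarith
  · have h1 := key _ E.h22
    have h2 := h.f2
    have h3 := abs_add_le (dr (im (E.pt k τ z)) E.e2 - dr (im k) E.e2) (dr (im k) E.e2)
    rw [sub_add_cancel] at h3
    linarith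
  · have h1 := key _ E.h33
    have h2 := h.f3
    have h3 := abs_add_le (dr (im (E.pt k τ z)) E.e3 - dr (im k) E.e3)
      (dr (im k) E.e3 - nr (im k))
    rw [sub_add_sub_cancel] at h3
    linarith
  · rw [q0_pt, h.q0, zero_add]
    have a1 : ‖bil k E.U‖ ≤ 3 * nr (im k) := by
      refine (norm_bil_le _ _).trans ?_
      have := E.nc_U
      nlinarith [nc_nonneg k, nc_nonneg E.U]
    have a2 : ‖bil k E.V‖ ≤ 72 / 5 * nr (im k) := by
      refine (norm_bil_le _ _).trans ?_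
      have := E.nc_V
      nlinarith [nc_nonneg k, nc_nonneg E.V]
    have b1 : ‖2 * τ * bil k E.U‖ ≤ nr (im k) := by
      rw [norm_mul, norm_mul, Complex.norm_ofNat]
      have : 2 * ‖τ‖ * ‖bil k E.U‖ ≤ 2 * (4 * P.rho) * (3 * nr (im k)) := by gcongr
      nlinarith
    have b2 : ‖2 * z * bil k E.V‖ ≤ nr (im k) := by
      rw [norm_mul, norm_mul, Complex.norm_ofNat]
      have : 2 * ‖z‖ * ‖bil k E.V‖ ≤ 2 * (4 * P.rho) * (72 / 5 * nr (im k)) := by gcongr
      nlinarith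
    have b3 : ‖4 * τ * z‖ ≤ nr (im k) := by
      rw [norm_mul, norm_mul, Complex.norm_ofNat]
      have : 4 * ‖τ‖ * ‖z‖ ≤ 4 * (4 * P.rho) * (4 * P.rho) := by gcongr
      nlinarith
    have c1 := norm_sub_le (2 * τ * bil k E.U + 2 * z * bil k E.V) (4 * τ * z)
    have c2 := norm_add_le (2 * τ * bil k E.U) (2 * z * bil k E.V)
    nlinarith

/-- the sheet stays in the slice: `|zet τ| ≤ 6/5 |τ|` since `zet 0 = 0` -/
theorem RE.zet_le {k : Cd 3} {E : Frm} (h : RE P k E) {τ : ℂ} (hτ : ‖τ‖ ≤ 2 * P.rho) :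
    ‖zet μ E k τ‖ ≤ 6 / 5 * ‖τ‖ := by
  have hR0 := (h.yy.lo' (by norm_num)).1
  have hR1 : P.b ^ 9000 ≤ nr (im k) := (P.pow_le (by norm_num)).trans hR0
  obtain ⟨hR2, hR3⟩ := g4_R_big hR1
  have hρ := P.rho_pos
  have hρ1 := P.rho_le_small
  norm_num at hR2 hρ1
  have hk : NrC μ E (nr (im k)) k := by
    have := h.nrc (τ := 0) (z := 0) (by simp; linarith) (by simp; linarith)
    rwa [pt_zero] at this
  have h0 : zet μ E k 0 = 0 := by
    unfold zet
    rw [h.q0]; simp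
  have h1 := hk.zet_lip (τ := 0) (τ' := τ) (by simp; linarith) (by linarith)
    (by rw [h0]; simp; linarith)
  rw [h0, zero_sub, zero_sub, norm_neg, norm_neg] at h1
  exact h1

theorem g4_sl_nrc {p : Cd 3} {E : Frm} (h : SL P p E) {n : Zd 3} {τ z : ℂ} (hτ : ‖τ‖ ≤ 4 * P.rho)
    (hz : ‖z‖ ≤ 4 * P.rho) (hq : ‖q μ (E.pt p τ z) n‖ ≤ 200 * nr (im p) * P.rho) :
    NrC μ E (nr (im p)) (E.pt (p + zc n) τ z) := by
  have hR0 := (h.yy.lo' (by norm_num)).1
  have hR1 : P.b ^ 9000 ≤ nr (im p) := (P.pow_le (by norm_num)).trans hR0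
  obtain ⟨hR2, hR3⟩ := g4_R_big hR1
  have hρ := P.rho_pos
  have hρ1 := P.rho_le_small
  norm_num at hR2 hρ1
  have key : ∀ e : Fin 3 → ℝ, dr e e = 1 →
      |dr (im (E.pt (p + zc n) τ z)) e - dr (im p) e| ≤ 24 * P.rho := by
    intro e he
    have := abs_dr_im_pt E (p + zc n) τ z e he
    rw [im_add_zc] at this
    exact this.trans (by linarith)
  refine ⟨by linarith, g4_mu hR3, ?_, ?_, ?_, ?_⟩
  · have h1 := key _ E.h11
    rw [h.f1, sub_zero] at h1
    linarith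
  · have h1 := key _ E.h22
    rw [h.f2, sub_zero] at h1
    linarith
  · have h1 := key _ E.h33
    rw [h.f3] at h1
    linarith
  · rw [← q_pt]
    nlinarith

/-- points of slices near a resonant site -/
theorem SL.nrc {p : Cd 3} {E : Frm} (h : SL P p E) {n : Zd 3}
    (hn : ‖q μ p n‖ ≤ 100 * nr (im p) * P.rho) {τ z : ℂ} (hτ : ‖τ‖ ≤ 4 * P.rho)
    (hz : ‖z‖ ≤ 4 * P.rho) : NrC μ E (nr (im p)) (E.pt (p + zc n) τ z) ∧
      ‖q μ (E.pt p τ z) n‖ ≤ 200 * nr (im p) * P.rho := by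
  have hR0 := (h.yy.lo' (by norm_num)).1
  have hR1 : P.b ^ 9000 ≤ nr (im p) := (P.pow_le (by norm_num)).trans hR0
  obtain ⟨hR2, hR3⟩ := g4_R_big hR1
  have hρ := P.rho_pos
  have hρ1 := P.rho_le_small
  norm_num at hR2 hρ1
  have hRρ : 0 < nr (im p) * P.rho := by
    have : 0 < nr (im p) := by linarith
    positivity
  have hk : NrC μ E (nr (im p)) (p + zc n) := by
    have := g4_sl_nrc h (n := n) (τ := 0) (z := 0) (by simp; linarith) (by simp; linarith)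
      (by rw [pt_zero]; linarith)
    rwa [pt_zero] at this
  have hq : ‖q μ (E.pt p τ z) n‖ ≤ 200 * nr (im p) * P.rho := by
    rw [q_pt, q0_pt, ← q_shift]
    have a1 := hk.alpha.2
    have a2 := hk.beta.2
    have b1 : ‖2 * τ * bil (p + zc n) E.U‖ ≤ 2 * (4 * P.rho) * (101 / 100 * nr (im p)) := by
      rw [norm_mul, norm_mul, Complex.norm_ofNat]
      gcongr
    have b2 : ‖2 * z * bil (p + zc n) E.V‖ ≤ 2 * (4 * P.rho) * (91 / 10 * nr (im p)) := by
      rw [norm_mul, norm_mul, Complex.norm_ofNat]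
      gcongr
    have b3 : ‖4 * τ * z‖ ≤ nr (im p) * P.rho := by
      rw [norm_mul, norm_mul, Complex.norm_ofNat]
      have : 4 * ‖τ‖ * ‖z‖ ≤ 4 * (4 * P.rho) * (4 * P.rho) := by gcongr
      nlinarith
    have c1 := norm_sub_le (q μ p n + 2 * τ * bil (p + zc n) E.U + 2 * z * bil (p + zc n) E.V) (4 * τ * z)
    have c2 := norm_add_le (q μ p n + 2 * τ * bil (p + zc n) E.U) (2 * z * bil (p + zc n) E.V)
    have c3 := norm_add_le (q μ p n) (2 * τ * bil (p + zc n) E.U)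
    nlinarith
  exact ⟨g4_sl_nrc h hτ hz hq, hq⟩

/-- sites resonant somewhere in the slice are resonant at the centre. Proof: `k' = pt p τ z + n` satisfies `NrC`
(its `q_0` is `≤ 10 R rho`), and `q_n(p) = q_0(pt k' (-τ) (-z))`, `|·| ≤ 10Rρ + 8ρ·1.01R + 8ρ·9.1R + 64ρ²`. -/
theorem SL.lam {p : Cd 3} {E : Frm} (h : SL P p E) {n : Zd 3} {τ z : ℂ} (hτ : ‖τ‖ ≤ 4 * P.rho)
    (hz : ‖z‖ ≤ 4 * P.rho) (hq : ‖q μ (E.pt p τ z) n‖ ≤ 10 * nr (im p) * P.rho) :
    ‖q μ p n‖ ≤ 100 * nr (im p) * P.rho := by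
  have hR0 := (h.yy.lo' (by norm_num)).1
  have hR1 : P.b ^ 9000 ≤ nr (im p) := (P.pow_le (by norm_num)).trans hR0
  obtain ⟨hR2, hR3⟩ := g4_R_big hR1
  have hρ := P.rho_pos
  have hρ1 := P.rho_le_small
  norm_num at hR2 hρ1
  have hRρ : 0 < nr (im p) * P.rho := by
    have : 0 < nr (im p) := by linarith
    positivity
  have hk := g4_sl_nrc h (n := n) hτ hz (by linarith)
  have e : q μ p n = q μ (E.pt (E.pt (p + zc n) τ z) (-τ) (-z)) 0 := by
    rw [pt_pt, add_neg_cancel, add_neg_cancel, pt_zero, q_shift]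
  rw [e, q0_pt, ← q_pt]
  have a1 := hk.alpha.2
  have a2 := hk.beta.2
  have b1 : ‖2 * (-τ) * bil (E.pt (p + zc n) τ z) E.U‖ ≤ 2 * (4 * P.rho) * (101 / 100 * nr (im p)) := by
    rw [norm_mul, norm_mul, norm_neg, Complex.norm_ofNat]
    gcongr
  have b2 : ‖2 * (-z) * bil (E.pt (p + zc n) τ z) E.V‖ ≤ 2 * (4 * P.rho) * (91 / 10 * nr (im p)) := by
    rw [norm_mul, norm_mul, norm_neg, Complex.norm_ofNat]
    gcongr
  have b3 : ‖4 * (-τ) * (-z)‖ ≤ nr (im p) * P.rho := by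
    rw [norm_mul, norm_mul, norm_neg, norm_neg, Complex.norm_ofNat]
    have : 4 * ‖τ‖ * ‖z‖ ≤ 4 * (4 * P.rho) * (4 * P.rho) := by gcongr
    nlinarith
  have c1 := norm_sub_le (q μ (E.pt p τ z) n + 2 * (-τ) * bil (E.pt (p + zc n) τ z) E.U +
    2 * (-z) * bil (E.pt (p + zc n) τ z) E.V) (4 * (-τ) * (-z))
  have c2 := norm_add_le (q μ (E.pt p τ z) n + 2 * (-τ) * bil (E.pt (p + zc n) τ z) E.U)
    (2 * (-z) * bil (E.pt (p + zc n) τ z) E.V)
  have c3 := norm_add_le (q μ (E.pt p τ z) n) (2 * (-τ) * bil (E.pt (p + zc n) τ z) E.U)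
  nlinarith

/-- Stability of large symbols under moves of size `3 eta`, for all sites at once.
Proof: `q_sub`, `|q_m(k') - q_m(k)| ≤ 3‖k'-k‖ (2‖k+m‖ + ‖k'-k‖)` (sup norms). If `‖k+m‖ ≤ 20 R` this is `≤ K/2`
(`eta = K/(1000R)`). If `‖k+m‖ > 20R` then `|Re (k'+m)_j| ≥ 19R` for some `j` and `|q_m(k')| ≥ 19²R² - 2R² - |μ|`, which is `≥ 100 K`. -/
theorem q_stable {k k' : Cd 3} (hb : P.b ^ 9000 ≤ nr (im k)) (hk : ‖k' - k‖ ≤ 3 * eta P k)
    (m : Zd 3) {κ : ℝ} (hκ : 1 ≤ κ) (hκ' : κ ≤ 100) (h : κ * P.K ≤ ‖q μ k m‖) :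
    (κ - 1) * P.K ≤ ‖q μ k' m‖ := by
  obtain ⟨hR2, hR3⟩ := g4_R_big hb
  norm_num at hR2 hR3
  have hK := P.K_pos
  have hKb := P.K_le
  norm_num at hKb
  have hb1 := P.one_le_b
  set R := nr (im k) with hR
  have hRpos : 0 < R := by linarith
  have hδ : nc (k' - k) ≤ 21 / 4000 * (P.K / R) := by
    have h1 := nc_le' (k' - k)
    have h2 : eta P k = 1 / 1000 * (P.K / R) := by
      unfold eta
      rw [← hR]
      field_simp
    rw [h2] at hk
    linarith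
  have hKR : P.K / R ≤ 1 := by
    rw [div_le_one hRpos]
    linarith
  have hKR0 : 0 < P.K / R := by positivity
  have hδ1 : nc (k' - k) ≤ 1 := by linarith
  by_cases hw : nc (k + zc m) ≤ 20 * R
  · have h1 := q_sub μ k k' m
    have h2 : k' + k + 2 • (zc m : Cd 3) = (2 : ℂ) • (k + zc m) + (k' - k) := by
      rw [two_nsmul, two_smul]
      abel
    have h3 : nc (k' + k + 2 • (zc m : Cd 3)) ≤ 40 * R + 1 := by
      rw [h2]
      refine (nc_add_le _ _).trans ?_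
      rw [nc_smul, Complex.norm_ofNat]
      linarith
    have h4 : ‖q μ k' m - q μ k m‖ ≤ 21 / 4000 * (P.K / R) * (40 * R + 1) := by
      rw [h1]
      refine (norm_bil_le _ _).trans ?_
      exact mul_le_mul hδ h3 (nc_nonneg _) (by positivity)
    have h5 : 21 / 4000 * (P.K / R) * (40 * R + 1) ≤ P.K := by
      have e0 : P.K / R * R = P.K := div_mul_cancel₀ _ hRpos.ne'
      have e : 21 / 4000 * (P.K / R) * (40 * R + 1) = 21 / 100 * P.K + 21 / 4000 * (P.K / R) := by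
        linear_combination (21 / 100) * e0
      have : P.K / R ≤ P.K := div_le_self hK.le (by linarith)
      rw [e]
      linarith
    have h6 := norm_sub_norm_le (q μ k m) (q μ k' m)
    rw [norm_sub_rev] at h6
    linarith
  · push Not at hw
    have hw2 : nc (k + zc m) ^ 2 = nr (re (k + zc m)) ^ 2 + R ^ 2 := by
      rw [nc_sq, im_add_zc]
    have h1 : 19 * R + 1 ≤ nr (re (k + zc m)) := by
      refine le_of_sq_le_sq ?_ (nr_nonneg _)
      have h2 : (20 * R) ^ 2 ≤ nc (k + zc m) ^ 2 := pow_le_pow_left₀ (by linarith) hw.le 2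
      nlinarith
    have h2 : nr (re (k + zc m)) ≤ nr (re (k' + zc m)) + 1 := by
      have e : re (k + zc m) = re (k' + zc m) - re (k' - k) := by
        rw [re_add, re_add, re_sub]; abel
      rw [e]
      refine (nr_sub_le _ _).trans ?_
      have := nr_re_le (k' - k)
      linarith
    have h3 : nr (im (k' + zc m)) ≤ R + 1 := by
      rw [im_add_zc]
      have e : im k' = im k + im (k' - k) := by rw [im_sub]; abel
      rw [e]
      refine (nr_add_le _ _).trans ?_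
      have := nr_im_le (k' - k)
      linarith
    have h4 : 19 * R ≤ nr (re (k' + zc m)) := by linarith
    have h5 : (19 * R) ^ 2 ≤ nr (re (k' + zc m)) ^ 2 := pow_le_pow_left₀ (by linarith) h4 2
    have h6 : nr (im (k' + zc m)) ^ 2 ≤ (R + 1) ^ 2 := pow_le_pow_left₀ (nr_nonneg _) h3 2
    have h7 := q0_re μ (k' + zc m)
    have h8 := (abs_le.1 (Complex.abs_re_le_norm μ)).2
    have h9 := P.mu_le_b
    have h10 : (q μ k' m).re ≤ ‖q μ k' m‖ := Complex.re_le_norm _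
    rw [q_shift, h7] at h10
    rw [q_shift]
    have h11 : (κ - 1) * P.K ≤ 99 * P.K := mul_le_mul_of_nonneg_right (by linarith) hK.le
    nlinarith

/-- Site vectors that are relevant near `k` are not longer than `3R`:
`|gs k s| ≥ |s|² - 2|a||s| ` -/
theorem NrC.nz_le {E : Frm} {R : ℝ} {k : Cd 3} (h : NrC μ E R k) {s : Zd 3}
    (hg : ‖gs k s‖ ≤ R * nz s / 100) : nz s ≤ 21 / 10 * R := by
  have hR := h.hR
  norm_num at hR
  by_cases hs : nz s = 0
  · rw [hs]; linarith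
  have hs0 : 0 < nz s := lt_of_le_of_ne (nz_nonneg s) (Ne.symm hs)
  have h1 := (abs_le.1 ((Complex.abs_re_le_norm (gs k s)).trans hg)).2
  rw [gs_re, dt_eq] at h1
  have h2 := (abs_le.1 (abs_dr_le (re k) (rz s))).1
  have h3 := h.circle.2.2.2.1
  have h4 : nr (re k) * nr (rz s) ≤ 101 / 100 * R * nz s := mul_le_mul_of_nonneg_right h3 hs0.le
  have h5 : nz s * nz s ≤ 21 / 10 * R * nz s := by
    have : 0 < R * nz s := by
      have : 0 < R := by linarith
      positivity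
    nlinarith
  exact le_of_mul_le_mul_right h5 hs0

end H9F
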