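import Pool.Agent.Lib.H9F.N7A
import Pool.Agent.Lib.H9F.G4

/-!
# H9F C1: the explicit frame
-/

open scoped BigOperators Topology
open Set Filter

noncomputable section

namespace H9F

open Fermi

variable {M : ℝ} {μ : ℂ} {P : Big M μ}

theorem c1_nu_pos (P : Big M μ) : 0 < nz P.nu := lt_of_lt_of_le (P.pow_pos 1660) (nz_nu P).1

theorem c1_cr_smul (a b : ℝ) (x y : Fin 3 → ℝ) : cr (a • x) (b • y) = (a * b) • cr x y := by
  funext j
  fin_cases j <;> simp [cr] <;> ring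

/-- `y` is not parallel to `ν`: `|y·ν| ≤ 4 b^600 |ν| < |y||ν|` (Lagrange) -/
theorem YY.cr_ne {y : Fin 3 → ℝ} (h : YY P 4 y) : cr (rz P.nu) y ≠ 0 := by
  intro h0
  have h1 := lagrange (rz P.nu) y
  rw [h0, nr_zero] at h1
  have hn : 0 < nr (rz P.nu) := c1_nu_pos P
  have hR := h.R_pos
  have h2 := h.nu
  rw [dt_eq, dr_comm] at h2
  have h3 : 8 * P.b ^ 600 ≤ nr y := h.mul_le (by norm_num) (by norm_num)
  have h4 : (nr (rz P.nu) * nr y) ^ 2 ≤ (4 * P.b ^ 600 * nr (rz P.nu)) ^ 2 := by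
    rw [mul_pow, ← h1]
    have h5 := pow_le_pow_left₀ (abs_nonneg _) h2 2
    rw [sq_abs] at h5
    have h6 : nz P.nu = nr (rz P.nu) := rfl
    rw [h6] at h5
    linarith
  have h5 := le_of_sq_le_sq h4 (by have := P.pow_pos 600; positivity)
  have h7 := P.pow_pos 600
  nlinarith

/-- `f2 = (|y| ν - (ŷ·ν) y)/|ν × y|` -/
theorem f2_eq {y : Fin 3 → ℝ} (h : YY P 4 y) :
    f2 P y = (nr (cr (rz P.nu) y))⁻¹ • (nr y • rz P.nu - (dr y (rz P.nu) / nr y) • y) := by
  have hR := h.R_pos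
  unfold f2 f3 f1
  rw [c1_cr_smul, n1_bac, mul_comm, mul_smul, smul_sub, ← nr_sq, smul_smul, smul_smul]
  congr 2
  · congr 1
    field_simp
  · congr 1
    field_simp

/-- `e2` is far from orthogonal to short vectors. Proof: `f2_eq`, `|ν·s| ≥ 1` (`nu_dt`), `|ŷ·ν||y·s|/|y| ≤ 4b^600·2b^1660·b^120/(b^9999) ≤ 1/2`,
`|ν × y| ≤ |ν||y|`. -/
theorem f2_dt {y : Fin 3 → ℝ} (h : YY P 4 y) {s : Zd 3} (hs : s ≠ 0) (hs' : nz s ≤ P.b ^ 120) :
    1 ≤ 2 * nz P.nu * |dr (f2 P y) (rz s)| := by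
  have hR := h.R_pos
  have hC := nr_pos h.cr_ne
  have hC' := nr_cr_le (rz P.nu) y
  have hn := c1_nu_pos P
  have hn2 := (nz_nu P).2
  have h1 : 1 ≤ |dt (rz P.nu) s| := nu_dt P hs fun j =>
    (abs_le_nz s j).trans (hs'.trans (P.pow_le (by norm_num)))
  rw [dt_eq] at h1
  have h2 := h.nu
  rw [dt_eq] at h2
  have h3 : |dr y (rz s)| ≤ nr y * P.b ^ 120 := (abs_dr_le _ _).trans
    (mul_le_mul_of_nonneg_left hs' hR.le)
  rw [f2_eq h, dr_smul_left, dr_sub_left, dr_smul_left, dr_smul_left, abs_mul, abs_inv, abs_of_pos hC]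
  have h4 : |dr y (rz P.nu) / nr y * dr y (rz s)| ≤ 4 * P.b ^ 600 * nz P.nu * P.b ^ 120 := by
    rw [abs_mul, abs_div, abs_of_pos hR, div_mul_eq_mul_div, div_le_iff₀ hR]
    have hb := P.pow_pos 600
    have h5 := mul_le_mul h2 h3 (abs_nonneg _) (mul_nonneg (mul_nonneg (by norm_num) hb.le) hn.le)
    have e : 4 * P.b ^ 600 * nz P.nu * P.b ^ 120 * nr y =
      4 * P.b ^ 600 * nz P.nu * (nr y * P.b ^ 120) := by ring
    rw [e]
    exact h5
  have h5 : 4 * P.b ^ 600 * nz P.nu * P.b ^ 120 ≤ nr y / 2 := by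
    have h6 : 16 * P.b ^ 2380 ≤ nr y := h.mul_le (by norm_num) (by norm_num)
    have h7 : 4 * P.b ^ 600 * nz P.nu * P.b ^ 120 ≤
        4 * P.b ^ 600 * (2 * P.b ^ 1660) * P.b ^ 120 :=
      mul_le_mul_of_nonneg_right (mul_le_mul_of_nonneg_left hn2
        (mul_nonneg (by norm_num) (P.pow_pos 600).le)) (P.pow_pos 120).le
    have h8 : 4 * P.b ^ 600 * (2 * P.b ^ 1660) * P.b ^ 120 = 8 * P.b ^ 2380 := by ring
    rw [h8] at h7
    linarith
  have h6 : nr y / 2 ≤ |nr y * dr (rz P.nu) (rz s) - dr y (rz P.nu) / nr y * dr y (rz s)| := by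
    have h7 := abs_sub_abs_le_abs_sub (nr y * dr (rz P.nu) (rz s))
      (dr y (rz P.nu) / nr y * dr y (rz s))
    have h8 : nr y ≤ |nr y * dr (rz P.nu) (rz s)| := by
      rw [abs_mul, abs_of_pos hR]
      exact le_mul_of_one_le_right hR.le h1
    linarith only [h7, h8, h4, h5]
  have h7 : nr y ≤ 2 * |nr y * dr (rz P.nu) (rz s) - dr y (rz P.nu) / nr y * dr y (rz s)| := by
    linarith
  have hC2 : nr (cr (rz P.nu) y) ≤ nz P.nu * nr y := hC'
  set A := |nr y * dr (rz P.nu) (rz s) - dr y (rz P.nu) / nr y * dr y (rz s)| with hA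
  have h8 : 2 * nz P.nu * ((nr (cr (rz P.nu) y))⁻¹ * A) =
      (nz P.nu * (2 * A)) / nr (cr (rz P.nu) y) := by
    rw [div_eq_mul_inv]; ring
  rw [h8, le_div_iff₀ hC, one_mul]
  exact hC2.trans (mul_le_mul_of_nonneg_left h7 hn.le)

theorem c1_nr_one {x : Fin 3 → ℝ} (h : dr x x = 1) : nr x = 1 := by
  unfold nr; rw [h, Real.sqrt_one]

theorem c1_f3 {y : Fin 3 → ℝ} (h : YY P 4 y) : nr y • f3 y = y := by
  unfold f3
  rw [smul_smul, mul_inv_cancel₀ h.R_pos.ne', one_smul]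

theorem f2_unit {y : Fin 3 → ℝ} (h : YY P 4 y) :
    nr (f2 P y) = 1 ∧ dr (f2 P y) y = 0 ∧ nr (f1 P y) = 1 ∧ dr (f1 P y) y = 0 ∧
    dr (f1 P y) (f2 P y) = 0 := by
  obtain ⟨h1, h2, h3, h4, h5, h6⟩ := frm_aux P h.cr_ne
  refine ⟨c1_nr_one h2, ?_, c1_nr_one h1, ?_, h4⟩
  · rw [← c1_f3 h, dr_smul_right]
    rw [c1_f3 h, h6, mul_zero]
  · rw [← c1_f3 h, dr_smul_right]
    rw [c1_f3 h, h5, mul_zero]

/-- the frame is adapted exactly to its own `y` -/
theorem frm_adapted {y : Fin 3 → ℝ} (h : YY P 4 y) :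
    dr y (frm P y).e1 = 0 ∧ dr y (frm P y).e2 = 0 ∧ dr y (frm P y).e3 = nr y := by
  obtain ⟨h1, h2, h3, h4, h5⟩ := f2_unit h
  rw [frm_e1 P h.cr_ne, frm_e2 P h.cr_ne, frm_e3 P h.cr_ne]
  refine ⟨by rw [dr_comm]; exact h4, by rw [dr_comm]; exact h2, ?_⟩
  unfold f3
  rw [dr_smul_right, ← nr_sq, sq, ← mul_assoc, inv_mul_cancel₀ h.R_pos.ne', one_mul]

theorem RR.yy3 {k : Cd 3} {y : Fin 3 → ℝ} (h : RR P k y) : YY P 3 y := by
  refine h.yy.move (by norm_num) (by norm_num) (by norm_num) (h.near.trans ?_)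
  have h1 := P.rho_le_one
  have h2 : 10 * P.b ^ 1 ≤ P.b ^ 550 := P.mul_pow_le (by norm_num) (by norm_num)
  have h3 := P.one_le_b
  rw [pow_one] at h2
  linarith

/-- Proof: `y` is within `10ρ` of `im k`; `YY.move`; `im k · e1 = (im k - y)·e1`, etc. -/
theorem RR.re {k : Cd 3} {y : Fin 3 → ℝ} (h : RR P k y) : RE P k (frm P y) := by
  have hy4 : YY P 4 y := h.yy3.mono (by norm_num)
  obtain ⟨a1, a2, a3⟩ := frm_adapted hy4
  have hρ := P.rho_pos
  have key : ∀ e : Fin 3 → ℝ, dr e e = 1 → |dr (im k) e - dr y e| ≤ 10 * P.rho := by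
    intro e he
    rw [← dr_sub_left]
    have h1 := abs_dr_le (im k - y) e
    rw [c1_nr_one he, mul_one, nr_sub_comm] at h1
    exact h1.trans h.near
  refine ⟨h.q0, h.yy.mono (by norm_num), h.nf, ?_, ?_, ?_⟩
  · have := key _ (frm P y).h11
    rw [a1, sub_zero] at this
    linarith
  · have := key _ (frm P y).h22
    rw [a2, sub_zero] at this
    linarith
  · have h1 := key _ (frm P y).h33
    rw [a3] at h1
    have h2 := (abs_nr_sub_le y (im k)).trans h.near
    have h3 : dr (im k) (frm P y).e3 - nr (im k) =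
        (dr (im k) (frm P y).e3 - nr y) + (nr y - nr (im k)) := by ring
    rw [h3]
    refine (abs_add_le _ _).trans ?_
    linarith

theorem RE.kc {k : Cd 3} {E : Frm} (h : RE P k E) : KC P k := by
  refine ⟨h.yy.mono (by norm_num), ?_⟩
  rw [h.q0, norm_zero]
  positivity

/-- slices through points without short obstacles -/
theorem SL.of {p : Cd 3} (hy : YY P 2 (im p))
    (hn : ∀ n, ‖q μ p n‖ ≤ 100 * nr (im p) * P.rho → NF P (P.b ^ 500) (p + zc n)) :
    SL P p (frm P (im p)) := by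
  obtain ⟨a1, a2, a3⟩ := frm_adapted (hy.mono (by norm_num : (2 : ℝ) ≤ 4))
  exact ⟨hy, a1, a2, a3, hn⟩

theorem c1_cont_nr : Continuous nr := by
  unfold nr
  simp only [dr3]
  fun_prop

theorem c1_cont_cr {X : Type*} [TopologicalSpace X] {S : Set X} {f g : X → Fin 3 → ℝ}
    (hf : ContinuousOn f S) (hg : ContinuousOn g S) : ContinuousOn (fun x => cr (f x) (g x)) S := by
  have hf' := fun j => continuousOn_pi.1 hf j
  have hg' := fun j => continuousOn_pi.1 hg j
  refine continuousOn_pi.2 fun j => ?_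
  fin_cases j
  · exact ((hf' 1).mul (hg' 2)).sub ((hf' 2).mul (hg' 1))
  · exact ((hf' 2).mul (hg' 0)).sub ((hf' 0).mul (hg' 2))
  · exact ((hf' 0).mul (hg' 1)).sub ((hf' 1).mul (hg' 0))

theorem continuousOn_f1 (P : Big M μ) : ContinuousOn (f1 P) {y | YY P 4 y} := by
  have h1 : ContinuousOn (fun y => cr (rz P.nu) y) {y | YY P 4 y} :=
    c1_cont_cr continuousOn_const continuousOn_id
  have h2 : ContinuousOn (fun y => nr (cr (rz P.nu) y)) {y | YY P 4 y} :=
    c1_cont_nr.comp_continuousOn h1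
  exact (h2.inv₀ fun y hy => (nr_pos (YY.cr_ne hy)).ne').smul h1

theorem c1_cont_f3 (P : Big M μ) : ContinuousOn f3 {y | YY P 4 y} := by
  have h2 : ContinuousOn (fun y => nr y) {y | YY P 4 y} := c1_cont_nr.continuousOn
  exact (h2.inv₀ fun y hy => (YY.R_pos hy).ne').smul continuousOn_id

theorem continuousOn_f2 (P : Big M μ) : ContinuousOn (f2 P) {y | YY P 4 y} :=
  c1_cont_cr (c1_cont_f3 P) (continuousOn_f1 P)

theorem continuousOn_frmU (P : Big M μ) : ContinuousOn (fun y => (frm P y).U) {y | YY P 4 y} := by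
  have h1 : ContinuousOn (fun y => fun j => ((f1 P y j : ℂ) + Complex.I * (f2 P y j : ℂ)))
      {y | YY P 4 y} := by
    refine continuousOn_pi.2 fun j => ?_
    have a1 := continuousOn_pi.1 (continuousOn_f1 P) j
    have a2 := continuousOn_pi.1 (continuousOn_f2 P) j
    exact (Complex.continuous_ofReal.comp_continuousOn a1).add
      (continuousOn_const.mul (Complex.continuous_ofReal.comp_continuousOn a2))
  refine h1.congr fun y hy => ?_
  have hc := YY.cr_ne hy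
  funext j
  simp only [Frm.U, frm_e1 P hc, frm_e2 P hc]

theorem continuousOn_frmV (P : Big M μ) : ContinuousOn (fun y => (frm P y).V) {y | YY P 4 y} := by
  have h1 : ContinuousOn (fun y => fun j => (3 * (f1 P y j : ℂ) + 5 * Complex.I * (f2 P y j : ℂ) +
      4 * (f3 y j : ℂ))) {y | YY P 4 y} := by
    refine continuousOn_pi.2 fun j => ?_
    have a1 := continuousOn_pi.1 (continuousOn_f1 P) j
    have a2 := continuousOn_pi.1 (continuousOn_f2 P) j
    have a3 := continuousOn_pi.1 (c1_cont_f3 P) j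
    exact ((continuousOn_const.mul (Complex.continuous_ofReal.comp_continuousOn a1)).add
      (continuousOn_const.mul (Complex.continuous_ofReal.comp_continuousOn a2))).add
      (continuousOn_const.mul (Complex.continuous_ofReal.comp_continuousOn a3))
  refine h1.congr fun y hy => ?_
  have hc := YY.cr_ne hy
  funext j
  simp only [Frm.V, frm_e1 P hc, frm_e2 P hc, frm_e3 P hc]

end H9F
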