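import Pool.Agent.Lib.H9F.C1

/-!
# H9F C2: parametrisation of the sheet `q_0 = 0`

`kp μ y ω = α y + β ω + i y`, `α = Im μ/(2|y|²)`, `β = √(|y|² + Re μ - α²|y|²)`, `ω` a unit vector orthogonal to `y`.
For `YY P 4 y`: `|α||y|² ≤ b`, `.99|y| ≤ β ≤ 1.01|y|`.
-/

open scoped BigOperators Topology
open Set Filter

noncomputable section

namespace H9F

open Fermi

variable {M : ℝ} {μ : ℂ} {P : Big M μ}

def kal (μ : ℂ) (y : Fin 3 → ℝ) : ℝ := μ.im / (2 * nr y ^ 2)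
def kbe (μ : ℂ) (y : Fin 3 → ℝ) : ℝ := Real.sqrt (nr y ^ 2 + μ.re - kal μ y ^ 2 * nr y ^ 2)
def kp (μ : ℂ) (y ω : Fin 3 → ℝ) : Cd 3 :=
  fun j => ((kal μ y * y j + kbe μ y * ω j : ℝ) : ℂ) + (y j : ℂ) * Complex.I

theorem im_kp (μ : ℂ) (y ω : Fin 3 → ℝ) : im (kp μ y ω) = y := by
  funext j; simp [im, kp]

theorem re_kp (μ : ℂ) (y ω : Fin 3 → ℝ) : re (kp μ y ω) = kal μ y • y + kbe μ y • ω := by
  funext j; simp [re, kp]

theorem kbe_bounds {y : Fin 3 → ℝ} (hy : YY P 4 y) :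
    99 / 100 * nr y ≤ kbe μ y ∧ kbe μ y ≤ 101 / 100 * nr y ∧ |kal μ y| * nr y ^ 2 ≤ P.b ∧
    kbe μ y ^ 2 = nr y ^ 2 + μ.re - kal μ y ^ 2 * nr y ^ 2 := by
  have hR := hy.R_pos
  have hb := P.one_le_b
  have h1 : 10 ^ 6 * P.b ^ 1 ≤ nr y := hy.mul_le (by norm_num) (by norm_num)
  rw [pow_one] at h1
  have hre := (Complex.abs_re_le_norm μ).trans P.mu_le_b
  have him := (Complex.abs_im_le_norm μ).trans P.mu_le_b
  have hR2 : 0 < nr y ^ 2 := by positivity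
  have e1 : kal μ y * nr y ^ 2 = μ.im / 2 := by
    unfold kal; field_simp
  have e2 : |kal μ y| * nr y ^ 2 = |μ.im| / 2 := by
    have h2 : |kal μ y * nr y ^ 2| = |kal μ y| * nr y ^ 2 := by rw [abs_mul, abs_of_pos hR2]
    rw [← h2, e1, abs_div, abs_two]
  have e3 : kal μ y ^ 2 * nr y ^ 2 * nr y ^ 2 = (μ.im / 2) ^ 2 := by rw [← e1]; ring
  have e4 : kal μ y ^ 2 * nr y ^ 2 ≤ 1 := by
    have h2 : (μ.im / 2) ^ 2 ≤ nr y ^ 2 := by
      have h3 : |μ.im / 2| ≤ nr y := by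
        rw [abs_div, abs_two]
        linarith [abs_nonneg μ.im]
      have h4 := pow_le_pow_left₀ (abs_nonneg _) h3 2
      rwa [sq_abs] at h4
    rw [← e3] at h2
    have h5 : kal μ y ^ 2 * nr y ^ 2 * nr y ^ 2 ≤ 1 * nr y ^ 2 := by linarith
    exact le_of_mul_le_mul_right h5 hR2
  have e5 : 0 ≤ kal μ y ^ 2 * nr y ^ 2 := by positivity
  have hre1 := (abs_le.1 hre).1
  have hre2 := (abs_le.1 hre).2
  have hRR : 10 ^ 6 * nr y ≤ nr y ^ 2 := by nlinarith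
  have h0 : 0 ≤ nr y ^ 2 + μ.re - kal μ y ^ 2 * nr y ^ 2 := by nlinarith
  refine ⟨?_, ?_, by rw [e2]; linarith [abs_nonneg μ.im], ?_⟩
  · refine Real.le_sqrt_of_sq_le ?_
    nlinarith
  · unfold kbe
    rw [Real.sqrt_le_left (by positivity)]
    nlinarith
  · unfold kbe
    exact Real.sq_sqrt h0

theorem kp_q0 {y ω : Fin 3 → ℝ} (hy : YY P 4 y) (h1 : nr ω = 1) (h2 : dr ω y = 0) :
    q μ (kp μ y ω) 0 = 0 := by
  have hR := hy.R_pos
  obtain ⟨-, -, -, h3⟩ := kbe_bounds hy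
  have h4 : dr y ω = 0 := by rw [dr_comm]; exact h2
  have h5 : dr ω ω = 1 := by rw [← nr_sq, h1, one_pow]
  have h6 : dr y y = nr y ^ 2 := (nr_sq y).symm
  apply Complex.ext
  · rw [q0_re, re_kp, im_kp, nr_sq (kal μ y • y + kbe μ y • ω)]
    simp only [dr_add_left, dr_add_right, dr_smul_left, dr_smul_right, h2, h4, h5, h6]
    rw [Complex.zero_re]
    linear_combination h3
  · rw [q0_im, re_kp, im_kp]
    simp only [dr_add_left, dr_smul_left, h2, h6]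
    rw [Complex.zero_im]
    unfold kal
    field_simp
    ring

theorem kp_surj {k : Cd 3} (hk : q μ k 0 = 0) (hy : YY P 4 (im k)) :
    ∃ ω : Fin 3 → ℝ, nr ω = 1 ∧ dr ω (im k) = 0 ∧ k = kp μ (im k) ω := by
  have hR := hy.R_pos
  obtain ⟨h1, -, -, h3⟩ := kbe_bounds (μ := μ) hy
  have hβ : 0 < kbe μ (im k) := by linarith
  have hre : nr (re k) ^ 2 - nr (im k) ^ 2 - μ.re = 0 := by rw [← q0_re, hk, Complex.zero_re]
  have him : 2 * dr (re k) (im k) - μ.im = 0 := by rw [← q0_im, hk, Complex.zero_im]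
  have h6 : dr (im k) (im k) = nr (im k) ^ 2 := (nr_sq _).symm
  have e1 : kal μ (im k) * nr (im k) ^ 2 = μ.im / 2 := by
    unfold kal; field_simp
  have h7 : dr (re k - kal μ (im k) • im k) (im k) = 0 := by
    rw [dr_sub_left, dr_smul_left, h6, e1]
    linarith
  have h8 : nr (re k - kal μ (im k) • im k) ^ 2 = kbe μ (im k) ^ 2 := by
    rw [nr_sq, dr_sub_right, dr_smul_right, h7, mul_zero, sub_zero, dr_sub_left, dr_smul_left,
      ← nr_sq, h3, dr_comm (im k) (re k)]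
    have e2 : kal μ (im k) ^ 2 * nr (im k) ^ 2 = kal μ (im k) * (μ.im / 2) := by
      rw [← e1]; ring
    rw [e2]
    have e3 : dr (re k) (im k) = μ.im / 2 := by linarith
    rw [e3]
    linarith
  have h9 : nr (re k - kal μ (im k) • im k) = kbe μ (im k) :=
    (pow_left_inj₀ (nr_nonneg _) hβ.le two_ne_zero).1 h8
  refine ⟨(kbe μ (im k))⁻¹ • (re k - kal μ (im k) • im k), ?_, ?_, ?_⟩
  · rw [nr_smul, h9, abs_inv, abs_of_pos hβ, inv_mul_cancel₀ hβ.ne']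
  · rw [dr_smul_left, h7, mul_zero]
  · funext j
    have h10 : kal μ (im k) * im k j +
        kbe μ (im k) * ((kbe μ (im k))⁻¹ • (re k - kal μ (im k) • im k)) j = re k j := by
      simp only [Pi.smul_apply, Pi.sub_apply, smul_eq_mul]
      rw [← mul_assoc, mul_inv_cancel₀ hβ.ne', one_mul]
      ring
    unfold kp
    rw [h10]
    exact (Complex.re_add_im (k j)).symm

theorem continuousOn_kp (P : Big M μ) : ContinuousOn (fun x : (Fin 3 → ℝ) × (Fin 3 → ℝ) => kp μ x.1 x.2)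
    {x | YY P 4 x.1} := by
  have h1 : ContinuousOn (fun x : (Fin 3 → ℝ) × (Fin 3 → ℝ) => nr x.1) {x | YY P 4 x.1} :=
    (c1_cont_nr.comp continuous_fst).continuousOn
  have h2 : ContinuousOn (fun x : (Fin 3 → ℝ) × (Fin 3 → ℝ) => kal μ x.1) {x | YY P 4 x.1} := by
    unfold kal
    refine continuousOn_const.div (continuousOn_const.mul (h1.pow 2)) fun x hx => ?_
    have := YY.R_pos hx
    positivity
  have h3 : ContinuousOn (fun x : (Fin 3 → ℝ) × (Fin 3 → ℝ) => kbe μ x.1) {x | YY P 4 x.1} := by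
    unfold kbe
    exact Real.continuous_sqrt.comp_continuousOn
      (((h1.pow 2).add continuousOn_const).sub ((h2.pow 2).mul (h1.pow 2)))
  refine continuousOn_pi.2 fun j => ?_
  have h4 : ContinuousOn (fun x : (Fin 3 → ℝ) × (Fin 3 → ℝ) => x.1 j) {x | YY P 4 x.1} :=
    ((continuous_apply j).comp continuous_fst).continuousOn
  have h5 : ContinuousOn (fun x : (Fin 3 → ℝ) × (Fin 3 → ℝ) => x.2 j) {x | YY P 4 x.1} :=
    ((continuous_apply j).comp continuous_snd).continuousOn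
  unfold kp
  exact (Complex.continuous_ofReal.comp_continuousOn ((h2.mul h4).add (h3.mul h5))).add
    ((Complex.continuous_ofReal.comp_continuousOn h4).mul continuousOn_const)

/-- `|k·s| ≥ |Re| ≥ β|ω·s| - |α||y·s| ≥ .99 R|ω·s| - 1` -/
theorem nf_of_big {y ω : Fin 3 → ℝ} (hy : YY P 4 y)
    (h : ∀ s : Zd 3, s ≠ 0 → nz s ≤ P.b ^ 120 → P.b ^ 501 ≤ nr y * |dr ω (rz s)|) :
    NF P (P.b ^ 500 / 2) (kp μ y ω) := by
  intro s hs hs'
  have hR := hy.R_pos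
  obtain ⟨h1, -, h2, -⟩ := kbe_bounds (μ := μ) hy
  have h3 := h s hs hs'
  refine le_trans ?_ (Complex.abs_re_le_norm _)
  rw [bil_zc_re, dt_eq, re_kp, dr_add_left, dr_smul_left, dr_smul_left]
  have h4 : |kal μ y * dr y (rz s)| ≤ 1 := by
    rw [abs_mul]
    have h5 : |dr y (rz s)| ≤ nr y * P.b ^ 120 := (abs_dr_le _ _).trans
      (mul_le_mul_of_nonneg_left hs' hR.le)
    have h6 : |kal μ y| * |dr y (rz s)| ≤ |kal μ y| * (nr y * P.b ^ 120) :=
      mul_le_mul_of_nonneg_left h5 (abs_nonneg _)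
    have h7 : 1 * P.b ^ 121 ≤ nr y := hy.mul_le (by norm_num) (by norm_num)
    have h8 : |kal μ y| * (nr y * P.b ^ 120) * nr y ≤ 1 * nr y := by
      calc |kal μ y| * (nr y * P.b ^ 120) * nr y = (|kal μ y| * nr y ^ 2) * P.b ^ 120 := by ring
        _ ≤ P.b * P.b ^ 120 := mul_le_mul_of_nonneg_right h2 (P.pow_pos 120).le
        _ = 1 * P.b ^ 121 := by ring
        _ ≤ 1 * nr y := by linarith
    exact h6.trans (le_of_mul_le_mul_right h8 hR)
  have h5 : 99 / 100 * P.b ^ 501 ≤ |kbe μ y * dr ω (rz s)| := by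
    rw [abs_mul, abs_of_nonneg (by linarith : 0 ≤ kbe μ y)]
    have h6 : 99 / 100 * nr y * |dr ω (rz s)| ≤ kbe μ y * |dr ω (rz s)| :=
      mul_le_mul_of_nonneg_right h1 (abs_nonneg _)
    linarith
  have h6 := abs_sub_abs_le_abs_add (kbe μ y * dr ω (rz s)) (kal μ y * dr y (rz s))
  have h7 : 100 * P.b ^ 500 ≤ P.b ^ 501 := P.mul_pow_le (by norm_num) (by norm_num)
  have h8 : 1 ≤ P.b ^ 500 := one_le_pow₀ P.one_le_b
  rw [add_comm (kal μ y * dr y (rz s))]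
  linarith only [h4, h5, h6, h7, h8]

/-- `|k·s| ≥ |Im| = |y·s|` -/
theorem nf_of_im {k : Cd 3} {g : ℝ}
    (h : ∀ s : Zd 3, s ≠ 0 → nz s ≤ P.b ^ 120 → g ≤ |dt (im k) s|) : NF P g k := by
  intro s hs hs'
  refine (h s hs hs').trans ?_
  rw [← bil_zc_im]
  exact Complex.abs_im_le_norm _

/-- `ω = ± f2 y`: no short obstacles, whatever `y` is (`f2_dt`: `nr y/(2 nz ν) ≥ b^9999/(4 b^1660) ≥ b^501`) -/
theorem nf_f2 {y : Fin 3 → ℝ} (hy : YY P 4 y) :
    NF P (P.b ^ 500 / 2) (kp μ y (f2 P y)) ∧ NF P (P.b ^ 500 / 2) (kp μ y (-f2 P y)) := by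
  have hR := hy.R_pos
  have hn := c1_nu_pos P
  have hn2 := (nz_nu P).2
  have key : ∀ s : Zd 3, s ≠ 0 → nz s ≤ P.b ^ 120 →
      P.b ^ 501 ≤ nr y * |dr (f2 P y) (rz s)| := by
    intro s hs hs'
    have h1 := f2_dt hy hs hs'
    have h2 : 4 * P.b ^ 2161 ≤ nr y := hy.mul_le (by norm_num) (by norm_num)
    have h3 : P.b ^ 501 * (2 * nz P.nu) ≤ nr y := by
      calc P.b ^ 501 * (2 * nz P.nu) ≤ P.b ^ 501 * (2 * (2 * P.b ^ 1660)) :=
            mul_le_mul_of_nonneg_left (by linarith) (P.pow_pos 501).le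
        _ = 4 * P.b ^ 2161 := by ring
        _ ≤ nr y := h2
    have h4 : P.b ^ 501 * (2 * nz P.nu) ≤ (nr y * |dr (f2 P y) (rz s)|) * (2 * nz P.nu) := by
      calc P.b ^ 501 * (2 * nz P.nu) ≤ nr y := h3
        _ ≤ nr y * (2 * nz P.nu * |dr (f2 P y) (rz s)|) := le_mul_of_one_le_right hR.le h1
        _ = _ := by ring
    exact le_of_mul_le_mul_right h4 (by linarith)
  refine ⟨nf_of_big hy key, nf_of_big hy fun s hs hs' => ?_⟩
  have h1 : dr (-f2 P y) (rz s) = -dr (f2 P y) (rz s) := by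
    rw [dr3, dr3]; simp only [Pi.neg_apply]; ring
  rw [h1, abs_neg]
  exact key s hs hs'

/-- assembling a base point -/
theorem rr_kp {y ω : Fin 3 → ℝ} (hy : YY P (5 / 2) y) (h1 : nr ω = 1) (h2 : dr ω y = 0)
    (hn : NF P (P.b ^ 500 / 2) (kp μ y ω)) : RR P (kp μ y ω) y := by
  refine ⟨kp_q0 (hy.mono (by norm_num)) h1 h2, by rw [im_kp]; exact hy, hn, ?_⟩
  rw [im_kp, sub_self, nr_zero]
  have := P.rho_pos
  positivity

end H9F
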