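import Pool.Agent.Lib.H9F.S2

/-!
# H9F P1: obstacles on a patch, good lines
-/

open scoped BigOperators Topology
open Set Filter

noncomputable section

namespace H9F

open Fermi

variable {M : ℝ} {μ : ℂ} {P : Big M μ}

theorem p1_R {k : Cd 3} {E : Frm} (h : RE P k E) : P.b ^ 9999 ≤ nr (im k) :=
  (h.yy.mono (by norm_num : (3 : ℝ) ≤ 4)).R_ge

theorem p1_K (P : Big M μ) : 1000 * P.K ≤ P.b := by
  have h1 := P.K_le
  have h2 := P.K_pos
  nlinarith

theorem p1_bR {k : Cd 3} {E : Frm} (h : RE P k E) : 10 ^ 36 * P.b ≤ nr (im k) := by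
  have h1 := p1_R h
  have h2 := P.mul_pow_le (c := 10 ^ 36) (i := 1) (j := 9999) le_rfl (by norm_num)
  rw [pow_one] at h2
  exact h2.trans h1

theorem p1_nrc {k : Cd 3} {E : Frm} (h : RE P k E) : NrC μ E (nr (im k)) k := by
  have h1 := h.nrc (τ := 0) (z := 0) (by simp [P.rho_pos.le]) (by simp [P.rho_pos.le])
  rwa [pt_zero] at h1

theorem p1_tau {k : Cd 3} {E : Frm} (h : RE P k E) {τ : ℂ} (hτ : ‖τ‖ ≤ 5 / 4 * P.rho) :
    ‖τ‖ ≤ nr (im k) / 1000 := by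
  have h1 := p1_bR h
  have h2 := P.rho_le_one
  have h3 := P.one_le_b
  have h4 : (10 : ℝ) ^ 36 * 1 ≤ 10 ^ 36 * P.b := by gcongr
  linarith

theorem p1_q0 {k : Cd 3} {E : Frm} (h : RE P k E) {τ : ℂ} (hτ : ‖τ‖ ≤ 5 / 4 * P.rho) :
    q μ (sp μ E k τ) 0 = 0 := by
  apply q_sp
  have h1 := (p1_nrc h).den (p1_tau h hτ)
  have h2 := (h.yy.mono (by norm_num : (3 : ℝ) ≤ 4)).R_pos
  intro h3
  rw [h3, norm_zero] at h1
  linarith

theorem p1_zet {k : Cd 3} {E : Frm} (h : RE P k E) {τ : ℂ} (hτ : ‖τ‖ ≤ 5 / 4 * P.rho) :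
    ‖zet μ E k τ‖ ≤ 3 / 2 * P.rho := by
  have h1 := P.rho_pos
  have h2 := h.zet_le (τ := τ) (by linarith)
  linarith

theorem p1_sp {k : Cd 3} {E : Frm} (h : RE P k E) {τ : ℂ} (hτ : ‖τ‖ ≤ 5 / 4 * P.rho) :
    NrC μ E (nr (im k)) (sp μ E k τ) := by
  have h1 := P.rho_pos
  have h2 := p1_zet h hτ
  exact h.nrc (by linarith) (by linarith)

/-- Sites resonant with the patch are obstacle vectors: on the sheet `q_m = gs`, and
`|gs k m| ≤ 10 K + 2·(5/4)ρ|m| + 2·(3/2)ρ·5|m|` (`gs_pt`, `RE.zet_le`). -/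
theorem patch_ob {k : Cd 3} {E : Frm} (h : RE P k E) {m : Zd 3} (hm : m ≠ 0) {τ : ℂ}
    (hτ : ‖τ‖ ≤ 5 / 4 * P.rho) (hq : ‖q μ (sp μ E k τ) m‖ ≤ 10 * P.K) : Ob P k m := by
  refine ⟨hm, ?_⟩
  rw [q_gs, p1_q0 h hτ, zero_add] at hq
  have hz := p1_zet h hτ
  have h1 := gs_pt E k τ (zet μ E k τ) m
  have h2 : gs k m = gs (sp μ E k τ) m - 2 * τ * bil (zc m) E.U
      - 2 * zet μ E k τ * bil (zc m) E.V := by
    unfold sp; rw [h1]; ring
  have hU := E.norm_zc_U m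
  have hV := E.norm_zc_V m
  have hρ := P.rho_pos
  have hn := nz_nonneg m
  have h3 : ‖2 * τ * bil (zc m) E.U‖ ≤ 5 / 2 * P.rho * nz m := by
    rw [norm_mul, norm_mul]
    have : ‖(2 : ℂ)‖ = 2 := by simp
    rw [this]
    have h4 : 2 * ‖τ‖ ≤ 5 / 2 * P.rho := by linarith
    exact mul_le_mul h4 hU (norm_nonneg _) (by positivity)
  have h4 : ‖2 * zet μ E k τ * bil (zc m) E.V‖ ≤ 3 * P.rho * (5 * nz m) := by
    rw [norm_mul, norm_mul]
    have : ‖(2 : ℂ)‖ = 2 := by simp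
    rw [this]
    have h4 : 2 * ‖zet μ E k τ‖ ≤ 3 * P.rho := by linarith
    exact mul_le_mul h4 hV (norm_nonneg _) (by positivity)
  rw [h2]
  have h5 := norm_sub_le (gs (sp μ E k τ) m - 2 * τ * bil (zc m) E.U)
    (2 * zet μ E k τ * bil (zc m) E.V)
  have h6 := norm_sub_le (gs (sp μ E k τ) m) (2 * τ * bil (zc m) E.U)
  have h7 := p1_K P
  have h8 := P.K_pos
  have h9 : 0 ≤ P.rho * nz m := mul_nonneg hρ.le hn
  nlinarith

/-- The part of the patch where a site is resonant is small. Proof: `NrC.tr` at `sp τ'` (`RE.nrc`), with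
`(τ - τ', zet τ - zet τ')` (`pt_pt`), `Δq_0 = 0`, `|Δgs| ≤ 20 K`. -/
theorem patch_diam {k : Cd 3} {E : Frm} (h : RE P k E) {m : Zd 3} (hm : m ≠ 0) {τ τ' : ℂ}
    (hτ : ‖τ‖ ≤ 5 / 4 * P.rho) (hτ' : ‖τ'‖ ≤ 5 / 4 * P.rho)
    (hq : ‖q μ (sp μ E k τ) m‖ ≤ 10 * P.K) (hq' : ‖q μ (sp μ E k τ') m‖ ≤ 10 * P.K) :
    nz m * ‖τ - τ'‖ ≤ 100 * P.K := by
  have hR := (h.yy.mono (by norm_num : (3 : ℝ) ≤ 4)).R_pos
  have hbR := p1_bR h
  have hK := p1_K P
  have hKp := P.K_pos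
  have hm1 := one_le_nz hm
  have hρ := P.rho_pos
  have hρ1 := P.rho_le_one
  have hb1 := P.one_le_b
  have hz := p1_zet h hτ
  have hz' := p1_zet h hτ'
  rw [q_gs, p1_q0 h hτ, zero_add] at hq
  rw [q_gs, p1_q0 h hτ', zero_add] at hq'
  have e : E.pt (sp μ E k τ') (τ - τ') (zet μ E k τ - zet μ E k τ') = sp μ E k τ := by
    unfold sp; rw [pt_pt]; congr 1 <;> ring
  have h1 : ‖gs (sp μ E k τ') m‖ ≤ nr (im k) * nz m / 100 := by
    have h2 : nr (im k) * 1 ≤ nr (im k) * nz m := mul_le_mul_of_nonneg_left hm1 hR.le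
    linarith
  have h2 : ‖τ - τ'‖ ≤ nr (im k) / 1000 := by
    have := norm_sub_le τ τ'
    linarith
  have h3 : ‖zet μ E k τ - zet μ E k τ'‖ ≤ nr (im k) / 1000 := by
    have := norm_sub_le (zet μ E k τ) (zet μ E k τ')
    linarith
  have h4 := ((p1_sp h hτ').tr h1 h2 h3).1
  rw [e, p1_q0 h hτ, p1_q0 h hτ', sub_zero, norm_zero, mul_zero, zero_add] at h4
  have h5 := norm_sub_le (gs (sp μ E k τ) m) (gs (sp μ E k τ') m)
  have h6 : nr (im k) * (nz m * ‖τ - τ'‖) ≤ nr (im k) * (100 * P.K) := by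
    have h7 : 5 * nr (im k) * ‖gs (sp μ E k τ) m - gs (sp μ E k τ') m‖ ≤
        5 * nr (im k) * (20 * P.K) := mul_le_mul_of_nonneg_left (by linarith) (by positivity)
    linarith
  exact le_of_mul_le_mul_left h6 hR

/-- Points of an interval outside finitely many short closed intervals (Lebesgue measure, or
`MeasureTheory.measure_biUnion_finset_le`). -/
theorem exists_avoid {ι : Type*} (X : Finset ι) (x r : ι → ℝ) (a c : ℝ) (hr : ∀ i ∈ X, 0 ≤ r i)
    (h : 2 * ∑ i ∈ X, r i < c - a) : ∃ t ∈ Icc a c, ∀ i ∈ X, r i < |t - x i| := by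
  by_contra hcon
  push Not at hcon
  have h1 : Icc a c ⊆ ⋃ i ∈ X, Metric.closedBall (x i) (r i) := by
    intro t ht
    obtain ⟨i, hi, h2⟩ := hcon t ht
    simp only [mem_iUnion]
    exact ⟨i, hi, by rw [Metric.mem_closedBall, Real.dist_eq]; exact h2⟩
  have h2 := (MeasureTheory.measure_mono (μ := MeasureTheory.volume) h1).trans
    (MeasureTheory.measure_biUnion_finset_le X _)
  rw [Real.volume_Icc] at h2
  have h3 : ∑ i ∈ X, MeasureTheory.volume (Metric.closedBall (x i) (r i)) =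
      ENNReal.ofReal (2 * ∑ i ∈ X, r i) := by
    rw [Finset.mul_sum, ENNReal.ofReal_sum_of_nonneg (fun i hi => by have := hr i hi; positivity)]
    refine Finset.sum_congr rfl fun i _ => ?_
    rw [Real.volume_closedBall]
  rw [h3] at h2
  have h4 : 0 ≤ 2 * ∑ i ∈ X, r i := by
    have := Finset.sum_nonneg hr
    positivity
  have h5 := (ENNReal.ofReal_le_ofReal_iff h4).1 h2
  linarith

/-- points of the square have `‖τ‖ ≤ 5/4 ρ` -/
theorem square_le {ρ : ℝ} {τ : ℂ} (h1 : |τ.re| ≤ 3 / 4 * ρ) (h2 : |τ.im| ≤ 3 / 4 * ρ) :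
    ‖τ‖ ≤ 5 / 4 * ρ := by
  have hρ : 0 ≤ ρ := by have := (abs_nonneg _).trans h1; linarith
  refine le_of_sq_le_sq ?_ (by positivity)
  rw [← Complex.normSq_eq_norm_sq, Complex.normSq_apply]
  have e1 := sq_le_sq' (abs_le.1 h1).1 (abs_le.1 h1).2
  have e2 := sq_le_sq' (abs_le.1 h2).1 (abs_le.1 h2).2
  nlinarith

/-- what the counting part gives for `k` -/
def ObSum (P : Big M μ) (k : Cd 3) : Prop :=
  ∀ X : Finset (Zd 3), (∀ s ∈ X, Ob P k s) → ∑ s ∈ X, 1 / nz s ≤ 3 / P.b ^ 120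

theorem p1_finite (C : ℝ) : {m : Zd 3 | nz m ≤ C}.Finite := by
  obtain ⟨N, hN⟩ := exists_nat_ge C
  refine (Set.finite_Icc (fun _ : Fin 3 => -(N : ℤ)) (fun _ : Fin 3 => (N : ℤ))).subset ?_
  intro m hm
  have h1 : ∀ j, |m j| ≤ (N : ℤ) := by
    intro j
    have h2 : |(m j : ℝ)| ≤ N := (abs_le_nz m j).trans (le_trans hm hN)
    exact_mod_cast h2
  exact ⟨fun j => (abs_le.1 (h1 j)).1, fun j => (abs_le.1 (h1 j)).2⟩

theorem p1_line {k : Cd 3} {E : Frm} (h : RE P k E) (hS : ObSum P k) (f : ℂ → ℝ)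
    (hf : ∀ τ τ', |f τ - f τ'| ≤ ‖τ - τ'‖) {a c : ℝ} (hac : a + P.rho / 1000 ≤ c) :
    ∃ x ∈ Icc a c, ∀ τ : ℂ, f τ = x → ‖τ‖ ≤ 5 / 4 * P.rho → Good P 10 (sp μ E k τ) := by
  have hR := (h.yy.mono (by norm_num : (3 : ℝ) ≤ 4)).R_pos
  have hbR := p1_bR h
  have hK := p1_K P
  have hKp := P.K_pos
  have hb1 := P.one_le_b
  have hb := P.b_pos
  obtain ⟨O, hO⟩ : ∃ O : Set (Zd 3), O = {m : Zd 3 | m ≠ 0 ∧ ∃ τ : ℂ, ‖τ‖ ≤ 5 / 4 * P.rho ∧
    ‖q μ (sp μ E k τ) m‖ ≤ 10 * P.K} := ⟨_, rfl⟩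
  have hfin : O.Finite := by
    refine (p1_finite (21 / 10 * nr (im k))).subset ?_
    intro m hm
    rw [hO] at hm
    obtain ⟨hm0, τ, hτ, hq⟩ := hm
    refine (p1_sp h hτ).nz_le ?_
    rw [q_gs, p1_q0 h hτ, zero_add] at hq
    have hm1 := one_le_nz hm0
    have h2 : nr (im k) * 1 ≤ nr (im k) * nz m := mul_le_mul_of_nonneg_left hm1 hR.le
    linarith
  have hch : ∀ m : Zd 3, ∃ τ : ℂ, m ∈ O → (‖τ‖ ≤ 5 / 4 * P.rho ∧
      ‖q μ (sp μ E k τ) m‖ ≤ 10 * P.K) := by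
    intro m
    by_cases hm : m ∈ O
    · have hm' := hm
      rw [hO] at hm'
      obtain ⟨_, τ, h1, h2⟩ := hm'
      exact ⟨τ, fun _ => ⟨h1, h2⟩⟩
    · exact ⟨0, fun h => absurd h hm⟩
  choose t ht using hch
  have hmem : ∀ m ∈ hfin.toFinset, m ∈ O := fun m hm => hfin.mem_toFinset.1 hm
  have hne : ∀ m ∈ O, m ≠ 0 := by
    intro m hm
    rw [hO] at hm
    exact hm.1
  have hsum := hS hfin.toFinset (fun m hm =>
    patch_ob h (hne m (hmem m hm)) (ht m (hmem m hm)).1 (ht m (hmem m hm)).2)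
  have hav : 2 * ∑ m ∈ hfin.toFinset, 100 * P.K / nz m < c - a := by
    have e1 : ∑ m ∈ hfin.toFinset, 100 * P.K / nz m =
        100 * P.K * ∑ m ∈ hfin.toFinset, 1 / nz m := by
      rw [Finset.mul_sum]
      refine Finset.sum_congr rfl fun m _ => ?_
      ring
    have e2 : 100 * P.K * ∑ m ∈ hfin.toFinset, 1 / nz m ≤ 100 * P.K * (3 / P.b ^ 120) :=
      mul_le_mul_of_nonneg_left hsum (by positivity)
    have e3 : 2 * (100 * P.K * (3 / P.b ^ 120)) < P.rho / 1000 := by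
      have e4 : P.rho = 1 / P.b ^ 100 := by unfold Big.rho; rw [one_div]
      rw [e4]
      have e5 : P.b ^ 120 = P.b ^ 100 * P.b ^ 20 := by rw [← pow_add]
      rw [e5]
      have h100 := P.pow_pos 100
      have h20 := P.pow_pos 20
      rw [show 2 * (100 * P.K * (3 / (P.b ^ 100 * P.b ^ 20))) =
        (600 * P.K) / (P.b ^ 100 * P.b ^ 20) by ring,
        show 1 / P.b ^ 100 / 1000 = 1 / (P.b ^ 100 * 1000) by rw [div_div]]
      rw [div_lt_div_iff₀ (by positivity) (by positivity)]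
      have e6 : P.b ≤ P.b ^ 20 := le_self_pow₀ hb1 (by norm_num)
      have e7 := P.K_le
      have e8 : 600 * P.K * 1000 < P.b ^ 20 := by nlinarith
      have e9 := mul_lt_mul_of_pos_left e8 h100
      linarith
    rw [e1]
    linarith
  obtain ⟨x, hx, hxa⟩ := exists_avoid hfin.toFinset (fun m => f (t m))
    (fun m => 100 * P.K / nz m) a c (fun m _ => div_nonneg (by positivity) (nz_nonneg m)) hav
  refine ⟨x, hx, ?_⟩
  intro τ hτx hτ
  refine ⟨p1_q0 h hτ, ?_, ?_⟩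
  · have h1 := (p1_sp h hτ).circle.2.2.2.2.2.1
    have h2 := P.mul_pow_le (c := 2) (i := 9000) (j := 9999) (by norm_num) (by norm_num)
    have h3 := p1_R h
    have h4 := P.pow_pos 9000
    linarith
  · intro m hm
    by_contra hcon
    push Not at hcon
    have hmO : m ∈ O := by
      rw [hO]; exact ⟨hm, τ, hτ, hcon.le⟩
    have h1 := hxa m (hfin.mem_toFinset.2 hmO)
    have h2 := patch_diam h hm hτ (ht m hmO).1 hcon.le (ht m hmO).2
    have h3 := hf τ (t m)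
    rw [hτx] at h3
    have h4 := nz_pos hm
    have h5 : 100 * P.K / nz m < ‖τ - t m‖ := lt_of_lt_of_le h1 h3
    rw [div_lt_iff₀ h4] at h5
    linarith

/-- Good vertical lines in every interval of length `ρ/1000`. Proof: the set `𝓞` of sites `m ≠ 0` with `|q_m| < 10K` somewhere in
the square is finite (`patch_ob`, `NrC.nz_le`: `nz m ≤ 2.1 R`; integer vectors of bounded length form a finite set). Choose
for `m ∈ 𝓞` a point `τ_m`; on the square `|q_m| < 10 K` implies `|Re τ - Re τ_m| ≤ 100K/nz m` (`patch_diam`).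
`exists_avoid` with `2 Σ 100 K/nz m ≤ 600 K/b^120 < ρ/1000`. -/
theorem exists_lineV_of {k : Cd 3} {E : Frm} (h : RE P k E) (hS : ObSum P k) {a c : ℝ}
    (ha : -(3 / 4 * P.rho) ≤ a) (hc : c ≤ 3 / 4 * P.rho) (hac : a + P.rho / 1000 ≤ c) :
    ∃ x ∈ Icc a c, LineV P 10 k E x := by
  obtain ⟨x, hx, h1⟩ := p1_line h hS Complex.re (fun τ τ' => by
    rw [← Complex.sub_re]; exact Complex.abs_re_le_norm _) hac
  refine ⟨x, hx, fun t ht => ?_⟩
  refine h1 _ (by simp) (square_le ?_ ?_)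
  · simp only [Complex.add_re, Complex.ofReal_re, Complex.mul_re, Complex.I_re, Complex.ofReal_im,
      Complex.I_im, mul_zero, mul_one, sub_zero, add_zero]
    exact abs_le.2 ⟨by linarith [hx.1], by linarith [hx.2]⟩
  · simpa using ht

/-- the same for horizontal lines -/
theorem exists_lineH_of {k : Cd 3} {E : Frm} (h : RE P k E) (hS : ObSum P k) {a c : ℝ}
    (ha : -(3 / 4 * P.rho) ≤ a) (hc : c ≤ 3 / 4 * P.rho) (hac : a + P.rho / 1000 ≤ c) :
    ∃ t ∈ Icc a c, LineH P 10 k E t := by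
  obtain ⟨x, hx, h1⟩ := p1_line h hS Complex.im (fun τ τ' => by
    rw [← Complex.sub_im]; exact Complex.abs_im_le_norm _) hac
  refine ⟨x, hx, fun t ht => ?_⟩
  refine h1 _ (by simp) (square_le ?_ ?_)
  · simpa using ht
  · simp only [Complex.add_im, Complex.ofReal_im, Complex.mul_im, Complex.I_re, Complex.ofReal_re,
      Complex.I_im, mul_zero, mul_one, zero_add, add_zero]
    exact abs_le.2 ⟨by linarith [hx.1], by linarith [hx.2]⟩

end H9F
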