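import Pool.Agent.Lib.H9F.C2
import Pool.Agent.Lib.H9F.P1

/-!
# H9F C3: turning `ω` to `± f2`
-/

open scoped BigOperators Topology
open Set Filter

noncomputable section

namespace H9F

open Fermi

variable {M : ℝ} {μ : ℂ} {P : Big M μ}

/-- normalised segment between two unit vectors -/
def seg (ω₀ ω₁ : Fin 3 → ℝ) (t : ℝ) : Fin 3 → ℝ :=
  (nr ((1 - t) • ω₀ + t • ω₁))⁻¹ • ((1 - t) • ω₀ + t • ω₁)

theorem c3_cont : Continuous nr := by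
  unfold nr
  refine Real.continuous_sqrt.comp ?_
  simp only [dr3]
  fun_prop

theorem c3_N {ω₀ ω₁ : Fin 3 → ℝ} (h0 : nr ω₀ = 1) (h1 : nr ω₁ = 1) {t : ℝ} (ht : t ∈ Icc (0 : ℝ) 1) :
    nr ((1 - t) • ω₀ + t • ω₁) ≤ 1 ∧ 1 - 2 * t ≤ nr ((1 - t) • ω₀ + t • ω₁) := by
  have e0 : nr ((1 - t) • ω₀) = 1 - t := by
    rw [nr_smul, h0, mul_one, abs_of_nonneg (by linarith [ht.2])]
  have e1 : nr (t • ω₁) = t := by
    rw [nr_smul, h1, mul_one, abs_of_nonneg ht.1]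
  constructor
  · have := nr_add_le ((1 - t) • ω₀) (t • ω₁)
    linarith
  · have h := (abs_le.1 (abs_nr_sub_le ((1 - t) • ω₀) (-(t • ω₁)))).2
    rw [sub_neg_eq_add, nr_neg, e0, e1] at h
    linarith

theorem c3_ne {ω₀ ω₁ : Fin 3 → ℝ} (h0 : nr ω₀ = 1) (h1 : nr ω₁ = 1) (h : ω₀ ≠ -ω₁) {t : ℝ} (ht : t ∈ Icc (0 : ℝ) 1) :
    (1 - t) • ω₀ + t • ω₁ ≠ 0 := by
  intro hz
  have e0 : nr ((1 - t) • ω₀) = 1 - t := by
    rw [nr_smul, h0, mul_one, abs_of_nonneg (by linarith [ht.2])]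
  have e1 : nr (-(t • ω₁)) = t := by
    rw [nr_neg, nr_smul, h1, mul_one, abs_of_nonneg ht.1]
  have e2 : (1 - t) • ω₀ = -(t • ω₁) := eq_neg_of_add_eq_zero_left hz
  have e3 : 1 - t = t := by rw [← e0, e2, e1]
  apply h
  have ht2 : t = 1 / 2 := by linarith
  rw [ht2] at e2
  funext j
  have := congrFun e2 j
  simp only [Pi.smul_apply, smul_eq_mul, Pi.neg_apply] at this ⊢
  linarith

theorem c3_dr {ω₀ ω₁ : Fin 3 → ℝ} (s : Fin 3 → ℝ) (t : ℝ) :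
    dr (seg ω₀ ω₁ t) s = (nr ((1 - t) • ω₀ + t • ω₁))⁻¹ * ((1 - t) * dr ω₀ s + t * dr ω₁ s) := by
  unfold seg
  rw [dr_smul_left, dr_add_left, dr_smul_left, dr_smul_left]

/-- basic properties, if the segment does not pass through `0`. The last property: the linear functional `v ↦ v·s` along the normalised segment
stays above `min` of ... precisely: if `dr ω₁ s ≥ |dr ω₀ s|` and `dr ω₁ s > 0` then `dr (seg t) s ≥ dr ω₀ s`.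
Proof of the last: `N = nr(..) ∈ [1 - 2t, 1]`; `(1-t)x₀ + t x₁ ≥ N x₀`: if `x₀ ≥ 0` since `N ≤ 1` and `x₁ ≥ x₀`; if `x₀ < 0` since
`N x₀ ≤ (1-2t) x₀` (`N ≥ 1-2t`) and `x₁ ≥ -x₀`. -/
theorem seg_props {ω₀ ω₁ y : Fin 3 → ℝ} (h0 : nr ω₀ = 1) (h1 : nr ω₁ = 1) (hy0 : dr ω₀ y = 0)
    (hy1 : dr ω₁ y = 0) (hne : ∀ t ∈ Icc (0 : ℝ) 1, (1 - t) • ω₀ + t • ω₁ ≠ 0) :
    seg ω₀ ω₁ 0 = ω₀ ∧ seg ω₀ ω₁ 1 = ω₁ ∧ ContinuousOn (seg ω₀ ω₁) (Icc 0 1) ∧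
    (∀ t ∈ Icc (0 : ℝ) 1, nr (seg ω₀ ω₁ t) = 1 ∧ dr (seg ω₀ ω₁ t) y = 0) ∧
    (∀ s : Fin 3 → ℝ, 0 < dr ω₁ s → |dr ω₀ s| ≤ dr ω₁ s → ∀ t ∈ Icc (0 : ℝ) 1,
      dr ω₀ s ≤ dr (seg ω₀ ω₁ t) s) := by
  refine ⟨?_, ?_, ?_, ?_, ?_⟩
  · unfold seg
    rw [sub_zero, one_smul, zero_smul, add_zero, h0, inv_one, one_smul]
  · unfold seg
    rw [sub_self, zero_smul, one_smul, zero_add, h1, inv_one, one_smul]
  · unfold seg
    have hf : Continuous fun t : ℝ => (1 - t) • ω₀ + t • ω₁ := by fun_prop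
    refine ContinuousOn.smul (ContinuousOn.inv₀ (c3_cont.comp hf).continuousOn fun t ht => ?_) hf.continuousOn
    exact (nr_pos (hne t ht)).ne'
  · intro t ht
    have hp := nr_pos (hne t ht)
    constructor
    · unfold seg
      rw [nr_smul, abs_of_pos (inv_pos.2 hp), inv_mul_cancel₀ hp.ne']
    · rw [c3_dr, hy0, hy1]
      ring
  · intro s hs1 hs0 t ht
    have hp := nr_pos (hne t ht)
    obtain ⟨hN1, hN2⟩ := c3_N h0 h1 ht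
    rw [c3_dr, inv_mul_eq_div, le_div_iff₀ hp]
    have h3 := abs_le.1 hs0
    rcases le_or_gt 0 (dr ω₀ s) with h4 | h4
    · nlinarith [ht.1, ht.2]
    · nlinarith [ht.1, ht.2]

/-- If some short vector is nearly orthogonal to `y`, there is a shortest one, and `NF` only has to be checked for it.
Proof: among the short `s ≠ 0` with `|y·s| < b^500/2` choose `s₀` with `nz s₀` minimal (finite set). Every other such `s` is parallel to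
`s₀` (`par_of_short`), so `s = λ s₀`, `|λ| ≥ 1` (`Par.eq_smul`), `|k·s| = |λ||k·s₀|`. For the other short `s`: `|k·s| ≥ |y·s| ≥ b^500/2`. -/
theorem exists_s0 {y : Fin 3 → ℝ} (hy : YY P 4 y)
    (h : ¬ ∀ s : Zd 3, s ≠ 0 → nz s ≤ P.b ^ 120 → P.b ^ 500 / 2 ≤ |dt y s|) :
    ∃ s₀ : Zd 3, s₀ ≠ 0 ∧ nz s₀ ≤ P.b ^ 120 ∧ |dt y s₀| < P.b ^ 500 / 2 ∧
      ∀ k : Cd 3, im k = y → P.b ^ 500 / 2 ≤ ‖bil k (zc s₀)‖ → NF P (P.b ^ 500 / 2) k := by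
  have hfin : {s : Zd 3 | s ≠ 0 ∧ nz s ≤ P.b ^ 120 ∧ |dt y s| < P.b ^ 500 / 2}.Finite :=
    (p1_finite (P.b ^ 120)).subset fun s hs => hs.2.1
  have hne : {s : Zd 3 | s ≠ 0 ∧ nz s ≤ P.b ^ 120 ∧ |dt y s| < P.b ^ 500 / 2}.Nonempty := by
    push Not at h
    obtain ⟨s, h1, h2, h3⟩ := h
    exact ⟨s, h1, h2, h3⟩
  obtain ⟨s₀, hs₀, hmin⟩ := Set.exists_min_image _ nz hfin hne
  obtain ⟨g1, g2, g3⟩ := hs₀
  refine ⟨s₀, g1, g2, g3, fun k hk hk0 s hs hs' => ?_⟩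
  by_cases hbig : P.b ^ 500 / 2 ≤ |dt y s|
  · have h1 := Complex.abs_im_le_norm (bil k (zc s))
    rw [bil_zc_im, hk] at h1
    exact hbig.trans h1
  rw [not_le] at hbig
  have hle := hmin s ⟨hs, hs', hbig⟩
  have h120 : P.b ^ 120 ≤ P.b ^ 360 := P.pow_le (by norm_num)
  have h510 : P.b ^ 500 / 2 ≤ P.b ^ 510 := by
    have h1 : P.b ^ 500 ≤ P.b ^ 510 := P.pow_le (by norm_num)
    have h2 := P.pow_pos 500
    linarith
  have hpar := par_of_short hy (g2.trans h120) (hs'.trans h120) (g3.le.trans h510) (hbig.le.trans h510)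
  have hsm := hpar.eq_smul g1
  obtain ⟨l, hl⟩ : ∃ l : ℝ, l = dr (rz s₀) (rz s) / dr (rz s₀) (rz s₀) := ⟨_, rfl⟩
  rw [← hl] at hsm
  have hn : nz s = |l| * nz s₀ := by
    unfold nz
    rw [hsm, nr_smul]
  have hl1 : 1 ≤ |l| := by
    have := nz_pos g1
    rw [hn] at hle
    by_contra hcon
    rw [not_le] at hcon
    nlinarith
  have hz : (zc s : Cd 3) = (l : ℂ) • (zc s₀ : Cd 3) := by
    funext j
    have := congrFun hsm j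
    simp only [rz, Pi.smul_apply, smul_eq_mul] at this
    simp only [zc, Pi.smul_apply, smul_eq_mul]
    exact_mod_cast this
  rw [hz, bil_smul_right, norm_mul, Complex.norm_real, Real.norm_eq_abs]
  have h3 := norm_nonneg (bil k (zc s₀))
  nlinarith

theorem c3_negl (a b : Fin 3 → ℝ) : dr (-a) b = -dr a b := by
  rw [dr3, dr3]; simp; ring

theorem c3_negr (a b : Fin 3 → ℝ) : dr a (-b) = -dr a b := by
  rw [dr3, dr3]; simp; ring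

theorem c3_half {c : ℝ} (hc : 0 < c) {N : ℝ} (hN : 0 ≤ N) (h : c ^ 2 ≤ N ^ 2) : c ≤ N :=
  (sq_le_sq₀ hc.le hN).1 h

theorem c3_pick {y : Fin 3 → ℝ} (hy : YY P 4 y) (s : Fin 3 → ℝ) :
    ∃ ω₁ : Fin 3 → ℝ, (ω₁ = f2 P y ∨ ω₁ = -f2 P y) ∧ nr ω₁ = 1 ∧ dr ω₁ y = 0 ∧
      dr ω₁ s = |dr (f2 P y) s| := by
  obtain ⟨h1, h2, -⟩ := f2_unit hy
  rcases le_total 0 (dr (f2 P y) s) with h | h
  · exact ⟨f2 P y, Or.inl rfl, h1, h2, (abs_of_nonneg h).symm⟩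
  · refine ⟨-f2 P y, Or.inr rfl, ?_, ?_, ?_⟩
    · rw [nr_neg, h1]
    · rw [c3_negl, h2, neg_zero]
    · rw [c3_negl, abs_of_nonpos h]

theorem c3_sq (μ : ℂ) (y ω : Fin 3 → ℝ) {s₀ : Zd 3} {s : Fin 3 → ℝ} (hs : s = rz s₀ ∨ s = -rz s₀) :
    ‖bil (kp μ y ω) (zc s₀)‖ ^ 2 = (kal μ y * dr y s + kbe μ y * dr ω s) ^ 2 + dr y s ^ 2 := by
  rw [← Complex.normSq_eq_norm_sq, Complex.normSq_apply, bil_zc_re, bil_zc_im, re_kp, im_kp, dt_eq,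
    dt_eq, dr_add_left, dr_smul_left, dr_smul_left]
  rcases hs with rfl | rfl
  · ring
  · rw [c3_negr, c3_negr]
    ring

theorem c3_A {y : Fin 3 → ℝ} (hy : YY P 4 y) {x : ℝ} (hx : |x| ≤ P.b ^ 500 / 2) :
    |kal μ y * x| ≤ 1 := by
  obtain ⟨-, -, h1, -⟩ := kbe_bounds hy
  have h2 := hy.R_ge
  have h3 := P.pow_pos 9999
  have h4 : P.b ^ 501 ≤ nr y ^ 2 := by
    have h5 : P.b ^ 501 ≤ P.b ^ 9999 := P.pow_le (by norm_num)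
    have h6 : 1 ≤ P.b ^ 9999 := one_le_pow₀ P.one_le_b
    nlinarith
  have h7 : P.b ^ 501 = P.b * P.b ^ 500 := by rw [← pow_succ']
  have h8 := P.pow_pos 500
  have hb := P.b_pos
  rw [abs_mul]
  by_contra hcon
  rw [not_le] at hcon
  have h9 : |kal μ y| * |x| * nr y ^ 2 ≤ P.b * (P.b ^ 500 / 2) := by
    calc |kal μ y| * |x| * nr y ^ 2 = (|kal μ y| * nr y ^ 2) * |x| := by ring
      _ ≤ P.b * (P.b ^ 500 / 2) := by gcongr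
  have h10 : P.b ^ 501 < |kal μ y| * |x| * nr y ^ 2 := by
    have h11 : 0 < nr y ^ 2 := by
      have := P.pow_pos 501
      linarith
    nlinarith
  have h12 : 0 < P.b * P.b ^ 500 := by positivity
  rw [h7] at h10
  linarith

theorem c3_x1 {y : Fin 3 → ℝ} (hy : YY P 4 y) {x : ℝ} (hx : 1 ≤ 2 * nz P.nu * x) :
    0 < x ∧ P.b ^ 500 / 2 + 2 ≤ kbe μ y * x := by
  have hν := (nz_nu P).2
  have hν0 : 0 < nz P.nu := lt_of_lt_of_le (P.pow_pos 1660) (nz_nu P).1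
  have hx0 : 0 < x := by
    by_contra hcon
    rw [not_lt] at hcon
    nlinarith
  refine ⟨hx0, ?_⟩
  have h1 := (kbe_bounds (μ := μ) hy).1
  have h2 := hy.R_ge
  have h3 : 1 ≤ 4 * (P.b ^ 1660 * x) := by nlinarith
  have h4 : P.b ^ 9999 = P.b ^ 8339 * P.b ^ 1660 := by rw [← pow_add]
  have h5 : 10 ^ 36 * P.b ^ 500 ≤ P.b ^ 8339 := P.mul_pow_le le_rfl (by norm_num)
  have h6 : 1 ≤ P.b ^ 500 := one_le_pow₀ P.one_le_b
  have h7 : 99 / 100 * P.b ^ 9999 * x ≤ kbe μ y * x := by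
    have : 99 / 100 * P.b ^ 9999 ≤ kbe μ y := by linarith
    exact mul_le_mul_of_nonneg_right this hx0.le
  have h8 : P.b ^ 8339 ≤ 4 * (P.b ^ 9999 * x) := by
    rw [h4]
    have h9 := P.pow_pos 8339
    nlinarith
  linarith

theorem c3_mid {ω₀ ω₁ : Fin 3 → ℝ} (h0 : nr ω₀ = 1) (h1 : nr ω₁ = 1)
    (hne : ∀ t ∈ Icc (0 : ℝ) 1, (1 - t) • ω₀ + t • ω₁ ≠ 0) {s : Fin 3 → ℝ} (hs1 : 0 < dr ω₁ s)
    (hs0 : dr ω₁ s ≤ dr ω₀ s) {t : ℝ} (ht : t ∈ Icc (0 : ℝ) 1) : dr ω₁ s ≤ dr (seg ω₀ ω₁ t) s := by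
  have hp := nr_pos (hne t ht)
  obtain ⟨hN1, -⟩ := c3_N h0 h1 ht
  rw [c3_dr, inv_mul_eq_div, le_div_iff₀ hp]
  nlinarith [ht.1, ht.2]

/-- Turning `ω₀` to `f2` or `-f2` keeping `NF`. Proof. Case 1: `|y·s| ≥ b^500/2` for all short `s`: `NF` is automatic (`nf_of_im`); take `ω₁ = ± f2` with
`ω₀·ω₁ ≥ 0`, then the segment does not pass through 0. Case 2: `s₀` from `exists_s0`. `Re k·s₀ = α y·s₀ + β ω·s₀`,
`|α y·s₀| ≤ 1`. `|k·s₀|² = (Re)² + (y·s₀)²`. Suppose first `Re (k₀·s₀) ≥ 0`, `k₀ = kp y ω₀` (otherwise replace `s₀` by `-s₀`). Take `ω₁ = ± f2` with `ω₁·s₀ > 0`;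
`ω₁·s₀ ≥ 1/(2|ν|)` (`f2_dt`). If `ω₀·s₀ ≥ ω₁·s₀`... : two cases. (a) `|ω₀·s₀| ≤ ω₁·s₀`: `seg_props` gives `ω_t·s₀ ≥ ω₀·s₀`, so
`Re k_t·s₀ ≥ Re k₀·s₀ ≥ 0` and `|k_t·s₀| ≥ |k₀·s₀| ≥ b^500/2`. (b) `ω₀·s₀ > ω₁·s₀` (note `ω₀·s₀ < - ω₁·s₀` is impossible as `β ω₀·s₀ ≥ -1`): both are
`≥ 1/(2|ν|)`, and `ω_t·s₀ ≥ min` (`N ≤ 1`), so `Re k_t·s₀ ≥ .99R/(2|ν|) - 1 ≥ b^500`. The segment does not pass through 0 since its product with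
`s₀` is positive for `t > 0` resp. since `ω₀ ≠ -ω₁`. -/
theorem turn {y : Fin 3 → ℝ} (hy : YY P (5 / 2) y) {ω₀ : Fin 3 → ℝ} (h1 : nr ω₀ = 1)
    (h2 : dr ω₀ y = 0) (hn : NF P (P.b ^ 500 / 2) (kp μ y ω₀)) :
    ∃ ω₁ : Fin 3 → ℝ, (ω₁ = f2 P y ∨ ω₁ = -f2 P y) ∧ ∃ ω : ℝ → Fin 3 → ℝ,
      ContinuousOn ω (Icc 0 1) ∧ ω 0 = ω₀ ∧ ω 1 = ω₁ ∧ ∀ t ∈ Icc (0 : ℝ) 1,
        nr (ω t) = 1 ∧ dr (ω t) y = 0 ∧ NF P (P.b ^ 500 / 2) (kp μ y (ω t)) := by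
  have hy4 : YY P 4 y := hy.mono (by norm_num)
  by_cases hall : ∀ s : Zd 3, s ≠ 0 → nz s ≤ P.b ^ 120 → P.b ^ 500 / 2 ≤ |dt y s|
  · obtain ⟨ω₁, g1, g2, g3, g4⟩ := c3_pick hy4 ω₀
    have hne1 : ω₀ ≠ -ω₁ := by
      intro hcon
      rw [hcon, c3_negr, ← nr_sq, g2] at g4
      have := abs_nonneg (dr (f2 P y) (-ω₁))
      linarith
    have hne : ∀ t ∈ Icc (0 : ℝ) 1, (1 - t) • ω₀ + t • ω₁ ≠ 0 := fun t ht => c3_ne h1 g2 hne1 ht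
    obtain ⟨p1, p2, p3, p4, -⟩ := seg_props h1 g2 h2 g3 hne
    refine ⟨ω₁, g1, seg ω₀ ω₁, p3, p1, p2, fun t ht => ⟨(p4 t ht).1, (p4 t ht).2, nf_of_im ?_⟩⟩
    rw [im_kp]
    exact hall
  · obtain ⟨s₀, e1, e2, e3, e4⟩ := exists_s0 hy4 hall
    obtain ⟨s, hs, hs0⟩ : ∃ s : Fin 3 → ℝ, (s = rz s₀ ∨ s = -rz s₀) ∧
        0 ≤ kal μ y * dr y s + kbe μ y * dr ω₀ s := by
      rcases le_total 0 (kal μ y * dr y (rz s₀) + kbe μ y * dr ω₀ (rz s₀)) with h | h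
      · exact ⟨rz s₀, Or.inl rfl, h⟩
      · refine ⟨-rz s₀, Or.inr rfl, ?_⟩
        rw [c3_negr, c3_negr]
        linarith
    have hys : |dr y s| ≤ P.b ^ 500 / 2 := by
      rcases hs with rfl | rfl
      · rw [← dt_eq]
        exact e3.le
      · rw [c3_negr, abs_neg, ← dt_eq]
        exact e3.le
    have hA := abs_le.1 (c3_A (μ := μ) hy4 hys)
    obtain ⟨ω₁, g1, g2, g3, g4⟩ := c3_pick hy4 s
    have hx := f2_dt hy4 e1 e2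
    have hfs : |dr (f2 P y) (rz s₀)| = |dr (f2 P y) s| := by
      rcases hs with rfl | rfl
      · rfl
      · rw [c3_negr, abs_neg]
    rw [hfs, ← g4] at hx
    obtain ⟨x1, x2⟩ := c3_x1 (μ := μ) hy4 hx
    have hk : 0 < kbe μ y := by
      have := (kbe_bounds (μ := μ) hy4).1
      have := hy4.R_pos
      linarith
    have h500 := P.pow_pos 500
    have h250 : 0 < P.b ^ 500 / 2 := by linarith
    have hlow : -dr ω₁ s < dr ω₀ s := by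
      by_contra hcon
      rw [not_lt] at hcon
      nlinarith
    have hne1 : ω₀ ≠ -ω₁ := by
      intro hcon
      rw [hcon, c3_negl] at hlow
      exact lt_irrefl _ hlow
    have hne : ∀ t ∈ Icc (0 : ℝ) 1, (1 - t) • ω₀ + t • ω₁ ≠ 0 := fun t ht => c3_ne h1 g2 hne1 ht
    obtain ⟨p1, p2, p3, p4, p5⟩ := seg_props h1 g2 h2 g3 hne
    refine ⟨ω₁, g1, seg ω₀ ω₁, p3, p1, p2, fun t ht => ⟨(p4 t ht).1, (p4 t ht).2, ?_⟩⟩
    refine e4 _ (im_kp _ _ _) ?_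
    refine c3_half h250 (norm_nonneg _) ?_
    rw [c3_sq μ y _ hs]
    rcases le_or_gt |dr ω₀ s| (dr ω₁ s) with h | h
    · have h3 := p5 s x1 h t ht
      have h4 := hn s₀ e1 e2
      have h5 : (P.b ^ 500 / 2) ^ 2 ≤ ‖bil (kp μ y ω₀) (zc s₀)‖ ^ 2 :=
        pow_le_pow_left₀ h250.le h4 2
      rw [c3_sq μ y _ hs] at h5
      have h6 : kbe μ y * dr ω₀ s ≤ kbe μ y * dr (seg ω₀ ω₁ t) s := mul_le_mul_of_nonneg_left h3 hk.le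
      have h7 : (kal μ y * dr y s + kbe μ y * dr ω₀ s) ^ 2 ≤
          (kal μ y * dr y s + kbe μ y * dr (seg ω₀ ω₁ t) s) ^ 2 :=
        pow_le_pow_left₀ hs0 (by linarith) 2
      linarith
    · have h3 : dr ω₁ s ≤ dr ω₀ s := by
        rcases lt_abs.1 h with h4 | h4
        · exact h4.le
        · linarith
      have h4 := c3_mid h1 g2 hne x1 h3 ht
      have h6 : kbe μ y * dr ω₁ s ≤ kbe μ y * dr (seg ω₀ ω₁ t) s := mul_le_mul_of_nonneg_left h4 hk.le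
      have h7 : P.b ^ 500 / 2 ≤ kal μ y * dr y s + kbe μ y * dr (seg ω₀ ω₁ t) s := by linarith
      have h8 : (P.b ^ 500 / 2) ^ 2 ≤ (kal μ y * dr y s + kbe μ y * dr (seg ω₀ ω₁ t) s) ^ 2 :=
        pow_le_pow_left₀ h250.le h7 2
      have h9 := sq_nonneg (dr y s)
      linarith

end H9F
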