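import Pool.Agent.Lib.H9F.C3

/-!
# H9F C4: the annulus of imaginary parts is connected; a point without slabs
-/

open scoped BigOperators Topology
open Set Filter

noncomputable section

namespace H9F

open Fermi

variable {M : ℝ} {μ : ℂ} {P : Big M μ}

/-- the parametrisation of the annulus -/
def c4_map (E : Frm) (x : ℝ × ℝ × ℝ) : Fin 3 → ℝ :=
  (Real.sqrt (x.1 ^ 2 - x.2.1 ^ 2) * Real.cos x.2.2) • E.e1 +
    (Real.sqrt (x.1 ^ 2 - x.2.1 ^ 2) * Real.sin x.2.2) • E.e2 + x.2.1 • E.e3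

theorem c4_cont (E : Frm) : Continuous (c4_map E) := by
  unfold c4_map
  fun_prop

theorem c4_e1 (E : Frm) (x : ℝ × ℝ × ℝ) :
    dr (c4_map E x) E.e1 = Real.sqrt (x.1 ^ 2 - x.2.1 ^ 2) * Real.cos x.2.2 := by
  unfold c4_map
  rw [dr_add_left, dr_add_left, dr_smul_left, dr_smul_left, dr_smul_left, E.h11,
    dr_comm E.e2, E.h12, dr_comm E.e3, E.h13]
  ring

theorem c4_e2 (E : Frm) (x : ℝ × ℝ × ℝ) :
    dr (c4_map E x) E.e2 = Real.sqrt (x.1 ^ 2 - x.2.1 ^ 2) * Real.sin x.2.2 := by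
  unfold c4_map
  rw [dr_add_left, dr_add_left, dr_smul_left, dr_smul_left, dr_smul_left, E.h22,
    E.h12, dr_comm E.e3, E.h23]
  ring

theorem c4_e3 (E : Frm) (x : ℝ × ℝ × ℝ) : dr (c4_map E x) E.e3 = x.2.1 := by
  unfold c4_map
  rw [dr_add_left, dr_add_left, dr_smul_left, dr_smul_left, dr_smul_left, E.h33,
    E.h13, E.h23]
  ring

theorem c4_nr (E : Frm) (x : ℝ × ℝ × ℝ) (h : x.2.1 ^ 2 ≤ x.1 ^ 2) (h0 : 0 ≤ x.1) :
    nr (c4_map E x) = x.1 := by
  have h1 : nr (c4_map E x) ^ 2 = x.1 ^ 2 := by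
    rw [E.parseval, c4_e1, c4_e2, c4_e3]
    have h2 : Real.sqrt (x.1 ^ 2 - x.2.1 ^ 2) ^ 2 = x.1 ^ 2 - x.2.1 ^ 2 :=
      Real.sq_sqrt (by linarith)
    have h3 := Real.sin_sq_add_cos_sq x.2.2
    calc (Real.sqrt (x.1 ^ 2 - x.2.1 ^ 2) * Real.cos x.2.2) ^ 2 +
        (Real.sqrt (x.1 ^ 2 - x.2.1 ^ 2) * Real.sin x.2.2) ^ 2 + x.2.1 ^ 2
        = Real.sqrt (x.1 ^ 2 - x.2.1 ^ 2) ^ 2 * (Real.sin x.2.2 ^ 2 + Real.cos x.2.2 ^ 2) +
          x.2.1 ^ 2 := by ring
      _ = x.1 ^ 2 := by rw [h3, h2]; ring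
  exact (pow_left_inj₀ (nr_nonneg _) h0 two_ne_zero).1 h1

theorem c4_eq (E : Frm) {y z : Fin 3 → ℝ} (h1 : dr y E.e1 = dr z E.e1)
    (h2 : dr y E.e2 = dr z E.e2) (h3 : dr y E.e3 = dr z E.e3) : y = z := by
  have h : nr (y - z) ^ 2 = 0 := by
    rw [E.parseval, dr_sub_left, dr_sub_left, dr_sub_left, h1, h2, h3]
    ring
  have h4 : nr (y - z) = 0 := by
    exact pow_eq_zero_iff (two_ne_zero) |>.1 h
  exact sub_eq_zero.1 (nr_eq_zero.1 h4)

/-- `{YY P (5/2)}` is connected. Proof: let `e` be the unit vector of `ν` and `e, e', e''` an orthonormal frame (`exists_adp`). The map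
`(R, t, θ) ↦ √(R² - t²) (cos θ e' + sin θ e'') + t e` is continuous on `[b^10000/2.5, 2.5 b^12000] × [-2.5 b^600, 2.5 b^600] × ℝ`
(convex, `R² > t²`), `nr` of the image is `R`, `dt · ν = t nz ν`; it maps onto the set (Parseval; every unit vector of the plane is `(cos θ, sin θ)`). -/
theorem YY_conn (P : Big M μ) : IsPreconnected {y : Fin 3 → ℝ | YY P (5 / 2) y} := by
  have hν : 0 < nz P.nu := lt_of_lt_of_le (P.pow_pos 1660) (nz_nu P).1
  have hν0 : rz P.nu ≠ 0 := by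
    intro h0
    have : nz P.nu = 0 := by rw [nz, h0, nr_zero]
    linarith
  obtain ⟨E, hE⟩ := exists_adp hν0
  have hdt : ∀ y : Fin 3 → ℝ, dt y P.nu = dr y E.e3 * nz P.nu := by
    intro y
    rw [dt_eq, E.parseval2 y (rz P.nu), hE.f1, hE.f2, hE.f3]
    show dr y E.e1 * 0 + dr y E.e2 * 0 + dr y E.e3 * nz P.nu = _
    ring
  have hb600 := P.pow_pos 600
  have hb10000 := P.pow_pos 10000
  have hlt : 25 * P.b ^ 600 ≤ P.b ^ 10000 := P.mul_pow_le (by norm_num) (by norm_num)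
  have himg : {y : Fin 3 → ℝ | YY P (5 / 2) y} = c4_map E ''
      (Icc (P.b ^ 10000 / (5 / 2)) (5 / 2 * P.b ^ 12000) ×ˢ
        (Icc (-(5 / 2 * P.b ^ 600)) (5 / 2 * P.b ^ 600) ×ˢ (univ : Set ℝ))) := by
    ext y
    constructor
    · intro hy
      have hy' : YY P (5 / 2) y := hy
      have hx : (dr y E.e1) ^ 2 + (dr y E.e2) ^ 2 = nr y ^ 2 - dr y E.e3 ^ 2 := by
        rw [E.parseval y]; ring
      set z : ℂ := ⟨dr y E.e1, dr y E.e2⟩ with hz
      have hzn : ‖z‖ = Real.sqrt (nr y ^ 2 - dr y E.e3 ^ 2) := by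
        rw [Complex.norm_eq_sqrt_sq_add_sq, ← hx]
      refine ⟨(nr y, dr y E.e3, Complex.arg z), ⟨⟨?_, ?_⟩, ⟨?_, ?_⟩, mem_univ _⟩, ?_⟩
      · have := hy'.lo
        rw [div_le_iff₀ (by norm_num)]
        linarith
      · exact hy'.hi
      · have h1 := hy'.nu
        rw [hdt, abs_mul, abs_of_pos hν] at h1
        have h2 := le_of_mul_le_mul_right h1 hν
        exact (abs_le.1 h2).1
      · have h1 := hy'.nu
        rw [hdt, abs_mul, abs_of_pos hν] at h1
        have h2 := le_of_mul_le_mul_right h1 hν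
        exact (abs_le.1 h2).2
      · apply c4_eq E
        · rw [c4_e1]
          show Real.sqrt (nr y ^ 2 - dr y E.e3 ^ 2) * Real.cos (Complex.arg z) = _
          rw [← hzn, Complex.norm_mul_cos_arg]
        · rw [c4_e2]
          show Real.sqrt (nr y ^ 2 - dr y E.e3 ^ 2) * Real.sin (Complex.arg z) = _
          rw [← hzn, Complex.norm_mul_sin_arg]
        · rw [c4_e3]
    · rintro ⟨⟨R, t, θ⟩, ⟨⟨hR1, hR2⟩, ⟨ht1, ht2⟩, -⟩, rfl⟩
      dsimp only at hR1 hR2 ht1 ht2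
      rw [div_le_iff₀ (by norm_num)] at hR1
      have hR0 : 0 ≤ R := by linarith
      have htR : t ^ 2 ≤ R ^ 2 := by
        apply sq_le_sq'
        · linarith
        · linarith
      have hn : nr (c4_map E (R, t, θ)) = R := c4_nr E (R, t, θ) htR hR0
      refine ⟨?_, ?_, ?_⟩
      · rw [hdt, c4_e3, abs_mul, abs_of_pos hν]
        apply mul_le_mul_of_nonneg_right _ hν.le
        exact abs_le.2 ⟨ht1, ht2⟩
      · rw [hn]; linarith
      · rw [hn]; exact hR2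
  rw [himg]
  apply IsPreconnected.image _ _ (c4_cont E).continuousOn
  exact isPreconnected_Icc.prod (isPreconnected_Icc.prod isPreconnected_univ)

/-- A point without slabs. Proof: `N = b^830`, `g = (-N³ - N², N², 1)`, `ν·g = 0`; `g·s ≠ 0` for `0 < |s| ≤ b^120`: modulo `N²` `s_2 = 0`, then
`(N+1) s_0 = s_1`, so `s_0 = s_1 = 0`. `y₀ = b^11000 g/|g|`, `|g| ≤ 3 N³ = 3 b^2490`, `|y₀·s| ≥ b^11000/(3 b^2490)`. -/
theorem exists_y0 (P : Big M μ) : ∃ y₀ : Fin 3 → ℝ, YY P 1 y₀ ∧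
    ∀ s : Zd 3, s ≠ 0 → nz s ≤ P.b ^ 120 → P.b ^ 500 ≤ |dt y₀ s| := by
  obtain ⟨N, hN⟩ : ∃ N : ℤ, N = (P.B : ℤ) ^ 830 := ⟨_, rfl⟩
  obtain ⟨L, hL⟩ : ∃ L : ℤ, L = (P.B : ℤ) ^ 120 := ⟨_, rfl⟩
  have hNb : (N : ℝ) = P.b ^ 830 := by
    rw [hN]; push_cast; rfl
  have hLb : (L : ℝ) = P.b ^ 120 := by
    rw [hL]; push_cast; rfl
  have hL0 : 0 < L := by
    have h1 : (0 : ℝ) < (L : ℝ) := by rw [hLb]; exact P.pow_pos 120
    exact_mod_cast h1
  have hLN : 2 * L ≤ N := by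
    have h1 : (2 : ℝ) * (L : ℝ) ≤ (N : ℝ) := by
      rw [hNb, hLb]
      exact P.mul_pow_le (by norm_num) (by norm_num)
    exact_mod_cast h1
  have hN0 : 0 < N := by linarith
  obtain ⟨G, hG⟩ : ∃ G : Zd 3, G = ![-(N ^ 3) - N ^ 2, N ^ 2, 1] := ⟨_, rfl⟩
  have hG0 : G 0 = -(N ^ 3) - N ^ 2 := by rw [hG]; rfl
  have hG1 : G 1 = N ^ 2 := by rw [hG]; rfl
  have hG2 : G 2 = 1 := by rw [hG]; rfl
  have hGne : G ≠ 0 := by
    intro h
    have h1 : G 2 = 0 := by rw [h]; rfl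
    rw [hG2] at h1
    exact one_ne_zero h1
  have hGpos : 0 < nz G := nz_pos hGne
  have hGle : nz G ≤ 4 * P.b ^ 2490 := by
    have hN3 : (N : ℝ) ^ 3 = P.b ^ 2490 := by rw [hNb, ← pow_mul]
    have h1 : (1 : ℝ) ≤ (N : ℝ) := by exact_mod_cast hN0
    have h2 : (N : ℝ) ^ 2 ≤ (N : ℝ) ^ 3 := pow_le_pow_right₀ h1 (by norm_num)
    have h3 : (1 : ℝ) ≤ (N : ℝ) ^ 3 := one_le_pow₀ h1
    have h4 : (0 : ℝ) ≤ (N : ℝ) ^ 2 := by positivity
    have h5 : ∀ j, |rz G j| ≤ 2 * (N : ℝ) ^ 3 := by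
      intro j
      fin_cases j
      · show |((G 0 : ℤ) : ℝ)| ≤ _
        rw [hG0]
        push_cast
        rw [abs_le]
        constructor <;> linarith
      · show |((G 1 : ℤ) : ℝ)| ≤ _
        rw [hG1]
        push_cast
        rw [abs_le]
        constructor <;> linarith
      · show |((G 2 : ℤ) : ℝ)| ≤ _
        rw [hG2]
        push_cast
        rw [abs_le]
        constructor <;> linarith
    have h6 := nr_le_of_abs h5
    rw [← hN3]
    calc nz G ≤ 2 * (2 * (N : ℝ) ^ 3) := h6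
      _ = _ := by ring
  have hGs : ∀ s : Zd 3, s ≠ 0 → nz s ≤ P.b ^ 120 → 1 ≤ |dr (rz G) (rz s)| := by
    intro s hs0 hs
    have hl' : ∀ j, |s j| ≤ L := by
      intro j
      have h1 := (abs_le_nz s j).trans hs
      rw [← hLb] at h1
      exact_mod_cast h1
    have e : dr (rz G) (rz s) = ((N ^ 2 * (s 1 - (N + 1) * s 0) + s 2 : ℤ) : ℝ) := by
      rw [dr3]
      unfold rz
      rw [hG0, hG1, hG2]
      push_cast
      ring
    rw [e]
    have hne : N ^ 2 * (s 1 - (N + 1) * s 0) + s 2 ≠ 0 := by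
      intro h
      have hNN : L < N ^ 2 := by nlinarith
      have h1 : s 1 - (N + 1) * s 0 = 0 := by
        by_contra hc
        have h2 : 1 ≤ |s 1 - (N + 1) * s 0| := Int.one_le_abs hc
        have h3 : |s 2| = N ^ 2 * |s 1 - (N + 1) * s 0| := by
          have h4 : s 2 = -(N ^ 2 * (s 1 - (N + 1) * s 0)) := by linarith
          rw [h4, abs_neg, abs_mul, abs_of_nonneg (sq_nonneg N)]
        have h5 := hl' 2
        nlinarith [sq_nonneg N]
      have h2 : s 2 = 0 := by rw [h1, mul_zero, zero_add] at h; exact h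
      have h3 : s 0 = 0 := by
        by_contra hc
        have h4 : 1 ≤ |s 0| := Int.one_le_abs hc
        have h5 : |s 1| = (N + 1) * |s 0| := by
          have h6 : s 1 = (N + 1) * s 0 := by linarith
          rw [h6, abs_mul, abs_of_nonneg (by linarith)]
        have h7 := hl' 1
        nlinarith
      have h4 : s 1 = 0 := by rw [h3] at h1; linarith
      apply hs0
      funext j
      fin_cases j
      · exact h3
      · exact h4
      · exact h2
    have h1 := Int.one_le_abs hne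
    have h2 : ((1 : ℤ) : ℝ) ≤ ((|N ^ 2 * (s 1 - (N + 1) * s 0) + s 2| : ℤ) : ℝ) := by exact_mod_cast h1
    rw [Int.cast_abs] at h2
    simpa using h2
  have hb := P.pow_pos 11000
  refine ⟨(P.b ^ 11000 / nz G) • rz G, ?_, ?_⟩
  · have hnr : nr ((P.b ^ 11000 / nz G) • rz G) = P.b ^ 11000 := by
      rw [nr_smul, abs_of_pos (div_pos hb hGpos)]
      show P.b ^ 11000 / nz G * nz G = _
      field_simp
    refine ⟨?_, ?_, ?_⟩
    · have h0 : dt ((P.b ^ 11000 / nz G) • rz G) P.nu = 0 := by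
        rw [dt_eq, dr_smul_left]
        have h1 : dr (rz G) (rz P.nu) = 0 := by
          rw [dr3]
          unfold rz
          rw [n0_nu0, n0_nu1, n0_nu2, hG0, hG1, hG2]
          push_cast
          rw [← hNb]
          have h2 : P.b ^ 1660 = (N : ℝ) ^ 2 := by rw [hNb, ← pow_mul]
          rw [h2]
          ring
        rw [h1, mul_zero]
      rw [h0, abs_zero]
      exact mul_nonneg (mul_nonneg zero_le_one (P.pow_pos 600).le) (nz_nonneg P.nu)
    · rw [hnr, one_mul]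
      exact P.pow_le (by norm_num)
    · rw [hnr, one_mul]
      exact P.pow_le (by norm_num)
  · intro s hs0 hs
    have h1 := hGs s hs0 hs
    rw [dt_eq, dr_smul_left, abs_mul, abs_of_pos (div_pos hb hGpos)]
    have h2 : P.b ^ 500 ≤ P.b ^ 11000 / nz G := by
      rw [le_div_iff₀ hGpos]
      calc P.b ^ 500 * nz G ≤ P.b ^ 500 * (4 * P.b ^ 2490) :=
            mul_le_mul_of_nonneg_left hGle (P.pow_pos 500).le
        _ = 4 * P.b ^ 2990 := by
            rw [show (2990 : ℕ) = 500 + 2490 from rfl, pow_add]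
            ring
        _ ≤ P.b ^ 11000 := P.mul_pow_le (by norm_num) (by norm_num)
    calc P.b ^ 500 ≤ P.b ^ 11000 / nz G := h2
      _ = P.b ^ 11000 / nz G * 1 := by ring
      _ ≤ _ := mul_le_mul_of_nonneg_left h1 (div_pos hb hGpos).le

end H9F
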