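import Pool.Agent.Lib.H9F.Defs

/-!
# H9F Dya: dyadic decomposition of sums
-/

open scoped BigOperators Topology
open Set Filter

noncomputable section

namespace H9F

open Fermi

/-- Dyadic summation: group the elements by `S ≤ g i < 2 S`, `S = S₀ 2^j`, `j < J`.
If every group contributes at most `C j` then the whole sum is at most `∑ j < J, C j`. -/
theorem dyadic_sum {ι : Type*} [DecidableEq ι] (X : Finset ι) (g f : ι → ℝ) (S₀ : ℝ) (hS₀ : 0 < S₀) (J : ℕ)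
    (C : ℕ → ℝ) (hg : ∀ i ∈ X, S₀ ≤ g i ∧ g i < S₀ * 2 ^ J)
    (h : ∀ j < J, ∀ Y ⊆ X, (∀ i ∈ Y, S₀ * 2 ^ j ≤ g i ∧ g i < S₀ * 2 ^ (j + 1)) →
      ∑ i ∈ Y, f i ≤ C j) : ∑ i ∈ X, f i ≤ ∑ j ∈ Finset.range J, C j := by
  classical
  induction J generalizing X with
  | zero =>
    have hX : X = ∅ := by
      apply Finset.eq_empty_of_forall_notMem
      intro i hi
      have h1 := hg i hi
      rw [pow_zero, mul_one] at h1
      linarith [h1.1, h1.2]
    rw [hX]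
    simp
  | succ J ih =>
    rw [Finset.sum_range_succ, ← Finset.sum_filter_add_sum_filter_not X (fun i => g i < S₀ * 2 ^ J) f]
    apply add_le_add
    · apply ih
      · intro i hi
        rw [Finset.mem_filter] at hi
        exact ⟨(hg i hi.1).1, hi.2⟩
      · intro j hj Y hY hYg
        exact h j (Nat.lt_succ_of_lt hj) Y (hY.trans (Finset.filter_subset _ _)) hYg
    · apply h J (Nat.lt_succ_self J) _ (Finset.filter_subset _ _)
      intro i hi
      rw [Finset.mem_filter] at hi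
      exact ⟨not_lt.mp hi.2, (hg i hi.1).2⟩

/-- weighted version: if a group with `S ≤ g i < 2S` has at most `c j` elements and `f i ≤ a j` on it -/
theorem dyadic_card {ι : Type*} [DecidableEq ι] (X : Finset ι) (g f : ι → ℝ) (S₀ : ℝ) (hS₀ : 0 < S₀) (J : ℕ)
    (c a : ℕ → ℝ) (ha : ∀ j, 0 ≤ a j) (hg : ∀ i ∈ X, S₀ ≤ g i ∧ g i < S₀ * 2 ^ J)
    (hc : ∀ j < J, ∀ Y ⊆ X, (∀ i ∈ Y, S₀ * 2 ^ j ≤ g i ∧ g i < S₀ * 2 ^ (j + 1)) → (Y.card : ℝ) ≤ c j)
    (hf : ∀ j < J, ∀ i ∈ X, S₀ * 2 ^ j ≤ g i → g i < S₀ * 2 ^ (j + 1) → f i ≤ a j) :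
    ∑ i ∈ X, f i ≤ ∑ j ∈ Finset.range J, c j * a j := by
  apply dyadic_sum X g f S₀ hS₀ J (fun j => c j * a j) hg
  intro j hj Y hY hYg
  calc ∑ i ∈ Y, f i ≤ ∑ _i ∈ Y, a j :=
        Finset.sum_le_sum (fun i hi => hf j hj i (hY hi) (hYg i hi).1 (hYg i hi).2)
    _ = (Y.card : ℝ) * a j := by rw [Finset.sum_const, nsmul_eq_mul]
    _ ≤ c j * a j := mul_le_mul_of_nonneg_right (hc j hj Y hY hYg) (ha j)

end H9F
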