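import Pool.Agent.Lib.H9F.N7B
import Pool.Agent.Lib.H9F.Dya

/-!
# H9F N7C: sums over obstacle vectors
-/

open scoped BigOperators Topology
open Set Filter

noncomputable section

namespace H9F

open Fermi

variable {M : ℝ} {μ : ℂ} {P : Big M μ}

/-- (N7) Proof. At most one `s ∈ X` has `nz s ≤ b^360` (`ob_uniq`), with `1/nz s ≤ 1/b^120` (`ob_long`). The others:
`dyadic_card` with `g = nz`, `S₀ = b^360`, `J = P.J` (`nz s ≤ 3 R ≤ b^12002 < 2^J`), `c j = S₀ 2^j/b^121` (`ob_mid`), `a j = 1/(S₀ 2^j)`: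
`≤ J/b^121 ≤ 1/b^120`. -/
theorem ob_sum {k : Cd 3} (hk : KC P k) (hn : NF P (P.b ^ 500 / 2) k) (X : Finset (Zd 3))
    (hX : ∀ s ∈ X, Ob P k s) : ∑ s ∈ X, 1 / nz s ≤ 3 / P.b ^ 120 := by
  classical
  have hb0 := P.b_pos
  have hb1 := P.one_le_b
  have hR := hk.R_pos
  have hRle := hk.yy.R_le
  have h360 := P.pow_pos 360
  have h120 := P.pow_pos 120
  have h121 := P.pow_pos 121
  rw [← Finset.sum_filter_add_sum_filter_not X (fun s => nz s ≤ P.b ^ 360)]
  have hA : ∑ s ∈ X with nz s ≤ P.b ^ 360, 1 / nz s ≤ 1 / P.b ^ 120 := by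
    have hcard : (X.filter (fun s => nz s ≤ P.b ^ 360)).card ≤ 1 := by
      refine Finset.card_le_one.2 fun a ha b hb => ?_
      rw [Finset.mem_filter] at ha hb
      exact ob_uniq hk hn (hX a ha.1) (hX b hb.1) ha.2 hb.2
    have hcard' : ((X.filter (fun s => nz s ≤ P.b ^ 360)).card : ℝ) ≤ 1 := by exact_mod_cast hcard
    calc ∑ s ∈ X with nz s ≤ P.b ^ 360, 1 / nz s ≤
          ∑ _s ∈ X with nz _s ≤ P.b ^ 360, 1 / P.b ^ 120 := by
          refine Finset.sum_le_sum fun s hs => ?_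
          rw [Finset.mem_filter] at hs
          exact one_div_le_one_div_of_le h120 (ob_long hn (hX s hs.1)).le
      _ = ((X.filter (fun s => nz s ≤ P.b ^ 360)).card : ℝ) * (1 / P.b ^ 120) := by
          rw [Finset.sum_const, nsmul_eq_mul]
      _ ≤ 1 * (1 / P.b ^ 120) := mul_le_mul_of_nonneg_right hcard' (by positivity)
      _ = 1 / P.b ^ 120 := one_mul _
  have hB : ∑ s ∈ X with ¬ nz s ≤ P.b ^ 360, 1 / nz s ≤ 1 / P.b ^ 120 := by
    have hdy := dyadic_card (X.filter (fun s => ¬ nz s ≤ P.b ^ 360)) nz (fun s => 1 / nz s)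
      (P.b ^ 360) h360 P.J (fun j => P.b ^ 360 * 2 ^ j / P.b ^ 121) (fun j => 1 / (P.b ^ 360 * 2 ^ j))
      (fun j => by positivity) (by
        intro s hs
        rw [Finset.mem_filter] at hs
        refine ⟨(not_le.1 hs.2).le, ?_⟩
        have h1 := ob_le hk (hX s hs.1)
        have h2 : 4 * P.b ^ 12001 ≤ P.b ^ 360 * P.b ^ 13000 := by
          rw [← pow_add]
          exact P.mul_pow_le (by norm_num) (by norm_num)
        have h3 : P.b ^ 360 * P.b ^ 13000 ≤ P.b ^ 360 * 2 ^ P.J :=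
          mul_le_mul_of_nonneg_left P.b_pow_le_two h360.le
        have h4 := P.pow_pos 12001
        linarith) (by
        intro j _ Y hYX hY
        have h2j : (1 : ℝ) ≤ 2 ^ j := one_le_pow₀ (by norm_num)
        refine ob_mid hk (le_mul_of_one_le_right h360.le h2j) Y fun s hs => ?_
        have h1 := hY s hs
        refine ⟨hX s (Finset.mem_filter.1 (hYX hs)).1, h1.1, ?_⟩
        have h2 : P.b ^ 360 * 2 ^ (j + 1) = 2 * (P.b ^ 360 * 2 ^ j) := by ring
        exact (h2 ▸ h1.2).le) (by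
        intro j _ s hs h1 _
        exact one_div_le_one_div_of_le (by positivity) h1)
    refine hdy.trans ?_
    have h1 : ∀ j ∈ Finset.range P.J, P.b ^ 360 * 2 ^ j / P.b ^ 121 * (1 / (P.b ^ 360 * 2 ^ j)) =
        1 / P.b ^ 121 := by
      intro j _
      have : (0 : ℝ) < 2 ^ j := by positivity
      field_simp
    rw [Finset.sum_congr rfl h1, Finset.sum_const, Finset.card_range, nsmul_eq_mul, mul_one_div,
      div_le_div_iff₀ h121 h120, one_mul]
    calc (P.J : ℝ) * P.b ^ 120 ≤ P.b * P.b ^ 120 := mul_le_mul_of_nonneg_right P.J_le_b h120.le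
      _ = P.b ^ 121 := by ring
  have hC : 3 / P.b ^ 120 = 1 / P.b ^ 120 + 1 / P.b ^ 120 + 1 / P.b ^ 120 := by ring
  have hD : 0 < 1 / P.b ^ 120 := by positivity
  rw [hC]
  linarith

/-- Proof. `dyadic_card` with `S₀ = R/b^400` (`R/b^400 · 2^J > 3 R` since `2^J ≥ b^13000`), `c j = S_j²/(R b^50)` (`ob_large`),
`a j = 1/S_j²`: the sum is at most `J/(R b^50) ≤ 1/(R b^49)`. -/
theorem ob_sum_large {k : Cd 3} (hk : KC P k) (X : Finset (Zd 3))
    (hX : ∀ s ∈ X, Ob P k s ∧ nr (im k) / P.b ^ 400 ≤ nz s) :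
    ∑ s ∈ X, 1 / nz s ^ 2 ≤ 1 / (nr (im k) * P.b ^ 49) := by
  classical
  have hb0 := P.b_pos
  have hb1 := P.one_le_b
  have hR := hk.R_pos
  have h400 := P.pow_pos 400
  have h50 := P.pow_pos 50
  have h49 := P.pow_pos 49
  set S₀ := nr (im k) / P.b ^ 400 with hS₀
  have hS₀0 : 0 < S₀ := by positivity
  have hdy := dyadic_card X nz (fun s => 1 / nz s ^ 2) S₀ hS₀0 P.J
    (fun j => (S₀ * 2 ^ j) ^ 2 / (nr (im k) * P.b ^ 50)) (fun j => 1 / (S₀ * 2 ^ j) ^ 2)
    (fun j => by positivity) (by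
      intro s hs
      refine ⟨(hX s hs).2, ?_⟩
      have h1 := ob_le hk (hX s hs).1
      have h2 : S₀ * P.b ^ 13000 ≤ S₀ * 2 ^ P.J :=
        mul_le_mul_of_nonneg_left P.b_pow_le_two hS₀0.le
      have h3 : S₀ * P.b ^ 13000 = nr (im k) * P.b ^ 12600 := by
        have e : P.b ^ 13000 = P.b ^ 400 * P.b ^ 12600 := by rw [← pow_add]
        rw [hS₀, e, ← mul_assoc, div_mul_cancel₀ _ h400.ne']
      have h4 : 4 * P.b ^ 0 ≤ P.b ^ 12600 := P.mul_pow_le (by norm_num) (by norm_num)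
      rw [pow_zero, mul_one] at h4
      have h5 : nr (im k) * 4 ≤ nr (im k) * P.b ^ 12600 := mul_le_mul_of_nonneg_left h4 hR.le
      linarith) (by
      intro j _ Y hYX hY
      have h2j : (1 : ℝ) ≤ 2 ^ j := one_le_pow₀ (by norm_num)
      refine ob_large hk (le_mul_of_one_le_right hS₀0.le h2j) Y fun s hs => ?_
      have h1 := hY s hs
      refine ⟨(hX s (hYX hs)).1, h1.1, ?_⟩
      have h2 : S₀ * 2 ^ (j + 1) = 2 * (S₀ * 2 ^ j) := by ring
      exact (h2 ▸ h1.2).le) (by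
      intro j _ s hs h1 _
      exact one_div_le_one_div_of_le (by positivity)
        (pow_le_pow_left₀ (by positivity) h1 2))
  refine hdy.trans ?_
  have h1 : ∀ j ∈ Finset.range P.J, (S₀ * 2 ^ j) ^ 2 / (nr (im k) * P.b ^ 50) *
      (1 / (S₀ * 2 ^ j) ^ 2) = 1 / (nr (im k) * P.b ^ 50) := by
    intro j _
    have : (0 : ℝ) < 2 ^ j := by positivity
    field_simp
  rw [Finset.sum_congr rfl h1, Finset.sum_const, Finset.card_range, nsmul_eq_mul, mul_one_div,
    div_le_div_iff₀ (by positivity) (by positivity), one_mul]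
  calc (P.J : ℝ) * (nr (im k) * P.b ^ 49) ≤ P.b * (nr (im k) * P.b ^ 49) :=
        mul_le_mul_of_nonneg_right P.J_le_b (by positivity)
    _ = nr (im k) * P.b ^ 50 := by ring

end H9F
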