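import Pool.Agent.Lib.H9F.P2

/-!
# H9F P3: the class is constant on connected families of patches
-/

open scoped BigOperators Topology
open Set Filter

noncomputable section

namespace H9F

open Fermi

variable {M : ℝ} {μ : ℂ} {P : Big M μ} {F A B : Set (Cd 3)}

/-- Proof: `{x ∈ S | Chi ...}` and its complement in `S` are relatively open: near `x₀ ∈ S`, by continuity, `‖k x - k x₀‖`,
`‖U x - U x₀‖`, `‖V x - V x₀‖ ≤ 1/(2 b R)`, so `chi_near` applies in both directions (`nr (im (k x))` is within a factor 2).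
Use `IsPreconnected.induction₂`/`IsPreconnected.subset_of_...` or `isPreconnected_iff_subset_of_disjoint`, or the lemma
`IsPreconnected.constant_of_mapsTo` with a locally constant map to `Prop`/`Bool`. -/
theorem chi_conn (hF : Fsh μ M F) (D : Decomp F A B) {X : Type*} [TopologicalSpace X] {S : Set X}
    (hS : IsPreconnected S) (k : X → Cd 3) (E : X → Frm) (hk : ContinuousOn k S)
    (hU : ContinuousOn (fun x => (E x).U) S) (hV : ContinuousOn (fun x => (E x).V) S)
    (hRE : ∀ x ∈ S, RE P (k x) (E x)) (hOb : ∀ x ∈ S, ObSum P (k x)) {x y : X} (hx : x ∈ S)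
    (hy : y ∈ S) : Chi P F A (k x) (E x) ↔ Chi P F A (k y) (E y) := by
  refine hS.induction₂' (fun x y => Chi P F A (k x) (E x) ↔ Chi P F A (k y) (E y)) ?_ ?_ hx hy
  · intro x₀ hx₀
    have hR := ((hRE x₀ hx₀).yy.mono (by norm_num : (3 : ℝ) ≤ 4)).R_pos
    have hR1 := ((hRE x₀ hx₀).yy.mono (by norm_num : (3 : ℝ) ≤ 4)).R_ge
    have hb1 : 1 ≤ P.b ^ 9999 := one_le_pow₀ P.one_le_b
    have hb := P.b_pos
    have hd : 0 < 1 / (2 * (P.b * nr (im (k x₀)))) := by positivity
    have e1 := Metric.tendsto_nhds.1 (hk x₀ hx₀) _ hd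
    have e2 := Metric.tendsto_nhds.1 (hU x₀ hx₀) _ hd
    have e3 := Metric.tendsto_nhds.1 (hV x₀ hx₀) _ hd
    filter_upwards [e1, e2, e3, self_mem_nhdsWithin] with x h1 h2 h3 hxS
    rw [dist_eq_norm] at h1 h2 h3
    have hle : 1 / (2 * (P.b * nr (im (k x₀)))) ≤ 1 / (P.b * nr (im (k x₀))) := by
      apply one_div_le_one_div_of_le (by positivity)
      nlinarith [mul_pos hb hR]
    have hR' := ((hRE x hxS).yy.mono (by norm_num : (3 : ℝ) ≤ 4)).R_pos
    have hRR : nr (im (k x)) ≤ 2 * nr (im (k x₀)) := by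
      have h4 := abs_nr_sub_le (im (k x)) (im (k x₀))
      rw [← im_sub] at h4
      have h5 := (nr_im_le (k x - k x₀)).trans (nc_le _)
      have h6 := (abs_le.1 h4).2
      have h7 : 1 / (2 * (P.b * nr (im (k x₀)))) ≤ 1 / 2 := by
        apply one_div_le_one_div_of_le (by norm_num)
        nlinarith [P.one_le_b]
      linarith
    have hle2 : 1 / (2 * (P.b * nr (im (k x₀)))) ≤ 1 / (P.b * nr (im (k x))) := by
      apply one_div_le_one_div_of_le (by positivity)
      nlinarith
    have key : Chi P F A (k x₀) (E x₀) ↔ Chi P F A (k x) (E x) := by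
      constructor
      · exact chi_near hF D (hRE x₀ hx₀) (hRE x hxS) (hOb x₀ hx₀) (h1.le.trans hle)
          (h2.le.trans hle) (h3.le.trans hle)
      · refine chi_near hF D (hRE x hxS) (hRE x₀ hx₀) (hOb x hxS) ?_ ?_ ?_
        · rw [norm_sub_rev]; exact h1.le.trans hle2
        · rw [norm_sub_rev]; exact h2.le.trans hle2
        · rw [norm_sub_rev]; exact h3.le.trans hle2
    exact ⟨key, key.symm⟩
  · intro x y z _ _ _ h1 h2
    exact h1.trans h2

end H9F
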