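import Pool.Agent.Lib.H9F.C4
import Pool.Agent.Lib.H9F.P3
import Pool.Agent.Lib.H9F.N7C

/-!
# H9F C5: the class is the same on all patches
-/

open scoped BigOperators Topology
open Set Filter

noncomputable section

namespace H9F

open Fermi

variable {M : ℝ} {μ : ℂ} {P : Big M μ} {F A B : Set (Cd 3)}

theorem RR.obSum {k : Cd 3} {y : Fin 3 → ℝ} (h : RR P k y) : ObSum P k :=
  fun X hX => ob_sum h.re.kc h.nf X hX

/-- connected families of base points, with the explicit frame (`chi_conn`, `RR.re`, `continuousOn_frmU`, `continuousOn_frmV`, `RR.yy3`) -/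
theorem chi_conn' (hF : Fsh μ M F) (D : Decomp F A B) {X : Type*} [TopologicalSpace X] {S : Set X}
    (hS : IsPreconnected S) (k : X → Cd 3) (y : X → Fin 3 → ℝ) (hk : ContinuousOn k S)
    (hy : ContinuousOn y S) (hRR : ∀ x ∈ S, RR P (k x) (y x)) {x x' : X} (hx : x ∈ S)
    (hx' : x' ∈ S) : Chi P F A (k x) (frm P (y x)) ↔ Chi P F A (k x') (frm P (y x')) := by
  have hmaps : MapsTo y S {y | YY P 4 y} := fun z hz => (hRR z hz).yy3.mono (by norm_num)
  exact chi_conn hF D hS k (fun z => frm P (y z)) hk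
    ((continuousOn_frmU P).comp hy hmaps) ((continuousOn_frmV P).comp hy hmaps)
    (fun z hz => (hRR z hz).re) (fun z hz => (hRR z hz).obSum) hx hx'

/-- moving the frame to the imaginary part: segment from `y` to `im k` -/
theorem chi_frame (hF : Fsh μ M F) (D : Decomp F A B) {k : Cd 3} {y : Fin 3 → ℝ} (h : RR P k y) :
    Chi P F A k (frm P y) ↔ Chi P F A k (frm P (im k)) := by
  have h1 := chi_conn' (P := P) hF D (X := ℝ) (S := Icc 0 1) isPreconnected_Icc (fun _ => k)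
    (fun t => im k + t • (y - im k)) continuousOn_const (by fun_prop) (by
      intro t ht
      refine ⟨h.q0, h.yy, h.nf, ?_⟩
      have e : im k + t • (y - im k) - im k = t • (y - im k) := by abel
      rw [e, nr_smul, abs_of_nonneg ht.1]
      calc t * nr (y - im k) ≤ 1 * nr (y - im k) :=
            mul_le_mul_of_nonneg_right ht.2 (nr_nonneg _)
        _ ≤ 10 * P.rho := by rw [one_mul]; exact h.near) (x := 1) (x' := 0)
    (by constructor <;> norm_num) (by constructor <;> norm_num)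
  have e1 : im k + (1 : ℝ) • (y - im k) = y := by rw [one_smul]; abel
  have e2 : im k + (0 : ℝ) • (y - im k) = im k := by rw [zero_smul, add_zero]
  rw [e1, e2] at h1
  exact h1

theorem c5_path (hF : Fsh μ M F) (D : Decomp F A B) {y : Fin 3 → ℝ} (hy : YY P (5 / 2) y)
    (ω : ℝ → Fin 3 → ℝ) (hc : ContinuousOn ω (Icc 0 1))
    (h : ∀ t ∈ Icc (0 : ℝ) 1, nr (ω t) = 1 ∧ dr (ω t) y = 0 ∧ NF P (P.b ^ 500 / 2) (kp μ y (ω t))) :
    Chi P F A (kp μ y (ω 0)) (frm P y) ↔ Chi P F A (kp μ y (ω 1)) (frm P y) := by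
  have hy4 : YY P 4 y := hy.mono (by norm_num)
  have hm : MapsTo (fun t : ℝ => (y, ω t)) (Icc 0 1)
      {x : (Fin 3 → ℝ) × (Fin 3 → ℝ) | YY P 4 x.1} := by
    intro t _
    exact hy4
  have hg : ContinuousOn (fun t : ℝ => (y, ω t)) (Icc 0 1) := continuousOn_const.prodMk hc
  have hk0 := ContinuousOn.comp (continuousOn_kp P) hg hm
  have hk : ContinuousOn (fun t => kp μ y (ω t)) (Icc 0 1) := hk0
  have hRR : ∀ t ∈ Icc (0 : ℝ) 1, RR P (kp μ y (ω t)) y := fun t ht =>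
    rr_kp hy (h t ht).1 (h t ht).2.1 (h t ht).2.2
  have h0 : (0 : ℝ) ∈ Icc (0 : ℝ) 1 := left_mem_Icc.2 zero_le_one
  have h1 : (1 : ℝ) ∈ Icc (0 : ℝ) 1 := right_mem_Icc.2 zero_le_one
  exact chi_conn' hF D isPreconnected_Icc (fun t => kp μ y (ω t)) (fun _ => y) hk
    continuousOn_const hRR h0 h1

/-- `turn`, `kp_surj`, `rr_kp` -/
theorem chi_turn (hF : Fsh μ M F) (D : Decomp F A B) {k : Cd 3} {y : Fin 3 → ℝ} (h : RR P k y) :
    (Chi P F A k (frm P y) ↔ Chi P F A (kp μ (im k) (f2 P (im k))) (frm P (im k))) ∨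
    (Chi P F A k (frm P y) ↔ Chi P F A (kp μ (im k) (-f2 P (im k))) (frm P (im k))) := by
  have h1 := chi_frame hF D h (A := A)
  obtain ⟨ω₀, hω1, hω2, hk⟩ := kp_surj h.q0 (h.yy.mono (by norm_num))
  have hnf : NF P (P.b ^ 500 / 2) (kp μ (im k) ω₀) := by rw [← hk]; exact h.nf
  obtain ⟨ω₁, hor, ω, hc, h0, h1', hp⟩ := turn h.yy hω1 hω2 hnf
  have h2 := c5_path (A := A) hF D h.yy ω hc hp
  rw [h0, h1', ← hk] at h2
  rcases hor with h3 | h3
  · left
    rw [h3] at h2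
    exact h1.trans h2
  · right
    rw [h3] at h2
    exact h1.trans h2

/-- moving `y` in the annulus with `ω = f2` resp. `-f2` (`YY_conn`, `nf_f2`, `continuousOn_kp`, `continuousOn_f2`) -/
theorem chi_move (hF : Fsh μ M F) (D : Decomp F A B) {y y' : Fin 3 → ℝ} (h : YY P (5 / 2) y)
    (h' : YY P (5 / 2) y') :
    (Chi P F A (kp μ y (f2 P y)) (frm P y) ↔ Chi P F A (kp μ y' (f2 P y')) (frm P y')) ∧
    (Chi P F A (kp μ y (-f2 P y)) (frm P y) ↔ Chi P F A (kp μ y' (-f2 P y')) (frm P y')) := by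
  have hsub : {y : Fin 3 → ℝ | YY P (5 / 2) y} ⊆ {y | YY P 4 y} :=
    fun z hz => YY.mono hz (by norm_num)
  have hf2 : ContinuousOn (f2 P) {y : Fin 3 → ℝ | YY P (5 / 2) y} := (continuousOn_f2 P).mono hsub
  have hf2' : ContinuousOn (fun z => -f2 P z) {y : Fin 3 → ℝ | YY P (5 / 2) y} := hf2.neg
  have hid : ContinuousOn (fun z : Fin 3 → ℝ => z) {y : Fin 3 → ℝ | YY P (5 / 2) y} := continuousOn_id
  constructor
  · have hm : MapsTo (fun z : Fin 3 → ℝ => (z, f2 P z)) {y : Fin 3 → ℝ | YY P (5 / 2) y}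
        {x : (Fin 3 → ℝ) × (Fin 3 → ℝ) | YY P 4 x.1} := by
      intro z hz
      exact hsub hz
    have hg : ContinuousOn (fun z : Fin 3 → ℝ => (z, f2 P z)) {y : Fin 3 → ℝ | YY P (5 / 2) y} := hid.prodMk hf2
    have hk0 := ContinuousOn.comp (continuousOn_kp P) hg hm
    have hk : ContinuousOn (fun z => kp μ z (f2 P z)) {y : Fin 3 → ℝ | YY P (5 / 2) y} := hk0
    have hRR : ∀ z ∈ {y : Fin 3 → ℝ | YY P (5 / 2) y}, RR P (kp μ z (f2 P z)) z := by
      intro z hz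
      have hz4 : YY P 4 z := hsub hz
      exact rr_kp hz (f2_unit hz4).1 (f2_unit hz4).2.1 (nf_f2 hz4).1
    have hfin := chi_conn' (A := A) hF D (YY_conn P) (fun z => kp μ z (f2 P z)) (fun z => z) hk hid hRR
      (x := y) (x' := y') h h'
    exact hfin
  · have hm : MapsTo (fun z : Fin 3 → ℝ => (z, -f2 P z)) {y : Fin 3 → ℝ | YY P (5 / 2) y}
        {x : (Fin 3 → ℝ) × (Fin 3 → ℝ) | YY P 4 x.1} := by
      intro z hz
      exact hsub hz
    have hg : ContinuousOn (fun z : Fin 3 → ℝ => (z, -f2 P z)) {y : Fin 3 → ℝ | YY P (5 / 2) y} := hid.prodMk hf2'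
    have hk0 := ContinuousOn.comp (continuousOn_kp P) hg hm
    have hk : ContinuousOn (fun z => kp μ z (-f2 P z)) {y : Fin 3 → ℝ | YY P (5 / 2) y} := hk0
    have hRR : ∀ z ∈ {y : Fin 3 → ℝ | YY P (5 / 2) y}, RR P (kp μ z (-f2 P z)) z := by
      intro z hz
      have hz4 : YY P 4 z := hsub hz
      have h1 := (f2_unit hz4).2.1
      have e : -f2 P z = (-1 : ℝ) • f2 P z := by rw [neg_smul, one_smul]
      exact rr_kp hz (by rw [nr_neg]; exact (f2_unit hz4).1)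
        (by rw [e, dr_smul_left, h1, mul_zero]) (nf_f2 hz4).2
    have hfin := chi_conn' (A := A) hF D (YY_conn P) (fun z => kp μ z (-f2 P z)) (fun z => z) hk hid hRR
      (x := y) (x' := y') h h'
    exact hfin

theorem c5_seg (hF : Fsh μ M F) (D : Decomp F A B) {y₀ : Fin 3 → ℝ} (hy : YY P (5 / 2) y₀)
    (hn : ∀ s : Zd 3, s ≠ 0 → nz s ≤ P.b ^ 120 → P.b ^ 500 ≤ |dt y₀ s|) {ω₀ ω₁ : Fin 3 → ℝ}
    (h0 : nr ω₀ = 1) (h1 : nr ω₁ = 1) (hy0 : dr ω₀ y₀ = 0) (hy1 : dr ω₁ y₀ = 0)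
    (h01 : dr ω₀ ω₁ = 0) :
    Chi P F A (kp μ y₀ ω₀) (frm P y₀) ↔ Chi P F A (kp μ y₀ ω₁) (frm P y₀) := by
  have hne : ∀ t ∈ Icc (0 : ℝ) 1, (1 - t) • ω₀ + t • ω₁ ≠ 0 := by
    intro t _ h
    have e0 : dr ω₀ ω₀ = 1 := by rw [← nr_sq, h0]; norm_num
    have e1 : dr ω₁ ω₁ = 1 := by rw [← nr_sq, h1]; norm_num
    have e2 : dr ((1 - t) • ω₀ + t • ω₁) ω₀ = 1 - t := by
      rw [dr_add_left, dr_smul_left, dr_smul_left, e0, dr_comm ω₁, h01]; ring
    have e3 : dr ((1 - t) • ω₀ + t • ω₁) ω₁ = t := by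
      rw [dr_add_left, dr_smul_left, dr_smul_left, e1, h01]; ring
    rw [h] at e2 e3
    have e4 : ∀ x : Fin 3 → ℝ, dr 0 x = 0 := by
      intro x
      rw [dr3]; simp
    rw [e4] at e2 e3
    linarith
  obtain ⟨p0, p1, pc, pp, -⟩ := seg_props h0 h1 hy0 hy1 hne
  have h2 := c5_path (A := A) hF D hy (seg ω₀ ω₁) pc (fun t ht => ⟨(pp t ht).1, (pp t ht).2, by
    apply nf_of_im
    intro s hs hs'
    rw [im_kp]
    have h3 := hn s hs hs'
    have h4 := P.pow_pos 500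
    linarith⟩)
  rw [p0, p1] at h2
  exact h2

/-- at the point without slabs `ω` can be turned from `f2` over `f1` to `-f2` (`seg`, `nf_of_im`) -/
theorem chi_flip (hF : Fsh μ M F) (D : Decomp F A B) {y₀ : Fin 3 → ℝ} (hy : YY P (5 / 2) y₀)
    (hn : ∀ s : Zd 3, s ≠ 0 → nz s ≤ P.b ^ 120 → P.b ^ 500 ≤ |dt y₀ s|) :
    Chi P F A (kp μ y₀ (f2 P y₀)) (frm P y₀) ↔ Chi P F A (kp μ y₀ (-f2 P y₀)) (frm P y₀) := by
  obtain ⟨a1, a2, a3, a4, a5⟩ := f2_unit (hy.mono (show (5 / 2 : ℝ) ≤ 4 by norm_num))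
  have e : -f2 P y₀ = (-1 : ℝ) • f2 P y₀ := by rw [neg_smul, one_smul]
  have h1 := c5_seg (A := A) hF D hy hn a1 a3 a2 a4 (by rw [dr_comm]; exact a5)
  have h2 := c5_seg (A := A) hF D hy hn a3 (by rw [nr_neg]; exact a1) a4
    (by rw [e, dr_smul_left, a2, mul_zero]) (by rw [e, dr_smul_right, a5, mul_zero])
  exact h1.trans h2

/-- the class is the same on all patches -/
theorem chi_const (hF : Fsh μ M F) (D : Decomp F A B) {k k' : Cd 3} {y y' : Fin 3 → ℝ}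
    (h : RR P k y) (h' : RR P k' y') : Chi P F A k (frm P y) ↔ Chi P F A k' (frm P y') := by
  obtain ⟨y₀, hy0, hn⟩ := exists_y0 P
  have hy0' : YY P (5 / 2) y₀ := hy0.mono (by norm_num)
  have hf := chi_flip hF D hy0' hn
  have key : ∀ (k : Cd 3) (y : Fin 3 → ℝ), RR P k y →
      (Chi P F A k (frm P y) ↔ Chi P F A (kp μ y₀ (f2 P y₀)) (frm P y₀)) := by
    intro k y h
    have hm := chi_move hF D h.yy hy0'
    rcases chi_turn hF D h with h1 | h1
    · exact h1.trans hm.1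
    · exact (h1.trans hm.2).trans hf.symm
  exact (key k y h).trans (key k' y' h').symm

end H9F
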