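import Pool.Agent.Lib.H9F.C5

/-!
# H9F C6: dichotomy; `F` is not empty
-/

open scoped BigOperators Topology
open Set Filter

noncomputable section

namespace H9F

open Fermi

variable {M : ℝ} {μ : ℂ} {F A B : Set (Cd 3)}

/-- no patch has class `A`, or no patch has class `B` -/
theorem chi_dich (P : Big M μ) (hF : Fsh μ M F) (D : Decomp F A B) :
    (∀ k y, RR P k y → ¬ Chi P F A k (frm P y)) ∨ (∀ k y, RR P k y → ¬ Chi P F B k (frm P y)) := by
  by_cases h : ∃ k y, RR P k y ∧ Chi P F A k (frm P y)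
  · right
    obtain ⟨k, y, hk, hA⟩ := h
    intro k' y' hk' hB
    exact chi_excl hF D hk'.re hk'.obSum ⟨(chi_const hF D hk hk').1 hA, hB⟩
  · left
    intro k y hk hA
    exact h ⟨k, y, hk, hA⟩

/-- there is a base point, hence a good point, hence a point of `F` (`good_F`) -/
theorem F_nonempty (hM : 0 ≤ M) (hF : Fsh μ M F) : F.Nonempty := by
  obtain ⟨P, -⟩ := Big.exists M μ hM 0
  obtain ⟨y₀, hy0, hn⟩ := exists_y0 P
  have hy4 : YY P 4 y₀ := hy0.mono (by norm_num)
  have hu := f2_unit hy4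
  have hrr := rr_kp (μ := μ) (hy0.mono (by norm_num)) hu.1 hu.2.1 (nf_f2 hy4).1
  have hρ := P.rho_pos
  obtain ⟨x, hx, hl⟩ := exists_lineV_of hrr.re hrr.obSum (a := -(3 / 4 * P.rho))
    (c := 3 / 4 * P.rho) le_rfl le_rfl (by linarith)
  obtain ⟨k', hk', -⟩ := good_F hF ((hl 0 (by rw [abs_zero]; positivity)).mono (by norm_num : (3:ℝ) ≤ 10))
  exact ⟨k', hk'⟩

end H9F
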