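import Pool.Agent.Lib.H9F.Bas

/-!
# H9F, definitions of the project (see `PROOF.md`)
-/

open scoped BigOperators Topology
open Set Filter

noncomputable section

namespace H9F

open Fermi

/-! ### the scale -/

/-- The scale: a huge natural number `B` (as a real number: `b`), the level `K` of good points,
the number `J` of dyadic scales. -/
structure Big (M : ℝ) (μ : ℂ) where
  B : ℕ
  K : ℝ
  J : ℕ
  M_nonneg : 0 ≤ M
  K_ge : 10 ^ 6 * (M + 1) ≤ K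
  B_ge : 10 ^ 30 * K ≤ (B : ℝ)
  mu_le : ‖μ‖ ≤ (B : ℝ)
  J_le : (J : ℝ) ≤ (B : ℝ)
  J_ge : (B : ℝ) ^ 13000 ≤ 2 ^ J

variable {M : ℝ} {μ : ℂ}

namespace Big

variable (P : Big M μ)

/-- the big number as a real number -/
def b : ℝ := (P.B : ℝ)

/-- radius of the slices, `b^-100` -/
def rho : ℝ := (P.b ^ 100)⁻¹

/-- the integer vector `ν = (1, N, N^2)`, `N = B^830` -/
def nu : Zd 3 := ![1, (P.B : ℤ) ^ 830, (P.B : ℤ) ^ 1660]

/-- threshold of the operator part -/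
def c0 (_P : Big M μ) : ℝ := 4 * M + 8

theorem K_ge' : 10 ^ 6 ≤ P.K := by
  have h1 := P.K_ge
  have h2 := P.M_nonneg
  nlinarith

theorem b_ge : 10 ^ 36 ≤ P.b := by
  have h1 := P.B_ge
  have h2 := P.K_ge'
  unfold b
  calc (10 : ℝ) ^ 36 = 10 ^ 30 * 10 ^ 6 := by norm_num
    _ ≤ 10 ^ 30 * P.K := by gcongr
    _ ≤ _ := h1

theorem b_pos : 0 < P.b := lt_of_lt_of_le (by norm_num) P.b_ge
theorem one_le_b : 1 ≤ P.b := le_trans (by norm_num) P.b_ge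
theorem K_pos : 0 < P.K := lt_of_lt_of_le (by norm_num) P.K_ge'
theorem K_le : 10 ^ 30 * P.K ≤ P.b := P.B_ge
theorem c0_pos : 0 < P.c0 := by have := P.M_nonneg; unfold c0; linarith
/-- `c0 ≤ 8 (M + 1)` and `10^6 (M+1) ≤ K` -/
theorem c0_le : 125000 * P.c0 ≤ P.K := by
  have h1 := P.K_ge
  have h2 := P.M_nonneg
  unfold c0
  nlinarith
theorem mu_le_b : ‖μ‖ ≤ P.b := P.mu_le
theorem J_le_b : (P.J : ℝ) ≤ P.b := P.J_le
theorem b_pow_le_two : P.b ^ 13000 ≤ 2 ^ P.J := P.J_ge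

/-- monotonicity of powers of `b` -/
theorem pow_le {i j : ℕ} (h : i ≤ j) : P.b ^ i ≤ P.b ^ j := pow_le_pow_right₀ P.one_le_b h
theorem pow_pos (i : ℕ) : 0 < P.b ^ i := _root_.pow_pos P.b_pos i
/-- a constant factor is absorbed by one more power -/
theorem mul_pow_le {c : ℝ} {i j : ℕ} (hc : c ≤ 10 ^ 36) (h : i + 1 ≤ j) :
    c * P.b ^ i ≤ P.b ^ j := by
  calc c * P.b ^ i ≤ P.b * P.b ^ i :=
        mul_le_mul_of_nonneg_right (hc.trans P.b_ge) (P.pow_pos i).le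
    _ = P.b ^ (i + 1) := by ring
    _ ≤ P.b ^ j := P.pow_le h
theorem rho_pos : 0 < P.rho := inv_pos.2 (P.pow_pos 100)
theorem rho_mul : P.rho * P.b ^ 100 = 1 := inv_mul_cancel₀ (P.pow_pos 100).ne'
theorem rho_eq (i : ℕ) : P.rho * P.b ^ (i + 100) = P.b ^ i := by
  rw [pow_add, mul_left_comm, P.rho_mul, mul_one]
theorem rho_le_one : P.rho ≤ 1 := inv_le_one_of_one_le₀ (one_le_pow₀ P.one_le_b)
theorem rho_le_small : P.rho ≤ 10 ^ (-36 : ℤ) := by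
  have h1 : (10 : ℝ) ^ 36 ≤ P.b ^ 100 := P.b_ge.trans (le_self_pow₀ P.one_le_b (by norm_num))
  have h2 : P.rho ≤ ((10 : ℝ) ^ 36)⁻¹ := inv_anti₀ (by norm_num) h1
  simpa [zpow_neg] using h2

end Big

/-- scales exist -/
theorem Big.exists (M : ℝ) (μ : ℂ) (hM : 0 ≤ M) (X : ℝ) : ∃ P : Big M μ, X ≤ P.b := by
  have hlog : ∀ᶠ x : ℝ in atTop, 13000 * Real.logb 2 x + 1 ≤ x := by
    have h1 : Tendsto (fun x : ℝ => Real.log x / x) atTop (𝓝 0) := by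
      have h2 := Real.isLittleO_log_id_atTop
      exact h2.tendsto_div_nhds_zero
    have hl2 : 0 < Real.log 2 := Real.log_pos one_lt_two
    have h3 := h1.eventually (gt_mem_nhds (show 0 < Real.log 2 / 26000 by positivity))
    filter_upwards [h3, eventually_ge_atTop 2] with x hx h2x
    have hx0 : 0 < x := by linarith
    rw [div_lt_iff₀ hx0] at hx
    have h4 : Real.logb 2 x ≤ x / 26000 := by
      unfold Real.logb
      rw [div_le_iff₀ hl2]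
      nlinarith
    linarith
  obtain ⟨x₀, hx₀⟩ := eventually_atTop.1 hlog
  obtain ⟨B, hB⟩ := exists_nat_ge (max (max x₀ X) (max (10 ^ 30 * (10 ^ 6 * (M + 1))) (max ‖μ‖ 2)))
  have hB1 : x₀ ≤ (B : ℝ) := le_trans (le_trans (le_max_left _ _) (le_max_left _ _)) hB
  have hB2 : X ≤ (B : ℝ) := le_trans (le_trans (le_max_right _ _) (le_max_left _ _)) hB
  have hB3 : 10 ^ 30 * (10 ^ 6 * (M + 1)) ≤ (B : ℝ) :=
    le_trans (le_trans (le_max_left _ _) (le_max_right _ _)) hB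
  have hB4 : ‖μ‖ ≤ (B : ℝ) :=
    le_trans (le_trans (le_trans (le_max_left _ _) (le_max_right _ _)) (le_max_right _ _)) hB
  have hB5 : (2 : ℝ) ≤ (B : ℝ) :=
    le_trans (le_trans (le_trans (le_max_right _ _) (le_max_right _ _)) (le_max_right _ _)) hB
  have hBpos : (0 : ℝ) < B := by linarith
  have hJ := hx₀ B hB1
  have hlb : 0 ≤ Real.logb 2 B := Real.logb_nonneg one_lt_two (by linarith)
  refine ⟨⟨B, 10 ^ 6 * (M + 1), ⌈13000 * Real.logb 2 B⌉₊, hM, le_rfl, hB3, hB4, ?_, ?_⟩, hB2⟩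
  · exact (Nat.ceil_lt_add_one (by positivity)).le.trans hJ
  · have h1 : 13000 * Real.logb 2 B ≤ (⌈13000 * Real.logb 2 B⌉₊ : ℝ) := Nat.le_ceil _
    have h2 : (B : ℝ) ^ 13000 = 2 ^ (13000 * Real.logb 2 B : ℝ) := by
      rw [mul_comm, Real.rpow_mul (by norm_num), Real.rpow_logb (by norm_num) (by norm_num) hBpos]
      exact_mod_cast rfl
    rw [h2, ← Real.rpow_natCast]
    exact Real.rpow_le_rpow_of_exponent_le one_le_two h1

/-! ### imaginary parts -/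

/-- the annulus of imaginary parts, nearly orthogonal to `ν`; `c` is a slack factor -/
structure YY (P : Big M μ) (c : ℝ) (y : Fin 3 → ℝ) : Prop where
  nu : |dt y P.nu| ≤ c * P.b ^ 600 * nz P.nu
  lo : P.b ^ 10000 ≤ c * nr y
  hi : nr y ≤ c * P.b ^ 12000

/-- no short vector nearly orthogonal to `k` -/
def NF (P : Big M μ) (g : ℝ) (k : Cd 3) : Prop :=
  ∀ s : Zd 3, s ≠ 0 → nz s ≤ P.b ^ 120 → g ≤ ‖bil k (zc s)‖

/-- `k` is near the circle of the sheet `0`, crudely -/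
structure KC (P : Big M μ) (k : Cd 3) : Prop where
  yy : YY P 4 (im k)
  hq : ‖q μ k 0‖ ≤ nr (im k) ^ 2 / 1000

/-- obstacle vectors of `k` -/
def Ob (P : Big M μ) (k : Cd 3) (s : Zd 3) : Prop :=
  s ≠ 0 ∧ ‖gs k s‖ ≤ 2 * P.b + 40 * P.rho * nz s

/-! ### the Fermi set, abstractly -/

/-- what the geometric part uses of the Fermi set -/
structure Fsh (μ : ℂ) (M : ℝ) (F : Set (Cd 3)) : Prop where
  hyp : LocHyp F
  per : Per F
  far : ∀ k, (∀ n, 4 * M + 8 ≤ ‖q μ k n‖) → k ∉ F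
  one : ∀ (k v : Cd 3) (r : ℝ) (n : Zd 3), 0 < r →
    (∀ z : ℂ, ‖z‖ ≤ r → ∀ m, m ≠ n → 4 * M + 8 ≤ ‖q μ (k + z • v) m‖) →
    ∃ e : ℂ → ℂ, AnalyticOnNhd ℂ e (Metric.ball 0 r) ∧ (∀ z, ‖z‖ < r → ‖e z‖ ≤ 2 * (M + 1)) ∧
      ∀ z, ‖z‖ < r → (k + z • v ∈ F ↔ q μ (k + z • v) n + e z = 0)

/-! ### class of a sheet point -/

/-- good points of the sheet `q_0 = 0` at level `κ K` -/
structure Good (P : Big M μ) (κ : ℝ) (k : Cd 3) : Prop where
  q0 : q μ k 0 = 0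
  big : P.b ^ 9000 ≤ nr (im k)
  far : ∀ m : Zd 3, m ≠ 0 → κ * P.K ≤ ‖q μ k m‖

/-- radius of the balls in which `F` is one smooth sheet -/
def eta (P : Big M μ) (k : Cd 3) : ℝ := P.K / (1000 * nr (im k))

/-- `X_A` is near `k` -/
def CA (P : Big M μ) (F A : Set (Cd 3)) (k : Cd 3) : Prop :=
  ∃ k' ∈ XX F A, ‖k' - k‖ ≤ eta P k / 4

/-! ### frames and slices -/

/-- an orthonormal frame of `R^3` -/
structure Frm where
  e1 : Fin 3 → ℝ
  e2 : Fin 3 → ℝ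
  e3 : Fin 3 → ℝ
  h11 : dr e1 e1 = 1
  h22 : dr e2 e2 = 1
  h33 : dr e3 e3 = 1
  h12 : dr e1 e2 = 0
  h13 : dr e1 e3 = 0
  h23 : dr e2 e3 = 0

namespace Frm

/-- `e1 + i e2` -/
def U (E : Frm) : Cd 3 := fun j => (E.e1 j : ℂ) + Complex.I * (E.e2 j : ℂ)
/-- `3 e1 + 5 i e2 + 4 e3` -/
def V (E : Frm) : Cd 3 := fun j => 3 * (E.e1 j : ℂ) + 5 * Complex.I * (E.e2 j : ℂ) + 4 * (E.e3 j : ℂ)
/-- points of the slice through `k` -/
def pt (E : Frm) (k : Cd 3) (τ z : ℂ) : Cd 3 := k + τ • E.U + z • E.V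

end Frm

/-- `k` is near the circle of radius `R` in the plane of `e1, e2`, crudely -/
structure NrC (μ : ℂ) (E : Frm) (R : ℝ) (k : Cd 3) : Prop where
  hR : 10 ^ 6 ≤ R
  hμ : 1000 * ‖μ‖ ≤ R ^ 2
  h1 : |dr (im k) E.e1| ≤ R / 1000
  h2 : |dr (im k) E.e2| ≤ R / 1000
  h3 : |dr (im k) E.e3 - R| ≤ R / 1000
  hq : ‖q μ k 0‖ ≤ R ^ 2 / 200

/-- the `z`-coordinate of the sheet `q_0 = 0` in the slice through `k` -/
def zet (μ : ℂ) (E : Frm) (k : Cd 3) (τ : ℂ) : ℂ :=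
  -(q μ k 0 + 2 * τ * bil k E.U) / (2 * (bil k E.V - 2 * τ))

/-- the point of the sheet `q_0 = 0` over `τ` in the slice through `k` -/
def sp (μ : ℂ) (E : Frm) (k : Cd 3) (τ : ℂ) : Cd 3 := E.pt k τ (zet μ E k τ)

/-! ### patches -/

/-- base points of patches -/
structure RE (P : Big M μ) (k : Cd 3) (E : Frm) : Prop where
  q0 : q μ k 0 = 0
  yy : YY P 3 (im k)
  nf : NF P (P.b ^ 500 / 2) k
  f1 : |dr (im k) E.e1| ≤ 20 * P.rho
  f2 : |dr (im k) E.e2| ≤ 20 * P.rho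
  f3 : |dr (im k) E.e3 - nr (im k)| ≤ 20 * P.rho

/-- vertical lines of the patch consisting of good points -/
def LineV (P : Big M μ) (κ : ℝ) (k : Cd 3) (E : Frm) (x : ℝ) : Prop :=
  ∀ t : ℝ, |t| ≤ 3 / 4 * P.rho → Good P κ (sp μ E k ((x : ℂ) + (t : ℂ) * Complex.I))

/-- horizontal lines of the patch consisting of good points -/
def LineH (P : Big M μ) (κ : ℝ) (k : Cd 3) (E : Frm) (t : ℝ) : Prop :=
  ∀ x : ℝ, |x| ≤ 3 / 4 * P.rho → Good P κ (sp μ E k ((x : ℂ) + (t : ℂ) * Complex.I))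

/-- the class of the patch at `k` with frame `E` is `A` -/
def Chi (P : Big M μ) (F A : Set (Cd 3)) (k : Cd 3) (E : Frm) : Prop :=
  ∃ x : ℝ, |x| ≤ 3 / 4 * P.rho ∧ LineV P 4 k E x ∧ CA P F A (sp μ E k (x : ℂ))

/-! ### the explicit frame -/

/-- `e1` of the explicit frame -/
def f1 (P : Big M μ) (y : Fin 3 → ℝ) : Fin 3 → ℝ :=
  (nr (cr (rz P.nu) y))⁻¹ • cr (rz P.nu) y
/-- `e3` of the explicit frame -/
def f3 (y : Fin 3 → ℝ) : Fin 3 → ℝ := (nr y)⁻¹ • y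
/-- `e2` of the explicit frame -/
def f2 (P : Big M μ) (y : Fin 3 → ℝ) : Fin 3 → ℝ := cr (f3 y) (f1 P y)

/-- the standard frame -/
def frm0 : Frm :=
  ⟨![1, 0, 0], ![0, 1, 0], ![0, 0, 1], by simp [dr3], by simp [dr3], by simp [dr3],
    by simp [dr3], by simp [dr3], by simp [dr3]⟩

theorem frm_aux (P : Big M μ) {y : Fin 3 → ℝ} (h : cr (rz P.nu) y ≠ 0) :
    dr (f1 P y) (f1 P y) = 1 ∧ dr (f2 P y) (f2 P y) = 1 ∧ dr (f3 y) (f3 y) = 1 ∧
    dr (f1 P y) (f2 P y) = 0 ∧ dr (f1 P y) (f3 y) = 0 ∧ dr (f2 P y) (f3 y) = 0 := by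
  have hy : y ≠ 0 := by
    rintro rfl
    apply h
    funext j
    fin_cases j <;> simp [cr]
  have h1 := nr_pos h
  have h2 := nr_pos hy
  have e1 : dr (f1 P y) (f1 P y) = 1 := by
    unfold f1
    rw [dr_smul_left, dr_smul_right, ← nr_sq]
    field_simp
  have e3 : dr (f3 y) (f3 y) = 1 := by
    unfold f3
    rw [dr_smul_left, dr_smul_right, ← nr_sq]
    field_simp
  have e13 : dr (f1 P y) (f3 y) = 0 := by
    unfold f1 f3
    rw [dr_smul_left, dr_smul_right, dr_comm, dr_cr_right]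
    ring
  refine ⟨e1, ?_, e3, ?_, e13, ?_⟩
  · have h3 := lagrange (f3 y) (f1 P y)
    rw [nr_sq, nr_sq, nr_sq, e1, e3, dr_comm (f3 y) (f1 P y), e13] at h3
    unfold f2
    linarith
  · exact dr_cr_right _ _
  · unfold f2
    rw [dr_comm]
    exact dr_cr_left _ _

/-- the frame attached to an imaginary part: `e3 = y/|y|`, `e2 ≈ ν/|ν|` -/
def frm (P : Big M μ) (y : Fin 3 → ℝ) : Frm := by
  classical
  exact if h : cr (rz P.nu) y ≠ 0 then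
    ⟨f1 P y, f2 P y, f3 y, (frm_aux P h).1, (frm_aux P h).2.1, (frm_aux P h).2.2.1,
      (frm_aux P h).2.2.2.1, (frm_aux P h).2.2.2.2.1, (frm_aux P h).2.2.2.2.2⟩
  else frm0

theorem frm_e1 (P : Big M μ) {y : Fin 3 → ℝ} (h : cr (rz P.nu) y ≠ 0) :
    (frm P y).e1 = f1 P y := by unfold frm; rw [dif_pos h]
theorem frm_e2 (P : Big M μ) {y : Fin 3 → ℝ} (h : cr (rz P.nu) y ≠ 0) :
    (frm P y).e2 = f2 P y := by unfold frm; rw [dif_pos h]
theorem frm_e3 (P : Big M μ) {y : Fin 3 → ℝ} (h : cr (rz P.nu) y ≠ 0) :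
    (frm P y).e3 = f3 y := by unfold frm; rw [dif_pos h]

/-- base points with the frame of a nearby imaginary part -/
structure RR (P : Big M μ) (k : Cd 3) (y : Fin 3 → ℝ) : Prop where
  q0 : q μ k 0 = 0
  yy : YY P (5 / 2) (im k)
  nf : NF P (P.b ^ 500 / 2) k
  near : nr (y - im k) ≤ 10 * P.rho

/-! ### slices -/

/-- slices through points without short obstacles -/
structure SL (P : Big M μ) (p : Cd 3) (E : Frm) : Prop where
  yy : YY P 2 (im p)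
  f1 : dr (im p) E.e1 = 0
  f2 : dr (im p) E.e2 = 0
  f3 : dr (im p) E.e3 = nr (im p)
  nf : ∀ n, ‖q μ p n‖ ≤ 100 * nr (im p) * P.rho → NF P (P.b ^ 500) (p + zc n)

/-- the bidisc -/
def PP (P : Big M μ) : Set (ℂ × ℂ) := {x | ‖x.1‖ ≤ P.rho ∧ ‖x.2‖ ≤ P.rho}

/-- the larger of the two symbols of a pair of sites -/
def ht (μ : ℂ) (E : Frm) (p : Cd 3) (i : Zd 3 × Zd 3) (x : ℂ × ℂ) : ℝ :=
  max ‖q μ (E.pt p x.1 x.2) i.1‖ ‖q μ (E.pt p x.1 x.2) i.2‖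

theorem exists_min (P : Big M μ) (E : Frm) (p : Cd 3) (i : Zd 3 × Zd 3) :
    ∃ x ∈ PP P, ∀ y ∈ PP P, ht μ E p i x ≤ ht μ E p i y := by
  have h1 : PP P = Metric.closedBall (0 : ℂ) P.rho ×ˢ Metric.closedBall (0 : ℂ) P.rho := by
    ext x; simp [PP]
  have hc : IsCompact (PP P) := by
    rw [h1]; exact (isCompact_closedBall _ _).prod (isCompact_closedBall _ _)
  have hne : (PP P).Nonempty := ⟨(0, 0), by simp [PP, P.rho_pos.le]⟩
  have hcont : Continuous (ht μ E p i) := by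
    unfold ht q Frm.pt
    simp only [bil3, Pi.add_apply, Pi.smul_apply]
    fun_prop
  obtain ⟨x, hx, hmin⟩ := hc.exists_isMinOn hne hcont.continuousOn
  exact ⟨x, hx, fun y hy => hmin hy⟩

/-- where a pair of sites is closest to being resonant in the slice -/
def xm (P : Big M μ) (E : Frm) (p : Cd 3) (i : Zd 3 × Zd 3) : ℂ × ℂ :=
  (exists_min P E p i).choose

theorem xm_mem (P : Big M μ) (E : Frm) (p : Cd 3) (i : Zd 3 × Zd 3) : xm P E p i ∈ PP P :=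
  (exists_min P E p i).choose_spec.1
theorem xm_min (P : Big M μ) (E : Frm) (p : Cd 3) (i : Zd 3 × Zd 3) {y : ℂ × ℂ} (hy : y ∈ PP P) :
    ht μ E p i (xm P E p i) ≤ ht μ E p i y :=
  (exists_min P E p i).choose_spec.2 y hy

/-- resonant pairs of sites of the slice -/
structure InI (P : Big M μ) (E : Frm) (p : Cd 3) (i : Zd 3 × Zd 3) : Prop where
  ne : i.1 ≠ i.2
  h1 : ‖q μ p i.1‖ ≤ 100 * nr (im p) * P.rho
  h2 : ‖q μ p i.2‖ ≤ 100 * nr (im p) * P.rho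
  hx : ht μ E p i (xm P E p i) ≤ P.b + 3 * P.rho * nz (i.2 - i.1)

/-- quiet points of the slice -/
def Quiet (P : Big M μ) (E : Frm) (p : Cd 3) (x : ℂ × ℂ) : Prop :=
  ∀ (X : Finset (Zd 3 × Zd 3)) (δ : ℝ), 1 / nr (im p) ^ 2 ≤ δ → δ ≤ P.rho →
    (∀ i ∈ X, InI P E p i ∧ ‖(xm P E p i).1 - x.1‖ ≤ δ ∧ ‖(xm P E p i).2 - x.2‖ ≤ δ) →
    ∑ i ∈ X, 1 / nz (i.2 - i.1) ^ 2 ≤ δ ^ 2 / P.b ^ 35

end H9F
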