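import Pool.Agent.Lib.H9F.Esc2

/-!
# H9F Esc: the escape lemma is `H9F.escape` in `Esc2.lean`
-/
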