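import Mathlib

/-!
# H9F Esc1: escape lemma, free circles and free horizontal lines (pure)
-/

open scoped BigOperators Topology
open Set Filter

noncomputable section

namespace H9F

/-- Intervals of small total length do not cover.
Proof: `volume (Icc α β) = β - α`, `volume (Icc (a i - r i) (a i + r i)) = 2 r i`; if the closed intervals covered `Icc α β`, then
`β - α ≤ ∑ 2 r i` (`measure_biUnion_finset_le`). -/
theorem free_real {ι : Type*} (Y : Finset ι) (a r : ι → ℝ) (hr : ∀ i ∈ Y, 0 ≤ r i) {α β : ℝ}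
    (h : ∑ i ∈ Y, 2 * r i < β - α) : ∃ x ∈ Icc α β, ∀ i ∈ Y, r i < |x - a i| := by
  by_contra hcon
  push Not at hcon
  have hsub : Icc α β ⊆ ⋃ i ∈ Y, Icc (a i - r i) (a i + r i) := by
    intro x hx
    obtain ⟨i, hi, h1⟩ := hcon x hx
    simp only [mem_iUnion]
    refine ⟨i, hi, ?_⟩
    have h2 := abs_le.1 h1
    constructor <;> linarith [h2.1, h2.2]
  have h1 : MeasureTheory.volume (Icc α β) ≤ ∑ i ∈ Y, MeasureTheory.volume (Icc (a i - r i) (a i + r i)) :=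
    (MeasureTheory.measure_mono hsub).trans (MeasureTheory.measure_biUnion_finset_le _ _)
  simp only [Real.volume_Icc] at h1
  have h2 : ∀ i ∈ Y, ENNReal.ofReal (a i + r i - (a i - r i)) = ENNReal.ofReal (2 * r i) := by
    intro i _
    congr 1
    ring
  have h0 : ∀ i ∈ Y, 0 ≤ 2 * r i := fun i hi => by linarith [hr i hi]
  rw [Finset.sum_congr rfl h2, ← ENNReal.ofReal_sum_of_nonneg h0] at h1
  have h3 := (ENNReal.ofReal_le_ofReal_iff (Finset.sum_nonneg h0)).1 h1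
  linarith

/-- A circle free of discs. Proof: let `Y` be the set of `i ∈ X` with `‖c i - τ'‖ ≤ t + r i`; `∑_Y 2 r i ≤ t/50 < t/2`: `free_real` on
`[t/2, t]` with `a i = ‖c i - τ'‖` gives `r'`. If `‖τ - τ'‖ = r'` and `i ∈ Y`: `‖τ - c i‖ ≥ |r' - ‖c i - τ'‖| > r i`; if `i ∉ Y`:
`‖τ - c i‖ ≥ ‖c i - τ'‖ - r' > t + r i - r' ≥ r i`. -/
theorem esc_circle {ι : Type*} (X : Finset ι) (c : ι → ℂ) (r : ι → ℝ) (hr : ∀ i ∈ X, 0 < r i)
    (τ' : ℂ) {t : ℝ} (ht : 0 < t)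
    (h : ∀ Y ⊆ X, (∀ i ∈ Y, ‖c i - τ'‖ ≤ t + r i) → ∑ i ∈ Y, r i ≤ t / 100) :
    ∃ r', t / 2 ≤ r' ∧ r' ≤ t ∧ ∀ τ : ℂ, ‖τ - τ'‖ = r' → ∀ i ∈ X, r i < ‖τ - c i‖ := by
  classical
  have h1 := h (X.filter fun i => ‖c i - τ'‖ ≤ t + r i) (Finset.filter_subset _ _)
    (fun i hi => (Finset.mem_filter.1 hi).2)
  obtain ⟨x, hx, h2⟩ := free_real (X.filter fun i => ‖c i - τ'‖ ≤ t + r i) (fun i => ‖c i - τ'‖) r
    (fun i hi => (hr i (Finset.mem_filter.1 hi).1).le) (α := t / 2) (β := t)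
    (by rw [← Finset.mul_sum]; linarith)
  refine ⟨x, hx.1, hx.2, fun τ hτ i hi => ?_⟩
  by_cases hY : ‖c i - τ'‖ ≤ t + r i
  · have h3 := h2 i (Finset.mem_filter.2 ⟨hi, hY⟩)
    have h4 := abs_norm_sub_norm_le (τ - τ') (c i - τ')
    rw [hτ, sub_sub_sub_cancel_right] at h4
    exact lt_of_lt_of_le h3 h4
  · push Not at hY
    have h3 : ‖c i - τ'‖ ≤ ‖τ - c i‖ + ‖τ - τ'‖ := by
      have e : c i - τ' = (τ - τ') - (τ - c i) := by ring
      rw [e]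
      refine (norm_sub_le _ _).trans (le_of_eq (add_comm _ _))
    rw [hτ] at h3
    linarith [hx.2]

/-- A horizontal line free of discs inside the ball of radius `t`. Proof: the same, with `[-t/16, t/16]`
(`∑_Y 2 r i ≤ t/50 < t/8`), `a i = (c i - τ').im` and `|(τ - c i).im| ≤ ‖τ - c i‖`. -/
theorem esc_line {ι : Type*} (X : Finset ι) (c : ι → ℂ) (r : ι → ℝ) (hr : ∀ i ∈ X, 0 < r i)
    (τ' : ℂ) {t : ℝ} (ht : 0 < t)
    (h : ∀ Y ⊆ X, (∀ i ∈ Y, ‖c i - τ'‖ ≤ t + r i) → ∑ i ∈ Y, r i ≤ t / 100) :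
    ∃ s : ℝ, |s| ≤ t / 16 ∧
      ∀ τ : ℂ, ‖τ - τ'‖ ≤ t → (τ - τ').im = s → ∀ i ∈ X, r i < ‖τ - c i‖ := by
  classical
  have h1 := h (X.filter fun i => ‖c i - τ'‖ ≤ t + r i) (Finset.filter_subset _ _)
    (fun i hi => (Finset.mem_filter.1 hi).2)
  obtain ⟨x, hx, h2⟩ := free_real (X.filter fun i => ‖c i - τ'‖ ≤ t + r i) (fun i => (c i - τ').im) r
    (fun i hi => (hr i (Finset.mem_filter.1 hi).1).le) (α := -(t / 16)) (β := t / 16)
    (by rw [← Finset.mul_sum]; linarith)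
  refine ⟨x, abs_le.2 hx, fun τ hτ him i hi => ?_⟩
  by_cases hY : ‖c i - τ'‖ ≤ t + r i
  · have h3 := h2 i (Finset.mem_filter.2 ⟨hi, hY⟩)
    have h4 := Complex.abs_im_le_norm (τ - c i)
    have e : (τ - c i).im = x - (c i - τ').im := by
      rw [← him]
      simp
    rw [e] at h4
    exact lt_of_lt_of_le h3 h4
  · push Not at hY
    have h3 : ‖c i - τ'‖ ≤ ‖τ - c i‖ + ‖τ - τ'‖ := by
      have e : c i - τ' = (τ - τ') - (τ - c i) := by ring
      rw [e]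
      refine (norm_sub_le _ _).trans (le_of_eq (add_comm _ _))
    linarith

end H9F
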