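import Pool.Agent.Lib.H9F.Esc1

/-!
# H9F Esc2: escape lemma (pure)
-/

open scoped BigOperators Topology
open Set Filter

noncomputable section

namespace H9F

/-- the part of the ball free of discs -/
def FreeB {ι : Type*} (X : Finset ι) (c : ι → ℂ) (r : ι → ℝ) (τ' : ℂ) (T : ℝ) : Set ℂ :=
  {τ | ‖τ - τ'‖ ≤ T ∧ ∀ i ∈ X, r i < ‖τ - c i‖}

/-- Two points of a free circle are joined. Proof: `isPathConnected_sphere` (`ℂ` has real rank 2), the sphere of radius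
`r'` around `τ'` is contained in `FreeB`. -/
theorem joined_circle {ι : Type*} (X : Finset ι) (c : ι → ℂ) (r : ι → ℝ) (τ' : ℂ) {T r' : ℝ}
    (h0 : 0 ≤ r') (hT : r' ≤ T) (hf : ∀ τ : ℂ, ‖τ - τ'‖ = r' → ∀ i ∈ X, r i < ‖τ - c i‖)
    {τ₁ τ₂ : ℂ} (h1 : ‖τ₁ - τ'‖ = r') (h2 : ‖τ₂ - τ'‖ = r') :
    JoinedIn (FreeB X c r τ' T) τ₁ τ₂ := by
  have hrank : 1 < Module.rank ℝ ℂ := by
    rw [Complex.rank_real_complex]
    norm_num
  have hs : ∀ τ : ℂ, τ ∈ Metric.sphere τ' r' ↔ ‖τ - τ'‖ = r' := fun τ => by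
    rw [mem_sphere_iff_norm]
  have h := (isPathConnected_sphere hrank τ' h0).joinedIn τ₁ ((hs _).2 h1) τ₂ ((hs _).2 h2)
  refine h.mono ?_
  intro τ hτ
  have h3 := (hs _).1 hτ
  exact ⟨by rw [h3]; exact hT, hf τ h3⟩

theorem esc2_norm {r x y : ℝ} (hr : 0 ≤ r) (h : x ^ 2 + y ^ 2 = r ^ 2) : ‖(⟨x, y⟩ : ℂ)‖ = r := by
  have h1 : ‖(⟨x, y⟩ : ℂ)‖ ^ 2 = r ^ 2 := by
    rw [← Complex.normSq_eq_norm_sq, Complex.normSq_apply]
    linarith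
  exact (pow_left_inj₀ (norm_nonneg _) hr two_ne_zero).1 h1

theorem esc2_norm_le {r x y : ℝ} (hr : 0 ≤ r) (h : x ^ 2 + y ^ 2 ≤ r ^ 2) : ‖(⟨x, y⟩ : ℂ)‖ ≤ r := by
  have h1 : ‖(⟨x, y⟩ : ℂ)‖ ^ 2 ≤ r ^ 2 := by
    rw [← Complex.normSq_eq_norm_sq, Complex.normSq_apply]
    linarith
  exact (pow_le_pow_iff_left₀ (norm_nonneg _) hr two_ne_zero).1 h1

theorem esc2_seg {S : Set ℂ} {a b : ℂ} (h : segment ℝ a b ⊆ S) : JoinedIn S a b :=
  JoinedIn.of_segment_subset h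

/-- From one free circle to the next one. Proof: `s` from `esc_line` for `t`. The points
`w₁ = τ' + √(r₁² - s²) + s i`, `w₂ = τ' + √(r₂² - s²) + s i` lie on the two circles (`|s| ≤ t/16 < r₁`), the segment between them is
horizontal, `‖τ - τ'‖ ≤ r₂ ≤ t` on it, so it is free. `joined_circle` for `r₁` (from `τ' + r₁` to `w₁`), the segment
(`JoinedIn.of_segment_subset` or an explicit path), `joined_circle` for `r₂` (from `w₂` to `τ' + r₂`). -/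
theorem esc_step {ι : Type*} (X : Finset ι) (c : ι → ℂ) (r : ι → ℝ) (hr : ∀ i ∈ X, 0 < r i)
    (τ' : ℂ) {T t r₁ r₂ : ℝ} (ht : 0 < t) (htT : t ≤ T)
    (h : ∀ Y ⊆ X, (∀ i ∈ Y, ‖c i - τ'‖ ≤ t + r i) → ∑ i ∈ Y, r i ≤ t / 100)
    (h1 : t / 4 ≤ r₁) (h12 : r₁ ≤ r₂) (h2 : r₂ ≤ t)
    (hf1 : ∀ τ : ℂ, ‖τ - τ'‖ = r₁ → ∀ i ∈ X, r i < ‖τ - c i‖)
    (hf2 : ∀ τ : ℂ, ‖τ - τ'‖ = r₂ → ∀ i ∈ X, r i < ‖τ - c i‖) :
    JoinedIn (FreeB X c r τ' T) (τ' + r₁) (τ' + r₂) := by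
  obtain ⟨s, hs, hfree⟩ := esc_line X c r hr τ' ht h
  have hr1 : 0 < r₁ := by linarith
  have hr2 : 0 < r₂ := by linarith
  have hs2 : s ^ 2 ≤ (t / 16) ^ 2 := sq_le_sq' (abs_le.1 hs).1 (abs_le.1 hs).2
  have hs1 : s ^ 2 ≤ r₁ ^ 2 := hs2.trans (pow_le_pow_left₀ (by positivity) (by linarith) 2)
  have hs3 : r₁ ^ 2 ≤ r₂ ^ 2 := pow_le_pow_left₀ hr1.le h12 2
  obtain ⟨x₁, hx₁⟩ : ∃ x₁, x₁ = Real.sqrt (r₁ ^ 2 - s ^ 2) := ⟨_, rfl⟩
  obtain ⟨x₂, hx₂⟩ : ∃ x₂, x₂ = Real.sqrt (r₂ ^ 2 - s ^ 2) := ⟨_, rfl⟩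
  have e1 : x₁ ^ 2 + s ^ 2 = r₁ ^ 2 := by
    rw [hx₁, Real.sq_sqrt (by linarith)]
    ring
  have e2 : x₂ ^ 2 + s ^ 2 = r₂ ^ 2 := by
    rw [hx₂, Real.sq_sqrt (by linarith)]
    ring
  have hx1 : 0 ≤ x₁ := by
    rw [hx₁]
    exact Real.sqrt_nonneg _
  have hx12 : x₁ ≤ x₂ := by
    rw [hx₁, hx₂]
    exact Real.sqrt_le_sqrt (by linarith)
  have n1 : ‖(τ' + (⟨x₁, s⟩ : ℂ)) - τ'‖ = r₁ := by
    rw [add_sub_cancel_left]
    exact esc2_norm hr1.le e1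
  have n2 : ‖(τ' + (⟨x₂, s⟩ : ℂ)) - τ'‖ = r₂ := by
    rw [add_sub_cancel_left]
    exact esc2_norm hr2.le e2
  have m1 : ‖(τ' + (r₁ : ℂ)) - τ'‖ = r₁ := by
    rw [add_sub_cancel_left, Complex.norm_real, Real.norm_eq_abs, abs_of_pos hr1]
  have m2 : ‖(τ' + (r₂ : ℂ)) - τ'‖ = r₂ := by
    rw [add_sub_cancel_left, Complex.norm_real, Real.norm_eq_abs, abs_of_pos hr2]
  refine (joined_circle X c r τ' hr1.le (by linarith) hf1 m1 n1).trans (JoinedIn.trans (esc2_seg ?_)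
    (joined_circle X c r τ' hr2.le (by linarith) hf2 n2 m2))
  rintro w ⟨a, b, ha, hb, hab, rfl⟩
  have e : a • (τ' + (⟨x₁, s⟩ : ℂ)) + b • (τ' + (⟨x₂, s⟩ : ℂ)) = τ' + (⟨a * x₁ + b * x₂, s⟩ : ℂ) := by
    have hb' : b = 1 - a := by linarith
    apply Complex.ext
    · simp only [Complex.add_re, Complex.real_smul, Complex.mul_re, Complex.ofReal_re, Complex.ofReal_im, zero_mul, sub_zero,
        Complex.add_im]
      rw [hb']
      ring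
    · simp only [Complex.add_im, Complex.real_smul, Complex.mul_im, Complex.ofReal_re, Complex.ofReal_im, zero_mul, add_zero,
        Complex.add_re]
      rw [hb']
      ring
  rw [e]
  have hle : ‖(τ' + (⟨a * x₁ + b * x₂, s⟩ : ℂ)) - τ'‖ ≤ r₂ := by
    rw [add_sub_cancel_left]
    refine esc2_norm_le hr2.le ?_
    have h3 : a * x₁ + b * x₂ ≤ x₂ := by
      have hb' : b = 1 - a := by linarith
      rw [hb']
      nlinarith
    have h4 : 0 ≤ a * x₁ + b * x₂ := add_nonneg (mul_nonneg ha hx1) (mul_nonneg hb (hx1.trans hx12))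
    have h5 := pow_le_pow_left₀ h4 h3 2
    linarith
  refine ⟨by linarith, hfree _ (by linarith) ?_⟩
  rw [add_sub_cancel_left]

/-- (Escape lemma, section 7) Proof. If `X` is empty take `r' = T` and a segment. Let `m` be the least `r i`, `t₀ = min T m`. For `i ∈ X`:
`‖c i - τ'‖ > t₀ + r i` (otherwise `h t₀` with `Y = {i}` gives `r i ≤ t₀/100 < m`): the ball of radius `t₀` around `τ'` is free.
Let `t_j = T/2^j`; `esc_circle` gives free radii `r_j ∈ [t_j/2, t_j]`. Claim: `JoinedIn (FreeB ..) τ' (τ' + r_j)` for all `j ≤ N`, where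
`T/2^N ≤ t₀`: for `j = N` the segment from `τ'` to `τ' + r_N` lies in the free ball. If it holds for `j + 1`, then `esc_step` with
`t = t_j`, `r₁ = r_(j+1) ∈ [t_j/4, t_j/2]`, `r₂ = r_j ∈ [t_j/2, t_j]`. The claim for `j = 0` is the assertion. -/
theorem escape {ι : Type*} (X : Finset ι) (c : ι → ℂ) (r : ι → ℝ) (hr : ∀ i ∈ X, 0 < r i)
    (τ' : ℂ) {T : ℝ} (hT : 0 < T)
    (h : ∀ t, 0 < t → t ≤ T → ∀ Y ⊆ X, (∀ i ∈ Y, ‖c i - τ'‖ ≤ t + r i) → ∑ i ∈ Y, r i ≤ t / 100) :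
    ∃ r', T / 2 ≤ r' ∧ r' ≤ T ∧ (∀ τ : ℂ, ‖τ - τ'‖ = r' → ∀ i ∈ X, r i < ‖τ - c i‖) ∧
      JoinedIn {τ : ℂ | ‖τ - τ'‖ ≤ T ∧ ∀ i ∈ X, r i < ‖τ - c i‖} τ' (τ' + (r' : ℂ)) := by
  classical
  have hseg : ∀ t₀ r' : ℝ, 0 ≤ r' → r' ≤ t₀ → t₀ ≤ T → (∀ τ : ℂ, ‖τ - τ'‖ ≤ t₀ → ∀ i ∈ X, r i < ‖τ - c i‖) →
      JoinedIn (FreeB X c r τ' T) τ' (τ' + (r' : ℂ)) := by
    intro t₀ r' h0 h1 h2 h3
    refine esc2_seg ?_
    rintro w ⟨a, b, ha, hb, hab, rfl⟩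
    have e : a • τ' + b • (τ' + (r' : ℂ)) - τ' = ((b * r' : ℝ) : ℂ) := by
      have ha' : a = 1 - b := by linarith
      rw [ha']
      simp only [Complex.real_smul]
      push_cast
      ring
    have h4 : ‖a • τ' + b • (τ' + (r' : ℂ)) - τ'‖ ≤ t₀ := by
      rw [e, Complex.norm_real, Real.norm_eq_abs, abs_of_nonneg (mul_nonneg hb h0)]
      have hb1 : b ≤ 1 := by linarith
      nlinarith
    exact ⟨h4.trans h2, h3 _ h4⟩
  rcases X.eq_empty_or_nonempty with hX | hne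
  · have h3 : ∀ τ : ℂ, ∀ i ∈ X, r i < ‖τ - c i‖ := by
      rw [hX]
      exact fun τ i hi => absurd hi (Finset.notMem_empty i)
    exact ⟨T, by linarith, le_rfl, fun τ _ => h3 τ, hseg T T hT.le le_rfl le_rfl fun τ _ => h3 τ⟩
  obtain ⟨i₀, hi₀, hmin⟩ := X.exists_min_image r hne
  have hm := hr i₀ hi₀
  obtain ⟨t₀, ht₀⟩ : ∃ t₀, t₀ = min T (r i₀) := ⟨_, rfl⟩
  have h0 : 0 < t₀ := by
    rw [ht₀]
    exact lt_min hT hm
  have h0T : t₀ ≤ T := by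
    rw [ht₀]
    exact min_le_left _ _
  have h0r : t₀ ≤ r i₀ := by
    rw [ht₀]
    exact min_le_right _ _
  have hfar : ∀ i ∈ X, t₀ + r i < ‖c i - τ'‖ := by
    intro i hi
    by_contra hcon
    push Not at hcon
    have h1 := h t₀ h0 h0T {i} (by simpa using hi) (by simpa using hcon)
    rw [Finset.sum_singleton] at h1
    have h2 := hmin i hi
    linarith
  have hball : ∀ τ : ℂ, ‖τ - τ'‖ ≤ t₀ → ∀ i ∈ X, r i < ‖τ - c i‖ := by
    intro τ hτ i hi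
    have h1 := hfar i hi
    have h3 : ‖c i - τ'‖ ≤ ‖τ - c i‖ + ‖τ - τ'‖ := by
      have e : c i - τ' = (τ - τ') - (τ - c i) := by ring
      rw [e]
      refine (norm_sub_le _ _).trans (le_of_eq (add_comm _ _))
    linarith
  have hp : ∀ j : ℕ, T / 2 ^ j ≤ T := fun j => div_le_self hT.le (one_le_pow₀ (by norm_num))
  have hrad : ∀ j : ℕ, ∃ r', T / 2 ^ j / 2 ≤ r' ∧ r' ≤ T / 2 ^ j ∧ ∀ τ : ℂ, ‖τ - τ'‖ = r' → ∀ i ∈ X, r i < ‖τ - c i‖ :=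
    fun j => esc_circle X c r hr τ' (by positivity) (h (T / 2 ^ j) (by positivity) (hp j))
  choose ρ h1 h2 h3 using hrad
  have step : ∀ j, JoinedIn (FreeB X c r τ' T) τ' (τ' + (ρ (j + 1) : ℂ)) →
      JoinedIn (FreeB X c r τ' T) τ' (τ' + (ρ j : ℂ)) := by
    intro j hj
    have e : T / 2 ^ (j + 1) = T / 2 ^ j / 2 := by
      rw [pow_succ]
      field_simp
    have a1 := h1 (j + 1)
    have a2 := h2 (j + 1)
    rw [e] at a1 a2
    refine hj.trans (esc_step X c r hr τ' (t := T / 2 ^ j) (by positivity) (hp j) (h (T / 2 ^ j) (by positivity) (hp j))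
      (by linarith) (a2.trans (h1 j)) (h2 j) (h3 (j + 1)) (h3 j))
  obtain ⟨N, hN⟩ : ∃ N : ℕ, T / t₀ < 2 ^ N := pow_unbounded_of_one_lt _ (by norm_num)
  have hN' : T / 2 ^ N ≤ t₀ := by
    rw [div_lt_iff₀ h0] at hN
    rw [div_le_iff₀ (by positivity)]
    linarith
  have hρ0 : ∀ j, 0 ≤ ρ j := fun j => le_trans (by positivity) (h1 j)
  have hbase : JoinedIn (FreeB X c r τ' T) τ' (τ' + (ρ N : ℂ)) :=
    hseg t₀ (ρ N) (hρ0 N) ((h2 N).trans hN') h0T hball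
  have hall : ∀ n, n ≤ N → JoinedIn (FreeB X c r τ' T) τ' (τ' + (ρ (N - n) : ℂ)) := by
    intro n
    induction n with
    | zero => intro _; exact hbase
    | succ n ih =>
      intro hn
      have h4 := ih (by omega)
      have e : N - n = (N - (n + 1)) + 1 := by omega
      rw [e] at h4
      exact step _ h4
  have hfin := hall N le_rfl
  rw [Nat.sub_self] at hfin
  have a1 := h1 0
  have a2 := h2 0
  rw [pow_zero, div_one] at a1 a2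
  exact ⟨ρ 0, a1, a2, h3 0, hfin⟩

end H9F
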