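import Pool.Agent.Lib.H9F.N5A

/-!
# H9F G1: frames and slices, identities
-/

open scoped BigOperators Topology
open Set Filter

noncomputable section

namespace H9F

open Fermi

variable {M : ℝ} {μ : ℂ} {P : Big M μ}

/-! Parseval (`Frm.parseval2`, `Frm.parseval`) is in `N5A.lean` and may be cited. -/

theorem Frm.expand (E : Frm) (x : Fin 3 → ℝ) :
    x = dr x E.e1 • E.e1 + dr x E.e2 • E.e2 + dr x E.e3 • E.e3 := by
  have h : ∀ z, dr (x - (dr x E.e1 • E.e1 + dr x E.e2 • E.e2 + dr x E.e3 • E.e3)) z = 0 := by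
    intro z
    rw [dr_sub_left, dr_add_left, dr_add_left, dr_smul_left, dr_smul_left, dr_smul_left, E.parseval2 x z,
      dr_comm E.e1 z, dr_comm E.e2 z, dr_comm E.e3 z]
    ring
  have h2 := h (x - (dr x E.e1 • E.e1 + dr x E.e2 • E.e2 + dr x E.e3 • E.e3))
  rw [← nr_sq] at h2
  exact sub_eq_zero.1 (nr_eq_zero.1 (pow_eq_zero_iff two_ne_zero |>.1 h2))

theorem g1_re_U (E : Frm) : re E.U = E.e1 := by
  funext j; simp [re, Frm.U]
theorem g1_im_U (E : Frm) : im E.U = E.e2 := by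
  funext j; simp [im, Frm.U]
theorem g1_re_V (E : Frm) : re E.V = (3 : ℝ) • E.e1 + (4 : ℝ) • E.e3 := by
  funext j; simp [re, Frm.V]
theorem g1_im_V (E : Frm) : im E.V = (5 : ℝ) • E.e2 := by
  funext j; simp [im, Frm.V]
theorem g1_norm_sq (w : ℂ) : ‖w‖ ^ 2 = w.re ^ 2 + w.im ^ 2 := by
  rw [← Complex.normSq_eq_norm_sq, Complex.normSq_apply]; ring

theorem Frm.UU (E : Frm) : bil E.U E.U = 0 := by
  apply Complex.ext
  · rw [bil_re, g1_re_U, g1_im_U, E.h11, E.h22]; simp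
  · rw [bil_im, g1_re_U, g1_im_U, dr_comm E.e2, E.h12]; simp
theorem Frm.VV (E : Frm) : bil E.V E.V = 0 := by
  have h13 := E.h13
  have h31 : dr E.e3 E.e1 = 0 := by rw [dr_comm]; exact E.h13
  have h21 : dr E.e2 E.e1 = 0 := by rw [dr_comm]; exact E.h12
  have h32 : dr E.e3 E.e2 = 0 := by rw [dr_comm]; exact E.h23
  apply Complex.ext
  · rw [bil_re, g1_re_V, g1_im_V]
    simp only [dr_add_left, dr_add_right, dr_smul_left, dr_smul_right, E.h11, E.h22, E.h33, E.h13, h31]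
    norm_num
  · rw [bil_im, g1_re_V, g1_im_V]
    simp only [dr_add_left, dr_add_right, dr_smul_left, dr_smul_right, E.h12, E.h23, h21, h32]
    norm_num
theorem Frm.UV (E : Frm) : bil E.U E.V = -2 := by
  have h21 : dr E.e2 E.e1 = 0 := by rw [dr_comm]; exact E.h12
  apply Complex.ext
  · rw [bil_re, g1_re_V, g1_im_V, g1_re_U, g1_im_U]
    simp only [dr_add_left, dr_add_right, dr_smul_left, dr_smul_right, E.h11, E.h22, E.h33, E.h13]
    norm_num
  · rw [bil_im, g1_re_V, g1_im_V, g1_re_U, g1_im_U]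
    simp only [dr_add_left, dr_add_right, dr_smul_left, dr_smul_right, E.h12, E.h23, h21]
    norm_num

/-- `k·U` in coordinates (`a = re k`, `y = im k`): `(a·e1 - y·e2) + i (a·e2 + y·e1)` -/
theorem Frm.bilU (E : Frm) (k : Cd 3) :
    bil k E.U = ((dr (re k) E.e1 - dr (im k) E.e2 : ℝ) : ℂ) +
      ((dr (re k) E.e2 + dr (im k) E.e1 : ℝ) : ℂ) * Complex.I := by
  apply Complex.ext
  · rw [bil_re, g1_re_U, g1_im_U]; simp
  · rw [bil_im, g1_re_U, g1_im_U]; simp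
/-- `k·V` in coordinates: `(3 a·e1 - 5 y·e2 + 4 a·e3) + i (5 a·e2 + 3 y·e1 + 4 y·e3)` -/
theorem Frm.bilV (E : Frm) (k : Cd 3) :
    bil k E.V = ((3 * dr (re k) E.e1 - 5 * dr (im k) E.e2 + 4 * dr (re k) E.e3 : ℝ) : ℂ) +
      ((5 * dr (re k) E.e2 + 3 * dr (im k) E.e1 + 4 * dr (im k) E.e3 : ℝ) : ℂ) * Complex.I := by
  apply Complex.ext
  · rw [bil_re, g1_re_V, g1_im_V]
    simp only [dr_add_right, dr_smul_right, Complex.add_re, Complex.ofReal_re, Complex.mul_re, Complex.ofReal_im,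
      Complex.I_re, Complex.I_im]
    ring
  · rw [bil_im, g1_re_V, g1_im_V]
    simp only [dr_add_right, dr_smul_right, Complex.add_im, Complex.ofReal_re, Complex.mul_im, Complex.ofReal_im,
      Complex.I_re, Complex.I_im]
    ring

theorem Frm.norm_zc_U (E : Frm) (s : Zd 3) : ‖bil (zc s) E.U‖ ≤ nz s := by
  refine le_of_sq_le_sq ?_ (nz_nonneg s)
  rw [g1_norm_sq, bil_re, bil_im, g1_re_U, g1_im_U, re_zc, im_zc]
  have h1 := E.parseval (rz s)
  have h2 : dr (0 : Fin 3 → ℝ) E.e2 = 0 := by simp [dr3]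
  have h3 : dr (0 : Fin 3 → ℝ) E.e1 = 0 := by simp [dr3]
  rw [h2, h3, nz, h1]
  nlinarith [sq_nonneg (dr (rz s) E.e3)]
/-- `|s·V|² = (3 s1 + 4 s3)² + 25 s2² ≤ 25 |s|²` -/
theorem Frm.norm_zc_V (E : Frm) (s : Zd 3) : ‖bil (zc s) E.V‖ ≤ 5 * nz s := by
  refine le_of_sq_le_sq ?_ (by have := nz_nonneg s; positivity)
  rw [g1_norm_sq, bil_re, bil_im, g1_re_V, g1_im_V, re_zc, im_zc]
  have h1 := E.parseval (rz s)
  have h0 : ∀ v : Fin 3 → ℝ, dr (0 : Fin 3 → ℝ) v = 0 := fun v => by simp [dr3]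
  rw [h0, h0, nz, mul_pow, h1, dr_add_right, dr_smul_right, dr_smul_right, dr_smul_right]
  nlinarith [sq_nonneg (4 * dr (rz s) E.e1 - 3 * dr (rz s) E.e3)]

theorem q0_pt (μ : ℂ) (E : Frm) (k : Cd 3) (τ z : ℂ) :
    q μ (E.pt k τ z) 0 = q μ k 0 + 2 * τ * bil k E.U + 2 * z * bil k E.V - 4 * τ * z := by
  rw [q_zero, q_zero]
  unfold Frm.pt
  simp only [bil_add_left, bil_add_right, bil_smul_left, bil_smul_right]
  rw [bil_comm E.U k, bil_comm E.V k, bil_comm E.V E.U, E.UU, E.VV, E.UV]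
  ring

theorem gs_pt (E : Frm) (k : Cd 3) (τ z : ℂ) (s : Zd 3) :
    gs (E.pt k τ z) s = gs k s + 2 * τ * bil (zc s) E.U + 2 * z * bil (zc s) E.V := by
  unfold gs Frm.pt
  simp only [bil_add_left, bil_smul_left]
  rw [bil_comm E.U (zc s), bil_comm E.V (zc s)]
  ring

theorem pt_add_zc (E : Frm) (k : Cd 3) (τ z : ℂ) (n : Zd 3) :
    E.pt k τ z + zc n = E.pt (k + zc n) τ z := by
  unfold Frm.pt
  abel

theorem pt_pt (E : Frm) (k : Cd 3) (τ z τ' z' : ℂ) :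
    E.pt (E.pt k τ z) τ' z' = E.pt k (τ + τ') (z + z') := by
  unfold Frm.pt
  rw [add_smul, add_smul]
  abel

theorem pt_zero (E : Frm) (k : Cd 3) : E.pt k 0 0 = k := by
  unfold Frm.pt
  rw [zero_smul, zero_smul, add_zero, add_zero]

/-- `q_n` in the slice through `k` = `q_0` in the slice through `k + n` -/
theorem q_pt (μ : ℂ) (E : Frm) (k : Cd 3) (τ z : ℂ) (n : Zd 3) :
    q μ (E.pt k τ z) n = q μ (E.pt (k + zc n) τ z) 0 := by
  rw [q_shift, pt_add_zc]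

/-- `Im(τU) = (Re τ) e2 + (Im τ) e1`, `Im(zV) = Im z (3 e1 + 4 e3) + 5 Re z e2` -/
theorem im_pt (E : Frm) (k : Cd 3) (τ z : ℂ) :
    im (E.pt k τ z) = im k + (τ.im • E.e1 + τ.re • E.e2) +
      ((3 * z.im) • E.e1 + (5 * z.re) • E.e2 + (4 * z.im) • E.e3) := by
  funext j
  simp only [im, Frm.pt, Frm.U, Frm.V, Pi.add_apply, Pi.smul_apply, smul_eq_mul, Complex.add_im, Complex.mul_im,
    Complex.add_re, Complex.ofReal_re, Complex.ofReal_im, Complex.mul_re, Complex.I_re, Complex.I_im,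
    Complex.re_ofNat, Complex.im_ofNat]
  ring

theorem nr_im_pt (E : Frm) (k : Cd 3) (τ z : ℂ) :
    nr (im (E.pt k τ z) - im k) ≤ ‖τ‖ + 5 * ‖z‖ := by
  have h31 : dr E.e3 E.e1 = 0 := by rw [dr_comm]; exact E.h13
  have h21 : dr E.e2 E.e1 = 0 := by rw [dr_comm]; exact E.h12
  have h32 : dr E.e3 E.e2 = 0 := by rw [dr_comm]; exact E.h23
  have e : im (E.pt k τ z) - im k = (τ.im • E.e1 + τ.re • E.e2) +
      ((3 * z.im) • E.e1 + (5 * z.re) • E.e2 + (4 * z.im) • E.e3) := by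
    rw [im_pt, add_assoc, add_sub_cancel_left]
  rw [e]
  refine (nr_add_le _ _).trans (add_le_add ?_ ?_)
  · refine le_of_sq_le_sq ?_ (norm_nonneg _)
    rw [nr_sq, g1_norm_sq]
    simp only [dr_add_left, dr_add_right, dr_smul_left, dr_smul_right, E.h11, E.h22, E.h12, h21]
    linarith
  · refine le_of_sq_le_sq ?_ (by positivity)
    rw [nr_sq, mul_pow, g1_norm_sq]
    simp only [dr_add_left, dr_add_right, dr_smul_left, dr_smul_right, E.h11, E.h22, E.h33, E.h12, E.h13, E.h23, h21,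
      h31, h32]
    linarith

/-- `|U| = √2`, `|V| = √50` -/
theorem Frm.nc_U (E : Frm) : nc E.U ≤ 3 / 2 := by
  refine le_of_sq_le_sq ?_ (by norm_num)
  rw [nc_sq, g1_re_U, g1_im_U, nr_sq, nr_sq, E.h11, E.h22]
  norm_num
theorem Frm.nc_V (E : Frm) : nc E.V ≤ 36 / 5 := by
  have h31 : dr E.e3 E.e1 = 0 := by rw [dr_comm]; exact E.h13
  refine le_of_sq_le_sq ?_ (by norm_num)
  rw [nc_sq, g1_re_V, g1_im_V, nr_sq, nr_sq]
  simp only [dr_add_left, dr_add_right, dr_smul_left, dr_smul_right, E.h11, E.h22, E.h33, E.h13, h31]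
  norm_num

/-- distance of points of a slice, sup norm -/
theorem norm_pt_sub (E : Frm) (k : Cd 3) (τ z τ' z' : ℂ) :
    ‖E.pt k τ z - E.pt k τ' z'‖ ≤ 3 / 2 * ‖τ - τ'‖ + 36 / 5 * ‖z - z'‖ := by
  have e : E.pt k τ z - E.pt k τ' z' = (τ - τ') • E.U + (z - z') • E.V := by
    unfold Frm.pt
    rw [sub_smul, sub_smul]
    abel
  rw [e]
  refine (norm_le_nc _).trans ((nc_add_le _ _).trans ?_)
  rw [nc_smul, nc_smul]
  have h1 := mul_le_mul_of_nonneg_left E.nc_U (norm_nonneg (τ - τ'))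
  have h2 := mul_le_mul_of_nonneg_left E.nc_V (norm_nonneg (z - z'))
  linarith

/-- moving in the slice changes the components of the imaginary part by at most `‖τ‖ + 5‖z‖` -/
theorem abs_dr_im_pt (E : Frm) (k : Cd 3) (τ z : ℂ) (e : Fin 3 → ℝ) (he : dr e e = 1) :
    |dr (im (E.pt k τ z)) e - dr (im k) e| ≤ ‖τ‖ + 5 * ‖z‖ := by
  rw [← dr_sub_left]
  have h1 : nr e = 1 := by
    have h2 : nr e ^ 2 = 1 ^ 2 := by rw [nr_sq, he]; norm_num
    exact (pow_left_inj₀ (nr_nonneg _) (by norm_num) two_ne_zero).1 h2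
  have h2 := abs_dr_le (im (E.pt k τ z) - im k) e
  rw [h1, mul_one] at h2
  exact h2.trans (nr_im_pt E k τ z)

end H9F
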