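import Pool.Agent.Lib.H9F.G1

/-!
# H9F G2: size of `α`, `β`, `J` at points near the circle
-/

open scoped BigOperators Topology
open Set Filter

noncomputable section

namespace H9F

open Fermi

variable {M : ℝ} {μ : ℂ}

theorem g2_sq {t c : ℝ} (h : |t| ≤ c) : t ^ 2 ≤ c ^ 2 := by
  rw [← sq_abs]; exact pow_le_pow_left₀ (abs_nonneg t) h 2

theorem g2_sq' {t c : ℝ} (h1 : -c ≤ t) (h2 : t ≤ c) : t ^ 2 ≤ c ^ 2 := g2_sq (abs_le.2 ⟨h1, h2⟩)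

/-- Real inequalities in units of `R`. -/
theorem g2_core {x1 x2 x3 t1 t2 t3 : ℝ} (h1 : |t1| ≤ 1 / 1000) (h2 : |t2| ≤ 1 / 1000) (h3 : |t3 - 1| ≤ 1 / 1000)
    (he : |x1 ^ 2 + x2 ^ 2 + x3 ^ 2 - (t1 ^ 2 + t2 ^ 2 + t3 ^ 2)| ≤ 6 / 1000)
    (hd : |x1 * t1 + x2 * t2 + x3 * t3| ≤ 3 / 1000) :
    |x3| ≤ 9 / 2000 ∧ 991 / 1000 ≤ x1 ^ 2 + x2 ^ 2 ∧ x1 ^ 2 + x2 ^ 2 ≤ 1009 / 1000 ∧ |x1| + |x2| ≤ 142 / 100 ∧
    (99 / 100) ^ 2 ≤ x1 ^ 2 + x2 ^ 2 + x3 ^ 2 ∧ x1 ^ 2 + x2 ^ 2 + x3 ^ 2 ≤ (101 / 100) ^ 2 ∧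
    (99 / 100) ^ 2 ≤ t1 ^ 2 + t2 ^ 2 + t3 ^ 2 ∧ t1 ^ 2 + t2 ^ 2 + t3 ^ 2 ≤ (101 / 100) ^ 2 := by
  obtain ⟨a1, b1⟩ := abs_le.1 h1
  obtain ⟨a2, b2⟩ := abs_le.1 h2
  obtain ⟨a3, b3⟩ := abs_le.1 h3
  obtain ⟨a4, b4⟩ := abs_le.1 he
  obtain ⟨a5, b5⟩ := abs_le.1 hd
  have c1 : t1 ^ 2 ≤ 1 / 1000000 := (g2_sq h1).trans (by norm_num)
  have c2 : t2 ^ 2 ≤ 1 / 1000000 := (g2_sq h2).trans (by norm_num)
  have c3' : (t3 - 1) ^ 2 ≤ 1 / 1000000 := (g2_sq h3).trans (by norm_num)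
  have c3 : t3 ^ 2 ≤ 1002001 / 1000000 := by linarith
  have c4 : 998000 / 1000000 ≤ t3 ^ 2 := by linarith [sq_nonneg (t3 - 1)]
  have d1 := sq_nonneg t1
  have d2 := sq_nonneg t2
  have d3 := sq_nonneg x3
  have g1 : x1 ^ 2 + x2 ^ 2 + x3 ^ 2 ≤ 1008003 / 1000000 := by linarith
  have g2 : 992000 / 1000000 ≤ x1 ^ 2 + x2 ^ 2 + x3 ^ 2 := by linarith
  have g3 : |x1| + |x2| ≤ 142 / 100 := by
    have e1 : (|x1| + |x2|) ^ 2 ≤ (142 / 100) ^ 2 := by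
      linarith [sq_nonneg (|x1| - |x2|), sq_abs x1, sq_abs x2]
    exact le_of_sq_le_sq e1 (by norm_num)
  have g4 : |x1 * t1 + x2 * t2| ≤ 142 / 100000 := by
    refine (abs_add_le _ _).trans ?_
    rw [abs_mul, abs_mul]
    have e1 := mul_le_mul_of_nonneg_left h1 (abs_nonneg x1)
    have e2 := mul_le_mul_of_nonneg_left h2 (abs_nonneg x2)
    linarith
  have g5 : |x3| * t3 ≤ 442 / 100000 := by
    have t3pos : 0 < t3 := by linarith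
    have e1 : |x3| * t3 = |x3 * t3| := by rw [abs_mul, abs_of_pos t3pos]
    have e2 : x3 * t3 = (x1 * t1 + x2 * t2 + x3 * t3) - (x1 * t1 + x2 * t2) := by ring
    rw [e1, e2]
    have e3 := abs_sub (x1 * t1 + x2 * t2 + x3 * t3) (x1 * t1 + x2 * t2)
    linarith
  have g6 : |x3| ≤ 9 / 2000 := by
    have e1 : 999 / 1000 * |x3| ≤ t3 * |x3| := mul_le_mul_of_nonneg_right (by linarith) (abs_nonneg x3)
    linarith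
  have g7 : x3 ^ 2 ≤ 1 / 40000 := (g2_sq g6).trans (by norm_num)
  refine ⟨g6, ?_, ?_, g3, ?_, ?_, ?_, ?_⟩ <;> norm_num <;> linarith

/-- the data of `NrC` in units of `R` -/
theorem g2_nrm {E : Frm} {R : ℝ} {k : Cd 3} (h : NrC μ E R k) : ∃ x1 x2 x3 t1 t2 t3 : ℝ,
    dr (re k) E.e1 = R * x1 ∧ dr (re k) E.e2 = R * x2 ∧ dr (re k) E.e3 = R * x3 ∧
    dr (im k) E.e1 = R * t1 ∧ dr (im k) E.e2 = R * t2 ∧ dr (im k) E.e3 = R * t3 ∧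
    |t1| ≤ 1 / 1000 ∧ |t2| ≤ 1 / 1000 ∧ |t3 - 1| ≤ 1 / 1000 ∧
    |x1 ^ 2 + x2 ^ 2 + x3 ^ 2 - (t1 ^ 2 + t2 ^ 2 + t3 ^ 2)| ≤ 6 / 1000 ∧
    |x1 * t1 + x2 * t2 + x3 * t3| ≤ 3 / 1000 := by
  have hR : 0 < R := lt_of_lt_of_le (by norm_num) h.hR
  have hR2 : 0 < R ^ 2 := by positivity
  have key : ∀ c : ℝ, ∃ x : ℝ, c = R * x := fun c => ⟨c / R, by field_simp⟩
  obtain ⟨x1, hx1⟩ := key (dr (re k) E.e1)
  obtain ⟨x2, hx2⟩ := key (dr (re k) E.e2)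
  obtain ⟨x3, hx3⟩ := key (dr (re k) E.e3)
  obtain ⟨t1, ht1⟩ := key (dr (im k) E.e1)
  obtain ⟨t2, ht2⟩ := key (dr (im k) E.e2)
  obtain ⟨t3, ht3⟩ := key (dr (im k) E.e3)
  have abs_R : ∀ c : ℝ, |R * c| = R * |c| := fun c => by rw [abs_mul, abs_of_pos hR]
  have i1 := h.h1
  have i2 := h.h2
  have i3 := h.h3
  rw [ht1, abs_R] at i1
  rw [ht2, abs_R] at i2
  have i3' : |R * t3 - R| = R * |t3 - 1| := by rw [← abs_R]; ring_nf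
  rw [ht3, i3'] at i3
  have m1 := (Complex.abs_re_le_norm μ)
  have m2 := (Complex.abs_im_le_norm μ)
  have hμ := h.hμ
  have q1 := (Complex.abs_re_le_norm (q μ k 0)).trans h.hq
  have q2 := (Complex.abs_im_le_norm (q μ k 0)).trans h.hq
  rw [q0_re, E.parseval (re k), E.parseval (im k), hx1, hx2, hx3, ht1, ht2, ht3] at q1
  rw [q0_im, E.parseval2 (re k) (im k), hx1, hx2, hx3, ht1, ht2, ht3] at q2
  have hm1 : |μ.re| ≤ R ^ 2 / 1000 := by linarith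
  have hm2 : |μ.im| ≤ R ^ 2 / 1000 := by linarith
  refine ⟨x1, x2, x3, t1, t2, t3, hx1, hx2, hx3, ht1, ht2, ht3, ?_, ?_, ?_, ?_, ?_⟩
  · refine le_of_mul_le_mul_left ?_ hR
    linarith
  · refine le_of_mul_le_mul_left ?_ hR
    linarith
  · refine le_of_mul_le_mul_left ?_ hR
    linarith
  · have e1 : R ^ 2 * (x1 ^ 2 + x2 ^ 2 + x3 ^ 2 - (t1 ^ 2 + t2 ^ 2 + t3 ^ 2)) =
        ((R * x1) ^ 2 + (R * x2) ^ 2 + (R * x3) ^ 2 - ((R * t1) ^ 2 + (R * t2) ^ 2 + (R * t3) ^ 2) - μ.re) + μ.re := by ring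
    refine le_of_mul_le_mul_left ?_ hR2
    have e2 : R ^ 2 * |x1 ^ 2 + x2 ^ 2 + x3 ^ 2 - (t1 ^ 2 + t2 ^ 2 + t3 ^ 2)| =
        |R ^ 2 * (x1 ^ 2 + x2 ^ 2 + x3 ^ 2 - (t1 ^ 2 + t2 ^ 2 + t3 ^ 2))| := by rw [abs_mul, abs_of_pos hR2]
    rw [e2, e1]
    refine (abs_add_le _ _).trans ?_
    linarith
  · have e1 : R ^ 2 * (x1 * t1 + x2 * t2 + x3 * t3) =
        ((2 * (R * x1 * (R * t1) + R * x2 * (R * t2) + R * x3 * (R * t3)) - μ.im) + μ.im) / 2 := by ring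
    refine le_of_mul_le_mul_left ?_ hR2
    have e2 : R ^ 2 * |x1 * t1 + x2 * t2 + x3 * t3| = |R ^ 2 * (x1 * t1 + x2 * t2 + x3 * t3)| := by
      rw [abs_mul, abs_of_pos hR2]
    rw [e2, e1, abs_div, abs_two]
    have e3 := abs_add_le (2 * (R * x1 * (R * t1) + R * x2 * (R * t2) + R * x3 * (R * t3)) - μ.im) μ.im
    linarith

/-- `a = re k`, `y = im k`: `|a|² = |y|² + Re(q_0 + μ)` gives `|a|² ∈ [.992, 1.0081] R²`, `|2 a·y| ≤ .006 R²` gives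
`|a·e3| ≤ .0045 R`, so `a1² + a2² ∈ [.9919, 1.0081] R²` (`a_i = a·e_i`). -/
theorem NrC.circle {E : Frm} {R : ℝ} {k : Cd 3} (h : NrC μ E R k) :
    |dr (re k) E.e3| ≤ R / 200 ∧ 991 / 1000 * R ^ 2 ≤ dr (re k) E.e1 ^ 2 + dr (re k) E.e2 ^ 2 ∧
    dr (re k) E.e1 ^ 2 + dr (re k) E.e2 ^ 2 ≤ 1009 / 1000 * R ^ 2 ∧ nr (re k) ≤ 101 / 100 * R ∧
    99 / 100 * R ≤ nr (re k) ∧ 99 / 100 * R ≤ nr (im k) ∧ nr (im k) ≤ 101 / 100 * R := by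
  have hR : 0 < R := lt_of_lt_of_le (by norm_num) h.hR
  have hR2 : 0 < R ^ 2 := by positivity
  obtain ⟨x1, x2, x3, t1, t2, t3, hx1, hx2, hx3, ht1, ht2, ht3, i1, i2, i3, i4, i5⟩ := g2_nrm h
  obtain ⟨c1, c2, c3, -, c5, c6, c7, c8⟩ := g2_core i1 i2 i3 i4 i5
  have na : nr (re k) ^ 2 = R ^ 2 * (x1 ^ 2 + x2 ^ 2 + x3 ^ 2) := by
    rw [E.parseval, hx1, hx2, hx3]; ring
  have ny : nr (im k) ^ 2 = R ^ 2 * (t1 ^ 2 + t2 ^ 2 + t3 ^ 2) := by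
    rw [E.parseval, ht1, ht2, ht3]; ring
  have m : ∀ {u v : ℝ}, u ≤ v → R ^ 2 * u ≤ R ^ 2 * v := fun huv => mul_le_mul_of_nonneg_left huv hR2.le
  rw [hx1, hx2, hx3]
  refine ⟨?_, ?_, ?_, ?_, ?_, ?_, ?_⟩
  · rw [abs_mul, abs_of_pos hR]
    have := mul_le_mul_of_nonneg_left c1 hR.le
    linarith
  · have := m c2
    linarith
  · have := m c3
    linarith
  · refine le_of_sq_le_sq ?_ (by positivity)
    rw [na]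
    exact (m c6).trans_eq (by ring)
  · refine le_of_sq_le_sq ?_ (nr_nonneg _)
    rw [na]
    exact le_trans (by rw [mul_pow]; linarith) (m c5)
  · refine le_of_sq_le_sq ?_ (nr_nonneg _)
    rw [ny]
    exact le_trans (by rw [mul_pow]; linarith) (m c7)
  · refine le_of_sq_le_sq ?_ (by positivity)
    rw [ny]
    exact (m c8).trans_eq (by ring)

/-- `α = (a1 - y2) + i(a2 + y1)` (`Frm.bilU`) -/
theorem NrC.alpha {E : Frm} {R : ℝ} {k : Cd 3} (h : NrC μ E R k) :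
    99 / 100 * R ≤ ‖bil k E.U‖ ∧ ‖bil k E.U‖ ≤ 101 / 100 * R := by
  have hR : 0 < R := lt_of_lt_of_le (by norm_num) h.hR
  have hR2 : 0 < R ^ 2 := by positivity
  obtain ⟨x1, x2, x3, t1, t2, t3, hx1, hx2, hx3, ht1, ht2, ht3, i1, i2, i3, i4, i5⟩ := g2_nrm h
  obtain ⟨c1, c2, c3, c4, c5, c6, c7, c8⟩ := g2_core i1 i2 i3 i4 i5
  have e1 : ‖bil k E.U‖ ^ 2 = R ^ 2 * ((x1 - t2) ^ 2 + (x2 + t1) ^ 2) := by
    rw [g1_norm_sq, bil_re, bil_im, g1_re_U, g1_im_U, hx1, hx2, ht1, ht2]; ring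
  have p1 : |x1 * t2| ≤ |x1| / 1000 := by
    rw [abs_mul]
    have := mul_le_mul_of_nonneg_left i2 (abs_nonneg x1)
    linarith
  have p2 : |x2 * t1| ≤ |x2| / 1000 := by
    rw [abs_mul]
    have := mul_le_mul_of_nonneg_left i1 (abs_nonneg x2)
    linarith
  have p1' := abs_le.1 p1
  have p2' := abs_le.1 p2
  have s1 : t1 ^ 2 ≤ 1 / 1000000 := (g2_sq i1).trans (by norm_num)
  have s2 : t2 ^ 2 ≤ 1 / 1000000 := (g2_sq i2).trans (by norm_num)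
  have lo : (99 / 100) ^ 2 ≤ (x1 - t2) ^ 2 + (x2 + t1) ^ 2 := by
    linarith [sq_nonneg t1, sq_nonneg t2]
  have up : (x1 - t2) ^ 2 + (x2 + t1) ^ 2 ≤ (101 / 100) ^ 2 := by
    linarith [sq_nonneg t1, sq_nonneg t2]
  constructor
  · refine le_of_sq_le_sq ?_ (norm_nonneg _)
    rw [e1]
    exact le_trans (by rw [mul_pow]; linarith) (mul_le_mul_of_nonneg_left lo hR2.le)
  · refine le_of_sq_le_sq ?_ (by positivity)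
    rw [e1]
    exact (mul_le_mul_of_nonneg_left up hR2.le).trans_eq (by ring)

/-- `β` is within `.03 R` of `3 a1 + i (5 a2 + 4R)`, and
`|3 a1 + i(5a2+4R)|² = (4a2+5R)² + 9(a1²+a2²-R²) ≥ (.97 R)²`, `≤ (9.03 R)²` -/
theorem NrC.beta {E : Frm} {R : ℝ} {k : Cd 3} (h : NrC μ E R k) :
    89 / 100 * R ≤ ‖bil k E.V‖ ∧ ‖bil k E.V‖ ≤ 91 / 10 * R := by
  have hR : 0 < R := lt_of_lt_of_le (by norm_num) h.hR
  have hR2 : 0 < R ^ 2 := by positivity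
  obtain ⟨x1, x2, x3, t1, t2, t3, hx1, hx2, hx3, ht1, ht2, ht3, i1, i2, i3, i4, i5⟩ := g2_nrm h
  obtain ⟨c1, c2, c3, c4, c5, c6, c7, c8⟩ := g2_core i1 i2 i3 i4 i5
  obtain ⟨u, hu⟩ : ∃ u, u = 3 * x1 := ⟨_, rfl⟩
  obtain ⟨v, hv⟩ : ∃ v, v = 5 * x2 + 4 := ⟨_, rfl⟩
  obtain ⟨e, he⟩ : ∃ e, e = -5 * t2 + 4 * x3 := ⟨_, rfl⟩
  obtain ⟨f, hf⟩ : ∃ f, f = 3 * t1 + 4 * (t3 - 1) := ⟨_, rfl⟩
  have e1 : ‖bil k E.V‖ ^ 2 = R ^ 2 * ((u + e) ^ 2 + (v + f) ^ 2) := by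
    rw [g1_norm_sq, bil_re, bil_im, g1_re_V, g1_im_V]
    simp only [dr_add_right, dr_smul_right]
    rw [hx1, hx2, hx3, ht1, ht2, ht3, hu, hv, he, hf]
    ring
  obtain ⟨a1, b1⟩ := abs_le.1 i1
  obtain ⟨a2, b2⟩ := abs_le.1 i2
  obtain ⟨a3, b3⟩ := abs_le.1 i3
  obtain ⟨a4, b4⟩ := abs_le.1 c1
  have se : e ^ 2 ≤ 1 / 1600 := (g2_sq' (c := 1 / 40) (by linarith) (by linarith)).trans (by norm_num)
  have sf : f ^ 2 ≤ 1 / 10000 := (g2_sq' (c := 1 / 100) (by linarith) (by linarith)).trans (by norm_num)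
  have hx2' : |x2| ≤ 1005 / 1000 := by
    refine abs_le_of_sq_le_sq ?_ (by norm_num)
    linarith [sq_nonneg x1]
  obtain ⟨a5, b5⟩ := abs_le.1 hx2'
  have main : u ^ 2 + v ^ 2 = (4 * x2 + 5) ^ 2 + 9 * (x1 ^ 2 + x2 ^ 2) - 9 := by
    rw [hu, hv]; ring
  have lo1 : 87 / 100 ≤ u ^ 2 + v ^ 2 := by
    rw [main]
    have h1 : (98 / 100 : ℝ) ^ 2 ≤ (4 * x2 + 5) ^ 2 := pow_le_pow_left₀ (by norm_num) (by linarith) 2
    linarith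
  have up1 : u ^ 2 + v ^ 2 ≤ 8145 / 100 := by
    rw [main]
    have h1 : (4 * x2 + 5) ^ 2 ≤ (902 / 100 : ℝ) ^ 2 := pow_le_pow_left₀ (by linarith) (by linarith) 2
    linarith
  have lo : (89 / 100) ^ 2 ≤ (u + e) ^ 2 + (v + f) ^ 2 := by
    linarith [sq_nonneg (u / 50 + e), sq_nonneg (v / 50 + f), sq_nonneg e, sq_nonneg f]
  have up : (u + e) ^ 2 + (v + f) ^ 2 ≤ (91 / 10) ^ 2 := by
    linarith [sq_nonneg (u / 100 - e), sq_nonneg (v / 100 - f), sq_nonneg e, sq_nonneg f]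
  constructor
  · refine le_of_sq_le_sq ?_ (norm_nonneg _)
    rw [e1]
    exact le_trans (by rw [mul_pow]; linarith) (mul_le_mul_of_nonneg_left lo hR2.le)
  · refine le_of_sq_le_sq ?_ (by positivity)
    rw [e1]
    exact (mul_le_mul_of_nonneg_left up hR2.le).trans_eq (by ring)

/-- the quadratic form of the main term -/
theorem g2_form {x1 x2 s1 s2 : ℝ} (h2 : x1 ^ 2 + x2 ^ 2 ≤ 1009 / 1000) :
    3 * (s1 ^ 2 + s2 ^ 2) ≤ (4 * s2) ^ 2 + (2 * (x1 * s2 - (x2 + 2) * s1)) ^ 2 := by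
  have hP : 0 < 13 + 4 * x1 ^ 2 := by positivity
  have hx2 : |x2| ≤ 1005 / 1000 := by
    refine abs_le_of_sq_le_sq ?_ (by norm_num)
    linarith [sq_nonneg x1]
  obtain ⟨a5, b5⟩ := abs_le.1 hx2
  have hb : 0 ≤ 52 * (x2 + 2) ^ 2 - 12 * x1 ^ 2 - 39 := by linarith [sq_nonneg (x2 + 1005 / 1000)]
  have e1 : (13 + 4 * x1 ^ 2) * ((4 * s2) ^ 2 + (2 * (x1 * s2 - (x2 + 2) * s1)) ^ 2 - 3 * (s1 ^ 2 + s2 ^ 2)) =
      ((13 + 4 * x1 ^ 2) * s2 - 4 * x1 * (x2 + 2) * s1) ^ 2 + (52 * (x2 + 2) ^ 2 - 12 * x1 ^ 2 - 39) * s1 ^ 2 := by ring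
  have e2 : 0 ≤ (13 + 4 * x1 ^ 2) * ((4 * s2) ^ 2 + (2 * (x1 * s2 - (x2 + 2) * s1)) ^ 2 - 3 * (s1 ^ 2 + s2 ^ 2)) := by
    rw [e1]; positivity
  have e3 := nonneg_of_mul_nonneg_right e2 hP
  linarith

/-- `J` in units of `R|s|` -/
theorem g2_J {x1 x2 x3 t1 t2 t3 s1 s2 s3 : ℝ} (i1 : |t1| ≤ 1 / 1000) (i2 : |t2| ≤ 1 / 1000) (i3 : |t3 - 1| ≤ 1 / 1000)
    (c1 : |x3| ≤ 9 / 2000) (c3 : x1 ^ 2 + x2 ^ 2 ≤ 1009 / 1000) (hs : s1 ^ 2 + s2 ^ 2 + s3 ^ 2 = 1)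
    (h3 : |s3| ≤ 7 / 1000) :
    (3 / 2) ^ 2 ≤ (4 * t3 * s2 + 4 * x1 * s3 + 2 * t2 * s1 - 4 * t2 * s3 - 2 * t1 * s2 - 4 * x3 * s1) ^ 2 +
      (2 * x1 * s2 - 2 * x2 * s1 - 4 * t3 * s1 + 4 * x2 * s3 + 4 * t1 * s3 - 4 * x3 * s2) ^ 2 := by
  have hs1 : |s1| ≤ 1 := by
    refine abs_le_of_sq_le_sq ?_ (by norm_num)
    linarith [sq_nonneg s2, sq_nonneg s3]
  have hs2 : |s2| ≤ 1 := by
    refine abs_le_of_sq_le_sq ?_ (by norm_num)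
    linarith [sq_nonneg s1, sq_nonneg s3]
  have hx1 : |x1| ≤ 1005 / 1000 := by
    refine abs_le_of_sq_le_sq ?_ (by norm_num)
    linarith [sq_nonneg x2]
  have hx2 : |x2| ≤ 1005 / 1000 := by
    refine abs_le_of_sq_le_sq ?_ (by norm_num)
    linarith [sq_nonneg x1]
  have pr : ∀ {u v c d : ℝ}, |u| ≤ c → |v| ≤ d → |u * v| ≤ c * d := fun {u v c d} hu hv => by
    rw [abs_mul]
    exact mul_le_mul hu hv (abs_nonneg v) ((abs_nonneg u).trans hu)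
  obtain ⟨l1, r1⟩ := abs_le.1 (pr i3 hs2)
  obtain ⟨l2, r2⟩ := abs_le.1 (pr hx1 h3)
  obtain ⟨l3, r3⟩ := abs_le.1 (pr i2 hs1)
  obtain ⟨l4, r4⟩ := abs_le.1 (pr i2 h3)
  obtain ⟨l5, r5⟩ := abs_le.1 (pr i1 hs2)
  obtain ⟨l6, r6⟩ := abs_le.1 (pr c1 hs1)
  obtain ⟨l7, r7⟩ := abs_le.1 (pr i3 hs1)
  obtain ⟨l8, r8⟩ := abs_le.1 (pr hx2 h3)
  obtain ⟨l9, r9⟩ := abs_le.1 (pr i1 h3)
  obtain ⟨l0, r0⟩ := abs_le.1 (pr c1 hs2)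
  obtain ⟨u, hu⟩ : ∃ u, u = 4 * s2 := ⟨_, rfl⟩
  obtain ⟨v, hv⟩ : ∃ v, v = 2 * (x1 * s2 - (x2 + 2) * s1) := ⟨_, rfl⟩
  obtain ⟨e, he⟩ : ∃ e, e = 4 * ((t3 - 1) * s2) + 4 * (x1 * s3) + 2 * (t2 * s1) - 4 * (t2 * s3) - 2 * (t1 * s2) -
    4 * (x3 * s1) := ⟨_, rfl⟩
  obtain ⟨f, hf⟩ : ∃ f, f = -4 * ((t3 - 1) * s1) + 4 * (x2 * s3) + 4 * (t1 * s3) - 4 * (x3 * s2) := ⟨_, rfl⟩
  have e1 : 4 * t3 * s2 + 4 * x1 * s3 + 2 * t2 * s1 - 4 * t2 * s3 - 2 * t1 * s2 - 4 * x3 * s1 = u + e := by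
    rw [hu, he]; ring
  have e2 : 2 * x1 * s2 - 2 * x2 * s1 - 4 * t3 * s1 + 4 * x2 * s3 + 4 * t1 * s3 - 4 * x3 * s2 = v + f := by
    rw [hv, hf]; ring
  have e3 := g2_form (s1 := s1) (s2 := s2) c3
  rw [← hu, ← hv] at e3
  have s3sq : s3 ^ 2 ≤ 1 / 10000 := (g2_sq h3).trans (by norm_num)
  have se : e ^ 2 ≤ 1 / 100 := by
    have h1 : e ≤ 1 / 10 := by rw [he]; linarith
    have h2 : -(1 / 10) ≤ e := by rw [he]; linarith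
    exact (g2_sq' h2 h1).trans (by norm_num)
  have sf : f ^ 2 ≤ 1 / 100 := by
    have h1 : f ≤ 1 / 10 := by rw [hf]; linarith
    have h2 : -(1 / 10) ≤ f := by rw [hf]; linarith
    exact (g2_sq' h2 h1).trans (by norm_num)
  rw [e1, e2]
  linarith [sq_nonneg (u / 10 + e), sq_nonneg (v / 10 + f)]

/-- `J = α (s·V) - β (s·U)`. `|2 y·s| = |Im gs| ≤ R|s|/100` gives `|s3| ≤ .0065|s|`. With `s_i = s·e_i` the main term is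
`J₀ = (a1+ia2)(3s1+5is2) - (3a1+i(5a2+4R))(s1+is2) = 4R s2 + 2i(a1s2 - a2s1 - 2R s1)`, the error is
`≤ .06 R|s|`. `|J₀| ≥ 1.9 R|s|`: let `r² = a1²+a2²`, `|s'|² = s1²+s2² ≥ .9999|s|²`. If `2R|s1| ≥ r|s'|` then
`|J₀|² ≥ 16R²s2² + 4(2R|s1| - r|s'|)² = |s'|²(16R² + 4r²) - 16 R r |s1||s'| ≥ 4|s'|²(2R - r)²`. Otherwise `s2² ≥ .73|s'|²`. -/
theorem NrC.J {E : Frm} {R : ℝ} {k : Cd 3} (h : NrC μ E R k) {s : Zd 3}
    (hg : ‖gs k s‖ ≤ R * nz s / 100) :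
    3 / 2 * (R * nz s) ≤ ‖bil k E.U * bil (zc s) E.V - bil k E.V * bil (zc s) E.U‖ := by
  have hR : 0 < R := lt_of_lt_of_le (by norm_num) h.hR
  rcases eq_or_ne s 0 with h0 | h0
  · rw [h0, nz_zero, mul_zero, mul_zero]
    exact norm_nonneg _
  have hN : 0 < nz s := nz_pos h0
  obtain ⟨x1, x2, x3, t1, t2, t3, hx1, hx2, hx3, ht1, ht2, ht3, i1, i2, i3, i4, i5⟩ := g2_nrm h
  obtain ⟨c1, c2, c3, c4, c5, c6, c7, c8⟩ := g2_core i1 i2 i3 i4 i5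
  have key : ∀ c : ℝ, ∃ x : ℝ, c = nz s * x := fun c => ⟨c / nz s, by field_simp⟩
  obtain ⟨s1, hs1⟩ := key (dr (rz s) E.e1)
  obtain ⟨s2, hs2⟩ := key (dr (rz s) E.e2)
  obtain ⟨s3, hs3⟩ := key (dr (rz s) E.e3)
  have hss : s1 ^ 2 + s2 ^ 2 + s3 ^ 2 = 1 := by
    have h1 := E.parseval (rz s)
    rw [hs1, hs2, hs3] at h1
    have h2 : nz s ^ 2 * (s1 ^ 2 + s2 ^ 2 + s3 ^ 2) = nz s ^ 2 * 1 := by
      rw [mul_one]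
      calc _ = (nz s * s1) ^ 2 + (nz s * s2) ^ 2 + (nz s * s3) ^ 2 := by ring
        _ = nr (rz s) ^ 2 := h1.symm
        _ = nz s ^ 2 := rfl
    exact mul_left_cancel₀ (pow_ne_zero 2 hN.ne') h2
  have hg' : |t1 * s1 + t2 * s2 + t3 * s3| ≤ 1 / 200 := by
    have h1 := (Complex.abs_im_le_norm (gs k s)).trans hg
    rw [gs_im, dt_eq, E.parseval2 (im k) (rz s), hs1, hs2, hs3, ht1, ht2, ht3] at h1
    have h2 : 2 * (R * t1 * (nz s * s1) + R * t2 * (nz s * s2) + R * t3 * (nz s * s3)) =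
        (2 * (R * nz s)) * (t1 * s1 + t2 * s2 + t3 * s3) := by ring
    have h3 : 0 < 2 * (R * nz s) := by positivity
    rw [h2, abs_mul, abs_of_pos h3] at h1
    refine le_of_mul_le_mul_left ?_ h3
    linarith
  have s1s2 : |s1| + |s2| ≤ 142 / 100 := by
    have e1 : (|s1| + |s2|) ^ 2 ≤ (142 / 100) ^ 2 := by
      linarith [sq_nonneg (|s1| - |s2|), sq_abs s1, sq_abs s2, sq_nonneg s3]
    exact le_of_sq_le_sq e1 (by norm_num)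
  have h3 : |s3| ≤ 7 / 1000 := by
    have t3pos : 0 < t3 := by linarith [(abs_le.1 i3).1]
    have e1 : |t3 * s3| = t3 * |s3| := by rw [abs_mul, abs_of_pos t3pos]
    have e2 : t3 * s3 = (t1 * s1 + t2 * s2 + t3 * s3) - (t1 * s1 + t2 * s2) := by ring
    have e3 := abs_sub (t1 * s1 + t2 * s2 + t3 * s3) (t1 * s1 + t2 * s2)
    rw [← e2, e1] at e3
    have e4 := abs_add_le (t1 * s1) (t2 * s2)
    rw [abs_mul, abs_mul] at e4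
    have e5 := mul_le_mul_of_nonneg_right i1 (abs_nonneg s1)
    have e6 := mul_le_mul_of_nonneg_right i2 (abs_nonneg s2)
    have e7 : 999 / 1000 * |s3| ≤ t3 * |s3| :=
      mul_le_mul_of_nonneg_right (by linarith [(abs_le.1 i3).1]) (abs_nonneg s3)
    linarith
  have e1 : ‖bil k E.U * bil (zc s) E.V - bil k E.V * bil (zc s) E.U‖ ^ 2 = (R * nz s) ^ 2 *
      ((4 * t3 * s2 + 4 * x1 * s3 + 2 * t2 * s1 - 4 * t2 * s3 - 2 * t1 * s2 - 4 * x3 * s1) ^ 2 +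
      (2 * x1 * s2 - 2 * x2 * s1 - 4 * t3 * s1 + 4 * x2 * s3 + 4 * t1 * s3 - 4 * x3 * s2) ^ 2) := by
    have z0 : ∀ v : Fin 3 → ℝ, dr (0 : Fin 3 → ℝ) v = 0 := fun v => by simp [dr3]
    rw [g1_norm_sq, Complex.sub_re, Complex.sub_im, Complex.mul_re, Complex.mul_re, Complex.mul_im, Complex.mul_im]
    simp only [bil_re, bil_im, g1_re_V, g1_im_V, g1_re_U, g1_im_U, re_zc, im_zc, z0, dr_add_right, dr_smul_right]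
    rw [hx1, hx2, hx3, ht1, ht2, ht3, hs1, hs2, hs3]
    ring
  refine le_of_sq_le_sq ?_ (norm_nonneg _)
  rw [e1]
  have h4 := g2_J i1 i2 i3 c1 c3 hss h3
  have h5 := mul_le_mul_of_nonneg_left h4 (sq_nonneg (R * nz s))
  exact le_trans (by rw [mul_pow]; linarith) h5

end H9F
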