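import Pool.Agent.Lib.H9F.G2

/-!
# H9F G3: transversality of two sheets, the sheet as a graph
-/

open scoped BigOperators Topology
open Set Filter

noncomputable section

namespace H9F

open Fermi

variable {M : ℝ} {μ : ℂ}

/-- (TR) Proof: `Δ₀ = q_0(pt) - q_0(k) = 2(α - 2z) τ + 2β z` (`q0_pt`), `Δg = 2τ s·U + 2z s·V` (`gs_pt`).
Cramer: determinant `4[(α - 2z) s·V - β s·U] = 4[J - 2z s·V]`, modulus `≥ 4 (3/2 - 1/100) R|s|`.
`τ det = Δ₀·2 s·V - Δg·2β`, `z det = 2(α-2z) Δg - 2 s·U Δ₀`. -/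
theorem NrC.tr {E : Frm} {R : ℝ} {k : Cd 3} (h : NrC μ E R k) {s : Zd 3}
    (hg : ‖gs k s‖ ≤ R * nz s / 100) {τ z : ℂ} (hτ : ‖τ‖ ≤ R / 1000) (hz : ‖z‖ ≤ R / 1000) :
    R * nz s * ‖τ‖ ≤ 3 * nz s * ‖q μ (E.pt k τ z) 0 - q μ k 0‖ +
        5 * R * ‖gs (E.pt k τ z) s - gs k s‖ ∧
    R * nz s * ‖z‖ ≤ 3 * nz s * ‖q μ (E.pt k τ z) 0 - q μ k 0‖ +
        5 * R * ‖gs (E.pt k τ z) s - gs k s‖ := by
  have hR : 0 < R := lt_of_lt_of_le (by norm_num) h.hR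
  have hs := nz_nonneg s
  obtain ⟨D, hD⟩ : ∃ D, D = q μ (E.pt k τ z) 0 - q μ k 0 := ⟨_, rfl⟩
  obtain ⟨G, hG⟩ : ∃ G, G = gs (E.pt k τ z) s - gs k s := ⟨_, rfl⟩
  obtain ⟨α, hα⟩ : ∃ α, α = bil k E.U := ⟨_, rfl⟩
  obtain ⟨β, hβ⟩ : ∃ β, β = bil k E.V := ⟨_, rfl⟩
  obtain ⟨u, hu⟩ : ∃ u, u = bil (zc s) E.U := ⟨_, rfl⟩
  obtain ⟨v, hv⟩ : ∃ v, v = bil (zc s) E.V := ⟨_, rfl⟩
  have a1 := h.alpha.2
  have a2 := h.beta.2
  have a3 := h.J hg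
  have a4 := E.norm_zc_U s
  have a5 := E.norm_zc_V s
  have e1 : D = 2 * (α - 2 * z) * τ + 2 * β * z := by rw [hD, q0_pt, hα, hβ]; ring
  have e2 : G = 2 * τ * u + 2 * z * v := by rw [hG, gs_pt, hu, hv]; ring
  rw [← hα] at a1 a3
  rw [← hβ] at a2 a3
  rw [← hu] at a3 a4
  rw [← hv] at a3 a5
  rw [← hD, ← hG]
  obtain ⟨T, hT⟩ : ∃ T, T = 4 * ((α * v - β * u) - 2 * z * v) := ⟨_, rfl⟩
  have e3 : τ * T = D * (2 * v) - G * (2 * β) := by rw [e1, e2, hT]; ring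
  have e4 : z * T = 2 * (α - 2 * z) * G - 2 * u * D := by rw [e1, e2, hT]; ring
  have n2 : ‖(2 : ℂ)‖ = 2 := by simp
  have n4 : ‖(4 : ℂ)‖ = 4 := by simp
  have b1 : ‖2 * z * v‖ ≤ R / 100 * nz s := by
    rw [norm_mul, norm_mul, n2]
    have := mul_le_mul hz a5 (norm_nonneg v) (by positivity)
    linarith
  have b2 : 5 * (R * nz s) ≤ ‖T‖ := by
    rw [hT, norm_mul, n4]
    have := norm_sub_norm_le (α * v - β * u) (2 * z * v)
    linarith [mul_nonneg hR.le hs]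
  have b3 : ‖α - 2 * z‖ ≤ 11 / 10 * R := by
    refine (norm_sub_le _ _).trans ?_
    rw [norm_mul, n2]
    linarith
  have hD0 := norm_nonneg D
  have hG0 := norm_nonneg G
  constructor
  · have c1 : ‖τ‖ * ‖T‖ ≤ ‖D‖ * (2 * (5 * nz s)) + ‖G‖ * (2 * (91 / 10 * R)) := by
      rw [← norm_mul, e3]
      refine (norm_sub_le _ _).trans ?_
      rw [norm_mul, norm_mul, norm_mul, norm_mul, n2]
      exact add_le_add (mul_le_mul_of_nonneg_left (by linarith) hD0) (mul_le_mul_of_nonneg_left (by linarith) hG0)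
    have c2 : ‖τ‖ * (5 * (R * nz s)) ≤ ‖τ‖ * ‖T‖ := mul_le_mul_of_nonneg_left b2 (norm_nonneg _)
    have c3 : 0 ≤ nz s * ‖D‖ := mul_nonneg hs hD0
    have c4 : 0 ≤ R * ‖G‖ := mul_nonneg hR.le hG0
    have c5 : ‖τ‖ * (5 * (R * nz s)) = 5 * (R * nz s * ‖τ‖) := by ring
    have c6 : ‖D‖ * (2 * (5 * nz s)) = 10 * (nz s * ‖D‖) := by ring
    have c7 : ‖G‖ * (2 * (91 / 10 * R)) = 182 / 10 * (R * ‖G‖) := by ring
    have c8 : 3 * nz s * ‖D‖ = 3 * (nz s * ‖D‖) := by ring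
    have c9 : 5 * R * ‖G‖ = 5 * (R * ‖G‖) := by ring
    linarith
  · have c1 : ‖z‖ * ‖T‖ ≤ 2 * (11 / 10 * R) * ‖G‖ + 2 * nz s * ‖D‖ := by
      rw [← norm_mul, e4]
      refine (norm_sub_le _ _).trans ?_
      rw [norm_mul, norm_mul, norm_mul, norm_mul, n2]
      exact add_le_add (mul_le_mul_of_nonneg_right (by linarith) hG0) (mul_le_mul_of_nonneg_right (by linarith) hD0)
    have c2 : ‖z‖ * (5 * (R * nz s)) ≤ ‖z‖ * ‖T‖ := mul_le_mul_of_nonneg_left b2 (norm_nonneg _)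
    have c3 : 0 ≤ nz s * ‖D‖ := mul_nonneg hs hD0
    have c4 : 0 ≤ R * ‖G‖ := mul_nonneg hR.le hG0
    have c5 : ‖z‖ * (5 * (R * nz s)) = 5 * (R * nz s * ‖z‖) := by ring
    have c6 : 2 * (11 / 10 * R) * ‖G‖ = 22 / 10 * (R * ‖G‖) := by ring
    have c7 : 2 * nz s * ‖D‖ = 2 * (nz s * ‖D‖) := by ring
    have c8 : 3 * nz s * ‖D‖ = 3 * (nz s * ‖D‖) := by ring
    have c9 : 5 * R * ‖G‖ = 5 * (R * ‖G‖) := by ring
    linarith

/-- the denominator of `zet` -/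
theorem NrC.den {E : Frm} {R : ℝ} {k : Cd 3} (h : NrC μ E R k) {τ : ℂ} (hτ : ‖τ‖ ≤ R / 1000) :
    88 / 100 * R ≤ ‖bil k E.V - 2 * τ‖ := by
  have hR : 0 < R := lt_of_lt_of_le (by norm_num) h.hR
  have h1 := h.beta.1
  have h2 := norm_sub_norm_le (bil k E.V) (2 * τ)
  have n2 : ‖(2 : ℂ)‖ = 2 := by simp
  rw [norm_mul, n2] at h2
  linarith

theorem NrC.den_ne {E : Frm} {R : ℝ} {k : Cd 3} (h : NrC μ E R k) {τ : ℂ} (hτ : ‖τ‖ ≤ R / 1000) :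
    bil k E.V - 2 * τ ≠ 0 := by
  have hR : 0 < R := lt_of_lt_of_le (by norm_num) h.hR
  have h1 := h.den hτ
  intro h0
  rw [h0, norm_zero] at h1
  linarith

theorem g3_zet {E : Frm} {k : Cd 3} {τ : ℂ} (h : bil k E.V - 2 * τ ≠ 0) (z : ℂ) :
    q μ (E.pt k τ z) 0 = 2 * (z - zet μ E k τ) * (bil k E.V - 2 * τ) := by
  have h1 : zet μ E k τ * (2 * (bil k E.V - 2 * τ)) = -(q μ k 0 + 2 * τ * bil k E.U) := by
    unfold zet
    exact div_mul_cancel₀ _ (mul_ne_zero two_ne_zero h)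
  rw [q0_pt]
  linear_combination h1

theorem q_sp {E : Frm} {k : Cd 3} {τ : ℂ} (h : bil k E.V - 2 * τ ≠ 0) :
    q μ (sp μ E k τ) 0 = 0 := by
  unfold sp
  rw [g3_zet h, sub_self, mul_zero, zero_mul]

theorem zet_unique {E : Frm} {k : Cd 3} {τ z : ℂ} (h : bil k E.V - 2 * τ ≠ 0)
    (hz : q μ (E.pt k τ z) 0 = 0) : z = zet μ E k τ := by
  rw [g3_zet h] at hz
  rcases mul_eq_zero.1 hz with h1 | h1
  · rcases mul_eq_zero.1 h1 with h2 | h2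
    · exact absurd h2 two_ne_zero
    · exact sub_eq_zero.1 h2
  · exact absurd h1 h

/-- `q_0(pt k τ z) = 2 (z - zet τ)(β - 2τ)` -/
theorem q0_pt_zet {E : Frm} {k : Cd 3} {τ : ℂ} (h : bil k E.V - 2 * τ ≠ 0) (z : ℂ) :
    q μ (E.pt k τ z) 0 = 2 * (z - zet μ E k τ) * (bil k E.V - 2 * τ) := g3_zet h z

theorem NrC.zet_near {E : Frm} {R : ℝ} {k : Cd 3} (h : NrC μ E R k) {τ z : ℂ}
    (hτ : ‖τ‖ ≤ R / 1000) : ‖z - zet μ E k τ‖ ≤ 3 / 5 * ‖q μ (E.pt k τ z) 0‖ / R := by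
  have hR : 0 < R := lt_of_lt_of_le (by norm_num) h.hR
  have h1 := h.den hτ
  have n2 : ‖(2 : ℂ)‖ = 2 := by simp
  rw [q0_pt_zet (h.den_ne hτ), norm_mul, norm_mul, n2, le_div_iff₀ hR]
  have h2 := mul_le_mul_of_nonneg_left h1 (norm_nonneg (z - zet μ E k τ))
  have h3 : 0 ≤ ‖z - zet μ E k τ‖ * R := mul_nonneg (norm_nonneg _) hR.le
  linarith

/-- On the sheet `0 = Δq_0 = 2(α - 2z)Δτ + 2(β - 2τ')Δz`, so `|Δz| ≤ (1.012/.888)|Δτ|`. -/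
theorem NrC.zet_lip {E : Frm} {R : ℝ} {k : Cd 3} (h : NrC μ E R k) {τ τ' : ℂ}
    (hτ : ‖τ‖ ≤ R / 1000) (hτ' : ‖τ'‖ ≤ R / 1000) (hz : ‖zet μ E k τ‖ ≤ R / 1000) :
    ‖zet μ E k τ - zet μ E k τ'‖ ≤ 6 / 5 * ‖τ - τ'‖ := by
  have hR : 0 < R := lt_of_lt_of_le (by norm_num) h.hR
  have n2 : ‖(2 : ℂ)‖ = 2 := by simp
  have h1 := q_sp (μ := μ) (h.den_ne hτ)
  have h2 := q_sp (μ := μ) (h.den_ne hτ')
  unfold sp at h1 h2
  rw [q0_pt] at h1 h2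
  have h3 : (zet μ E k τ - zet μ E k τ') * (bil k E.V - 2 * τ') =
      -((τ - τ') * (bil k E.U - 2 * zet μ E k τ)) := by
    linear_combination (h1 - h2) / 2
  have h4 := congrArg norm h3
  rw [norm_mul, norm_neg, norm_mul] at h4
  have h5 : ‖bil k E.U - 2 * zet μ E k τ‖ ≤ 1012 / 1000 * R := by
    refine (norm_sub_le _ _).trans ?_
    rw [norm_mul, n2]
    have := h.alpha.2
    linarith
  have h6 := h.den hτ'
  have h7 := mul_le_mul_of_nonneg_left h6 (norm_nonneg (zet μ E k τ - zet μ E k τ'))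
  have h8 := mul_le_mul_of_nonneg_left h5 (norm_nonneg (τ - τ'))
  have h9 : R * ‖zet μ E k τ - zet μ E k τ'‖ ≤ R * (6 / 5 * ‖τ - τ'‖) := by
    have h10 : 0 ≤ R * ‖τ - τ'‖ := mul_nonneg hR.le (norm_nonneg _)
    linarith
  exact le_of_mul_le_mul_left h9 hR

/-- change of base point along `V` -/
theorem zet_base {E : Frm} {k : Cd 3} {τ : ℂ} (h : bil k E.V - 2 * τ ≠ 0) (z₀ : ℂ) :
    zet μ E k τ = z₀ + zet μ E (E.pt k 0 z₀) τ := by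
  have e1 : bil (E.pt k 0 z₀) E.V = bil k E.V := by
    unfold Frm.pt
    rw [bil_add_left, bil_add_left, bil_smul_left, bil_smul_left, E.VV]
    ring
  have e2 : bil (E.pt k 0 z₀) E.U = bil k E.U - 2 * z₀ := by
    unfold Frm.pt
    rw [bil_add_left, bil_add_left, bil_smul_left, bil_smul_left, bil_comm E.V E.U, E.UV]
    ring
  unfold zet
  rw [e1, e2, q0_pt]
  field_simp
  ring

theorem sp_base {E : Frm} {k : Cd 3} {τ : ℂ} (h : bil k E.V - 2 * τ ≠ 0) (z₀ : ℂ) :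
    sp μ E k τ = sp μ E (E.pt k 0 z₀) τ := by
  unfold sp
  rw [pt_pt, zero_add, ← zet_base h]

/-- the sheet point depends continuously on `τ` -/
theorem NrC.continuousOn_sp {E : Frm} {R : ℝ} {k : Cd 3} (h : NrC μ E R k) :
    ContinuousOn (sp μ E k) {τ : ℂ | ‖τ‖ ≤ R / 1000} := by
  have h1 : ContinuousOn (zet μ E k) {τ : ℂ | ‖τ‖ ≤ R / 1000} := by
    unfold zet
    refine ContinuousOn.div (by fun_prop) (by fun_prop) fun τ hτ => ?_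
    exact mul_ne_zero two_ne_zero (h.den_ne hτ)
  unfold sp Frm.pt
  exact (continuousOn_const.add (continuousOn_id.smul continuousOn_const)).add (h1.smul continuousOn_const)

end H9F
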