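import Pool.Agent.Lib.H9F.N0

/-!
# H9F N1: two short vectors nearly orthogonal to `y` are parallel
-/

open scoped BigOperators Topology
open Set Filter

noncomputable section

namespace H9F

open Fermi

variable {M : ℝ} {μ : ℂ} {P : Big M μ}

theorem n1_rz_crz (s s' : Zd 3) : rz (crz s s') = cr (rz s) (rz s') := by
  funext j
  fin_cases j <;> simp [rz, crz, cr]

theorem n1_bac (y a b : Fin 3 → ℝ) : cr y (cr a b) = dr y b • a - dr y a • b := by
  funext j
  fin_cases j <;> simp [cr, dr3] <;> ring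

theorem n1_perp {y l : Fin 3 → ℝ} (hy : y ≠ 0) :
    nr y * nr (l - (dr l y / dr y y) • y) = nr (cr y l) := by
  have hyy : dr y y ≠ 0 := by
    rw [← nr_sq]
    exact pow_ne_zero _ (nr_pos hy).ne'
  have h0 : dr y (l - (dr l y / dr y y) • y) = 0 := by
    rw [dr_sub_right, dr_smul_right, div_mul_cancel₀ _ hyy, dr_comm, sub_self]
  have h1 : cr y (l - (dr l y / dr y y) • y) = cr y l := by
    funext j
    fin_cases j <;> simp [cr] <;> ring
  have h2 := lagrange y (l - (dr l y / dr y y) • y)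
  rw [h0, h1] at h2
  have h3 : (nr y * nr (l - (dr l y / dr y y) • y)) ^ 2 = nr (cr y l) ^ 2 := by
    rw [mul_pow, ← h2]
    ring
  exact (pow_left_inj₀ (mul_nonneg (nr_nonneg _) (nr_nonneg _)) (nr_nonneg _) two_ne_zero).1 h3

/-- (N1) Proof: let `l = s × s'` (`crz`), `|l_j| ≤ nz s * nz s' ≤ b^720`. `y × l = s (y·s') - s' (y·s)` has length
`≤ 2 b^870`. If `l ≠ 0`: with `c = (l·y)/(y·y)`, `|y| nr (l - c y) = |y × l|` (Lagrange), so by `far_line`
`|y| ≤ 2 nz ν |y × l| ≤ 2 · 2 b^1660 · 2 b^870`, contradiction with `|y| ≥ b^10000/4`. -/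
theorem par_of_short {y : Fin 3 → ℝ} (hy : YY P 4 y) {s s' : Zd 3} (hs : nz s ≤ P.b ^ 360)
    (hs' : nz s' ≤ P.b ^ 360) (h : |dt y s| ≤ P.b ^ 510) (h' : |dt y s'| ≤ P.b ^ 510) :
    Par s s' := by
  have hl0 : crz s s' = 0 := by
    by_contra hne
    obtain ⟨hn1, hn2⟩ := nz_nu P
    have hb360 : 0 ≤ P.b ^ 360 := (P.pow_pos 360).le
    have hl : ∀ j, |((crz s s' j : ℤ) : ℝ)| ≤ P.b ^ 820 := by
      intro j
      calc |((crz s s' j : ℤ) : ℝ)| ≤ nz (crz s s') := abs_le_nz _ j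
        _ = nr (cr (rz s) (rz s')) := by rw [nz, n1_rz_crz]
        _ ≤ nr (rz s) * nr (rz s') := nr_cr_le _ _
        _ ≤ P.b ^ 360 * P.b ^ 360 := mul_le_mul hs hs' (nr_nonneg _) hb360
        _ = P.b ^ 720 := by rw [← pow_add]
        _ ≤ P.b ^ 820 := P.pow_le (by norm_num)
    have hyne : y ≠ 0 := by
      rintro rfl
      have h1 := hy.lo
      rw [nr_zero, mul_zero] at h1
      exact absurd h1 (not_le.2 (P.pow_pos 10000))
    have hy0 : 0 < nr y := nr_pos hyne
    have h1 := far_line hy hne hl (dr (rz (crz s s')) y / dr y y)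
    have h2 := n1_perp (l := rz (crz s s')) hyne
    have h3 : nr (cr y (rz (crz s s'))) ≤ 2 * P.b ^ 870 := by
      rw [n1_rz_crz, n1_bac]
      refine (nr_sub_le _ _).trans ?_
      rw [nr_smul, nr_smul]
      have h4 : |dr y (rz s')| * nr (rz s) ≤ P.b ^ 510 * P.b ^ 360 :=
        mul_le_mul h' hs (nr_nonneg _) (P.pow_pos 510).le
      have h5 : |dr y (rz s)| * nr (rz s') ≤ P.b ^ 510 * P.b ^ 360 :=
        mul_le_mul h hs' (nr_nonneg _) (P.pow_pos 510).le
      rw [← pow_add] at h4 h5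
      have h6 : P.b ^ (510 + 360) = P.b ^ 870 := rfl
      linarith
    rw [← h2] at h3
    set d := nr (rz (crz s s') - (dr (rz (crz s s')) y / dr y y) • y) with hd
    have h4 : nr y ≤ 8 * P.b ^ 2530 := by
      calc nr y = nr y * 1 := (mul_one _).symm
        _ ≤ nr y * (2 * nz P.nu * d) := mul_le_mul_of_nonneg_left h1 hy0.le
        _ = 2 * nz P.nu * (nr y * d) := by ring
        _ ≤ 2 * nz P.nu * (2 * P.b ^ 870) :=
            mul_le_mul_of_nonneg_left h3 (mul_nonneg (by norm_num) (nz_nonneg _))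
        _ ≤ 2 * (2 * P.b ^ 1660) * (2 * P.b ^ 870) :=
            mul_le_mul_of_nonneg_right (mul_le_mul_of_nonneg_left hn2 (by norm_num))
              (mul_nonneg (by norm_num) (P.pow_pos 870).le)
        _ = 8 * P.b ^ 2530 := by
            rw [show (2530 : ℕ) = 1660 + 870 from rfl, pow_add]
            ring
    have h5 := hy.lo
    have h6 : 33 * P.b ^ 2530 ≤ P.b ^ 10000 := P.mul_pow_le (by norm_num) (by norm_num)
    have h7 := P.pow_pos 2530
    linarith
  have c0 : s 1 * s' 2 = s 2 * s' 1 := by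
    have h1 := congrFun hl0 0
    simp only [crz, Matrix.cons_val_zero, Pi.zero_apply] at h1
    linarith
  have c1 : s 2 * s' 0 = s 0 * s' 2 := by
    have h1 := congrFun hl0 1
    simp only [crz, Matrix.cons_val_one, Matrix.cons_val_zero, Pi.zero_apply] at h1
    linarith
  have c2 : s 0 * s' 1 = s 1 * s' 0 := by
    have h1 := congrFun hl0 2
    simp only [crz, Matrix.cons_val, Pi.zero_apply] at h1
    linarith
  intro i j
  fin_cases i <;> fin_cases j <;> simp <;> first | rfl | exact mul_comm _ _ | linarith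

/-- Parallel nonzero integer vectors: if `Par s s'` and `s ≠ 0` then `s' = λ s` with
`λ = (s·s')/(s·s)`. -/
theorem Par.eq_smul {s s' : Zd 3} (h : Par s s') (hs : s ≠ 0) :
    rz s' = (dr (rz s) (rz s') / dr (rz s) (rz s)) • rz s := by
  have hss : dr (rz s) (rz s) ≠ 0 := by
    rw [← nz_sq]
    exact pow_ne_zero _ (nz_pos hs).ne'
  have h' : ∀ i j, (s i : ℝ) * s' j = s j * s' i := fun i j => by exact_mod_cast h i j
  funext j
  rw [Pi.smul_apply, smul_eq_mul, div_mul_eq_mul_div, eq_div_iff hss, dr3, dr3]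
  unfold rz
  have e0 := h' 0 j
  have e1 := h' 1 j
  have e2 := h' 2 j
  linear_combination (s 0 : ℝ) * e0 + (s 1 : ℝ) * e1 + (s 2 : ℝ) * e2

/-- The primitive vector of a line: every integer vector parallel to `s` is an integer multiple
of `s₀`. -/
theorem exists_prim {s : Zd 3} (hs : s ≠ 0) :
    ∃ s₀ : Zd 3, s₀ ≠ 0 ∧ Par s s₀ ∧ ∀ s', Par s s' → ∃ j : ℤ, s' = j • s₀ := by
  set g1 : ℤ := (Int.gcd (s 0) (s 1) : ℤ) with hg1
  set g : ℤ := (Int.gcd g1 (s 2) : ℤ) with hg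
  have hd2 : g ∣ s 2 := Int.gcd_dvd_right _ _
  have hdg1 : g ∣ g1 := Int.gcd_dvd_left _ _
  have hd0 : g ∣ s 0 := hdg1.trans (Int.gcd_dvd_left _ _)
  have hd1 : g ∣ s 1 := hdg1.trans (Int.gcd_dvd_right _ _)
  have hd : ∀ i, g ∣ s i := by
    intro i
    fin_cases i
    · exact hd0
    · exact hd1
    · exact hd2
  have hg0 : g ≠ 0 := by
    intro h0
    apply hs
    funext i
    have := hd i
    rw [h0, zero_dvd_iff] at this
    exact this
  have hb1 : g1 = s 0 * Int.gcdA (s 0) (s 1) + s 1 * Int.gcdB (s 0) (s 1) := Int.gcd_eq_gcd_ab _ _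
  have hb2 : g = g1 * Int.gcdA g1 (s 2) + s 2 * Int.gcdB g1 (s 2) := Int.gcd_eq_gcd_ab _ _
  obtain ⟨u, hu⟩ : ∃ u : Fin 3 → ℤ, g = u 0 * s 0 + u 1 * s 1 + u 2 * s 2 := by
    refine ⟨![Int.gcdA (s 0) (s 1) * Int.gcdA g1 (s 2), Int.gcdB (s 0) (s 1) * Int.gcdA g1 (s 2), Int.gcdB g1 (s 2)], ?_⟩
    simp only [Matrix.cons_val_zero, Matrix.cons_val_one, Matrix.cons_val]
    linear_combination hb2 + Int.gcdA g1 (s 2) * hb1
  choose s₀ hs₀ using hd
  refine ⟨s₀, ?_, ?_, ?_⟩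
  · rintro rfl
    apply hs
    funext i
    rw [hs₀ i]
    simp
  · intro i j
    rw [hs₀ i, hs₀ j]
    ring
  · intro s' h
    have hp : ∀ i j, s₀ i * s' j = s₀ j * s' i := by
      intro i j
      have h1 := h i j
      rw [hs₀ i, hs₀ j, mul_assoc, mul_assoc] at h1
      exact mul_left_cancel₀ hg0 h1
    have hu1 : u 0 * s₀ 0 + u 1 * s₀ 1 + u 2 * s₀ 2 = 1 := by
      have h1 : g * (u 0 * s₀ 0 + u 1 * s₀ 1 + u 2 * s₀ 2) = g * 1 := by
        rw [mul_one]
        conv_rhs => rw [hu, hs₀ 0, hs₀ 1, hs₀ 2]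
        ring
      exact mul_left_cancel₀ hg0 h1
    refine ⟨u 0 * s' 0 + u 1 * s' 1 + u 2 * s' 2, ?_⟩
    funext j
    rw [Pi.smul_apply, smul_eq_mul]
    have e0 := hp 0 j
    have e1 := hp 1 j
    have e2 := hp 2 j
    linear_combination -(s' j) * hu1 + u 0 * e0 + u 1 * e1 + u 2 * e2

end H9F
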