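import Pool.Agent.Lib.H9F.NR
import Pool.Agent.Lib.H9F.N1

/-!
# H9F N7A: obstacle vectors: length, uniqueness of the very short one
-/

open scoped BigOperators Topology
open Set Filter

noncomputable section

namespace H9F

open Fermi

variable {M : ℝ} {μ : ℂ} {P : Big M μ}

theorem n7a_smul (j : ℤ) (s : Zd 3) (k : Cd 3) :
    bil k (zc (j • s)) = (j : ℂ) * bil k (zc s) := by
  rw [bil3, bil3]
  simp [zc]
  ring

theorem n7a_self (s : Zd 3) : bil (zc s : Cd 3) (zc s) = ((nz s ^ 2 : ℝ) : ℂ) := by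
  rw [nz_sq, bil3, dr3]
  simp [zc, rz]

theorem n7a_gs (j : ℤ) (s : Zd 3) (k : Cd 3) :
    gs k (j • s) = (j : ℂ) * (2 * bil k (zc s) + (j : ℂ) * ((nz s ^ 2 : ℝ) : ℂ)) := by
  unfold gs
  rw [n7a_smul, n7a_smul, bil_comm (zc (j • s)) (zc s), n7a_smul, n7a_self]
  ring

theorem n7a_nz (j : ℤ) (s : Zd 3) : nz (j • s) = |(j : ℝ)| * nz s := by
  have h1 : rz (j • s) = (j : ℝ) • rz s := by
    funext i
    simp [rz]
  rw [nz, h1, nr_smul]
  rfl

/-- Proof: `(gs k s).re = 2 re k · s + |s|² ≥ |s| (|s| - 2 |re k|)` (`gs_re`, `dt_eq`, `abs_dr_le`), so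
`|s| ≤ 2 |re k| + R/2 ≤ 2.6 R` (`KC.re_le`; `nz s > 0`). -/
theorem nz_le_of_gs {k : Cd 3} (hk : KC P k) {s : Zd 3} (hs : s ≠ 0)
    (h : ‖gs k s‖ ≤ nr (im k) * nz s / 2) : nz s ≤ 3 * nr (im k) := by
  have hR := hk.R_pos
  have hs0 := nz_pos hs
  have h1 := (Complex.abs_re_le_norm (gs k s)).trans h
  rw [gs_re, dt_eq] at h1
  have h2 := abs_dr_le (re k) (rz s)
  have h3 := hk.re_le
  have h4 := (abs_le.1 h1).2
  have h5 := (abs_le.1 h2).1
  have h6 : nr (re k) * nr (rz s) ≤ 1001 / 1000 * nr (im k) * nz s :=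
    mul_le_mul_of_nonneg_right h3 hs0.le
  have h7 : nz s * nz s ≤ 3 * nr (im k) * nz s := by
    have h8 : 0 < nr (im k) * nz s := mul_pos hR hs0
    have h9 : nz s * nz s = nz s ^ 2 := by ring
    rw [h9]
    linarith
  exact le_of_mul_le_mul_right h7 hs0

/-- Proof: `nz_le_of_gs`: `2 b + 40 ρ |s| ≤ (R/2) |s|` as `|s| ≥ 1`, `R ≥ b^9999` (`YY.R_ge`, `YY.mul_le`). -/
theorem ob_le {k : Cd 3} (hk : KC P k) {s : Zd 3} (hs : Ob P k s) : nz s ≤ 3 * nr (im k) := by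
  refine nz_le_of_gs hk hs.1 (hs.2.trans ?_)
  have hR : 200 * P.b ^ 1 ≤ nr (im k) := hk.yy.mul_le (by norm_num) (by norm_num)
  rw [pow_one] at hR
  have h1 := one_le_nz hs.1
  have h2 := P.rho_le_one
  have h3 := P.rho_pos
  have h4 := P.one_le_b
  have h5 : P.rho * nz s ≤ 1 * nz s := mul_le_mul_of_nonneg_right h2 (by linarith)
  have h6 : 200 * P.b * nz s ≤ nr (im k) * nz s :=
    mul_le_mul_of_nonneg_right hR (by linarith)
  have h7 : P.b ≤ P.b * nz s := le_mul_of_one_le_right (by linarith) h1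
  have h8 : nz s ≤ P.b * nz s := le_mul_of_one_le_left (by linarith) h4
  linarith

/-- Proof: otherwise `‖bil k (zc s)‖ ≥ b^500/2`, `‖gs k s‖ ≥ b^500 - |s|² ≥ b^500 - b^240 > 2 b + 40 ρ b^120`
(`bil (zc s) (zc s) = |s|²`, `norm_bil_le`, `nc_zc`). -/
theorem ob_long {k : Cd 3} (hn : NF P (P.b ^ 500 / 2) k) {s : Zd 3} (hs : Ob P k s) :
    P.b ^ 120 < nz s := by
  by_contra hcon
  push Not at hcon
  have h1 := hn s hs.1 hcon
  have h2 := hs.2
  have hs0 := nz_nonneg s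
  have h3 : ‖(2 : ℂ) * bil k (zc s)‖ ≤ ‖gs k s‖ + ‖bil (zc s : Cd 3) (zc s)‖ := by
    have h4 := norm_sub_le (gs k s) (bil (zc s : Cd 3) (zc s))
    have h5 : gs k s - bil (zc s : Cd 3) (zc s) = 2 * bil k (zc s) := by
      unfold gs
      ring
    rwa [h5] at h4
  rw [n7a_self, norm_mul, Complex.norm_two, Complex.norm_real, Real.norm_eq_abs,
    abs_of_nonneg (sq_nonneg _)] at h3
  have h4 : nz s ^ 2 ≤ P.b ^ 240 := by
    have := pow_le_pow_left₀ hs0 hcon 2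
    rwa [← pow_mul] at this
  have h5 : P.rho * nz s ≤ 1 * P.b ^ 120 := mul_le_mul P.rho_le_one hcon hs0 zero_le_one
  have h6 : P.b ^ 120 ≤ P.b ^ 240 := P.pow_le (by norm_num)
  have h7 : P.b ≤ P.b ^ 240 := le_self_pow₀ P.one_le_b (by norm_num)
  have h8 : 100 * P.b ^ 240 ≤ P.b ^ 500 := P.mul_pow_le (by norm_num) (by norm_num)
  have h9 := P.pow_pos 240
  linarith

/-- At most one obstacle vector is very short.
Proof: `|2 dt (im k) s| = |(gs k s).im| ≤ 2 b + 40 ρ b^360`, so `par_of_short` gives `Par s s'`. `s = j • s₀`, `s' = j' • s₀`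
(`exists_prim`), `L = nz s₀ ≥ 1`, `w = 2 bil k (zc s₀)/L`: `gs k (j • s₀) = j L (j L + w)`, `|j L| = nz s > b^120` (`ob_long`), so
`‖j L + w‖ ≤ 2 b/b^120 + 40 ρ < 1/4`, the same for `j'`; `|j - j'| L < 1/2`, so `j = j'`. -/
theorem ob_uniq {k : Cd 3} (hk : KC P k) (hn : NF P (P.b ^ 500 / 2) k) {s s' : Zd 3}
    (hs : Ob P k s) (hs' : Ob P k s') (h : nz s ≤ P.b ^ 360) (h' : nz s' ≤ P.b ^ 360) :
    s = s' := by
  have hdt : ∀ t : Zd 3, Ob P k t → nz t ≤ P.b ^ 360 → |dt (im k) t| ≤ P.b ^ 510 := by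
    intro t ht ht1
    have h1 := (Complex.abs_im_le_norm _).trans ht.2
    rw [gs_im, abs_mul, abs_two] at h1
    have h2 : P.rho * nz t ≤ 1 * P.b ^ 360 :=
      mul_le_mul P.rho_le_one ht1 (nz_nonneg _) zero_le_one
    have h3 : P.b ≤ P.b ^ 360 := le_self_pow₀ P.one_le_b (by norm_num)
    have h4 : 30 * P.b ^ 360 ≤ P.b ^ 510 := P.mul_pow_le (by norm_num) (by norm_num)
    have h5 := P.pow_pos 360
    linarith
  have hpar := par_of_short hk.yy h h' (hdt s hs h) (hdt s' hs' h')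
  obtain ⟨s₀, h0, -, hprim⟩ := exists_prim hs.1
  obtain ⟨j, hj⟩ := hprim s (fun i j => mul_comm _ _)
  obtain ⟨j', hj'⟩ := hprim s' hpar
  have hL := one_le_nz h0
  have hL0 : 0 < nz s₀ := by linarith
  have hb0 := P.b_pos
  -- the centre
  have key : ∀ (t : Zd 3) (i : ℤ), Ob P k t → t = i • s₀ →
      ‖((i : ℝ) * nz s₀ : ℂ) + 2 * bil k (zc s₀) / (nz s₀ : ℂ)‖ ≤ 1 / 10 := by
    intro t i ht hti
    have h1 := ob_long hn ht
    have h2 := ht.2
    rw [hti] at h1 h2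
    rw [n7a_nz] at h1
    rw [n7a_gs, norm_mul, Complex.norm_intCast, n7a_nz] at h2
    set a := |(i : ℝ)| with ha
    have ha0 : 0 < a * nz s₀ := lt_trans (P.pow_pos 120) h1
    have e1 : (2 * bil k (zc s₀) + (i : ℂ) * ((nz s₀ ^ 2 : ℝ) : ℂ))
        = (nz s₀ : ℂ) * (((i : ℝ) * nz s₀ : ℂ) + 2 * bil k (zc s₀) / (nz s₀ : ℂ)) := by
      have : (nz s₀ : ℂ) ≠ 0 := by exact_mod_cast hL0.ne'
      push_cast
      field_simp
      ring
    rw [e1, norm_mul, Complex.norm_real, Real.norm_eq_abs, abs_of_pos hL0] at h2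
    set N := ‖((i : ℝ) * nz s₀ : ℂ) + 2 * bil k (zc s₀) / (nz s₀ : ℂ)‖ with hN
    have h3 : a * nz s₀ * N ≤ a * nz s₀ * (1 / 10) := by
      have h4 : 100 * P.b ^ 1 ≤ P.b ^ 120 := P.mul_pow_le (by norm_num) (by norm_num)
      rw [pow_one] at h4
      have h5 : P.rho ≤ 1 / 1000 := by
        refine P.rho_le_small.trans ?_
        norm_num
      have h6 : P.rho * (a * nz s₀) ≤ 1 / 1000 * (a * nz s₀) :=
        mul_le_mul_of_nonneg_right h5 ha0.le
      calc a * nz s₀ * N = a * (nz s₀ * N) := by ring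
        _ ≤ 2 * P.b + 40 * P.rho * (a * nz s₀) := h2
        _ ≤ a * nz s₀ * (1 / 10) := by linarith
    exact le_of_mul_le_mul_left h3 ha0
  have h1 := key s j hs hj
  have h2 := key s' j' hs' hj'
  have h3 : ‖(((j : ℝ) - j' : ℝ) : ℂ) * (nz s₀ : ℂ)‖ ≤ 2 / 10 := by
    have e1 : (((j : ℝ) - j' : ℝ) : ℂ) * (nz s₀ : ℂ) =
        (((j : ℝ) * nz s₀ : ℂ) + 2 * bil k (zc s₀) / (nz s₀ : ℂ)) -
          (((j' : ℝ) * nz s₀ : ℂ) + 2 * bil k (zc s₀) / (nz s₀ : ℂ)) := by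
      push_cast
      ring
    rw [e1]
    refine (norm_sub_le _ _).trans ?_
    linarith
  rw [norm_mul, Complex.norm_real, Complex.norm_real, Real.norm_eq_abs, Real.norm_eq_abs,
    abs_of_pos hL0] at h3
  have hjj : j = j' := by
    by_contra hne
    have h4 : (1 : ℝ) ≤ |(j : ℝ) - j'| := by
      have : (1 : ℤ) ≤ |j - j'| := Int.one_le_abs (sub_ne_zero.2 hne)
      exact_mod_cast this
    have h5 : 1 * 1 ≤ |(j : ℝ) - j'| * nz s₀ := mul_le_mul h4 hL zero_le_one (abs_nonneg _)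
    linarith
  rw [hj, hj', hjj]

end H9F
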