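import Pool.Agent.Lib.H9F.N5
import Pool.Agent.Lib.H9F.N7A

/-!
# H9F N8: close pairs
-/

open scoped BigOperators Topology
open Set Filter

noncomputable section

namespace H9F

open Fermi

variable {M : ℝ} {μ : ℂ} {P : Big M μ}

theorem n8_int (Z : Finset ℤ) (c r : ℝ) (hr : 0 ≤ r) (h : ∀ j ∈ Z, |(j : ℝ) - c| ≤ r) :
    (Z.card : ℝ) ≤ 2 * r + 1 := by
  have h1 : Z ⊆ Finset.Icc ⌈c - r⌉ ⌊c + r⌋ := by
    intro j hj
    have h2 := abs_le.1 (h j hj)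
    rw [Finset.mem_Icc]
    exact ⟨Int.ceil_le.2 (by linarith [h2.1]), Int.le_floor.2 (by linarith [h2.2])⟩
  have h2 := Finset.card_le_card h1
  rw [Int.card_Icc] at h2
  have h3 : ((⌊c + r⌋ + 1 - ⌈c - r⌉).toNat : ℝ) ≤ 2 * r + 1 := by
    rcases le_total (⌊c + r⌋ + 1 - ⌈c - r⌉) 0 with h4 | h4
    · rw [Int.toNat_of_nonpos h4]
      push_cast
      linarith
    · have h5 : (((⌊c + r⌋ + 1 - ⌈c - r⌉).toNat : ℤ) : ℝ) = ((⌊c + r⌋ + 1 - ⌈c - r⌉ : ℤ) : ℝ) := by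
        rw [Int.toNat_of_nonneg h4]
      have h6 : ((⌊c + r⌋ + 1 - ⌈c - r⌉).toNat : ℝ) = ((⌊c + r⌋ + 1 - ⌈c - r⌉ : ℤ) : ℝ) := by
        rw [← h5]
        push_cast
        rfl
      rw [h6]
      push_cast
      have h7 := Int.floor_le (c + r)
      have h8 := Int.le_ceil (c - r)
      linarith
  have h4 : (Z.card : ℝ) ≤ ((⌊c + r⌋ + 1 - ⌈c - r⌉).toNat : ℝ) := by exact_mod_cast h2
  exact h4.trans h3

/-- Proof: `X` empty: trivial. All `s ∈ X` are multiples `j • s₀`, `j ≠ 0`, of one primitive vector (`exists_prim` for one element of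
`X`), the map `s ↦ j` is injective. `L = nz s₀ ≥ 1`, `β = 2 bil k (zc s₀)/L²`: `gs k (j • s₀) = L² j (j + β)`, so `|j| ‖j + β‖ ≤ T`, so
`|j| ≤ √T` or `|j + β.re| ≤ √T`. There are at most `2√T + 1` integers of each kind. -/
theorem line_card {k : Cd 3} {T : ℝ} (hT : 0 ≤ T) (X : Finset (Zd 3)) (h0 : ∀ s ∈ X, s ≠ 0)
    (hP : ∀ s ∈ X, ∀ s' ∈ X, Par s s') (hX : ∀ s ∈ X, ‖gs k s‖ ≤ T) :
    (X.card : ℝ) ≤ 4 * √T + 2 := by
  classical
  rcases X.eq_empty_or_nonempty with rfl | ⟨s₁, hs₁⟩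
  · rw [Finset.card_empty, Nat.cast_zero]
    positivity
  obtain ⟨s₀, hs0, -, hprim⟩ := exists_prim (h0 s₁ hs₁)
  have hj : ∀ s ∈ X, ∃ j : ℤ, s = j • s₀ := fun s hs => hprim s (hP s₁ hs₁ s hs)
  set J : Zd 3 → ℤ := fun s => if h : ∃ j : ℤ, s = j • s₀ then h.choose else 0 with hJ
  have hJs : ∀ s ∈ X, s = J s • s₀ := by
    intro s hs
    have h := hj s hs
    simp only [hJ]
    rw [dif_pos h]
    exact h.choose_spec
  have hinj : Set.InjOn J (X : Set (Zd 3)) := by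
    intro s hs s' hs' h
    rw [hJs s hs, hJs s' hs', h]
  rw [← Finset.card_image_of_injOn hinj]
  set Z := X.image J with hZ
  have hL := one_le_nz hs0
  have hL2 : 1 ≤ nz s₀ ^ 2 := one_le_pow₀ hL
  have hLc : ((nz s₀ ^ 2 : ℝ) : ℂ) ≠ 0 := by
    have : nz s₀ ^ 2 ≠ 0 := by positivity
    exact_mod_cast this
  set β : ℂ := 2 * bil k (zc s₀) / ((nz s₀ ^ 2 : ℝ) : ℂ) with hβ
  have hTs := Real.mul_self_sqrt hT
  have hTs0 := Real.sqrt_nonneg T
  have hkey : ∀ j ∈ Z, |(j : ℝ) - 0| ≤ √T ∨ |(j : ℝ) - (-β.re)| ≤ √T := by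
    intro j hjZ
    obtain ⟨s, hs, rfl⟩ := Finset.mem_image.1 hjZ
    have h1 := hX s hs
    rw [hJs s hs, n7a_gs] at h1
    have h2 : (2 * bil k (zc s₀) + (J s : ℂ) * ((nz s₀ ^ 2 : ℝ) : ℂ)) =
        ((nz s₀ ^ 2 : ℝ) : ℂ) * ((J s : ℂ) + β) := by
      rw [hβ]
      field_simp
      ring
    rw [h2, norm_mul, norm_mul, Complex.norm_intCast, Complex.norm_real, Real.norm_eq_abs,
      abs_of_nonneg (sq_nonneg (nz s₀))] at h1
    have h3 : |(J s : ℝ)| * ‖(J s : ℂ) + β‖ ≤ T := by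
      refine le_trans ?_ h1
      calc |(J s : ℝ)| * ‖(J s : ℂ) + β‖ = |(J s : ℝ)| * (1 * ‖(J s : ℂ) + β‖) := by ring
        _ ≤ |(J s : ℝ)| * (nz s₀ ^ 2 * ‖(J s : ℂ) + β‖) := by gcongr
    rw [sub_zero, sub_neg_eq_add]
    by_contra hcon
    push Not at hcon
    have h4 : |(J s : ℝ) + β.re| ≤ ‖(J s : ℂ) + β‖ := by
      have h5 := Complex.abs_re_le_norm ((J s : ℂ) + β)
      rwa [Complex.add_re, Complex.intCast_re] at h5
    have h5 : √T * √T < |(J s : ℝ)| * ‖(J s : ℂ) + β‖ :=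
      mul_lt_mul'' hcon.1 (lt_of_lt_of_le hcon.2 h4) hTs0 hTs0
    linarith
  have h1 := n8_int (Z.filter fun j : ℤ => |(j : ℝ) - 0| ≤ √T) 0 (√T) hTs0
    (fun j hj => (Finset.mem_filter.1 hj).2)
  have h2 := n8_int (Z.filter fun j : ℤ => ¬ |(j : ℝ) - 0| ≤ √T) (-β.re) (√T) hTs0
    (fun j hj => (hkey j (Finset.mem_filter.1 hj).1).resolve_left (Finset.mem_filter.1 hj).2)
  have h3 := Finset.card_filter_add_card_filter_not (s := Z)
    (fun j : ℤ => |(j : ℝ) - 0| ≤ √T)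
  have h4 : (Z.card : ℝ) = ((Z.filter fun j : ℤ => |(j : ℝ) - 0| ≤ √T).card : ℝ) +
      ((Z.filter fun j : ℤ => ¬ |(j : ℝ) - 0| ≤ √T).card : ℝ) := by
    exact_mod_cast h3.symm
  rw [h4]
  linarith

/-- Proof: `nz s ≤ 5000 b^330 ≤ b^360`, `|dt (im k) s| = |(gs k s).im|/2 ≤ 100 V ≤ b^510`: `par_of_short`, `line_card` with `T = 200 V`:
`4 √(200 V) + 2 ≤ 60 √V ≤ V/b^5` since `√V ≥ b^8 ≥ 60 b^5`. -/
theorem close_small {k : Cd 3} (hk : KC P k) {V : ℝ} (h1 : P.b ^ 16 ≤ V) (h2 : V ≤ P.b ^ 230)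
    (X : Finset (Zd 3)) (hX : ∀ s ∈ X, s ≠ 0 ∧ nz s ≤ 5000 * V / P.rho ∧ ‖gs k s‖ ≤ 200 * V) :
    (X.card : ℝ) ≤ V / P.b ^ 5 := by
  have hb0 := P.b_pos
  have hb1 := P.one_le_b
  have hV0 : 0 < V := lt_of_lt_of_le (P.pow_pos 16) h1
  have hcard := line_card (k := k) (T := 200 * V) (by positivity) X (fun s hs => (hX s hs).1) (by
    intro s hs s' hs'
    have hbd : ∀ t ∈ X, nz t ≤ P.b ^ 360 ∧ |dt (im k) t| ≤ P.b ^ 510 := by
      intro t ht
      obtain ⟨_, ht1, ht2⟩ := hX t ht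
      constructor
      · refine ht1.trans ?_
        rw [div_le_iff₀ P.rho_pos, mul_comm (P.b ^ 360), P.rho_eq 260]
        calc 5000 * V ≤ 5000 * P.b ^ 230 := by linarith
          _ ≤ P.b ^ 260 := P.mul_pow_le (by norm_num) (by norm_num)
      · have h3 := (Complex.abs_im_le_norm _).trans ht2
        rw [gs_im, abs_mul, abs_two] at h3
        have h4 : 100 * P.b ^ 230 ≤ P.b ^ 510 := P.mul_pow_le (by norm_num) (by norm_num)
        linarith
    exact par_of_short hk.yy (hbd s hs).1 (hbd s' hs').1 (hbd s hs).2 (hbd s' hs').2)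
    (fun s hs => (hX s hs).2.2)
  refine hcard.trans ?_
  have hv : P.b ^ 8 ≤ √V := by
    refine Real.le_sqrt_of_sq_le ?_
    rw [← pow_mul]
    exact h1
  have hvv := Real.mul_self_sqrt hV0.le
  have hv0 : 0 < √V := Real.sqrt_pos.2 hV0
  have h3 : √(200 * V) ≤ 15 * √V := by
    rw [Real.sqrt_le_left (by positivity)]
    rw [mul_pow, sq (√V), hvv]
    linarith
  have h4 : (1 : ℝ) ≤ √V := le_trans (one_le_pow₀ hb1) hv
  rw [le_div_iff₀ (P.pow_pos 5)]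
  have h5 : 100 * P.b ^ 5 ≤ P.b ^ 8 := P.mul_pow_le (by norm_num) (by norm_num)
  have h6 := P.pow_pos 5
  calc (4 * √(200 * V) + 2) * P.b ^ 5 ≤ 100 * √V * P.b ^ 5 := by
        refine mul_le_mul_of_nonneg_right ?_ h6.le
        linarith
    _ = √V * (100 * P.b ^ 5) := by ring
    _ ≤ √V * √V := mul_le_mul_of_nonneg_left (h5.trans hv) hv0.le
    _ = V := hvv

/-- Proof: `arc` with `S = 5000 V/ρ = 5000 V b^100` and `200 V` (`≤ 200 ρ R ≤ R/100`). `√(200 V) ≥ 14 √V`, `√V ≥ b^115`, `√V ≤ √(ρ R)`: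
`10^6 S/√(200 V) ≤ 3.6·10^8 √V b^100 ≤ 3.6·10^8 V b^100/b^115`; `10^6 ≤ V/b^200`; `10^6 (200 V)²/R ≤ 4·10^10 V ρ`;
`2·10^8 V/b^400`; `10^6 √(200 V) b ≤ 1.5·10^7 V b/b^115`; `10^6 √(200V) b b^2400 200 V/R ≤ 3·10^9 V b^2401 √V/R ≤ 3·10^9 V b^2401/√R`
(`√V ≤ √R`, `√R ≥ b^4999`). Each is at most `V/(6 b^5)`. -/
theorem close_large {k : Cd 3} (hk : KC P k) {V : ℝ} (h1 : P.b ^ 230 ≤ V)
    (h2 : V ≤ P.rho * nr (im k)) (X : Finset (Zd 3))
    (hX : ∀ s ∈ X, s ≠ 0 ∧ nz s ≤ 5000 * V / P.rho ∧ ‖gs k s‖ ≤ 200 * V) :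
    (X.card : ℝ) ≤ V / P.b ^ 5 := by
  have hb0 := P.b_pos
  have hb1 := P.one_le_b
  have hR := hk.R_pos
  have hV0 : 0 < V := lt_of_lt_of_le (P.pow_pos 230) h1
  have hρ0 := P.rho_pos
  have hV1 : 1 ≤ V := le_trans (one_le_pow₀ hb1) h1
  have hρs : P.rho ≤ 1 / 10 ^ 12 := by
    refine P.rho_le_small.trans ?_
    norm_num
  have hVR : V ≤ 1 / 10 ^ 12 * nr (im k) :=
    h2.trans (mul_le_mul_of_nonneg_right hρs hR.le)
  have hS : 1 ≤ 5000 * V / P.rho := by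
    rw [le_div_iff₀ hρ0]
    have := P.rho_le_one
    linarith
  have hcard := arc hk (S := 5000 * V / P.rho) (V := 200 * V) hS (by linarith) (by linarith) X
    (fun s hs => (hX s hs).2)
  refine hcard.trans ?_
  have hv : P.b ^ 115 ≤ √V := by
    refine Real.le_sqrt_of_sq_le ?_
    rw [← pow_mul]
    exact h1
  have hvv := Real.mul_self_sqrt hV0.le
  have hv0 : 0 < √V := Real.sqrt_pos.2 hV0
  have hw2 : √(200 * V) ≤ 15 * √V := by
    rw [Real.sqrt_le_left (by positivity)]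
    rw [mul_pow, sq (√V), hvv]
    linarith
  have hw1 : 14 * √V ≤ √(200 * V) := by
    refine Real.le_sqrt_of_sq_le ?_
    rw [mul_pow, sq (√V), hvv]
    linarith
  set v := √V with hvdef
  set w := √(200 * V) with hwdef
  have hw0 : 0 < w := by linarith
  have hrb : P.rho = (P.b ^ 100)⁻¹ := rfl
  -- the level
  set Q := V / P.b ^ 6 with hQ
  have hQle : 6 * Q ≤ V / P.b ^ 5 := by
    rw [hQ, mul_div_assoc', div_le_div_iff₀ (P.pow_pos 6) (P.pow_pos 5)]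
    calc 6 * V * P.b ^ 5 = V * (6 * P.b ^ 5) := by ring
      _ ≤ V * P.b ^ 6 := mul_le_mul_of_nonneg_left
          (P.mul_pow_le (by norm_num) (by norm_num)) hV0.le
  have t1 : 10 ^ 6 * (5000 * V / P.rho / w) ≤ Q := by
    have e1 : 5000 * V / P.rho / w ≤ 360 * P.b ^ 100 * v := by
      rw [div_le_iff₀ hw0, div_le_iff₀ hρ0]
      have e2 : 360 * P.b ^ 100 * v * w * P.rho = 360 * v * w := by
        have := P.rho_mul
        calc 360 * P.b ^ 100 * v * w * P.rho = 360 * v * w * (P.rho * P.b ^ 100) := by ring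
          _ = _ := by rw [this, mul_one]
      rw [e2]
      have e3 : v * (14 * v) ≤ v * w := mul_le_mul_of_nonneg_left hw1 hv0.le
      have e4 : v * (14 * v) = 14 * V := by rw [← hvv]; ring
      rw [e4] at e3
      linarith
    have e2 : 10 ^ 6 * (5000 * V / P.rho / w) * P.b ^ 6 ≤ V := by
      calc 10 ^ 6 * (5000 * V / P.rho / w) * P.b ^ 6 ≤ 10 ^ 6 * (360 * P.b ^ 100 * v) * P.b ^ 6 :=
            mul_le_mul_of_nonneg_right (mul_le_mul_of_nonneg_left e1 (by norm_num))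
              (P.pow_pos 6).le
        _ = 360 * 10 ^ 6 * P.b ^ 106 * v := by
            have e5 : P.b ^ 106 = P.b ^ 100 * P.b ^ 6 := by rw [← pow_add]
            rw [e5]
            ring
        _ ≤ P.b ^ 115 * v := mul_le_mul_of_nonneg_right
            (P.mul_pow_le (by norm_num) (by norm_num)) hv0.le
        _ ≤ v * v := mul_le_mul_of_nonneg_right hv hv0.le
        _ = V := hvv
    rw [hQ, le_div_iff₀ (P.pow_pos 6)]
    exact e2
  have t2 : 10 ^ 6 * 1 ≤ Q := by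
    rw [hQ, le_div_iff₀ (P.pow_pos 6)]
    calc 10 ^ 6 * 1 * P.b ^ 6 = 10 ^ 6 * P.b ^ 6 := by ring
      _ ≤ P.b ^ 230 := P.mul_pow_le (by norm_num) (by norm_num)
      _ ≤ V := h1
  have t3 : 10 ^ 6 * ((200 * V) ^ 2 / nr (im k)) ≤ Q := by
    rw [hQ, le_div_iff₀ (P.pow_pos 6), mul_div_assoc', div_mul_eq_mul_div, div_le_iff₀ hR]
    calc 10 ^ 6 * (200 * V) ^ 2 * P.b ^ 6 = V * V * (4 * 10 ^ 10 * P.b ^ 6) := by ring
      _ ≤ V * V * P.b ^ 100 := mul_le_mul_of_nonneg_left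
          (P.mul_pow_le (by norm_num) (by norm_num)) (by positivity)
      _ ≤ V * (P.rho * nr (im k)) * P.b ^ 100 := by
          refine mul_le_mul_of_nonneg_right ?_ (P.pow_pos 100).le
          exact mul_le_mul_of_nonneg_left h2 hV0.le
      _ = V * nr (im k) * (P.rho * P.b ^ 100) := by ring
      _ = V * nr (im k) := by rw [P.rho_mul, mul_one]
  have t4 : 10 ^ 6 * (200 * V / P.b ^ 400) ≤ Q := by
    rw [hQ, mul_div_assoc', div_le_div_iff₀ (P.pow_pos 400) (P.pow_pos 6)]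
    calc 10 ^ 6 * (200 * V) * P.b ^ 6 = V * (2 * 10 ^ 8 * P.b ^ 6) := by ring
      _ ≤ V * P.b ^ 400 := mul_le_mul_of_nonneg_left
          (P.mul_pow_le (by norm_num) (by norm_num)) hV0.le
  have t5 : 10 ^ 6 * (w * P.b) ≤ Q := by
    rw [hQ, le_div_iff₀ (P.pow_pos 6)]
    calc 10 ^ 6 * (w * P.b) * P.b ^ 6 ≤ 10 ^ 6 * (15 * v * P.b) * P.b ^ 6 := by
          refine mul_le_mul_of_nonneg_right ?_ (P.pow_pos 6).le
          refine mul_le_mul_of_nonneg_left ?_ (by norm_num)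
          exact mul_le_mul_of_nonneg_right hw2 hb0.le
      _ = v * (15 * 10 ^ 6 * P.b ^ 7) := by ring
      _ ≤ v * P.b ^ 115 := mul_le_mul_of_nonneg_left
          (P.mul_pow_le (by norm_num) (by norm_num)) hv0.le
      _ ≤ v * v := mul_le_mul_of_nonneg_left hv hv0.le
      _ = V := hvv
  have t6 : 10 ^ 6 * (w * P.b * (P.b ^ 2400 * (200 * V) / nr (im k))) ≤ Q := by
    have hsR := hk.yy.sqrt_ge
    have hss := Real.mul_self_sqrt hR.le
    have hvR : v ≤ √(nr (im k)) := by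
      rw [hvdef]
      apply Real.sqrt_le_sqrt
      linarith
    have hvb : v * P.b ^ 4999 ≤ nr (im k) := by
      rw [← hss]
      exact mul_le_mul hvR hsR (P.pow_pos 4999).le (Real.sqrt_nonneg _)
    rw [hQ, le_div_iff₀ (P.pow_pos 6), mul_div_assoc', mul_div_assoc', div_mul_eq_mul_div,
      div_le_iff₀ hR]
    have e1 : P.b * P.b ^ 2400 * P.b ^ 6 = P.b ^ 2407 := by
      rw [← pow_succ', ← pow_add]
    calc 10 ^ 6 * (w * P.b * (P.b ^ 2400 * (200 * V))) * P.b ^ 6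
        = V * w * (2 * 10 ^ 8 * (P.b * P.b ^ 2400 * P.b ^ 6)) := by ring
      _ = V * w * (2 * 10 ^ 8 * P.b ^ 2407) := by rw [e1]
      _ ≤ V * (15 * v) * (2 * 10 ^ 8 * P.b ^ 2407) := by
          refine mul_le_mul_of_nonneg_right ?_ (mul_nonneg (by norm_num) (P.pow_pos 2407).le)
          exact mul_le_mul_of_nonneg_left hw2 hV0.le
      _ = V * v * (30 * 10 ^ 8 * P.b ^ 2407) := by ring
      _ ≤ V * v * P.b ^ 4999 := mul_le_mul_of_nonneg_left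
          (P.mul_pow_le (by norm_num) (by norm_num)) (mul_nonneg hV0.le hv0.le)
      _ = V * (v * P.b ^ 4999) := by ring
      _ ≤ V * nr (im k) := mul_le_mul_of_nonneg_left hvb hV0.le
  have e : 10 ^ 6 * (5000 * V / P.rho / w + 1 + (200 * V) ^ 2 / nr (im k) +
      200 * V / P.b ^ 400 + w * P.b * (1 + P.b ^ 2400 * (200 * V) / nr (im k))) =
      10 ^ 6 * (5000 * V / P.rho / w) + 10 ^ 6 * 1 + 10 ^ 6 * ((200 * V) ^ 2 / nr (im k)) +
      10 ^ 6 * (200 * V / P.b ^ 400) + 10 ^ 6 * (w * P.b) +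
      10 ^ 6 * (w * P.b * (P.b ^ 2400 * (200 * V) / nr (im k))) := by ring
  rw [e]
  linarith

/-- (N8) -/
theorem close_pairs {k : Cd 3} (hk : KC P k) {V : ℝ} (h1 : P.b ^ 16 ≤ V)
    (h2 : V ≤ P.rho * nr (im k)) (X : Finset (Zd 3))
    (hX : ∀ s ∈ X, s ≠ 0 ∧ nz s ≤ 5000 * V / P.rho ∧ ‖gs k s‖ ≤ 200 * V) :
    (X.card : ℝ) ≤ V / P.b ^ 5 := by
  rcases le_total V (P.b ^ 230) with h | h
  · exact close_small hk h1 h X hX
  · exact close_large hk h h2 X hX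

end H9F
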