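import Pool.Agent.Lib.H9F.N5

/-!
# H9F N6: number of the sites of a slice
-/

open scoped BigOperators Topology
open Set Filter

noncomputable section

namespace H9F

open Fermi

variable {M : ℝ} {μ : ℂ} {P : Big M μ}

theorem n6_final (P : Big M μ) {x R : ℝ} (hx : P.b ^ 4999 ≤ x) (hR : R = x ^ 2) :
    10 ^ 6 * (3 * R / (20 * x / P.b ^ 50) + 1 + (400 * R * P.rho) ^ 2 / R +
      (400 * R * P.rho) / P.b ^ 400 +
      (20 * x / P.b ^ 50) * P.b * (1 + P.b ^ 2400 * (400 * R * P.rho) / R)) ≤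
    R / P.b ^ 199 := by
  have hb := P.b_pos
  have hbig := P.b_ge
  have hr := P.rho_pos
  have hrm := P.rho_mul
  have hx0 : 0 < x := lt_of_lt_of_le (P.pow_pos 4999) hx
  have hR0 : 0 < R := by rw [hR]; positivity
  have p199 := P.pow_pos 199
  have p50 := P.pow_pos 50
  have p400 := P.pow_pos 400
  have p2300 := P.pow_pos 2300
  have e1 : 3 * R / (20 * x / P.b ^ 50) = 3 / 20 * x * P.b ^ 50 := by
    rw [hR]
    field_simp
  have e3 : (400 * R * P.rho) ^ 2 / R = 160000 * R * P.rho ^ 2 := by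
    rw [div_eq_iff hR0.ne']; ring
  have e5 : P.b ^ 2400 * (400 * R * P.rho) / R = 400 * P.b ^ 2300 := by
    have h1 : P.b ^ 2400 = P.b ^ 2300 * P.b ^ 100 := by rw [← pow_add]
    rw [div_eq_iff hR0.ne', h1]
    linear_combination (400 * P.b ^ 2300 * R) * hrm
  have hgoal : R / P.b ^ 199 = R / (P.b ^ 199 * 10) * 10 := by
    field_simp
  have t1 : 10 ^ 6 * (3 / 20 * x * P.b ^ 50) ≤ R / (P.b ^ 199 * 10) := by
    rw [le_div_iff₀ (by positivity), hR]
    have h1 : (1500000 : ℝ) * P.b ^ 249 ≤ P.b ^ 4999 := P.mul_pow_le (by norm_num) (by norm_num)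
    have h2 : P.b ^ 249 = P.b ^ 50 * P.b ^ 199 := by rw [← pow_add]
    rw [h2] at h1
    have h3 := mul_le_mul_of_nonneg_left (h1.trans hx) hx0.le
    calc 10 ^ 6 * (3 / 20 * x * P.b ^ 50) * (P.b ^ 199 * 10)
        = x * (1500000 * (P.b ^ 50 * P.b ^ 199)) := by ring
      _ ≤ x * x := h3
      _ = x ^ 2 := by ring
  have hRb : P.b ^ 4999 ≤ R := by
    have h1 : 1 ≤ x := (one_le_pow₀ P.one_le_b).trans hx
    rw [hR]
    nlinarith
  have t2 : (10 : ℝ) ^ 6 * 1 ≤ R / (P.b ^ 199 * 10) := by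
    rw [le_div_iff₀ (by positivity)]
    have h1 : (10 ^ 7 : ℝ) * P.b ^ 199 ≤ P.b ^ 4999 := P.mul_pow_le (by norm_num) (by norm_num)
    calc (10 : ℝ) ^ 6 * 1 * (P.b ^ 199 * 10) = 10 ^ 7 * P.b ^ 199 := by ring
      _ ≤ R := h1.trans hRb
  have t3 : 10 ^ 6 * (160000 * R * P.rho ^ 2) ≤ R / (P.b ^ 199 * 10) := by
    rw [le_div_iff₀ (by positivity)]
    set w := P.rho ^ 2 * P.b ^ 199 with hw
    have hw0 : 0 ≤ w := by positivity
    have hwb : w * P.b = 1 := by
      have h2 : P.b ^ 199 * P.b = P.b ^ 100 * P.b ^ 100 := by rw [← pow_succ, ← pow_add]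
      have h3 : w * P.b = P.rho ^ 2 * (P.b ^ 199 * P.b) := by rw [hw]; ring
      rw [h3, h2]
      calc P.rho ^ 2 * (P.b ^ 100 * P.b ^ 100) = (P.rho * P.b ^ 100) ^ 2 := by ring
        _ = 1 := by rw [hrm]; norm_num
    have h4 : w * 10 ^ 36 ≤ 1 := by
      rw [← hwb]; exact mul_le_mul_of_nonneg_left hbig hw0
    have h5 : 1600000000000 * w ≤ 1 := by
      refine le_trans ?_ h4
      nlinarith
    calc 10 ^ 6 * (160000 * R * P.rho ^ 2) * (P.b ^ 199 * 10)
        = R * (1600000000000 * w) := by rw [hw]; ring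
      _ ≤ R * 1 := mul_le_mul_of_nonneg_left h5 hR0.le
      _ = R := mul_one R
  have t4 : 10 ^ 6 * ((400 * R * P.rho) / P.b ^ 400) ≤ R / (P.b ^ 199 * 10) := by
    rw [le_div_iff₀ (by positivity)]
    have h1 : (4000000000 : ℝ) * P.b ^ 199 ≤ P.b ^ 400 := P.mul_pow_le (by norm_num) (by norm_num)
    have h2 : 10 ^ 6 * ((400 * R * P.rho) / P.b ^ 400) * (P.b ^ 199 * 10)
        = (R * P.rho) * (4000000000 * P.b ^ 199) / P.b ^ 400 := by
      field_simp
      ring
    rw [h2, div_le_iff₀ p400]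
    calc (R * P.rho) * (4000000000 * P.b ^ 199) ≤ (R * P.rho) * P.b ^ 400 :=
          mul_le_mul_of_nonneg_left h1 (by positivity)
      _ ≤ (R * 1) * P.b ^ 400 := by
          refine mul_le_mul_of_nonneg_right ?_ p400.le
          exact mul_le_mul_of_nonneg_left P.rho_le_one hR0.le
      _ = R * P.b ^ 400 := by rw [mul_one]
  have t5 : 10 ^ 6 * ((20 * x / P.b ^ 50) * P.b * (1 + 400 * P.b ^ 2300)) ≤
      R / (P.b ^ 199 * 10) := by
    have h0 : (20 * x / P.b ^ 50) * P.b ≤ 20 * x := by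
      have h1 : P.b ^ 1 ≤ P.b ^ 50 := P.pow_le (by norm_num)
      rw [pow_one] at h1
      rw [div_mul_eq_mul_div, div_le_iff₀ p50]
      exact mul_le_mul_of_nonneg_left h1 (by positivity)
    have h2 : 1 + 400 * P.b ^ 2300 ≤ 401 * P.b ^ 2300 := by
      have : 1 ≤ P.b ^ 2300 := one_le_pow₀ P.one_le_b
      linarith
    have h3 : (20 * x / P.b ^ 50) * P.b * (1 + 400 * P.b ^ 2300) ≤ 20 * x * (401 * P.b ^ 2300) :=
      mul_le_mul h0 h2 (by positivity) (by positivity)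
    rw [le_div_iff₀ (by positivity)]
    have h4 : (80200000000 : ℝ) * P.b ^ 2499 ≤ P.b ^ 4999 :=
      P.mul_pow_le (by norm_num) (by norm_num)
    have h5 : P.b ^ 2499 = P.b ^ 2300 * P.b ^ 199 := by rw [← pow_add]
    rw [h5] at h4
    have h6 := mul_le_mul_of_nonneg_left (h4.trans hx) hx0.le
    calc 10 ^ 6 * ((20 * x / P.b ^ 50) * P.b * (1 + 400 * P.b ^ 2300)) * (P.b ^ 199 * 10)
        ≤ 10 ^ 6 * (20 * x * (401 * P.b ^ 2300)) * (P.b ^ 199 * 10) := by gcongr
      _ = x * (80200000000 * (P.b ^ 2300 * P.b ^ 199)) := by ring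
      _ ≤ x * x := h6
      _ = R := by rw [hR]; ring
  rw [e1, e3, e5, hgoal]
  have hT : 0 ≤ R / (P.b ^ 199 * 10) := by positivity
  generalize R / (P.b ^ 199 * 10) = T at *
  generalize 3 / 20 * x * P.b ^ 50 = a1 at *
  generalize 160000 * R * P.rho ^ 2 = a3 at *
  generalize (400 * R * P.rho) / P.b ^ 400 = a4 at *
  generalize (20 * x / P.b ^ 50) * P.b * (1 + 400 * P.b ^ 2300) = a5 at *
  linarith

/-- (N6) Proof. If `X` is empty, trivial. Let `n₀ ∈ X`, `k = p + zc n₀`: `im k = im p`, `q μ k 0 = q μ p n₀` (`q_shift`), `KC P k` by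
`KC.of_site` (`200 R ρ ≤ R²/1000`). For `n ∈ X`, `s = n - n₀`: `gs k s = q μ p n - q μ p n₀` (`q_gs'`), so `‖gs k s‖ ≤ V := 400 R ρ`, and
`nr (re p + rz n) ≤ 1.1 R` (`q0_re` for `p + zc n`), so `nz s ≤ 3 R`. `arc` with `S = 3 R` for `X.image (· - n₀)` (same cardinality);
`1 ≤ V` (`ρ R ≥ b^9899`), `V ≤ R/100` (`P.rho_le_small`). With `√V = 20 √R / b^50` (`ρ = 1/b^100`), `√R ≥ b^4999` (`YY.sqrt_ge`):
`10^6 · 3 R/√V = 1.5·10^5 √R b^50 ≤ R b^51/√R ≤ R b^51/b^4999`; `10^6 ≤ R/b^9000`; `10^6 V²/R = 1.6·10^11 R/b^200`;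
`10^6 V/b^400 = 4·10^8 R/b^500`; `10^6 √V b (1 + b^2400 V/R) = 2·10^7 √R b^(-49) (1 + 400 b^2300) ≤ R b^2300/b^4999`.
Every term is at most `R/(10 b^199)` since `b ≥ 10^36`. -/
theorem card_Lam {p : Cd 3} (hy : YY P 4 (im p)) (X : Finset (Zd 3))
    (hX : ∀ n ∈ X, ‖q μ p n‖ ≤ 200 * nr (im p) * P.rho) :
    (X.card : ℝ) ≤ nr (im p) / P.b ^ 199 := by
  classical
  have hR := hy.R_pos
  have hr := P.rho_pos
  rcases X.eq_empty_or_nonempty with rfl | ⟨n₀, hn₀⟩
  · rw [Finset.card_empty, Nat.cast_zero]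
    exact div_nonneg hR.le (P.pow_pos 199).le
  have hR6 : (10 ^ 6 : ℝ) ≤ nr (im p) := by
    have h1 : (10 ^ 6 : ℝ) * P.b ^ 0 ≤ nr (im p) := hy.mul_le (by norm_num) (by norm_num)
    rwa [pow_zero, mul_one] at h1
  have hkc : ∀ n ∈ X, KC P (p + zc n) := by
    intro n hn
    refine KC.of_site hy ((hX n hn).trans ?_)
    have h1 : 200 * nr (im p) * P.rho ≤ 200 * nr (im p) * 1 :=
      mul_le_mul_of_nonneg_left P.rho_le_one (by positivity)
    nlinarith
  have hre : ∀ n ∈ X, nr (re p + rz n) ≤ 1001 / 1000 * nr (im p) := by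
    intro n hn
    have h1 := (hkc n hn).re_le
    rwa [re_add_zc, im_add_zc] at h1
  set k : Cd 3 := p + zc n₀ with hk
  have him : im k = im p := by rw [hk, im_add_zc]
  have hV1 : 1 ≤ 400 * nr (im p) * P.rho := by
    have h1 : P.b ^ 100 ≤ nr (im p) := (P.pow_le (by norm_num)).trans hy.R_ge
    have h2 : P.rho * P.b ^ 100 ≤ P.rho * nr (im p) := mul_le_mul_of_nonneg_left h1 hr.le
    rw [P.rho_mul] at h2
    linarith
  have hVle : 400 * nr (im p) * P.rho ≤ nr (im k) / 100 := by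
    rw [him]
    have h1 : P.rho ≤ 1 / 40000 := by
      refine P.rho_le_small.trans ?_
      norm_num
    have h2 : 400 * nr (im p) * P.rho ≤ 400 * nr (im p) * (1 / 40000) :=
      mul_le_mul_of_nonneg_left h1 (by positivity)
    linarith
  have harc := arc (hkc n₀ hn₀) (S := 3 * nr (im p)) (V := 400 * nr (im p) * P.rho)
    (by linarith) hV1 hVle (X.image (fun n => n - n₀)) (by
      intro s hs
      obtain ⟨n, hn, rfl⟩ := Finset.mem_image.1 hs
      constructor
      · have e0 : rz (n - n₀) = (re p + rz n) - (re p + rz n₀) := by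
          rw [rz_sub]; abel
        have h1 := nr_sub_le (re p + rz n) (re p + rz n₀)
        have h2 := hre n hn
        have h3 := hre n₀ hn₀
        show nr (rz (n - n₀)) ≤ 3 * nr (im p)
        rw [e0]
        linarith
      · have h1 := q_gs' μ p n₀ (n - n₀)
        rw [add_sub_cancel] at h1
        have h2 : gs (p + zc n₀) (n - n₀) = q μ p n - q μ p n₀ := by rw [h1]; ring
        rw [h2]
        refine (norm_sub_le _ _).trans ?_
        have h3 := hX n hn
        have h4 := hX n₀ hn₀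
        linarith)
  have hcard : (X.image (fun n => n - n₀)).card = X.card :=
    Finset.card_image_of_injective X (fun a b hab => sub_left_injective hab)
  rw [hcard] at harc
  rw [show im (p + zc n₀) = im p from im_add_zc p n₀] at harc
  refine harc.trans ?_
  have hsq : nr (im p) = √(nr (im p)) ^ 2 := (Real.sq_sqrt hR.le).symm
  have hsV : √(400 * nr (im p) * P.rho) = 20 * √(nr (im p)) / P.b ^ 50 := by
    have h1 : 400 * nr (im p) * P.rho = (20 * √(nr (im p)) / P.b ^ 50) ^ 2 := by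
      rw [div_pow, mul_pow, ← hsq]
      have h2 : (P.b ^ 50) ^ 2 = P.b ^ 100 := by rw [← pow_mul]
      rw [h2, Big.rho, div_eq_mul_inv]
      norm_num
    rw [h1, Real.sqrt_sq]
    exact div_nonneg (by positivity) (P.pow_pos 50).le
  rw [hsV]
  exact n6_final P hy.sqrt_ge hsq

end H9F
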