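import Pool.Agent.Lib.H9F.N10A
import Pool.Agent.Lib.H9F.N6
import Pool.Agent.Lib.H9F.N7C

/-!
# H9F N10C: long resonant pairs
-/

open scoped BigOperators Topology
open Set Filter

noncomputable section

namespace H9F

open Fermi

variable {M : ℝ} {μ : ℂ} {P : Big M μ}

/-- Proof. Group `X` by `m = i.1` (`Finset.sum_fiberwise`): the number of `m` is at most `R/b^199` (`card_Lam`), and for each `m` the
vectors `s = i.2 - m` are distinct obstacle vectors of `p + zc m` with `nz s ≥ R/b^400`: `∑ 1/nz s² ≤ 1/(R b^49)` by `ob_sum_large`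
(`KC.of_site`, `im_add_zc`). Total `≤ 1/b^248`. -/
theorem pair_long {p : Cd 3} (hy : YY P 4 (im p)) (X : Finset (Zd 3 × Zd 3))
    (hX : ∀ i ∈ X, NPr P p i ∧ nr (im p) / P.b ^ 400 ≤ nz (i.2 - i.1)) :
    ∑ i ∈ X, 1 / nz (i.2 - i.1) ^ 2 ≤ 1 / P.b ^ 240 := by
  classical
  have hR := hy.R_pos
  have hρ0 := P.rho_pos
  have hb49 := P.pow_pos 49
  have hinner : ∀ m ∈ X.image Prod.fst,
      ∑ i ∈ X with i.1 = m, 1 / nz (i.2 - i.1) ^ 2 ≤ 1 / (nr (im p) * P.b ^ 49) := by
    intro m hm
    have hqm : ‖q μ p m‖ ≤ nr (im p) ^ 2 / 1000 := by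
      rw [Finset.mem_image] at hm
      obtain ⟨i, hi, rfl⟩ := hm
      refine (hX i hi).1.h1.trans ?_
      have h1 : (10 : ℝ) ^ 5 * P.b ^ 0 ≤ nr (im p) := hy.mul_le (by norm_num) (by norm_num)
      rw [pow_zero, mul_one] at h1
      have h2 := P.rho_le_one
      calc 100 * nr (im p) * P.rho ≤ 100 * nr (im p) * 1 := by
            apply mul_le_mul_of_nonneg_left h2 (by positivity)
        _ = nr (im p) * 10 ^ 5 / 1000 := by ring
        _ ≤ nr (im p) * nr (im p) / 1000 := by
            apply div_le_div_of_nonneg_right _ (by norm_num)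
            exact mul_le_mul_of_nonneg_left h1 hR.le
        _ = nr (im p) ^ 2 / 1000 := by ring
    have hkc : KC P (p + zc m) := KC.of_site hy hqm
    have him : im (p + zc m) = im p := im_add_zc p m
    have h3 := ob_sum_large hkc ((X.filter (fun i => i.1 = m)).image (fun i => i.2 - i.1)) (by
      intro s hs
      rw [Finset.mem_image] at hs
      obtain ⟨i, hi, rfl⟩ := hs
      rw [Finset.mem_filter] at hi
      obtain ⟨hiX, hi1⟩ := hi
      have h4 := hX i hiX
      rw [him]
      refine ⟨⟨?_, ?_⟩, h4.2⟩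
      · exact sub_ne_zero.2 (Ne.symm h4.1.ne)
      · rw [← hi1]
        exact h4.1.hg)
    rw [him] at h3
    rw [Finset.sum_image] at h3
    · exact h3
    · intro i hi j hj hij
      rw [Finset.mem_coe, Finset.mem_filter] at hi hj
      have e1 : i.1 = j.1 := hi.2.trans hj.2.symm
      have e2 : i.2 = j.2 := by
        have h5 : i.2 - i.1 = j.2 - j.1 := hij
        rw [e1] at h5
        exact sub_left_inj.1 h5
      exact Prod.ext e1 e2
  have hcard := card_Lam hy (X.image Prod.fst) (by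
    intro n hn
    rw [Finset.mem_image] at hn
    obtain ⟨i, hi, rfl⟩ := hn
    refine (hX i hi).1.h1.trans ?_
    have : 0 ≤ nr (im p) * P.rho := mul_nonneg hR.le hρ0.le
    linarith)
  have hsum : ∑ i ∈ X, 1 / nz (i.2 - i.1) ^ 2 =
      ∑ m ∈ X.image Prod.fst, ∑ i ∈ X with i.1 = m, 1 / nz (i.2 - i.1) ^ 2 := by
    rw [Finset.sum_fiberwise_of_maps_to]
    intro i hi
    exact Finset.mem_image_of_mem _ hi
  rw [hsum]
  calc ∑ m ∈ X.image Prod.fst, ∑ i ∈ X with i.1 = m, 1 / nz (i.2 - i.1) ^ 2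
      ≤ ∑ _m ∈ X.image Prod.fst, 1 / (nr (im p) * P.b ^ 49) := Finset.sum_le_sum hinner
    _ = ((X.image Prod.fst).card : ℝ) * (1 / (nr (im p) * P.b ^ 49)) := by
        rw [Finset.sum_const, nsmul_eq_mul]
    _ ≤ nr (im p) / P.b ^ 199 * (1 / (nr (im p) * P.b ^ 49)) := by
        apply mul_le_mul_of_nonneg_right hcard
        positivity
    _ = 1 / P.b ^ 248 := by
        have h6 := (P.pow_pos 199).ne'
        have e : P.b ^ 248 = P.b ^ 199 * P.b ^ 49 := by rw [← pow_add]
        rw [e]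
        field_simp
    _ ≤ 1 / P.b ^ 240 := by
        apply one_div_le_one_div_of_le (P.pow_pos 240)
        exact P.pow_le (by norm_num)

end H9F
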