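import Pool.Agent.Lib.H9F.N10B
import Pool.Agent.Lib.H9F.N10C

/-!
# H9F N10: the sum over resonant pairs
-/

open scoped BigOperators Topology
open Set Filter

noncomputable section

namespace H9F

open Fermi

variable {M : ℝ} {μ : ℂ} {P : Big M μ}

/-- (N10) Proof: split `X` in three parts: `pair_short`, `pair_mid`, `pair_long`:
`8/b^240 + 1/b^300 + 1/b^240 ≤ 1/b^238`. -/
theorem pair_sum {p : Cd 3} (hy : YY P 4 (im p))
    (hn : ∀ n, ‖q μ p n‖ ≤ 100 * nr (im p) * P.rho → NF P (P.b ^ 500) (p + zc n))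
    (X : Finset (Zd 3 × Zd 3)) (hX : ∀ i ∈ X, i.1 ≠ i.2 ∧
      ‖q μ p i.1‖ ≤ 100 * nr (im p) * P.rho ∧ ‖q μ p i.2‖ ≤ 100 * nr (im p) * P.rho ∧
      ‖gs (p + zc i.1) (i.2 - i.1)‖ ≤ 2 * P.b + 40 * P.rho * nz (i.2 - i.1)) :
    ∑ i ∈ X, 1 / nz (i.2 - i.1) ^ 2 ≤ 1 / P.b ^ 238 := by
  classical
  have hN : ∀ i ∈ X, NPr P p i := fun i hi =>
    ⟨(hX i hi).1, (hX i hi).2.1, (hX i hi).2.2.1, (hX i hi).2.2.2⟩
  have h1 := pair_short hy hn (X.filter (fun i => nz (i.2 - i.1) ≤ P.b ^ 360)) (by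
    intro i hi
    rw [Finset.mem_filter] at hi
    exact ⟨hN i hi.1, hi.2⟩)
  have h2 := pair_mid hy ((X.filter (fun i => ¬ nz (i.2 - i.1) ≤ P.b ^ 360)).filter
      (fun i => nz (i.2 - i.1) ≤ nr (im p) / P.b ^ 400)) (by
    intro i hi
    rw [Finset.mem_filter, Finset.mem_filter] at hi
    exact ⟨hN i hi.1.1, (not_le.1 hi.1.2).le, hi.2⟩)
  have h3 := pair_long hy ((X.filter (fun i => ¬ nz (i.2 - i.1) ≤ P.b ^ 360)).filter
      (fun i => ¬ nz (i.2 - i.1) ≤ nr (im p) / P.b ^ 400)) (by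
    intro i hi
    rw [Finset.mem_filter, Finset.mem_filter] at hi
    exact ⟨hN i hi.1.1, (not_le.1 hi.2).le⟩)
  rw [← Finset.sum_filter_add_sum_filter_not X (fun i => nz (i.2 - i.1) ≤ P.b ^ 360),
    ← Finset.sum_filter_add_sum_filter_not (X.filter (fun i => ¬ nz (i.2 - i.1) ≤ P.b ^ 360))
      (fun i => nz (i.2 - i.1) ≤ nr (im p) / P.b ^ 400)]
  have h4 : 1 / P.b ^ 300 ≤ 1 / P.b ^ 240 :=
    one_div_le_one_div_of_le (P.pow_pos 240) (P.pow_le (by norm_num))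
  have h5 : 10 / P.b ^ 240 ≤ 1 / P.b ^ 238 := by
    rw [div_le_div_iff₀ (P.pow_pos 240) (P.pow_pos 238), one_mul]
    exact P.mul_pow_le (by norm_num) (by norm_num)
  have h6 : (8 : ℝ) / P.b ^ 240 + (1 / P.b ^ 240 + 1 / P.b ^ 240) = 10 / P.b ^ 240 := by ring
  linarith

end H9F
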