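import Mathlib

/-!
# H9F Sel: selection lemma (pure)
-/

open scoped BigOperators Topology
open Set Filter

noncomputable section

namespace H9F

open MeasureTheory

/-- the annulus of the radii -/
def ann (ρ : ℝ) : Set ℂ := {τ | ρ / 4 ≤ ‖τ‖ ∧ ‖τ‖ ≤ ρ / 2}

theorem sel_ball {r : ℝ} (hr : 0 ≤ r) (x : ℂ) : volume.real (Metric.closedBall x r) = Real.pi * r ^ 2 := by
  rw [measureReal_def, Complex.volume_closedBall, ENNReal.toReal_mul, ENNReal.toReal_pow, ENNReal.toReal_ofReal hr,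
    ENNReal.coe_toReal, NNReal.coe_real_pi, mul_comm]

theorem sel_ball' {r : ℝ} (hr : 0 ≤ r) (x : ℂ) : volume.real (Metric.ball x r) = Real.pi * r ^ 2 := by
  rw [measureReal_def, Complex.volume_ball, ENNReal.toReal_mul, ENNReal.toReal_pow, ENNReal.toReal_ofReal hr,
    ENNReal.coe_toReal, NNReal.coe_real_pi, mul_comm]

theorem sel_top (x : ℂ) (r : ℝ) : volume (Metric.closedBall x r) ≠ ⊤ := (measure_closedBall_lt_top).ne

theorem sel_diff {a b : ℝ} (ha : 0 ≤ a) (hab : a ≤ b) :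
    volume.real (Metric.closedBall (0 : ℂ) b \ Metric.ball 0 a) = Real.pi * (b ^ 2 - a ^ 2) := by
  rw [measureReal_sdiff (Metric.ball_subset_closedBall.trans (Metric.closedBall_subset_closedBall hab)) measurableSet_ball
    (sel_top 0 b), sel_ball (ha.trans hab), sel_ball' ha]
  ring

theorem sel_ann_eq (ρ : ℝ) : ann ρ = Metric.closedBall (0 : ℂ) (ρ / 2) \ Metric.ball 0 (ρ / 4) := by
  ext τ
  rw [Set.mem_sdiff, mem_closedBall_zero_iff, mem_ball_zero_iff, not_lt]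
  exact and_comm

theorem sel_ann_meas (ρ : ℝ) : MeasurableSet (ann ρ) := by
  rw [sel_ann_eq]
  exact measurableSet_closedBall.diff measurableSet_ball

theorem sel_ann_top (ρ : ℝ) : volume (ann ρ) ≠ ⊤ := by
  rw [sel_ann_eq]
  exact measure_ne_top_of_subset sdiff_subset (sel_top _ _)

/-- Proof: the annulus is `closedBall 0 (ρ/2) \ ball 0 (ρ/4)`, `Complex.volume_closedBall`, `Complex.volume_ball`, `measure_diff`:
`π (ρ²/4 - ρ²/16)`. -/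
theorem vol_ann {ρ : ℝ} (hρ : 0 < ρ) : volume.real (ann ρ) = 3 / 16 * Real.pi * ρ ^ 2 := by
  rw [sel_ann_eq, sel_diff (by linarith) (by linarith)]
  ring

/-- Proof: contained in `closedBall x δ`. -/
theorem vol_small {ρ δ : ℝ} (hδ : 0 < δ) (x : ℂ) :
    volume.real (ann ρ ∩ {τ | ‖τ - x‖ ≤ δ}) ≤ Real.pi * δ ^ 2 := by
  rw [← sel_ball hδ.le x]
  refine measureReal_mono ?_ (sel_top _ _)
  rintro τ ⟨-, h⟩
  rw [mem_closedBall_iff_norm]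
  exact h

/-- Proof: with `a = max (‖x‖ - δ) 0`, `b = min (‖x‖ + δ) (ρ/2)`: empty if `a > b`; otherwise contained in `closedBall 0 b \ ball 0 a`, of
volume `π (b² - a²) = π (b - a)(b + a) ≤ π · 2 δ · ρ`. -/
theorem vol_shell {ρ δ : ℝ} (hρ : 0 < ρ) (hδ : 0 < δ) (x : ℂ) :
    volume.real (ann ρ ∩ {τ | |‖x‖ - ‖τ‖| ≤ δ}) ≤ 2 * Real.pi * ρ * δ := by
  obtain ⟨a, ha⟩ : ∃ a, a = max (‖x‖ - δ) 0 := ⟨_, rfl⟩
  obtain ⟨b, hb⟩ : ∃ b, b = min (‖x‖ + δ) (ρ / 2) := ⟨_, rfl⟩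
  have ha0 : 0 ≤ a := by
    rw [ha]
    exact le_max_right _ _
  have ha1 : ‖x‖ - δ ≤ a := by
    rw [ha]
    exact le_max_left _ _
  have hb1 : b ≤ ‖x‖ + δ := by
    rw [hb]
    exact min_le_left _ _
  have hb2 : b ≤ ρ / 2 := by
    rw [hb]
    exact min_le_right _ _
  have hpi := Real.pi_pos
  have hsub : ann ρ ∩ {τ | |‖x‖ - ‖τ‖| ≤ δ} ⊆ Metric.closedBall (0 : ℂ) b \ Metric.ball 0 a := by
    rintro τ ⟨h1, h2⟩
    have h3 := abs_le.1 (show |‖x‖ - ‖τ‖| ≤ δ from h2)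
    rw [Set.mem_sdiff, mem_closedBall_zero_iff, mem_ball_zero_iff, not_lt, ha, hb]
    exact ⟨le_min (by linarith [h3.1]) h1.2, max_le (by linarith [h3.2]) (norm_nonneg _)⟩
  by_cases hab : a ≤ b
  · refine (measureReal_mono hsub (measure_ne_top_of_subset sdiff_subset (sel_top _ _))).trans ?_
    rw [sel_diff ha0 hab]
    have h1 : b ^ 2 - a ^ 2 ≤ 2 * δ * ρ := by
      have e : b ^ 2 - a ^ 2 = (b - a) * (b + a) := by ring
      rw [e]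
      exact mul_le_mul (by linarith) (by linarith) (by linarith) (by linarith)
    calc Real.pi * (b ^ 2 - a ^ 2) ≤ Real.pi * (2 * δ * ρ) := mul_le_mul_of_nonneg_left h1 hpi.le
      _ = 2 * Real.pi * ρ * δ := by ring
  · have he : ann ρ ∩ {τ | |‖x‖ - ‖τ‖| ≤ δ} = ∅ := by
      rw [eq_empty_iff_forall_notMem]
      intro τ hτ
      have h1 := hsub hτ
      rw [Set.mem_sdiff, mem_closedBall_zero_iff, mem_ball_zero_iff, not_lt] at h1
      exact hab (h1.2.trans h1.1)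
    rw [he, measureReal_empty]
    positivity

/-- First moment method for a finite sum of indicators. -/
theorem sel_avg {κ : Type*} (Z : Finset κ) (a : κ → ℝ) (S : κ → Set (ℂ × ℂ)) (hS : ∀ j ∈ Z, MeasurableSet (S j))
    {A : Set (ℂ × ℂ)} (h0 : volume A ≠ 0) (h1 : volume A ≠ ⊤) :
    ∃ p ∈ A, ∑ j ∈ Z, a j * (S j).indicator (fun _ => (1 : ℝ)) p ≤ (volume.real A)⁻¹ * ∑ j ∈ Z, a j * volume.real (A ∩ S j) := by
  have hint : ∀ j ∈ Z, IntegrableOn (fun p => a j * (S j).indicator (fun _ => (1 : ℝ)) p) A volume := by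
    intro j hj
    have h2 : IntegrableOn (fun _ : ℂ × ℂ => (1 : ℝ)) A volume := integrableOn_const h1
    have h3 : Integrable ((S j).indicator (fun _ : ℂ × ℂ => (1 : ℝ))) (volume.restrict A) := h2.indicator (hS j hj)
    exact h3.const_mul _
  obtain ⟨p, hp, h⟩ := exists_le_setAverage h0 h1 (integrable_finsetSum Z hint)
  refine ⟨p, hp, ?_⟩
  rw [setAverage_eq, smul_eq_mul] at h
  have e : ∫ p in A, ∑ j ∈ Z, a j * (S j).indicator (fun _ => (1 : ℝ)) p ∂volume = ∑ j ∈ Z, a j * volume.real (A ∩ S j) := by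
    rw [integral_finsetSum Z hint]
    refine Finset.sum_congr rfl fun j hj => ?_
    rw [integral_const_mul, setIntegral_indicator (hS j hj), setIntegral_const, smul_eq_mul, mul_one]
  rw [e] at h
  exact h

/-- The three sets of the selection lemma. -/
def selS (x : ℂ × ℂ) (δ : ℝ) (l : Fin 3) : Set (ℂ × ℂ) :=
  if l = 0 then {p | |‖x.1‖ - ‖p.1‖| ≤ δ ∧ |‖x.2‖ - ‖p.2‖| ≤ δ} else
    if l = 1 then {p | ‖x.1 - p.1‖ ≤ δ} else {p | ‖x.2 - p.2‖ ≤ δ}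

theorem sel_meas (x : ℂ × ℂ) (δ : ℝ) (l : Fin 3) : MeasurableSet (selS x δ l) := by
  unfold selS
  split_ifs
  · have h1 : IsClosed {p : ℂ × ℂ | |‖x.1‖ - ‖p.1‖| ≤ δ} := isClosed_le (by fun_prop) continuous_const
    have h2 : IsClosed {p : ℂ × ℂ | |‖x.2‖ - ‖p.2‖| ≤ δ} := isClosed_le (by fun_prop) continuous_const
    exact (h1.inter h2).measurableSet
  · exact (isClosed_le (by fun_prop) continuous_const).measurableSet
  · exact (isClosed_le (by fun_prop) continuous_const).measurableSet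

theorem sel_vol {ρ δ : ℝ} (hρ : 0 < ρ) (hδ : 0 < δ) (x : ℂ × ℂ) (l : Fin 3) :
    volume.real ((ann ρ ×ˢ ann ρ) ∩ selS x δ l) ≤ 120 * δ ^ 2 / ρ ^ 2 * volume.real (ann ρ ×ˢ ann ρ) := by
  have hpi := Real.pi_pos
  have hA : volume.real (ann ρ ×ˢ ann ρ) = (3 / 16 * Real.pi * ρ ^ 2) * (3 / 16 * Real.pi * ρ ^ 2) := by
    rw [Measure.volume_eq_prod, measureReal_prod_prod, vol_ann hρ]
  have hr : 120 * δ ^ 2 / ρ ^ 2 * ((3 / 16 * Real.pi * ρ ^ 2) * (3 / 16 * Real.pi * ρ ^ 2)) =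
      120 * 9 / 256 * (Real.pi ^ 2 * δ ^ 2 * ρ ^ 2) := by
    field_simp
    ring
  have hann := vol_ann hρ
  have hnn : ∀ s : Set ℂ, 0 ≤ volume.real s := fun s => measureReal_nonneg
  rw [hA, hr]
  have hsm : ∀ y : ℂ, volume.real (ann ρ ∩ {τ | ‖y - τ‖ ≤ δ}) ≤ Real.pi * δ ^ 2 := by
    intro y
    have h := vol_small (ρ := ρ) hδ y
    simpa only [norm_sub_rev] using h
  unfold selS
  split_ifs
  · have e : (ann ρ ×ˢ ann ρ) ∩ {p : ℂ × ℂ | |‖x.1‖ - ‖p.1‖| ≤ δ ∧ |‖x.2‖ - ‖p.2‖| ≤ δ} =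
        (ann ρ ∩ {τ | |‖x.1‖ - ‖τ‖| ≤ δ}) ×ˢ (ann ρ ∩ {τ | |‖x.2‖ - ‖τ‖| ≤ δ}) := by
      ext p
      simp only [mem_inter_iff, mem_prod, mem_ofPred_eq]
      tauto
    rw [e, Measure.volume_eq_prod, measureReal_prod_prod]
    refine (mul_le_mul (vol_shell hρ hδ x.1) (vol_shell hρ hδ x.2) (hnn _) (by positivity)).trans ?_
    have h0 : 0 ≤ Real.pi ^ 2 * δ ^ 2 * ρ ^ 2 := by positivity
    have e2 : 2 * Real.pi * ρ * δ * (2 * Real.pi * ρ * δ) = 4 * (Real.pi ^ 2 * δ ^ 2 * ρ ^ 2) := by ring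
    rw [e2]
    linarith
  · have e : (ann ρ ×ˢ ann ρ) ∩ {p : ℂ × ℂ | ‖x.1 - p.1‖ ≤ δ} =
        (ann ρ ∩ {τ | ‖x.1 - τ‖ ≤ δ}) ×ˢ ann ρ := by
      ext p
      simp only [mem_inter_iff, mem_prod, mem_ofPred_eq]
      tauto
    rw [e, Measure.volume_eq_prod, measureReal_prod_prod, hann]
    refine (mul_le_mul_of_nonneg_right (hsm x.1) (by positivity)).trans ?_
    have h0 : 0 ≤ Real.pi ^ 2 * δ ^ 2 * ρ ^ 2 := by positivity
    have e2 : Real.pi * δ ^ 2 * (3 / 16 * Real.pi * ρ ^ 2) = 3 / 16 * (Real.pi ^ 2 * δ ^ 2 * ρ ^ 2) := by ring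
    rw [e2]
    linarith
  · have e : (ann ρ ×ˢ ann ρ) ∩ {p : ℂ × ℂ | ‖x.2 - p.2‖ ≤ δ} =
        ann ρ ×ˢ (ann ρ ∩ {τ | ‖x.2 - τ‖ ≤ δ}) := by
      ext p
      simp only [mem_inter_iff, mem_prod, mem_ofPred_eq]
      tauto
    rw [e, Measure.volume_eq_prod, measureReal_prod_prod, hann]
    refine (mul_le_mul_of_nonneg_left (hsm x.2) (by positivity)).trans ?_
    have h0 : 0 ≤ Real.pi ^ 2 * δ ^ 2 * ρ ^ 2 := by positivity
    have e2 : (3 / 16 * Real.pi * ρ ^ 2) * (Real.pi * δ ^ 2) = 3 / 16 * (Real.pi ^ 2 * δ ^ 2 * ρ ^ 2) := by ring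
    rw [e2]
    linarith

/-- (Selection lemma, section 8) Proof. On `ann ρ ×ˢ ann ρ ⊂ ℂ × ℂ` consider
`Φ (τ, z) = ∑_(δ ∈ Δ) (1/δ²) ∑_(i ∈ X) w i (1_T + 1_V + 1_H)` with the indicator functions of the three (closed) sets
`T: |‖x i.1‖ - ‖τ‖| ≤ δ ∧ |‖x i.2‖ - ‖z‖| ≤ δ`, `V: ‖(x i).1 - τ‖ ≤ δ`, `H: ‖(x i).2 - z‖ ≤ δ`. The integral of the indicators over
`ann ρ ×ˢ ann ρ` is at most `(2πρδ)²`, `πδ² vol(ann)`, `πδ² vol(ann)` (products of sets, `Measure.volume_eq_prod`, `measureReal_prod_prod`;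
`vol_shell`, `vol_small`), so `⨍ Φ ≤ |Δ| P0 (4π²ρ²/(9π²ρ⁴/256) + 2·16/(3ρ²)) ≤ 1000 |Δ| P0/ρ²`. By `exists_le_setAverage` there is a point with
`Φ ≤ ` the average, and each of the three masses for `δ` is at most `δ² Φ` (all terms are nonnegative). If `Δ` is empty
any point of the annulus will do. -/
theorem selection {ι : Type*} (X : Finset ι) (w : ι → ℝ) (x : ι → ℂ × ℂ) (hw : ∀ i ∈ X, 0 ≤ w i)
    {P0 : ℝ} (hP : ∑ i ∈ X, w i ≤ P0) {ρ : ℝ} (hρ : 0 < ρ) (Δ : Finset ℝ) (hΔ : ∀ δ ∈ Δ, 0 < δ) :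
    ∃ τ₀ z₀ : ℂ, ρ / 4 ≤ ‖τ₀‖ ∧ ‖τ₀‖ ≤ ρ / 2 ∧ ρ / 4 ≤ ‖z₀‖ ∧ ‖z₀‖ ≤ ρ / 2 ∧ ∀ δ ∈ Δ,
      (∀ Y ⊆ X, (∀ i ∈ Y, |‖(x i).1‖ - ‖τ₀‖| ≤ δ ∧ |‖(x i).2‖ - ‖z₀‖| ≤ δ) →
        ∑ i ∈ Y, w i ≤ 1000 * Δ.card * P0 * δ ^ 2 / ρ ^ 2) ∧
      (∀ Y ⊆ X, (∀ i ∈ Y, ‖(x i).1 - τ₀‖ ≤ δ) →
        ∑ i ∈ Y, w i ≤ 1000 * Δ.card * P0 * δ ^ 2 / ρ ^ 2) ∧
      (∀ Y ⊆ X, (∀ i ∈ Y, ‖(x i).2 - z₀‖ ≤ δ) →
        ∑ i ∈ Y, w i ≤ 1000 * Δ.card * P0 * δ ^ 2 / ρ ^ 2) := by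
  classical
  have hpi := Real.pi_pos
  have hann := vol_ann hρ
  have hAr : volume.real (ann ρ ×ˢ ann ρ) = (3 / 16 * Real.pi * ρ ^ 2) * (3 / 16 * Real.pi * ρ ^ 2) := by
    rw [Measure.volume_eq_prod, measureReal_prod_prod, hann]
  have hApos : 0 < volume.real (ann ρ ×ˢ ann ρ) := by
    rw [hAr]
    positivity
  have hA0 : volume (ann ρ ×ˢ ann ρ) ≠ 0 := by
    intro h
    rw [measureReal_def, h, ENNReal.toReal_zero] at hApos
    exact lt_irrefl _ hApos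
  have hA1 : volume (ann ρ ×ˢ ann ρ) ≠ ⊤ := by
    rw [Measure.volume_eq_prod, Measure.prod_prod]
    exact ENNReal.mul_ne_top (sel_ann_top ρ) (sel_ann_top ρ)
  have hP0 : 0 ≤ P0 := (Finset.sum_nonneg hw).trans hP
  obtain ⟨p, hp, hΦ⟩ := sel_avg (Δ ×ˢ X ×ˢ (Finset.univ : Finset (Fin 3))) (fun j => w j.2.1 / j.1 ^ 2)
    (fun j => selS (x j.2.1) j.1 j.2.2) (fun j _ => sel_meas _ _ _) hA0 hA1
  have hbound : (volume.real (ann ρ ×ˢ ann ρ))⁻¹ * ∑ j ∈ Δ ×ˢ X ×ˢ (Finset.univ : Finset (Fin 3)),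
      w j.2.1 / j.1 ^ 2 * volume.real ((ann ρ ×ˢ ann ρ) ∩ selS (x j.2.1) j.1 j.2.2) ≤ 1000 * Δ.card * P0 / ρ ^ 2 := by
    have h1 : ∀ j ∈ Δ ×ˢ X ×ˢ (Finset.univ : Finset (Fin 3)),
        w j.2.1 / j.1 ^ 2 * volume.real ((ann ρ ×ˢ ann ρ) ∩ selS (x j.2.1) j.1 j.2.2) ≤
          w j.2.1 * (120 / ρ ^ 2 * volume.real (ann ρ ×ˢ ann ρ)) := by
      intro j hj
      rw [Finset.mem_product, Finset.mem_product] at hj
      have hd := hΔ _ hj.1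
      have hwj := hw _ hj.2.1
      refine (mul_le_mul_of_nonneg_left (sel_vol hρ hd (x j.2.1) j.2.2) (by positivity)).trans (le_of_eq ?_)
      field_simp
    refine (mul_le_mul_of_nonneg_left (Finset.sum_le_sum h1) (inv_nonneg.2 hApos.le)).trans ?_
    rw [← Finset.sum_mul, Finset.sum_product]
    have h2 : ∀ δ ∈ Δ, ∑ i ∈ X ×ˢ (Finset.univ : Finset (Fin 3)), w i.1 = 3 * ∑ i ∈ X, w i := by
      intro δ _
      rw [Finset.sum_product]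
      simp only [Finset.sum_const, Finset.card_univ, Fintype.card_fin, nsmul_eq_mul]
      rw [← Finset.mul_sum]
      norm_num
    rw [Finset.sum_congr rfl h2, Finset.sum_const, nsmul_eq_mul]
    have e : (volume.real (ann ρ ×ˢ ann ρ))⁻¹ * ((Δ.card : ℝ) * (3 * ∑ i ∈ X, w i) *
        (120 / ρ ^ 2 * volume.real (ann ρ ×ˢ ann ρ))) = 360 * Δ.card * (∑ i ∈ X, w i) / ρ ^ 2 := by
      field_simp
      ring
    rw [e]
    refine div_le_div_of_nonneg_right ?_ (by positivity)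
    have h3 : (Δ.card : ℝ) * (∑ i ∈ X, w i) ≤ Δ.card * P0 := mul_le_mul_of_nonneg_left hP (Nat.cast_nonneg _)
    have h4 : 0 ≤ (Δ.card : ℝ) * P0 := mul_nonneg (Nat.cast_nonneg _) hP0
    nlinarith
  have hnn : ∀ j ∈ Δ ×ˢ X ×ˢ (Finset.univ : Finset (Fin 3)),
      0 ≤ w j.2.1 / j.1 ^ 2 * (selS (x j.2.1) j.1 j.2.2).indicator (fun _ => (1 : ℝ)) p := by
    intro j hj
    rw [Finset.mem_product, Finset.mem_product] at hj
    have hd := hΔ _ hj.1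
    have hwj := hw _ hj.2.1
    refine mul_nonneg (by positivity) (indicator_nonneg (fun _ _ => zero_le_one) _)
  have key : ∀ δ ∈ Δ, ∀ l : Fin 3, ∀ Y ⊆ X, (∀ i ∈ Y, p ∈ selS (x i) δ l) →
      ∑ i ∈ Y, w i ≤ 1000 * Δ.card * P0 * δ ^ 2 / ρ ^ 2 := by
    intro δ hδ l Y hY hYS
    have hd := hΔ δ hδ
    have h1 : ∑ i ∈ Y, w i / δ ^ 2 ≤ ∑ j ∈ Δ ×ˢ X ×ˢ (Finset.univ : Finset (Fin 3)),
        w j.2.1 / j.1 ^ 2 * (selS (x j.2.1) j.1 j.2.2).indicator (fun _ => (1 : ℝ)) p := by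
      have h2 : ∑ i ∈ Y, w i / δ ^ 2 = ∑ j ∈ Y.map ⟨fun i => ((δ, i, l) : ℝ × ι × Fin 3), fun a b h => by
          simpa using h⟩, w j.2.1 / j.1 ^ 2 * (selS (x j.2.1) j.1 j.2.2).indicator (fun _ => (1 : ℝ)) p := by
        rw [Finset.sum_map]
        refine Finset.sum_congr rfl fun i hi => ?_
        simp only [Function.Embedding.coeFn_mk]
        rw [indicator_of_mem (hYS i hi), mul_one]
      rw [h2]
      refine Finset.sum_le_sum_of_subset_of_nonneg ?_ fun j hj _ => hnn j hj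
      intro j hj
      rw [Finset.mem_map] at hj
      obtain ⟨i, hi, rfl⟩ := hj
      simp only [Function.Embedding.coeFn_mk, Finset.mem_product, Finset.mem_univ, and_true]
      exact ⟨hδ, hY hi⟩
    have h3 := h1.trans (hΦ.trans hbound)
    rw [← Finset.sum_div, div_le_iff₀ (by positivity)] at h3
    refine h3.trans (le_of_eq ?_)
    ring
  refine ⟨p.1, p.2, hp.1.1, hp.1.2, hp.2.1, hp.2.2, fun δ hδ => ⟨fun Y hY h => key δ hδ 0 Y hY ?_,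
    fun Y hY h => key δ hδ 1 Y hY ?_, fun Y hY h => key δ hδ 2 Y hY ?_⟩⟩
  · intro i hi
    exact h i hi
  · intro i hi
    exact h i hi
  · intro i hi
    exact h i hi

end H9F
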