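import Pool.Agent.Lib.H9F.Q1
import Pool.Agent.Lib.H9F.N10
import Pool.Agent.Lib.H9F.Sel

/-!
# H9F Q5: there are quiet tori
-/

open scoped BigOperators Topology
open Set Filter

noncomputable section

namespace H9F

open Fermi

variable {M : ℝ} {μ : ℂ} {P : Big M μ}

/-- total mass of the resonant pairs (`pair_sum`, `InI.gs_le`) -/
theorem pair_mass {p : Cd 3} {E : Frm} (h : SL P p E) (X : Finset (Zd 3 × Zd 3))
    (hX : ∀ i ∈ X, InI P E p i) : ∑ i ∈ X, 1 / nz (i.2 - i.1) ^ 2 ≤ 1 / P.b ^ 238 :=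
  pair_sum (h.yy.mono (by norm_num)) h.nf X
    (fun i hi => ⟨(hX i hi).ne, (hX i hi).h1, (hX i hi).h2, (hX i hi).gs_le⟩)

/-- the grid of scales `ρ 2^-j`, `j < 2 J + 1` -/
def grid (P : Big M μ) : Finset ℝ :=
  (Finset.range (2 * P.J + 1)).image (fun j : ℕ => P.rho / 2 ^ j)

/-- at most `3 b` scales, all positive, and every `δ ∈ [1/R², ρ]` is within a factor 2 below a scale of the grid
(`R² ρ ≤ b^24002 ≤ 2^(2J)`). -/
theorem grid_props (P : Big M μ) : ((grid P).card : ℝ) ≤ 3 * P.b ∧ (∀ δ ∈ grid P, 0 < δ) ∧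
    ∀ R δ : ℝ, 1 ≤ R → R ≤ P.b ^ 12001 → 1 / R ^ 2 ≤ δ → δ ≤ P.rho → ∃ δ' ∈ grid P, δ ≤ δ' ∧ δ' ≤ 2 * δ := by
  refine ⟨?_, ?_, ?_⟩
  · have h1 : (grid P).card ≤ 2 * P.J + 1 := by
      refine Finset.card_image_le.trans ?_
      rw [Finset.card_range]
    have h2 : ((grid P).card : ℝ) ≤ 2 * P.J + 1 := by exact_mod_cast h1
    have h3 := P.J_le_b
    have h4 := P.one_le_b
    linarith
  · intro δ hδ
    obtain ⟨j, -, rfl⟩ := Finset.mem_image.1 hδ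
    exact div_pos P.rho_pos (by positivity)
  · intro R δ hR1 hR2 hδ1 hδ2
    have hR0 : 0 < R := by linarith
    have hδ0 : 0 < δ := lt_of_lt_of_le (by positivity) hδ1
    obtain ⟨j, hj1, hj2⟩ := exists_nat_pow_near (x := P.rho / δ) (y := (2 : ℝ))
      (by rw [le_div_iff₀ hδ0]; linarith) one_lt_two
    have hp : (0 : ℝ) < 2 ^ j := by positivity
    refine ⟨P.rho / 2 ^ j, ?_, ?_, ?_⟩
    · refine Finset.mem_image_of_mem (fun j : ℕ => P.rho / 2 ^ j) (Finset.mem_range.2 ?_)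
      rw [Nat.lt_add_one_iff]
      have h1 : (2 : ℝ) ^ j ≤ 2 ^ (2 * P.J) := by
        calc (2 : ℝ) ^ j ≤ P.rho / δ := hj1
          _ ≤ 1 / δ := div_le_div_of_nonneg_right P.rho_le_one hδ0.le
          _ ≤ R ^ 2 := by
              rw [div_le_iff₀ hδ0]
              rw [div_le_iff₀ (by positivity)] at hδ1
              linarith
          _ ≤ (P.b ^ 12001) ^ 2 := pow_le_pow_left₀ hR0.le hR2 2
          _ = P.b ^ 24002 := by rw [← pow_mul]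
          _ ≤ P.b ^ 26000 := P.pow_le (by norm_num)
          _ = (P.b ^ 13000) ^ 2 := by rw [← pow_mul]
          _ ≤ (2 ^ P.J) ^ 2 := pow_le_pow_left₀ (P.pow_pos _).le P.b_pow_le_two 2
          _ = 2 ^ (2 * P.J) := by rw [← pow_mul, mul_comm]
      exact (pow_le_pow_iff_right₀ one_lt_two).1 h1
    · rw [le_div_iff₀ hp]
      rw [le_div_iff₀ hδ0] at hj1
      linarith
    · rw [div_le_iff₀ hp]
      rw [div_lt_iff₀ hδ0, pow_succ] at hj2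
      linarith

/-- Quiet tori. Proof: `selection` with `X` = all pairs in `I` (finite, `SL.finite_InI`), weights `1/nz²`, positions `xm`, `P0 = 1/b^238` (`pair_mass`), `Δ = grid P`.
For a point `x` of `T ∪ V ∪ H` and `δ ∈ [1/R², ρ]` take `δ' ∈ grid`, `δ ≤ δ' ≤ 2δ`: a pair with `xm` within `δ` of `x` is counted in the mass of `T` (resp. `V`, `H`)
for `δ'` (reverse triangle inequality), which is `≤ 1000 · 3b · b^-238 · 4δ² b^200 ≤ δ²/b^35`. -/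
theorem quiet_exists {p : Cd 3} {E : Frm} (h : SL P p E) : ∃ τ₀ z₀ : ℂ,
    P.rho / 4 ≤ ‖τ₀‖ ∧ ‖τ₀‖ ≤ P.rho / 2 ∧ P.rho / 4 ≤ ‖z₀‖ ∧ ‖z₀‖ ≤ P.rho / 2 ∧
    (∀ τ z : ℂ, ‖τ‖ = ‖τ₀‖ → ‖z‖ = ‖z₀‖ → Quiet P E p (τ, z)) ∧
    (∀ z : ℂ, Quiet P E p (τ₀, z)) ∧ (∀ τ : ℂ, Quiet P E p (τ, z₀)) := by
  classical
  obtain ⟨hcard, hpos, hgrid⟩ := grid_props P
  obtain ⟨τ₀, z₀, h1, h2, h3, h4, hsel⟩ := selection h.finite_InI.toFinset
    (fun i : Zd 3 × Zd 3 => 1 / nz (i.2 - i.1) ^ 2) (xm P E p)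
    (fun i _ => by positivity) (P0 := 1 / P.b ^ 238)
    (pair_mass h _ (fun i hi => (Set.Finite.mem_toFinset _).1 hi)) P.rho_pos (grid P) hpos
  refine ⟨τ₀, z₀, h1, h2, h3, h4, ?_⟩
  have hb0 := P.b_pos
  have hb1 := P.one_le_b
  have hR1 : 1 ≤ nr (im p) := by
    have h5 := h.yy.lo
    have h6 : P.b ≤ P.b ^ 10000 := le_self_pow₀ hb1 (by norm_num)
    have h7 := P.b_ge
    have h8 : (2 : ℝ) ≤ 10 ^ 36 := by norm_num
    linarith
  have hR2 : nr (im p) ≤ P.b ^ 12001 :=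
    h.yy.hi.trans (P.mul_pow_le (by norm_num) (by norm_num))
  have hbound : ∀ δ δ' : ℝ, 0 ≤ δ → 0 ≤ δ' → δ' ≤ 2 * δ →
      1000 * ((grid P).card : ℝ) * (1 / P.b ^ 238) * δ' ^ 2 / P.rho ^ 2 ≤ δ ^ 2 / P.b ^ 35 := by
    intro δ δ' hδ hδ' hle
    have e1 : P.rho ^ 2 = 1 / P.b ^ 200 := by
      unfold Big.rho
      rw [inv_pow, ← pow_mul, one_div]
    have e2 : 12000 * P.b ^ 1 ≤ P.b ^ 3 := P.mul_pow_le (by norm_num) (by norm_num)
    have e3 : δ' ^ 2 ≤ 4 * δ ^ 2 := by nlinarith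
    have e4 : 1000 * ((grid P).card : ℝ) * (1 / P.b ^ 238) * δ' ^ 2 / P.rho ^ 2 =
        1000 * ((grid P).card : ℝ) * δ' ^ 2 * (P.b ^ 200 / P.b ^ 238) := by
      rw [e1]; field_simp
    have e5 : P.b ^ 200 / P.b ^ 238 = 1 / (P.b ^ 3 * P.b ^ 35) := by
      rw [div_eq_div_iff (P.pow_pos _).ne' (by positivity), ← pow_add, ← pow_add, one_mul]
    rw [e4, e5]
    have e6 : 1000 * ((grid P).card : ℝ) * δ' ^ 2 ≤ 1000 * (3 * P.b) * (4 * δ ^ 2) := by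
      apply mul_le_mul _ e3 (sq_nonneg _) (by positivity)
      linarith
    calc 1000 * ((grid P).card : ℝ) * δ' ^ 2 * (1 / (P.b ^ 3 * P.b ^ 35))
        ≤ 1000 * (3 * P.b) * (4 * δ ^ 2) * (1 / (P.b ^ 3 * P.b ^ 35)) :=
          mul_le_mul_of_nonneg_right e6 (by positivity)
      _ = (12000 * P.b ^ 1) * (δ ^ 2 * (1 / (P.b ^ 3 * P.b ^ 35))) := by ring
      _ ≤ P.b ^ 3 * (δ ^ 2 * (1 / (P.b ^ 3 * P.b ^ 35))) :=
          mul_le_mul_of_nonneg_right e2 (by positivity)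
      _ = δ ^ 2 / P.b ^ 35 := by
          have h9 := (P.pow_pos 3).ne'
          have h10 := (P.pow_pos 35).ne'
          generalize P.b ^ 3 = u at *
          generalize P.b ^ 35 = v at *
          field_simp
  have hsub : ∀ X : Finset (Zd 3 × Zd 3), (∀ i ∈ X, InI P E p i) →
      X ⊆ h.finite_InI.toFinset := fun X hX i hi => (Set.Finite.mem_toFinset _).2 (hX i hi)
  refine ⟨?_, ?_, ?_⟩
  · intro τ z hτ hz X δ hδ1 hδ2 hX
    obtain ⟨δ', hδ', hle1, hle2⟩ := hgrid _ δ hR1 hR2 hδ1 hδ2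
    have hδ0 : 0 ≤ δ := le_trans (by positivity) hδ1
    refine ((hsel δ' hδ').1 X (hsub X fun i hi => (hX i hi).1) ?_).trans
      (hbound δ δ' hδ0 (hpos δ' hδ').le hle2)
    intro i hi
    obtain ⟨-, hi1, hi2⟩ := hX i hi
    refine ⟨?_, ?_⟩
    · rw [← hτ]
      exact (abs_norm_sub_norm_le _ _).trans (hi1.trans hle1)
    · rw [← hz]
      exact (abs_norm_sub_norm_le _ _).trans (hi2.trans hle1)
  · intro z X δ hδ1 hδ2 hX
    obtain ⟨δ', hδ', hle1, hle2⟩ := hgrid _ δ hR1 hR2 hδ1 hδ2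
    have hδ0 : 0 ≤ δ := le_trans (by positivity) hδ1
    exact ((hsel δ' hδ').2.1 X (hsub X fun i hi => (hX i hi).1)
      (fun i hi => (hX i hi).2.1.trans hle1)).trans (hbound δ δ' hδ0 (hpos δ' hδ').le hle2)
  · intro τ X δ hδ1 hδ2 hX
    obtain ⟨δ', hδ', hle1, hle2⟩ := hgrid _ δ hR1 hR2 hδ1 hδ2
    have hδ0 : 0 ≤ δ := le_trans (by positivity) hδ1
    exact ((hsel δ' hδ').2.2 X (hsub X fun i hi => (hX i hi).1)
      (fun i hi => (hX i hi).2.2.trans hle1)).trans (hbound δ δ' hδ0 (hpos δ' hδ').le hle2)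

end H9F
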