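import Pool.Agent.Lib.H9F.Q1
import Pool.Agent.Lib.H9F.N6

/-!
# H9F T1: lines of a slice are not contained in `F`; disc lemma for `X_A`
-/

open scoped BigOperators Topology
open Set Filter

noncomputable section

namespace H9F

open Fermi

variable {M : ℝ} {μ : ℂ} {P : Big M μ} {F A B : Set (Cd 3)}

/-- Disc lemma: the boundaries of the discs do not meet `X_A`. Proof: `a1_path` (Fermi/SCV) with `K = S = closedBall 0 ρ`, exactly as
`disc_path` there (boundary points are not in `XX F A`, `hn` replaces the boundary point outside `F`). -/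
theorem disc_pathX (D : Decomp F A B) (c : ℝ → Cd 3) (hc : ContinuousOn c (Icc 0 1)) (v : Cd 3)
    {ρ : ℝ} (hρ : 0 < ρ)
    (hb : ∀ t ∈ Icc (0 : ℝ) 1, ∀ z : ℂ, ‖z‖ = ρ → c t + z • v ∉ XX F A)
    (hn : ∀ t ∈ Icc (0 : ℝ) 1, ∃ z : ℂ, c t + z • v ∉ F)
    (h0 : ∃ z : ℂ, ‖z‖ ≤ ρ ∧ c 0 + z • v ∈ XX F A) :
    ∀ t ∈ Icc (0 : ℝ) 1, ∃ z : ℂ, ‖z‖ < ρ ∧ c t + z • v ∈ XX F A := by
  have hlt : ∀ t ∈ Icc (0 : ℝ) 1, ∀ z : ℂ, ‖z‖ ≤ ρ → c t + z • v ∈ XX F A → ‖z‖ < ρ := by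
    intro t ht z hz hX
    rcases hz.eq_or_lt with h1 | h1
    · exact absurd hX (hb t ht z h1)
    · exact h1
  have hmem : ∀ z : ℂ, z ∈ Metric.closedBall (0 : ℂ) ρ ↔ ‖z‖ ≤ ρ := fun z => by
    rw [Metric.mem_closedBall, dist_zero_right]
  have h1 := a1_path D c hc v (Metric.closedBall 0 ρ) (isCompact_closedBall _ _) (Metric.closedBall 0 ρ)
    subset_rfl (fun t _ z hz hX => ⟨z, hz, hX⟩) (fun t ht z hz hX => by
      have h2 := hlt t ht z ((hmem z).mp hz) hX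
      exact Metric.closedBall_mem_nhds_of_mem (by rw [Metric.mem_ball, dist_zero_right]; exact h2))
    hn
    (by obtain ⟨z, hz, hX⟩ := h0; exact ⟨z, (hmem z).mpr hz, hX⟩)
  intro t ht
  obtain ⟨z, hz, hX⟩ := h1 t ht
  exact ⟨z, hlt t ht z ((hmem z).mp hz) hX, hX⟩


/-- Real numbers in `[0, ρ]` outside finitely many short sets: if `N` sets of diameter `≤ δ`, `N δ < ρ`, cover, contradiction.
Statement: if every `x ∈ [0,ρ]` satisfies `∃ n ∈ X, Q n x` and for each `n`, `Q n x ∧ Q n x' → |x - x'| ≤ δ`, then `ρ ≤ #X δ`. -/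
theorem cover_card {ι : Type*} (X : Finset ι) (Q : ι → ℝ → Prop) {ρ δ : ℝ} (hδ : 0 ≤ δ)
    (hc : ∀ x : ℝ, 0 ≤ x → x ≤ ρ → ∃ n ∈ X, Q n x)
    (hd : ∀ n ∈ X, ∀ x x', Q n x → Q n x' → |x - x'| ≤ δ) : ρ ≤ 2 * (X.card : ℝ) * δ := by
  classical
  set a : ι → ℝ := fun n => if h : ∃ x, Q n x then h.choose else 0 with ha
  have haQ : ∀ n x, Q n x → Q n (a n) := by
    intro n x hx
    have h : ∃ x, Q n x := ⟨x, hx⟩
    rw [ha]
    simp only
    rw [dif_pos h]
    exact h.choose_spec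
  have hsub : Icc (0 : ℝ) ρ ⊆ ⋃ n ∈ X, Icc (a n - δ) (a n + δ) := by
    intro x hx
    obtain ⟨n, hn, hQ⟩ := hc x hx.1 hx.2
    have h1 := hd n hn x (a n) hQ (haQ n x hQ)
    rw [abs_le] at h1
    simp only [mem_iUnion]
    exact ⟨n, hn, by linarith [h1.1], by linarith [h1.2]⟩
  have hvol := (MeasureTheory.measure_mono (μ := MeasureTheory.volume) hsub).trans
    (MeasureTheory.measure_biUnion_finset_le X _)
  simp only [Real.volume_Icc] at hvol
  have h2 : ∀ n, a n + δ - (a n - δ) = 2 * δ := fun n => by ring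
  simp only [h2, sub_zero, Finset.sum_const, nsmul_eq_mul] at hvol
  have h3 : ((X.card : ENNReal)) * ENNReal.ofReal (2 * δ) = ENNReal.ofReal ((X.card : ℝ) * (2 * δ)) := by
    rw [← ENNReal.ofReal_natCast, ← ENNReal.ofReal_mul (by positivity)]
  rw [h3] at hvol
  have h4 := (ENNReal.ofReal_le_ofReal_iff (by positivity)).1 hvol
  linarith


/-- common part of `lineV_notF`, `lineH_notF` -/
theorem t1_line (hF : Fsh μ M F) {p : Cd 3} {E : Frm} (h : SL P p E) (τf zf : ℝ → ℂ)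
    (hb : ∀ x ∈ Icc 0 P.rho, ‖τf x‖ ≤ P.rho ∧ ‖zf x‖ ≤ P.rho)
    (hd : ∀ n, ‖q μ p n‖ ≤ 100 * nr (im p) * P.rho → ∀ x ∈ Icc 0 P.rho, ∀ x' ∈ Icc 0 P.rho,
      ‖q μ (E.pt p (τf x) (zf x)) n‖ ≤ 4 * M + 8 → ‖q μ (E.pt p (τf x') (zf x')) n‖ ≤ 4 * M + 8 →
      |x - x'| ≤ 6 / 5 * (4 * M + 8) / nr (im p)) :
    ∃ x ∈ Icc 0 P.rho, E.pt p (τf x) (zf x) ∉ F := by
  classical
  by_contra hcon
  push Not at hcon
  have hM := P.M_nonneg
  have hy : YY P 4 (im p) := h.yy.mono (by norm_num)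
  have hR := hy.R_pos
  have hρ := P.rho_pos
  have hb1 := P.one_le_b
  have hc0 : 4 * M + 8 ≤ P.b := by
    have h1 := P.c0_le
    have h2 := P.K_le
    have h3 := P.K_pos
    unfold Big.c0 at h1
    nlinarith
  have hRρ : P.b ≤ nr (im p) * P.rho := by
    have h1 := hy.R_ge
    have h2 := P.rho_eq 1
    have h3 : P.b ^ (1 + 100) ≤ nr (im p) := (P.pow_le (by norm_num)).trans h1
    rw [pow_one] at h2
    rw [← h2, mul_comm]
    exact mul_le_mul_of_nonneg_right h3 hρ.le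
  set X := h.finite_lam.toFinset with hX
  have hmem : ∀ n, n ∈ X ↔ ‖q μ p n‖ ≤ 100 * nr (im p) * P.rho := by
    intro n
    rw [hX, Set.Finite.mem_toFinset]
    rfl
  have hcard := card_Lam hy X (fun n hn => ((hmem n).1 hn).trans (by nlinarith))
  have hcov := cover_card X (fun n x => x ∈ Icc 0 P.rho ∧ ‖q μ (E.pt p (τf x) (zf x)) n‖ ≤ 4 * M + 8)
    (ρ := P.rho) (δ := 6 / 5 * (4 * M + 8) / nr (im p)) (by positivity) (fun x hx0 hx1 => by
      have hxm : x ∈ Icc 0 P.rho := ⟨hx0, hx1⟩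
      obtain ⟨h1, h2⟩ := hb x hxm
      have h3 := hcon x hxm
      by_contra h4
      push Not at h4
      refine hF.far _ (fun n => ?_) h3
      by_contra h5
      push Not at h5
      have h6 := h.lam (n := n) (τ := τf x) (z := zf x) (by linarith) (by linarith) (by nlinarith)
      have h7 := h4 n ((hmem n).2 h6) hxm
      linarith) (fun n hn x x' hx hx' => hd n ((hmem n).1 hn) x hx.1 x' hx'.1 hx.2 hx'.2)
  have h1 : 2 * (X.card : ℝ) * (6 / 5 * (4 * M + 8) / nr (im p)) ≤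
      2 * (nr (im p) / P.b ^ 199) * (6 / 5 * (4 * M + 8) / nr (im p)) :=
    mul_le_mul_of_nonneg_right (by linarith) (by positivity)
  have hb199 := P.pow_pos 199
  have h2 : 2 * (nr (im p) / P.b ^ 199) * (6 / 5 * (4 * M + 8) / nr (im p)) = 12 / 5 * (4 * M + 8) / P.b ^ 199 := by
    field_simp
    ring
  have h3 : 12 / 5 * (4 * M + 8) / P.b ^ 199 < P.rho := by
    rw [div_lt_iff₀ hb199]
    have h4 := P.rho_eq 99
    have h5 : P.b ^ (99 + 100) = P.b ^ 199 := by norm_num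
    rw [h5] at h4
    rw [h4]
    have h6 : 10 * P.b ^ 1 ≤ P.b ^ 99 := P.mul_pow_le (by norm_num) (by norm_num)
    rw [pow_one] at h6
    linarith
  linarith

/-- Vertical lines. Proof: if `pt p τ x ∈ F` for all real `x ∈ [0, ρ]`, then for each `x` some `|q_n| < 4M+8` (`hF.far`), `n ∈ Λ` (`SL.lam`),
and `|x - zet μ E (p+n) τ| ≤ 3/5 (4M+8)/R` (`zet_near`); `#Λ ≤ R/b^199` (`card_Lam`), so `ρ ≤ 2 (R/b^199) · 2(4M+8)/R < ρ` (`cover_card`). -/
theorem lineV_notF (hF : Fsh μ M F) {p : Cd 3} {E : Frm} (h : SL P p E) {τ : ℂ} (hτ : ‖τ‖ ≤ P.rho) :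
    ∃ z : ℂ, E.pt p τ z ∉ F := by
  have hy : YY P 4 (im p) := h.yy.mono (by norm_num)
  have hR := hy.R_pos
  have hρ := P.rho_pos
  obtain ⟨x, _, hx⟩ := t1_line hF h (fun _ => τ) (fun x => (x : ℂ)) (fun x hx => ⟨hτ, by
    rw [Complex.norm_real, Real.norm_eq_abs, abs_of_nonneg hx.1]
    exact hx.2⟩) (fun n hn x hx x' hx' h1 h2 => by
      have hN := (h.nrc (n := n) hn (τ := 0) (z := 0) (by rw [norm_zero]; linarith) (by rw [norm_zero]; linarith)).1
      rw [pt_zero] at hN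
      have hτ' : ‖τ‖ ≤ nr (im p) / 1000 := by
        have h3 := hN.hR
        have h4 := P.rho_le_one
        linarith
      have e1 := hN.zet_near (z := (x : ℂ)) hτ'
      have e2 := hN.zet_near (z := (x' : ℂ)) hτ'
      rw [← q_pt] at e1 e2
      have e3 : 3 / 5 * ‖q μ (E.pt p τ x) n‖ / nr (im p) ≤ 3 / 5 * (4 * M + 8) / nr (im p) :=
        div_le_div_of_nonneg_right (by linarith) hR.le
      have e4 : 3 / 5 * ‖q μ (E.pt p τ x') n‖ / nr (im p) ≤ 3 / 5 * (4 * M + 8) / nr (im p) :=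
        div_le_div_of_nonneg_right (by linarith) hR.le
      have e5 : ‖(x : ℂ) - (x' : ℂ)‖ = |x - x'| := by
        rw [← Complex.ofReal_sub, Complex.norm_real, Real.norm_eq_abs]
      rw [← e5]
      have e6 : (x : ℂ) - (x' : ℂ) = ((x : ℂ) - zet μ E (p + zc n) τ) - ((x' : ℂ) - zet μ E (p + zc n) τ) := by ring
      rw [e6]
      refine (norm_sub_le _ _).trans ?_
      have e7 : 6 / 5 * (4 * M + 8) / nr (im p) = 3 / 5 * (4 * M + 8) / nr (im p) + 3 / 5 * (4 * M + 8) / nr (im p) := by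
        ring
      rw [e7]
      exact add_le_add (e1.trans e3) (e2.trans e4))
  exact ⟨_, hx⟩


/-- Horizontal lines: `q_n(pt p τ z) - q_n(pt p τ' z) = 2(α - 2z)(τ - τ')`, `|α - 2z| ≥ .98 R`. -/
theorem lineH_notF (hF : Fsh μ M F) {p : Cd 3} {E : Frm} (h : SL P p E) {z : ℂ} (hz : ‖z‖ ≤ P.rho) :
    ∃ τ : ℂ, E.pt p τ z ∉ F := by
  have hy : YY P 4 (im p) := h.yy.mono (by norm_num)
  have hR := hy.R_pos
  have hρ := P.rho_pos
  have hM := P.M_nonneg
  obtain ⟨x, _, hx⟩ := t1_line hF h (fun x => (x : ℂ)) (fun _ => z) (fun x hx => ⟨by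
    rw [Complex.norm_real, Real.norm_eq_abs, abs_of_nonneg hx.1]
    exact hx.2, hz⟩) (fun n hn x hx x' hx' h1 h2 => by
      have hN := (h.nrc (n := n) hn (τ := 0) (z := 0) (by rw [norm_zero]; linarith) (by rw [norm_zero]; linarith)).1
      rw [pt_zero] at hN
      have hz' : ‖z‖ ≤ nr (im p) / 1000 := by
        have h3 := hN.hR
        have h4 := P.rho_le_one
        linarith
      have e0 := hN.alpha.1
      have e1 : q μ (E.pt p x z) n - q μ (E.pt p x' z) n = 2 * ((x : ℂ) - x') * (bil (p + zc n) E.U - 2 * z) := by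
        rw [q_pt μ E p (x : ℂ) z n, q_pt μ E p (x' : ℂ) z n, q0_pt, q0_pt]
        ring
      have e2 : ‖q μ (E.pt p x z) n - q μ (E.pt p x' z) n‖ ≤ 2 * (4 * M + 8) :=
        (norm_sub_le _ _).trans (by linarith)
      rw [e1, norm_mul, norm_mul, Complex.norm_two] at e2
      have e5 : ‖(x : ℂ) - (x' : ℂ)‖ = |x - x'| := by
        rw [← Complex.ofReal_sub, Complex.norm_real, Real.norm_eq_abs]
      rw [e5] at e2
      have e6 : 98 / 100 * nr (im p) ≤ ‖bil (p + zc n) E.U - 2 * z‖ := by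
        have h3 : ‖bil (p + zc n) E.U‖ ≤ ‖bil (p + zc n) E.U - 2 * z‖ + ‖2 * z‖ := by
          simpa using norm_add_le (bil (p + zc n) E.U - 2 * z) (2 * z)
        rw [norm_mul, Complex.norm_two] at h3
        linarith
      rw [le_div_iff₀ hR]
      have e7 : 2 * |x - x'| * (98 / 100 * nr (im p)) ≤ 2 * |x - x'| * ‖bil (p + zc n) E.U - 2 * z‖ :=
        mul_le_mul_of_nonneg_left e6 (by positivity)
      nlinarith)
  exact ⟨_, hx⟩


end H9F
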