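import Pool.Agent.Lib.H9F.W6

/-!
# H9F W7: the two components (complete)
-/

open scoped BigOperators Topology
open Set Filter

noncomputable section

namespace H9F

open Fermi

variable {M : ℝ} {μ : ℂ} {P : Big M μ}

/-- the main theorem for `Fsh`, from the torus trick for one of the two parts at every scale -/
theorem main_dec {F A B : Set (Cd 3)} (hM : 0 ≤ M) (hF : Fsh μ M F) (D : Decomp F A B)
    (h : ∀ P : Big M μ, TN P F A ∨ TN P F B) : F ⊆ A ∨ F ⊆ B := by
  have key : ∀ A' : Set (Cd 3), XX F A' = ∅ → F ⊆ A' := by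
    intro A' h1 x hx
    by_contra h2
    have h3 : x ∈ XX F A' := subset_closure ⟨hx, h2⟩
    rw [h1] at h3
    exact h3
  by_contra hcon
  push Not at hcon
  obtain ⟨h1, h2⟩ := hcon
  have h3 : (XX F A).Nonempty := by
    rw [Set.nonempty_iff_ne_empty]
    exact fun h4 => h1 (key A h4)
  have h4 : (XX F B).Nonempty := by
    rw [Set.nonempty_iff_ne_empty]
    exact fun h5 => h2 (key B h5)
  obtain ⟨p, hp⟩ := h3
  obtain ⟨p', hp'⟩ := h4
  obtain ⟨P, hP⟩ := Big.exists M μ hM (max (nr (im p)) (nr (im p')))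
  rcases h P with h5 | h5
  · exact near_real hF D h5 ((le_max_left _ _).trans hP) hp
  · exact near_real hF D.symm h5 ((le_max_right _ _).trans hP) hp'

end H9F
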