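import Pool.Agent.Lib.H9F.Q4
import Pool.Agent.Lib.H9F.Q5
import Pool.Agent.Lib.H9F.T1
import Pool.Agent.Lib.H9F.C6
import Pool.Agent.Lib.H9F.N8
import Pool.Agent.Lib.H9F.W7

/-!
# H9F T2: the torus trick; main theorem for `Fsh`
-/

open scoped BigOperators Topology
open Set Filter

noncomputable section

namespace H9F

open Fermi

variable {M : ℝ} {μ : ℂ} {P : Big M μ} {F A B : Set (Cd 3)}

/-- The torus trick. Proof. `τ₀, z₀` from `hq`. (1) `V(τ₀) = {pt p τ₀ z : ‖z‖ ≤ ‖z₀‖}` does not meet `X_A`. For `‖τ‖ = ‖τ₀‖`, `τ = e^{iθ}τ₀`: the discs `V(e^{iθt}τ₀)`,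
direction `E.V`, radius `‖z₀‖`, have boundaries in `T`: `disc_pathX` (from `t = 1` to `t = 0`) gives `V(τ) ∩ X_A = ∅` for all `‖τ‖ = ‖τ₀‖`.
(2) In the same way `H(z) = {pt p τ z : ‖τ‖ ≤ ‖τ₀‖}` (direction `E.U`, radius `‖τ₀‖`) does not meet `X_A` for all `‖z‖ = ‖z₀‖`.
(3) The discs `V(s τ₀)`, `s ∈ [0,1]`: their boundary points `pt p (sτ₀) z`, `‖z‖ = ‖z₀‖`, lie in `H(z)`. `disc_pathX` from `s = 0` to `s = 1`: if `p ∈ X_A` then `V(τ₀)`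
meets `X_A`, contradiction. (No line in `F`: `hV`, `hH`.) -/
theorem torus_trick (D : Decomp F A B) (E : Frm) (p : Cd 3) {ρ : ℝ} (τ₀ z₀ : ℂ) (hτ₀ : 0 < ‖τ₀‖)
    (hz₀ : 0 < ‖z₀‖) (hτ₀' : ‖τ₀‖ ≤ ρ) (hz₀' : ‖z₀‖ ≤ ρ)
    (hT : ∀ τ z : ℂ, ‖τ‖ = ‖τ₀‖ → ‖z‖ = ‖z₀‖ → E.pt p τ z ∉ XX F A)
    (hV : ∀ z : ℂ, ‖z‖ ≤ ‖z₀‖ → E.pt p τ₀ z ∉ XX F A)
    (hH : ∀ τ : ℂ, ‖τ‖ ≤ ‖τ₀‖ → E.pt p τ z₀ ∉ XX F A)
    (hnV : ∀ τ : ℂ, ‖τ‖ ≤ ρ → ∃ z : ℂ, E.pt p τ z ∉ F)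
    (hnH : ∀ z : ℂ, ‖z‖ ≤ ρ → ∃ τ : ℂ, E.pt p τ z ∉ F) : p ∉ XX F A := by
  have hexp : ∀ w w₀ : ℂ, 0 < ‖w₀‖ → ‖w‖ = ‖w₀‖ → ∃ θ : ℝ, w = Complex.exp ((θ : ℂ) * Complex.I) * w₀ := by
    intro w w₀ h0 hw
    have hw0 : w₀ ≠ 0 := norm_pos_iff.1 h0
    refine ⟨Complex.arg (w / w₀), ?_⟩
    have h1 := Complex.norm_mul_exp_arg_mul_I (w / w₀)
    rw [norm_div, hw, div_self h0.ne', Complex.ofReal_one, one_mul] at h1
    rw [h1, div_mul_cancel₀ _ hw0]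
  have hnorm : ∀ (x : ℝ) (w₀ : ℂ), ‖Complex.exp ((x : ℂ) * Complex.I) * w₀‖ = ‖w₀‖ := by
    intro x w₀
    rw [norm_mul, Complex.norm_exp_ofReal_mul_I, one_mul]
  -- (1)
  have h1 : ∀ τ z : ℂ, ‖τ‖ = ‖τ₀‖ → ‖z‖ ≤ ‖z₀‖ → E.pt p τ z ∉ XX F A := by
    intro τ z hτ hz hX
    obtain ⟨θ, hθ⟩ := hexp τ τ₀ hτ₀ hτ
    have hpt : ∀ (w z : ℂ), E.pt p w 0 + z • E.V = E.pt p w z := by
      intro w z
      unfold Frm.pt
      rw [zero_smul, add_zero]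
    obtain ⟨z', hz', hX'⟩ := disc_pathX D
      (fun t : ℝ => E.pt p (Complex.exp (((θ * (1 - t) : ℝ) : ℂ) * Complex.I) * τ₀) 0)
      (by unfold Frm.pt; fun_prop) E.V hz₀
      (fun t _ z hz => by
        rw [hpt]
        exact hT _ _ (hnorm _ _) hz)
      (fun t _ => by
        obtain ⟨z, hz⟩ := hnV (Complex.exp (((θ * (1 - t) : ℝ) : ℂ) * Complex.I) * τ₀) (by rw [hnorm]; exact hτ₀')
        exact ⟨z, by rw [hpt]; exact hz⟩)
      ⟨z, hz, by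
        rw [hpt]
        have h2 : θ * (1 - 0) = θ := by ring
        rw [h2, ← hθ]
        exact hX⟩ 1 ⟨zero_le_one, le_rfl⟩
    rw [hpt] at hX'
    have h2 : θ * (1 - 1) = 0 := by ring
    rw [h2, Complex.ofReal_zero, zero_mul, Complex.exp_zero, one_mul] at hX'
    exact hV z' hz'.le hX'
  -- (2)
  have h2 : ∀ τ z : ℂ, ‖z‖ = ‖z₀‖ → ‖τ‖ ≤ ‖τ₀‖ → E.pt p τ z ∉ XX F A := by
    intro τ z hz hτ hX
    obtain ⟨θ, hθ⟩ := hexp z z₀ hz₀ hz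
    have hpt : ∀ (w τ : ℂ), E.pt p 0 w + τ • E.U = E.pt p τ w := by
      intro w τ
      unfold Frm.pt
      rw [zero_smul, add_zero]
      abel
    obtain ⟨τ', hτ', hX'⟩ := disc_pathX D
      (fun t : ℝ => E.pt p 0 (Complex.exp (((θ * (1 - t) : ℝ) : ℂ) * Complex.I) * z₀))
      (by unfold Frm.pt; fun_prop) E.U hτ₀
      (fun t _ τ hτ => by
        rw [hpt]
        exact hT _ _ hτ (hnorm _ _))
      (fun t _ => by
        obtain ⟨τ, hτ⟩ := hnH (Complex.exp (((θ * (1 - t) : ℝ) : ℂ) * Complex.I) * z₀) (by rw [hnorm]; exact hz₀')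
        exact ⟨τ, by rw [hpt]; exact hτ⟩)
      ⟨τ, hτ, by
        rw [hpt]
        have h2 : θ * (1 - 0) = θ := by ring
        rw [h2, ← hθ]
        exact hX⟩ 1 ⟨zero_le_one, le_rfl⟩
    rw [hpt] at hX'
    have h2 : θ * (1 - 1) = 0 := by ring
    rw [h2, Complex.ofReal_zero, zero_mul, Complex.exp_zero, one_mul] at hX'
    exact hH τ' hτ'.le hX'
  -- (3)
  intro hp
  have hpt : ∀ (w z : ℂ), E.pt p w 0 + z • E.V = E.pt p w z := by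
    intro w z
    unfold Frm.pt
    rw [zero_smul, add_zero]
  have hle : ∀ t ∈ Icc (0 : ℝ) 1, ‖(t : ℂ) * τ₀‖ ≤ ‖τ₀‖ := by
    intro t ht
    rw [norm_mul, Complex.norm_real, Real.norm_eq_abs, abs_of_nonneg ht.1]
    exact mul_le_of_le_one_left (norm_nonneg _) ht.2
  obtain ⟨z', hz', hX'⟩ := disc_pathX D (fun t : ℝ => E.pt p ((t : ℂ) * τ₀) 0)
    (by unfold Frm.pt; fun_prop) E.V hz₀
    (fun t ht z hz => by
      rw [hpt]
      exact h2 _ _ hz (hle t ht))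
    (fun t ht => by
      obtain ⟨z, hz⟩ := hnV ((t : ℂ) * τ₀) ((hle t ht).trans hτ₀')
      exact ⟨z, by rw [hpt]; exact hz⟩)
    ⟨0, by rw [norm_zero]; exact hz₀.le, by
      rw [hpt, Complex.ofReal_zero, zero_mul, pt_zero]
      exact hp⟩ 1 ⟨zero_le_one, le_rfl⟩
  rw [hpt, Complex.ofReal_one, one_mul] at hX'
  exact hV z' hz'.le hX'


/-- centres of slices are not in `X_A` if no patch has class `A` -/
theorem torus_notin (hF : Fsh μ M F) (D : Decomp F A B)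
    (hX : ∀ k y, RR P k y → ¬ Chi P F A k (frm P y)) : TN P F A := by
  intro p hy hn
  have hs : SL P p (frm P (im p)) := SL.of hy hn
  obtain ⟨τ₀, z₀, h1, h2, h3, h4, h5, h6, h7⟩ := quiet_exists hs
  have hρ := P.rho_pos
  have hC : ∀ (k : Cd 3) (V : ℝ), KC P k → P.b ^ 16 ≤ V → V ≤ P.rho * nr (im k) → Close P k V :=
    fun k V hk hV hV' X hX' => close_pairs hk hV hV' X hX'
  have hOb : ∀ k : Cd 3, KC P k → NF P (P.b ^ 500 / 2) k → ObSum P k :=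
    fun k hk hn' X hX' => ob_sum hk hn' X hX'
  have hX' : ∀ k : Cd 3, RE P k (frm P (im p)) → nr (im k - im p) ≤ 10 * P.rho →
      ¬ Chi P F A k (frm P (im p)) := by
    intro k hk hkp
    refine hX k (im p) ⟨hk.q0, ?_, hk.nf, by rw [nr_sub_comm]; exact hkp⟩
    refine YY.move (c := 2) (by norm_num) (by norm_num) (by norm_num) hy (hkp.trans ?_)
    have h8 := P.rho_le_one
    have h9 : (10 : ℝ) * P.b ^ 0 ≤ P.b ^ 550 := P.mul_pow_le (by norm_num) (by norm_num)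
    rw [pow_zero] at h9
    linarith
  have key : ∀ τ z : ℂ, ‖τ‖ ≤ P.rho / 2 → ‖z‖ ≤ P.rho / 2 → Quiet P (frm P (im p)) p (τ, z) →
      (frm P (im p)).pt p τ z ∉ XX F A :=
    fun τ z hτ hz hQ => quiet_notin hF D hs hτ hz hQ hC hOb hX'
  refine torus_trick D (frm P (im p)) p (ρ := P.rho) τ₀ z₀ (by linarith) (by linarith)
    (by linarith) (by linarith) ?_ ?_ ?_ (fun τ hτ => lineV_notF hF hs hτ)
    (fun z hz => lineH_notF hF hs hz)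
  · intro τ z hτ hz
    exact key τ z (by rw [hτ]; exact h2) (by rw [hz]; exact h4) (h5 τ z hτ hz)
  · intro z hz
    exact key τ₀ z h2 (hz.trans h4) (h6 z)
  · intro τ hτ
    exact key τ z₀ (hτ.trans h2) h4 (h7 τ)

/-- main theorem for `Fsh` -/
theorem main_Fsh (hM : 0 ≤ M) (hF : Fsh μ M F) (D : Decomp F A B) : F ⊆ A ∨ F ⊆ B := by
  refine main_dec hM hF D fun P => ?_
  rcases chi_dich P hF D with h | h
  · exact Or.inl (torus_notin hF D h)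
  · exact Or.inr (torus_notin hF D.symm h)

end H9F
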