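import Pool.Agent.Lib.H9F.O5
import Pool.Agent.Lib.H9F.T2

/-!
# H9F: the main theorem
-/

open scoped BigOperators Topology Real
open Set Filter MeasureTheory

noncomputable section

namespace H9F

open Fermi

theorem irred_FS {M : ℝ} {w : Zd 3 → ℂ} {W : H2 3 →L[ℂ] H2 3} (μ : ℂ) (hB : Bd M w W) :
    IrredAn (ex '' FS μ w) := by
  have hF := FS_Fsh μ hB
  exact irredAn_of hF.hyp hF.per (F_nonempty hB.M0 hF) fun A B D => main_Fsh hB.M0 hF D

/-- Fermi varieties of bounded potentials in dimension three are irreducible. -/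
theorem main {V : UnitAddTorus (Fin 3) → ℂ} (hV : MemLp V ⊤ (haar 3)) (lam : ℂ) :
    IrredAn (ex '' FermiSetL V lam) := by
  obtain ⟨M, W, hB⟩ := exists_BdL hV
  rw [FermiSetL_eq hV]
  exact irred_FS _ hB

end H9F
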