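import Pool.Agent.Lib.H9F.Defs

/-!
# H9F N0: the vector `ν`
-/

open scoped BigOperators Topology
open Set Filter

noncomputable section

namespace H9F

open Fermi

variable {M : ℝ} {μ : ℂ} {P : Big M μ}

theorem n0_nu0 (P : Big M μ) : ((P.nu 0 : ℤ) : ℝ) = 1 := by simp [Big.nu]
theorem n0_nu1 (P : Big M μ) : ((P.nu 1 : ℤ) : ℝ) = P.b ^ 830 := by simp [Big.nu, Big.b]
theorem n0_nu2 (P : Big M μ) : ((P.nu 2 : ℤ) : ℝ) = P.b ^ 1660 := by simp [Big.nu, Big.b]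

/-- size of `ν = (1, B^830, B^1660)` -/
theorem nz_nu (P : Big M μ) : P.b ^ 1660 ≤ nz P.nu ∧ nz P.nu ≤ 2 * P.b ^ 1660 := by
  constructor
  · have h := abs_le_nz P.nu 2
    rw [n0_nu2] at h
    exact (le_abs_self _).trans h
  · have h1 : nz P.nu ^ 2 = 1 + (P.b ^ 830) ^ 2 + (P.b ^ 1660) ^ 2 := by
      rw [nz_sq, dr3]
      unfold rz
      rw [n0_nu0, n0_nu1, n0_nu2]
      ring
    have h2 : P.b ^ 830 ≤ P.b ^ 1660 := P.pow_le (by norm_num)
    have h3 : 1 ≤ P.b ^ 830 := one_le_pow₀ P.one_le_b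
    refine le_of_sq_le_sq ?_ (mul_nonneg (by norm_num) (P.pow_pos 1660).le)
    rw [h1]
    nlinarith

/-- `ν·l` is a nonzero integer: `l_0 + N l_1 + N^2 l_2` with `|l_j| ≤ b^820 < N/2`, `N = b^830`. -/
theorem nu_dt (P : Big M μ) {l : Zd 3} (h0 : l ≠ 0) (hl : ∀ j, |(l j : ℝ)| ≤ P.b ^ 820) :
    1 ≤ |dt (rz P.nu) l| := by
  obtain ⟨N, hN⟩ : ∃ N : ℤ, N = (P.B : ℤ) ^ 830 := ⟨_, rfl⟩
  obtain ⟨L, hL⟩ : ∃ L : ℤ, L = (P.B : ℤ) ^ 820 := ⟨_, rfl⟩
  have hNb : (N : ℝ) = P.b ^ 830 := by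
    rw [hN]
    push_cast
    rfl
  have hLb : (L : ℝ) = P.b ^ 820 := by
    rw [hL]
    push_cast
    rfl
  have hLN : L < N := by
    have h1 : (L : ℝ) < (N : ℝ) := by
      rw [hNb, hLb]
      have h2 : 2 * P.b ^ 820 ≤ P.b ^ 830 := P.mul_pow_le (by norm_num) (by norm_num)
      have h3 := P.pow_pos 820
      linarith
    exact_mod_cast h1
  have hl' : ∀ j, |l j| ≤ L := by
    intro j
    have h1 := hl j
    rw [← hLb] at h1
    exact_mod_cast h1
  have e : dt (rz P.nu) l = ((l 0 + N * (l 1 + N * l 2) : ℤ) : ℝ) := by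
    rw [dt3]
    unfold rz
    rw [n0_nu0, n0_nu1, n0_nu2]
    push_cast
    rw [hNb]
    ring
  rw [e]
  have key : ∀ x t : ℤ, |x| ≤ L → x + N * t = 0 → t = 0 ∧ x = 0 := by
    intro x t hx hxt
    have ht : t = 0 := by
      by_contra h
      have h1 : 1 ≤ |t| := Int.one_le_abs h
      have h2 : |x| = N * |t| := by
        have h3 : x = -(N * t) := by linarith
        have hN0 : 0 ≤ N := by
          have := abs_nonneg x
          linarith
        rw [h3, abs_neg, abs_mul, abs_of_nonneg hN0]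
      have hN0 : 0 < N := by
        have := abs_nonneg x
        linarith
      nlinarith
    refine ⟨ht, ?_⟩
    rw [ht] at hxt
    linarith
  have hne : l 0 + N * (l 1 + N * l 2) ≠ 0 := by
    intro h
    obtain ⟨h1, h2⟩ := key _ _ (hl' 0) h
    obtain ⟨h3, h4⟩ := key _ _ (hl' 1) h1
    apply h0
    funext j
    fin_cases j
    · exact h2
    · exact h4
    · exact h3
  have h1 := Int.one_le_abs hne
  have h2 : ((1 : ℤ) : ℝ) ≤ ((|l 0 + N * (l 1 + N * l 2)| : ℤ) : ℝ) := by exact_mod_cast h1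
  rw [Int.cast_abs] at h2
  simpa using h2

/-- (N0) Small integer vectors are not close to the line `ℝ y`.
Proof: `1 ≤ |ν·l|`, `ν·l = c ν·y + ν·(l - c y)`. If `nr (l - c y) ≥ 1` we are done (`nz ν ≥ 1`). Otherwise
`|c| |y| ≤ |l| + 1 ≤ 3 b^820`, `|c ν·y| ≤ 3 b^820/|y| · 4 b^600 · 2 b^1660 ≤ 1/2` since `|y| ≥ b^10000/4`. -/
theorem far_line {y : Fin 3 → ℝ} (hy : YY P 4 y) {l : Zd 3} (h0 : l ≠ 0)
    (hl : ∀ j, |(l j : ℝ)| ≤ P.b ^ 820) (c : ℝ) : 1 ≤ 2 * nz P.nu * nr (rz l - c • y) := by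
  obtain ⟨hn1, hn2⟩ := nz_nu P
  have hone : 1 ≤ P.b ^ 1660 := one_le_pow₀ P.one_le_b
  set d := nr (rz l - c • y) with hd
  have hd0 : 0 ≤ d := nr_nonneg _
  by_cases hd1 : 1 ≤ d
  · nlinarith
  rw [not_le] at hd1
  have h1 := nu_dt P h0 hl
  have e : dt (rz P.nu) l = dr (rz P.nu) (rz l - c • y) + c * dt y P.nu := by
    rw [dt_eq, dt_eq, dr_sub_right, dr_smul_right, dr_comm y]
    ring
  have h2 : |dr (rz P.nu) (rz l - c • y)| ≤ nz P.nu * d := abs_dr_le _ _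
  have h3 : |c| * nr y ≤ 3 * P.b ^ 820 := by
    have h4 : nr (c • y) ≤ nr (rz l) + d := by
      have e1 : c • y = rz l - (rz l - c • y) := by
        rw [sub_sub_cancel]
      calc nr (c • y) = nr (rz l - (rz l - c • y)) := by rw [← e1]
        _ ≤ nr (rz l) + nr (rz l - c • y) := nr_sub_le _ _
    rw [nr_smul] at h4
    have h5 : nr (rz l) ≤ 2 * P.b ^ 820 := nr_le_of_abs hl
    have h6 : 1 ≤ P.b ^ 820 := one_le_pow₀ P.one_le_b
    linarith
  have h4 : |c| * P.b ^ 10000 ≤ 12 * P.b ^ 820 := by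
    have h5 := mul_le_mul_of_nonneg_left hy.lo (abs_nonneg c)
    linarith
  have h5 : 8 * |c| * P.b ^ 2260 ≤ 1 / 2 := by
    have h6 : 8 * |c| * P.b ^ 2260 * P.b ^ 10000 ≤ 1 / 2 * P.b ^ 10000 := by
      calc 8 * |c| * P.b ^ 2260 * P.b ^ 10000 = 8 * P.b ^ 2260 * (|c| * P.b ^ 10000) := by ring
        _ ≤ 8 * P.b ^ 2260 * (12 * P.b ^ 820) := mul_le_mul_of_nonneg_left h4
              (mul_nonneg (by norm_num) (P.pow_pos 2260).le)
        _ = 1 / 2 * (192 * P.b ^ 3080) := by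
            rw [show (3080 : ℕ) = 2260 + 820 from rfl, pow_add]
            ring
        _ ≤ 1 / 2 * P.b ^ 10000 :=
            mul_le_mul_of_nonneg_left (P.mul_pow_le (by norm_num) (by norm_num)) (by norm_num)
    exact le_of_mul_le_mul_right h6 (P.pow_pos 10000)
  have h6 : |c * dt y P.nu| ≤ 1 / 2 := by
    rw [abs_mul]
    calc |c| * |dt y P.nu| ≤ |c| * (4 * P.b ^ 600 * nz P.nu) := mul_le_mul_of_nonneg_left hy.nu (abs_nonneg c)
      _ ≤ |c| * (4 * P.b ^ 600 * (2 * P.b ^ 1660)) :=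
          mul_le_mul_of_nonneg_left (mul_le_mul_of_nonneg_left hn2 (mul_nonneg (by norm_num) (P.pow_pos 600).le))
            (abs_nonneg c)
      _ = 8 * |c| * P.b ^ 2260 := by
          rw [show (2260 : ℕ) = 600 + 1660 from rfl, pow_add]
          ring
      _ ≤ 1 / 2 := h5
  rw [e] at h1
  have h7 := abs_add_le (dr (rz P.nu) (rz l - c • y)) (c * dt y P.nu)
  linarith

end H9F
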