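import Pool.Agent.Lib.H9F.N9

/-!
# H9F N10A: short resonant pairs
-/

open scoped BigOperators Topology
open Set Filter

noncomputable section

namespace H9F

open Fermi

variable {M : ℝ} {μ : ℂ} {P : Big M μ}

/-- a nearly resonant pair of sites of `p` -/
structure NPr (P : Big M μ) (p : Cd 3) (i : Zd 3 × Zd 3) : Prop where
  ne : i.1 ≠ i.2
  h1 : ‖q μ p i.1‖ ≤ 100 * nr (im p) * P.rho
  h2 : ‖q μ p i.2‖ ≤ 100 * nr (im p) * P.rho
  hg : ‖gs (p + zc i.1) (i.2 - i.1)‖ ≤ 2 * P.b + 40 * P.rho * nz (i.2 - i.1)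

theorem n10a_nat (N : ℕ) : ∑ i ∈ Finset.Ioo 0 N, 1 / (i : ℝ) ^ 2 ≤ 2 := by
  have h := sum_Ioo_inv_sq_le (α := ℝ) 0 N
  simp only [one_div]
  refine h.trans ?_
  norm_num

theorem n10a_half (Z : Finset ℤ) (hZ : ∀ j ∈ Z, j ≠ 0) (hinj : Set.InjOn Int.natAbs (Z : Set ℤ)) :
    ∑ j ∈ Z, 1 / (j : ℝ) ^ 2 ≤ 2 := by
  classical
  have h1 : ∑ j ∈ Z, 1 / (j : ℝ) ^ 2 = ∑ n ∈ Z.image Int.natAbs, 1 / (n : ℝ) ^ 2 := by
    rw [Finset.sum_image hinj]
    refine Finset.sum_congr rfl fun j _ => ?_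
    rw [Nat.cast_natAbs, Int.cast_abs, sq_abs]
  rw [h1]
  have h2 : Z.image Int.natAbs ⊆ Finset.Ioo 0 ((Z.image Int.natAbs).sup id + 1) := by
    intro n hn
    rw [Finset.mem_Ioo]
    constructor
    · obtain ⟨j, hj, rfl⟩ := Finset.mem_image.1 hn
      exact Int.natAbs_pos.2 (hZ j hj)
    · exact Nat.lt_succ_of_le (Finset.le_sup (f := id) hn)
  exact (Finset.sum_le_sum_of_subset_of_nonneg h2 fun _ _ _ => by positivity).trans (n10a_nat _)

/-- Pure. Proof: `∑_(j ≥ 1) 1/j² ≤ 1 + ∑_(j ≥ 2) 1/(j (j-1)) = 2`, twice. -/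
theorem sum_inv_sq_le (Z : Finset ℤ) (hZ : ∀ j ∈ Z, j ≠ 0) : ∑ j ∈ Z, 1 / (j : ℝ) ^ 2 ≤ 4 := by
  classical
  have h1 := Finset.sum_filter_add_sum_filter_not Z (fun j : ℤ => 0 < j)
    (fun j => 1 / (j : ℝ) ^ 2)
  rw [← h1]
  have h2 := n10a_half (Z.filter fun j : ℤ => 0 < j)
    (fun j hj => hZ j (Finset.mem_filter.1 hj).1) (by
      intro a ha b hb hab
      rw [Finset.mem_coe, Finset.mem_filter] at ha hb
      omega)
  have h3 := n10a_half (Z.filter fun j : ℤ => ¬ 0 < j)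
    (fun j hj => hZ j (Finset.mem_filter.1 hj).1) (by
      intro a ha b hb hab
      rw [Finset.mem_coe, Finset.mem_filter] at ha hb
      omega)
  linarith

theorem n10a_smul (j : ℤ) (s : Zd 3) (k : Cd 3) :
    bil k (zc (j • s)) = (j : ℂ) * bil k (zc s) := by
  rw [bil3, bil3]
  simp [zc]
  ring

theorem n10a_gs (j : ℤ) (s : Zd 3) (k : Cd 3) :
    gs k (j • s) = (j : ℂ) * (2 * bil k (zc s) + (j : ℂ) * ((nz s ^ 2 : ℝ) : ℂ)) := by
  have h1 : bil (zc s : Cd 3) (zc s) = ((nz s ^ 2 : ℝ) : ℂ) := by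
    rw [nz_sq, bil3, dr3]
    simp [zc, rz]
  unfold gs
  rw [n10a_smul, n10a_smul, bil_comm (zc (j • s)) (zc s), n10a_smul, h1]
  ring

theorem n10a_nz (j : ℤ) (s : Zd 3) : nz (j • s) = |(j : ℝ)| * nz s := by
  have h1 : rz (j • s) = (j : ℝ) • rz s := by
    funext i
    simp [rz]
  rw [nz, h1, nr_smul]
  rfl

/-- Proof. `X` empty: trivial. `s_i = i.2 - i.1 ≠ 0`; `|dt (im p) s_i| = |(gs..).im|/2 ≤ b + 20 ρ b^360 ≤ b^510` (`im_add_zc`), so all `s_i` are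
parallel (`par_of_short`), `s_i = j_i • s₀` (`exists_prim`). `nz s₀ > b^120`: otherwise `‖bil (p + zc i.1) (zc s₀)‖ ≥ b^500`, and
`gs (p + zc i.1) (j • s₀) = j (2 bil (..) (zc s₀) + j |s₀|²)`, so `|j| |s₀|² ≥ 2 b^500 - 2 b - 40` (`|j| ≥ 1`), so
`nz s_i = |j| nz s₀ ≥ (2 b^500 - 2 b - 40)/b^120 > b^360`. For each `j` at most two `i ∈ X` have `j_i = j` (`i` is determined by `i.1` and
`j`; `two_sites` with `s = j • s₀`, `b^120 < nz s ≤ b^360 ≤ R/b^400`). So the sum is at most `∑_j 2/(j² |s₀|²) ≤ 8/b^240`. -/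
theorem pair_short {p : Cd 3} (hy : YY P 4 (im p))
    (hn : ∀ n, ‖q μ p n‖ ≤ 100 * nr (im p) * P.rho → NF P (P.b ^ 500) (p + zc n))
    (X : Finset (Zd 3 × Zd 3)) (hX : ∀ i ∈ X, NPr P p i ∧ nz (i.2 - i.1) ≤ P.b ^ 360) :
    ∑ i ∈ X, 1 / nz (i.2 - i.1) ^ 2 ≤ 8 / P.b ^ 240 := by
  classical
  rcases X.eq_empty_or_nonempty with rfl | ⟨i₀, hi₀⟩
  · have := P.pow_pos 240
    rw [Finset.sum_empty]
    exact div_nonneg (by norm_num) this.le
  have hb0 := P.b_pos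
  have hb1 := P.one_le_b
  have hρ0 := P.rho_pos
  have hρ1 := P.rho_le_one
  have hR := hy.R_pos
  have hne : ∀ i ∈ X, i.2 - i.1 ≠ 0 := fun i hi => sub_ne_zero.2 (hX i hi).1.ne.symm
  have hdt : ∀ i ∈ X, |dt (im p) (i.2 - i.1)| ≤ P.b ^ 510 := by
    intro i hi
    have h1 := (Complex.abs_im_le_norm _).trans (hX i hi).1.hg
    rw [gs_im, im_add_zc, abs_mul, abs_two] at h1
    have h2 : P.rho * nz (i.2 - i.1) ≤ 1 * P.b ^ 360 :=
      mul_le_mul hρ1 (hX i hi).2 (nz_nonneg _) zero_le_one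
    have h3 : P.b ≤ P.b ^ 360 := le_self_pow₀ hb1 (by norm_num)
    have h4 : 30 * P.b ^ 360 ≤ P.b ^ 510 := P.mul_pow_le (by norm_num) (by norm_num)
    linarith
  obtain ⟨s₀, h0, -, hprim⟩ := exists_prim (hne i₀ hi₀)
  have hj : ∀ i ∈ X, ∃ j : ℤ, i.2 - i.1 = j • s₀ := fun i hi =>
    hprim _ (par_of_short hy (hX i₀ hi₀).2 (hX i hi).2 (hdt i₀ hi₀) (hdt i hi))
  set J : Zd 3 × Zd 3 → ℤ := fun i => if h : ∃ j : ℤ, i.2 - i.1 = j • s₀ then h.choose else 0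
    with hJ
  have hJs : ∀ i ∈ X, i.2 - i.1 = J i • s₀ := by
    intro i hi
    have h := hj i hi
    simp only [hJ]
    rw [dif_pos h]
    exact h.choose_spec
  have hJ0 : ∀ i ∈ X, J i ≠ 0 := by
    intro i hi h
    apply hne i hi
    rw [hJs i hi, h, zero_smul]
  have hJ1 : ∀ i ∈ X, 1 ≤ |(J i : ℝ)| := fun i hi => by
    exact_mod_cast Int.one_le_abs (hJ0 i hi)
  have hL0 : 0 < nz s₀ := nz_pos h0
  -- the primitive vector is long
  have hL : P.b ^ 120 < nz s₀ := by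
    by_contra hcon
    push Not at hcon
    have h1 := hn i₀.1 (hX i₀ hi₀).1.h1 s₀ h0 hcon
    have h2 := (hX i₀ hi₀).1.hg
    rw [hJs i₀ hi₀, n10a_gs, norm_mul, Complex.norm_intCast, n10a_nz] at h2
    have hJi := hJ1 i₀ hi₀
    set a := |(J i₀ : ℝ)| with ha
    have h3 : ‖2 * bil (p + zc i₀.1) (zc s₀) + (J i₀ : ℂ) * ((nz s₀ ^ 2 : ℝ) : ℂ)‖ ≤
        2 * P.b + 40 * P.rho * nz s₀ := by
      have h4 : a * ‖2 * bil (p + zc i₀.1) (zc s₀) + (J i₀ : ℂ) * ((nz s₀ ^ 2 : ℝ) : ℂ)‖ ≤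
          a * (2 * P.b + 40 * P.rho * nz s₀) := by
        refine h2.trans ?_
        have h5 : 2 * P.b ≤ a * (2 * P.b) := le_mul_of_one_le_left (by positivity) hJi
        calc 2 * P.b + 40 * P.rho * (a * nz s₀) ≤ a * (2 * P.b) + 40 * P.rho * (a * nz s₀) := by
              linarith
          _ = _ := by ring
      exact le_of_mul_le_mul_left h4 (by linarith)
    have h4 : ‖(2 : ℂ) * bil (p + zc i₀.1) (zc s₀)‖ ≤
        ‖2 * bil (p + zc i₀.1) (zc s₀) + (J i₀ : ℂ) * ((nz s₀ ^ 2 : ℝ) : ℂ)‖ +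
          ‖(J i₀ : ℂ) * ((nz s₀ ^ 2 : ℝ) : ℂ)‖ := by
      have h5 := norm_sub_le (2 * bil (p + zc i₀.1) (zc s₀) + (J i₀ : ℂ) * ((nz s₀ ^ 2 : ℝ) : ℂ))
        ((J i₀ : ℂ) * ((nz s₀ ^ 2 : ℝ) : ℂ))
      rwa [add_sub_cancel_right] at h5
    rw [norm_mul, norm_mul (J i₀ : ℂ), Complex.norm_intCast, Complex.norm_real, Real.norm_eq_abs,
      abs_of_nonneg (sq_nonneg (nz s₀)), Complex.norm_two, ← ha] at h4
    have h5 : a * nz s₀ ≤ P.b ^ 360 := by
      have h6 := (hX i₀ hi₀).2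
      rwa [hJs i₀ hi₀, n10a_nz] at h6
    have h6 : a * nz s₀ ^ 2 ≤ P.b ^ 360 * P.b ^ 120 := by
      calc a * nz s₀ ^ 2 = a * nz s₀ * nz s₀ := by ring
        _ ≤ P.b ^ 360 * P.b ^ 120 := mul_le_mul h5 hcon hL0.le (P.pow_pos 360).le
    rw [← pow_add] at h6
    norm_num at h6
    have h7 : P.rho * nz s₀ ≤ 1 * P.b ^ 120 := mul_le_mul hρ1 hcon hL0.le zero_le_one
    have h8 : P.b ≤ P.b ^ 120 := le_self_pow₀ hb1 (by norm_num)
    have h9 : P.b ^ 120 ≤ P.b ^ 480 := P.pow_le (by norm_num)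
    have h10 : 100 * P.b ^ 480 ≤ P.b ^ 500 := P.mul_pow_le (by norm_num) (by norm_num)
    have h11 := P.pow_pos 480
    linarith
  -- group by `J`
  rw [← Finset.sum_fiberwise_of_maps_to (s := X) (t := X.image J) (g := J)
    (fun i hi => Finset.mem_image_of_mem J hi)]
  have hgroup : ∀ j ∈ X.image J, ∑ i ∈ X with J i = j, 1 / nz (i.2 - i.1) ^ 2 ≤
      1 / (j : ℝ) ^ 2 * (2 / P.b ^ 240) := by
    intro j hjm
    obtain ⟨i₁, hi₁, hi₁j⟩ := Finset.mem_image.1 hjm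
    have hj0 : j ≠ 0 := by
      rw [← hi₁j]
      exact hJ0 i₁ hi₁
    have hval : ∀ i ∈ X.filter (fun i => J i = j),
        1 / nz (i.2 - i.1) ^ 2 = 1 / ((j : ℝ) ^ 2 * nz s₀ ^ 2) := by
      intro i hi
      rw [Finset.mem_filter] at hi
      rw [hJs i hi.1, n10a_nz, hi.2, mul_pow, sq_abs]
    have hcard : (X.filter (fun i => J i = j)).card ≤ 2 := by
      have hinj : Set.InjOn Prod.fst ((X.filter (fun i => J i = j) : Finset (Zd 3 × Zd 3)) :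
          Set (Zd 3 × Zd 3)) := by
        intro x hx y hy' hxy
        rw [Finset.mem_coe, Finset.mem_filter] at hx hy'
        have h1 := hJs x hx.1
        have h2 := hJs y hy'.1
        rw [hx.2] at h1
        rw [hy'.2, ← h1, ← hxy] at h2
        exact Prod.ext hxy (sub_left_injective h2).symm
      rw [← Finset.card_image_of_injOn hinj]
      have hjn : nz (j • s₀) = nz (i₁.2 - i₁.1) := by
        rw [hJs i₁ hi₁, hi₁j]
      refine two_sites hy (s := j • s₀) ?_ ?_ _ ?_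
      · rw [n10a_nz]
        have h1 : (1 : ℝ) ≤ |(j : ℝ)| := by exact_mod_cast Int.one_le_abs hj0
        exact lt_of_lt_of_le hL (le_mul_of_one_le_left hL0.le h1)
      · rw [hjn]
        refine (hX i₁ hi₁).2.trans ?_
        rw [le_div_iff₀ (P.pow_pos 400), ← pow_add]
        exact (P.pow_le (by norm_num)).trans hy.R_ge
      · intro n hn'
        obtain ⟨i, hi, rfl⟩ := Finset.mem_image.1 hn'
        rw [Finset.mem_filter] at hi
        have h1 := (hX i hi.1).1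
        have h2 := hJs i hi.1
        rw [hi.2] at h2
        refine ⟨h1.h1.trans ?_, ?_⟩
        · have : 0 ≤ nr (im p) * P.rho := mul_nonneg hR.le hρ0.le
          linarith
        · rw [← h2]
          exact h1.hg
    rw [Finset.sum_congr rfl hval, Finset.sum_const, nsmul_eq_mul]
    have hj2 : 0 < (j : ℝ) ^ 2 := by positivity
    have hc : ((X.filter (fun i => J i = j)).card : ℝ) ≤ 2 := by exact_mod_cast hcard
    have hs : P.b ^ 240 ≤ nz s₀ ^ 2 := by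
      have h1 := pow_le_pow_left₀ (P.pow_pos 120).le hL.le 2
      rwa [← pow_mul] at h1
    calc ((X.filter (fun i => J i = j)).card : ℝ) * (1 / ((j : ℝ) ^ 2 * nz s₀ ^ 2))
        ≤ 2 * (1 / ((j : ℝ) ^ 2 * nz s₀ ^ 2)) := by gcongr
      _ = 1 / (j : ℝ) ^ 2 * (2 / nz s₀ ^ 2) := by
          field_simp
      _ ≤ 1 / (j : ℝ) ^ 2 * (2 / P.b ^ 240) := by
          refine mul_le_mul_of_nonneg_left ?_ (by positivity)
          exact div_le_div_of_nonneg_left (by norm_num) (P.pow_pos 240) hs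
  refine (Finset.sum_le_sum hgroup).trans ?_
  rw [← Finset.sum_mul]
  have hZ := sum_inv_sq_le (X.image J) (fun j hjm => by
    obtain ⟨i₁, hi₁, rfl⟩ := Finset.mem_image.1 hjm
    exact hJ0 i₁ hi₁)
  have h240 := P.pow_pos 240
  calc (∑ j ∈ X.image J, 1 / (j : ℝ) ^ 2) * (2 / P.b ^ 240) ≤ 4 * (2 / P.b ^ 240) :=
        mul_le_mul_of_nonneg_right hZ (div_nonneg (by norm_num) h240.le)
    _ = 8 / P.b ^ 240 := by ring

end H9F
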