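import Pool.Agent.Lib.H9F.Defs

/-!
# H9F N3: the one-dimensional counting lemma
-/

open scoped BigOperators Topology
open Set Filter

noncomputable section

namespace H9F

/-- the number of integers in an interval -/
theorem n3_card {x y : ℝ} (h : x ≤ y) (T : Finset ℤ) (hT : ∀ z ∈ T, x ≤ (z : ℝ) ∧ (z : ℝ) ≤ y) :
    (T.card : ℝ) ≤ y - x + 1 := by
  have hsub : T ⊆ Finset.Icc ⌈x⌉ ⌊y⌋ := by
    intro z hz
    rw [Finset.mem_Icc, Int.ceil_le, Int.le_floor]
    exact hT z hz
  have h1 := Finset.card_le_card hsub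
  rw [Int.card_Icc] at h1
  have h2 : (T.card : ℤ) ≤ max (⌊y⌋ + 1 - ⌈x⌉) 0 := by
    have : (T.card : ℤ) ≤ ((⌊y⌋ + 1 - ⌈x⌉).toNat : ℤ) := by exact_mod_cast h1
    rwa [Int.ofNat_toNat] at this
  have h3 : (T.card : ℝ) ≤ max ((⌊y⌋ : ℝ) + 1 - (⌈x⌉ : ℝ)) 0 := by exact_mod_cast h2
  refine h3.trans (max_le ?_ (by linarith))
  have := Int.floor_le y
  have := Int.le_ceil x
  linarith

/-- one block -/
theorem n3_block (α γ θ : ℝ) (r : ℚ) (Q : ℝ) (hr : (r.den : ℝ) ≤ Q)
    (h : |α - r| ≤ 1 / (r.den * Q)) (hθ : 0 ≤ θ) (X : Finset ℤ) (i0 : ℤ)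
    (hX : ∀ i ∈ X, i0 ≤ i ∧ i < i0 + r.den ∧ ∃ m : ℤ, |α * i + γ - m| ≤ θ) :
    (X.card : ℝ) ≤ 2 * r.den * θ + 3 := by
  classical
  have hq0 : 0 < r.den := r.den_pos
  have hq : (0 : ℝ) < r.den := by exact_mod_cast hq0
  have hQ : 0 < Q := lt_of_lt_of_le hq hr
  have hm : ∀ i : ℤ, ∃ m : ℤ, i ∈ X → |α * i + γ - m| ≤ θ := by
    intro i
    by_cases hi : i ∈ X
    · obtain ⟨m, hm⟩ := (hX i hi).2.2
      exact ⟨m, fun _ => hm⟩
    · exact ⟨0, fun h => absurd h hi⟩
  choose m hm using hm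
  obtain ⟨u, hu⟩ : ∃ u : ℤ → ℤ, u = fun i => r.num * (i - i0) - r.den * m i := ⟨_, rfl⟩
  have hinj : Set.InjOn u (X : Set ℤ) := by
    intro i hi i' hi' he
    rw [hu] at he
    simp only at he
    have h1 := hX i hi
    have h2 := hX i' hi'
    have h3 : (r.den : ℤ) ∣ r.num * (i - i') := ⟨m i - m i', by linear_combination he⟩
    have h4 : IsCoprime (r.den : ℤ) r.num := by
      have h5 := r.reduced
      rw [Int.isCoprime_iff_gcd_eq_one, Int.gcd_eq_natAbs, Int.natAbs_natCast]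
      exact Nat.coprime_comm.1 h5
    have h5 : (r.den : ℤ) ∣ i - i' := h4.dvd_of_dvd_mul_left h3
    by_contra hne
    have h6 := Int.le_of_dvd (abs_pos.2 (sub_ne_zero.2 hne)) ((dvd_abs _ _).2 h5)
    have h7 : |i - i'| < r.den := by
      rw [abs_lt]
      constructor <;> omega
    omega
  have hcard : X.card = (X.image u).card := (Finset.card_image_of_injOn hinj).symm
  obtain ⟨c, hc⟩ : ∃ c : ℝ, c = r.den * (α * i0 + γ) := ⟨_, rfl⟩
  have hb := n3_card (x := -c - (r.den * θ + 1)) (y := -c + (r.den * θ + 1))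
    (by nlinarith) (X.image u) (by
      intro z hz
      obtain ⟨i, hi, rfl⟩ := Finset.mem_image.1 hz
      have h1 := hX i hi
      have h2 := hm i hi
      have ht0 : (0 : ℝ) ≤ (i : ℝ) - i0 := by
        have : (i0 : ℝ) ≤ i := by exact_mod_cast h1.1
        linarith
      have ht1 : (i : ℝ) - i0 ≤ r.den := by
        have : (i : ℝ) < i0 + r.den := by exact_mod_cast h1.2.1
        linarith
      have hnum : (r.num : ℝ) = r.den * (r : ℝ) := by
        have h5 : (r : ℝ) = (r.num : ℝ) / r.den := by exact_mod_cast (Rat.num_div_den r).symm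
        rw [h5]
        field_simp
      have e : (u i : ℝ) + c = r.den * (α * i + γ - m i) + r.den * ((i : ℝ) - i0) * (r - α) := by
        rw [hu, hc]
        push_cast
        rw [hnum]
        ring
      have h3 : |(u i : ℝ) + c| ≤ r.den * θ + 1 := by
        rw [e]
        refine (abs_add_le _ _).trans ?_
        rw [abs_mul, abs_mul, abs_mul, abs_of_pos hq, abs_of_nonneg ht0, abs_sub_comm (r : ℝ) α]
        apply add_le_add
        · exact mul_le_mul_of_nonneg_left h2 hq.le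
        · calc (r.den : ℝ) * ((i : ℝ) - i0) * |α - r| ≤ r.den * r.den * (1 / (r.den * Q)) := by
                apply mul_le_mul _ h (abs_nonneg _) (by positivity)
                exact mul_le_mul_of_nonneg_left ht1 hq.le
            _ = r.den / Q := by field_simp
            _ ≤ 1 := (div_le_one hQ).2 hr
      rw [abs_le] at h3
      constructor <;> linarith [h3.1, h3.2])
  rw [hcard]
  refine hb.trans (le_of_eq ?_)
  ring

/-- (N3) Among `n` consecutive integers at most `(n/q+1)(2qθ+3)`, `q = den r`, satisfy `dist(αi+γ, ℤ) ≤ θ`.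
Proof: cut into `≤ n/q + 1` blocks of `q` consecutive integers (the last one incomplete). In a block `i = i₀ + t`,
`0 ≤ t < q`: `α i + γ = r t + γ' + (α - r) t`, `|(α-r) t| ≤ 1/Q ≤ 1/q`, so `dist(p t/q + γ', ℤ) ≤ θ + 1/q`.
The residues `p t mod q` are distinct (`gcd(p,q)=1`), and the residue classes `j mod q` with
`dist(j/q + γ', ℤ) ≤ θ + 1/q` are those meeting an interval of length `2qθ + 2`, at most `2qθ + 3`. -/
theorem count_one (α γ θ : ℝ) (r : ℚ) (Q : ℝ) (hr : (r.den : ℝ) ≤ Q)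
    (h : |α - r| ≤ 1 / (r.den * Q)) (hθ : 0 ≤ θ) (X : Finset ℤ) (a : ℤ) (n : ℕ)
    (hX : ∀ i ∈ X, a ≤ i ∧ i < a + n ∧ ∃ m : ℤ, |α * i + γ - m| ≤ θ) :
    (X.card : ℝ) ≤ (n / r.den + 1) * (2 * r.den * θ + 3) := by
  classical
  have hq0 : 0 < r.den := r.den_pos
  have hq : (0 : ℝ) < r.den := by exact_mod_cast hq0
  have hq0' : (0 : ℤ) < r.den := by exact_mod_cast hq0
  have hmap : ∀ i ∈ X, ((i - a) / r.den).toNat ∈ Finset.range (n / r.den + 1) := by
    intro i hi
    have h1 := hX i hi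
    rw [Finset.mem_range]
    have h2 : (0 : ℤ) ≤ i - a := by omega
    have h3 : (i - a) / r.den ≤ (n : ℤ) / r.den := Int.ediv_le_ediv hq0' (by omega)
    have h4 : (0 : ℤ) ≤ (i - a) / r.den := Int.ediv_nonneg h2 hq0'.le
    have h5 : ((n / r.den : ℕ) : ℤ) = (n : ℤ) / r.den := by push_cast; rfl
    have h6 : (((i - a) / r.den).toNat : ℤ) = (i - a) / r.den := Int.toNat_of_nonneg h4
    have h7 : (((i - a) / r.den).toNat : ℤ) ≤ ((n / r.den : ℕ) : ℤ) := by
      rw [h6, h5]
      exact h3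
    have h8 : ((i - a) / r.den).toNat ≤ n / r.den := by exact_mod_cast h7
    omega
  rw [Finset.card_eq_sum_card_fiberwise (f := fun i : ℤ => ((i - a) / r.den).toNat) (t :=
    Finset.range (n / r.den + 1)) (fun i hi => hmap i hi)]
  push_cast
  have hblock : ∀ β ∈ Finset.range (n / r.den + 1),
      ((X.filter (fun i : ℤ => ((i - a) / r.den).toNat = β)).card : ℝ) ≤ 2 * r.den * θ + 3 := by
    intro β _
    apply n3_block α γ θ r Q hr h hθ _ (a + r.den * β)
    intro i hi
    rw [Finset.mem_filter] at hi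
    have h1 := hX i hi.1
    have h2 : (0 : ℤ) ≤ i - a := by omega
    have h4 : (0 : ℤ) ≤ (i - a) / r.den := Int.ediv_nonneg h2 hq0'.le
    have h6 : (i - a) / r.den = (β : ℤ) := by
      rw [← hi.2, Int.toNat_of_nonneg h4]
    have h7 := Int.emod_add_mul_ediv (i - a) r.den
    have h8 := Int.emod_nonneg (i - a) hq0'.ne'
    have h9 := Int.emod_lt_of_pos (i - a) hq0'
    rw [h6] at h7
    refine ⟨by linarith, by linarith, h1.2.2⟩
  refine (Finset.sum_le_sum hblock).trans ?_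
  rw [Finset.sum_const, Finset.card_range, nsmul_eq_mul]
  push_cast
  apply mul_le_mul_of_nonneg_right _ (by positivity)
  have := Nat.cast_div_le (α := ℝ) (m := n) (n := r.den)
  linarith

end H9F
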