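import Pool.Agent.Lib.H9F.N2
import Pool.Agent.Lib.H9F.N3

/-!
# H9F N4: lattice points near the plane `y^⊥`
-/

open scoped BigOperators Topology
open Set Filter

noncomputable section

namespace H9F

open Fermi

variable {M : ℝ} {μ : ℂ} {P : Big M μ}

theorem n4_third : ∀ i j : Fin 3, i ≠ j → ∃ k : Fin 3, k ≠ i ∧ k ≠ j ∧ ∀ t, t = i ∨ t = j ∨ t = k := by decide

theorem n4_sum {i j k : Fin 3} (hij : i ≠ j) (hki : k ≠ i) (hkj : k ≠ j) (f : Fin 3 → ℝ) :
    f 0 + f 1 + f 2 = f i + f j + f k := by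
  rw [← Fin.sum_univ_three]
  have e : (Finset.univ : Finset (Fin 3)) = {i, j, k} := by
    symm
    rw [Finset.eq_univ_iff_forall]
    intro t
    simp only [Finset.mem_insert, Finset.mem_singleton]
    revert i j k t
    decide
  rw [e, Finset.sum_insert, Finset.sum_pair hkj.symm]
  · ring
  · simp only [Finset.mem_insert, Finset.mem_singleton, not_or]
    exact ⟨hij, hki.symm⟩

/-- Counting by fibres. -/
theorem n4_fib {α β : Type*} (X : Finset α) (f : α → β) (N c : ℝ) (hc0 : 0 ≤ c)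
    (hN : ∀ Z : Finset β, (∀ z ∈ Z, ∃ x ∈ X, f x = z) → (Z.card : ℝ) ≤ N)
    (hc : ∀ a, ∀ Y : Finset α, (∀ x ∈ Y, x ∈ X ∧ f x = a) → (Y.card : ℝ) ≤ c) :
    (X.card : ℝ) ≤ N * c := by
  classical
  rw [Finset.card_eq_sum_card_image f X]
  push_cast
  calc ∑ a ∈ X.image f, ((X.filter fun x => f x = a).card : ℝ) ≤ ∑ _a ∈ X.image f, c :=
        Finset.sum_le_sum fun a _ => hc a _ fun x hx => Finset.mem_filter.1 hx
    _ = ((X.image f).card : ℝ) * c := by rw [Finset.sum_const, nsmul_eq_mul]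
    _ ≤ N * c := mul_le_mul_of_nonneg_right (hN _ fun z hz => Finset.mem_image.1 hz) hc0

/-- The number of the integers near a real number. -/
theorem n4_int (X : Finset ℤ) (c w : ℝ) (hw : 0 ≤ w) (h : ∀ x ∈ X, |(x : ℝ) + c| ≤ w) : (X.card : ℝ) ≤ 2 * w + 1 := by
  have hsub : X ⊆ Finset.Icc ⌈-c - w⌉ ⌊-c + w⌋ := by
    intro x hx
    have h1 := abs_le.1 (h x hx)
    rw [Finset.mem_Icc, Int.ceil_le, Int.le_floor]
    constructor <;> linarith [h1.1, h1.2]
  have h1 := Finset.card_le_card hsub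
  rw [Int.card_Icc] at h1
  have h2 : (X.card : ℝ) ≤ ((⌊-c + w⌋ + 1 - ⌈-c - w⌉).toNat : ℝ) := by exact_mod_cast h1
  refine h2.trans ?_
  by_cases h3 : 0 ≤ ⌊-c + w⌋ + 1 - ⌈-c - w⌉
  · have h4 : (((⌊-c + w⌋ + 1 - ⌈-c - w⌉).toNat : ℤ) : ℝ) = ((⌊-c + w⌋ + 1 - ⌈-c - w⌉ : ℤ) : ℝ) := by
      rw [Int.toNat_of_nonneg h3]
    have h5 : (((⌊-c + w⌋ + 1 - ⌈-c - w⌉).toNat : ℕ) : ℝ) = ((⌊-c + w⌋ + 1 - ⌈-c - w⌉ : ℤ) : ℝ) := by
      rw [← h4]
      norm_cast
    rw [h5]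
    push_cast
    have h6 := Int.floor_le (-c + w)
    have h7 := Int.le_ceil (-c - w)
    linarith
  · rw [Int.toNat_of_nonpos (by omega)]
    push_cast
    linarith

/-- (N4) Proof: `i, j, r` from `dirich`, `k` the third index, `α = y j/y i`, `α' = y k/y i`, `q = den r ∈ [b^400, b^2400]`;
`|y i| ≥ nr y/√3`, so `|s i + α s j + α' s k| ≤ √3 θ`. At most `2D+1 ≤ 3D` values of `s k`; for each of them, by `count_one`
(θ replaced by √3 θ, `γ = α' s k`), at most `(3D/q+1)(2√3 q θ + 3)` values of `s j`; for each of them at most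
`2√3 θ + 1 ≤ 4.5` values of `s i`. -/
theorem count_Z {y : Fin 3 → ℝ} (hy : YY P 4 y) (D θ : ℝ) (hD : 1 ≤ D) (h0 : 0 ≤ θ) (h1 : θ ≤ 1)
    (X : Finset (Zd 3)) (hX : ∀ s ∈ X, nz s ≤ D ∧ |dt y s| ≤ θ * nr y) :
    (X.card : ℝ) ≤ 150 * (D ^ 2 * θ + D ^ 2 / P.b ^ 400 + D + D * P.b ^ 2400 * θ) := by
  classical
  obtain ⟨i, j, hij, hi, r, hr1, hr2, hr3⟩ := dirich hy
  obtain ⟨k, hki, hkj, hall⟩ := n4_third i j hij
  have hyne : y ≠ 0 := by
    rintro rfl
    have h1 := hy.lo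
    rw [nr_zero, mul_zero] at h1
    exact absurd h1 (not_le.2 (P.pow_pos 10000))
  have hyi : y i ≠ 0 := by
    intro h0
    apply hyne
    funext k
    have h1 : |y k| ≤ |y i| := hi k
    rw [h0, abs_zero] at h1
    exact abs_eq_zero.1 (le_antisymm h1 (abs_nonneg _))
  have hyi0 : 0 < |y i| := abs_pos.2 hyi
  have hD0 : 0 < D := by linarith
  have hnr : nr y ≤ 7 / 4 * |y i| := by
    refine le_of_sq_le_sq ?_ (mul_nonneg (by norm_num) hyi0.le)
    rw [nr_sq, dr3]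
    have e0 : y 0 * y 0 ≤ |y i| ^ 2 := by
      rw [← abs_mul_abs_self (y 0), ← pow_two]
      exact pow_le_pow_left₀ (abs_nonneg _) (hi 0) 2
    have e1 : y 1 * y 1 ≤ |y i| ^ 2 := by
      rw [← abs_mul_abs_self (y 1), ← pow_two]
      exact pow_le_pow_left₀ (abs_nonneg _) (hi 1) 2
    have e2 : y 2 * y 2 ≤ |y i| ^ 2 := by
      rw [← abs_mul_abs_self (y 2), ← pow_two]
      exact pow_le_pow_left₀ (abs_nonneg _) (hi 2) 2
    nlinarith [sq_nonneg (|y i|)]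
  obtain ⟨q, hq⟩ : ∃ q : ℝ, q = r.den := ⟨_, rfl⟩
  have hq0 : 0 < q := by
    rw [hq]
    exact_mod_cast r.pos
  obtain ⟨θ', hθ'⟩ : ∃ θ' : ℝ, θ' = 7 / 4 * θ := ⟨_, rfl⟩
  have hθ0 : 0 ≤ θ' := by
    rw [hθ']
    positivity
  -- the basic inequality
  have hbas : ∀ s ∈ X, |(s i : ℝ) + (y j / y i * s j + y k / y i * s k)| ≤ θ' := by
    intro s hs
    have e1 : (s i : ℝ) + (y j / y i * s j + y k / y i * s k) = dt y s / y i := by
      rw [dt3, n4_sum hij hki hkj (fun t => y t * (s t : ℝ))]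
      field_simp
      ring
    rw [e1, abs_div, div_le_iff₀ hyi0]
    refine (hX s hs).2.trans ?_
    rw [hθ']
    calc θ * nr y ≤ θ * (7 / 4 * |y i|) := mul_le_mul_of_nonneg_left hnr h0
      _ = 7 / 4 * θ * |y i| := by ring
  have hfl : (⌊D⌋ : ℝ) ≤ D := Int.floor_le D
  have hfl0 : 0 ≤ ⌊D⌋ := Int.floor_nonneg.2 (by linarith)
  have hbox : ∀ s ∈ X, ∀ t, -⌊D⌋ ≤ s t ∧ s t ≤ ⌊D⌋ := by
    intro s hs t
    have h3 := (abs_le_nz s t).trans (hX s hs).1
    have h4 := abs_le.1 h3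
    constructor
    · have h5 : -(s t) ≤ ⌊D⌋ := by
        rw [Int.le_floor]
        push_cast
        linarith [h4.1]
      linarith
    · rw [Int.le_floor]
      exact h4.2
  obtain ⟨n, hn⟩ : ∃ n : ℕ, n = (2 * ⌊D⌋ + 1).toNat := ⟨_, rfl⟩
  have hnZ : (n : ℤ) = 2 * ⌊D⌋ + 1 := by
    rw [hn]
    exact Int.toNat_of_nonneg (by omega)
  have hnR : (n : ℝ) ≤ 3 * D := by
    have h3 : (n : ℝ) = ((n : ℤ) : ℝ) := by norm_cast
    rw [h3, hnZ]
    push_cast
    linarith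
  -- third step
  have s3 : ∀ w x : ℤ, ∀ Y : Finset (Zd 3), (∀ s ∈ Y, s ∈ X ∧ s k = w ∧ s j = x) → (Y.card : ℝ) ≤ 9 / 2 := by
    intro w x Y hY
    have hinj : Set.InjOn (fun s : Zd 3 => s i) (Y : Set (Zd 3)) := by
      intro s hs s' hs' h
      have hs1 := hY s hs
      have hs2 := hY s' hs'
      funext t
      rcases hall t with rfl | rfl | rfl
      · exact h
      · exact hs1.2.2.trans hs2.2.2.symm
      · exact hs1.2.1.trans hs2.2.1.symm
    rw [← Finset.card_image_of_injOn hinj]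
    refine (n4_int _ (y j / y i * x + y k / y i * w) θ' hθ0 fun z hz => ?_).trans ?_
    · obtain ⟨s, hs, rfl⟩ := Finset.mem_image.1 hz
      obtain ⟨h4, h5, h6⟩ := hY s hs
      have h3 := hbas s h4
      rw [h5, h6] at h3
      exact h3
    · rw [hθ']
      linarith
  -- second step
  have s2 : ∀ w : ℤ, ∀ Y : Finset (Zd 3), (∀ s ∈ Y, s ∈ X ∧ s k = w) →
      (Y.card : ℝ) ≤ (3 * D / q + 1) * (2 * q * θ' + 3) * (9 / 2) := by
    intro w Y hY
    refine n4_fib Y (fun s => s j) _ _ (by norm_num) (fun Z hZ => ?_) fun x Y' hY' => s3 w x Y' fun s hs => ?_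
    · refine (count_one (y j / y i) (y k / y i * w) θ' r (P.b ^ 2400) hr2 hr3 hθ0 Z (-⌊D⌋) n fun x hx => ?_).trans ?_
      · obtain ⟨s, hs, rfl⟩ := hZ x hx
        obtain ⟨h4, h5⟩ := hbox s (hY s hs).1 j
        refine ⟨h4, by omega, -(s i), ?_⟩
        have h3 := hbas s (hY s hs).1
        rw [(hY s hs).2] at h3
        have e1 : y j / y i * ((s j : ℤ) : ℝ) + y k / y i * (w : ℝ) - ((-(s i) : ℤ) : ℝ) =
            (s i : ℝ) + (y j / y i * s j + y k / y i * w) := by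
          push_cast
          ring
        rw [e1]
        exact h3
      · rw [← hq]
        refine mul_le_mul_of_nonneg_right ?_ (add_nonneg (mul_nonneg (mul_nonneg (by norm_num) hq0.le) hθ0) (by norm_num))
        have h3 : (n : ℝ) / q ≤ 3 * D / q := div_le_div_of_nonneg_right hnR hq0.le
        linarith
    · obtain ⟨h4, h5⟩ := hY' s hs
      exact ⟨(hY s h4).1, (hY s h4).2, h5⟩
  -- first step
  have s1 : (X.card : ℝ) ≤ 3 * D * ((3 * D / q + 1) * (2 * q * θ' + 3) * (9 / 2)) := by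
    have hc0 : 0 ≤ (3 * D / q + 1) * (2 * q * θ' + 3) * (9 / 2) :=
      mul_nonneg (mul_nonneg (add_nonneg (div_nonneg (mul_nonneg (by norm_num) hD0.le) hq0.le) zero_le_one)
        (add_nonneg (mul_nonneg (mul_nonneg (by norm_num) hq0.le) hθ0) (by norm_num))) (by norm_num)
    refine n4_fib X (fun s => s k) _ _ hc0 (fun Z hZ => ?_) s2
    have hsub : Z ⊆ Finset.Icc (-⌊D⌋) ⌊D⌋ := by
      intro x hx
      obtain ⟨s, hs, rfl⟩ := hZ x hx
      exact Finset.mem_Icc.2 (hbox s hs k)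
    have h3 := Finset.card_le_card hsub
    rw [Int.card_Icc] at h3
    have h4 : Z.card ≤ n := by
      refine h3.trans (le_of_eq ?_)
      rw [hn]
      congr 1
      ring
    exact (Nat.cast_le.2 h4).trans hnR
  refine s1.trans ?_
  have e1 : 3 * D * ((3 * D / q + 1) * (2 * q * θ' + 3) * (9 / 2)) =
      567 / 4 * (D ^ 2 * θ) + 243 / 2 * (D ^ 2 / q) + 81 / 2 * D + 189 / 4 * (D * q * θ) := by
    rw [hθ']
    field_simp
    ring
  rw [e1]
  have hb400 := P.pow_pos 400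
  have h3 : D ^ 2 / q ≤ D ^ 2 / P.b ^ 400 := by
    refine div_le_div_of_nonneg_left (sq_nonneg D) hb400 ?_
    rw [hq]
    exact hr1
  have h4 : D * q * θ ≤ D * P.b ^ 2400 * θ := by
    refine mul_le_mul_of_nonneg_right (mul_le_mul_of_nonneg_left ?_ (by linarith)) h0
    rw [hq]
    exact hr2
  have h5 : 0 ≤ D ^ 2 * θ := mul_nonneg (sq_nonneg D) h0
  have h6 : 0 ≤ D ^ 2 / q := div_nonneg (sq_nonneg D) hq0.le
  have h7 : 0 ≤ D * q * θ := mul_nonneg (mul_nonneg hD0.le hq0.le) h0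
  linarith

end H9F
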