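import Pool.Agent.Lib.H9F.N10A
import Pool.Agent.Lib.H9F.N4
import Pool.Agent.Lib.H9F.Dya

/-!
# H9F N10B: resonant pairs of medium length
-/

open scoped BigOperators Topology
open Set Filter

noncomputable section

namespace H9F

open Fermi

variable {M : ℝ} {μ : ℂ} {P : Big M μ}

/-- the numbers in `pair_mid` -/
theorem n10b_arith {R S θ : ℝ} (hS : P.b ^ 360 ≤ S) (hSR : S ≤ R / P.b ^ 400) (hR : P.b ^ 9999 ≤ R)
    (hθ : θ * R = 41 * P.rho * S) :
    300 * ((2 * S) ^ 2 * θ + (2 * S) ^ 2 / P.b ^ 400 + 2 * S + 2 * S * P.b ^ 2400 * θ) ≤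
      S ^ 2 * (1 / P.b ^ 358) := by
  have hb0 := P.b_pos
  have hS0 : 0 < S := lt_of_lt_of_le (P.pow_pos 360) hS
  have hR0 : 0 < R := lt_of_lt_of_le (P.pow_pos 9999) hR
  have hρ0 := P.rho_pos
  have h41 : 41 * P.rho ≤ 1 := by
    have := P.rho_le_small
    norm_num at this
    linarith
  have h400 := P.pow_pos 400
  have h360 := P.pow_pos 360
  have h358 := P.pow_pos 358
  rw [le_div_iff₀ h400] at hSR
  have hθS : θ ≤ S / R := by
    rw [le_div_iff₀ hR0, hθ]
    nlinarith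
  have hθ1 : θ ≤ 1 / P.b ^ 400 := by
    refine hθS.trans ?_
    rw [div_le_div_iff₀ hR0 h400, one_mul]
    exact hSR
  have hone : P.b ^ 360 ≤ P.b ^ 400 := P.pow_le (by norm_num)
  have e1 : 1 / P.b ^ 400 ≤ 1 / P.b ^ 360 := one_div_le_one_div_of_le h360 hone
  set u := S ^ 2 * (1 / P.b ^ 360) with hu
  have t1 : (2 * S) ^ 2 * θ ≤ 4 * u := by
    have : S ^ 2 * θ ≤ S ^ 2 * (1 / P.b ^ 360) :=
      mul_le_mul_of_nonneg_left (hθ1.trans e1) (sq_nonneg S)
    linarith
  have t2 : (2 * S) ^ 2 / P.b ^ 400 ≤ 4 * u := by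
    have h1 : S ^ 2 * (1 / P.b ^ 400) ≤ S ^ 2 * (1 / P.b ^ 360) :=
      mul_le_mul_of_nonneg_left e1 (sq_nonneg S)
    have h2 : (2 * S) ^ 2 / P.b ^ 400 = 4 * (S ^ 2 * (1 / P.b ^ 400)) := by ring
    linarith
  have t3 : 2 * S ≤ 2 * u := by
    have h1 : S ≤ u := by
      rw [hu, mul_one_div, le_div_iff₀ h360, sq]
      exact mul_le_mul_of_nonneg_left hS hS0.le
    linarith
  have t4 : 2 * S * P.b ^ 2400 * θ ≤ 2 * u := by
    have h2400 := P.pow_pos 2400
    have h1 : P.b ^ 2400 / R ≤ 1 / P.b ^ 360 := by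
      rw [div_le_div_iff₀ hR0 h360, one_mul, ← pow_add]
      exact (P.pow_le (by norm_num)).trans hR
    have h2 : S * P.b ^ 2400 * θ ≤ S * P.b ^ 2400 * (S / R) :=
      mul_le_mul_of_nonneg_left hθS (by positivity)
    have h3 : S * P.b ^ 2400 * (S / R) = S ^ 2 * (P.b ^ 2400 / R) := by ring
    have h4 : S ^ 2 * (P.b ^ 2400 / R) ≤ u := mul_le_mul_of_nonneg_left h1 (sq_nonneg S)
    linarith
  have t5 : 3600 * u ≤ S ^ 2 * (1 / P.b ^ 358) := by
    have h1 : 3600 * P.b ^ 358 ≤ P.b ^ 360 := P.mul_pow_le (by norm_num) (by norm_num)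
    have h2 : 3600 * (1 / P.b ^ 360) ≤ 1 / P.b ^ 358 := by
      rw [mul_one_div, div_le_div_iff₀ h360 h358, one_mul]
      exact h1
    calc 3600 * u = S ^ 2 * (3600 * (1 / P.b ^ 360)) := by rw [hu]; ring
      _ ≤ _ := mul_le_mul_of_nonneg_left h2 (sq_nonneg S)
  linarith

/-- Proof. `dyadic_card` with `g i = nz (i.2 - i.1)`, `S₀ = b^360`, `J = P.J`, `a j = 1/S²`, `S = S₀ 2^j`. Group `j` is empty if `S > R/b^400`
(then `c j = 0`). Otherwise: `|dt (im p) s| ≤ b + 40 ρ S ≤ 41 ρ S =: θ R` (`gs_im`; `ρ S ≥ b^260`), `θ ≤ 1`; by `count_Z` with `D = 2 S` there are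
at most `150 (4 S² θ + 4 S²/b^400 + 2 S + 2 S b^2400 θ)` vectors `s = i.2 - i.1`, and each belongs to at most two pairs (`two_sites`), so
`c j a j = 300 (4 θ + 4/b^400 + 2/S + 2 b^2400 θ/S) ≤ 300 (164/b^500 + 4/b^400 + 2/b^360 + 82 b^2300/b^9999) ≤ 1/b^358`
(`θ ≤ 41 ρ/b^400`, `θ/S = 41 ρ/R`). The sum over `j < J ≤ b` is at most `1/b^357 ≤ 1/b^300`. -/
theorem pair_mid {p : Cd 3} (hy : YY P 4 (im p)) (X : Finset (Zd 3 × Zd 3))
    (hX : ∀ i ∈ X, NPr P p i ∧ P.b ^ 360 ≤ nz (i.2 - i.1) ∧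
      nz (i.2 - i.1) ≤ nr (im p) / P.b ^ 400) :
    ∑ i ∈ X, 1 / nz (i.2 - i.1) ^ 2 ≤ 1 / P.b ^ 300 := by
  classical
  have hb0 := P.b_pos
  have hb1 := P.one_le_b
  have hρ0 := P.rho_pos
  have hR := hy.R_pos
  have hRge := hy.R_ge
  have hRle := hy.R_le
  have h400 := P.pow_pos 400
  have h360 := P.pow_pos 360
  have h358 := P.pow_pos 358
  have h357 := P.pow_pos 357
  have hdy := dyadic_sum X (fun i => nz (i.2 - i.1)) (fun i => 1 / nz (i.2 - i.1) ^ 2) (P.b ^ 360)
    h360 P.J (fun _ => 1 / P.b ^ 358) (by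
      intro i hi
      obtain ⟨-, h1, h2⟩ := hX i hi
      refine ⟨h1, ?_⟩
      have h3 : nr (im p) / P.b ^ 400 ≤ nr (im p) :=
        div_le_self hR.le (one_le_pow₀ hb1)
      have h4 : P.b ^ 12001 < P.b ^ 360 * P.b ^ 13000 := by
        rw [← pow_add]
        have h5 : 2 * P.b ^ 12001 ≤ P.b ^ (360 + 13000) := P.mul_pow_le (by norm_num) (by norm_num)
        have h6 := P.pow_pos 12001
        linarith
      have h5 : P.b ^ 360 * P.b ^ 13000 ≤ P.b ^ 360 * 2 ^ P.J :=
        mul_le_mul_of_nonneg_left P.b_pow_le_two h360.le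
      show nz (i.2 - i.1) < P.b ^ 360 * 2 ^ P.J
      linarith) (by
      intro j _ Y hYX hY
      rcases Y.eq_empty_or_nonempty with rfl | ⟨i₀, hi₀⟩
      · rw [Finset.sum_empty]
        positivity
      set S := P.b ^ 360 * 2 ^ j with hS
      have h2j : (1 : ℝ) ≤ 2 ^ j := one_le_pow₀ (by norm_num)
      have hS1 : P.b ^ 360 ≤ S := le_mul_of_one_le_right h360.le h2j
      have hS0 : 0 < S := lt_of_lt_of_le h360 hS1
      have hS2 : ∀ i ∈ Y, S ≤ nz (i.2 - i.1) ∧ nz (i.2 - i.1) ≤ 2 * S := by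
        intro i hi
        have h1 := hY i hi
        refine ⟨h1.1, ?_⟩
        have h2 : P.b ^ 360 * 2 ^ (j + 1) = 2 * S := by rw [hS]; ring
        exact (h2 ▸ h1.2).le
      have hSR : S ≤ nr (im p) / P.b ^ 400 := (hS2 i₀ hi₀).1.trans (hX i₀ (hYX hi₀)).2.2
      set θ := 41 * P.rho * S / nr (im p) with hθ
      have hθR : θ * nr (im p) = 41 * P.rho * S := by rw [hθ]; field_simp
      have hθ0 : 0 ≤ θ := by positivity
      have h41 : 41 * P.rho ≤ 1 := by
        have := P.rho_le_small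
        norm_num at this
        linarith
      have hSR' : S ≤ nr (im p) := hSR.trans (div_le_self hR.le (one_le_pow₀ hb1))
      have hθ1 : θ ≤ 1 := by
        rw [hθ, div_le_one hR]
        nlinarith
      have hρS : P.b ≤ P.rho * S := by
        have h1 := P.rho_eq 260
        norm_num at h1
        have h2 : P.rho * P.b ^ 360 ≤ P.rho * S := mul_le_mul_of_nonneg_left hS1 hρ0.le
        have h3 : P.b ≤ P.b ^ 260 := le_self_pow₀ hb1 (by norm_num)
        linarith
      have hZ := count_Z hy (2 * S) θ (by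
          have : (1 : ℝ) ≤ P.b ^ 360 := one_le_pow₀ hb1
          linarith) hθ0 hθ1
        (Y.image fun i => i.2 - i.1) (by
          intro s hs
          obtain ⟨i, hi, rfl⟩ := Finset.mem_image.1 hs
          refine ⟨(hS2 i hi).2, ?_⟩
          rw [hθR]
          have h1 := (Complex.abs_im_le_norm _).trans (hX i (hYX hi)).1.hg
          rw [gs_im, im_add_zc, abs_mul, abs_two] at h1
          have h2 : P.rho * nz (i.2 - i.1) ≤ P.rho * (2 * S) :=
            mul_le_mul_of_nonneg_left (hS2 i hi).2 hρ0.le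
          linarith)
      have hcard : Y.card ≤ 2 * (Y.image fun i => i.2 - i.1).card := by
        refine Finset.card_le_mul_card_image Y 2 ?_
        intro s hs
        obtain ⟨i₁, hi₁, hi₁s⟩ := Finset.mem_image.1 hs
        have hinj : Set.InjOn Prod.fst ((Y.filter (fun i => i.2 - i.1 = s) : Finset (Zd 3 × Zd 3)) :
            Set (Zd 3 × Zd 3)) := by
          intro x hx y hy' hxy
          rw [Finset.mem_coe, Finset.mem_filter] at hx hy'
          have h1 := hx.2
          rw [← hy'.2, ← hxy] at h1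
          exact Prod.ext hxy (sub_left_injective h1)
        rw [← Finset.card_image_of_injOn hinj]
        refine two_sites hy (s := s) ?_ ?_ _ ?_
        · rw [← hi₁s]
          have h1 : P.b ^ 120 < P.b ^ 360 := by
            have h2 : 2 * P.b ^ 120 ≤ P.b ^ 360 := P.mul_pow_le (by norm_num) (by norm_num)
            have h3 := P.pow_pos 120
            linarith
          exact lt_of_lt_of_le h1 (hX i₁ (hYX hi₁)).2.1
        · rw [← hi₁s]
          exact (hX i₁ (hYX hi₁)).2.2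
        · intro n hn'
          obtain ⟨i, hi, rfl⟩ := Finset.mem_image.1 hn'
          rw [Finset.mem_filter] at hi
          have h1 := (hX i (hYX hi.1)).1
          refine ⟨h1.h1.trans ?_, ?_⟩
          · have : 0 ≤ nr (im p) * P.rho := mul_nonneg hR.le hρ0.le
            linarith
          · rw [← hi.2]
            exact h1.hg
      have hcard' : (Y.card : ℝ) ≤ 2 * ((Y.image fun i => i.2 - i.1).card : ℝ) := by
        exact_mod_cast hcard
      have har := n10b_arith hS1 hSR hRge hθR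
      have hcardS : (Y.card : ℝ) ≤ S ^ 2 * (1 / P.b ^ 358) := by linarith
      calc ∑ i ∈ Y, 1 / nz (i.2 - i.1) ^ 2 ≤ ∑ _i ∈ Y, 1 / S ^ 2 := by
            refine Finset.sum_le_sum fun i hi => ?_
            exact one_div_le_one_div_of_le (by positivity)
              (pow_le_pow_left₀ hS0.le (hS2 i hi).1 2)
        _ = (Y.card : ℝ) * (1 / S ^ 2) := by rw [Finset.sum_const, nsmul_eq_mul]
        _ ≤ (S ^ 2 * (1 / P.b ^ 358)) * (1 / S ^ 2) :=
            mul_le_mul_of_nonneg_right hcardS (by positivity)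
        _ = 1 / P.b ^ 358 := by field_simp)
  refine hdy.trans ?_
  rw [Finset.sum_const, Finset.card_range, nsmul_eq_mul]
  have h300 := P.pow_pos 300
  calc (P.J : ℝ) * (1 / P.b ^ 358) ≤ P.b * (1 / P.b ^ 358) :=
        mul_le_mul_of_nonneg_right P.J_le_b (by positivity)
    _ ≤ 1 / P.b ^ 300 := by
        rw [mul_one_div, div_le_div_iff₀ h358 h300, one_mul, ← pow_succ']
        exact P.pow_le (by norm_num)

end H9F
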