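import Pool.Agent.Lib.H9F.N0

/-!
# H9F N2: a ratio of coordinates of `y` has a good rational approximation with large denominator
-/

open scoped BigOperators Topology
open Set Filter

noncomputable section

namespace H9F

open Fermi

variable {M : ℝ} {μ : ℂ} {P : Big M μ}

theorem n2_fin : ∀ i t : Fin 3, t = i ∨ t = i + 1 ∨ t = i + 2 := by decide
theorem n2_ne1 : ∀ i : Fin 3, i + 1 ≠ i := by decide
theorem n2_ne2 : ∀ i : Fin 3, i + 2 ≠ i := by decide
theorem n2_ne3 : ∀ i : Fin 3, i + 2 ≠ i + 1 := by decide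

/-- Dirichlet approximation at the level `b^2400`. -/
theorem n2_app (P : Big M μ) {α : ℝ} (hα : |α| ≤ 1) : ∃ r : ℚ, (r.den : ℝ) ≤ P.b ^ 2400 ∧
    |α - r| ≤ 1 / (r.den * P.b ^ 2400) ∧ |(r.num : ℝ)| ≤ 2 * r.den := by
  have hB : 0 < P.B := by
    have h := P.b_pos
    unfold Big.b at h
    exact_mod_cast h
  have hn : 0 < P.B ^ 2400 := Nat.pow_pos hB
  obtain ⟨r, h1, h2⟩ := Real.exists_rat_abs_sub_le_and_den_le α hn
  have hden : (0 : ℝ) < r.den := by exact_mod_cast r.pos
  have hden1 : (1 : ℝ) ≤ r.den := by exact_mod_cast r.pos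
  have hBb : ((P.B ^ 2400 : ℕ) : ℝ) = P.b ^ 2400 := by
    rw [Nat.cast_pow]
    rfl
  have hbp := P.pow_pos 2400
  have hb1 : 1 ≤ P.b ^ 2400 := one_le_pow₀ P.one_le_b
  have h3 : |α - r| ≤ 1 / (r.den * P.b ^ 2400) := by
    refine h1.trans ?_
    rw [hBb]
    refine one_div_le_one_div_of_le (mul_pos hden hbp) ?_
    rw [mul_comm]
    exact mul_le_mul_of_nonneg_right (by linarith) hden.le
  refine ⟨r, ?_, h3, ?_⟩
  · rw [← hBb]
    exact_mod_cast h2
  · have h4 : |α - r| ≤ 1 := by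
      refine h3.trans ?_
      rw [div_le_one (mul_pos hden hbp)]
      nlinarith
    have h5 : |(r : ℝ)| ≤ 2 := by
      have h6 : (r : ℝ) = α - (α - r) := by ring
      rw [h6]
      have h7 := abs_sub α (α - r)
      linarith [abs_sub α (α - (r : ℝ))]
    have h6 : (r.num : ℝ) = r * r.den := by
      have := Rat.mul_den_eq_num r
      exact_mod_cast this.symm
    rw [h6, abs_mul, abs_of_pos hden]
    exact mul_le_mul_of_nonneg_right h5 hden.le

/-- (N2) Proof: `i` the index with `|y i|` largest. For the two other indices take Dirichlet approximations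
`Real.exists_rat_abs_sub_le_and_den_le` of `y j / y i` with `n = B^2400` (denominator `≤ n`, error `≤ 1/((n+1) den)`).
If both denominators `q1, q2` were `< b^400`, the integer vector `l` with `l_i = q1 q2`, `l_j = p1 q2`, `l_k = p2 q1`
(`|p| ≤ 2q`, so `|l_j| ≤ 2 b^800 ≤ b^820`) satisfies
`|l - (q1 q2 / y_i) y|_j ≤ q2/b^2400, q1/b^2400`, contradicting `far_line` (`2·2b^1660·2b^400/b^2400 < 1`). -/
theorem dirich {y : Fin 3 → ℝ} (hy : YY P 4 y) : ∃ i j : Fin 3, i ≠ j ∧ (∀ k, |y k| ≤ |y i|) ∧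
    ∃ r : ℚ, P.b ^ 400 ≤ (r.den : ℝ) ∧ (r.den : ℝ) ≤ P.b ^ 2400 ∧
      |y j / y i - r| ≤ 1 / (r.den * P.b ^ 2400) := by
  obtain ⟨i, hi⟩ := Finite.exists_max fun k => |y k|
  have hyne : y ≠ 0 := by
    rintro rfl
    have h1 := hy.lo
    rw [nr_zero, mul_zero] at h1
    exact absurd h1 (not_le.2 (P.pow_pos 10000))
  have hyi : y i ≠ 0 := by
    intro h0
    apply hyne
    funext k
    have h1 : |y k| ≤ |y i| := hi k
    rw [h0, abs_zero] at h1
    exact abs_eq_zero.1 (le_antisymm h1 (abs_nonneg _))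
  have hα : ∀ k, |y k / y i| ≤ 1 := by
    intro k
    rw [abs_div, div_le_one (abs_pos.2 hyi)]
    exact hi k
  obtain ⟨r1, a1, a2, a3⟩ := n2_app P (hα (i + 1))
  obtain ⟨r2, b1, b2, b3⟩ := n2_app P (hα (i + 2))
  by_cases h1 : P.b ^ 400 ≤ (r1.den : ℝ)
  · exact ⟨i, i + 1, (n2_ne1 i).symm, hi, r1, h1, a1, a2⟩
  by_cases h2 : P.b ^ 400 ≤ (r2.den : ℝ)
  · exact ⟨i, i + 2, (n2_ne2 i).symm, hi, r2, h2, b1, b2⟩
  exfalso
  rw [not_le] at h1 h2
  have hq1 : (0 : ℝ) < r1.den := by exact_mod_cast r1.pos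
  have hq2 : (0 : ℝ) < r2.den := by exact_mod_cast r2.pos
  have hb400 := P.pow_pos 400
  have hb2400 := P.pow_pos 2400
  set l : Zd 3 := fun t => if t = i then (r1.den : ℤ) * r2.den else if t = i + 1 then r1.num * r2.den else r2.num * r1.den with hl
  have li : l i = (r1.den : ℤ) * r2.den := by rw [hl]; exact if_pos rfl
  have lj : l (i + 1) = r1.num * r2.den := by
    rw [hl]
    show (if i + 1 = i then _ else _) = _
    rw [if_neg (n2_ne1 i), if_pos rfl]
  have lk : l (i + 2) = r2.num * r1.den := by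
    rw [hl]
    show (if i + 2 = i then _ else _) = _
    rw [if_neg (n2_ne2 i), if_neg (n2_ne3 i)]
  have hl0 : l ≠ 0 := by
    intro h0
    have h3 := congrFun h0 i
    rw [li, Pi.zero_apply] at h3
    rcases mul_eq_zero.1 h3 with h4 | h4
    · exact r1.den_nz (by exact_mod_cast h4)
    · exact r2.den_nz (by exact_mod_cast h4)
  have hqq : (r1.den : ℝ) * r2.den ≤ P.b ^ 800 := by
    calc (r1.den : ℝ) * r2.den ≤ P.b ^ 400 * P.b ^ 400 := mul_le_mul h1.le h2.le hq2.le hb400.le
      _ = P.b ^ 800 := by rw [← pow_add]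
  have h820 : 2 * P.b ^ 800 ≤ P.b ^ 820 := P.mul_pow_le (by norm_num) (by norm_num)
  have hb800 := P.pow_pos 800
  have hlb : ∀ t, |(l t : ℝ)| ≤ P.b ^ 820 := by
    intro t
    rcases n2_fin i t with rfl | rfl | rfl
    · rw [li]
      push_cast
      rw [abs_of_pos (mul_pos hq1 hq2)]
      linarith
    · rw [lj]
      push_cast
      rw [abs_mul, abs_of_pos hq2]
      have h3 := mul_le_mul_of_nonneg_right a3 hq2.le
      linarith
    · rw [lk]
      push_cast
      rw [abs_mul, abs_of_pos hq1]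
      have h3 := mul_le_mul_of_nonneg_right b3 hq1.le
      linarith
  set c : ℝ := (r1.den : ℝ) * r2.den / y i with hc
  have h3 := far_line hy hl0 hlb c
  obtain ⟨e, he⟩ : ∃ e : ℝ, e = P.b ^ 400 / P.b ^ 2400 := ⟨_, rfl⟩
  have he0 : 0 ≤ e := by
    rw [he]
    exact (div_pos hb400 hb2400).le
  have hcomp : ∀ t, |(rz l - c • y) t| ≤ e := by
    intro t
    have e1 : (rz l - c • y) t = (l t : ℝ) - c * y t := rfl
    rw [e1]
    rcases n2_fin i t with rfl | rfl | rfl
    · rw [li, hc, div_mul_cancel₀ _ hyi]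
      push_cast
      rw [sub_self, abs_zero]
      exact he0
    · rw [lj, hc]
      have h6 : (r1.num : ℝ) = r1 * r1.den := by
        have := Rat.mul_den_eq_num r1
        exact_mod_cast this.symm
      have e2 : (((r1.num * (r2.den : ℤ) : ℤ)) : ℝ) - (r1.den : ℝ) * r2.den / y i * y (i + 1) =
          -((r1.den : ℝ) * r2.den) * (y (i + 1) / y i - r1) := by
        push_cast
        rw [h6]
        field_simp
        ring
      rw [e2, abs_mul, abs_neg, abs_of_pos (mul_pos hq1 hq2)]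
      calc (r1.den : ℝ) * r2.den * |y (i + 1) / y i - r1| ≤ (r1.den : ℝ) * r2.den * (1 / (r1.den * P.b ^ 2400)) :=
            mul_le_mul_of_nonneg_left a2 (mul_pos hq1 hq2).le
        _ = r2.den / P.b ^ 2400 := by
            field_simp
        _ ≤ e := by
            rw [he]
            exact div_le_div_of_nonneg_right h2.le hb2400.le
    · rw [lk, hc]
      have h6 : (r2.num : ℝ) = r2 * r2.den := by
        have := Rat.mul_den_eq_num r2
        exact_mod_cast this.symm
      have e2 : (((r2.num * (r1.den : ℤ) : ℤ)) : ℝ) - (r1.den : ℝ) * r2.den / y i * y (i + 2) =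
          -((r1.den : ℝ) * r2.den) * (y (i + 2) / y i - r2) := by
        push_cast
        rw [h6]
        field_simp
        ring
      rw [e2, abs_mul, abs_neg, abs_of_pos (mul_pos hq1 hq2)]
      calc (r1.den : ℝ) * r2.den * |y (i + 2) / y i - r2| ≤ (r1.den : ℝ) * r2.den * (1 / (r2.den * P.b ^ 2400)) :=
            mul_le_mul_of_nonneg_left b2 (mul_pos hq1 hq2).le
        _ = r1.den / P.b ^ 2400 := by
            field_simp
        _ ≤ e := by
            rw [he]
            exact div_le_div_of_nonneg_right h1.le hb2400.le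
  have h4 := nr_le_of_abs hcomp
  obtain ⟨hn1, hn2⟩ := nz_nu P
  have h5 : 1 ≤ 2 * (2 * P.b ^ 1660) * (2 * e) := by
    refine h3.trans ?_
    exact mul_le_mul (mul_le_mul_of_nonneg_left hn2 (by norm_num)) h4 (nr_nonneg _)
      (mul_nonneg (by norm_num) (mul_nonneg (by norm_num) (P.pow_pos 1660).le))
  have h6 : e * P.b ^ 2400 = P.b ^ 400 := by
    rw [he, div_mul_cancel₀ _ hb2400.ne']
  have h7 : P.b ^ 2400 ≤ 8 * P.b ^ 2060 := by
    calc P.b ^ 2400 = 1 * P.b ^ 2400 := (one_mul _).symm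
      _ ≤ 2 * (2 * P.b ^ 1660) * (2 * e) * P.b ^ 2400 := mul_le_mul_of_nonneg_right h5 hb2400.le
      _ = 8 * (P.b ^ 1660 * (e * P.b ^ 2400)) := by ring
      _ = 8 * P.b ^ 2060 := by
          rw [h6, ← pow_add]
  have h8 : 9 * P.b ^ 2060 ≤ P.b ^ 2400 := P.mul_pow_le (by norm_num) (by norm_num)
  have h9 := P.pow_pos 2060
  linarith

end H9F
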