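import Pool.Agent.Lib.H9F.Defs

/-!
# H9F NR: first consequences of `YY`, `KC` (complete, no sorry)
-/

open scoped BigOperators Topology
open Set Filter

noncomputable section

namespace H9F

open Fermi

variable {M : ℝ} {μ : ℂ} {P : Big M μ}

theorem YY.mono {c c' : ℝ} {y : Fin 3 → ℝ} (h : YY P c y) (hc : c ≤ c') :
    YY P c' y := by
  have hR : 0 ≤ nr y := nr_nonneg y
  have h1 : 0 < P.b ^ 600 := P.pow_pos 600
  have h2 : 0 < P.b ^ 12000 := P.pow_pos 12000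
  have h3 : 0 ≤ nz P.nu := nz_nonneg _
  exact ⟨h.nu.trans (mul_le_mul_of_nonneg_right (mul_le_mul_of_nonneg_right hc h1.le) h3),
    h.lo.trans (mul_le_mul_of_nonneg_right hc hR),
    h.hi.trans (mul_le_mul_of_nonneg_right hc h2.le)⟩

/-- `R ≥ b^9999` -/
theorem YY.R_ge {y : Fin 3 → ℝ} (h : YY P 4 y) : P.b ^ 9999 ≤ nr y := by
  have h1 := h.lo
  have h2 : P.b * P.b ^ 9999 = P.b ^ 10000 := by ring
  have h3 : 4 ≤ P.b := le_trans (by norm_num) P.b_ge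
  have h4 := P.pow_pos 9999
  nlinarith

theorem YY.R_le {y : Fin 3 → ℝ} (h : YY P 4 y) : nr y ≤ P.b ^ 12001 := by
  have h1 := h.hi
  have h2 : P.b * P.b ^ 12000 = P.b ^ 12001 := by ring
  have h3 : 4 ≤ P.b := le_trans (by norm_num) P.b_ge
  have h4 := P.pow_pos 12000
  nlinarith

theorem YY.R_pos {y : Fin 3 → ℝ} (h : YY P 4 y) : 0 < nr y :=
  lt_of_lt_of_le (P.pow_pos 9999) h.R_ge

theorem YY.ne_zero {y : Fin 3 → ℝ} (h : YY P 4 y) : y ≠ 0 := by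
  rintro rfl
  have := h.R_pos
  rw [nr_zero] at this
  exact lt_irrefl _ this

/-- `c b^i ≤ R` for `c ≤ 10^36`, `i ≤ 9998` -/
theorem YY.mul_le {y : Fin 3 → ℝ} (h : YY P 4 y) {c : ℝ} {i : ℕ} (hc : c ≤ 10 ^ 36)
    (hi : i ≤ 9998) : c * P.b ^ i ≤ nr y :=
  (P.mul_pow_le hc (by omega)).trans h.R_ge

/-- `√R ≥ b^4999` -/
theorem YY.sqrt_ge {y : Fin 3 → ℝ} (h : YY P 4 y) : P.b ^ 4999 ≤ Real.sqrt (nr y) := by
  refine Real.le_sqrt_of_sq_le ?_
  have h1 : (P.b ^ 4999) ^ 2 = P.b ^ 9998 := by rw [← pow_mul]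
  rw [h1]
  exact (P.pow_le (by norm_num)).trans h.R_ge

theorem KC.R_pos {k : Cd 3} (h : KC P k) : 0 < nr (im k) := h.yy.R_pos

/-- `|Re k|` is close to `R` -/
theorem KC.re_sq {k : Cd 3} (h : KC P k) :
    |nr (re k) ^ 2 - nr (im k) ^ 2| ≤ nr (im k) ^ 2 / 1000 + P.b := by
  have h1 := q0_re μ k
  have h2 := Complex.abs_re_le_norm (q μ k 0)
  have h3 := Complex.abs_re_le_norm μ
  have h4 := P.mu_le_b
  have h5 := h.hq
  have h6 : nr (re k) ^ 2 - nr (im k) ^ 2 = (q μ k 0).re + μ.re := by rw [h1]; ring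
  rw [h6]
  have h7 := abs_add_le (q μ k 0).re μ.re
  linarith

/-- `|Re k| ≤ 1.001 R` -/
theorem KC.re_le {k : Cd 3} (h : KC P k) : nr (re k) ≤ 1001 / 1000 * nr (im k) := by
  have h1 := (abs_le.1 h.re_sq).2
  have h2 := h.R_pos
  have h3 : 10 ^ 6 * P.b ^ 1 ≤ nr (im k) := h.yy.mul_le (by norm_num) (by norm_num)
  have h4 := P.one_le_b
  refine le_of_sq_le_sq ?_ (by positivity)
  rw [pow_one] at h3
  nlinarith

/-- `|Re k · Im k| ≤ R^2/1000` -/
theorem KC.dr_le {k : Cd 3} (h : KC P k) :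
    |dr (re k) (im k)| ≤ nr (im k) ^ 2 / 2000 + P.b := by
  have h1 := q0_im μ k
  have h2 := Complex.abs_im_le_norm (q μ k 0)
  have h3 := Complex.abs_im_le_norm μ
  have h4 := P.mu_le_b
  have h5 := h.hq
  have h6 : 2 * dr (re k) (im k) = (q μ k 0).im + μ.im := by rw [h1]; ring
  have h7 := abs_add_le (q μ k 0).im μ.im
  rw [← h6, abs_mul, abs_two] at h7
  have h8 := P.one_le_b
  linarith

/-- adding an integer vector: the site `n` of `p` is the site `0` of `p + n` -/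
theorem KC.of_site {p : Cd 3} (hy : YY P 4 (im p)) {n : Zd 3}
    (hn : ‖q μ p n‖ ≤ nr (im p) ^ 2 / 1000) : KC P (p + zc n) := by
  refine ⟨by rw [im_add_zc]; exact hy, ?_⟩
  rw [im_add_zc, ← q_shift]
  exact hn

end H9F
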