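import Pool.Agent.Lib.H9F.N4
import Pool.Agent.Lib.H9F.NR
import Pool.Agent.Lib.H9F.Dya

/-!
# H9F N5E: the sum over the small differences
-/

open scoped BigOperators Topology
open Set Filter

noncomputable section

namespace H9F

open Fermi

variable {M : ℝ} {μ : ℂ} {P : Big M μ}

open Classical in
theorem n5e_geom (T : ℝ) (hT : 0 ≤ T) (J : ℕ) :
    ∑ j ∈ Finset.range J, (if (2 : ℝ) ^ j ≤ T then (2 : ℝ) ^ j else 0) ≤ 2 * T ∧
      ∑ j ∈ Finset.range J, (if (2 : ℝ) ^ j ≤ T then (2 : ℝ) ^ j else 0) ≤ 2 ^ J := by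
  induction J with
  | zero => simp [hT]
  | succ J ih =>
    rw [Finset.sum_range_succ]
    have h0 : (0 : ℝ) < 2 ^ J := by positivity
    have h1 : (2 : ℝ) ^ (J + 1) = 2 * 2 ^ J := by ring
    rw [h1]
    split_ifs with h
    · constructor <;> linarith [ih.1, ih.2]
    · constructor <;> linarith [ih.1, ih.2]

theorem n5e_term {h θ B t : ℝ} (ht : 0 < t) (g : ℝ) :
    150 * ((2 * t) ^ 2 * θ + (2 * t) ^ 2 / B + 2 * t + 2 * t * g * θ) * (15 * h / t) =
      2250 * h * ((4 * θ + 4 / B) * t + 2 * (1 + g * θ)) := by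
  have ht' : t ≠ 0 := ht.ne'
  have e : 150 * ((2 * t) ^ 2 * θ + (2 * t) ^ 2 / B + 2 * t + 2 * t * g * θ) =
    150 * (4 * t * θ + 4 * t / B + 2 + 2 * g * θ) * t := by ring
  rw [e, mul_assoc, mul_div_cancel₀ _ ht']
  ring

/-- Proof: `θ = V/R ≤ 1`, `h = √V`. `dyadic_card` with `g = nz`, `S₀ = 1`, `J = P.J` (`nz d ≤ 2 h ≤ R < 2^J` by `P.b_pow_le_two`),
`f d = 15 h/nz d ≤ a j = 15 h/2^j`, and by `count_Z` with `D = 2^(j+1)` the number of `d` with `2^j ≤ nz d < 2^(j+1)` is at most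
`c j = 150 (4·4^j θ + 4·4^j/b^400 + 2·2^j + 2·2^j b^2400 θ)` if `2^j ≤ 2 h`, and `c j = 0` (the group is empty) if `2^j > 2 h`. So
`∑ 15 h/nz d ≤ 2250 h ∑_(j, 2^j ≤ 2 h) (4·2^j θ + 4·2^j/b^400 + 2 + 2 b^2400 θ) ≤ 2250 h (16 h θ + 16 h/b^400 + 2 J (1 + b^2400 θ))`
(`∑_(2^j ≤ 2h) 2^j ≤ 4 h`) and `J ≤ b`. The number of all `d` is at most
`150 (4 V θ + 4 V/b^400 + 2 h + 2 h b^2400 θ)` (`count_Z`, `D = 2 h`). Total: coefficients
`36000 + 1200` and `4500 + 600`, all `≤ 5·10^4`. -/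
theorem arc_dsum {y : Fin 3 → ℝ} (hy : YY P 4 y) {V : ℝ} (hV1 : 1 ≤ V) (hV : V ≤ nr y / 100)
    (Y : Finset (Zd 3)) (hY : ∀ d ∈ Y, d ≠ 0 ∧ nz d ^ 2 ≤ 4 * V ∧ |dt y d| ≤ V) :
    ∑ d ∈ Y, (15 * √V / nz d + 2) ≤ 5 * 10 ^ 4 * (V ^ 2 / nr y + V / P.b ^ 400 +
      √V * P.b * (1 + P.b ^ 2400 * V / nr y)) := by
  classical
  have hR := hy.R_pos
  have hV0 : 0 < V := by linarith
  obtain ⟨θ, hθ⟩ : ∃ θ : ℝ, θ = V / nr y := ⟨_, rfl⟩
  obtain ⟨h, hh⟩ : ∃ h : ℝ, h = √V := ⟨_, rfl⟩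
  obtain ⟨B, hB⟩ : ∃ B : ℝ, B = P.b ^ 400 := ⟨_, rfl⟩
  obtain ⟨g, hg⟩ : ∃ g : ℝ, g = P.b ^ 2400 := ⟨_, rfl⟩
  have hB0 : 0 < B := by rw [hB]; exact P.pow_pos 400
  have hg0 : 0 < g := by rw [hg]; exact P.pow_pos 2400
  have hθ0 : 0 ≤ θ := by rw [hθ]; positivity
  have hθ1 : θ ≤ 1 := by
    rw [hθ, div_le_one hR]
    linarith
  have hθR : θ * nr y = V := by rw [hθ, div_mul_cancel₀ _ hR.ne']
  have hh2 : h ^ 2 = V := by rw [hh]; exact Real.sq_sqrt hV0.le
  have hh0 : 0 ≤ h := by rw [hh]; exact Real.sqrt_nonneg _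
  have hh1 : 1 ≤ h := by
    by_contra hcon
    push Not at hcon
    nlinarith
  have hnz : ∀ d ∈ Y, 1 ≤ nz d ∧ nz d ≤ 2 * h := by
    intro d hd
    obtain ⟨h1, h2, -⟩ := hY d hd
    refine ⟨one_le_nz h1, ?_⟩
    apply le_of_sq_le_sq _ (by positivity)
    rw [mul_pow, hh2]
    linarith
  have hb1 := P.one_le_b
  have hJb := P.J_le_b
  -- the group bounds
  obtain ⟨a, ha⟩ : ∃ a : ℕ → ℝ, a = fun j => 15 * h / 2 ^ j := ⟨_, rfl⟩
  obtain ⟨c, hc⟩ : ∃ c : ℕ → ℝ, c = fun j => if (2 : ℝ) ^ j ≤ 2 * h then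
    150 * ((2 * 2 ^ j) ^ 2 * θ + (2 * 2 ^ j) ^ 2 / B + 2 * 2 ^ j + 2 * 2 ^ j * g * θ) else 0 :=
    ⟨_, rfl⟩
  have h1 := dyadic_card Y nz (fun d => 15 * h / nz d) 1 one_pos P.J c a (by
      intro j
      rw [ha]
      positivity) (by
      intro d hd
      refine ⟨(hnz d hd).1, ?_⟩
      have h2 : nz d ≤ nr y := by
        apply le_of_sq_le_sq _ hR.le
        have h3 := (hY d hd).2.1
        have h4 : 10 ^ 6 * P.b ^ 1 ≤ nr y := hy.mul_le (by norm_num) (by norm_num)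
        rw [pow_one] at h4
        nlinarith
      have h3 : P.b ^ 12001 < P.b ^ 13000 :=
        pow_lt_pow_right₀ (lt_of_lt_of_le (by norm_num) P.b_ge) (by norm_num)
      have h4 := P.b_pow_le_two
      have h5 := hy.R_le
      linarith) (by
      intro j _ Y' hY' hj
      rw [hc]
      simp only
      split_ifs with hcase
      · have h2 := count_Z hy (2 * 2 ^ j) θ (by
            have : (1 : ℝ) ≤ 2 ^ j := one_le_pow₀ (by norm_num)
            linarith) hθ0 hθ1 Y' (by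
            intro s hs
            refine ⟨?_, ?_⟩
            · have := (hj s hs).2
              rw [pow_succ] at this
              linarith
            · rw [hθR]
              exact (hY s (hY' hs)).2.2)
        rw [← hB, ← hg] at h2
        exact h2
      · have : Y' = ∅ := by
          rw [Finset.eq_empty_iff_forall_notMem]
          intro s hs
          have h2 := (hj s hs).1
          have h3 := (hnz s (hY' hs)).2
          apply hcase
          linarith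
        rw [this]
        simp) (by
      intro j _ d hd h2 _
      rw [ha]
      simp only
      apply div_le_div_of_nonneg_left (by positivity) (by positivity)
      linarith)
  have hgeom := (n5e_geom (2 * h) (by linarith) P.J).1
  have h2 : ∑ j ∈ Finset.range P.J, c j * a j ≤ ∑ j ∈ Finset.range P.J,
      2250 * h * ((4 * θ + 4 / B) * (if (2 : ℝ) ^ j ≤ 2 * h then (2 : ℝ) ^ j else 0) +
        2 * (1 + g * θ)) := by
    apply Finset.sum_le_sum
    intro j _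
    rw [hc, ha]
    simp only
    split_ifs
    · exact (n5e_term (by positivity) g).le
    · rw [zero_mul]
      positivity
  have h3 : ∑ j ∈ Finset.range P.J,
      2250 * h * ((4 * θ + 4 / B) * (if (2 : ℝ) ^ j ≤ 2 * h then (2 : ℝ) ^ j else 0) +
        2 * (1 + g * θ)) = 2250 * h * ((4 * θ + 4 / B) *
      ∑ j ∈ Finset.range P.J, (if (2 : ℝ) ^ j ≤ 2 * h then (2 : ℝ) ^ j else 0) +
        P.J * (2 * (1 + g * θ))) := by
    rw [← Finset.mul_sum, Finset.sum_add_distrib, ← Finset.mul_sum, Finset.sum_const,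
      Finset.card_range, nsmul_eq_mul]
  have h4 : 2250 * h * ((4 * θ + 4 / B) *
      ∑ j ∈ Finset.range P.J, (if (2 : ℝ) ^ j ≤ 2 * h then (2 : ℝ) ^ j else 0) +
        P.J * (2 * (1 + g * θ))) ≤ 2250 * h * ((4 * θ + 4 / B) * (2 * (2 * h)) +
        P.b * (2 * (1 + g * θ))) := by
    apply mul_le_mul_of_nonneg_left _ (by positivity)
    apply add_le_add
    · exact mul_le_mul_of_nonneg_left hgeom (by positivity)
    · exact mul_le_mul_of_nonneg_right hJb (by positivity)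
  have h5 := count_Z hy (2 * h) θ (by linarith) hθ0 hθ1 Y (by
    intro s hs
    refine ⟨(hnz s hs).2, ?_⟩
    rw [hθR]
    exact (hY s hs).2.2)
  rw [← hB, ← hg] at h5
  rw [Finset.sum_add_distrib, Finset.sum_const, nsmul_eq_mul, ← hh, ← hB, ← hg]
  have e1 : V ^ 2 / nr y = V * θ := by rw [hθ]; ring
  have e2 : g * V / nr y = g * θ := by rw [hθ]; ring
  rw [e1, e2]
  have e3 : 2250 * h * ((4 * θ + 4 / B) * (2 * (2 * h)) + P.b * (2 * (1 + g * θ))) =
      36000 * (V * θ) + 36000 * (V / B) + 4500 * (h * P.b * (1 + g * θ)) := by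
    rw [← hh2]
    ring
  have e4 : 150 * ((2 * h) ^ 2 * θ + (2 * h) ^ 2 / B + 2 * h + 2 * h * g * θ) =
      600 * (V * θ) + 600 * (V / B) + 300 * (h * (1 + g * θ)) := by
    rw [← hh2]
    ring
  rw [e4] at h5
  have h6 : h * (1 + g * θ) ≤ h * P.b * (1 + g * θ) := by
    have : 0 ≤ h * (1 + g * θ) := by positivity
    nlinarith
  have h7 : 0 ≤ V * θ := by positivity
  have h8 : 0 ≤ V / B := by positivity
  have h9 : 0 ≤ h * P.b * (1 + g * θ) := by
    have := P.b_pos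
    positivity
  linarith

end H9F
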