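import Pool.Agent.Lib.H9F.N5D
import Pool.Agent.Lib.H9F.N5E

/-!
# H9F N5: the arc count
-/

open scoped BigOperators Topology
open Set Filter

noncomputable section

namespace H9F

open Fermi

variable {M : ℝ} {μ : ℂ} {P : Big M μ}

theorem n5_neg_right (x y : Fin 3 → ℝ) : dr x (-y) = -dr x y := by
  simp only [dr3, Pi.neg_apply]; ring
theorem n5_neg_left (x y : Fin 3 → ℝ) : dr (-x) y = -dr x y := by
  simp only [dr3, Pi.neg_apply]; ring

/-- the frame `(e1, -e2, e3)` -/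
def n5_F2 (E : Frm) : Frm :=
  ⟨E.e1, -E.e2, E.e3, E.h11, by rw [n5_neg_left, n5_neg_right, neg_neg]; exact E.h22, E.h33,
    by rw [n5_neg_right, E.h12, neg_zero], E.h13, by rw [n5_neg_left, E.h23, neg_zero]⟩

/-- the frame `(e2, e1, e3)` -/
def n5_F3 (E : Frm) : Frm :=
  ⟨E.e2, E.e1, E.e3, E.h22, E.h11, E.h33, by rw [dr_comm]; exact E.h12, E.h23, E.h13⟩

/-- the frame `(e2, -e1, e3)` -/
def n5_F4 (E : Frm) : Frm :=
  ⟨E.e2, -E.e1, E.e3, E.h22, by rw [n5_neg_left, n5_neg_right, neg_neg]; exact E.h11, E.h33,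
    by rw [n5_neg_right, dr_comm, E.h12, neg_zero], E.h23,
    by rw [n5_neg_left, E.h13, neg_zero]⟩

/-- (N5, ARC) Proof: `E` from `exists_adp`. The four frames `(e1, e2, e3)`, `(e1, -e2, e3)`, `(e2, e1, e3)`, `(e2, -e1, e3)` are all
adapted to `im k`, and every `s` satisfies `|dr β e1| ≤ dr β e2` (`β = re k + rz s`) for one of them. `Y` := the set of all
differences `d = s - s'`, `s, s' ∈ X`, with `d ≠ 0`, `nz d ^ 2 ≤ 4 V`; `|dt (im k) d| ≤ V` since `2 dt (im k) s = (gs k s).im`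
(`gs_im`, `dt` additive). `arc_sector` for the four parts of `X` and `arc_dsum`:
`card X ≤ 4 (2 S/√V + 2 + 5·10^4 (..)) ≤ 10^6 (..)`. -/
theorem arc {k : Cd 3} (hk : KC P k) {S V : ℝ} (hS : 1 ≤ S) (hV1 : 1 ≤ V)
    (hV : V ≤ nr (im k) / 100) (X : Finset (Zd 3)) (hX : ∀ s ∈ X, nz s ≤ S ∧ ‖gs k s‖ ≤ V) :
    (X.card : ℝ) ≤ 10 ^ 6 * (S / √V + 1 + V ^ 2 / nr (im k) + V / P.b ^ 400 +
      √V * P.b * (1 + P.b ^ 2400 * V / nr (im k))) := by
  classical
  have hR := hk.R_pos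
  have hVpos : 0 < V := lt_of_lt_of_le one_pos hV1
  obtain ⟨E, hE⟩ := exists_adp hk.yy.ne_zero
  set Y : Finset (Zd 3) := ((X ×ˢ X).image (fun p => p.1 - p.2)).filter
    (fun d => d ≠ 0 ∧ nz d ^ 2 ≤ 4 * V) with hYdef
  have hYmem : ∀ s ∈ X, ∀ s' ∈ X, s ≠ s' → nz (s - s') ^ 2 ≤ 4 * V → s - s' ∈ Y := by
    intro s hs s' hs' hne hn
    rw [hYdef, Finset.mem_filter, Finset.mem_image]
    exact ⟨⟨(s, s'), Finset.mem_product.2 ⟨hs, hs'⟩, rfl⟩, sub_ne_zero.2 hne, hn⟩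
  have hY0 : ∀ d ∈ Y, d ≠ 0 ∧ nz d ^ 2 ≤ 4 * V := fun d hd => (Finset.mem_filter.1 hd).2
  have hdt : ∀ s ∈ X, |2 * dt (im k) s| ≤ V := by
    intro s hs
    have h1 := (Complex.abs_im_le_norm (gs k s)).trans (hX s hs).2
    rwa [gs_im] at h1
  have hY1 : ∀ d ∈ Y, d ≠ 0 ∧ nz d ^ 2 ≤ 4 * V ∧ |dt (im k) d| ≤ V := by
    intro d hd
    refine ⟨(hY0 d hd).1, (hY0 d hd).2, ?_⟩
    rw [hYdef, Finset.mem_filter, Finset.mem_image] at hd
    obtain ⟨⟨⟨s, s'⟩, hp, rfl⟩, -⟩ := hd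
    obtain ⟨hs, hs'⟩ := Finset.mem_product.1 hp
    have h1 := hdt s hs
    have h2 := hdt s' hs'
    have h3 : dt (im k) (s - s') = dt (im k) s - dt (im k) s' := by
      rw [dt_eq, dt_eq, dt_eq, rz_sub, dr_sub_right]
    show |dt (im k) (s - s')| ≤ V
    rw [h3]
    rw [abs_le] at h1 h2 ⊢
    constructor <;> linarith [h1.1, h1.2, h2.1, h2.2]
  have hsum := arc_dsum hk.yy hV1 hV Y hY1
  have hsec : ∀ G : Frm, Adp G (im k) →
      ((X.filter (fun s => |dr (re k + rz s) G.e1| ≤ dr (re k + rz s) G.e2)).card : ℝ) ≤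
        2 * S / √V + 2 + ∑ d ∈ Y, (15 * √V / nz d + 2) := by
    intro G hG
    refine arc_sector hk hG (zero_le_one.trans hS) hV1 hV _ Y ?_ ?_ hY0
    · intro s hs
      obtain ⟨h1, h2⟩ := Finset.mem_filter.1 hs
      exact ⟨(hX s h1).1, (hX s h1).2, h2⟩
    · intro s hs s' hs'
      exact hYmem s (Finset.mem_filter.1 hs).1 s' (Finset.mem_filter.1 hs').1
  have hA2 : Adp (n5_F2 E) (im k) :=
    ⟨hE.f1, by show dr (im k) (-E.e2) = 0; rw [n5_neg_right, hE.f2, neg_zero], hE.f3⟩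
  have hA3 : Adp (n5_F3 E) (im k) := ⟨hE.f2, hE.f1, hE.f3⟩
  have hA4 : Adp (n5_F4 E) (im k) :=
    ⟨hE.f2, by show dr (im k) (-E.e1) = 0; rw [n5_neg_right, hE.f1, neg_zero], hE.f3⟩
  have c1 := hsec E hE
  have c2 := hsec _ hA2
  have c3 := hsec _ hA3
  have c4 := hsec _ hA4
  set X1 := X.filter (fun s => |dr (re k + rz s) E.e1| ≤ dr (re k + rz s) E.e2) with hX1
  set X2 := X.filter (fun s => |dr (re k + rz s) (n5_F2 E).e1| ≤ dr (re k + rz s) (n5_F2 E).e2)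
    with hX2
  set X3 := X.filter (fun s => |dr (re k + rz s) (n5_F3 E).e1| ≤ dr (re k + rz s) (n5_F3 E).e2)
    with hX3
  set X4 := X.filter (fun s => |dr (re k + rz s) (n5_F4 E).e1| ≤ dr (re k + rz s) (n5_F4 E).e2)
    with hX4
  have hcov : X ⊆ (X1 ∪ X2) ∪ (X3 ∪ X4) := by
    intro s hs
    rw [Finset.mem_union, Finset.mem_union, Finset.mem_union, hX1, hX2, hX3, hX4,
      Finset.mem_filter, Finset.mem_filter, Finset.mem_filter, Finset.mem_filter]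
    have e2 : dr (re k + rz s) (n5_F2 E).e2 = -dr (re k + rz s) E.e2 := n5_neg_right _ _
    have e4 : dr (re k + rz s) (n5_F4 E).e2 = -dr (re k + rz s) E.e1 := n5_neg_right _ _
    rw [e2, e4]
    show ((s ∈ X ∧ |dr (re k + rz s) E.e1| ≤ dr (re k + rz s) E.e2) ∨
      (s ∈ X ∧ |dr (re k + rz s) E.e1| ≤ -dr (re k + rz s) E.e2)) ∨
      ((s ∈ X ∧ |dr (re k + rz s) E.e2| ≤ dr (re k + rz s) E.e1) ∨
      (s ∈ X ∧ |dr (re k + rz s) E.e2| ≤ -dr (re k + rz s) E.e1))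
    generalize dr (re k + rz s) E.e1 = u
    generalize dr (re k + rz s) E.e2 = v
    rcases le_total |u| |v| with h1 | h1
    · left
      rcases le_total 0 v with h2 | h2
      · left; rw [abs_of_nonneg h2] at h1; exact ⟨hs, h1⟩
      · right; rw [abs_of_nonpos h2] at h1; exact ⟨hs, h1⟩
    · right
      rcases le_total 0 u with h2 | h2
      · left; rw [abs_of_nonneg h2] at h1; exact ⟨hs, h1⟩
      · right; rw [abs_of_nonpos h2] at h1; exact ⟨hs, h1⟩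
  have hcard : (X.card : ℝ) ≤ (X1.card + X2.card) + (X3.card + X4.card) := by
    have h1 : X.card ≤ (X1.card + X2.card) + (X3.card + X4.card) := by
      refine (Finset.card_le_card hcov).trans ((Finset.card_union_le _ _).trans ?_)
      exact Nat.add_le_add (Finset.card_union_le _ _) (Finset.card_union_le _ _)
    exact_mod_cast h1
  have p1 : 0 ≤ S / √V := by positivity
  have p2 : 0 ≤ V ^ 2 / nr (im k) := by positivity
  have p3 : 0 ≤ V / P.b ^ 400 := div_nonneg hVpos.le (P.pow_pos 400).le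
  have p4 : 0 ≤ √V * P.b * (1 + P.b ^ 2400 * V / nr (im k)) := by
    have h1 := P.b_pos
    have h2 := P.pow_pos 2400
    have h3 : 0 ≤ P.b ^ 2400 * V / nr (im k) := div_nonneg (mul_nonneg h2.le hVpos.le) hR.le
    exact mul_nonneg (mul_nonneg (Real.sqrt_nonneg _) h1.le) (by linarith)
  rw [mul_div_assoc] at c1 c2 c3 c4
  generalize S / √V = a1 at *
  generalize V ^ 2 / nr (im k) = a2 at *
  generalize V / P.b ^ 400 = a3 at *
  generalize √V * P.b * (1 + P.b ^ 2400 * V / nr (im k)) = a4 at *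
  linarith

end H9F
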