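import Pool.Agent.Lib.H9F.NR

/-!
# H9F N5A: frames, the points `re k + s` of an arc
-/

open scoped BigOperators Topology
open Set Filter

noncomputable section

namespace H9F

open Fermi

variable {M : ℝ} {μ : ℂ} {P : Big M μ}

/-- a frame adapted to `y`: `e3 = y/|y|` -/
structure Adp (E : Frm) (y : Fin 3 → ℝ) : Prop where
  f1 : dr y E.e1 = 0
  f2 : dr y E.e2 = 0
  f3 : dr y E.e3 = nr y

/-- Parseval. Proof: the matrix `A` with rows `e1, e2, e3` has `A * Aᵀ = 1` (the six relations of `Frm`), so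
`Aᵀ * A = 1` (`Matrix.mul_eq_one_comm`), and `x · y = x · (Aᵀ A y) = (A x) · (A y)`. -/
theorem Frm.parseval2 (E : Frm) (x y : Fin 3 → ℝ) :
    dr x y = dr x E.e1 * dr y E.e1 + dr x E.e2 * dr y E.e2 + dr x E.e3 * dr y E.e3 := by
  set A : Matrix (Fin 3) (Fin 3) ℝ := Matrix.of ![E.e1, E.e2, E.e3] with hA
  have h1 : A * A.transpose = 1 := by
    have a11 := E.h11
    have a22 := E.h22
    have a33 := E.h33
    have a12 := E.h12
    have a13 := E.h13
    have a23 := E.h23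
    rw [dr3] at a11 a22 a33 a12 a13 a23
    ext i j
    fin_cases i <;> fin_cases j <;>
      simp [hA, Matrix.mul_apply, Fin.sum_univ_three, Matrix.transpose_apply] <;> linarith
  have h2 : A.transpose * A = 1 := mul_eq_one_comm.1 h1
  have h3 : ∀ i j, ∑ l, A l i * A l j = if i = j then 1 else 0 := by
    intro i j
    have := congrFun (congrFun h2 i) j
    rw [Matrix.mul_apply, Matrix.one_apply] at this
    simpa [Matrix.transpose_apply] using this
  have e00 := h3 0 0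
  have e01 := h3 0 1
  have e02 := h3 0 2
  have e11 := h3 1 1
  have e12 := h3 1 2
  have e22 := h3 2 2
  simp only [hA, Fin.sum_univ_three, Matrix.of_apply, Matrix.cons_val_zero, Matrix.cons_val_one,
    Matrix.cons_val] at e00 e01 e02 e11 e12 e22
  simp at e00 e01 e02 e11 e12 e22
  simp only [dr3]
  linear_combination (-(x 0 * y 0)) * e00 - (x 0 * y 1 + x 1 * y 0) * e01 -
    (x 0 * y 2 + x 2 * y 0) * e02 - (x 1 * y 1) * e11 - (x 1 * y 2 + x 2 * y 1) * e12 -
    (x 2 * y 2) * e22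

theorem Frm.parseval (E : Frm) (x : Fin 3 → ℝ) :
    nr x ^ 2 = dr x E.e1 ^ 2 + dr x E.e2 ^ 2 + dr x E.e3 ^ 2 := by
  rw [nr_sq, E.parseval2 x x]
  ring

/-- Proof: choose a coordinate vector `x` with `cr x y ≠ 0` (one of the three works, `y ≠ 0`), then `e3 = y/|y|`,
`e1 = cr x y/|cr x y|`, `e2 = cr e3 e1` (as `frm_aux` in Defs.lean, with `x` in place of `rz ν`). -/
theorem exists_adp {y : Fin 3 → ℝ} (hy : y ≠ 0) : ∃ E : Frm, Adp E y := by
  have hx : ∃ x : Fin 3 → ℝ, cr x y ≠ 0 := by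
    by_contra hcon
    push Not at hcon
    apply hy
    have h1 := hcon ![1, 0, 0]
    have h2 := hcon ![0, 1, 0]
    have a1 := congrFun h1 1
    have a2 := congrFun h1 2
    have a3 := congrFun h2 2
    simp [cr] at a1 a2 a3
    funext j
    fin_cases j
    · simpa using a3
    · simpa using a2
    · simpa using a1
  obtain ⟨x, hx⟩ := hx
  have h1 := nr_pos hx
  have h2 := nr_pos hy
  set g1 : Fin 3 → ℝ := (nr (cr x y))⁻¹ • cr x y with hg1
  set g3 : Fin 3 → ℝ := (nr y)⁻¹ • y with hg3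
  have e1 : dr g1 g1 = 1 := by
    rw [hg1, dr_smul_left, dr_smul_right, ← nr_sq]
    field_simp
  have e3 : dr g3 g3 = 1 := by
    rw [hg3, dr_smul_left, dr_smul_right, ← nr_sq]
    field_simp
  have e13 : dr g1 g3 = 0 := by
    rw [hg1, hg3, dr_smul_left, dr_smul_right, dr_comm, dr_cr_right]
    ring
  have e2 : dr (cr g3 g1) (cr g3 g1) = 1 := by
    have h3 := lagrange g3 g1
    rw [nr_sq, nr_sq, nr_sq, e1, e3, dr_comm g3 g1, e13] at h3
    linarith
  have e12 : dr g1 (cr g3 g1) = 0 := dr_cr_right _ _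
  have e23 : dr (cr g3 g1) g3 = 0 := by
    rw [dr_comm]
    exact dr_cr_left _ _
  have hyg : y = nr y • g3 := by
    rw [hg3, smul_smul, mul_inv_cancel₀ h2.ne', one_smul]
  refine ⟨⟨g1, cr g3 g1, g3, e1, e2, e3, e12, e13, e23⟩, ?_, ?_, ?_⟩
  · show dr y g1 = 0
    rw [hyg, dr_smul_left, dr_comm, e13, mul_zero]
  · show dr y (cr g3 g1) = 0
    rw [hyg, dr_smul_left, dr_comm, e23, mul_zero]
  · show dr y g3 = nr y
    conv_lhs => rw [hyg]
    rw [dr_smul_left, e3, mul_one]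

theorem n5a_im {E : Frm} {y : Fin 3 → ℝ} (hE : Adp E y) (x : Fin 3 → ℝ) :
    dr x y = nr y * dr x E.e3 := by
  rw [E.parseval2 x y, hE.f1, hE.f2, hE.f3]
  ring

theorem n5a_sq (k : Cd 3) (s : Zd 3) :
    nr (re k + rz s) ^ 2 = nr (re k) ^ 2 + (gs k s).re := by
  rw [gs_re, dt_eq, nz_sq, nr_sq, nr_sq, dr_add_left, dr_add_right, dr_add_right,
    dr_comm (rz s) (re k)]
  ring

theorem n5a_dt {E : Frm} {k : Cd 3} (hE : Adp E (im k)) (s : Zd 3) :
    2 * (nr (im k) * dr (rz s) E.e3) = (gs k s).im := by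
  rw [gs_im, dt_eq, dr_comm (im k), n5a_im hE (rz s)]

/-- The points `re k + s` of an arc: they lie near the circle of radius `R` in the plane `y^⊥`.
Proof: `nr (re k + s)^2 = nr (re k)^2 + (gs k s).re` (`gs_re`, `dt_eq`, `nz_sq`), and `KC.re_sq`, `b ≤ R^2/10^6`, `V ≤ R/100`.
`im k = R • e3` (Parseval for `dr (im k) x`: `dr (im k) x = R * dr x E.e3` for all `x`), so
`R * dr (re k) e3 = dr (re k) (im k)`, `KC.dr_le`; and `R * dr (rz s) e3 = dt (im k) s`, `2 * that = (gs k s).im` (`gs_im`). -/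
theorem arc_basic {k : Cd 3} (hk : KC P k) {E : Frm} (hE : Adp E (im k)) {V : ℝ}
    (hV : V ≤ nr (im k) / 100) {s : Zd 3} (hs : ‖gs k s‖ ≤ V) :
    |nr (re k + rz s) ^ 2 - nr (im k) ^ 2| ≤ nr (im k) ^ 2 / 500 ∧
      |dr (re k + rz s) E.e3| ≤ nr (im k) / 1000 := by
  have hR := hk.R_pos
  have h6 : 10 ^ 6 * P.b ^ 1 ≤ nr (im k) := hk.yy.mul_le (by norm_num) (by norm_num)
  rw [pow_one] at h6
  have hb := P.one_le_b
  have hre := Complex.abs_re_le_norm (gs k s)
  have him := Complex.abs_im_le_norm (gs k s)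
  have hRR : nr (im k) ≤ nr (im k) ^ 2 / 10 ^ 6 := by
    have : (1 : ℝ) * 10 ^ 6 ≤ nr (im k) := by nlinarith
    rw [le_div_iff₀ (by norm_num)]
    nlinarith
  constructor
  · have h1 := hk.re_sq
    rw [n5a_sq]
    have h2 : nr (re k) ^ 2 + (gs k s).re - nr (im k) ^ 2
        = (nr (re k) ^ 2 - nr (im k) ^ 2) + (gs k s).re := by ring
    rw [h2]
    refine (abs_add_le _ _).trans ?_
    have h3 : |(gs k s).re| ≤ nr (im k) / 100 := hre.trans (hs.trans hV)
    nlinarith
  · have h1 := hk.dr_le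
    rw [n5a_im hE (re k)] at h1
    have h2 := n5a_dt hE s
    have h3 : |(gs k s).im| ≤ nr (im k) / 100 := him.trans (hs.trans hV)
    rw [← h2] at h3
    rw [dr_add_left]
    have h4 : |nr (im k) * (dr (re k) E.e3 + dr (rz s) E.e3)| ≤
        nr (im k) * (nr (im k) / 1000) := by
      rw [mul_add]
      refine (abs_add_le _ _).trans ?_
      rw [abs_mul, abs_two] at h3
      nlinarith
    rw [abs_mul, abs_of_pos hR] at h4
    exact le_of_mul_le_mul_left h4 hR

/-- Differences. Proof: `nr (re k + s)^2 - nr (re k + s')^2 = (gs k s).re - (gs k s').re`;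
`R * (dr (re k + s) e3 - dr (re k + s') e3) = dt (im k) s - dt (im k) s' = ((gs k s).im - (gs k s').im)/2`. -/
theorem arc_basic2 {k : Cd 3} (hk : KC P k) {E : Frm} (hE : Adp E (im k)) {V : ℝ}
    {s s' : Zd 3} (hs : ‖gs k s‖ ≤ V) (hs' : ‖gs k s'‖ ≤ V) :
    |nr (re k + rz s) ^ 2 - nr (re k + rz s') ^ 2| ≤ 2 * V ∧
      |dr (re k + rz s) E.e3 - dr (re k + rz s') E.e3| ≤ V / nr (im k) := by
  have hR := hk.R_pos
  constructor
  · rw [n5a_sq, n5a_sq]
    have h1 := (Complex.abs_re_le_norm (gs k s)).trans hs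
    have h2 := (Complex.abs_re_le_norm (gs k s')).trans hs'
    rw [abs_le] at h1 h2 ⊢
    constructor <;> linarith [h1.1, h1.2, h2.1, h2.2]
  · have h1 := (Complex.abs_im_le_norm (gs k s)).trans hs
    have h2 := (Complex.abs_im_le_norm (gs k s')).trans hs'
    rw [← n5a_dt hE s] at h1
    rw [← n5a_dt hE s'] at h2
    rw [le_div_iff₀ hR, dr_add_left, dr_add_left]
    have h3 : |dr (re k) E.e3 + dr (rz s) E.e3 - (dr (re k) E.e3 + dr (rz s') E.e3)| * nr (im k)
        = |nr (im k) * dr (rz s) E.e3 - nr (im k) * dr (rz s') E.e3| := by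
      rw [← abs_of_pos hR, ← abs_mul, abs_of_pos hR]
      congr 1
      ring
    rw [h3]
    rw [abs_le] at h1 h2 ⊢
    constructor <;> linarith [h1.1, h1.2, h2.1, h2.2]

/-- Proof: `gs k (s + d) - gs k s = 2 bil k d + 2 s·d + d·d`; its real part is `2 (re k + s)·d + |d|^2` and its imaginary
part is `2 dt (im k) d`; both are at most `2 V` in modulus. -/
theorem arc_dot {k : Cd 3} {V : ℝ} {s d : Zd 3} (hs : ‖gs k s‖ ≤ V) (hsd : ‖gs k (s + d)‖ ≤ V)
    (hd : nz d ^ 2 ≤ 4 * V) :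
    |dr (re k + rz s) (rz d)| ≤ 3 * V ∧ |dt (im k) d| ≤ V := by
  have h0 : gs k (s + d) - gs k s = 2 * bil (k + zc s) (zc d) + bil (zc d) (zc d) := by
    unfold gs
    rw [zc_add, bil_add_left, bil_add_left, bil_add_right, bil_add_right, bil_add_right,
      bil_comm (zc d) (zc s)]
    ring
  have h1 : ‖gs k (s + d) - gs k s‖ ≤ 2 * V := by
    refine (norm_sub_le _ _).trans ?_
    linarith
  rw [h0] at h1
  have h2 := (Complex.abs_re_le_norm _).trans h1
  have h3 := (Complex.abs_im_le_norm _).trans h1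
  have h4 : (2 * bil (k + zc s) (zc d) + bil (zc d) (zc d)).re
      = 2 * dr (re k + rz s) (rz d) + nz d ^ 2 := by
    rw [Complex.add_re, Complex.mul_re, bil_zc_re, bil_zc_re, re_zc, nz_sq, dt_eq, dt_eq,
      re_add_zc]
    simp
  have h5 : (2 * bil (k + zc s) (zc d) + bil (zc d) (zc d)).im = 2 * dt (im k) d := by
    rw [Complex.add_im, Complex.mul_im, bil_zc_im, bil_zc_im, im_add_zc, im_zc]
    simp [dt]
  rw [h4] at h2
  rw [h5] at h3
  have h6 : 0 ≤ nz d ^ 2 := by positivity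
  rw [abs_le] at h2 h3
  constructor <;> rw [abs_le] <;> constructor <;> linarith [h2.1, h2.2, h3.1, h3.2]

end H9F
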