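import Mathlib

/-!
# H9F N5B: two inequalities of plane geometry (pure)
-/

noncomputable section

namespace H9F

theorem n5b_sq3 {R x3 : ℝ} (hx3 : |x3| ≤ R / 1000) : x3 ^ 2 ≤ R ^ 2 / 1000000 := by
  have h := abs_le.1 hx3
  nlinarith [h.1, h.2, abs_nonneg x3]

theorem n5b_sq12 {x1 x2 : ℝ} (sx : |x1| ≤ x2) : 0 ≤ x2 ∧ x1 ^ 2 ≤ x2 ^ 2 := by
  have h0 : 0 ≤ x2 := (abs_nonneg _).trans sx
  refine ⟨h0, ?_⟩
  rw [← sq_abs x1]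
  exact pow_le_pow_left₀ (abs_nonneg _) sx 2

theorem n5b_low {R x1 x2 x3 : ℝ} (_hR : 100 ≤ R)
    (hx : |x1 ^ 2 + x2 ^ 2 + x3 ^ 2 - R ^ 2| ≤ R ^ 2 / 500) (hx3 : |x3| ≤ R / 1000)
    (sx : |x1| ≤ x2) : 7 / 10 * R ≤ x2 := by
  have h3 := n5b_sq3 hx3
  obtain ⟨h0, h12⟩ := n5b_sq12 sx
  have h := (abs_le.1 hx).1
  by_contra hcon
  push Not at hcon
  have h4 : x2 ^ 2 < (7 / 10 * R) ^ 2 := pow_lt_pow_left₀ hcon h0 two_ne_zero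
  nlinarith

theorem n5b_VR {R V : ℝ} (hR : 100 ≤ R) (hV : V ≤ R / 100) : V / R ≤ 1 / 100 := by
  rw [div_le_iff₀ (by linarith)]
  linarith

/-- Two points of one cell are close.
Proof: `x2 ≥ |x1|` and `x1^2 + x2^2 ≥ 0.99 R^2`, so `x2 ≥ 0.7 R`, also `y2 ≥ 0.7 R`, and `x2 + y2 ≥ |x1| + |y1|`.
`(x2 - y2)(x2 + y2) = (|x|^2 - |y|^2) - (x1 - y1)(x1 + y1) - (x3 - y3)(x3 + y3)`, so
`|x2 - y2| ≤ h + (2V + V/500)/(1.4 R) ≤ h + 0.02 ≤ 1.02 h` (`h ≥ 1`), `|x3 - y3| ≤ 1/100`; the sum of the squares is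
at most `h^2 + 1.05 h^2 + 10^-4 ≤ 4 h^2`. -/
theorem arc_cell_real {R V h x1 x2 x3 y1 y2 y3 : ℝ} (hR : 100 ≤ R) (hV1 : 1 ≤ V)
    (hV : V ≤ R / 100) (hh : h ^ 2 = V) (hh0 : 0 ≤ h)
    (hx : |x1 ^ 2 + x2 ^ 2 + x3 ^ 2 - R ^ 2| ≤ R ^ 2 / 500)
    (hy : |y1 ^ 2 + y2 ^ 2 + y3 ^ 2 - R ^ 2| ≤ R ^ 2 / 500)
    (hN : |x1 ^ 2 + x2 ^ 2 + x3 ^ 2 - (y1 ^ 2 + y2 ^ 2 + y3 ^ 2)| ≤ 2 * V)
    (hx3 : |x3| ≤ R / 1000) (hy3 : |y3| ≤ R / 1000) (h3 : |x3 - y3| ≤ V / R)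
    (sx : |x1| ≤ x2) (sy : |y1| ≤ y2) (hc : |x1 - y1| ≤ h) :
    (x1 - y1) ^ 2 + (x2 - y2) ^ 2 + (x3 - y3) ^ 2 ≤ 4 * V := by
  have hR0 : 0 < R := by linarith
  have hV0 : 0 < V := by linarith
  have hx2 := n5b_low hR hx hx3 sx
  have hy2 := n5b_low hR hy hy3 sy
  have hVR := n5b_VR hR hV
  have hh1 : 1 ≤ h := by
    by_contra hcon
    push Not at hcon
    nlinarith
  -- (x2 - y2) * (x2 + y2)
  have hs : |x1 + y1| ≤ x2 + y2 := (abs_add_le _ _).trans (add_le_add sx sy)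
  have hr : |x3 + y3| ≤ R / 500 := by
    refine (abs_add_le _ _).trans ?_
    linarith
  have hq : 14 / 10 * R ≤ x2 + y2 := by linarith
  have hq0 : 0 < x2 + y2 := by linarith
  have e : (x2 - y2) * (x2 + y2) = (x1 ^ 2 + x2 ^ 2 + x3 ^ 2 - (y1 ^ 2 + y2 ^ 2 + y3 ^ 2)) -
      (x1 - y1) * (x1 + y1) - (x3 - y3) * (x3 + y3) := by ring
  have h1 : |x2 - y2| * (x2 + y2) ≤ 2 * V + h * (x2 + y2) + V / 500 := by
    rw [← abs_of_pos hq0, ← abs_mul, abs_of_pos hq0, e]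
    refine (abs_sub _ _).trans ?_
    apply add_le_add
    · refine (abs_sub _ _).trans ?_
      apply add_le_add hN
      rw [abs_mul]
      exact mul_le_mul hc hs (abs_nonneg _) hh0
    · rw [abs_mul]
      have h5 : |x3 - y3| * |x3 + y3| ≤ V / R * (R / 500) :=
        mul_le_mul h3 hr (abs_nonneg _) (by positivity)
      have h6 : V / R * (R / 500) = V / 500 := by field_simp
      linarith
  have h2 : |x2 - y2| ≤ 102 / 100 * h := by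
    by_contra hcon
    push Not at hcon
    have h5 : 102 / 100 * h * (x2 + y2) < |x2 - y2| * (x2 + y2) :=
      mul_lt_mul_of_pos_right hcon hq0
    have h6 : 2 / 100 * h * (x2 + y2) < 2 * V + V / 500 := by linarith
    have h7 : 2 / 100 * 1 * (14 / 10 * R) ≤ 2 / 100 * h * (x2 + y2) := by
      apply mul_le_mul _ hq (by positivity) (by positivity)
      linarith
    linarith
  have h4 : (x2 - y2) ^ 2 ≤ (102 / 100 * h) ^ 2 := by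
    rw [← sq_abs (x2 - y2)]
    exact pow_le_pow_left₀ (abs_nonneg _) h2 2
  have h5 : (x1 - y1) ^ 2 ≤ h ^ 2 := by
    rw [← sq_abs (x1 - y1)]
    exact pow_le_pow_left₀ (abs_nonneg _) hc 2
  have h6 : (x3 - y3) ^ 2 ≤ (1 / 100) ^ 2 := by
    rw [← sq_abs (x3 - y3)]
    exact pow_le_pow_left₀ (abs_nonneg _) (h3.trans hVR) 2
  nlinarith

theorem n5b_up {R x1 x2 x3 : ℝ} (hx : |x1 ^ 2 + x2 ^ 2 + x3 ^ 2 - R ^ 2| ≤ R ^ 2 / 500) :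
    x1 ^ 2 + x2 ^ 2 ≤ 1002 / 1000 * R ^ 2 := by
  have h := (abs_le.1 hx).2
  nlinarith [sq_nonneg x3]

theorem n5b_dot {R V x1 x2 x3 d1 d2 d3 : ℝ} (hR : 100 ≤ R) (hV1 : 1 ≤ V)
    (hx3 : |x3| ≤ R / 1000) (hd3 : |d3| ≤ V / R) (ex : |x1 * d1 + x2 * d2 + x3 * d3| ≤ 3 * V) :
    |x1 * d1 + x2 * d2| ≤ 3001 / 1000 * V := by
  have h5 : |x3 * d3| ≤ R / 1000 * (V / R) := by
    rw [abs_mul]
    exact mul_le_mul hx3 hd3 (abs_nonneg _) (by positivity)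
  have h6 : R / 1000 * (V / R) = V / 1000 := by
    field_simp
  have e : x1 * d1 + x2 * d2 = (x1 * d1 + x2 * d2 + x3 * d3) - x3 * d3 := by ring
  rw [e]
  refine (abs_sub _ _).trans ?_
  linarith

theorem n5b_cs {R D y1 y2 d1 d2 : ℝ} (hR : 0 ≤ R) (hD : 0 ≤ D)
    (hy : y1 ^ 2 + y2 ^ 2 ≤ 1002 / 1000 * R ^ 2) (hd : d1 ^ 2 + d2 ^ 2 ≤ D ^ 2) :
    |y2 * d1 - y1 * d2| ≤ 1002 / 1000 * R * D := by
  apply abs_le_of_sq_le_sq _ (by positivity)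
  have h1 : (y2 * d1 - y1 * d2) ^ 2 ≤ (y1 ^ 2 + y2 ^ 2) * (d1 ^ 2 + d2 ^ 2) := by
    nlinarith [sq_nonneg (y1 * d1 + y2 * d2)]
  have h2 : (y1 ^ 2 + y2 ^ 2) * (d1 ^ 2 + d2 ^ 2) ≤ (1002 / 1000 * R ^ 2) * D ^ 2 :=
    mul_le_mul hy hd (by positivity) (by positivity)
  have h3 : 0 ≤ R ^ 2 * D ^ 2 := by positivity
  nlinarith

theorem n5b_x2 {R x1 x2 : ℝ} (hR : 0 ≤ R) (h : x1 ^ 2 + x2 ^ 2 ≤ 1002 / 1000 * R ^ 2) :
    x2 ≤ 1002 / 1000 * R := by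
  apply le_of_sq_le_sq _ (by positivity)
  have h1 := sq_nonneg x1
  have h2 := sq_nonneg R
  have e : (1002 / 1000 * R) ^ 2 = 1004004 / 1000000 * R ^ 2 := by ring
  rw [e]
  linarith

theorem n5b_y1 {R y1 y2 : ℝ} (hR : 0 ≤ R) (h : y1 ^ 2 + y2 ^ 2 ≤ 1002 / 1000 * R ^ 2)
    (h12 : y1 ^ 2 ≤ y2 ^ 2) : |y1| ≤ 71 / 100 * R := by
  apply abs_le_of_sq_le_sq _ (by positivity)
  have h2 := sq_nonneg R
  have e : (71 / 100 * R) ^ 2 = 5041 / 10000 * R ^ 2 := by ring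
  rw [e]
  linarith

theorem n5b_W {R x1 x2 y1 y2 y3 : ℝ} (hy : |y1 ^ 2 + y2 ^ 2 + y3 ^ 2 - R ^ 2| ≤ R ^ 2 / 500)
    (hy3 : |y3| ≤ R / 1000) (sx : |x1| ≤ x2) (sy : |y1| ≤ y2) :
    997 / 1000 * R ^ 2 ≤ y2 * (x2 + y2) + y1 * (x1 + y1) := by
  have h0x : 0 ≤ x2 := (abs_nonneg _).trans sx
  have h1 : -(x2 * y2) ≤ x1 * y1 := by
    have h2 : |x1 * y1| ≤ x2 * y2 := by
      rw [abs_mul]
      exact mul_le_mul sx sy (abs_nonneg _) h0x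
    exact (abs_le.1 h2).1
  have h3' := n5b_sq3 hy3
  have h := (abs_le.1 hy).1
  have e : y2 * (x2 + y2) + y1 * (x1 + y1) = y1 ^ 2 + y2 ^ 2 + (x2 * y2 + x1 * y1) := by ring
  have h5 := sq_nonneg R
  rw [e]
  linarith

theorem n5b_hfin {R V W u X x2 y1 y2 N : ℝ} (hR0 : 0 < R) (hV0 : 0 < V)
    (hW : 997 / 1000 * R ^ 2 ≤ W) (e2 : u * W = X * (x2 + y2) + y1 * N) (h0x : 0 ≤ x2)
    (h0y : 0 ≤ y2) (hx2u : x2 ≤ 1002 / 1000 * R) (hy2u : y2 ≤ 1002 / 1000 * R)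
    (hy1u : |y1| ≤ 71 / 100 * R) (hNN : |N| ≤ 2002 / 1000 * V) :
    |u| * (997 / 1000 * R ^ 2) ≤
      |X| * (2004 / 1000 * R) + 71 / 100 * R * (2002 / 1000 * V) := by
  have hW0 : 0 ≤ W := by
    refine le_trans ?_ hW
    positivity
  have h1 : |u| * (997 / 1000 * R ^ 2) ≤ |u| * W :=
    mul_le_mul_of_nonneg_left hW (abs_nonneg _)
  refine h1.trans ?_
  rw [← abs_of_nonneg hW0, ← abs_mul, e2]
  refine (abs_add_le _ _).trans ?_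
  rw [abs_mul, abs_mul]
  apply add_le_add
  · apply mul_le_mul_of_nonneg_left _ (abs_nonneg _)
    rw [abs_of_nonneg (by linarith)]
    linarith
  · exact mul_le_mul hy1u hNN (abs_nonneg _) (by positivity)

theorem n5b_XD {R V D E X : ℝ} (hR0 : 0 < R) (hV0 : 0 < V) (hD0 : 0 < D)
    (hD2l : 9999 / 10000 * D ^ 2 ≤ E) (hX : 0 ≤ X)
    (hXD : X * E ≤ 2 * ((3001 / 1000 * V) * (1002 / 1000 * R * D))) :
    X * D ≤ 602 / 100 * (V * R) := by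
  have h1 : X * (9999 / 10000 * D ^ 2) ≤ X * E := mul_le_mul_of_nonneg_left hD2l hX
  have h2 : (X * D) * D ≤ (602 / 100 * (V * R)) * D := by
    have h5 : 0 ≤ V * R * D := by positivity
    have e1 : (X * D) * D = (10000 / 9999) * (X * (9999 / 10000 * D ^ 2)) := by ring
    have e2 : 2 * ((3001 / 1000 * V) * (1002 / 1000 * R * D)) =
      6014004 / 1000000 * (V * R * D) := by ring
    have e3 : (602 / 100 * (V * R)) * D = 602 / 100 * (V * R * D) := by ring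
    rw [e1, e3]
    rw [e2] at hXD
    linarith
  exact le_of_mul_le_mul_right h2 hD0

theorem n5b_fin {A B V R D u : ℝ} (hR0 : 0 < R) (hV0 : 0 < V)
    (hDR : D ≤ R) (h6 : (u * D) * (997 / 1000 * R ^ 2) ≤
        (A * D) * (2004 / 1000 * R) + 71 / 100 * R * (2002 / 1000 * V) * D)
    (hXD2 : A * D ≤ 602 / 100 * (V * R)) (hB : B = 15 * V) : u * D ≤ B := by
  have h7 : (A * D) * (2004 / 1000 * R) ≤ (602 / 100 * (V * R)) * (2004 / 1000 * R) :=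
    mul_le_mul_of_nonneg_right hXD2 (by positivity)
  have h8 : 71 / 100 * R * (2002 / 1000 * V) * D ≤ 71 / 100 * R * (2002 / 1000 * V) * R :=
    mul_le_mul_of_nonneg_left hDR (by positivity)
  have h9 : 0 ≤ V * R ^ 2 := by positivity
  have h5 : (u * D) * (997 / 1000 * R ^ 2) ≤ (15 * V) * (997 / 1000 * R ^ 2) := by
    have e1 : (602 / 100 * (V * R)) * (2004 / 1000 * R) = 1206408 / 100000 * (V * R ^ 2) := by
      ring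
    have e2 : 71 / 100 * R * (2002 / 1000 * V) * R = 142142 / 100000 * (V * R ^ 2) := by ring
    have e3 : (15 * V) * (997 / 1000 * R ^ 2) = 14955 / 1000 * (V * R ^ 2) := by ring
    rw [e3]
    rw [e1] at h7
    rw [e2] at h8
    linarith
  rw [hB]
  exact le_of_mul_le_mul_right h5 (by positivity)

/-- Two points of the arc (in one sector) which are nearly orthogonal to the same vector `d`.
Proof: `ρ² = y1² + y2² ≥ 0.99 R²`. `|x1 d1 + x2 d2| ≤ 3.001 V`, same for `y` (`|x3 d3| ≤ V/1000`). `D₂² = d1² + d2² ≥ D²(1 - 10^-4)`.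
`X = x1 y2 - x2 y1`: `X D₂² = (x1 d1 + x2 d2)(y2 d1 - y1 d2) - (y1 d1 + y2 d2)(x2 d1 - x1 d2)` (identity), and
`|y2 d1 - y1 d2| ≤ 1.002 R D₂` (Cauchy-Schwarz), so `|X| ≤ 6.1 V R/D`. Identity:
`(x1 - y1) (y2 (x2 + y2) + y1 (x1 + y1)) = X (x2 + y2) + y1 ((x1² + x2²) - (y1² + y2²))`; the bracket on the left is
`ρ² + (x1 y1 + x2 y2) ≥ ρ²` (same sector), the right side is at most
`6.1 V R/D * 2.01 R + 0.72 R * 2.01 V ≤ 13.8 V R²/D` (`D ≤ R`). -/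
theorem arc_diff_real {R V D x1 x2 x3 y1 y2 y3 d1 d2 d3 : ℝ} (hR : 100 ≤ R) (hV1 : 1 ≤ V)
    (hV : V ≤ R / 100) (hD : 1 ≤ D) (hDR : D ≤ R)
    (hx : |x1 ^ 2 + x2 ^ 2 + x3 ^ 2 - R ^ 2| ≤ R ^ 2 / 500)
    (hy : |y1 ^ 2 + y2 ^ 2 + y3 ^ 2 - R ^ 2| ≤ R ^ 2 / 500)
    (hN : |x1 ^ 2 + x2 ^ 2 + x3 ^ 2 - (y1 ^ 2 + y2 ^ 2 + y3 ^ 2)| ≤ 2 * V)
    (hx3 : |x3| ≤ R / 1000) (hy3 : |y3| ≤ R / 1000) (h3 : |x3 - y3| ≤ V / R)
    (sx : |x1| ≤ x2) (sy : |y1| ≤ y2)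
    (hd : d1 ^ 2 + d2 ^ 2 + d3 ^ 2 = D ^ 2) (hd3 : |d3| ≤ V / R)
    (ex : |x1 * d1 + x2 * d2 + x3 * d3| ≤ 3 * V) (ey : |y1 * d1 + y2 * d2 + y3 * d3| ≤ 3 * V) :
    |x1 - y1| ≤ 15 * V / D := by
  have hR0 : 0 < R := by linarith
  have hV0 : 0 < V := by linarith
  have hD0 : 0 < D := by linarith
  have hVR := n5b_VR hR hV
  have ux := n5b_up hx
  have uy := n5b_up hy
  have ax := n5b_dot hR hV1 hx3 hd3 ex
  have ay := n5b_dot hR hV1 hy3 hd3 ey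
  have hd32 : d3 ^ 2 ≤ (1 / 100) ^ 2 := by
    rw [← sq_abs d3]
    exact pow_le_pow_left₀ (abs_nonneg _) (hd3.trans hVR) 2
  have hD2u : d1 ^ 2 + d2 ^ 2 ≤ D ^ 2 := by nlinarith [sq_nonneg d3]
  have hD2l : 9999 / 10000 * D ^ 2 ≤ d1 ^ 2 + d2 ^ 2 := by nlinarith
  have cy := n5b_cs hR0.le hD0.le uy hD2u
  have cx := n5b_cs hR0.le hD0.le ux hD2u
  obtain ⟨X, hX⟩ : ∃ X : ℝ, X = x1 * y2 - x2 * y1 := ⟨_, rfl⟩
  have e1 : X * (d1 ^ 2 + d2 ^ 2) = (x1 * d1 + x2 * d2) * (y2 * d1 - y1 * d2) -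
      (y1 * d1 + y2 * d2) * (x2 * d1 - x1 * d2) := by rw [hX]; ring
  have hXD : |X| * (d1 ^ 2 + d2 ^ 2) ≤ 2 * ((3001 / 1000 * V) * (1002 / 1000 * R * D)) := by
    have h0 : 0 ≤ d1 ^ 2 + d2 ^ 2 := by positivity
    rw [← abs_of_nonneg h0, ← abs_mul, e1]
    refine (abs_sub _ _).trans ?_
    rw [abs_mul, abs_mul, two_mul]
    apply add_le_add
    · exact mul_le_mul ax cy (abs_nonneg _) (by positivity)
    · exact mul_le_mul ay cx (abs_nonneg _) (by positivity)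
  have hXD2 : |X| * D ≤ 602 / 100 * (V * R) :=
    n5b_XD hR0 hV0 hD0 hD2l (abs_nonneg X) hXD
  obtain ⟨h0x, h12x⟩ := n5b_sq12 sx
  obtain ⟨h0y, h12y⟩ := n5b_sq12 sy
  have hx2u : x2 ≤ 1002 / 1000 * R := n5b_x2 hR0.le ux
  have hy2u : y2 ≤ 1002 / 1000 * R := n5b_x2 hR0.le uy
  have hy1u : |y1| ≤ 71 / 100 * R := n5b_y1 hR0.le uy h12y
  have h33 : |x3 ^ 2 - y3 ^ 2| ≤ V / 500 := by
    have e : x3 ^ 2 - y3 ^ 2 = (x3 - y3) * (x3 + y3) := by ring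
    have hr : |x3 + y3| ≤ R / 500 := by
      refine (abs_add_le _ _).trans ?_
      linarith
    rw [e, abs_mul]
    have h5 : |x3 - y3| * |x3 + y3| ≤ V / R * (R / 500) :=
      mul_le_mul h3 hr (abs_nonneg _) (by positivity)
    have h6 : V / R * (R / 500) = V / 500 := by field_simp
    linarith
  have hNN : |(x1 ^ 2 + x2 ^ 2) - (y1 ^ 2 + y2 ^ 2)| ≤ 2002 / 1000 * V := by
    have e : (x1 ^ 2 + x2 ^ 2) - (y1 ^ 2 + y2 ^ 2) =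
      (x1 ^ 2 + x2 ^ 2 + x3 ^ 2 - (y1 ^ 2 + y2 ^ 2 + y3 ^ 2)) - (x3 ^ 2 - y3 ^ 2) := by ring
    rw [e]
    refine (abs_sub _ _).trans ?_
    linarith
  have e2 : (x1 - y1) * (y2 * (x2 + y2) + y1 * (x1 + y1)) =
      X * (x2 + y2) + y1 * ((x1 ^ 2 + x2 ^ 2) - (y1 ^ 2 + y2 ^ 2)) := by rw [hX]; ring
  have hW : 997 / 1000 * R ^ 2 ≤ y2 * (x2 + y2) + y1 * (x1 + y1) := n5b_W hy hy3 sx sy
  have hfin : |x1 - y1| * (997 / 1000 * R ^ 2) ≤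
      |X| * (2004 / 1000 * R) + 71 / 100 * R * (2002 / 1000 * V) := by
    have hW0 : 0 ≤ y2 * (x2 + y2) + y1 * (x1 + y1) := by
      refine le_trans ?_ hW
      positivity
    have h1 : |x1 - y1| * (997 / 1000 * R ^ 2) ≤
        |x1 - y1| * (y2 * (x2 + y2) + y1 * (x1 + y1)) :=
      mul_le_mul_of_nonneg_left hW (abs_nonneg _)
    refine h1.trans ?_
    rw [← abs_of_nonneg hW0, ← abs_mul, e2]
    refine (abs_add_le _ _).trans ?_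
    rw [abs_mul, abs_mul]
    apply add_le_add
    · apply mul_le_mul_of_nonneg_left _ (abs_nonneg _)
      rw [abs_of_nonneg (by linarith)]
      linarith
    · exact mul_le_mul hy1u hNN (abs_nonneg _) (by positivity)
  rw [le_div_iff₀ hD0]
  have h6 : (|x1 - y1| * D) * (997 / 1000 * R ^ 2) ≤
      (|X| * D) * (2004 / 1000 * R) + 71 / 100 * R * (2002 / 1000 * V) * D := by
    have := mul_le_mul_of_nonneg_right hfin hD0.le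
    linarith
  exact n5b_fin hR0 hV0 hDR h6 hXD2 rfl

end H9F
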