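import Pool.Agent.Lib.H9F.N5A
import Pool.Agent.Lib.H9F.N5B

/-!
# H9F N5C: cells of an arc
-/

open scoped BigOperators Topology
open Set Filter

noncomputable section

namespace H9F

open Fermi

variable {M : ℝ} {μ : ℂ} {P : Big M μ}

/-- Proof: `arc_cell_real` with `x_i = dr (re k + rz s) e_i`, `y_i = dr (re k + rz s') e_i`, `R = nr (im k)`
(`arc_basic`, `arc_basic2`, `Frm.parseval`; `R ≥ 100` by `YY.R_ge`); `(re k + s) - (re k + s') = s - s'`, Parseval. -/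
theorem arc_cell {k : Cd 3} (hk : KC P k) {E : Frm} (hE : Adp E (im k)) {V h : ℝ} (hV1 : 1 ≤ V)
    (hV : V ≤ nr (im k) / 100) (hh : h ^ 2 = V) (hh0 : 0 ≤ h) {s s' : Zd 3} (hs : ‖gs k s‖ ≤ V)
    (hs' : ‖gs k s'‖ ≤ V) (sx : |dr (re k + rz s) E.e1| ≤ dr (re k + rz s) E.e2)
    (sy : |dr (re k + rz s') E.e1| ≤ dr (re k + rz s') E.e2)
    (hc : |dr (re k + rz s) E.e1 - dr (re k + rz s') E.e1| ≤ h) : nz (s - s') ^ 2 ≤ 4 * V := by
  have hR100 : 100 ≤ nr (im k) := by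
    have h1 : (100 : ℝ) * P.b ^ 0 ≤ nr (im k) := hk.yy.mul_le (by norm_num) (by norm_num)
    rwa [pow_zero, mul_one] at h1
  have hx := arc_basic hk hE hV hs
  have hy := arc_basic hk hE hV hs'
  have hxy := arc_basic2 hk hE hs hs'
  have hx1 := hx.1
  rw [E.parseval (re k + rz s)] at hx1
  have hy1 := hy.1
  rw [E.parseval (re k + rz s')] at hy1
  have hN := hxy.1
  rw [E.parseval (re k + rz s), E.parseval (re k + rz s')] at hN
  have h1 := arc_cell_real hR100 hV1 hV hh hh0 hx1 hy1 hN hx.2 hy.2 hxy.2 sx sy hc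
  have e0 : rz (s - s') = (re k + rz s) - (re k + rz s') := by
    rw [rz_sub]; abel
  have e : nz (s - s') ^ 2 = (dr (re k + rz s) E.e1 - dr (re k + rz s') E.e1) ^ 2 +
      (dr (re k + rz s) E.e2 - dr (re k + rz s') E.e2) ^ 2 +
      (dr (re k + rz s) E.e3 - dr (re k + rz s') E.e3) ^ 2 := by
    rw [nz, e0, E.parseval, dr_sub_left, dr_sub_left, dr_sub_left]
  rw [e]
  exact h1

/-- Proof: `arc_diff_real` with `x_i = dr (re k + rz s) e_i`, `y_i = dr (re k + rz s') e_i`, `d_i = dr (rz d) e_i`, `D = nz d`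
(`≥ 1` by `one_le_nz`, `≤ R` since `nz d ^ 2 ≤ 4 V ≤ R`); `ex`, `ey` from `arc_dot` and `Frm.parseval2`; `|d3| = |dt (im k) d|/R ≤ V/R`
(`arc_dot`; `dt (im k) d = dr (im k) (rz d) = R * dr (rz d) e3` by Parseval and `Adp`). -/
theorem arc_diff {k : Cd 3} (hk : KC P k) {E : Frm} (hE : Adp E (im k)) {V : ℝ} (hV1 : 1 ≤ V)
    (hV : V ≤ nr (im k) / 100) {s s' d : Zd 3} (hd0 : d ≠ 0) (hd : nz d ^ 2 ≤ 4 * V)
    (hs : ‖gs k s‖ ≤ V) (hs' : ‖gs k s'‖ ≤ V) (hsd : ‖gs k (s + d)‖ ≤ V)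
    (hsd' : ‖gs k (s' + d)‖ ≤ V) (sx : |dr (re k + rz s) E.e1| ≤ dr (re k + rz s) E.e2)
    (sy : |dr (re k + rz s') E.e1| ≤ dr (re k + rz s') E.e2) :
    |dr (re k + rz s) E.e1 - dr (re k + rz s') E.e1| ≤ 15 * V / nz d := by
  have hR := hk.R_pos
  have hR100 : 100 ≤ nr (im k) := by
    have h1 : (100 : ℝ) * P.b ^ 0 ≤ nr (im k) := hk.yy.mul_le (by norm_num) (by norm_num)
    rwa [pow_zero, mul_one] at h1
  have hx := arc_basic hk hE hV hs
  have hy := arc_basic hk hE hV hs'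
  have hxy := arc_basic2 hk hE hs hs'
  have hx1 := hx.1
  rw [E.parseval (re k + rz s)] at hx1
  have hy1 := hy.1
  rw [E.parseval (re k + rz s')] at hy1
  have hN := hxy.1
  rw [E.parseval (re k + rz s), E.parseval (re k + rz s')] at hN
  have a1 := arc_dot hs hsd hd
  have a2 := arc_dot hs' hsd' hd
  have b1 := a1.1
  rw [E.parseval2 (re k + rz s) (rz d)] at b1
  have b2 := a2.1
  rw [E.parseval2 (re k + rz s') (rz d)] at b2
  have hd3 : |dr (rz d) E.e3| ≤ V / nr (im k) := by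
    rw [le_div_iff₀ hR]
    have h1 := a1.2
    rw [dt_eq, dr_comm, n5a_im hE, abs_mul, abs_of_pos hR] at h1
    linarith
  have hD1 := one_le_nz hd0
  have hDR : nz d ≤ nr (im k) := by
    by_contra hcon
    push Not at hcon
    have h1 : nr (im k) * nr (im k) ≤ nz d * nz d :=
      mul_le_mul hcon.le hcon.le hR.le (nz_nonneg d)
    have h2 : 100 * nr (im k) ≤ nr (im k) * nr (im k) :=
      mul_le_mul_of_nonneg_right hR100 hR.le
    have h3 : nz d ^ 2 = nz d * nz d := sq _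
    linarith
  exact arc_diff_real hR100 hV1 hV hD1 hDR hx1 hy1 hN hx.2 hy.2 hxy.2 sx sy
    (E.parseval (rz d)).symm hd3 b1 b2

end H9F
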