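import Pool.Agent.Lib.H9F.N5C

/-!
# H9F N5D: counting the points of a sector of an arc
-/

open scoped BigOperators Topology
open Set Filter

noncomputable section

namespace H9F

open Fermi

variable {M : ℝ} {μ : ℂ} {P : Big M μ}

theorem n5d_card (T : Finset ℤ) (B : ℝ) (hB : 0 ≤ B)
    (h : ∀ x ∈ T, ∀ y ∈ T, ((x : ℝ) - y) ≤ B) : (T.card : ℝ) ≤ B + 1 := by
  rcases T.eq_empty_or_nonempty with rfl | hne
  · simp only [Finset.card_empty, Nat.cast_zero]
    linarith
  · have hsub : T ⊆ Finset.Icc (T.min' hne) (T.max' hne) := fun x hx =>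
      Finset.mem_Icc.2 ⟨T.min'_le x hx, T.le_max' x hx⟩
    have h1 := Finset.card_le_card hsub
    rw [Int.card_Icc] at h1
    have h2 := h _ (T.max'_mem hne) _ (T.min'_mem hne)
    have h3 : T.min' hne ≤ T.max' hne := T.min'_le_max' hne
    have h4 : ((T.max' hne + 1 - T.min' hne).toNat : ℤ) = T.max' hne + 1 - T.min' hne :=
      Int.toNat_of_nonneg (by omega)
    have h5 : ((T.max' hne + 1 - T.min' hne).toNat : ℝ) =
        (T.max' hne : ℝ) + 1 - (T.min' hne : ℝ) := by exact_mod_cast h4
    have h6 : (T.card : ℝ) ≤ ((T.max' hne + 1 - T.min' hne).toNat : ℝ) := by exact_mod_cast h1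
    linarith

theorem n5d_floor {x y B : ℝ} (h : x - y ≤ B) : ((⌊x⌋ : ℝ) - (⌊y⌋ : ℝ)) ≤ B + 1 := by
  have := Int.floor_le x
  have := Int.lt_floor_add_one y
  linarith

/-- Pure counting lemma. The cell of `s` is `⌊g s / h⌋`. The number of nonempty cells is at most `2 S/h + 2`
(the floors lie between `⌊lo/h⌋` and `⌊(lo + 2 S)/h⌋`). Choose in every nonempty cell a base point; every other
point `s` of the cell is `base + d` with `d = s - base ∈ Y`; so the number of the points which are not base points is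
at most `∑ d ∈ Y, #{cells containing some s' and s' + d}` (the map `s ↦ (cell, d)` is injective), and for a fixed `d`
the values `g s'` of such `s'` lie in an interval of length `w d` (any two differ by at most `w d`), so there are at
most `w d/h + 2` such cells. -/
theorem cell_count {G : Type*} [AddCommGroup G] [DecidableEq G] (X Y : Finset G) (g w : G → ℝ)
    {h lo S : ℝ} (hh : 0 < h) (hS : 0 ≤ S) (hg : ∀ s ∈ X, lo ≤ g s ∧ g s ≤ lo + 2 * S)
    (hY : ∀ s ∈ X, ∀ s' ∈ X, s ≠ s' → ⌊g s / h⌋ = ⌊g s' / h⌋ → s - s' ∈ Y)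
    (hw : ∀ d ∈ Y, 0 ≤ w d)
    (hd : ∀ d ∈ Y, ∀ s ∈ X, ∀ s' ∈ X, s + d ∈ X → s' + d ∈ X → |g s - g s'| ≤ w d) :
    (X.card : ℝ) ≤ 2 * S / h + 2 + ∑ d ∈ Y, (w d / h + 2) := by
  classical
  obtain ⟨c, hc⟩ : ∃ c : G → ℤ, c = fun s => ⌊g s / h⌋ := ⟨_, rfl⟩
  have hbase : ∀ κ : ℤ, ∃ s : G, κ ∈ X.image c → s ∈ X ∧ c s = κ := by
    intro κ
    by_cases hκ : κ ∈ X.image c
    · obtain ⟨s, hs, hsκ⟩ := Finset.mem_image.1 hκ
      exact ⟨s, fun _ => ⟨hs, hsκ⟩⟩
    · exact ⟨0, fun h => absurd h hκ⟩
  choose base hbase using hbase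
  have hcX : ∀ s ∈ X, c s ∈ X.image c := fun s hs => Finset.mem_image_of_mem c hs
  -- number of cells
  have hcells : ((X.image c).card : ℝ) ≤ 2 * S / h + 2 := by
    have := n5d_card (X.image c) (2 * S / h + 1) (by positivity) (by
      intro x hx y hy
      obtain ⟨s, hs, rfl⟩ := Finset.mem_image.1 hx
      obtain ⟨s', hs', rfl⟩ := Finset.mem_image.1 hy
      rw [hc]
      apply n5d_floor
      rw [← sub_div]
      apply div_le_div_of_nonneg_right _ hh.le
      have h1 := hg s hs
      have h2 := hg s' hs'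
      linarith)
    linarith
  -- base points
  have hX0 : ((X.filter (fun s => s = base (c s))).card : ℝ) ≤ ((X.image c).card : ℝ) := by
    have : (X.filter (fun s => s = base (c s))).card ≤ (X.image c).card := by
      apply Finset.card_le_card_of_injOn c
      · intro s hs
        rw [Finset.mem_coe, Finset.mem_filter] at hs
        exact hcX s hs.1
      · intro s hs s' hs' he
        rw [Finset.mem_coe, Finset.mem_filter] at hs hs'
        rw [hs.2, hs'.2, he]
    exact_mod_cast this
  -- the other points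
  have hX1 : ((X.filter (fun s => ¬ s = base (c s))).card : ℝ) ≤
      ∑ d ∈ Y, (w d / h + 2) := by
    obtain ⟨C, hC⟩ : ∃ C : G → Finset ℤ, C = fun d => (X.image c).filter
      (fun κ => base κ + d ∈ X) := ⟨_, rfl⟩
    have h1 : (X.filter (fun s => ¬ s = base (c s))).card ≤ (Y.sigma C).card := by
      apply Finset.card_le_card_of_injOn
        (fun s => (⟨s - base (c s), c s⟩ : Sigma fun _ : G => ℤ))
      · intro s hs
        rw [Finset.mem_coe, Finset.mem_filter] at hs
        have hb := hbase (c s) (hcX s hs.1)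
        rw [Finset.mem_coe, Finset.mem_sigma]
        constructor
        · apply hY s hs.1 _ hb.1 hs.2
          have := hb.2
          rw [hc] at this ⊢
          exact this.symm
        · rw [hC]
          simp only
          rw [Finset.mem_filter]
          refine ⟨hcX s hs.1, ?_⟩
          rw [add_sub_cancel]
          exact hs.1
      · intro s _ s' _ he
        simp only [Sigma.mk.injEq, heq_eq_eq] at he
        rw [he.2] at he
        exact sub_left_injective he.1
    rw [Finset.card_sigma] at h1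
    have h2 : ((X.filter (fun s => ¬ s = base (c s))).card : ℝ) ≤ ∑ d ∈ Y, ((C d).card : ℝ) := by
      exact_mod_cast h1
    refine h2.trans (Finset.sum_le_sum fun d hdY => ?_)
    have := n5d_card (C d) (w d / h + 1) (by have := hw d hdY; positivity) (by
      intro x hx y hy
      rw [hC] at hx hy
      simp only at hx hy
      rw [Finset.mem_filter] at hx hy
      have hbx := hbase x hx.1
      have hby := hbase y hy.1
      rw [← hbx.2, ← hby.2, hc]
      apply n5d_floor
      rw [← sub_div]
      apply div_le_div_of_nonneg_right _ hh.le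
      exact (le_abs_self _).trans (hd d hdY _ hbx.1 _ hby.1 hx.2 hy.2))
    linarith
  have hsplit : (X.card : ℝ) = ((X.filter (fun s => s = base (c s))).card : ℝ) +
      ((X.filter (fun s => ¬ s = base (c s))).card : ℝ) := by
    have := Finset.card_filter_add_card_filter_not (s := X) (fun s => s = base (c s))
    rw [← this]
    push_cast
    rfl
  rw [hsplit]
  linarith

/-- Proof: `cell_count` with `g s = dr (re k + rz s) e1`, `h = √V`, `lo = dr (re k) e1 - S` (`|dr (rz s) e1| ≤ nz s`),
`w d = 15 V / nz d` (`w d / h = 15 √V / nz d`), `arc_cell` (equal floors imply `|g s - g s'| ≤ h`), `arc_diff`. -/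
theorem arc_sector {k : Cd 3} (hk : KC P k) {E : Frm} (hE : Adp E (im k)) {S V : ℝ} (hS : 0 ≤ S)
    (hV1 : 1 ≤ V) (hV : V ≤ nr (im k) / 100) (X Y : Finset (Zd 3))
    (hX : ∀ s ∈ X, nz s ≤ S ∧ ‖gs k s‖ ≤ V ∧
      |dr (re k + rz s) E.e1| ≤ dr (re k + rz s) E.e2)
    (hY : ∀ s ∈ X, ∀ s' ∈ X, s ≠ s' → nz (s - s') ^ 2 ≤ 4 * V → s - s' ∈ Y)
    (hY0 : ∀ d ∈ Y, d ≠ 0 ∧ nz d ^ 2 ≤ 4 * V) :
    (X.card : ℝ) ≤ 2 * S / √V + 2 + ∑ d ∈ Y, (15 * √V / nz d + 2) := by
  classical
  have hV0 : 0 < V := by linarith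
  have hh : 0 < √V := Real.sqrt_pos.2 hV0
  have hsq : √V ^ 2 = V := Real.sq_sqrt hV0.le
  have hmain := cell_count X Y (fun s => dr (re k + rz s) E.e1) (fun d => 15 * V / nz d)
    (h := √V) (lo := dr (re k) E.e1 - S) (S := S) hh hS (by
      intro s hs
      have h1 := hX s hs
      have h2 := abs_dr_le (rz s) E.e1
      have h3 : nr E.e1 = 1 := by
        have h4 := nr_sq E.e1
        rw [E.h11] at h4
        have h5 := nr_nonneg E.e1
        nlinarith
      rw [h3, mul_one] at h2
      have h4 : nr (rz s) = nz s := rfl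
      rw [h4, abs_le] at h2
      rw [dr_add_left]
      constructor
      · linarith [h2.1]
      · linarith [h2.2]) (by
      intro s hs s' hs' hne hfl
      apply hY s hs s' hs' hne
      have h1 := hX s hs
      have h2 := hX s' hs'
      apply arc_cell hk hE hV1 hV hsq hh.le h1.2.1 h2.2.1 h1.2.2 h2.2.2
      have h3 := Int.abs_sub_lt_one_of_floor_eq_floor hfl
      rw [← sub_div, abs_div, abs_of_pos hh, div_lt_one hh] at h3
      exact h3.le) (by
      intro d hd
      have := nz_nonneg d
      positivity) (by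
      intro d hd s hs s' hs' hsd hsd'
      have h1 := hX s hs
      have h2 := hX s' hs'
      exact arc_diff hk hE hV1 hV (hY0 d hd).1 (hY0 d hd).2 h1.2.1 h2.2.1 (hX _ hsd).2.1
        (hX _ hsd').2.1 h1.2.2 h2.2.2)
  refine hmain.trans (le_of_eq ?_)
  congr 1
  refine Finset.sum_congr rfl fun d _ => ?_
  congr 1
  have e : 15 * V / nz d = (15 * √V / nz d) * √V := by
    have : V = √V * √V := by rw [← sq, hsq]
    conv_lhs => rw [this]
    ring
  rw [e, mul_div_assoc, div_self hh.ne', mul_one]

end H9F
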