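import Pool.Agent.Lib.H9F.N5
import Pool.Agent.Lib.H9F.N7A

/-!
# H9F N7B: counting obstacle vectors of a given length
-/

open scoped BigOperators Topology
open Set Filter

noncomputable section

namespace H9F

open Fermi

variable {M : ℝ} {μ : ℂ} {P : Big M μ}

private theorem n7b_abs {b : ℝ} (hb : 10 ^ 36 ≤ b) {c : ℝ} {i j : ℕ} (hc : c ≤ 10 ^ 36) (h : i + 1 ≤ j) :
    c * b ^ i ≤ b ^ j := by
  have hb1 : 1 ≤ b := le_trans (by norm_num) hb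
  have hb0 : 0 < b := lt_of_lt_of_le one_pos hb1
  calc c * b ^ i ≤ b * b ^ i := mul_le_mul_of_nonneg_right (hc.trans hb) (pow_pos hb0 i).le
    _ = b ^ (i + 1) := by ring
    _ ≤ b ^ j := pow_le_pow_right₀ hb1 h

private theorem n7b_sqrt {b S V u : ℝ} (hb0 : 0 < b) (hu : 0 ≤ u) (hS : S = u ^ 2) (hV : V = 81 * S / b ^ 100) :
    √V = 9 * u / b ^ 50 := by
  have e : V = (9 * u / b ^ 50) ^ 2 := by
    rw [hV, hS, div_pow, mul_pow, ← pow_mul]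
    norm_num
  rw [e, Real.sqrt_sq (by positivity)]

private theorem n7b_sum {b S R V u : ℝ} (hb0 : 0 < b) (hR : 0 < R) (hu : 0 < u) (hS : S = u ^ 2)
    (hV : V = 81 * S / b ^ 100) :
    10 ^ 6 * (2 * S / √V + 1 + V ^ 2 / R + V / b ^ 400 + √V * b * (1 + b ^ 2400 * V / R)) =
      2 * 10 ^ 6 / 9 * u * b ^ 50 + 10 ^ 6 + 6561 * 10 ^ 6 * S ^ 2 / (b ^ 200 * R) + 81 * 10 ^ 6 * S / b ^ 500 +
      9 * 10 ^ 6 * u / b ^ 49 + 729 * 10 ^ 6 * u * S * b ^ 2251 / R := by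
  have e1 : 2 * S / √V = 2 / 9 * u * b ^ 50 := by
    rw [n7b_sqrt hb0 hu.le hS hV, hS]
    field_simp
  have e2 : V ^ 2 / R = 6561 * S ^ 2 / (b ^ 200 * R) := by
    rw [hV, div_pow, mul_pow, ← pow_mul, div_div]
    norm_num
  have e3 : V / b ^ 400 = 81 * S / b ^ 500 := by
    rw [hV, div_div, ← pow_add]
  have hb50 : b ^ 50 = b ^ 49 * b := by rw [← pow_succ]
  have e4 : √V * b = 9 * u / b ^ 49 := by
    rw [n7b_sqrt hb0 hu.le hS hV, hb50]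
    field_simp
  have hb2400 : b ^ 2400 = b ^ 2251 * (b ^ 49 * b ^ 100) := by rw [← pow_add, ← pow_add]
  have e5 : √V * b * (b ^ 2400 * V / R) = 729 * u * S * b ^ 2251 / R := by
    rw [e4, hV, hb2400]
    field_simp
    ring
  have e6 : √V * b * (1 + b ^ 2400 * V / R) = √V * b + √V * b * (b ^ 2400 * V / R) := by ring
  rw [e6, e5, e1, e2, e3, e4]
  ring

private theorem n7b_mid {b S R V : ℝ} (hb : 10 ^ 36 ≤ b) (hS : b ^ 360 ≤ S) (hSR : S ≤ 3 * R) (hR : b ^ 9999 ≤ R)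
    (hV : V = 81 * S / b ^ 100) :
    10 ^ 6 * (2 * S / √V + 1 + V ^ 2 / R + V / b ^ 400 + √V * b * (1 + b ^ 2400 * V / R)) ≤ S / b ^ 121 := by
  have hb1 : 1 ≤ b := le_trans (by norm_num) hb
  have hb0 : 0 < b := lt_of_lt_of_le one_pos hb1
  have hS0 : 0 < S := lt_of_lt_of_le (pow_pos hb0 _) hS
  have hR0 : 0 < R := lt_of_lt_of_le (pow_pos hb0 _) hR
  set u := √S with hu
  have hu0 : 0 < u := Real.sqrt_pos.2 hS0
  have hSu : S = u ^ 2 := (Real.sq_sqrt hS0.le).symm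
  rw [n7b_sum hb0 hR0 hu0 hSu hV]
  have hu1 : b ^ 180 ≤ u := by
    refine Real.le_sqrt_of_sq_le ?_
    rw [← pow_mul]
    exact hS
  -- R is large against u
  have hRu : b ^ 4999 * u ≤ 2 * R := by
    refine abs_le_of_sq_le_sq' ?_ (by positivity) |>.2
    have h1 : b ^ 9998 ≤ R := (pow_le_pow_right₀ hb1 (by norm_num)).trans hR
    have h2 : u ^ 2 ≤ 3 * R := by rw [← hSu]; exact hSR
    have h3 : (b ^ 4999 * u) ^ 2 = b ^ 9998 * u ^ 2 := by rw [mul_pow, ← pow_mul]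
    rw [h3]
    calc b ^ 9998 * u ^ 2 ≤ R * (3 * R) := by gcongr
      _ ≤ (2 * R) ^ 2 := by nlinarith [mul_pos hR0 hR0]
  have t1 : 2 * 10 ^ 6 / 9 * u * b ^ 50 ≤ S / (6 * b ^ 121) := by
    rw [le_div_iff₀ (by positivity), hSu]
    have h1 : (2 * 10 ^ 6 / 9 * 6) * b ^ 171 ≤ b ^ 180 := n7b_abs hb (by norm_num) (by norm_num)
    calc 2 * 10 ^ 6 / 9 * u * b ^ 50 * (6 * b ^ 121) = u * ((2 * 10 ^ 6 / 9 * 6) * b ^ 171) := by ring
      _ ≤ u * u := by gcongr; exact h1.trans hu1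
      _ = u ^ 2 := by ring
  have t2 : (10 : ℝ) ^ 6 ≤ S / (6 * b ^ 121) := by
    rw [le_div_iff₀ (by positivity)]
    have h1 : (10 ^ 6 * 6) * b ^ 121 ≤ b ^ 360 := n7b_abs hb (by norm_num) (by norm_num)
    calc (10 : ℝ) ^ 6 * (6 * b ^ 121) = (10 ^ 6 * 6) * b ^ 121 := by ring
      _ ≤ S := h1.trans hS
  have t3 : 6561 * 10 ^ 6 * S ^ 2 / (b ^ 200 * R) ≤ S / (6 * b ^ 121) := by
    rw [div_le_div_iff₀ (by positivity) (by positivity)]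
    have h1 : (6561 * 10 ^ 6 * 6 * 3) * b ^ 121 ≤ b ^ 200 := n7b_abs hb (by norm_num) (by norm_num)
    calc 6561 * 10 ^ 6 * S ^ 2 * (6 * b ^ 121) = S * ((6561 * 10 ^ 6 * 6) * b ^ 121) * S := by ring
      _ ≤ S * ((6561 * 10 ^ 6 * 6) * b ^ 121) * (3 * R) := by gcongr
      _ = S * (((6561 * 10 ^ 6 * 6 * 3) * b ^ 121) * R) := by ring
      _ ≤ S * (b ^ 200 * R) := by gcongr
  have t4 : 81 * 10 ^ 6 * S / b ^ 500 ≤ S / (6 * b ^ 121) := by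
    rw [div_le_div_iff₀ (by positivity) (by positivity)]
    have h1 : (81 * 10 ^ 6 * 6) * b ^ 121 ≤ b ^ 500 := n7b_abs hb (by norm_num) (by norm_num)
    calc 81 * 10 ^ 6 * S * (6 * b ^ 121) = S * ((81 * 10 ^ 6 * 6) * b ^ 121) := by ring
      _ ≤ S * b ^ 500 := by gcongr
  have t5 : 9 * 10 ^ 6 * u / b ^ 49 ≤ S / (6 * b ^ 121) := by
    rw [div_le_div_iff₀ (by positivity) (by positivity), hSu]
    have h1 : (9 * 10 ^ 6 * 6) * b ^ 121 ≤ b ^ 229 := n7b_abs hb (by norm_num) (by norm_num)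
    calc 9 * 10 ^ 6 * u * (6 * b ^ 121) = u * ((9 * 10 ^ 6 * 6) * b ^ 121) := by ring
      _ ≤ u * b ^ 229 := by gcongr
      _ = u * b ^ 180 * b ^ 49 := by rw [mul_assoc, ← pow_add]
      _ ≤ u * u * b ^ 49 := by gcongr
      _ = u ^ 2 * b ^ 49 := by ring
  have t6 : 729 * 10 ^ 6 * u * S * b ^ 2251 / R ≤ S / (6 * b ^ 121) := by
    rw [div_le_div_iff₀ hR0 (by positivity)]
    have h1 : (2 * 729 * 10 ^ 6 * 6) * b ^ 2372 ≤ b ^ 4999 := n7b_abs hb (by norm_num) (by norm_num)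
    have h2 : (729 * 10 ^ 6 * 6) * b ^ 2372 * u ≤ R := by
      have h3 : (2 * 729 * 10 ^ 6 * 6) * b ^ 2372 * u ≤ b ^ 4999 * u := by gcongr
      have h4 := h3.trans hRu
      linarith
    calc 729 * 10 ^ 6 * u * S * b ^ 2251 * (6 * b ^ 121) = S * ((729 * 10 ^ 6 * 6) * (b ^ 2251 * b ^ 121) * u) := by ring
      _ = S * ((729 * 10 ^ 6 * 6) * b ^ 2372 * u) := by rw [← pow_add]
      _ ≤ S * R := by gcongr
  have e : S / b ^ 121 = 6 * (S / (6 * b ^ 121)) := by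
    field_simp
  rw [e]
  linarith

private theorem n7b_large {b S R V : ℝ} (hb : 10 ^ 36 ≤ b) (hS : R / b ^ 400 ≤ S) (hR : b ^ 9999 ≤ R)
    (hV : V = 81 * S / b ^ 100) :
    10 ^ 6 * (2 * S / √V + 1 + V ^ 2 / R + V / b ^ 400 + √V * b * (1 + b ^ 2400 * V / R)) ≤ S ^ 2 / (R * b ^ 50) := by
  have hb1 : 1 ≤ b := le_trans (by norm_num) hb
  have hb0 : 0 < b := lt_of_lt_of_le one_pos hb1
  have hR0 : 0 < R := lt_of_lt_of_le (pow_pos hb0 _) hR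
  have hS0 : 0 < S := lt_of_lt_of_le (by positivity) hS
  have hS1 : R ≤ S * b ^ 400 := (div_le_iff₀ (by positivity)).1 hS
  have hS2 : b ^ 9599 ≤ S := by
    have h1 : b ^ 9599 * b ^ 400 ≤ S * b ^ 400 := by
      rw [← pow_add]
      exact hR.trans hS1
    exact le_of_mul_le_mul_right h1 (by positivity)
  set u := √S with hu
  have hu0 : 0 < u := Real.sqrt_pos.2 hS0
  have hSu : S = u ^ 2 := (Real.sq_sqrt hS0.le).symm
  rw [n7b_sum hb0 hR0 hu0 hSu hV]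
  have hu1 : b ^ 4799 ≤ u := by
    refine Real.le_sqrt_of_sq_le ?_
    rw [← pow_mul]
    exact (pow_le_pow_right₀ hb1 (by norm_num)).trans hS2
  -- u ^ 3 against R
  have hu3 : R * b ^ 4399 ≤ u ^ 3 := by
    have h1 : R * b ^ 4399 * b ^ 400 ≤ u ^ 3 * b ^ 400 := by
      calc R * b ^ 4399 * b ^ 400 = R * b ^ 4799 := by rw [mul_assoc, ← pow_add]
        _ ≤ (S * b ^ 400) * u := by gcongr
        _ = u ^ 3 * b ^ 400 := by rw [hSu]; ring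
    exact le_of_mul_le_mul_right h1 (by positivity)
  have hden : 0 < 6 * (R * b ^ 50) := by positivity
  have t1 : 2 * 10 ^ 6 / 9 * u * b ^ 50 ≤ S ^ 2 / (6 * (R * b ^ 50)) := by
    rw [le_div_iff₀ hden, hSu]
    have h1 : (2 * 10 ^ 6 / 9 * 6) * b ^ 100 ≤ b ^ 4399 := n7b_abs hb (by norm_num) (by norm_num)
    calc 2 * 10 ^ 6 / 9 * u * b ^ 50 * (6 * (R * b ^ 50)) = u * (R * ((2 * 10 ^ 6 / 9 * 6) * b ^ 100)) := by ring
      _ ≤ u * (R * b ^ 4399) := by gcongr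
      _ ≤ u * u ^ 3 := by gcongr
      _ = (u ^ 2) ^ 2 := by ring
  have t2 : (10 : ℝ) ^ 6 ≤ S ^ 2 / (6 * (R * b ^ 50)) := by
    rw [le_div_iff₀ hden]
    have h1 : (10 ^ 6 * 6) * b ^ 450 ≤ b ^ 9599 := n7b_abs hb (by norm_num) (by norm_num)
    have h2 : (10 : ℝ) ^ 6 * (6 * (R * b ^ 50)) ≤ (10 ^ 6 * 6) * b ^ 450 * S := by
      calc (10 : ℝ) ^ 6 * (6 * (R * b ^ 50)) = (10 ^ 6 * 6) * b ^ 50 * R := by ring
        _ ≤ (10 ^ 6 * 6) * b ^ 50 * (S * b ^ 400) := by gcongr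
        _ = (10 ^ 6 * 6) * (b ^ 50 * b ^ 400) * S := by ring
        _ = (10 ^ 6 * 6) * b ^ 450 * S := by rw [← pow_add]
    calc (10 : ℝ) ^ 6 * (6 * (R * b ^ 50)) ≤ (10 ^ 6 * 6) * b ^ 450 * S := h2
      _ ≤ b ^ 9599 * S := by gcongr
      _ ≤ S * S := by gcongr
      _ = S ^ 2 := by ring
  have t3 : 6561 * 10 ^ 6 * S ^ 2 / (b ^ 200 * R) ≤ S ^ 2 / (6 * (R * b ^ 50)) := by
    rw [div_le_div_iff₀ (by positivity) hden]
    have h1 : (6561 * 10 ^ 6 * 6) * b ^ 50 ≤ b ^ 200 := n7b_abs hb (by norm_num) (by norm_num)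
    calc 6561 * 10 ^ 6 * S ^ 2 * (6 * (R * b ^ 50)) = S ^ 2 * (((6561 * 10 ^ 6 * 6) * b ^ 50) * R) := by ring
      _ ≤ S ^ 2 * (b ^ 200 * R) := by gcongr
  have t4 : 81 * 10 ^ 6 * S / b ^ 500 ≤ S ^ 2 / (6 * (R * b ^ 50)) := by
    rw [div_le_div_iff₀ (by positivity) hden]
    have h1 : (81 * 10 ^ 6 * 6) * b ^ 450 ≤ b ^ 500 := n7b_abs hb (by norm_num) (by norm_num)
    calc 81 * 10 ^ 6 * S * (6 * (R * b ^ 50)) = S * ((81 * 10 ^ 6 * 6) * b ^ 50 * R) := by ring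
      _ ≤ S * ((81 * 10 ^ 6 * 6) * b ^ 50 * (S * b ^ 400)) := by gcongr
      _ = S * ((81 * 10 ^ 6 * 6) * (b ^ 50 * b ^ 400) * S) := by ring
      _ = S * ((81 * 10 ^ 6 * 6) * b ^ 450 * S) := by rw [← pow_add]
      _ ≤ S * (b ^ 500 * S) := by gcongr
      _ = S ^ 2 * b ^ 500 := by ring
  have t5 : 9 * 10 ^ 6 * u / b ^ 49 ≤ S ^ 2 / (6 * (R * b ^ 50)) := by
    rw [div_le_div_iff₀ (by positivity) hden, hSu]
    have h1 : (9 * 10 ^ 6 * 6) * b ^ 50 ≤ b ^ 4399 := n7b_abs hb (by norm_num) (by norm_num)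
    have h2 : (1 : ℝ) ≤ b ^ 49 := one_le_pow₀ hb1
    calc 9 * 10 ^ 6 * u * (6 * (R * b ^ 50)) = u * (R * ((9 * 10 ^ 6 * 6) * b ^ 50)) := by ring
      _ ≤ u * (R * b ^ 4399) := by gcongr
      _ ≤ u * u ^ 3 := by gcongr
      _ = (u ^ 2) ^ 2 * 1 := by ring
      _ ≤ (u ^ 2) ^ 2 * b ^ 49 := by gcongr
  have t6 : 729 * 10 ^ 6 * u * S * b ^ 2251 / R ≤ S ^ 2 / (6 * (R * b ^ 50)) := by
    rw [div_le_div_iff₀ hR0 hden]
    have h1 : (729 * 10 ^ 6 * 6) * b ^ 2301 ≤ b ^ 4799 := n7b_abs hb (by norm_num) (by norm_num)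
    calc 729 * 10 ^ 6 * u * S * b ^ 2251 * (6 * (R * b ^ 50)) =
        u * S * R * ((729 * 10 ^ 6 * 6) * (b ^ 2251 * b ^ 50)) := by ring
      _ = u * S * R * ((729 * 10 ^ 6 * 6) * b ^ 2301) := by rw [← pow_add]
      _ ≤ u * S * R * b ^ 4799 := by gcongr
      _ ≤ u * S * R * u := by gcongr
      _ = S ^ 2 * R := by rw [hSu]; ring
  have e : S ^ 2 / (R * b ^ 50) = 6 * (S ^ 2 / (6 * (R * b ^ 50))) := by
    field_simp
  rw [e]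
  linarith

private theorem n7b_card {k : Cd 3} (hk : KC P k) {S : ℝ} (hS : P.b ^ 360 ≤ S) (X : Finset (Zd 3))
    (hX : ∀ s ∈ X, Ob P k s ∧ S ≤ nz s ∧ nz s ≤ 2 * S) (hne : X.Nonempty) :
    S ≤ 3 * nr (im k) ∧ P.b ^ 9999 ≤ nr (im k) ∧ (X.card : ℝ) ≤ 10 ^ 6 * (2 * S / √(81 * S / P.b ^ 100) + 1 +
      (81 * S / P.b ^ 100) ^ 2 / nr (im k) + (81 * S / P.b ^ 100) / P.b ^ 400 +
      √(81 * S / P.b ^ 100) * P.b * (1 + P.b ^ 2400 * (81 * S / P.b ^ 100) / nr (im k))) := by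
  have hb := P.b_ge
  have hb1 := P.one_le_b
  have hb0 := P.b_pos
  obtain ⟨s₀, hs₀⟩ := hne
  obtain ⟨ho, h1, -⟩ := hX s₀ hs₀
  have hSR : S ≤ 3 * nr (im k) := h1.trans (ob_le hk ho)
  have hR : P.b ^ 9999 ≤ nr (im k) := by
    have h2 := hk.yy.lo
    have h3 : 4 * P.b ^ 9999 ≤ P.b ^ 10000 := P.mul_pow_le (by norm_num) (by norm_num)
    linarith
  have hV1 : P.b ^ 260 ≤ S / P.b ^ 100 := by
    rw [le_div_iff₀ (P.pow_pos _), ← pow_add]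
    exact hS
  have hrho : P.rho = 1 / P.b ^ 100 := by
    unfold Big.rho
    rw [one_div]
  have h260 : (1 : ℝ) ≤ P.b ^ 260 := one_le_pow₀ hb1
  have h2b : 2 * P.b ≤ P.b ^ 260 := by
    have h := P.mul_pow_le (c := 2) (i := 1) (j := 260) (by norm_num) (by norm_num)
    rwa [pow_one] at h
  have hV0 : 81 * S / P.b ^ 100 = 81 * (S / P.b ^ 100) := by ring
  refine ⟨hSR, hR, arc hk (S := 2 * S) (V := 81 * S / P.b ^ 100) ?_ ?_ ?_ X ?_⟩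
  · have h3 : (1 : ℝ) ≤ P.b ^ 360 := one_le_pow₀ hb1
    linarith
  · rw [hV0]
    linarith
  · have h3 : (24300 : ℝ) * P.b ^ 0 ≤ P.b ^ 100 := P.mul_pow_le (by norm_num) (by norm_num)
    rw [pow_zero, mul_one] at h3
    rw [div_le_div_iff₀ (P.pow_pos _) (by norm_num)]
    have hR0 : 0 ≤ nr (im k) := nr_nonneg _
    calc 81 * S * 100 ≤ 81 * (3 * nr (im k)) * 100 := by gcongr
      _ = nr (im k) * 24300 := by ring
      _ ≤ nr (im k) * P.b ^ 100 := by gcongr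
  · intro s hs
    obtain ⟨ho, -, h3⟩ := hX s hs
    refine ⟨h3, ho.2.trans ?_⟩
    rw [hrho, hV0]
    have h4 : 40 * (1 / P.b ^ 100) * nz s ≤ 80 * (S / P.b ^ 100) := by
      calc 40 * (1 / P.b ^ 100) * nz s ≤ 40 * (1 / P.b ^ 100) * (2 * S) := by gcongr
        _ = 80 * (S / P.b ^ 100) := by ring
    linarith

/-- Proof. `X` empty: trivial. Otherwise `S ≤ 3 R` (`ob_le`). `V := 81 ρ S`: `2 b + 80 ρ S ≤ V` (`ρ S ≥ b^260`), `1 ≤ V ≤ 243 ρ R ≤ R/100`.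
`arc` with length `2 S`. `√V = 9 √S/b^50`, `b^180 ≤ √S ≤ 2 √R`, `√R ≥ b^4999`:
`10^6·2 S/√V ≤ 2.3·10^5 b^50 √S ≤ 2.3·10^5 S b^50/b^180`; `10^6 ≤ S/b^300`; `10^6 V²/R = 6561·10^6 ρ² S²/R ≤ 2·10^10 S/b^200`;
`10^6 V/b^400 = 8.1·10^7 S/b^500`; `10^6 √V b = 9·10^6 √S/b^49 ≤ 9·10^6 S/b^229`;
`10^6 √V b b^2400 V/R = 7.3·10^8 √S b^2251 S/R ≤ 1.5·10^9 S b^2251/√R ≤ 1.5·10^9 S b^2251/b^4999`. Each is `≤ S/(6 b^121)`. -/
theorem ob_mid {k : Cd 3} (hk : KC P k) {S : ℝ} (hS : P.b ^ 360 ≤ S) (X : Finset (Zd 3))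
    (hX : ∀ s ∈ X, Ob P k s ∧ S ≤ nz s ∧ nz s ≤ 2 * S) : (X.card : ℝ) ≤ S / P.b ^ 121 := by
  rcases X.eq_empty_or_nonempty with rfl | hne
  · simp only [Finset.card_empty, Nat.cast_zero]
    exact div_nonneg ((P.pow_pos 360).le.trans hS) (P.pow_pos 121).le
  obtain ⟨h1, h2, h3⟩ := n7b_card hk hS X hX hne
  exact h3.trans (n7b_mid P.b_ge hS h1 h2 rfl)

/-- Proof. As `ob_mid` (same `V`, same five terms, `√S ≥ √R/b^200 ≥ b^4799`), now compared with `S²/(R b^51)`: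
`2.3·10^5 b^50 √S · R b^51 ≤ S²` since `S √S ≥ (R/b^400)(√R/b^200) ≥ R b^4399`; `10^6 R b^51 ≤ S²`;
`6561·10^6 ρ² S²/R ≤ S²/(R b^51)`; `8.1·10^7 S/b^500 ≤ S²/(R b^51)` as `S ≥ R/b^400`; `9·10^6 √S/b^49`: as the first;
`7.3·10^8 √S b^2251 S/R ≤ S²/(R b^51)` as `√S ≥ b^4799`. -/
theorem ob_large {k : Cd 3} (hk : KC P k) {S : ℝ} (hS : nr (im k) / P.b ^ 400 ≤ S)
    (X : Finset (Zd 3)) (hX : ∀ s ∈ X, Ob P k s ∧ S ≤ nz s ∧ nz s ≤ 2 * S) :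
    (X.card : ℝ) ≤ S ^ 2 / (nr (im k) * P.b ^ 50) := by
  have hR : P.b ^ 9999 ≤ nr (im k) := by
    have h2 := hk.yy.lo
    have h3 : 4 * P.b ^ 9999 ≤ P.b ^ 10000 := P.mul_pow_le (by norm_num) (by norm_num)
    linarith
  have hS' : P.b ^ 360 ≤ S := by
    refine le_trans ?_ hS
    rw [le_div_iff₀ (P.pow_pos _), ← pow_add]
    exact (P.pow_le (by norm_num)).trans hR
  rcases X.eq_empty_or_nonempty with rfl | hne
  · simp only [Finset.card_empty, Nat.cast_zero]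
    have h0 := nr_nonneg (im k)
    have h1 := P.pow_pos 50
    positivity
  obtain ⟨h1, h2, h3⟩ := n7b_card hk hS' X hX hne
  exact h3.trans (n7b_large P.b_ge hS h2 rfl)

end H9F
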