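import Pool.Agent.Lib.H9F.N5A
import Pool.Agent.Lib.H9F.N7A

/-!
# H9F N9: a long obstacle vector belongs to at most two sites
-/

open scoped BigOperators Topology
open Set Filter

noncomputable section

namespace H9F

open Fermi

variable {M : ℝ} {μ : ℂ} {P : Big M μ}

theorem n9_sq2 {x y : ℝ} (h : |x| ≤ y) : x ^ 2 ≤ y ^ 2 := by
  rw [← sq_abs]
  exact pow_le_pow_left₀ (abs_nonneg _) h 2

theorem n9_sq {x : ℝ} (h : |x| ≤ 1) : x ^ 2 ≤ 1 := by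
  have := n9_sq2 h
  linarith

theorem n9_mul {x y : ℝ} (hx : |x| ≤ 1) (hy : |y| ≤ 1) : |x * y| ≤ 1 := by
  rw [abs_mul]
  exact mul_le_one₀ hx (abs_nonneg _) hy

theorem n9_s2 {L s2 s3 : ℝ} (hL1 : 10 ^ 12 ≤ L) (hs : s2 ^ 2 + s3 ^ 2 = L ^ 2)
    (hs3 : |s3| ≤ 1 / 100) : 99 / 100 * L ≤ |s2| := by
  have hL0 : 0 < L := by linarith
  have h1 := n9_sq2 hs3
  have h3 : 1 ≤ L ^ 2 := one_le_pow₀ (by linarith)
  refine le_of_sq_le_sq ?_ (abs_nonneg _)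
  rw [sq_abs]
  have h4 : (99 / 100 * L) ^ 2 = 9801 / 10000 * L ^ 2 := by ring
  rw [h4]
  linarith

theorem n9_a {L c r x2 x3 y2 y3 s2 s3 : ℝ} (hr0 : 0 ≤ r) (hL0 : 0 < L)
    (hs2 : 99 / 100 * L ≤ |s2|) (h33 : |(x3 - y3) * s3| ≤ 1)
    (hx : |2 * (x2 * s2 + x3 * s3) + L ^ 2| ≤ 2 * c + 40 * r * L)
    (hy : |2 * (y2 * s2 + y3 * s3) + L ^ 2| ≤ 2 * c + 40 * r * L) (hc : 0 ≤ c) :
    L * |x2 - y2| ≤ 3 * c + 50 * r * L + 2 := by
  have hd2 : |s2| * |x2 - y2| ≤ 2 * c + 40 * r * L + 1 := by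
    rw [← abs_mul]
    have h5 : s2 * (x2 - y2) = (2 * (x2 * s2 + x3 * s3) + L ^ 2) / 2 -
        (2 * (y2 * s2 + y3 * s3) + L ^ 2) / 2 - (x3 - y3) * s3 := by ring
    rw [h5]
    rw [abs_le] at hx hy h33 ⊢
    constructor <;> linarith [hx.1, hx.2, hy.1, hy.2, h33.1, h33.2]
  have h4 : 99 / 100 * L * |x2 - y2| ≤ 2 * c + 40 * r * L + 1 :=
    (mul_le_mul_of_nonneg_right hs2 (abs_nonneg _)).trans hd2
  have h5 : 0 ≤ r * L := mul_nonneg hr0 hL0.le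
  have h6 : 99 / 100 * (L * |x2 - y2|) ≤ 2 * c + 40 * (r * L) + 1 := by linarith
  linarith

theorem n9_b {L c r u2 u3 s2 s3 : ℝ} (hr : r * L ≤ 1 / 10 ^ 12 * L) (hL1 : 10 ^ 12 ≤ L)
    (hcL : 10 ^ 12 * c ≤ L) (hs2 : 99 / 100 * L ≤ |s2|) (h33 : |u3 * s3| ≤ 1)
    (hu : |2 * (u2 * s2 + u3 * s3) + L ^ 2| ≤ 2 * c + 40 * r * L) : |u2| ≤ L := by
  have hL0 : 0 < L := by linarith
  have hLL : 10 ^ 12 * L ≤ L ^ 2 := by
    rw [sq]
    exact mul_le_mul_of_nonneg_right hL1 hL0.le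
  have h4 : |s2| * |u2| ≤ L ^ 2 / 2 + c + 20 * r * L + 1 := by
    rw [← abs_mul]
    have h6 : s2 * u2 = (2 * (u2 * s2 + u3 * s3) + L ^ 2) / 2 - L ^ 2 / 2 - u3 * s3 := by ring
    rw [h6]
    have h7 := sq_nonneg L
    rw [abs_le] at hu h33 ⊢
    constructor <;> linarith [hu.1, hu.2, h33.1, h33.2]
  have h5 : 99 / 100 * L * |u2| ≤ 99 / 100 * L * L := by
    refine (mul_le_mul_of_nonneg_right hs2 (abs_nonneg _)).trans (h4.trans ?_)
    have h8 : 99 / 100 * L * L = 99 / 100 * L ^ 2 := by ring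
    rw [h8]
    linarith
  exact le_of_mul_le_mul_left h5 (by positivity)

theorem n9_big {R L u1 u2 u3 U : ℝ} (hR0 : 10 ^ 12 ≤ R) (hL0 : 0 ≤ L) (hLR : 10 ^ 12 * L ≤ R)
    (h4 : u1 ^ 2 + u2 ^ 2 + u3 ^ 2 = U) (h5 : |U - R ^ 2| ≤ 1000 * R) (h6 : |u2| ≤ L)
    (h7 : |u3| ≤ 1) : R / 2 ≤ |u1| := by
  have hR : 0 < R := by linarith
  refine le_of_sq_le_sq ?_ (abs_nonneg _)
  rw [sq_abs]
  have h9 := n9_sq2 h6
  have h10 : (10 ^ 12 * L) ^ 2 ≤ R ^ 2 := pow_le_pow_left₀ (by positivity) hLR 2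
  have h11 : (10 ^ 12 * L) ^ 2 = 10 ^ 24 * L ^ 2 := by ring
  rw [h11] at h10
  have h12 := n9_sq h7
  have h13 := (abs_le.1 h5).1
  have h14 : 10 ^ 12 * R ≤ R ^ 2 := by
    rw [sq]
    exact mul_le_mul_of_nonneg_right hR0 hR.le
  have h15 : (R / 2) ^ 2 = R ^ 2 / 4 := by ring
  have h16 := sq_nonneg L
  rw [h15]
  linarith

theorem n9_same {x y R : ℝ} (hR : 0 < R) (hx : R / 2 ≤ |x|) (hy : R / 2 ≤ |y|) (h : 0 ≤ x * y) :
    R ≤ |x + y| := by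
  refine le_of_sq_le_sq ?_ (abs_nonneg _)
  rw [sq_abs]
  have h1 : (R / 2) ^ 2 ≤ |x| ^ 2 := pow_le_pow_left₀ (by positivity) hx 2
  have h2 : (R / 2) ^ 2 ≤ |y| ^ 2 := pow_le_pow_left₀ (by positivity) hy 2
  rw [sq_abs] at h1 h2
  have h3 : R / 2 * (R / 2) ≤ |x| * |y| := mul_le_mul hx hy (by positivity) (abs_nonneg _)
  rw [← abs_mul, abs_of_nonneg h] at h3
  have h4 : (x + y) ^ 2 = x ^ 2 + 2 * (x * y) + y ^ 2 := by ring
  have h5 : R ^ 2 = (R / 2) ^ 2 + 2 * (R / 2 * (R / 2)) + (R / 2) ^ 2 := by ring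
  rw [h4, h5]
  linarith

/-- the real inequality: two points `a, b` with coordinates `(x1,x2,x3)`, `(y1,y2,y3)`, the vector `s = (0, s2, s3)`.
`c` stands for `b`, `r` for `ρ`. -/
theorem n9_real {R L c r x1 x2 x3 y1 y2 y3 s2 s3 A B : ℝ} (hr0 : 0 ≤ r) (hr : r ≤ 1 / 10 ^ 12)
    (hc0 : 1 ≤ c) (hcL : 10 ^ 12 * c ≤ L) (hLR : 10 ^ 12 * L ≤ R)
    (hs : s2 ^ 2 + s3 ^ 2 = L ^ 2) (hs3 : |s3| ≤ 1 / 100)
    (hA : x1 ^ 2 + x2 ^ 2 + x3 ^ 2 = A) (hB : y1 ^ 2 + y2 ^ 2 + y3 ^ 2 = B)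
    (hAR : |A - R ^ 2| ≤ 200 * R * r + c) (hAB : |A - B| ≤ 400 * R * r)
    (hx3 : |x3| ≤ 1) (hy3 : |y3| ≤ 1) (h3 : |x3 - y3| ≤ 200 * r)
    (hx : |2 * (x2 * s2 + x3 * s3) + L ^ 2| ≤ 2 * c + 40 * r * L)
    (hy : |2 * (y2 * s2 + y3 * s3) + L ^ 2| ≤ 2 * c + 40 * r * L)
    (hsg : 0 ≤ x1 * y1) : (x1 - y1) ^ 2 + (x2 - y2) ^ 2 + (x3 - y3) ^ 2 < 1 := by
  have hL0 : 0 < L := by linarith
  have hL1 : 10 ^ 12 ≤ L := by linarith
  have hR0 : 0 < R := by linarith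
  have hs2 := n9_s2 hL1 hs hs3
  have hs31 : |s3| ≤ 1 := by linarith
  have h3' : |x3 - y3| ≤ 1 / 10 ^ 9 := by
    refine h3.trans ?_
    linarith
  have hd2L := n9_a hr0 hL0 hs2 (n9_mul (by linarith) hs31) hx hy (by linarith)
  have hrL : r * L ≤ 1 / 10 ^ 12 * L := mul_le_mul_of_nonneg_right hr hL0.le
  have hd2' : |x2 - y2| ≤ 1 / 100 := by
    have h4 : L * |x2 - y2| ≤ L * (1 / 100) := by
      refine hd2L.trans ?_
      linarith
    exact le_of_mul_le_mul_left h4 hL0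
  have hxx := n9_b hrL hL1 hcL hs2 (n9_mul hx3 hs31) hx
  have hyy := n9_b hrL hL1 hcL hs2 (n9_mul hy3 hs31) hy
  have h7 : R * r ≤ R * (1 / 10 ^ 12) := mul_le_mul_of_nonneg_left hr hR0.le
  have h7' : 0 ≤ R * r := mul_nonneg hR0.le hr0
  -- first coordinate
  have hsq : |x1 ^ 2 - y1 ^ 2| ≤ R / 100 := by
    have h4 : |x2 ^ 2 - y2 ^ 2| ≤ 2 * (3 * c + 50 * r * L + 2) := by
      have h5 : x2 ^ 2 - y2 ^ 2 = (x2 - y2) * (x2 + y2) := by ring
      rw [h5, abs_mul]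
      have h6 : |x2 + y2| ≤ 2 * L := (abs_add_le _ _).trans (by linarith)
      calc |x2 - y2| * |x2 + y2| ≤ |x2 - y2| * (2 * L) := by gcongr
        _ = 2 * (L * |x2 - y2|) := by ring
        _ ≤ _ := by linarith
    have h5 : |x3 ^ 2 - y3 ^ 2| ≤ 1 := by
      have hx3' := n9_sq hx3
      have hy3' := n9_sq hy3
      have := sq_nonneg x3
      have := sq_nonneg y3
      rw [abs_le]
      constructor <;> linarith
    have h6 : x1 ^ 2 - y1 ^ 2 = (A - B) - (x2 ^ 2 - y2 ^ 2) - (x3 ^ 2 - y3 ^ 2) := by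
      rw [← hA, ← hB]
      ring
    rw [h6]
    rw [abs_le] at h4 h5 hAB ⊢
    constructor <;> linarith [h4.1, h4.2, h5.1, h5.2, hAB.1, hAB.2]
  have hb1 := n9_big (u1 := x1) (by linarith) hL0.le hLR hA (hAR.trans (by linarith)) hxx hx3
  have hb2 := n9_big (u1 := y1) (by linarith) hL0.le hLR hB (by
    have : B - R ^ 2 = (A - R ^ 2) - (A - B) := by ring
    rw [this]
    refine (abs_sub _ _).trans ?_
    linarith) hyy hy3
  have hd1 : |x1 - y1| ≤ 1 / 10 := by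
    have h4 := n9_same hR0 hb1 hb2 hsg
    have h5 : |x1 - y1| * R ≤ 1 / 10 * R := by
      calc |x1 - y1| * R ≤ |x1 - y1| * |x1 + y1| :=
            mul_le_mul_of_nonneg_left h4 (abs_nonneg _)
        _ = |x1 ^ 2 - y1 ^ 2| := by
            rw [← abs_mul]
            congr 1
            ring
        _ ≤ R / 100 := hsq
        _ ≤ _ := by linarith
    exact le_of_mul_le_mul_right h5 hR0
  have f1 := n9_sq2 hd1
  have f2 := n9_sq2 hd2'
  have f3 := n9_sq2 h3'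
  have f4 : ((1 : ℝ) / 10) ^ 2 + (1 / 100) ^ 2 + (1 / 10 ^ 9) ^ 2 < 1 := by norm_num
  linarith

/-- the frame of `y` and `s`: `e1 ⟂ y, s` -/
theorem n9_frame {y s : Fin 3 → ℝ} (hy : y ≠ 0) (h : cr y s ≠ 0) :
    ∃ E : Frm, Adp E y ∧ dr s E.e1 = 0 := by
  have h1 := nr_pos h
  have h2 := nr_pos hy
  set g1 : Fin 3 → ℝ := (nr (cr y s))⁻¹ • cr y s with hg1
  set g3 : Fin 3 → ℝ := (nr y)⁻¹ • y with hg3
  have e1 : dr g1 g1 = 1 := by
    rw [hg1, dr_smul_left, dr_smul_right, ← nr_sq]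
    field_simp
  have e3 : dr g3 g3 = 1 := by
    rw [hg3, dr_smul_left, dr_smul_right, ← nr_sq]
    field_simp
  have e13 : dr g1 g3 = 0 := by
    rw [hg1, hg3, dr_smul_left, dr_smul_right, dr_comm, dr_cr_left]
    ring
  have e2 : dr (cr g3 g1) (cr g3 g1) = 1 := by
    have h3 := lagrange g3 g1
    rw [nr_sq, nr_sq, nr_sq, e1, e3, dr_comm g3 g1, e13] at h3
    linarith
  have e12 : dr g1 (cr g3 g1) = 0 := dr_cr_right _ _
  have e23 : dr (cr g3 g1) g3 = 0 := by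
    rw [dr_comm]
    exact dr_cr_left _ _
  have hyg : y = nr y • g3 := by
    rw [hg3, smul_smul, mul_inv_cancel₀ h2.ne', one_smul]
  refine ⟨⟨g1, cr g3 g1, g3, e1, e2, e3, e12, e13, e23⟩, ⟨?_, ?_, ?_⟩, ?_⟩
  · show dr y g1 = 0
    rw [hyg, dr_smul_left, dr_comm, e13, mul_zero]
  · show dr y (cr g3 g1) = 0
    rw [hyg, dr_smul_left, dr_comm, e23, mul_zero]
  · show dr y g3 = nr y
    conv_lhs => rw [hyg]
    rw [dr_smul_left, e3, mul_one]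
  · show dr s g1 = 0
    rw [hg1, dr_smul_right, dr_cr_right, mul_zero]

theorem n9_sign (a b c : ℝ) : 0 ≤ a * b ∨ 0 ≤ b * c ∨ 0 ≤ a * c := by
  rcases le_total 0 a with ha | ha <;> rcases le_total 0 b with hb | hb <;>
    rcases le_total 0 c with hc | hc
  · exact Or.inl (mul_nonneg ha hb)
  · exact Or.inl (mul_nonneg ha hb)
  · exact Or.inr (Or.inr (mul_nonneg ha hc))
  · exact Or.inr (Or.inl (mul_nonneg_of_nonpos_of_nonpos hb hc))
  · exact Or.inr (Or.inl (mul_nonneg hb hc))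
  · exact Or.inr (Or.inr (mul_nonneg_of_nonpos_of_nonpos ha hc))
  · exact Or.inl (mul_nonneg_of_nonpos_of_nonpos ha hb)
  · exact Or.inl (mul_nonneg_of_nonpos_of_nonpos ha hb)

/-- (N9) Proof. Let `R = nr (im p)`, `y = im p`, `a n = re p + rz n`. The facts, for `n ∈ X`: `| |a n|² - R² | ≤ 200 R ρ + b` (`q0_re` for
`p + zc n`), `|a n · y| ≤ 100 R ρ + b` (`q0_im`), `|2 a n · s + |s|²| ≤ 2 b + 40 ρ |s|` (`gs_re`), `|y · s| ≤ b + 20 ρ |s|` (`gs_im`).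
Let `E` be a frame with `e3 = y/R`, `e1 = (y × s)/|y × s|`, `e2 = e3 × e1` (`|y × s|² = R² |s|² - (y·s)² > 0` by `lagrange`), `σ_i = s · e_i`:
`σ_1 = 0`, `|σ_3| ≤ (b + 20 ρ |s|)/R ≤ 1/100`, `|σ_2| ≥ 0.99 |s|`. `x_i n = a n · e_i`. Then `|x_3 n| ≤ 1`,
`|x_3 n - x_3 m| ≤ 200 ρ + b/R·..` in fact `R (x_3 n - x_3 m) = ((q μ p n).im - (q μ p m).im)/2`, so `≤ 200 ρ`.
`2 σ_2 (x_2 n - x_2 m) + 2 σ_3 (x_3 n - x_3 m) = (gs..n - gs..m).re`, so `|x_2 n - x_2 m| ≤ (2 b + 40 ρ |s| + 1)/(0.99 |s|) ≤ 1/100`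
and also `|s| |x_2 n - x_2 m| ≤ 3 b + 50 ρ |s|`; `|x_2 n| ≤ |s|`. So
`|x_1(n)² - x_1(m)²| ≤ 400 R ρ + 2 |s| |x_2 n - x_2 m| + 1 ≤ R/100`, and `x_1(n)² ≥ R²/2` (`|s| ≤ R/b^400`). If `x_1 n`, `x_1 m` have the same sign:
`|x_1 n - x_1 m| ≤ (R/100)/R = 1/100`, so `nz (n - m) < 1`, `n = m`. So at most two `n` (one for each sign). -/
theorem two_sites {p : Cd 3} (hy : YY P 4 (im p)) {s : Zd 3} (h1 : P.b ^ 120 < nz s)
    (h2 : nz s ≤ nr (im p) / P.b ^ 400) (X : Finset (Zd 3))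
    (hX : ∀ n ∈ X, ‖q μ p n‖ ≤ 200 * nr (im p) * P.rho ∧
      ‖gs (p + zc n) s‖ ≤ 2 * P.b + 40 * P.rho * nz s) : X.card ≤ 2 := by
  by_contra hcard
  push Not at hcard
  obtain ⟨n₁, hn₁, n₂, hn₂, n₃, hn₃, h12, h13, h23⟩ := Finset.two_lt_card.1 hcard
  have hR := hy.R_pos
  have hL0 : 0 < nz s := lt_trans (P.pow_pos 120) h1
  have hb1 := P.one_le_b
  have hb0 := P.b_pos
  have hρ0 := P.rho_pos
  have hρ : P.rho ≤ 1 / 10 ^ 12 := by
    refine P.rho_le_small.trans ?_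
    norm_num
  have hcL : 10 ^ 12 * P.b ≤ nz s := by
    have h3 : 10 ^ 12 * P.b ^ 1 ≤ P.b ^ 120 := P.mul_pow_le (by norm_num) (by norm_num)
    rw [pow_one] at h3
    linarith
  have hLR : 10 ^ 12 * nz s ≤ nr (im p) := by
    rw [le_div_iff₀ (P.pow_pos 400)] at h2
    have h3 : (10 : ℝ) ^ 12 ≤ P.b ^ 400 := by
      have h4 : (10 : ℝ) ^ 36 * P.b ^ 0 ≤ P.b ^ 400 := P.mul_pow_le le_rfl (by norm_num)
      rw [pow_zero, mul_one] at h4
      exact le_trans (by norm_num) h4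
    calc 10 ^ 12 * nz s ≤ P.b ^ 400 * nz s := mul_le_mul_of_nonneg_right h3 hL0.le
      _ = nz s * P.b ^ 400 := mul_comm _ _
      _ ≤ _ := h2
  -- the scalar product with `y`
  have hys : |dt (im p) s| ≤ P.b + 20 * P.rho * nz s := by
    have h3 := (Complex.abs_im_le_norm _).trans (hX n₁ hn₁).2
    rw [gs_im, im_add_zc, abs_mul, abs_two] at h3
    linarith
  have hρL : P.rho * nz s ≤ 1 / 10 ^ 12 * nz s := mul_le_mul_of_nonneg_right hρ hL0.le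
  have hys' : |dt (im p) s| ≤ nr (im p) * (1 / 100) := by
    refine hys.trans ?_
    linarith
  have hcr : cr (im p) (rz s) ≠ 0 := by
    intro h3
    have h4 := lagrange (im p) (rz s)
    rw [h3, nr_zero, ← dt_eq] at h4
    have h5 := n9_sq2 hys'
    have h6 : (1 : ℝ) ≤ nr (rz s) ^ 2 := one_le_pow₀ (by
      show (1 : ℝ) ≤ nz s
      linarith)
    have h7 : nr (im p) ^ 2 * 1 ≤ nr (im p) ^ 2 * nr (rz s) ^ 2 :=
      mul_le_mul_of_nonneg_left h6 (sq_nonneg _)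
    have h8 : (nr (im p) * (1 / 100)) ^ 2 = nr (im p) ^ 2 * (1 / 10000) := by ring
    have h9 : 0 < nr (im p) ^ 2 := pow_pos hR 2
    rw [h8] at h5
    linarith
  obtain ⟨E, hE, hE1⟩ := n9_frame hy.ne_zero hcr
  have hs : dr (rz s) E.e2 ^ 2 + dr (rz s) E.e3 ^ 2 = nz s ^ 2 := by
    have h3 := E.parseval (rz s)
    rw [hE1] at h3
    have h4 : nr (rz s) = nz s := rfl
    rw [h4] at h3
    linarith
  have hs3 : |dr (rz s) E.e3| ≤ 1 / 100 := by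
    have h3 : |dr (rz s) E.e3| * nr (im p) = |dt (im p) s| := by
      rw [dt_eq, dr_comm (im p), n5a_im hE (rz s), abs_mul, abs_of_pos hR, mul_comm]
    have h4 : |dr (rz s) E.e3| * nr (im p) ≤ 1 / 100 * nr (im p) := by
      rw [h3]
      linarith
    exact le_of_mul_le_mul_right h4 hR
  have hμ := P.mu_le_b
  have hμr := (Complex.abs_re_le_norm μ).trans hμ
  have hμi := (Complex.abs_im_le_norm μ).trans hμ
  have hRb : P.b ≤ nr (im p) := by linarith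
  have hRρ : nr (im p) * P.rho ≤ nr (im p) * (1 / 10 ^ 12) := mul_le_mul_of_nonneg_left hρ hR.le
  -- the facts for one site
  have hre : ∀ n ∈ X, |nr (re p + rz n) ^ 2 - nr (im p) ^ 2 - μ.re| ≤ 200 * nr (im p) * P.rho := by
    intro n hn
    have h3 := (hX n hn).1
    rw [q_shift] at h3
    have h4 := (Complex.abs_re_le_norm _).trans h3
    rwa [q0_re, re_add_zc, im_add_zc] at h4
  have him : ∀ n ∈ X, |2 * (nr (im p) * dr (re p + rz n) E.e3) - μ.im| ≤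
      200 * nr (im p) * P.rho := by
    intro n hn
    have h3 := (hX n hn).1
    rw [q_shift] at h3
    have h4 := (Complex.abs_im_le_norm _).trans h3
    rwa [q0_im, re_add_zc, im_add_zc, n5a_im hE] at h4
  have hx3 : ∀ n ∈ X, |dr (re p + rz n) E.e3| ≤ 1 := by
    intro n hn
    have h3 := him n hn
    have h4 : |dr (re p + rz n) E.e3| * nr (im p) ≤ 1 * nr (im p) := by
      have h5 : |dr (re p + rz n) E.e3| * nr (im p) = |nr (im p) * dr (re p + rz n) E.e3| := by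
        rw [abs_mul, abs_of_pos hR, mul_comm]
      rw [h5]
      rw [abs_le] at h3 hμi ⊢
      constructor <;> linarith [h3.1, h3.2, hμi.1, hμi.2]
    exact le_of_mul_le_mul_right h4 hR
  have hgs : ∀ n ∈ X, |2 * (dr (re p + rz n) E.e2 * dr (rz s) E.e2 +
      dr (re p + rz n) E.e3 * dr (rz s) E.e3) + nz s ^ 2| ≤
      2 * P.b + 40 * P.rho * nz s := by
    intro n hn
    have h4 := (Complex.abs_re_le_norm _).trans (hX n hn).2
    rw [gs_re, re_add_zc, dt_eq, E.parseval2 (re p + rz n) (rz s), hE1, mul_zero, zero_add] at h4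
    exact h4
  have key : ∀ n ∈ X, ∀ m ∈ X, 0 ≤ dr (re p + rz n) E.e1 * dr (re p + rz m) E.e1 → n = m := by
    intro n hn m hm hsg
    have h3 : |dr (re p + rz n) E.e3 - dr (re p + rz m) E.e3| ≤ 200 * P.rho := by
      have h4 := him n hn
      have h5 := him m hm
      have h6 : |dr (re p + rz n) E.e3 - dr (re p + rz m) E.e3| * nr (im p) ≤
          200 * P.rho * nr (im p) := by
        have h7 : |dr (re p + rz n) E.e3 - dr (re p + rz m) E.e3| * nr (im p) =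
            |nr (im p) * dr (re p + rz n) E.e3 - nr (im p) * dr (re p + rz m) E.e3| := by
          rw [← mul_sub, abs_mul, abs_of_pos hR, mul_comm]
        rw [h7]
        rw [abs_le] at h4 h5 ⊢
        constructor <;> linarith [h4.1, h4.2, h5.1, h5.2]
      exact le_of_mul_le_mul_right h6 hR
    have h4 : |nr (re p + rz n) ^ 2 - nr (im p) ^ 2| ≤ 200 * nr (im p) * P.rho + P.b := by
      have h5 := hre n hn
      rw [abs_le] at h5 hμr ⊢
      constructor <;> linarith [h5.1, h5.2, hμr.1, hμr.2]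
    have h5 : |nr (re p + rz n) ^ 2 - nr (re p + rz m) ^ 2| ≤ 400 * nr (im p) * P.rho := by
      have h6 := hre n hn
      have h7 := hre m hm
      rw [abs_le] at h6 h7 ⊢
      constructor <;> linarith [h6.1, h6.2, h7.1, h7.2]
    have h6 := n9_real (R := nr (im p)) (L := nz s) (c := P.b) (r := P.rho) hρ0.le hρ hb1 hcL hLR
      hs hs3 (E.parseval (re p + rz n)).symm (E.parseval (re p + rz m)).symm h4 h5 (hx3 n hn)
      (hx3 m hm) h3 (hgs n hn) (hgs m hm) hsg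
    by_contra hne
    have h7 : (1 : ℝ) ≤ nz (n - m) := one_le_nz (sub_ne_zero.2 hne)
    have h8 : nz (n - m) ^ 2 < 1 := by
      have h9 := E.parseval (rz (n - m))
      have h10 : rz (n - m) = (re p + rz n) - (re p + rz m) := by
        rw [rz_sub]
        abel
      rw [h10, dr_sub_left, dr_sub_left, dr_sub_left] at h9
      have h11 : nz (n - m) = nr ((re p + rz n) - (re p + rz m)) := by
        rw [← h10]
        rfl
      rw [h11, h9]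
      exact h6
    have h9 : (1 : ℝ) ≤ nz (n - m) ^ 2 := one_le_pow₀ h7
    linarith
  rcases n9_sign (dr (re p + rz n₁) E.e1) (dr (re p + rz n₂) E.e1) (dr (re p + rz n₃) E.e1)
    with h | h | h
  · exact h12 (key n₁ hn₁ n₂ hn₂ h)
  · exact h23 (key n₂ hn₂ n₃ hn₃ h)
  · exact h13 (key n₁ hn₁ n₃ hn₃ h)

end H9F
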