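import Pool.Agent.Lib.Fermi.OpLoc
import Pool.Agent.Lib.H9F.Defs

/-!
# H9F O1: `D + W` on `ℓ²(Z³)` for a bounded convolution operator `W` (port of `Lib/Fermi/OpBasic.lean`)

There `w` was summable (`Adm`, `Wop`); here only: convolution with `w` is a bounded operator `W`, `‖W‖ ≤ M`.
All proofs are those of `OpBasic.lean` with `Wop w hw` replaced by `W`.
-/

open scoped BigOperators Topology
open Set Filter

noncomputable section

namespace H9F

open Fermi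

/-- convolution with `w` is the bounded operator `W` -/
structure Bd (M : ℝ) (w : Zd 3 → ℂ) (W : H2 3 →L[ℂ] H2 3) : Prop where
  M0 : 0 ≤ M
  norm : ‖W‖ ≤ M
  summ : ∀ (u : H2 3) (n : Zd 3), Summable fun m => w (n - m) * u m
  app : ∀ (u : H2 3) (n : Zd 3), W u n = ∑' m, w (n - m) * u m

/-- diagonally dominant symbols -/
structure AdB (M : ℝ) (w : Zd 3 → ℂ) (W : H2 3 →L[ℂ] H2 3) (D : Zd 3 → ℂ) : Prop where
  hB : Bd M w W
  hD : ∀ n, 4 * M + 8 ≤ ‖D n‖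

variable {M : ℝ} {w : Zd 3 → ℂ} {W : H2 3 →L[ℂ] H2 3} {D : Zd 3 → ℂ}

theorem Bd.sol_add (hB : Bd M w W) {f g u v : H2 3} (h : Sol w D f u) (h' : Sol w D g v) :
    Sol w D (f + g) (u + v) := by
  intro n
  have h1 := h n
  have h2 := h' n
  have h3 : ∑' m, w (n - m) * (u + v) m
      = (∑' m, w (n - m) * u m) + ∑' m, w (n - m) * v m := by
    rw [← (hB.summ u n).tsum_add (hB.summ v n)]
    exact tsum_congr (fun m => by rw [lp.coeFn_add, Pi.add_apply, mul_add])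
  rw [h3, lp.coeFn_add, lp.coeFn_add, Pi.add_apply, Pi.add_apply, ← h1, ← h2]
  ring

theorem o1_c_pos (h : AdB M w W D) : 0 < 4 * M + 8 := by
  have := h.hB.M0
  linarith

theorem o1_D_ne (h : AdB M w W D) (n : Zd 3) : D n ≠ 0 := by
  intro h0
  have h1 := h.hD n
  rw [h0, norm_zero] at h1
  exact absurd h1 (not_le.2 (o1_c_pos h))

theorem o1_inv_le (h : AdB M w W D) (n : Zd 3) : ‖(D n)⁻¹‖ ≤ (4 * M + 8)⁻¹ := by
  rw [norm_inv]
  exact inv_anti₀ (o1_c_pos h) (h.hD n)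

/-- the inverse of the diagonal part -/
def o1_Di (h : AdB M w W D) : H2 3 →L[ℂ] H2 3 :=
  Dg (fun n => (D n)⁻¹) ⟨(4 * M + 8)⁻¹, o1_inv_le h⟩

theorem o1_norm_Di (h : AdB M w W D) : ‖o1_Di h‖ ≤ (4 * M + 8)⁻¹ :=
  norm_Dg_le _ _ (inv_nonneg.2 (o1_c_pos h).le) (o1_inv_le h)

theorem o1_norm_K (h : AdB M w W D) : ‖o1_Di h * W‖ ≤ 1 / 4 := by
  have h1 : ‖o1_Di h * W‖ ≤ (4 * M + 8)⁻¹ * M :=
    (ContinuousLinearMap.opNorm_comp_le _ _).trans
      (mul_le_mul (o1_norm_Di h) h.hB.norm (norm_nonneg _) (inv_nonneg.2 (o1_c_pos h).le))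
  refine h1.trans ?_
  rw [inv_mul_le_iff₀ (o1_c_pos h)]
  linarith

theorem o1_sol_iff (h : AdB M w W D) {f u : H2 3} :
    Sol w D f u ↔ u + (o1_Di h * W) u = o1_Di h f := by
  constructor
  · intro hu
    ext n
    have h1 := hu n
    have h2 : (u + (o1_Di h * W) u) n = u n + (D n)⁻¹ * ∑' m, w (n - m) * u m := by
      rw [lp.coeFn_add, Pi.add_apply, mul_apply_eq_comp, ← h.hB.app]
      rfl
    have h3 : (o1_Di h f) n = (D n)⁻¹ * f n := rfl
    rw [h2, h3, ← h1]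
    field_simp [o1_D_ne h n]
  · intro hu n
    have h0 := congrArg (fun v : H2 3 => v n) hu
    have h2 : (u + (o1_Di h * W) u) n = u n + (D n)⁻¹ * ∑' m, w (n - m) * u m := by
      rw [lp.coeFn_add, Pi.add_apply, mul_apply_eq_comp, ← h.hB.app]
      rfl
    have h3 : (o1_Di h f) n = (D n)⁻¹ * f n := rfl
    simp only [] at h0
    rw [h2, h3] at h0
    have h4 := congrArg (fun z => D n * z) h0
    simp only [mul_add, mul_inv_cancel_left₀ (o1_D_ne h n)] at h4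
    exact h4

theorem AdB.bound (h : AdB M w W D) {f u : H2 3} (hu : Sol w D f u) :
    ‖u‖ ≤ 2 / (4 * M + 8) * ‖f‖ := by
  have h1 := (o1_sol_iff h).1 hu
  have h2 : u = o1_Di h f - (o1_Di h * W) u := by rw [← h1]; abel
  have h3 : ‖u‖ ≤ (4 * M + 8)⁻¹ * ‖f‖ + 1 / 4 * ‖u‖ := by
    calc ‖u‖ = ‖o1_Di h f - (o1_Di h * W) u‖ := by rw [← h2]
      _ ≤ ‖o1_Di h f‖ + ‖(o1_Di h * W) u‖ := norm_sub_le _ _
      _ ≤ (4 * M + 8)⁻¹ * ‖f‖ + 1 / 4 * ‖u‖ := by
          refine add_le_add ?_ ?_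
          · exact ((o1_Di h).le_opNorm f).trans
              (mul_le_mul_of_nonneg_right (o1_norm_Di h) (norm_nonneg _))
          · exact ((o1_Di h * W).le_opNorm u).trans
              (mul_le_mul_of_nonneg_right (o1_norm_K h) (norm_nonneg _))
  have h4 : 0 ≤ (4 * M + 8)⁻¹ * ‖f‖ :=
    mul_nonneg (inv_nonneg.2 (o1_c_pos h).le) (norm_nonneg _)
  rw [div_eq_mul_inv]
  linarith

theorem AdB.unique (h : AdB M w W D) {f u v : H2 3} (hu : Sol w D f u) (hv : Sol w D f v) :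
    u = v := by
  have h1 : Sol w D (f + (-1 : ℂ) • f) (u + (-1 : ℂ) • v) := h.hB.sol_add hu (hv.smul (-1))
  have h2 := h.bound h1
  have h3 : f + (-1 : ℂ) • f = 0 := by rw [neg_one_smul]; abel
  rw [h3, norm_zero, mul_zero] at h2
  have h4 : u + (-1 : ℂ) • v = 0 := norm_le_zero_iff.1 h2
  rw [neg_one_smul] at h4
  exact eq_of_sub_eq_zero (by rw [sub_eq_add_neg]; exact h4)

theorem AdB.exists_sol (h : AdB M w W D) (f : H2 3) : ∃ u, Sol w D f u := by
  set K : H2 3 →L[ℂ] H2 3 := o1_Di h * W with hK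
  have hlt : ‖-K‖ < 1 := by
    rw [norm_neg]
    exact lt_of_le_of_lt (o1_norm_K h) (by norm_num)
  set U := Units.oneSub (-K) hlt with hU
  refine ⟨(↑U⁻¹ : H2 3 →L[ℂ] H2 3) (o1_Di h f), (o1_sol_iff h).2 ?_⟩
  have h1 : (U : H2 3 →L[ℂ] H2 3) = 1 + K := by rw [hU, Units.val_oneSub, sub_neg_eq_add]
  have h2 : (U : H2 3 →L[ℂ] H2 3) * (↑U⁻¹ : H2 3 →L[ℂ] H2 3) = 1 := U.mul_inv
  have h3 := congrArg (fun T : H2 3 →L[ℂ] H2 3 => T (o1_Di h f)) h2
  simp only [mul_apply_eq_comp, one_apply_eq_self] at h3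
  rw [h1] at h3
  exact h3

theorem AdB.grn_spec (h : AdB M w W D) (f : H2 3) : Sol w D f (grn w D f) := by
  have h1 := h.exists_sol f
  unfold grn
  rw [dif_pos h1]
  exact h1.choose_spec

theorem AdB.grn_eq (h : AdB M w W D) {f u : H2 3} (hu : Sol w D f u) : grn w D f = u :=
  h.unique (h.grn_spec f) hu

theorem AdB.inv (h : AdB M w W D) : Inv w D (2 / (4 * M + 8)) :=
  ⟨by have := h.hB.M0; positivity, h.exists_sol, fun _ _ hu => h.bound hu⟩

/-- The Fermi set is far from points where all symbols are large. -/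
theorem FS_far (hB : Bd M w W) {μ : ℂ} {k : Cd 3} (h : ∀ n, 4 * M + 8 ≤ ‖q μ k n‖) :
    k ∉ FS μ w := by
  rintro ⟨u, hu, hsol⟩
  have h1 : AdB M w W (q μ k) := ⟨hB, h⟩
  apply hu
  refine h1.unique (f := 0) ?_ ?_
  · intro n; rw [hsol n]; rfl
  · intro n; simp

end H9F
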