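import Pool.Agent.Lib.H9F.O1

/-!
# H9F O2: analyticity of Green functions (port of `DS_analytic` in `Lib/Fermi/OpAn.lean`)
-/

open scoped BigOperators Topology
open Set Filter

noncomputable section

namespace H9F

open Fermi

variable {M : ℝ} {w : Zd 3 → ℂ} {W : H2 3 →L[ℂ] H2 3} {μ : ℂ} {c : ℝ}

/-- port of `d2_dom` (with `W u` in place of `Wop w hw u`) -/
theorem domB (hB : Bd M w W) {D : Zd 3 → ℂ} {K : ℝ}
    (hD : ∀ n : Zd 3, 1 + d2nn n ≤ K * (1 + ‖D n‖))
    (ha : ∃ C, ∀ n : Zd 3, ‖d2wt n‖ ≤ C) {f u : H2 3} (h : Sol w D f u) :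
    ∃ v, u = Dg d2wt ha v := by
  let g : H2 3 := f - W u
  have hg : ∀ n, g n = D n * u n := by
    intro n
    have h1 := h n
    change f n - (W u) n = _
    rw [hB.app, ← h1]
    ring
  have hmem : Memℓp (fun n => ((1 + d2nn n : ℝ) : ℂ) * u n) 2 := by
    have h2 : Memℓp (fun n : Zd 3 => K * ‖u n‖ + K * ‖g n‖) 2 := by
      have h3 : Memℓp (fun n : Zd 3 => ‖u n‖) 2 := (lp.memℓp u).norm
      have h4 : Memℓp (fun n : Zd 3 => ‖g n‖) 2 := (lp.memℓp g).norm
      exact (h3.const_smul K).add (h4.const_smul K)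
    refine h2.mono fun n => ?_
    have h5 := d2nn_nonneg n
    rw [norm_mul, Complex.norm_real, Real.norm_of_nonneg (by linarith), hg n, norm_mul]
    calc (1 + d2nn n) * ‖u n‖ ≤ K * (1 + ‖D n‖) * ‖u n‖ := by
          gcongr
          exact hD n
      _ = K * ‖u n‖ + K * (‖D n‖ * ‖u n‖) := by ring
  refine ⟨⟨_, hmem⟩, ?_⟩
  ext n
  rw [Dg_apply]
  change u n = d2wt n * (((1 + d2nn n : ℝ) : ℂ) * u n)
  have h5 := d2nn_nonneg n
  rw [← mul_assoc, d2wt, inv_mul_cancel₀ (Complex.ofReal_ne_zero.2 (by linarith)), one_mul]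

/-- port of `DS_analytic`; `d2_core` does not need summability -/
theorem DS_analyticB (hB : Bd M w W) (hc : 0 < c) (S : Finset (Zd 3)) (k₀ : Cd 3)
    {C : ℝ} (h : Inv w (DS c μ S k₀) C) (f : H2 3) (m : Zd 3) :
    AnalyticAt ℂ (fun k => (grn w (DS c μ S k) f) m) k₀ := by
  have ha : ∃ C, ∀ n : Zd 3, ‖d2wt n‖ ≤ C := ⟨1, d2wt_le⟩
  have hb : ∀ n : Zd 3, 0 < 1 + d2nn n := fun n => by have := d2nn_nonneg n; linarith
  have h0 : ∃ C, ∀ n : Zd 3, ‖(if n ∈ S then 0 else d2wt n : ℂ)‖ ≤ C := by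
    refine ⟨1, fun n => ?_⟩
    split_ifs
    · simp
    · exact d2wt_le n
  have h1 : ∀ j : Fin 3, ∃ C, ∀ n : Zd 3, ‖(if n ∈ S then 0 else (n j : ℂ) * d2wt n : ℂ)‖ ≤ C := by
    intro j
    refine ⟨1, fun n => ?_⟩
    split_ifs
    · simp
    · rw [norm_mul, d2wt_norm, Complex.norm_intCast, ← div_eq_mul_inv, div_le_one (hb n)]
      have := d2_le_nn n j
      have h2 : |(n j : ℝ)| ^ 2 = (n j : ℝ) ^ 2 := sq_abs _
      nlinarith [sq_nonneg (|(n j : ℝ)| - 1)]
  have h2 : ∃ C, ∀ n : Zd 3, ‖(if n ∈ S then (c : ℂ) * d2wt n else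
      ((d2nn n : ℝ) : ℂ) * d2wt n : ℂ)‖ ≤ C := by
    refine ⟨max c 1, fun n => ?_⟩
    split_ifs
    · rw [norm_mul, Complex.norm_real, Real.norm_of_nonneg hc.le]
      calc c * ‖d2wt n‖ ≤ c * 1 := by
            gcongr
            exact d2wt_le n
        _ ≤ max c 1 := by rw [mul_one]; exact le_max_left _ _
    · rw [norm_mul, d2wt_norm, Complex.norm_real, Real.norm_of_nonneg (d2nn_nonneg n),
        ← div_eq_mul_inv]
      refine le_trans ?_ (le_max_right _ _)
      rw [div_le_one (hb n)]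
      linarith
  let T : Cd 3 → (H2 3 →L[ℂ] H2 3) := fun k =>
    (bil k k - μ) • Dg _ h0 + (∑ j, (2 * k j) • Dg _ (h1 j)) + Dg _ h2 +
      W.comp (Dg d2wt ha)
  refine (d2_core (X := Cd 3) d2wt ha d2wt_ne (T := T) ?_ k₀ ?_ ?_ h f m).1
  · intro k v n
    have e1 : (T k v) n = (bil k k - μ) * ((if n ∈ S then 0 else d2wt n) * v n) +
        (∑ j, (2 * k j) * ((if n ∈ S then 0 else (n j : ℂ) * d2wt n) * v n)) +
        (if n ∈ S then (c : ℂ) * d2wt n else ((d2nn n : ℝ) : ℂ) * d2wt n) * v n +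
        ∑' m, w (n - m) * (d2wt m * v m) := by
      have e2 : (((∑ j, (2 * k j) • Dg _ (h1 j)) : H2 3 →L[ℂ] H2 3) v) n =
          ∑ j, (2 * k j) * ((if n ∈ S then 0 else (n j : ℂ) * d2wt n) * v n) := by
        have e3 : ∀ s : Finset (Fin 3), (((∑ j ∈ s, (2 * k j) • Dg _ (h1 j)) :
            H2 3 →L[ℂ] H2 3) v) n =
            ∑ j ∈ s, (2 * k j) * ((if n ∈ S then 0 else (n j : ℂ) * d2wt n) * v n) := by
          intro s
          classical
          induction s using Finset.induction_on with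
          | empty => simp
          | insert j s hj ih =>
            rw [Finset.sum_insert hj, Finset.sum_insert hj, ← ih]
            change (2 * k j) * (Dg _ (h1 j) v) n + _ = _
            rw [Dg_apply]
            rfl
        exact e3 Finset.univ
      change (bil k k - μ) * (Dg _ h0 v) n +
        (((∑ j, (2 * k j) • Dg _ (h1 j)) : H2 3 →L[ℂ] H2 3) v) n + (Dg _ h2 v) n +
        (W (Dg d2wt ha v)) n = _
      rw [e2, Dg_apply, Dg_apply, hB.app, d2_tsum]
    rw [e1]
    congr 1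
    unfold DS
    by_cases hn : n ∈ S
    · simp only [if_pos hn, zero_mul, mul_zero, Finset.sum_const_zero, add_zero, zero_add]
      ring
    · simp only [if_neg hn]
      rw [d2_q]
      have e4 : ∑ j, 2 * k j * ((n j : ℂ) * d2wt n * v n) =
          (∑ j, 2 * k j * (n j : ℂ)) * (d2wt n * v n) := by
        rw [Finset.sum_mul]
        apply Finset.sum_congr rfl
        intro j _
        ring
      rw [e4]
      ring
  · have e1 : AnalyticAt ℂ (fun k : Cd 3 => bil k k - μ) k₀ :=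
      (d2_bil_analytic analyticAt_id analyticAt_id).sub analyticAt_const
    refine ((((e1.smul analyticAt_const).add ?_).add analyticAt_const).add analyticAt_const)
    refine Finset.analyticAt_fun_sum _ fun j _ => ?_
    exact (analyticAt_const.mul (d2_coord_analytic analyticAt_id j)).smul analyticAt_const
  · intro k f u hu
    obtain ⟨K, hK, hKD⟩ := d2_DS_lower c μ S k
    exact domB hB hKD ha hu

end H9F
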