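import Pool.Agent.Lib.H9F.O2

/-!
# H9F O3: the Fermi set is locally a hypersurface (port of `Lib/Fermi/OpLoc.lean`)
-/

open scoped BigOperators Topology
open Set Filter

noncomputable section

namespace H9F

open Fermi

variable {M : ℝ} {w : Zd 3 → ℂ} {W : H2 3 →L[ℂ] H2 3} {μ : ℂ}

/-- port of `d3_adm` (`c = 4M + 8`) -/
theorem admB (hB : Bd M w W) (S : Finset (Zd 3)) (p : Cd 3)
    (hS : ∀ n, n ∉ S → 2 * (4 * M + 8) ≤ ‖q μ p n‖) :
    ∀ᶠ k in 𝓝 p, AdB M w W (DS (4 * M + 8) μ S k) := by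
  obtain ⟨K, hK, hlow⟩ := d2_q_lower μ p
  have hM0 := hB.M0
  have e1 : ∀ᶠ k in 𝓝 p, ‖bil k k - bil p p‖ ≤ 1 := by
    have hcont : ContinuousAt (fun k : Cd 3 => bil k k - bil p p) p :=
      ((d2_bil_analytic analyticAt_id analyticAt_id).sub analyticAt_const).continuousAt
    have h1 : Tendsto (fun k : Cd 3 => ‖bil k k - bil p p‖) (𝓝 p) (𝓝 0) := by
      have := hcont.norm
      unfold ContinuousAt at this
      simpa using this
    filter_upwards [h1.eventually (gt_mem_nhds (zero_lt_one))] with k hk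
    exact hk.le
  have e2 : ∀ᶠ k in 𝓝 p, ‖k - p‖ * (2 * 3 * K) ≤ 1 / 8 := by
    have h1 : Tendsto (fun k : Cd 3 => ‖k - p‖ * (2 * 3 * K)) (𝓝 p) (𝓝 0) := by
      have h2 : Continuous (fun k : Cd 3 => ‖k - p‖ * (2 * 3 * K)) := by fun_prop
      have := h2.tendsto p
      simpa using this
    filter_upwards [h1.eventually (gt_mem_nhds (by norm_num : (0:ℝ) < 1 / 8))] with k hk
    exact hk.le
  filter_upwards [e1, e2] with k hk1 hk2
  refine ⟨hB, fun n => ?_⟩
  unfold DS
  by_cases hn : n ∈ S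
  · rw [if_pos hn, Complex.norm_real, Real.norm_of_nonneg (by linarith)]
  · rw [if_neg hn]
    have h1 := hS n hn
    have h2 : q μ k n - q μ p n = (bil k k - bil p p) + ∑ j, 2 * (k j - p j) * (n j : ℂ) := by
      rw [d2_q, d2_q]
      have : ∑ j, 2 * (k j - p j) * (n j : ℂ) =
          (∑ j, 2 * k j * (n j : ℂ)) - ∑ j, 2 * p j * (n j : ℂ) := by
        rw [← Finset.sum_sub_distrib]
        apply Finset.sum_congr rfl
        intro j _
        ring
      rw [this]
      ring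
    have h3 : ‖∑ j, 2 * (k j - p j) * (n j : ℂ)‖ ≤ ‖k - p‖ * (2 * 3) * (1 + d2nn n) := by
      calc ‖∑ j, 2 * (k j - p j) * (n j : ℂ)‖ ≤ ∑ j, ‖2 * (k j - p j) * (n j : ℂ)‖ :=
            norm_sum_le _ _
        _ ≤ ∑ j : Fin 3, 2 * ‖k - p‖ * (1 + d2nn n) := by
            apply Finset.sum_le_sum
            intro j _
            rw [norm_mul, norm_mul, Complex.norm_ofNat, Complex.norm_intCast]
            have h4 : ‖k j - p j‖ ≤ ‖k - p‖ := norm_le_pi_norm (k - p) j
            have h5 := d2_le_nn n j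
            have h6 : |(n j : ℝ)| ^ 2 = (n j : ℝ) ^ 2 := sq_abs _
            have h7 : |(n j : ℝ)| ≤ 1 + d2nn n := by nlinarith [sq_nonneg (|(n j : ℝ)| - 1)]
            gcongr
        _ = ‖k - p‖ * (2 * 3) * (1 + d2nn n) := by
            rw [Finset.sum_const, Finset.card_univ, Fintype.card_fin, nsmul_eq_mul]
            push_cast
            ring
    have h4 : ‖k - p‖ * (2 * 3) * (1 + d2nn n) ≤ 1 / 8 * (1 + ‖q μ p n‖) := by
      have h5 := hlow n
      have h6 := norm_nonneg (q μ p n)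
      calc ‖k - p‖ * (2 * 3) * (1 + d2nn n) ≤ ‖k - p‖ * (2 * 3) * (K * (1 + ‖q μ p n‖)) := by
            gcongr
        _ = ‖k - p‖ * (2 * 3 * K) * (1 + ‖q μ p n‖) := by ring
        _ ≤ 1 / 8 * (1 + ‖q μ p n‖) := by gcongr
    have h5 : ‖q μ p n‖ ≤ ‖q μ k n‖ + ‖q μ k n - q μ p n‖ := by
      have : q μ p n = q μ k n - (q μ k n - q μ p n) := by ring
      calc ‖q μ p n‖ = ‖q μ k n - (q μ k n - q μ p n)‖ := by rw [← this]
        _ ≤ _ := norm_sub_le _ _
    have h6 : ‖q μ k n - q μ p n‖ ≤ ‖bil k k - bil p p‖ + ‖∑ j, 2 * (k j - p j) * (n j : ℂ)‖ := by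
      rw [h2]
      exact norm_add_le _ _
    linarith

theorem o3_sol_sum {D : Zd 3 → ℂ} (h : AdB M w W D) (S : Finset (Zd 3)) (x : Zd 3 → ℂ) :
    Sol w D (∑ m ∈ S, x m • dlt m) (∑ m ∈ S, x m • grn w D (dlt m)) := by
  classical
  induction S using Finset.induction_on with
  | empty =>
    intro n
    simp
  | insert a S ha ih =>
    rw [Finset.sum_insert ha, Finset.sum_insert ha]
    exact h.hB.sol_add (Sol.smul _ (h.grn_spec _)) ih

/-- port of `d3_mem_iff` (`d3_sol_iff`, `d3_mulVec` can be cited; `d3_sol_sum` has to be ported, `Bd.sol_add`) -/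
theorem mem_iffB {S : Finset (Zd 3)} {k : Cd 3} (h : AdB M w W (DS (4 * M + 8) μ S k)) :
    k ∈ FS μ w ↔ (d3M w (4 * M + 8) μ S k).det = 0 := by
  classical
  rw [← Matrix.exists_mulVec_eq_zero_iff]
  constructor
  · rintro ⟨u, hu, hsol⟩
    have h1 := (d3_sol_iff (c := 4 * M + 8) (S := S) u (fun n => u n) (fun _ _ => rfl)).2 hsol
    have h2 := o3_sol_sum h S (fun m => (((4 * M + 8 : ℝ) : ℂ) - q μ k m) * u m)
    have h3 := h.unique h1 h2
    refine ⟨fun m => u m, ?_, ?_⟩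
    · intro h0
      apply hu
      rw [h3]
      apply Finset.sum_eq_zero
      intro m hm
      have h4 : u m = 0 := congrFun h0 ⟨m, hm⟩
      simp only [h4, mul_zero, zero_smul]
    · funext n
      rw [d3_mulVec (fun n => u n) n]
      have h4 := congrArg (fun v : H2 3 => v (n : Zd 3)) h3
      simp only [d3_sum_apply] at h4
      rw [← h4, sub_self]
      rfl
  · rintro ⟨y, hy, hMy⟩
    let x : Zd 3 → ℂ := fun n => if hn : n ∈ S then y ⟨n, hn⟩ else 0
    have hxy : ∀ n : S, x n = y n := by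
      intro n
      simp only [x]
      rw [dif_pos n.2]
    have hxy' : (fun m : S => x m) = y := funext hxy
    let u : H2 3 := ∑ m ∈ S, ((((4 * M + 8 : ℝ) : ℂ) - q μ k m) * x m) • grn w (DS (4 * M + 8) μ S k) (dlt m)
    have hu : ∀ n ∈ S, x n = u n := by
      intro n hn
      have h1 := d3_mulVec (w := w) (c := 4 * M + 8) (μ := μ) (k := k) x ⟨n, hn⟩
      rw [hxy', hMy] at h1
      have h2 : u n = ∑ m ∈ S, ((((4 * M + 8 : ℝ) : ℂ) - q μ k m) * x m) *
          (grn w (DS (4 * M + 8) μ S k) (dlt m)) n := d3_sum_apply _ _ _ _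
      rw [h2]
      exact (sub_eq_zero.1 h1.symm)
    refine ⟨u, ?_, (d3_sol_iff (c := 4 * M + 8) (S := S) u x hu).1 (o3_sol_sum h S _)⟩
    intro h0
    apply hy
    funext n
    rw [← hxy n, hu n n.2, h0]
    rfl

/-- port of `d3_det_analytic` -/
theorem det_analyticB {S : Finset (Zd 3)} {k : Cd 3} (h : AdB M w W (DS (4 * M + 8) μ S k)) :
    AnalyticAt ℂ (fun k => (d3M w (4 * M + 8) μ S k).det) k := by
  have h1 : ∀ n m : S, AnalyticAt ℂ (fun k => d3M w (4 * M + 8) μ S k n m) k := by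
    intro n m
    unfold d3M
    have h2 := DS_analyticB (μ := μ) h.hB (o1_c_pos h) S k h.inv (dlt (m : Zd 3)) (n : Zd 3)
    have h3 : AnalyticAt ℂ (fun k : Cd 3 => q μ k m) k := by
      have h4 : AnalyticAt ℂ (fun k : Cd 3 => k + zc (m : Zd 3)) k :=
        analyticAt_id.add analyticAt_const
      exact (d2_bil_analytic h4 h4).sub analyticAt_const
    exact analyticAt_const.add (h2.mul (h3.sub analyticAt_const))
  simp only [Matrix.det_apply]
  refine Finset.analyticAt_fun_sum _ fun σ _ => ?_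
  have h5 : AnalyticAt ℂ (fun k => ∏ i, d3M w (4 * M + 8) μ S k (σ i) i) k :=
    Finset.analyticAt_fun_prod _ fun i _ => h1 _ _
  have h6 : ∀ k : Cd 3, Equiv.Perm.sign σ • ∏ i, d3M w (4 * M + 8) μ S k (σ i) i =
      (((Equiv.Perm.sign σ : ℤ) : ℂ)) * ∏ i, d3M w (4 * M + 8) μ S k (σ i) i := by
    intro k
    rw [Units.smul_def, zsmul_eq_mul]
  simp only [h6]
  exact analyticAt_const.mul h5

/-- port of `FS_locHyp` -/
theorem FS_locHypB (μ : ℂ) (hB : Bd M w W) : LocHyp (FS μ w) := by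
  intro p
  let S : Finset (Zd 3) := (d3_finite μ p (2 * (4 * M + 8))).toFinset
  have hS : ∀ n, n ∉ S → 2 * (4 * M + 8) ≤ ‖q μ p n‖ := by
    intro n hn
    by_contra hcon
    push Not at hcon
    apply hn
    simp only [S, Set.Finite.mem_toFinset]
    exact hcon
  have hadm := admB (μ := μ) hB S p hS
  refine ⟨{k | AdB M w W (DS (4 * M + 8) μ S k)}, hadm,
    fun k => (d3M w (4 * M + 8) μ S k).det, ?_, ?_⟩
  · intro k hk
    exact det_analyticB hk
  · intro k hk
    exact mem_iffB hk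

end H9F
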