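import Pool.Agent.Lib.H9F.O3

/-!
# H9F O4: one resonant site
-/

open scoped BigOperators Topology
open Set Filter

noncomputable section

namespace H9F

open Fermi

variable {M : ℝ} {w : Zd 3 → ℂ} {W : H2 3 →L[ℂ] H2 3} {μ : ℂ}

/-- The diagonal entry of the Green function. Let `D` be admissible with `D n = c = 4M+8`, `u = grn δ_n`, `g = u n`. Then `g ≠ 0` and
`|1/g - c| ≤ 2(M+1)`.
Proof: `u_m = -(W u)_m/D_m` for `m ≠ n`, so `u - g δ_n = -Dg(1/D off n) (W u)`, `‖u - g δ_n‖ ≤ (M/c)‖u‖ ≤ ‖u‖/4`, hence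
`‖u‖ ≤ |g| + ‖u‖/4`, `‖u‖ ≤ (4/3)|g|`; `u ≠ 0` (since `(D+W)u = δ_n`), so `g ≠ 0`; `c g + (W u)_n = 1`, so `1/g - c = (W u)_n/g`,
`|.| ≤ M (4/3) ≤ 2 (M+1)`. -/
theorem grn_diag {D : Zd 3 → ℂ} (h : AdB M w W D) {n : Zd 3} (hn : D n = ((4 * M + 8 : ℝ) : ℂ)) :
    (grn w D (dlt n)) n ≠ 0 ∧
    ‖1 / (grn w D (dlt n)) n - ((4 * M + 8 : ℝ) : ℂ)‖ ≤ 2 * (M + 1) := by
  classical
  obtain ⟨u, hu⟩ : ∃ u, u = grn w D (dlt n) := ⟨_, rfl⟩
  have hs := h.grn_spec (dlt n)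
  rw [← hu] at hs ⊢
  have hM0 := h.hB.M0
  have hc := o1_c_pos h
  have hWu : ‖W u‖ ≤ M * ‖u‖ :=
    (W.le_opNorm u).trans (mul_le_mul_of_nonneg_right h.hB.norm (norm_nonneg _))
  obtain ⟨v, hv⟩ : ∃ v : H2 3, v = u - u n • dlt n := ⟨_, rfl⟩
  have hvm : ∀ m, v m = (if m = n then 0 else -(D m)⁻¹) * (W u) m := by
    intro m
    have e1 : v m = u m - u n * (dlt n) m := by rw [hv]; rfl
    rw [e1, d3_dlt_apply]
    by_cases hm : m = n
    · subst hm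
      simp
    · rw [if_neg hm, if_neg hm, mul_zero, sub_zero, h.hB.app]
      have e2 := hs m
      rw [d3_dlt_apply, if_neg hm] at e2
      have e3 := o1_D_ne h m
      field_simp
      linear_combination e2
  have hvn : ‖v‖ ≤ (4 * M + 8)⁻¹ * ‖W u‖ := by
    refine norm_diag_le (fun m => if m = n then 0 else -(D m)⁻¹) (fun m => ?_) (W u) v hvm
    by_cases hm : m = n
    · simp only [hm, if_true, norm_zero]
      exact inv_nonneg.2 hc.le
    · simp only [hm, if_false, norm_neg]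
      exact o1_inv_le h m
  have hdn : ‖(dlt n : H2 3)‖ ≤ 1 := by
    unfold dlt
    rw [lp.norm_single (by norm_num)]
    simp
  have hun : ‖u‖ ≤ ‖u n‖ + ‖v‖ := by
    have e1 : u = u n • dlt n + v := by rw [hv]; abel
    calc ‖u‖ = ‖u n • dlt n + v‖ := by rw [← e1]
      _ ≤ ‖u n • (dlt n : H2 3)‖ + ‖v‖ := norm_add_le _ _
      _ ≤ ‖u n‖ + ‖v‖ := by
          gcongr
          rw [norm_smul]
          exact mul_le_of_le_one_right (norm_nonneg _) hdn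
  have hv4 : ‖v‖ ≤ ‖u‖ / 4 := by
    refine hvn.trans ?_
    rw [inv_mul_le_iff₀ hc]
    have := norm_nonneg u
    nlinarith
  have hkey : ‖u‖ ≤ 4 / 3 * ‖u n‖ := by linarith
  have hnn := hs n
  rw [d3_dlt_apply, if_pos rfl, hn, ← h.hB.app] at hnn
  have hne : u n ≠ 0 := by
    intro h0
    rw [h0, norm_zero, mul_zero] at hkey
    have h1 : u = 0 := norm_le_zero_iff.1 hkey
    rw [h1] at hnn
    simp at hnn
  refine ⟨hne, ?_⟩
  have e1 : 1 / u n - ((4 * M + 8 : ℝ) : ℂ) = (W u) n / u n := by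
    field_simp
    linear_combination -hnn
  rw [e1, norm_div, div_le_iff₀ (norm_pos_iff.2 hne)]
  have e2 : ‖(W u) n‖ ≤ ‖W u‖ := H2.norm_apply_le _ n
  have e3 : M * ‖u‖ ≤ M * (4 / 3 * ‖u n‖) := mul_le_mul_of_nonneg_left hkey hM0
  have e4 := norm_nonneg (u n)
  nlinarith

theorem o4_adm {k : Cd 3} {n : Zd 3} (h : ∀ m, m ≠ n → 4 * M + 8 ≤ ‖q μ k m‖) (hB : Bd M w W) :
    AdB M w W (DS (4 * M + 8) μ {n} k) := by
  refine ⟨hB, fun m => ?_⟩
  unfold DS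
  by_cases hm : m = n
  · rw [if_pos (Finset.mem_singleton.2 hm), Complex.norm_real]
    exact le_abs_self _
  · rw [if_neg (fun h1 => hm (Finset.mem_singleton.1 h1))]
    exact h m hm

theorem o4_DS (c : ℝ) (k : Cd 3) (n : Zd 3) : DS c μ {n} k n = (c : ℂ) := by
  unfold DS
  rw [if_pos (Finset.mem_singleton_self n)]

/-- Membership with one resonant site (`mem_iffB` with `S = {n}`, a `1 × 1` determinant; or directly: `k ∈ F` iff there is `u ≠ 0` with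
`(D_S + W) u = (c - q_n) u_n δ_n`, i.e. `u = (c - q_n) u_n grn δ_n`). -/
theorem mem_one {k : Cd 3} {n : Zd 3} (h : ∀ m, m ≠ n → 4 * M + 8 ≤ ‖q μ k m‖) (hB : Bd M w W) :
    k ∈ FS μ w ↔ q μ k n + (1 / (grn w (DS (4 * M + 8) μ {n} k) (dlt n)) n -
      ((4 * M + 8 : ℝ) : ℂ)) = 0 := by
  have hA := o4_adm h hB
  have hg := (grn_diag hA (o4_DS _ k n)).1
  rw [mem_iffB hA, Matrix.det_eq_elem_of_subsingleton _ (⟨n, Finset.mem_singleton_self n⟩ :
    ({n} : Finset (Zd 3)))]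
  unfold d3M
  rw [if_pos rfl]
  constructor
  · intro h1
    field_simp
    linear_combination h1
  · intro h1
    field_simp at h1
    linear_combination h1

/-- The property `Fsh.one`. Proof: `e z = 1/(grn w (DS c μ {n} (k + z v)) (dlt n)) n - c` (`mem_one`, `grn_diag`); analytic at `z` with `‖z‖ < r`:
`DS_analyticB` at `k + z v` (`AdB.inv`) composed with the affine map, `g ≠ 0`. -/
theorem FS_one (hB : Bd M w W) (k v : Cd 3) (r : ℝ) (n : Zd 3) (hr : 0 < r)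
    (h : ∀ z : ℂ, ‖z‖ ≤ r → ∀ m, m ≠ n → 4 * M + 8 ≤ ‖q μ (k + z • v) m‖) :
    ∃ e : ℂ → ℂ, AnalyticOnNhd ℂ e (Metric.ball 0 r) ∧ (∀ z, ‖z‖ < r → ‖e z‖ ≤ 2 * (M + 1)) ∧
      ∀ z, ‖z‖ < r → (k + z • v ∈ FS μ w ↔ q μ (k + z • v) n + e z = 0) := by
  refine ⟨fun z => 1 / (grn w (DS (4 * M + 8) μ {n} (k + z • v)) (dlt n)) n -
    ((4 * M + 8 : ℝ) : ℂ), ?_, ?_, ?_⟩
  · intro z hz
    rw [Metric.mem_ball, dist_zero_right] at hz
    have hA := o4_adm (h z hz.le) hB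
    have hg := (grn_diag hA (o4_DS _ _ n)).1
    have h1 := DS_analyticB (μ := μ) hB (o1_c_pos hA) {n} (k + z • v) hA.inv (dlt n) n
    have h2 : AnalyticAt ℂ (fun z : ℂ => k + z • v) z :=
      analyticAt_const.add (analyticAt_id.smul analyticAt_const)
    have h3 : AnalyticAt ℂ (fun z : ℂ => (grn w (DS (4 * M + 8) μ {n} (k + z • v)) (dlt n)) n) z :=
      AnalyticAt.comp (g := fun k : Cd 3 => (grn w (DS (4 * M + 8) μ {n} k) (dlt n)) n)
        (f := fun z : ℂ => k + z • v) h1 h2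
    exact (analyticAt_const.div h3 hg).sub analyticAt_const
  · intro z hz
    exact (grn_diag (o4_adm (h z hz.le) hB) (o4_DS _ _ n)).2
  · intro z hz
    exact mem_one (h z hz.le) hB

/-- periodicity: `u ↦ shiftv l u` -/
theorem FS_perB (μ : ℂ) (w : Zd 3 → ℂ) : Per (FS μ w) := FS_per μ w

/-- the Fermi set satisfies the axioms of the geometric part -/
theorem FS_Fsh (μ : ℂ) (hB : Bd M w W) : Fsh μ M (FS μ w) :=
  ⟨FS_locHypB μ hB, FS_perB μ w, fun _ h => FS_far hB h, FS_one hB⟩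

end H9F
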