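import Pool.Agent.Lib.Fermi.Stmt

/-!
# H9F: statement of the result

`haar 3` is the probability Haar measure of `T³ = (ℝ/ℤ)³`, `EigEq V φ lam k` the eigenvalue equation
`(-i∇ + 2πk)² φ + V φ = lam φ` in Fourier coefficients, `ex` the covering `ℂ³ → (ℂ^*)³`, `IrredAn` irreducibility of
analytic subsets of `(ℂ^*)³` (all in `Fermi/Stmt.lean`).
-/

noncomputable section

namespace H9F

open Fermi MeasureTheory

/-- The Fermi variety of a bounded measurable potential on `T³` in the covering space `ℂ³`: the quasimomenta `k` for which `lam` is an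
eigenvalue of `H(k) = (-i∇ + 2πk)² + V` on `L²(T³)`. -/
def FermiSetL (V : UnitAddTorus (Fin 3) → ℂ) (lam : ℂ) : Set (Fin 3 → ℂ) :=
  {k | ∃ φ : Lp ℂ 2 (haar 3), φ ≠ 0 ∧ EigEq V φ lam k}

end H9F
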