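import Pool.Agent.Lib.H9F.O4
import Pool.Agent.Lib.H9F.Stmt
import Pool.Agent.Lib.Fermi.Main

/-!
# H9F O5: from the torus to Fourier variables (bounded potentials)
-/

open scoped BigOperators Topology Real
open Set Filter MeasureTheory

noncomputable section

namespace H9F

open Fermi

/-- In this file `ℝ / ℤ` carries its probability Haar measure (as in `Fermi/Main.lean`). -/
local instance : MeasureSpace UnitAddCircle := ⟨AddCircle.haarAddCircle⟩

local instance : Measure.IsAddHaarMeasure (volume : Measure UnitAddCircle) :=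
  inferInstanceAs (Measure.IsAddHaarMeasure AddCircle.haarAddCircle)

local instance : IsProbabilityMeasure (volume : Measure UnitAddCircle) :=
  inferInstanceAs (IsProbabilityMeasure AddCircle.haarAddCircle)

/-- Fourier coefficients of a product with a bounded function. Proof: as `Fermi.k2_conv`: `conj V · mFourier n` is bounded, hence in `L²`
(`MemLp.toLp`), `UnitAddTorus.hasSum_prod_mFourierCoeff`. -/
theorem convL {V : UnitAddTorus (Fin 3) → ℂ} (hV : MemLp V ⊤ (volume : Measure (UnitAddTorus (Fin 3))))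
    (φ : Lp ℂ 2 (volume : Measure (UnitAddTorus (Fin 3)))) (n : Fin 3 → ℤ) :
    HasSum (fun m => UnitAddTorus.mFourierCoeff V (n - m) * UnitAddTorus.mFourierCoeff φ m)
      (UnitAddTorus.mFourierCoeff (fun x => V x * φ x) n) := by
  have hF : MemLp (fun x => (starRingEnd ℂ) (V x) * UnitAddTorus.mFourier n x) 2
      (volume : Measure (UnitAddTorus (Fin 3))) := by
    refine (hV.mono_exponent le_top).mono ?_ (Filter.Eventually.of_forall fun x => ?_)
    · exact (Complex.continuous_conj.comp_aestronglyMeasurable hV.1).mul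
        (UnitAddTorus.mFourier n).continuous.aestronglyMeasurable
    · rw [norm_mul, RCLike.norm_conj]
      have h1 : ‖UnitAddTorus.mFourier n x‖ ≤ 1 := by
        refine ((UnitAddTorus.mFourier n).norm_coe_le_norm x).trans ?_
        rw [UnitAddTorus.mFourier_norm]
      exact mul_le_of_le_one_right (norm_nonneg _) h1
  have h := UnitAddTorus.hasSum_prod_mFourierCoeff (hF.toLp _) φ
  have h1 : ∀ m, (starRingEnd ℂ) (UnitAddTorus.mFourierCoeff (hF.toLp _) m) =
      UnitAddTorus.mFourierCoeff V (n - m) := by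
    intro m
    have h0 : UnitAddTorus.mFourierCoeff (hF.toLp _) m =
        UnitAddTorus.mFourierCoeff
          (fun x => (starRingEnd ℂ) (V x) * UnitAddTorus.mFourier n x) m := by
      unfold UnitAddTorus.mFourierCoeff
      apply integral_congr_ae
      filter_upwards [hF.coeFn_toLp] with t ht
      rw [ht]
    rw [h0]
    unfold UnitAddTorus.mFourierCoeff
    rw [← integral_conj]
    congr 1
    funext t
    change (starRingEnd ℂ) (UnitAddTorus.mFourier (-m) t *
      ((starRingEnd ℂ) (V t) * UnitAddTorus.mFourier n t)) = UnitAddTorus.mFourier (-(n - m)) t * V t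
    rw [map_mul, map_mul, Complex.conj_conj, UnitAddTorus.mFourier_neg, Complex.conj_conj,
      show -(n - m) = m + -n by abel, UnitAddTorus.mFourier_add, UnitAddTorus.mFourier_neg]
    ring
  have h2 : ∫ t, (starRingEnd ℂ) ((hF.toLp _) t) * φ t =
      UnitAddTorus.mFourierCoeff (fun x => V x * φ x) n := by
    unfold UnitAddTorus.mFourierCoeff
    apply integral_congr_ae
    filter_upwards [hF.coeFn_toLp] with t ht
    rw [ht]
    change (starRingEnd ℂ) ((starRingEnd ℂ) (V t) * UnitAddTorus.mFourier n t) * φ t =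
      UnitAddTorus.mFourier (-n) t * (V t * φ t)
    rw [map_mul, Complex.conj_conj, UnitAddTorus.mFourier_neg]
    ring
  rw [h2] at h
  simpa only [h1] using h

theorem o5_bound {V : UnitAddTorus (Fin 3) → ℂ}
    (hV : MemLp V ⊤ (volume : Measure (UnitAddTorus (Fin 3)))) :
    ∃ C : ℝ, 0 ≤ C ∧ ∀ᵐ x ∂(volume : Measure (UnitAddTorus (Fin 3))), ‖V x‖ ≤ C := by
  refine ⟨(eLpNorm V ⊤ (volume : Measure (UnitAddTorus (Fin 3)))).toReal, ENNReal.toReal_nonneg, ?_⟩
  have h1 := ae_le_eLpNormEssSup (f := V) (μ := (volume : Measure (UnitAddTorus (Fin 3))))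
  filter_upwards [h1] with x hx
  rw [eLpNorm_exponent_top]
  have h2 : eLpNormEssSup V (volume : Measure (UnitAddTorus (Fin 3))) ≠ ⊤ := by
    have := hV.2
    rw [eLpNorm_exponent_top] at this
    exact this.ne
  have h3 := (ENNReal.toReal_le_toReal (by simp) h2).2 hx
  simpa using h3

theorem o5_mem {V : UnitAddTorus (Fin 3) → ℂ}
    (hV : MemLp V ⊤ (volume : Measure (UnitAddTorus (Fin 3)))) {C : ℝ}
    (hC : ∀ᵐ x ∂(volume : Measure (UnitAddTorus (Fin 3))), ‖V x‖ ≤ C)
    (φ : Lp ℂ 2 (volume : Measure (UnitAddTorus (Fin 3)))) :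
    MemLp (fun x => V x * φ x) 2 (volume : Measure (UnitAddTorus (Fin 3))) := by
  refine (Lp.memLp φ).of_le_mul (c := C) (hV.1.mul (Lp.memLp φ).1) ?_
  filter_upwards [hC] with x hx
  rw [norm_mul]
  exact mul_le_mul_of_nonneg_right hx (norm_nonneg _)

/-- multiplication by a bounded function -/
def o5_mul {V : UnitAddTorus (Fin 3) → ℂ}
    (hV : MemLp V ⊤ (volume : Measure (UnitAddTorus (Fin 3)))) {C : ℝ}
    (hC : ∀ᵐ x ∂(volume : Measure (UnitAddTorus (Fin 3))), ‖V x‖ ≤ C) :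
    Lp ℂ 2 (volume : Measure (UnitAddTorus (Fin 3))) →L[ℂ]
      Lp ℂ 2 (volume : Measure (UnitAddTorus (Fin 3))) :=
  LinearMap.mkContinuous
    { toFun := fun φ => (o5_mem hV hC φ).toLp _
      map_add' := by
        intro φ ψ
        apply Lp.ext
        filter_upwards [(o5_mem hV hC (φ + ψ)).coeFn_toLp, (o5_mem hV hC φ).coeFn_toLp,
          (o5_mem hV hC ψ).coeFn_toLp, Lp.coeFn_add φ ψ,
          Lp.coeFn_add ((o5_mem hV hC φ).toLp _) ((o5_mem hV hC ψ).toLp _)] with x h1 h2 h3 h4 h5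
        rw [h1, h5, Pi.add_apply, h2, h3, h4, Pi.add_apply]
        ring
      map_smul' := by
        intro a φ
        apply Lp.ext
        filter_upwards [(o5_mem hV hC (a • φ)).coeFn_toLp, (o5_mem hV hC φ).coeFn_toLp,
          Lp.coeFn_smul a φ, Lp.coeFn_smul a ((o5_mem hV hC φ).toLp _)] with x h1 h2 h3 h4
        rw [h1, RingHom.id_apply, h4, Pi.smul_apply, h2, h3, Pi.smul_apply, smul_eq_mul,
          smul_eq_mul]
        ring } C
    (fun φ => by
      refine Lp.norm_le_mul_norm_of_ae_le_mul ?_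
      filter_upwards [(o5_mem hV hC φ).coeFn_toLp, hC] with x h1 h2
      change ‖((o5_mem hV hC φ).toLp _) x‖ ≤ _
      rw [h1, norm_mul]
      exact mul_le_mul_of_nonneg_right h2 (norm_nonneg _))

theorem o5_mul_coeff {V : UnitAddTorus (Fin 3) → ℂ}
    (hV : MemLp V ⊤ (volume : Measure (UnitAddTorus (Fin 3)))) {C : ℝ}
    (hC : ∀ᵐ x ∂(volume : Measure (UnitAddTorus (Fin 3))), ‖V x‖ ≤ C)
    (φ : Lp ℂ 2 (volume : Measure (UnitAddTorus (Fin 3)))) (n : Fin 3 → ℤ) :
    UnitAddTorus.mFourierCoeff (o5_mul hV hC φ) n =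
      UnitAddTorus.mFourierCoeff (fun x => V x * φ x) n := by
  unfold UnitAddTorus.mFourierCoeff
  apply integral_congr_ae
  filter_upwards [(o5_mem hV hC φ).coeFn_toLp] with t ht
  change _ • ((o5_mem hV hC φ).toLp _) t = _
  rw [ht]

/-- the Fourier isometry -/
def o5_R : Lp ℂ 2 (volume : Measure (UnitAddTorus (Fin 3))) ≃ₗᵢ[ℂ] H2 3 :=
  UnitAddTorus.mFourierBasis.repr

theorem o5_R_apply (φ : Lp ℂ 2 (volume : Measure (UnitAddTorus (Fin 3)))) (n : Zd 3) :
    (o5_R φ) n = UnitAddTorus.mFourierCoeff φ n :=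
  UnitAddTorus.mFourierBasis_repr φ n

/-- conjugation with the Fourier isometry -/
def o5_W (T : Lp ℂ 2 (volume : Measure (UnitAddTorus (Fin 3))) →L[ℂ]
    Lp ℂ 2 (volume : Measure (UnitAddTorus (Fin 3)))) : H2 3 →L[ℂ] H2 3 :=
  (1 / (2 * (π : ℂ)) ^ 2) •
    ((o5_R : Lp ℂ 2 (volume : Measure (UnitAddTorus (Fin 3))) →L[ℂ] H2 3).comp
      (T.comp (o5_R.symm : H2 3 →L[ℂ] Lp ℂ 2 (volume : Measure (UnitAddTorus (Fin 3))))))

theorem o5_W_apply (T : Lp ℂ 2 (volume : Measure (UnitAddTorus (Fin 3))) →L[ℂ]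
    Lp ℂ 2 (volume : Measure (UnitAddTorus (Fin 3)))) (u : H2 3) :
    o5_W T u = (1 / (2 * (π : ℂ)) ^ 2) • o5_R (T (o5_R.symm u)) := rfl

/-- Multiplication by `V/(4π²)` in Fourier coefficients is a bounded convolution operator: conjugate the multiplication operator on
`L²(T³)` (e.g. `MemLp.smul`/`Lp` multiplication by an `L^∞` function, norm `≤ ‖V‖_∞`) with `UnitAddTorus.mFourierBasis.repr`. `summ`, `app` by `convL`
and `mFourierBasis_repr`. -/
theorem exists_BdL {V : UnitAddTorus (Fin 3) → ℂ}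
    (hV : MemLp V ⊤ (volume : Measure (UnitAddTorus (Fin 3)))) :
    ∃ (M : ℝ) (W : H2 3 →L[ℂ] H2 3),
      Bd M (fun n => UnitAddTorus.mFourierCoeff V n / (2 * (π : ℂ)) ^ 2) W := by
  obtain ⟨C, hC0, hC⟩ := o5_bound hV
  have hco : ∀ (u : H2 3) (m : Zd 3), UnitAddTorus.mFourierCoeff (o5_R.symm u) m = u m := by
    intro u m
    rw [← o5_R_apply, LinearIsometryEquiv.apply_symm_apply]
  have hsum : ∀ (u : H2 3) (n : Zd 3), HasSum
      (fun m => UnitAddTorus.mFourierCoeff V (n - m) / (2 * (π : ℂ)) ^ 2 * u m)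
      (UnitAddTorus.mFourierCoeff (fun x => V x * (o5_R.symm u) x) n / (2 * (π : ℂ)) ^ 2) := by
    intro u n
    refine ((convL hV (o5_R.symm u) n).div_const ((2 * (π : ℂ)) ^ 2)).congr_fun fun m => ?_
    rw [hco]
    ring
  refine ⟨‖(1 / (2 * (π : ℂ)) ^ 2)‖ * C, o5_W (o5_mul hV hC),
    ⟨by positivity, ?_, fun u n => (hsum u n).summable, ?_⟩⟩
  · refine ContinuousLinearMap.opNorm_le_bound _ (by positivity) fun u => ?_
    rw [o5_W_apply, norm_smul, LinearIsometryEquiv.norm_map, mul_assoc]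
    refine mul_le_mul_of_nonneg_left ?_ (norm_nonneg _)
    have h1 : ‖o5_mul hV hC (o5_R.symm u)‖ ≤ C * ‖o5_R.symm u‖ :=
      ((o5_mul hV hC).le_opNorm _).trans
        (mul_le_mul_of_nonneg_right (LinearMap.mkContinuous_norm_le _ hC0 _) (norm_nonneg _))
    rwa [LinearIsometryEquiv.norm_map] at h1
  · intro u n
    rw [(hsum u n).tsum_eq, o5_W_apply]
    change (1 / (2 * (π : ℂ)) ^ 2) * (o5_R (o5_mul hV hC (o5_R.symm u))) n = _
    rw [o5_R_apply, o5_mul_coeff]
    ring

theorem o5_FS0 {V : UnitAddTorus (Fin 3) → ℂ}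
    (hV : MemLp V ⊤ (volume : Measure (UnitAddTorus (Fin 3)))) (lam : ℂ) :
    {k : Fin 3 → ℂ | ∃ φ : Lp ℂ 2 (volume : Measure (UnitAddTorus (Fin 3))), φ ≠ 0 ∧
      ∀ n : Fin 3 → ℤ,
      (2 * (π : ℂ)) ^ 2 * (∑ j, ((n j : ℂ) + k j) ^ 2) * UnitAddTorus.mFourierCoeff φ n +
        UnitAddTorus.mFourierCoeff (fun x => V x * φ x) n = lam * UnitAddTorus.mFourierCoeff φ n} =
      FS (lam / (2 * (π : ℂ)) ^ 2)
      (fun n => UnitAddTorus.mFourierCoeff V n / (2 * (π : ℂ)) ^ 2) := by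
  have hpi : (2 * (π : ℂ)) ^ 2 ≠ 0 := by
    have : (π : ℂ) ≠ 0 := by exact_mod_cast Real.pi_ne_zero
    exact pow_ne_zero 2 (mul_ne_zero two_ne_zero this)
  have key : ∀ (φ : Lp ℂ 2 (volume : Measure (UnitAddTorus (Fin 3)))) (k : Fin 3 → ℂ)
      (n : Fin 3 → ℤ),
      ((2 * (π : ℂ)) ^ 2 * (∑ j, ((n j : ℂ) + k j) ^ 2) * UnitAddTorus.mFourierCoeff φ n +
        UnitAddTorus.mFourierCoeff (fun x => V x * φ x) n = lam * UnitAddTorus.mFourierCoeff φ n)
      ↔ q (lam / (2 * (π : ℂ)) ^ 2) k n * UnitAddTorus.mFourierBasis.repr φ n +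
        ∑' m, UnitAddTorus.mFourierCoeff V (n - m) / (2 * (π : ℂ)) ^ 2 *
          UnitAddTorus.mFourierBasis.repr φ m = 0 := by
    intro φ k n
    have h1 : ∑' m, UnitAddTorus.mFourierCoeff V (n - m) / (2 * (π : ℂ)) ^ 2 *
          UnitAddTorus.mFourierBasis.repr φ m =
        UnitAddTorus.mFourierCoeff (fun x => V x * φ x) n / (2 * (π : ℂ)) ^ 2 := by
      rw [← ((convL hV φ n).div_const ((2 * (π : ℂ)) ^ 2)).tsum_eq]
      apply tsum_congr
      intro m
      rw [UnitAddTorus.mFourierBasis_repr]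
      ring
    have h2 : q (lam / (2 * (π : ℂ)) ^ 2) k n =
        (∑ j, ((n j : ℂ) + k j) ^ 2) - lam / (2 * (π : ℂ)) ^ 2 := by
      unfold q bil zc
      congr 1
      apply Finset.sum_congr rfl
      intro j _
      simp only [Pi.add_apply]
      ring
    rw [h1, h2, UnitAddTorus.mFourierBasis_repr]
    constructor
    · intro h3
      have : ((∑ j, ((n j : ℂ) + k j) ^ 2) - lam / (2 * (π : ℂ)) ^ 2) *
          UnitAddTorus.mFourierCoeff φ n +
          UnitAddTorus.mFourierCoeff (fun x => V x * φ x) n / (2 * (π : ℂ)) ^ 2 =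
          ((2 * (π : ℂ)) ^ 2 * (∑ j, ((n j : ℂ) + k j) ^ 2) * UnitAddTorus.mFourierCoeff φ n +
            UnitAddTorus.mFourierCoeff (fun x => V x * φ x) n -
            lam * UnitAddTorus.mFourierCoeff φ n) / (2 * (π : ℂ)) ^ 2 := by
        field_simp
        ring
      rw [this, h3, sub_self, zero_div]
    · intro h3
      have : ((2 * (π : ℂ)) ^ 2 * (∑ j, ((n j : ℂ) + k j) ^ 2) * UnitAddTorus.mFourierCoeff φ n +
            UnitAddTorus.mFourierCoeff (fun x => V x * φ x) n -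
            lam * UnitAddTorus.mFourierCoeff φ n) = (2 * (π : ℂ)) ^ 2 *
          (((∑ j, ((n j : ℂ) + k j) ^ 2) - lam / (2 * (π : ℂ)) ^ 2) *
          UnitAddTorus.mFourierCoeff φ n +
          UnitAddTorus.mFourierCoeff (fun x => V x * φ x) n / (2 * (π : ℂ)) ^ 2) := by
        field_simp
        ring
      rw [← sub_eq_zero, this, h3, mul_zero]
  ext k
  constructor
  · rintro ⟨φ, hφ, h⟩
    refine ⟨UnitAddTorus.mFourierBasis.repr φ, ?_, fun n => (key φ k n).1 (h n)⟩
    intro h0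
    exact hφ ((LinearIsometryEquiv.map_eq_zero_iff _).1 h0)
  · rintro ⟨u, hu, h⟩
    refine ⟨UnitAddTorus.mFourierBasis.repr.symm u, ?_, fun n => (key _ k n).2 ?_⟩
    · intro h0
      exact hu ((LinearIsometryEquiv.map_eq_zero_iff _).1 h0)
    · rw [LinearIsometryEquiv.apply_symm_apply]
      exact h n

/-- `FermiSetL` in Fourier variables. Proof: as `Fermi.FermiSet0_eq`, with `convL`. -/
theorem FermiSetL_eq {V : UnitAddTorus (Fin 3) → ℂ} (hV : MemLp V ⊤ (haar 3)) (lam : ℂ) :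
    FermiSetL V lam = FS (lam / (2 * (π : ℂ)) ^ 2)
      (fun n => UnitAddTorus.mFourierCoeff V n / (2 * (π : ℂ)) ^ 2) := o5_FS0 hV lam

end H9F
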