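import Pool.Agent.Lib.H9F.P1

/-!
# H9F P2: the class of a patch is well defined
-/

open scoped BigOperators Topology
open Set Filter

noncomputable section

namespace H9F

open Fermi

variable {M : ℝ} {μ : ℂ} {P : Big M μ} {F A B : Set (Cd 3)}

theorem Good.mono {κ κ' : ℝ} (h : κ' ≤ κ) {k : Cd 3} (hk : Good P κ k) : Good P κ' k :=
  ⟨hk.q0, hk.big, fun m hm => (mul_le_mul_of_nonneg_right h P.K_pos.le).trans (hk.far m hm)⟩

theorem LineV.mono {κ κ' : ℝ} (h : κ' ≤ κ) {k : Cd 3} {E : Frm} {x : ℝ} (hk : LineV P κ k E x) :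
    LineV P κ' k E x := fun t ht => (hk t ht).mono h

theorem LineH.mono {κ κ' : ℝ} (h : κ' ≤ κ) {k : Cd 3} {E : Frm} {t : ℝ} (hk : LineH P κ k E t) :
    LineH P κ' k E t := fun x hx => (hk x hx).mono h

theorem p2_pt0 (E : Frm) (k : Cd 3) : E.pt k 0 0 = k := by
  unfold Frm.pt
  rw [zero_smul, zero_smul, add_zero, add_zero]

theorem p2_nrc {k : Cd 3} {E : Frm} (h : RE P k E) : NrC μ E (nr (im k)) k := by
  have h1 := h.nrc (τ := 0) (z := 0) (by rw [norm_zero]; have := P.rho_pos; positivity)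
    (by rw [norm_zero]; have := P.rho_pos; positivity)
  rwa [p2_pt0] at h1

theorem p2_R {k : Cd 3} {E : Frm} (h : RE P k E) : 10 ^ 36 ≤ nr (im k) ∧ P.b ^ 9999 ≤ nr (im k) := by
  have h1 := (YY.lo' (by norm_num) h.yy).1
  refine ⟨?_, h1⟩
  exact (P.b_ge.trans (le_self_pow₀ P.one_le_b (by norm_num))).trans h1

theorem p2_small {k : Cd 3} {E : Frm} (h : RE P k E) {τ : ℂ} (hτ : ‖τ‖ ≤ 5 / 4 * P.rho) :
    ‖τ‖ ≤ nr (im k) / 1000 := by
  have h1 := (p2_R h).1
  have h2 := P.rho_le_one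
  have h3 : (10 : ℝ) ^ 36 ≥ 10000 := by norm_num
  linarith

theorem p2_abs {a b c u : ℝ} (hu : u ∈ Icc (0 : ℝ) 1) (ha : |a| ≤ c) (hb : |b| ≤ c) :
    |a + u * (b - a)| ≤ c := by
  rw [abs_le] at ha hb ⊢
  obtain ⟨h0, h1⟩ := hu
  constructor
  · nlinarith [mul_nonneg h0 (by linarith : 0 ≤ b + c), mul_nonneg (by linarith : 0 ≤ 1 - u) (by linarith : 0 ≤ a + c)]
  · nlinarith [mul_nonneg h0 (by linarith : 0 ≤ c - b), mul_nonneg (by linarith : 0 ≤ 1 - u) (by linarith : 0 ≤ c - a)]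

/-- the class is constant along a good vertical line (`CA_path`; `sp` is continuous, `NrC.continuousOn_sp`, `RE.nrc`) -/
theorem CA_lineV (hF : Fsh μ M F) (D : Decomp F A B) {k : Cd 3} {E : Frm} (h : RE P k E) {x : ℝ}
    (hx : |x| ≤ 3 / 4 * P.rho) (hl : LineV P 4 k E x) {t t' : ℝ} (ht : |t| ≤ 3 / 4 * P.rho)
    (ht' : |t'| ≤ 3 / 4 * P.rho) (hA : CA P F A (sp μ E k ((x : ℂ) + (t : ℂ) * Complex.I))) :
    CA P F A (sp μ E k ((x : ℂ) + (t' : ℂ) * Complex.I)) := by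
  have hcont := (p2_nrc h).continuousOn_sp
  have h1 := CA_path (A := A) (B := B) (P := P) hF D
    (fun u : ℝ => sp μ E k ((x : ℂ) + ((t + u * (t' - t) : ℝ) : ℂ) * Complex.I)) ?_ ?_ ?_
  · simpa using h1
  · refine hcont.comp (by fun_prop) fun u hu => ?_
    apply p2_small h
    apply square_le
    · simpa using hx
    · simpa using p2_abs hu ht ht'
  · intro u hu
    exact (hl _ (p2_abs hu ht ht')).mono (by norm_num)
  · simpa using hA

/-- the class is constant along a good horizontal line -/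
theorem CA_lineH (hF : Fsh μ M F) (D : Decomp F A B) {k : Cd 3} {E : Frm} (h : RE P k E) {t : ℝ}
    (ht : |t| ≤ 3 / 4 * P.rho) (hl : LineH P 4 k E t) {x x' : ℝ} (hx : |x| ≤ 3 / 4 * P.rho)
    (hx' : |x'| ≤ 3 / 4 * P.rho) (hA : CA P F A (sp μ E k ((x : ℂ) + (t : ℂ) * Complex.I))) :
    CA P F A (sp μ E k ((x' : ℂ) + (t : ℂ) * Complex.I)) := by
  have hcont := (p2_nrc h).continuousOn_sp
  have h1 := CA_path (A := A) (B := B) (P := P) hF D
    (fun u : ℝ => sp μ E k (((x + u * (x' - x) : ℝ) : ℂ) + (t : ℂ) * Complex.I)) ?_ ?_ ?_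
  · simpa using h1
  · refine hcont.comp (by fun_prop) fun u hu => ?_
    apply p2_small h
    apply square_le
    · simpa using p2_abs hu hx hx'
    · simpa using ht
  · intro u hu
    exact (hl _ (p2_abs hu hx hx')).mono (by norm_num)
  · simpa using hA

/-- All points of all 4-good vertical lines have the class of the patch. Proof: choose a good horizontal line (`exists_lineH_of`); it crosses both
vertical lines. -/
theorem chi_iff (hF : Fsh μ M F) (D : Decomp F A B) {k : Cd 3} {E : Frm} (h : RE P k E)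
    (hS : ObSum P k) {x : ℝ} (hx : |x| ≤ 3 / 4 * P.rho) (hl : LineV P 4 k E x) {t : ℝ}
    (ht : |t| ≤ 3 / 4 * P.rho) :
    Chi P F A k E ↔ CA P F A (sp μ E k ((x : ℂ) + (t : ℂ) * Complex.I)) := by
  have hρ := P.rho_pos
  have h0 : |(0 : ℝ)| ≤ 3 / 4 * P.rho := by rw [abs_zero]; positivity
  constructor
  · rintro ⟨x₀, hx₀, hl₀, hA⟩
    obtain ⟨t₀, ht₀, hh⟩ := exists_lineH_of h hS (a := -(3 / 4 * P.rho)) (c := 3 / 4 * P.rho)
      le_rfl le_rfl (by linarith)
    have ht₀' : |t₀| ≤ 3 / 4 * P.rho := abs_le.2 ht₀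
    have h1 : CA P F A (sp μ E k ((x₀ : ℂ) + ((0 : ℝ) : ℂ) * Complex.I)) := by simpa using hA
    have h2 := CA_lineV hF D h hx₀ hl₀ h0 ht₀' h1
    have h3 := CA_lineH hF D h ht₀' (hh.mono (by norm_num)) hx₀ hx h2
    exact CA_lineV hF D h hx hl ht₀' ht h3
  · intro hA
    have h1 := CA_lineV hF D h hx hl ht h0 hA
    exact ⟨x, hx, hl, by simpa using h1⟩

/-- not both classes (`good_excl`, `chi_iff`) -/
theorem chi_excl (hF : Fsh μ M F) (D : Decomp F A B) {k : Cd 3} {E : Frm} (h : RE P k E)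
    (hS : ObSum P k) : ¬ (Chi P F A k E ∧ Chi P F B k E) := by
  rintro ⟨⟨x, hx, hl, hA⟩, hB⟩
  have hρ := P.rho_pos
  have h0 : |(0 : ℝ)| ≤ 3 / 4 * P.rho := by rw [abs_zero]; positivity
  have h1 := (chi_iff hF D.symm h hS hx hl h0).1 hB
  have h2 := (hl 0 h0).mono (κ' := 3) (by norm_num)
  simp only [Complex.ofReal_zero, zero_mul, add_zero] at h1 h2
  exact good_excl hF D h2 ⟨hA, h1⟩

theorem p2_ncU (E : Frm) : nc E.U ≤ 3 / 2 := by
  refine le_of_sq_le_sq ?_ (by norm_num)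
  rw [nc_sq, g1_re_U, g1_im_U, nr_sq, nr_sq, E.h11, E.h22]
  norm_num

theorem p2_ncV (E : Frm) : nc E.V ≤ 8 := by
  refine le_of_sq_le_sq ?_ (by norm_num)
  have h31 : dr E.e3 E.e1 = 0 := by rw [dr_comm]; exact E.h13
  rw [nc_sq, g1_re_V, g1_im_V, nr_sq, nr_sq]
  simp only [dr_add_left, dr_add_right, dr_smul_left, dr_smul_right, E.h11, E.h22, E.h33, E.h13, h31]
  norm_num

theorem p2_sp {k k' : Cd 3} {E E' : Frm} (h : RE P k E)
    (h' : RE P k' E') (hk : ‖k' - k‖ ≤ 1 / (P.b * nr (im k)))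
    (hU : ‖E'.U - E.U‖ ≤ 1 / (P.b * nr (im k))) (hV : ‖E'.V - E.V‖ ≤ 1 / (P.b * nr (im k)))
    {τ : ℂ} (hτ : ‖τ‖ ≤ 5 / 4 * P.rho) :
    ‖sp μ E' k' τ - sp μ E k τ‖ ≤ 2 * (1 / (P.b * nr (im k))) := by
  have hN := p2_nrc h
  have hN' := p2_nrc h'
  obtain ⟨hR, -⟩ := p2_R h
  obtain ⟨hR', -⟩ := p2_R h'
  have hb := P.b_ge
  have hρ := P.rho_pos
  have hρs := P.rho_le_small
  have hρ' : P.rho ≤ 1 / 10 ^ 6 := hρs.trans (by norm_num)
  have hbR : 1 ≤ P.b * nr (im k) := by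
    have h1 : (1 : ℝ) ≤ P.b := P.one_le_b
    have h2 : (1 : ℝ) ≤ nr (im k) := le_trans (by norm_num) hR
    nlinarith
  set R := nr (im k) with hRdef
  set R' := nr (im k') with hRdef'
  set D := 1 / (P.b * R) with hD
  have hDpos : 0 < D := by positivity
  have hD1 : D ≤ 1 := by
    rw [hD, div_le_one (by linarith)]
    exact hbR
  -- R and R'
  have hRR : |R' - R| ≤ 2 := by
    have h1 := abs_nr_sub_le (im k') (im k)
    rw [← im_sub] at h1
    have h2 := nr_im_le (k' - k)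
    have h3 := nc_le (k' - k)
    calc |R' - R| ≤ _ := h1
      _ ≤ _ := h2
      _ ≤ _ := h3
      _ ≤ 2 * 1 := by linarith
      _ = 2 := by norm_num
  have hR2 : R ≤ 100 / 99 * R' := by
    have := (abs_le.1 hRR).1
    have h36 : (10 : ℝ) ^ 36 ≥ 1000 := by norm_num
    linarith
  have hncd : nc (k' - k) ≤ 2 * D := (nc_le _).trans (by linarith)
  have hncU : nc (E'.U - E.U) ≤ 2 * D := (nc_le _).trans (by linarith)
  have hncV : nc (E'.V - E.V) ≤ 2 * D := (nc_le _).trans (by linarith)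
  have hnck : nc k ≤ 2 * R := by
    obtain ⟨-, -, -, c4, -, -, c7⟩ := hN.circle
    refine le_of_sq_le_sq ?_ (by linarith)
    rw [nc_sq]
    have e1 := nr_nonneg (re k)
    have e2 := nr_nonneg (im k)
    nlinarith
  have hα : ‖bil k' E'.U - bil k E.U‖ ≤ 5 * (R * D) := by
    have e : bil k' E'.U - bil k E.U = bil (k' - k) E'.U + bil k (E'.U - E.U) := by
      rw [bil_sub_left, bil_sub_right]; ring
    rw [e]
    refine (norm_add_le _ _).trans ?_
    have e1 := norm_bil_le (k' - k) E'.U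
    have e2 := norm_bil_le k (E'.U - E.U)
    have e3 : nc (k' - k) * nc E'.U ≤ 2 * D * (3 / 2) :=
      mul_le_mul hncd (p2_ncU _) (nc_nonneg _) (by positivity)
    have e4 : nc k * nc (E'.U - E.U) ≤ 2 * R * (2 * D) :=
      mul_le_mul hnck hncU (nc_nonneg _) (by linarith)
    have e5 : D * 3 ≤ D * R := mul_le_mul_of_nonneg_left (le_trans (by norm_num) hR) hDpos.le
    linarith
  have hβ : ‖bil k' E'.V - bil k E.V‖ ≤ 5 * (R * D) := by
    have e : bil k' E'.V - bil k E.V = bil (k' - k) E'.V + bil k (E'.V - E.V) := by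
      rw [bil_sub_left, bil_sub_right]; ring
    rw [e]
    refine (norm_add_le _ _).trans ?_
    have e1 := norm_bil_le (k' - k) E'.V
    have e2 := norm_bil_le k (E'.V - E.V)
    have e3 : nc (k' - k) * nc E'.V ≤ 2 * D * 8 :=
      mul_le_mul hncd (p2_ncV _) (nc_nonneg _) (by positivity)
    have e4 : nc k * nc (E'.V - E.V) ≤ 2 * R * (2 * D) :=
      mul_le_mul hnck hncV (nc_nonneg _) (by linarith)
    have e5 : D * 16 ≤ D * R := mul_le_mul_of_nonneg_left (le_trans (by norm_num) hR) hDpos.le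
    linarith
  -- denominators
  have hd := hN.den (p2_small h hτ)
  have hd' := hN'.den (p2_small h' hτ)
  have hRpos : 0 < R := lt_of_lt_of_le (by norm_num) hR
  have hRpos' : 0 < R' := lt_of_lt_of_le (by norm_num) hR'
  have hd0 : bil k E.V - 2 * τ ≠ 0 := by
    intro h0
    rw [h0, norm_zero] at hd
    linarith
  have hd0' : bil k' E'.V - 2 * τ ≠ 0 := by
    intro h0
    rw [h0, norm_zero] at hd'
    linarith
  have hz : zet μ E k τ * (bil k E.V - 2 * τ) = -(τ * bil k E.U) := by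
    unfold zet
    rw [h.q0]
    field_simp
    ring
  have hz' : zet μ E' k' τ * (bil k' E'.V - 2 * τ) = -(τ * bil k' E'.U) := by
    unfold zet
    rw [h'.q0]
    field_simp
    ring
  have hzl := h.zet_le (τ := τ) (by linarith)
  have hzl' := h'.zet_le (τ := τ) (by linarith)
  have hzz : ‖zet μ E' k' τ - zet μ E k τ‖ ≤ 17 * (P.rho * D) := by
    have e : (zet μ E' k' τ - zet μ E k τ) * (bil k' E'.V - 2 * τ) =
        -(τ * (bil k' E'.U - bil k E.U)) - zet μ E k τ * (bil k' E'.V - bil k E.V) := by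
      linear_combination hz' - hz
    have e1 : ‖zet μ E' k' τ - zet μ E k τ‖ * ‖bil k' E'.V - 2 * τ‖ ≤
        (5 / 4 * P.rho) * (5 * (R * D)) + (6 / 5 * (5 / 4 * P.rho)) * (5 * (R * D)) := by
      rw [← norm_mul, e]
      refine (norm_sub_le _ _).trans ?_
      rw [norm_neg, norm_mul, norm_mul]
      gcongr
      exact hzl.trans (by gcongr)
    have e2 : ‖zet μ E' k' τ - zet μ E k τ‖ * (87 / 100 * R) ≤
        ‖zet μ E' k' τ - zet μ E k τ‖ * ‖bil k' E'.V - 2 * τ‖ := by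
      apply mul_le_mul_of_nonneg_left _ (norm_nonneg _)
      linarith
    have e3 : (‖zet μ E' k' τ - zet μ E k τ‖ * (87 / 100)) * R ≤ (14 * (P.rho * D)) * R := by
      nlinarith [mul_pos (mul_pos hρ hDpos) hRpos]
    have e4 := le_of_mul_le_mul_right e3 hRpos
    have e5 := mul_pos hρ hDpos
    linarith
  have e : sp μ E' k' τ - sp μ E k τ = (k' - k) + τ • (E'.U - E.U) +
      zet μ E' k' τ • (E'.V - E.V) + (zet μ E' k' τ - zet μ E k τ) • E.V := by
    unfold sp Frm.pt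
    rw [smul_sub, smul_sub, sub_smul]
    abel
  rw [e]
  refine (norm_add_le _ _).trans ?_
  refine (add_le_add (norm_add_le _ _) le_rfl).trans ?_
  refine (add_le_add (add_le_add (norm_add_le _ _) le_rfl) le_rfl).trans ?_
  rw [norm_smul, norm_smul, norm_smul]
  have f1 : ‖τ‖ * ‖E'.U - E.U‖ ≤ 5 / 4 * P.rho * D := by gcongr
  have f2 : ‖zet μ E' k' τ‖ * ‖E'.V - E.V‖ ≤ (6 / 5 * (5 / 4 * P.rho)) * D := by
    gcongr
    exact hzl'.trans (by gcongr)
  have f3 : ‖zet μ E' k' τ - zet μ E k τ‖ * ‖E.V‖ ≤ 17 * (P.rho * D) * 8 := by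
    gcongr
    exact (norm_le_nc _).trans (p2_ncV _)
  have f4 : P.rho * D ≤ 1 / 10 ^ 6 * D := by gcongr
  linarith

/-- Nearby patches. Proof: let `x` be a 10-good vertical line of `(k,E)` (`exists_lineV_of`); `CA` holds on it by `chi_iff`. For `|t| ≤ 3ρ/4`, `τ = x + it`:
`‖sp μ E' k' τ - sp μ E k τ‖ ≤ 100/(b R)`: `|k'·U' - k·U| ≤ 10/b`, `|k'·V' - k·V| ≤ 20/b`, so `|zet' τ - zet τ| ≤ 100 ρ/(b R)`.
This is `≤ eta/1000` (`b ≥ 10^30 K`, `K ≥ 10^6`), so the points of the second patch are 9-good (`q_stable`) and have the same class (`CA_near`). -/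
theorem chi_near (hF : Fsh μ M F) (D : Decomp F A B) {k k' : Cd 3} {E E' : Frm} (h : RE P k E)
    (h' : RE P k' E') (hS : ObSum P k) (hk : ‖k' - k‖ ≤ 1 / (P.b * nr (im k)))
    (hU : ‖E'.U - E.U‖ ≤ 1 / (P.b * nr (im k))) (hV : ‖E'.V - E.V‖ ≤ 1 / (P.b * nr (im k)))
    (hA : Chi P F A k E) : Chi P F A k' E' := by
  have hρ := P.rho_pos
  have h0 : |(0 : ℝ)| ≤ 3 / 4 * P.rho := by rw [abs_zero]; positivity
  obtain ⟨x, hx, hl⟩ := exists_lineV_of h hS (a := -(3 / 4 * P.rho)) (c := 3 / 4 * P.rho)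
      le_rfl le_rfl (by linarith)
  have hx' : |x| ≤ 3 / 4 * P.rho := abs_le.2 hx
  have hAx := (chi_iff hF D h hS hx' (hl.mono (by norm_num)) h0).1 hA
  obtain ⟨hR, -⟩ := p2_R h
  obtain ⟨-, hR'⟩ := p2_R h'
  have hRpos : 0 < nr (im k) := lt_of_lt_of_le (by norm_num) hR
  -- closeness against eta
  have key : ∀ t : ℝ, |t| ≤ 3 / 4 * P.rho →
      ‖sp μ E' k' ((x : ℂ) + (t : ℂ) * Complex.I) - sp μ E k ((x : ℂ) + (t : ℂ) * Complex.I)‖ ≤
        eta P (sp μ E k ((x : ℂ) + (t : ℂ) * Complex.I)) / 100 := by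
    intro t ht
    have hτ : ‖(x : ℂ) + (t : ℂ) * Complex.I‖ ≤ 5 / 4 * P.rho :=
      square_le (by simpa using hx') (by simpa using ht)
    refine (p2_sp h h' hk hU hV hτ).trans ?_
    have hz := h.zet_le (τ := (x : ℂ) + (t : ℂ) * Complex.I) (by linarith)
    have hN := h.nrc (τ := (x : ℂ) + (t : ℂ) * Complex.I)
      (z := zet μ E k ((x : ℂ) + (t : ℂ) * Complex.I)) (by linarith) (by linarith)
    obtain ⟨-, -, -, -, -, c6, c7⟩ := hN.circle
    have hsp : E.pt k ((x : ℂ) + (t : ℂ) * Complex.I) (zet μ E k ((x : ℂ) + (t : ℂ) * Complex.I)) =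
      sp μ E k ((x : ℂ) + (t : ℂ) * Complex.I) := rfl
    rw [hsp] at c6 c7
    set S := nr (im (sp μ E k ((x : ℂ) + (t : ℂ) * Complex.I))) with hSdef
    have hSpos : 0 < S := by linarith
    unfold eta
    rw [← hSdef]
    have hb := P.b_ge
    have hK := P.K_ge'
    have hbpos := P.b_pos
    rw [div_div, mul_one_div, div_le_div_iff₀ (by positivity) (by positivity)]
    have g1 : (10 : ℝ) ^ 6 * (10 ^ 36 * nr (im k)) ≤ P.K * (P.b * nr (im k)) := by gcongr
    have g2 : 2 * (1000 * S * 100) ≤ (10 : ℝ) ^ 6 * (10 ^ 36 * nr (im k)) := by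
      norm_num
      linarith
    linarith
  have hgood' : ∀ t : ℝ, |t| ≤ 3 / 4 * P.rho →
      Good P 4 (sp μ E' k' ((x : ℂ) + (t : ℂ) * Complex.I)) := by
    intro t ht
    have hτ : ‖(x : ℂ) + (t : ℂ) * Complex.I‖ ≤ 5 / 4 * P.rho :=
      square_le (by simpa using hx') (by simpa using ht)
    have hg := hl t ht
    have hd' := (p2_nrc h').den (p2_small h' hτ)
    have hRpos' : 0 < nr (im k') := lt_of_lt_of_le (P.pow_pos _) hR'
    have hd0' : bil k' E'.V - 2 * ((x : ℂ) + (t : ℂ) * Complex.I) ≠ 0 := by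
      intro h0
      rw [h0, norm_zero] at hd'
      linarith
    have heta : 0 < eta P (sp μ E k ((x : ℂ) + (t : ℂ) * Complex.I)) := by
      unfold eta
      have := P.K_pos
      have h2 : 0 < nr (im (sp μ E k ((x : ℂ) + (t : ℂ) * Complex.I))) :=
        lt_of_lt_of_le (P.pow_pos _) hg.big
      positivity
    refine ⟨q_sp hd0', ?_, ?_⟩
    · have hz := h'.zet_le (τ := (x : ℂ) + (t : ℂ) * Complex.I) (by linarith)
      have hN := h'.nrc (τ := (x : ℂ) + (t : ℂ) * Complex.I)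
        (z := zet μ E' k' ((x : ℂ) + (t : ℂ) * Complex.I)) (by linarith) (by linarith)
      obtain ⟨-, -, -, -, -, c6, c7⟩ := hN.circle
      have hsp : E'.pt k' ((x : ℂ) + (t : ℂ) * Complex.I)
        (zet μ E' k' ((x : ℂ) + (t : ℂ) * Complex.I)) =
        sp μ E' k' ((x : ℂ) + (t : ℂ) * Complex.I) := rfl
      rw [hsp] at c6
      have g1 : 10 ^ 36 * P.b ^ 9000 ≤ P.b ^ 9999 := P.mul_pow_le le_rfl (by norm_num)
      have g2 := P.pow_pos 9000
      have g3 : 2 * P.b ^ 9000 ≤ 10 ^ 36 * P.b ^ 9000 := by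
        apply mul_le_mul_of_nonneg_right _ g2.le
        norm_num
      linarith
    · intro m hm
      have h3 := q_stable (k' := sp μ E' k' ((x : ℂ) + (t : ℂ) * Complex.I)) hg.big
        ((key t ht).trans (by linarith)) m (κ := 10) (by norm_num) (by norm_num) (hg.far m hm)
      have := P.K_pos
      linarith
  refine ⟨x, hx', hgood', ?_⟩
  have h1 := key 0 h0
  have h2 := (hl 0 h0).mono (κ' := 3) (by norm_num)
  have h3 := (hgood' 0 h0).mono (κ' := 3) (by norm_num)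
  simp only [Complex.ofReal_zero, zero_mul, add_zero] at h1 h2 h3 hAx
  exact CA_near hF D h2 h3 h1 hAx

end H9F
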