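import Pool.Agent.Lib.H9F.G4

/-!
# H9F Q1: resonant pairs of a slice
-/

open scoped BigOperators Topology
open Set Filter

noncomputable section

namespace H9F

open Fermi

variable {M : ℝ} {μ : ℂ} {P : Big M μ}

/-- the symbols of two sites at a point of a slice -/
theorem q1_pair (μ : ℂ) (E : Frm) (p : Cd 3) (τ z : ℂ) (m m' : Zd 3) :
    q μ (E.pt p τ z) m' = q μ (E.pt p τ z) m + gs (E.pt (p + zc m) τ z) (m' - m) := by
  have h := q_gs' μ (E.pt p τ z) m (m' - m)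
  rw [add_sub_cancel] at h
  rw [h, pt_add_zc]

/-- change of `gs` along a slice -/
theorem q1_gs_le (E : Frm) (k : Cd 3) {τ z : ℂ} {ρ : ℝ} (hτ : ‖τ‖ ≤ ρ) (hz : ‖z‖ ≤ ρ) (s : Zd 3) :
    ‖gs k s‖ ≤ ‖gs (E.pt k τ z) s‖ + 12 * ρ * nz s := by
  have e : gs k s = gs (E.pt k τ z) s - (2 * τ * bil (zc s) E.U + 2 * z * bil (zc s) E.V) := by
    rw [gs_pt]; ring
  rw [e]
  refine (norm_sub_le _ _).trans (add_le_add le_rfl ?_)
  refine (norm_add_le _ _).trans ?_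
  have h0 := nz_nonneg s
  have hρ : 0 ≤ ρ := (norm_nonneg _).trans hτ
  have h1 : ‖2 * τ * bil (zc s) E.U‖ ≤ 2 * ρ * nz s := by
    rw [norm_mul, norm_mul, Complex.norm_ofNat]
    have := E.norm_zc_U s
    gcongr
  have h2 : ‖2 * z * bil (zc s) E.V‖ ≤ 2 * ρ * (5 * nz s) := by
    rw [norm_mul, norm_mul, Complex.norm_ofNat]
    have := E.norm_zc_V s
    gcongr
  linarith

theorem q1_gs_of_le {E : Frm} {p : Cd 3} {τ z : ℂ} {m m' : Zd 3} {W W' : ℝ}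
    (h1 : ‖q μ (E.pt p τ z) m‖ ≤ W) (h2 : ‖q μ (E.pt p τ z) m'‖ ≤ W') :
    ‖gs (E.pt (p + zc m) τ z) (m' - m)‖ ≤ W + W' := by
  have h := q1_pair μ E p τ z m m'
  have e : gs (E.pt (p + zc m) τ z) (m' - m) = q μ (E.pt p τ z) m' - q μ (E.pt p τ z) m := by
    rw [h]; ring
  rw [e]
  refine (norm_sub_le _ _).trans ?_
  linarith

/-- `q_{m'} = q_m + gs (p + m) (m' - m)`; at `xm` both symbols are `≤ b + 3ρ|s|`, so `|gs| ≤ 2b + 6ρ|s|` there, and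
`gs` changes by at most `2ρ|s| + 10ρ|s|` (`gs_pt`). -/
theorem InI.gs_le {p : Cd 3} {E : Frm} {i : Zd 3 × Zd 3} (hi : InI P E p i) :
    ‖gs (p + zc i.1) (i.2 - i.1)‖ ≤ 2 * P.b + 40 * P.rho * nz (i.2 - i.1) := by
  have hx := hi.hx
  have hm := xm_mem P E p i
  have h1 : ‖q μ (E.pt p (xm P E p i).1 (xm P E p i).2) i.1‖ ≤
      P.b + 3 * P.rho * nz (i.2 - i.1) := (le_max_left _ _).trans hx
  have h2 : ‖q μ (E.pt p (xm P E p i).1 (xm P E p i).2) i.2‖ ≤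
      P.b + 3 * P.rho * nz (i.2 - i.1) := (le_max_right _ _).trans hx
  have h3 := q1_gs_of_le h1 h2
  have h4 := q1_gs_le E (p + zc i.1) hm.1 hm.2 (i.2 - i.1)
  have h5 := mul_nonneg P.rho_pos.le (nz_nonneg (i.2 - i.1))
  nlinarith

theorem q1_finite (μ : ℂ) (p : Cd 3) (C : ℝ) : {n : Zd 3 | ‖q μ p n‖ ≤ C}.Finite := by
  obtain ⟨N, hN⟩ := exists_nat_ge (nr (re p) + Real.sqrt (C + nr (im p) ^ 2 + ‖μ‖))
  refine (Set.finite_Icc (fun _ => -(N : ℤ) : Zd 3) (fun _ => (N : ℤ))).subset ?_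
  intro n hn
  have hn' : ‖q μ p n‖ ≤ C := hn
  have h1 : (q μ p n).re = nr (re p + rz n) ^ 2 - nr (im p) ^ 2 - μ.re := by
    rw [q_shift, q0_re, re_add_zc, im_add_zc]
  have h2 : nr (re p + rz n) ^ 2 ≤ C + nr (im p) ^ 2 + ‖μ‖ := by
    have h3 := (Complex.abs_re_le_norm (q μ p n)).trans hn'
    have h4 := Complex.abs_re_le_norm μ
    have h5 := (abs_le.1 h3).2
    have h6 := (abs_le.1 h4).2
    rw [h1] at h5
    linarith
  have h3 : nr (re p + rz n) ≤ Real.sqrt (C + nr (im p) ^ 2 + ‖μ‖) := Real.le_sqrt_of_sq_le h2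
  have h4 : nz n ≤ N := by
    have h5 : rz n = (re p + rz n) - re p := by abel
    have h6 : nz n ≤ nr (re p + rz n) + nr (re p) := by
      have := nr_sub_le (re p + rz n) (re p)
      rwa [← h5] at this
    linarith
  have h5 : ∀ j, |n j| ≤ (N : ℤ) := by
    intro j
    have := (abs_le_nz n j).trans h4
    exact_mod_cast this
  constructor
  · intro j; exact (abs_le.1 (h5 j)).1
  · intro j; exact (abs_le.1 (h5 j)).2

/-- finitely many resonant sites (`|q_n(p)| → ∞`: `|n| ≤ 5R`) -/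
theorem SL.finite_lam {p : Cd 3} {E : Frm} (_h : SL P p E) :
    {n : Zd 3 | ‖q μ p n‖ ≤ 100 * nr (im p) * P.rho}.Finite :=
  q1_finite μ p _

theorem SL.finite_InI {p : Cd 3} {E : Frm} (h : SL P p E) :
    {i : Zd 3 × Zd 3 | InI P E p i}.Finite :=
  (h.finite_lam.prod h.finite_lam).subset fun _ hi => ⟨hi.h1, hi.h2⟩

theorem q1_R {p : Cd 3} {E : Frm} (h : SL P p E) : P.b ^ 9999 ≤ nr (im p) :=
  (h.yy.lo' (by norm_num)).1

theorem q1_R' {p : Cd 3} {E : Frm} (h : SL P p E) : 10 ^ 36 ≤ nr (im p) :=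
  (P.b_ge.trans (le_self_pow₀ P.one_le_b (by norm_num))).trans (q1_R h)

/-- Where a pair is most resonant. Proof: `(τ,z) ∈ PP`, so `ht(xm) ≤ W` (`xm_min`). `NrC.tr` at `k = pt (p+m) τ z`
(`SL.nrc`), `s = m' - m`, displacement `(xm - (τ,z))` of size `≤ 2ρ`: `|Δq_0| ≤ 2W`, `|Δgs| ≤ 4W`; the relevance condition is
`|gs k s| ≤ 2W ≤ R/100`. So `|s||Δ| ≤ 6W|s|/R + 20 W` and `|s| ≤ 2.1 R` (`NrC.nz_le`). -/
theorem xm_near {p : Cd 3} {E : Frm} (h : SL P p E) {τ z : ℂ} (hτ : ‖τ‖ ≤ P.rho) (hz : ‖z‖ ≤ P.rho)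
    {m m' : Zd 3} (hmm : m ≠ m') (hm : ‖q μ p m‖ ≤ 100 * nr (im p) * P.rho) {W : ℝ}
    (hW : W ≤ nr (im p) / 200) (h1 : ‖q μ (E.pt p τ z) m‖ ≤ W) (h2 : ‖q μ (E.pt p τ z) m'‖ ≤ W) :
    nz (m' - m) * ‖(xm P E p (m, m')).1 - τ‖ ≤ 33 * W ∧
    nz (m' - m) * ‖(xm P E p (m, m')).2 - z‖ ≤ 33 * W := by
  have hs : m' - m ≠ 0 := sub_ne_zero.2 (Ne.symm hmm)
  have hs1 := one_le_nz hs
  have hRbig := q1_R' h
  have hρ := P.rho_pos
  have hρ1 := P.rho_le_one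
  set R := nr (im p) with hR
  set x := xm P E p (m, m') with hx
  set s := m' - m with hsdef
  have hR0 : 0 < R := by linarith [show (0 : ℝ) < 10 ^ 36 by norm_num]
  have hmem : x ∈ PP P := xm_mem P E p (m, m')
  have hmin : ht μ E p (m, m') x ≤ W := by
    refine (xm_min P E p (m, m') (y := (τ, z)) ⟨hτ, hz⟩).trans ?_
    exact max_le h1 h2
  have hx1 : ‖q μ (E.pt p x.1 x.2) m‖ ≤ W := (le_max_left _ _).trans hmin
  have hx2 : ‖q μ (E.pt p x.1 x.2) m'‖ ≤ W := (le_max_right _ _).trans hmin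
  have hk : NrC μ E R (E.pt (p + zc m) τ z) :=
    (h.nrc hm (by linarith) (by linarith)).1
  have hg : ‖gs (E.pt (p + zc m) τ z) s‖ ≤ 2 * W := by
    have := q1_gs_of_le h1 h2
    linarith
  have hgx : ‖gs (E.pt (p + zc m) x.1 x.2) s‖ ≤ 2 * W := by
    have := q1_gs_of_le hx1 hx2
    linarith
  have hg' : ‖gs (E.pt (p + zc m) τ z) s‖ ≤ R * nz s / 100 := by
    have : R ≤ R * nz s := le_mul_of_one_le_right hR0.le hs1
    linarith
  have hd1 : ‖x.1 - τ‖ ≤ R / 1000 := by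
    have := norm_sub_le x.1 τ
    have h3 : ‖x.1‖ ≤ P.rho := hmem.1
    norm_num at hRbig
    linarith
  have hd2 : ‖x.2 - z‖ ≤ R / 1000 := by
    have := norm_sub_le x.2 z
    have h3 : ‖x.2‖ ≤ P.rho := hmem.2
    norm_num at hRbig
    linarith
  have htr := hk.tr hg' hd1 hd2
  have hpt : E.pt (E.pt (p + zc m) τ z) (x.1 - τ) (x.2 - z) = E.pt (p + zc m) x.1 x.2 := by
    rw [pt_pt, add_sub_cancel, add_sub_cancel]
  rw [hpt] at htr
  have hq : ‖q μ (E.pt (p + zc m) x.1 x.2) 0 - q μ (E.pt (p + zc m) τ z) 0‖ ≤ 2 * W := by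
    rw [← q_pt, ← q_pt]
    refine (norm_sub_le _ _).trans ?_
    linarith
  have hgg : ‖gs (E.pt (p + zc m) x.1 x.2) s - gs (E.pt (p + zc m) τ z) s‖ ≤ 4 * W := by
    refine (norm_sub_le _ _).trans ?_
    linarith
  have hle : nz s ≤ 21 / 10 * R := hk.nz_le hg'
  have hW0 : 0 ≤ W := (norm_nonneg _).trans h1
  have hmain : 3 * nz s * ‖q μ (E.pt (p + zc m) x.1 x.2) 0 - q μ (E.pt (p + zc m) τ z) 0‖ +
      5 * R * ‖gs (E.pt (p + zc m) x.1 x.2) s - gs (E.pt (p + zc m) τ z) s‖ ≤ R * (33 * W) := by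
    have e1 : 3 * nz s * ‖q μ (E.pt (p + zc m) x.1 x.2) 0 - q μ (E.pt (p + zc m) τ z) 0‖ ≤
        3 * (21 / 10 * R) * (2 * W) := by gcongr
    have e2 : 5 * R * ‖gs (E.pt (p + zc m) x.1 x.2) s - gs (E.pt (p + zc m) τ z) s‖ ≤
        5 * R * (4 * W) := by gcongr
    nlinarith [mul_nonneg hR0.le hW0]
  constructor
  · have h5 := htr.1.trans hmain
    rw [mul_assoc] at h5
    exact le_of_mul_le_mul_left h5 hR0
  · have h5 := htr.2.trans hmain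
    rw [mul_assoc] at h5
    exact le_of_mul_le_mul_left h5 hR0

/-- No short differences of resonant sites. Proof: `|gs (p+m) s| ≤ b + 12ρ|s|`; if `|s| ≤ b^120` then `|(p+m)·s| ≥ b^500`
(`SL.nf`) and `|gs| ≥ 2 b^500 - b^240`. -/
theorem SL.long {p : Cd 3} {E : Frm} (h : SL P p E) {τ z : ℂ} (hτ : ‖τ‖ ≤ P.rho) (hz : ‖z‖ ≤ P.rho)
    {m m' : Zd 3} (hmm : m ≠ m') (hm : ‖q μ p m‖ ≤ 100 * nr (im p) * P.rho)
    (h1 : ‖q μ (E.pt p τ z) m‖ ≤ P.b / 2) (h2 : ‖q μ (E.pt p τ z) m'‖ ≤ P.b / 2) :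
    P.b ^ 120 < nz (m' - m) := by
  by_contra hcon
  push Not at hcon
  have hs : m' - m ≠ 0 := sub_ne_zero.2 (Ne.symm hmm)
  have hnf := h.nf m hm (m' - m) hs hcon
  have hg := q1_gs_of_le h1 h2
  have hg2 := q1_gs_le E (p + zc m) hτ hz (m' - m)
  have e : 2 * bil (p + zc m) (zc (m' - m)) =
      gs (p + zc m) (m' - m) - bil (zc (m' - m)) (zc (m' - m)) := by
    unfold gs; ring
  have h3 : 2 * ‖bil (p + zc m) (zc (m' - m))‖ ≤ ‖gs (p + zc m) (m' - m)‖ + nz (m' - m) ^ 2 := by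
    have h4 : ‖2 * bil (p + zc m) (zc (m' - m))‖ ≤
        ‖gs (p + zc m) (m' - m)‖ + ‖bil (zc (m' - m)) (zc (m' - m))‖ := by
      rw [e]; exact norm_sub_le _ _
    rw [norm_mul, Complex.norm_ofNat] at h4
    have h5 := norm_bil_le (zc (m' - m)) (zc (m' - m))
    rw [nc_zc] at h5
    nlinarith
  have h6 : nz (m' - m) ^ 2 ≤ P.b ^ 240 := by
    calc nz (m' - m) ^ 2 ≤ (P.b ^ 120) ^ 2 := pow_le_pow_left₀ (nz_nonneg _) hcon 2
      _ = P.b ^ 240 := by rw [← pow_mul]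
  have h7 : 12 * P.rho * nz (m' - m) ≤ 12 * P.b ^ 20 := by
    have h8 : P.rho * nz (m' - m) ≤ P.rho * P.b ^ 120 :=
      mul_le_mul_of_nonneg_left hcon P.rho_pos.le
    have h9 := P.rho_eq 20
    norm_num at h9
    rw [h9] at h8
    linarith
  have e1 : P.b ^ 240 ≤ P.b ^ 500 / 4 := by
    have := P.mul_pow_le (c := 4) (i := 240) (j := 500) (by norm_num) (by norm_num)
    linarith
  have e2 : 12 * P.b ^ 20 ≤ P.b ^ 500 / 4 := by
    have := P.mul_pow_le (c := 48) (i := 20) (j := 500) (by norm_num) (by norm_num)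
    linarith
  have e3 : P.b ≤ P.b ^ 500 / 4 := by
    have := P.mul_pow_le (c := 4) (i := 1) (j := 500) (by norm_num) (by norm_num)
    rw [pow_one] at this
    linarith
  have e4 := P.pow_pos 500
  linarith

/-- differences of sites resonant somewhere are `≤ 2.1 R` -/
theorem SL.short {p : Cd 3} {E : Frm} (h : SL P p E) {τ z : ℂ} (hτ : ‖τ‖ ≤ P.rho) (hz : ‖z‖ ≤ P.rho)
    {m m' : Zd 3} (hm : ‖q μ p m‖ ≤ 100 * nr (im p) * P.rho)
    (h1 : ‖q μ (E.pt p τ z) m‖ ≤ nr (im p) / 200) (h2 : ‖q μ (E.pt p τ z) m'‖ ≤ nr (im p) / 200) :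
    nz (m' - m) ≤ 21 / 10 * nr (im p) := by
  have hR := q1_R' h
  have hR0 : 0 < nr (im p) := lt_of_lt_of_le (by norm_num) hR
  by_cases hs : m' - m = 0
  · rw [hs, nz_zero]
    positivity
  · have hs1 := one_le_nz hs
    have hρ := P.rho_pos
    have hk : NrC μ E (nr (im p)) (E.pt (p + zc m) τ z) :=
      (h.nrc hm (by linarith) (by linarith)).1
    have hg := q1_gs_of_le h1 h2
    refine hk.nz_le (hg.trans ?_)
    have : nr (im p) ≤ nr (im p) * nz (m' - m) := le_mul_of_one_le_right hR0.le hs1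
    linarith

end H9F
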