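import Pool.Agent.Lib.H9F.Q1

/-!
# H9F Q2: obstacles near a quiet point, one at a time

Set-up (structure `QP`): slice `SL P p E`, a quiet point `(τ', z')` with `‖τ'‖, ‖z'‖ ≤ ρ/2`, a site `n` with
`|q_n| ≤ c0` there. `k = p + n`. An obstacle of the sheet `n` near `τ'` is a pair `(s, τ₁)`: `s ≠ 0`, `‖τ₁ - τ'‖ ≤ ρ/8`,
`|q_s(sp μ E k τ₁)| < 4K`.
-/

open scoped BigOperators Topology
open Set Filter

noncomputable section

namespace H9F

open Fermi

variable {M : ℝ} {μ : ℂ} {P : Big M μ}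

/-- a quiet point and a nearly resonant site -/
structure QP (P : Big M μ) (E : Frm) (p : Cd 3) (τ' z' : ℂ) (n : Zd 3) : Prop where
  sl : SL P p E
  hτ : ‖τ'‖ ≤ P.rho / 2
  hz : ‖z'‖ ≤ P.rho / 2
  qu : Quiet P E p (τ', z')
  hn : ‖q μ (E.pt p τ' z') n‖ ≤ 4 * M + 8

/-- obstacles of the sheet `n` -/
structure OQ (P : Big M μ) (E : Frm) (p : Cd 3) (τ' : ℂ) (n s : Zd 3) (τ₁ : ℂ) : Prop where
  ne : s ≠ 0
  near : ‖τ₁ - τ'‖ ≤ P.rho / 8
  small : ‖q μ (sp μ E (p + zc n) τ₁) s‖ < 4 * P.K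

variable {E : Frm} {p : Cd 3} {τ' z' : ℂ} {n : Zd 3}

theorem q2_Rrho {p : Cd 3} {E : Frm} (h : SL P p E) : P.b ^ 9899 ≤ nr (im p) * P.rho := by
  have h1 := q1_R h
  have h2 := P.rho_eq 9899
  norm_num at h2
  calc P.b ^ 9899 = P.rho * P.b ^ 9999 := h2.symm
    _ ≤ P.rho * nr (im p) := mul_le_mul_of_nonneg_left h1 P.rho_pos.le
    _ = _ := mul_comm _ _

theorem q2_c0 (P : Big M μ) : 125000 * (4 * M + 8) ≤ P.K := P.c0_le

theorem q2_R {p : Cd 3} {E : Frm} (h : SL P p E) : P.b ^ 2 ≤ nr (im p) :=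
  (P.pow_le (by norm_num)).trans (q1_R h)

/-- `n` is a resonant site (`SL.lam`) -/
theorem QP.lam (h : QP P E p τ' z' n) : ‖q μ p n‖ ≤ 100 * nr (im p) * P.rho := by
  have hρ := P.rho_pos
  refine h.sl.lam (τ := τ') (z := z') (by linarith [h.hτ]) (by linarith [h.hz]) ?_
  have h1 := h.hn
  have h2 := q2_Rrho h.sl
  have h3 : P.b ≤ P.b ^ 9899 := le_self_pow₀ P.one_le_b (by norm_num)
  have h4 := q2_c0 P
  have h5 := P.K_le
  have h6 := P.K_pos
  linarith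

/-- The sheet near the point: for `‖τ₁ - τ'‖ ≤ ρ/8`: `|zet τ₁ - z'| ≤ 6/5 ‖τ₁ - τ'‖ + (4M+8)/R` and `|zet τ₁| ≤ 7/10 ρ`.
(`zet_near`, `zet_lip`, base `k = p + n`, `SL.nrc` with `τ = z = 0`.) -/
theorem QP.zet (h : QP P E p τ' z' n) {τ₁ : ℂ} (h1 : ‖τ₁ - τ'‖ ≤ P.rho / 8) :
    ‖zet μ E (p + zc n) τ₁ - z'‖ ≤ 6 / 5 * ‖τ₁ - τ'‖ + (4 * M + 8) / nr (im p) ∧
    ‖zet μ E (p + zc n) τ₁‖ ≤ 7 / 10 * P.rho ∧ ‖τ₁‖ ≤ 5 / 8 * P.rho := by
  have hρ := P.rho_pos
  have hρ1 := P.rho_le_one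
  have hM := P.M_nonneg
  have hR := q1_R' h.sl
  norm_num at hR
  have hR0 : 0 < nr (im p) := by linarith
  have hk : NrC μ E (nr (im p)) (p + zc n) := by
    have := (h.sl.nrc h.lam (τ := 0) (z := 0) (by simp; linarith) (by simp; linarith)).1
    rwa [pt_zero] at this
  have hτ := h.hτ
  have hz := h.hz
  have hcR : (4 * M + 8) / nr (im p) ≤ P.rho / 20 := by
    rw [div_le_iff₀ hR0]
    have h2 := q2_Rrho h.sl
    have h3 : P.b ≤ P.b ^ 9899 := le_self_pow₀ P.one_le_b (by norm_num)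
    have h4 := q2_c0 P
    have h5 := P.K_le
    have h6 := P.K_pos
    nlinarith
  have hcR0 : 0 ≤ (4 * M + 8) / nr (im p) := by positivity
  have hnear : ‖z' - _root_.H9F.zet μ E (p + zc n) τ'‖ ≤ (4 * M + 8) / nr (im p) := by
    have h2 := hk.zet_near (τ := τ') (z := z') (by linarith)
    rw [← q_pt] at h2
    refine h2.trans ?_
    have h3 := h.hn
    gcongr
    have := norm_nonneg (q μ (E.pt p τ' z') n)
    linarith
  have hlip := hk.zet_lip (τ := τ') (τ' := τ₁) (by linarith)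
    (by have := norm_sub_norm_le τ₁ τ'; linarith) (by
      have := norm_sub_norm_le (_root_.H9F.zet μ E (p + zc n) τ') z'
      rw [norm_sub_rev] at this
      linarith)
  have hτ1 : ‖τ₁‖ ≤ 5 / 8 * P.rho := by
    have := norm_sub_norm_le τ₁ τ'
    linarith
  have hA : ‖_root_.H9F.zet μ E (p + zc n) τ₁ - z'‖ ≤ 6 / 5 * ‖τ₁ - τ'‖ + (4 * M + 8) / nr (im p) := by
    have e : _root_.H9F.zet μ E (p + zc n) τ₁ - z' =
        -(_root_.H9F.zet μ E (p + zc n) τ' - _root_.H9F.zet μ E (p + zc n) τ₁) -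
          (z' - _root_.H9F.zet μ E (p + zc n) τ') := by ring
    rw [e]
    refine (norm_sub_le _ _).trans ?_
    rw [norm_neg, norm_sub_rev τ₁ τ']
    exact add_le_add hlip hnear
  refine ⟨hA, ?_, hτ1⟩
  have := norm_sub_norm_le (_root_.H9F.zet μ E (p + zc n) τ₁) z'
  linarith

theorem q2_small {R : ℝ} (hR : P.b ^ 2 ≤ R) : (4 * M + 8) ≤ R / 200 ∧ 4 * P.K ≤ R / 200 ∧
    4 * P.K ≤ P.b / 2 := by
  have h4 := q2_c0 P
  have h5 := P.K_le
  have h6 := P.K_pos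
  have h7 := P.b_ge
  have h8 : P.b ≤ P.b ^ 2 := le_self_pow₀ P.one_le_b (by norm_num)
  refine ⟨by linarith, by linarith, by linarith⟩

/-- the sheet point of an obstacle: both symbols of the pair -/
theorem q2_pt (h : QP P E p τ' z' n) {τ₁ : ℂ} (h1 : ‖τ₁ - τ'‖ ≤ P.rho / 8) :
    q μ (E.pt p τ₁ (_root_.H9F.zet μ E (p + zc n) τ₁)) n = 0 ∧
    NrC μ E (nr (im p)) (sp μ E (p + zc n) τ₁) := by
  have hρ := P.rho_pos
  have hρ1 := P.rho_le_one
  have hR := q1_R' h.sl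
  norm_num at hR
  have hk : NrC μ E (nr (im p)) (p + zc n) := by
    have := (h.sl.nrc h.lam (τ := 0) (z := 0) (by simp; linarith) (by simp; linarith)).1
    rwa [pt_zero] at this
  obtain ⟨-, h3, h4⟩ := h.zet h1
  refine ⟨?_, ?_⟩
  · rw [q_pt]
    have hd := hk.den (τ := τ₁) (by linarith)
    refine q_sp (k := p + zc n) (τ := τ₁) ?_
    intro h0
    rw [h0, norm_zero] at hd
    linarith
  · exact (h.sl.nrc h.lam (by linarith) (by linarith)).1

theorem q2_pt_s (μ : ℂ) (E : Frm) (p : Cd 3) (n s : Zd 3) (τ₁ : ℂ) :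
    q μ (E.pt p τ₁ (_root_.H9F.zet μ E (p + zc n) τ₁)) (n + s) = q μ (sp μ E (p + zc n) τ₁) s := by
  rw [q_add, pt_add_zc]
  rfl

/-- two obstacle points of the same site are close (as in `patch_diam`) -/
theorem OQ.diam (h : QP P E p τ' z' n) {s : Zd 3} {τ₁ τ₂ : ℂ} (h1 : OQ P E p τ' n s τ₁)
    (h2 : OQ P E p τ' n s τ₂) : nz s * ‖τ₁ - τ₂‖ ≤ 40 * P.K := by
  have hρ := P.rho_pos
  have hρ1 := P.rho_le_one
  have hR := q1_R' h.sl
  norm_num at hR
  have hR0 : 0 < nr (im p) := by linarith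
  have hs1 := one_le_nz h1.ne
  obtain ⟨a1, b1⟩ := q2_pt h h1.near
  obtain ⟨a2, b2⟩ := q2_pt h h2.near
  obtain ⟨-, c1, d1⟩ := h.zet h1.near
  obtain ⟨-, c2, d2⟩ := h.zet h2.near
  rw [q_pt] at a1 a2
  have hsm := q2_small (P := P) (q2_R h.sl)
  have g1 : ‖gs (sp μ E (p + zc n) τ₁) s‖ ≤ 4 * P.K := by
    have := h1.small
    rw [q_gs] at this
    unfold sp at this ⊢
    rw [a1, zero_add] at this
    exact this.le
  have g2 : ‖gs (sp μ E (p + zc n) τ₂) s‖ ≤ 4 * P.K := by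
    have := h2.small
    rw [q_gs] at this
    unfold sp at this ⊢
    rw [a2, zero_add] at this
    exact this.le
  have hg : ‖gs (sp μ E (p + zc n) τ₁) s‖ ≤ nr (im p) * nz s / 100 := by
    have : nr (im p) ≤ nr (im p) * nz s := le_mul_of_one_le_right hR0.le hs1
    linarith
  have htr := (b1.tr hg (τ := τ₂ - τ₁)
    (z := _root_.H9F.zet μ E (p + zc n) τ₂ - _root_.H9F.zet μ E (p + zc n) τ₁)
    (by have := norm_sub_le τ₂ τ₁; linarith)
    (by have := norm_sub_le (_root_.H9F.zet μ E (p + zc n) τ₂) (_root_.H9F.zet μ E (p + zc n) τ₁); linarith)).1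
  have hpt : E.pt (sp μ E (p + zc n) τ₁) (τ₂ - τ₁)
      (_root_.H9F.zet μ E (p + zc n) τ₂ - _root_.H9F.zet μ E (p + zc n) τ₁) = sp μ E (p + zc n) τ₂ := by
    unfold sp
    rw [pt_pt, add_sub_cancel, add_sub_cancel]
  rw [hpt] at htr
  have e1 : q μ (sp μ E (p + zc n) τ₂) 0 - q μ (sp μ E (p + zc n) τ₁) 0 = 0 := by
    unfold sp
    rw [a1, a2, sub_zero]
  rw [e1, norm_zero, mul_zero, zero_add] at htr
  have e2 : ‖gs (sp μ E (p + zc n) τ₂) s - gs (sp μ E (p + zc n) τ₁) s‖ ≤ 8 * P.K := by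
    refine (norm_sub_le _ _).trans ?_
    linarith
  have e3 : nr (im p) * nz s * ‖τ₂ - τ₁‖ ≤ nr (im p) * (40 * P.K) := by
    refine htr.trans ?_
    nlinarith
  rw [mul_assoc] at e3
  have e4 := le_of_mul_le_mul_left e3 hR0
  rwa [norm_sub_rev] at e4

/-- the site `n + s` is resonant, `s` is long and `≤ 2.1 R`, and the pair `(n, n+s)` is in `I` -/
theorem OQ.pair (h : QP P E p τ' z' n) {s : Zd 3} {τ₁ : ℂ} (h1 : OQ P E p τ' n s τ₁) :
    ‖q μ p (n + s)‖ ≤ 100 * nr (im p) * P.rho ∧ P.b ^ 120 < nz s ∧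
    nz s ≤ 21 / 10 * nr (im p) ∧ InI P E p (n, n + s) := by
  have hρ := P.rho_pos
  have hb := P.b_pos
  obtain ⟨a1, b1⟩ := q2_pt h h1.near
  obtain ⟨-, c1, d1⟩ := h.zet h1.near
  have hsm := q2_small (P := P) (q2_R h.sl)
  have hKpos := P.K_pos
  have hR0 : 0 ≤ nr (im p) := nr_nonneg _
  have hsmall := h1.small
  rw [← q2_pt_s] at hsmall
  have hne : n ≠ n + s := by
    intro h0
    exact h1.ne (by simpa using h0.symm)
  have hA : ‖q μ p (n + s)‖ ≤ 100 * nr (im p) * P.rho := by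
    refine h.sl.lam (τ := τ₁) (z := _root_.H9F.zet μ E (p + zc n) τ₁) (by linarith) (by linarith) ?_
    have h2 := q2_Rrho h.sl
    have h3 : P.b ≤ P.b ^ 9899 := le_self_pow₀ P.one_le_b (by norm_num)
    linarith
  have hB := h.sl.long (τ := τ₁) (z := _root_.H9F.zet μ E (p + zc n) τ₁) (by linarith) (by linarith)
    hne h.lam (by rw [a1, norm_zero]; linarith) (by linarith)
  have hC := h.sl.short (τ := τ₁) (z := _root_.H9F.zet μ E (p + zc n) τ₁) (by linarith) (by linarith)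
    (m' := n + s) h.lam (by rw [a1, norm_zero]; linarith) (by linarith)
  rw [add_sub_cancel_left] at hB hC
  refine ⟨hA, hB, hC, ⟨hne, h.lam, hA, ?_⟩⟩
  refine (xm_min P E p (n, n + s) (y := (τ₁, _root_.H9F.zet μ E (p + zc n) τ₁))
    ⟨by simpa using (by linarith : ‖τ₁‖ ≤ P.rho), by simpa using
      (by linarith : ‖_root_.H9F.zet μ E (p + zc n) τ₁‖ ≤ P.rho)⟩).trans ?_
  have h5 : 0 ≤ 3 * P.rho * nz (n + s - n) := by
    have := nz_nonneg (n + s - n)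
    positivity
  refine max_le ?_ ?_
  · show ‖q μ (E.pt p τ₁ (_root_.H9F.zet μ E (p + zc n) τ₁)) n‖ ≤ _
    rw [a1, norm_zero]
    simp only
    linarith
  · show ‖q μ (E.pt p τ₁ (_root_.H9F.zet μ E (p + zc n) τ₁)) (n + s)‖ ≤ _
    simp only
    linarith

theorem q2_div {R s : ℝ} (hM : 0 ≤ M) (hs0 : 0 < s) (hs : s ≤ 21 / 10 * R) :
    (4 * M + 8) / R ≤ P.K / s := by
  have hR0 : 0 < R := by linarith
  have h4 := q2_c0 P
  have h6 := P.K_pos
  rw [div_le_div_iff₀ hR0 hs0]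
  nlinarith

/-- (R2)(i): an obstacle within `t` is long. Proof: `xm_near` at `(τ₁, zet τ₁)` with `W = 4K`: `|s||xm - (τ₁,zet τ₁)| ≤ 132 K`, so
`xm` is within `δ = 1.2 t + 200K/|s|` of `(τ',z')` (`QP.zet`, `(4M+8)/R ≤ K/|s|`), `1/R² ≤ δ ≤ ρ`. `Quiet` with `X = {(n,n+s)}`:
`b^35 ≤ (|s|δ)²`, so `1.2 t|s| + 200K ≥ b^17.5 ≥ 10^18 b^17`. -/
theorem OQ.long (h : QP P E p τ' z' n) {s : Zd 3} {τ₁ : ℂ} (h1 : OQ P E p τ' n s τ₁) {t : ℝ}
    (ht : 0 < t) (ht' : t ≤ P.rho / 8) (h2 : ‖τ₁ - τ'‖ ≤ t + 50 * P.K / nz s) :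
    P.b ^ 17 ≤ t * nz s := by
  by_contra hcon
  push Not at hcon
  have hρ := P.rho_pos
  have hb := P.b_pos
  have hM := P.M_nonneg
  obtain ⟨a1, b1⟩ := q2_pt h h1.near
  obtain ⟨z1, c1, d1⟩ := h.zet h1.near
  obtain ⟨hA, hB, hC, hI⟩ := h1.pair h
  have hsm := q2_small (P := P) (q2_R h.sl)
  have hKpos := P.K_pos
  have hR := q1_R' h.sl
  norm_num at hR
  have hR0 : 0 < nr (im p) := by linarith
  have hs0 : 0 < nz s := nz_pos h1.ne
  have hsmall := h1.small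
  rw [← q2_pt_s] at hsmall
  have hne : n ≠ n + s := by
    intro h0
    exact h1.ne (by simpa using h0.symm)
  have hxm := xm_near h.sl (τ := τ₁) (z := _root_.H9F.zet μ E (p + zc n) τ₁) (by linarith) (by linarith)
    hne h.lam (W := 4 * P.K) hsm.2.1 (by rw [a1, norm_zero]; linarith) hsmall.le
  rw [add_sub_cancel_left] at hxm
  obtain ⟨x1, x2⟩ := hxm
  have hK := q2_div (P := P) hM hs0 hC
  have y1 : ‖(xm P E p (n, n + s)).1 - τ₁‖ ≤ 132 * P.K / nz s := by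
    rw [le_div_iff₀ hs0]; linarith
  have y2 : ‖(xm P E p (n, n + s)).2 - _root_.H9F.zet μ E (p + zc n) τ₁‖ ≤ 132 * P.K / nz s := by
    rw [le_div_iff₀ hs0]; linarith
  set δ := 12 / 10 * t + 200 * (P.K / nz s) with hδ
  have e132 : 132 * P.K / nz s = 132 * (P.K / nz s) := by ring
  have e50 : 50 * P.K / nz s = 50 * (P.K / nz s) := by ring
  rw [e132] at y1 y2
  rw [e50] at h2
  have hKs : 0 < P.K / nz s := by positivity
  have w1 : ‖(xm P E p (n, n + s)).1 - τ'‖ ≤ δ := by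
    have := norm_sub_le_norm_sub_add_norm_sub (xm P E p (n, n + s)).1 τ₁ τ'
    linarith
  have w2 : ‖(xm P E p (n, n + s)).2 - z'‖ ≤ δ := by
    have := norm_sub_le_norm_sub_add_norm_sub (xm P E p (n, n + s)).2
      (_root_.H9F.zet μ E (p + zc n) τ₁) z'
    linarith
  have v1 : 1 / nr (im p) ^ 2 ≤ δ := by
    have k1 : 1 / nr (im p) ^ 2 ≤ 1 / nr (im p) := by
      apply one_div_le_one_div_of_le hR0
      nlinarith
    have k2 : 1 / nr (im p) ≤ 200 * (P.K / nz s) := by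
      rw [mul_div_assoc', div_le_div_iff₀ hR0 hs0]
      have := P.K_ge'
      nlinarith
    linarith
  have v2 : δ ≤ P.rho := by
    have k1 : 200 * (P.K / nz s) ≤ P.rho / 2 := by
      rw [mul_div_assoc', div_le_iff₀ hs0]
      have k2 := P.rho_eq 20
      norm_num at k2
      have k3 : P.rho * P.b ^ 120 ≤ P.rho * nz s := mul_le_mul_of_nonneg_left hB.le hρ.le
      rw [k2] at k3
      have k4 : P.b ≤ P.b ^ 20 := le_self_pow₀ P.one_le_b (by norm_num)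
      have k5 := P.K_le
      linarith
    linarith
  have hq := h.qu {(n, n + s)} δ v1 v2 (by
    intro i hi
    rw [Finset.mem_singleton] at hi
    subst hi
    exact ⟨hI, w1, w2⟩)
  rw [Finset.sum_singleton] at hq
  simp only [add_sub_cancel_left] at hq
  rw [div_le_div_iff₀ (by positivity) (by positivity), one_mul] at hq
  have u1 : δ * nz s ≤ 2 * P.b ^ 17 := by
    have k1 : δ * nz s = 12 / 10 * (t * nz s) + 200 * P.K := by
      rw [hδ]; field_simp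
    rw [k1]
    have k4 : P.b ≤ P.b ^ 17 := le_self_pow₀ P.one_le_b (by norm_num)
    have k5 := P.K_le
    linarith
  have u0 : 0 ≤ δ * nz s := by
    have : 0 ≤ δ := by positivity
    positivity
  have u2 : (δ * nz s) ^ 2 ≤ 4 * P.b ^ 34 := by
    calc (δ * nz s) ^ 2 ≤ (2 * P.b ^ 17) ^ 2 := pow_le_pow_left₀ u0 u1 2
      _ = 4 * P.b ^ 34 := by ring
  have u3 : P.b ^ 35 ≤ 4 * P.b ^ 34 := by
    calc P.b ^ 35 ≤ δ ^ 2 * nz s ^ 2 := hq
      _ = (δ * nz s) ^ 2 := by ring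
      _ ≤ _ := u2
  have u4 : P.b ^ 35 = P.b * P.b ^ 34 := by ring
  have u5 := P.b_ge
  norm_num at u5
  have u6 := P.pow_pos 34
  rw [u4] at u3
  have u7 := le_of_mul_le_mul_right u3 u6
  linarith

/-- The symbol of the obstacle site at the quiet point: `|q_{n+s}| ≤ 4K + c0 + |s|(2·1.01t + 10·1.23 t) ≤ 15 t|s|`. -/
theorem OQ.sym (h : QP P E p τ' z' n) {s : Zd 3} {τ₁ : ℂ} (h1 : OQ P E p τ' n s τ₁) {t : ℝ}
    (ht : 0 < t) (ht' : t ≤ P.rho / 8) (h2 : ‖τ₁ - τ'‖ ≤ t + 50 * P.K / nz s) :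
    ‖q μ (E.pt p τ' z') (n + s)‖ ≤ 15 * (t * nz s) := by
  have hlong := h1.long h ht ht' h2
  have hM := P.M_nonneg
  obtain ⟨a1, b1⟩ := q2_pt h h1.near
  obtain ⟨z1, c1, d1⟩ := h.zet h1.near
  obtain ⟨hA, hB, hC, hI⟩ := h1.pair h
  have hs0 : 0 < nz s := nz_pos h1.ne
  have hK := q2_div (P := P) hM hs0 hC
  have hKpos := P.K_pos
  have hsmall := h1.small
  rw [← q2_pt_s] at hsmall
  have g1 := q1_gs_of_le (E := E) (p := p) (m := n) (m' := n + s) (W := 0) (by rw [a1, norm_zero])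
    hsmall.le
  rw [zero_add, add_sub_cancel_left] at g1
  have e0 := q1_pair μ E p τ' z' n (n + s)
  rw [add_sub_cancel_left] at e0
  have e1 : gs (E.pt (p + zc n) τ' z') s = gs (E.pt (p + zc n) τ₁ (_root_.H9F.zet μ E (p + zc n) τ₁)) s -
      (2 * (τ₁ - τ') * bil (zc s) E.U + 2 * (_root_.H9F.zet μ E (p + zc n) τ₁ - z') * bil (zc s) E.V) := by
    rw [gs_pt, gs_pt]; ring
  have hKs : 0 < P.K / nz s := by positivity
  have e50 : 50 * P.K / nz s = 50 * (P.K / nz s) := by ring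
  rw [e50] at h2
  have f1 : ‖2 * (τ₁ - τ') * bil (zc s) E.U‖ ≤ 2 * (t + 50 * (P.K / nz s)) * nz s := by
    rw [norm_mul, norm_mul, Complex.norm_ofNat]
    have := E.norm_zc_U s
    gcongr
  have f2 : ‖2 * (_root_.H9F.zet μ E (p + zc n) τ₁ - z') * bil (zc s) E.V‖ ≤
      2 * (6 / 5 * t + 61 * (P.K / nz s)) * (5 * nz s) := by
    rw [norm_mul, norm_mul, Complex.norm_ofNat]
    have := E.norm_zc_V s
    have h3 : ‖_root_.H9F.zet μ E (p + zc n) τ₁ - z'‖ ≤ 6 / 5 * t + 61 * (P.K / nz s) := by linarith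
    gcongr
  have f3 : ‖gs (E.pt (p + zc n) τ' z') s‖ ≤ 4 * P.K + (2 * (t + 50 * (P.K / nz s)) * nz s +
      2 * (6 / 5 * t + 61 * (P.K / nz s)) * (5 * nz s)) := by
    rw [e1]
    refine (norm_sub_le _ _).trans (add_le_add g1 ((norm_add_le _ _).trans (add_le_add f1 f2)))
  have f4 : (P.K / nz s) * nz s = P.K := div_mul_cancel₀ _ hs0.ne'
  have f5 : ‖q μ (E.pt p τ' z') (n + s)‖ ≤ (4 * M + 8) + (4 * P.K + (2 * (t + 50 * (P.K / nz s)) * nz s +
      2 * (6 / 5 * t + 61 * (P.K / nz s)) * (5 * nz s))) := by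
    rw [e0]
    exact (norm_add_le _ _).trans (add_le_add h.hn f3)
  have f6 : (4 * M + 8) + (4 * P.K + (2 * (t + 50 * (P.K / nz s)) * nz s +
      2 * (6 / 5 * t + 61 * (P.K / nz s)) * (5 * nz s))) =
      (4 * M + 8) + 4 * P.K + 14 * (t * nz s) + 710 * ((P.K / nz s) * nz s) := by ring
  rw [f6, f4] at f5
  have k4 : P.b ≤ P.b ^ 17 := le_self_pow₀ P.one_le_b (by norm_num)
  have k5 := P.K_le
  have k6 := q2_c0 P
  linarith

end H9F
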