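import Pool.Agent.Lib.H9F.Q2
import Pool.Agent.Lib.H9F.Dya

/-!
# H9F Q3: obstacles near a quiet point are sparse
-/

open scoped BigOperators Topology
open Set Filter

noncomputable section

namespace H9F

open Fermi

variable {M : ℝ} {μ : ℂ} {P : Big M μ} {E : Frm} {p : Cd 3} {τ' z' : ℂ} {n : Zd 3}

/-- the close-pair count (proved in N8) -/
def Close (P : Big M μ) (k : Cd 3) (V : ℝ) : Prop :=
  ∀ X : Finset (Zd 3), (∀ s ∈ X, s ≠ 0 ∧ nz s ≤ 5000 * V / P.rho ∧ ‖gs k s‖ ≤ 200 * V) →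
    (X.card : ℝ) ≤ V / P.b ^ 5

/-- Far pairs. `X` = differences `s` with `n + s` resonant, `|q_{n+s}(pt p τ' z')| ≤ 30 V`. The pairs `(s₁,s₂)` of elements with
`5000 V/ρ < |s₂ - s₁|` are few. Proof: for such a pair `i = (n+s₁, n+s₂)`: `ht ≤ 30V ≤ 3ρ|s'|` at the point, so `i ∈ I`, and
`|xm i - (τ',z')| ≤ 990 V/|s'|` (`xm_near`, `W = 30 V ≤ R/200`). Dyadic classes `2^a ≤ |s'| < 2^(a+1)`: `Quiet` with
`δ = 990 V/2^a` (`≤ ρ` and `≥ 1/R²`): `#class ≤ 4^(a+1) (990V)²/4^a/b^35 ≤ 4·10^6 V²/b^35`; at most `J ≤ b` classes. -/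
theorem far_pairs (h : QP P E p τ' z' n) {V : ℝ} (hV : 1 ≤ V) (hV' : V ≤ P.rho * nr (im p))
    (X : Finset (Zd 3)) (hX : ∀ s ∈ X, ‖q μ p (n + s)‖ ≤ 100 * nr (im p) * P.rho ∧
      ‖q μ (E.pt p τ' z') (n + s)‖ ≤ 30 * V)
    (Z : Finset (Zd 3 × Zd 3)) (hZ : ∀ i ∈ Z, i.1 ∈ X ∧ i.2 ∈ X ∧ 5000 * V / P.rho < nz (i.2 - i.1)) :
    (Z.card : ℝ) ≤ V ^ 2 / P.b ^ 33 := by
  classical
  have hy : YY P 4 (im p) := h.sl.yy.mono (by norm_num)
  obtain ⟨R, hR⟩ : ∃ R : ℝ, R = nr (im p) := ⟨_, rfl⟩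
  have hRpos : 0 < R := hR ▸ hy.R_pos
  have hR1 : 1 ≤ R := by
    have h1 : 1 * P.b ^ 1 ≤ nr (im p) := hy.mul_le (by norm_num) (by norm_num)
    rw [← hR, one_mul, pow_one] at h1
    exact P.one_le_b.trans h1
  have hρ := P.rho_pos
  have hρ1 : P.rho ≤ 1 / 10 ^ 6 := P.rho_le_small.trans (by norm_num)
  have hV0 : 0 < V := by linarith
  have hVR : V ≤ R / 10 ^ 6 := by
    rw [← hR] at hV'
    refine hV'.trans ?_
    calc P.rho * R ≤ 1 / 10 ^ 6 * R := mul_le_mul_of_nonneg_right hρ1 hRpos.le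
      _ = R / 10 ^ 6 := by ring
  have hτ : ‖τ'‖ ≤ P.rho := h.hτ.trans (by linarith)
  have hz : ‖z'‖ ≤ P.rho := h.hz.trans (by linarith)
  have hpair : ∀ i ∈ Z, InI P E p (n + i.1, n + i.2) ∧
      nz (i.2 - i.1) * ‖(xm P E p (n + i.1, n + i.2)).1 - τ'‖ ≤ 990 * V ∧
      nz (i.2 - i.1) * ‖(xm P E p (n + i.1, n + i.2)).2 - z'‖ ≤ 990 * V ∧ nz (i.2 - i.1) ≤ 21 / 10 * R := by
    intro i hi
    obtain ⟨hi1, hi2, hi3⟩ := hZ i hi
    have e : n + i.2 - (n + i.1) = i.2 - i.1 := add_sub_add_left_eq_sub _ _ _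
    have hpos : 0 < nz (i.2 - i.1) := lt_trans (by positivity) hi3
    have hne : n + i.1 ≠ n + i.2 := by
      intro h0
      have h1 : i.2 - i.1 = 0 := by rw [← e, h0, sub_self]
      rw [h1, nz_zero] at hpos
      exact lt_irrefl _ hpos
    have ha := hX _ hi1
    have hb := hX _ hi2
    have hW : 30 * V ≤ nr (im p) / 200 := by
      rw [← hR]
      linarith
    have hxm := xm_near h.sl hτ hz hne ha.1 hW ha.2 hb.2
    rw [e] at hxm
    have hsh := h.sl.short hτ hz ha.1 (ha.2.trans hW) (hb.2.trans hW)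
    rw [e, ← hR] at hsh
    refine ⟨⟨hne, ha.1, hb.1, ?_⟩, ?_, ?_, hsh⟩
    · have h1 := xm_min P E p (n + i.1, n + i.2) (y := (τ', z')) ⟨hτ, hz⟩
      have h2 : ht μ E p (n + i.1, n + i.2) (τ', z') ≤ 30 * V := max_le ha.2 hb.2
      have h3 : 5000 * V ≤ P.rho * nz (i.2 - i.1) := by
        have := hi3.le
        rw [div_le_iff₀ hρ] at this
        linarith
      have h4 := P.b_pos
      show ht μ E p (n + i.1, n + i.2) _ ≤ P.b + 3 * P.rho * nz (n + i.2 - (n + i.1))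
      rw [e]
      nlinarith
    · linarith [hxm.1]
    · linarith [hxm.2]
  have hb36 := P.b_ge
  have hbpos := P.b_pos
  have hdy := dyadic_sum Z (fun i => nz (i.2 - i.1)) (fun _ => (1 : ℝ)) 1 one_pos P.J
    (fun _ => 4 * 10 ^ 6 * V ^ 2 / P.b ^ 35) (fun i hi => by
      obtain ⟨-, -, h3⟩ := hZ i hi
      have h4 := (hpair i hi).2.2.2
      constructor
      · refine le_trans ?_ h3.le
        rw [le_div_iff₀ hρ]
        nlinarith
      · rw [one_mul]
        refine lt_of_lt_of_le ?_ P.b_pow_le_two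
        have h5 := h.sl.yy.hi
        rw [← hR] at h5
        have h6 : 5 * P.b ^ 12000 ≤ P.b ^ 13000 := P.mul_pow_le (by norm_num) (by norm_num)
        have h7 := P.pow_pos 12000
        nlinarith) (fun j _ Y hYZ hYg => by
      rw [Finset.sum_const, nsmul_eq_mul, mul_one]
      rcases Y.eq_empty_or_nonempty with rfl | ⟨i₀, hi₀⟩
      · simp only [Finset.card_empty, Nat.cast_zero]
        positivity
      have h2j : (0 : ℝ) < 2 ^ j := by positivity
      obtain ⟨δ, hδ⟩ : ∃ δ : ℝ, δ = 990 * V / 2 ^ j := ⟨_, rfl⟩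
      have hδ0 : 0 < δ := by rw [hδ]; positivity
      have g0 := hYg i₀ hi₀
      rw [one_mul, one_mul] at g0
      have hbig := (hZ i₀ (hYZ hi₀)).2.2
      have hδρ : δ ≤ P.rho := by
        rw [hδ, div_le_iff₀ h2j]
        have h5 : 5000 * V < P.rho * nz (i₀.2 - i₀.1) := by
          rw [div_lt_iff₀ hρ] at hbig
          linarith
        have h6 : nz (i₀.2 - i₀.1) < 2 * 2 ^ j := by
          have := g0.2
          rw [pow_succ] at this
          linarith
        nlinarith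
      have hδR : 1 / nr (im p) ^ 2 ≤ δ := by
        rw [← hR, div_le_iff₀ (by positivity), hδ]
        have h5 : (2 : ℝ) ^ j ≤ 21 / 10 * R := g0.1.trans (hpair i₀ (hYZ hi₀)).2.2.2
        rw [div_mul_eq_mul_div, le_div_iff₀ h2j]
        nlinarith
      have hq := h.qu (Y.image fun i => (n + i.1, n + i.2)) δ hδR hδρ (by
        intro i' hi'
        obtain ⟨i, hi, rfl⟩ := Finset.mem_image.1 hi'
        obtain ⟨q1, q2, q3, -⟩ := hpair i (hYZ hi)
        have g := hYg i hi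
        rw [one_mul, one_mul] at g
        refine ⟨q1, ?_, ?_⟩
        · rw [hδ, le_div_iff₀ h2j]
          have := norm_nonneg ((xm P E p (n + i.1, n + i.2)).1 - τ')
          nlinarith [g.1]
        · rw [hδ, le_div_iff₀ h2j]
          have := norm_nonneg ((xm P E p (n + i.1, n + i.2)).2 - z')
          nlinarith [g.1])
      rw [Finset.sum_image (by
        intro a _ b _ hab
        have h1 : n + a.1 = n + b.1 := congrArg Prod.fst hab
        have h2 : n + a.2 = n + b.2 := congrArg Prod.snd hab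
        exact Prod.ext (add_left_cancel h1) (add_left_cancel h2))] at hq
      have hlow : (Y.card : ℝ) * (1 / (4 * (2 ^ j) ^ 2)) ≤
          ∑ i ∈ Y, 1 / nz (n + i.2 - (n + i.1)) ^ 2 := by
        rw [← nsmul_eq_mul]
        refine Finset.card_nsmul_le_sum _ _ _ fun i hi => ?_
        have g := hYg i hi
        rw [one_mul, one_mul] at g
        have e : n + i.2 - (n + i.1) = i.2 - i.1 := add_sub_add_left_eq_sub _ _ _
        rw [e]
        have h5 : 0 < nz (i.2 - i.1) := h2j.trans_le g.1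
        refine one_div_le_one_div_of_le (by positivity) ?_
        have h6 : nz (i.2 - i.1) ≤ 2 * 2 ^ j := by
          have := g.2.le
          rw [pow_succ] at this
          linarith
        nlinarith
      have hfin := hlow.trans hq
      rw [hδ, mul_one_div, div_le_iff₀ (by positivity)] at hfin
      refine hfin.trans ?_
      have e : (990 * V / 2 ^ j) ^ 2 / P.b ^ 35 * (4 * (2 ^ j) ^ 2) = 3920400 * V ^ 2 / P.b ^ 35 := by
        have := (P.pow_pos 35).ne'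
        field_simp
        norm_num
      rw [e]
      refine div_le_div_of_nonneg_right ?_ (P.pow_pos 35).le
      nlinarith [sq_nonneg V])
  rw [Finset.sum_const, nsmul_eq_mul, mul_one, Finset.sum_const, nsmul_eq_mul, Finset.card_range] at hdy
  refine hdy.trans ?_
  have hJ := P.J_le_b
  have h35 := P.pow_pos 35
  have h33 := P.pow_pos 33
  have e35 : P.b ^ 35 = P.b ^ 33 * P.b ^ 2 := by ring
  rw [e35]
  have hb2 : 0 < P.b ^ 2 := P.pow_pos 2
  calc (P.J : ℝ) * (4 * 10 ^ 6 * V ^ 2 / (P.b ^ 33 * P.b ^ 2))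
      ≤ P.b * (4 * 10 ^ 6 * V ^ 2 / (P.b ^ 33 * P.b ^ 2)) := mul_le_mul_of_nonneg_right hJ (by positivity)
    _ = (4 * 10 ^ 6 / P.b) * (V ^ 2 / P.b ^ 33) := by
        field_simp
    _ ≤ 1 * (V ^ 2 / P.b ^ 33) := by
        refine mul_le_mul_of_nonneg_right ?_ (by positivity)
        rw [div_le_one hbpos]
        linarith
    _ = _ := one_mul _

/-- (R2)(ii). Proof: if `#Y > V/b^3`, count ordered pairs: the diagonal (`#Y`), close pairs (for each `s₁` at most `V/b^5`, by `hC` at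
`k = pt p τ' z' + (n + s₁)`: `|gs k (s₂-s₁)| ≤ 60V`), far pairs (`far_pairs`):
`#Y² ≤ #Y (1 + V/b^5) + V²/b^33`. Divide by `#Y > V/b^3`, use `V ≥ b^16`. -/
theorem class_count (h : QP P E p τ' z' n) {V : ℝ} (hV : P.b ^ 16 ≤ V)
    (hV' : V ≤ P.rho * nr (im p) / 2)
    (hC : ∀ k : Cd 3, KC P k → V ≤ P.rho * nr (im k) → Close P k V)
    (Y : Finset (Zd 3)) (hY : ∀ s ∈ Y, ‖q μ p (n + s)‖ ≤ 100 * nr (im p) * P.rho ∧
      ‖q μ (E.pt p τ' z') (n + s)‖ ≤ 30 * V) :
    (Y.card : ℝ) ≤ V / P.b ^ 3 := by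
  classical
  have hy : YY P 4 (im p) := h.sl.yy.mono (by norm_num)
  have hRpos : 0 < nr (im p) := hy.R_pos
  have hR1 : 10 ^ 6 ≤ nr (im p) := by
    have h1 : 1 * P.b ^ 1 ≤ nr (im p) := hy.mul_le (by norm_num) (by norm_num)
    rw [one_mul, pow_one] at h1
    exact le_trans (le_trans (by norm_num) P.b_ge) h1
  have hρ := P.rho_pos
  have hρ1 : P.rho ≤ 1 / 10 ^ 6 := P.rho_le_small.trans (by norm_num)
  have hbpos := P.b_pos
  have hb1 := P.one_le_b
  have hV1 : 1 ≤ V := (one_le_pow₀ hb1).trans hV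
  have hV0 : 0 < V := by linarith
  have him : nr (im (E.pt p τ' z') - im p) ≤ 3 * P.rho := by
    refine (nr_im_pt E p τ' z').trans ?_
    have h1 := h.hτ
    have h2 := h.hz
    linarith
  have hyk : YY P 4 (im (E.pt p τ' z')) := by
    refine h.sl.yy.move (by norm_num) (by norm_num) le_rfl (him.trans ?_)
    have h1 : (1 : ℝ) ≤ P.b ^ 550 := one_le_pow₀ hb1
    linarith
  have hRk : nr (im p) / 2 ≤ nr (im (E.pt p τ' z')) := by
    have h1 := (abs_le.1 (abs_nr_sub_le (im (E.pt p τ' z')) (im p))).1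
    linarith
  have hVsm : 30 * V ≤ nr (im (E.pt p τ' z')) ^ 2 / 1000 := by
    have h1 : V ≤ 1 / 10 ^ 6 * nr (im p) / 2 := by
      refine hV'.trans ?_
      have := mul_le_mul_of_nonneg_right hρ1 hRpos.le
      linarith
    have h2 : 0 ≤ nr (im p) / 2 := by positivity
    nlinarith
  -- the close pairs
  have hclose : ∀ s₁ ∈ Y, (((Y.filter fun s₂ => s₂ ≠ s₁ ∧ nz (s₂ - s₁) ≤ 5000 * V / P.rho).card : ℕ) : ℝ) ≤ V / P.b ^ 5 := by
    intro s₁ hs₁
    have hk : KC P (E.pt p τ' z' + zc (n + s₁)) := by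
      refine ⟨by rw [im_add_zc]; exact hyk, ?_⟩
      rw [im_add_zc, ← q_shift]
      exact (hY s₁ hs₁).2.trans hVsm
    have hVk : V ≤ P.rho * nr (im (E.pt p τ' z' + zc (n + s₁))) := by
      rw [im_add_zc]
      refine hV'.trans ?_
      have := mul_le_mul_of_nonneg_left hRk hρ.le
      linarith
    have hcl := hC _ hk hVk ((Y.filter fun s₂ => s₂ ≠ s₁ ∧ nz (s₂ - s₁) ≤ 5000 * V / P.rho).image fun s₂ => s₂ - s₁) (by
      intro s hs
      obtain ⟨s₂, hs₂, rfl⟩ := Finset.mem_image.1 hs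
      obtain ⟨hs₂Y, hne, hnz⟩ := Finset.mem_filter.1 hs₂
      refine ⟨sub_ne_zero.2 hne, hnz, ?_⟩
      have e1 := q_gs' μ (E.pt p τ' z') (n + s₁) (s₂ - s₁)
      have e2 : n + s₁ + (s₂ - s₁) = n + s₂ := by abel
      rw [e2] at e1
      have e3 : gs (E.pt p τ' z' + zc (n + s₁)) (s₂ - s₁) =
          q μ (E.pt p τ' z') (n + s₂) - q μ (E.pt p τ' z') (n + s₁) := by
        rw [e1]
        ring
      rw [e3]
      have h1 := norm_sub_le (q μ (E.pt p τ' z') (n + s₂)) (q μ (E.pt p τ' z') (n + s₁))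
      have h2 := (hY s₁ hs₁).2
      have h3 := (hY s₂ hs₂Y).2
      linarith)
    rwa [Finset.card_image_of_injective _ sub_left_injective] at hcl
  -- the far pairs
  have hfar := far_pairs h hV1 (by linarith) Y hY ((Y ×ˢ Y).filter fun i => 5000 * V / P.rho < nz (i.2 - i.1)) (by
    intro i hi
    obtain ⟨h1, h2⟩ := Finset.mem_filter.1 hi
    obtain ⟨h3, h4⟩ := Finset.mem_product.1 h1
    exact ⟨h3, h4, h2⟩)
  have hfar' : (((Y ×ˢ Y).filter fun i => 5000 * V / P.rho < nz (i.2 - i.1)).card : ℝ) =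
      ∑ s₁ ∈ Y, ((Y.filter fun s₂ => 5000 * V / P.rho < nz (s₂ - s₁)).card : ℝ) := by
    have e : ((Y ×ˢ Y).filter fun i => 5000 * V / P.rho < nz (i.2 - i.1)).card =
        ∑ s₁ ∈ Y, (Y.filter fun s₂ => 5000 * V / P.rho < nz (s₂ - s₁)).card := by
      rw [Finset.card_filter, Finset.sum_product]
      refine Finset.sum_congr rfl fun s₁ _ => ?_
      rw [Finset.card_filter]
    rw [e]
    push_cast
    rfl
  have hsplit : ∀ s₁ ∈ Y, (Y.card : ℝ) ≤ 1 + V / P.b ^ 5 + ((Y.filter fun s₂ => 5000 * V / P.rho < nz (s₂ - s₁)).card : ℝ) := by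
    intro s₁ hs₁
    have hsub : Y ⊆ ({s₁} ∪ (Y.filter fun s₂ => s₂ ≠ s₁ ∧ nz (s₂ - s₁) ≤ 5000 * V / P.rho)) ∪
        (Y.filter fun s₂ => 5000 * V / P.rho < nz (s₂ - s₁)) := by
      intro s₂ hs₂
      rw [Finset.mem_union, Finset.mem_union, Finset.mem_singleton, Finset.mem_filter, Finset.mem_filter]
      by_cases h1 : s₂ = s₁
      · exact Or.inl (Or.inl h1)
      · by_cases h2 : nz (s₂ - s₁) ≤ 5000 * V / P.rho
        · exact Or.inl (Or.inr ⟨hs₂, h1, h2⟩)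
        · exact Or.inr ⟨hs₂, not_le.1 h2⟩
    have h1 := (Finset.card_le_card hsub).trans ((Finset.card_union_le _ _).trans
      (Nat.add_le_add_right (Finset.card_union_le _ _) _))
    rw [Finset.card_singleton] at h1
    have h2 := hclose s₁ hs₁
    have h3 : (Y.card : ℝ) ≤ ((1 + (Y.filter fun s₂ => s₂ ≠ s₁ ∧ nz (s₂ - s₁) ≤ 5000 * V / P.rho).card +
      (Y.filter fun s₂ => 5000 * V / P.rho < nz (s₂ - s₁)).card : ℕ) : ℝ) := by exact_mod_cast h1
    push_cast at h3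
    linarith
  have htot := Finset.sum_le_sum hsplit
  rw [Finset.sum_const, nsmul_eq_mul, Finset.sum_add_distrib, Finset.sum_const, nsmul_eq_mul, ← hfar'] at htot
  have htot' : (Y.card : ℝ) * Y.card ≤ Y.card * (1 + V / P.b ^ 5) + V ^ 2 / P.b ^ 33 := by linarith
  by_contra hcon
  rw [not_le] at hcon
  obtain ⟨x, hx⟩ : ∃ x : ℝ, x = (Y.card : ℝ) := ⟨_, rfl⟩
  rw [← hx] at htot' hcon
  have hb36 := P.b_ge
  have p3 := P.pow_pos 3
  have p5 := P.pow_pos 5
  have p2 := P.pow_pos 2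
  have hVx : V < P.b ^ 3 * x := by
    rw [div_lt_iff₀ p3] at hcon
    linarith
  have hx13 : P.b ^ 13 ≤ x := by
    have h1 : P.b ^ 13 ≤ V / P.b ^ 3 := by
      rw [le_div_iff₀ p3]
      calc P.b ^ 13 * P.b ^ 3 = P.b ^ 16 := by ring
        _ ≤ V := hV
    linarith
  have hx0 : 0 < x := lt_of_lt_of_le (P.pow_pos 13) hx13
  have t1 : V / P.b ^ 5 ≤ x / P.b ^ 2 := by
    rw [div_le_div_iff₀ p5 p2]
    have : P.b ^ 5 = P.b ^ 3 * P.b ^ 2 := by ring
    rw [this]
    nlinarith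
  have t2 : V ^ 2 / P.b ^ 33 ≤ x ^ 2 / P.b ^ 27 := by
    rw [div_le_div_iff₀ (P.pow_pos 33) (P.pow_pos 27)]
    have h1 : V ^ 2 ≤ (P.b ^ 3 * x) ^ 2 := by
      have : 0 ≤ V := hV0.le
      exact pow_le_pow_left₀ this hVx.le 2
    have h2 : P.b ^ 33 = (P.b ^ 3) ^ 2 * P.b ^ 27 := by ring
    rw [h2]
    have p27 := P.pow_pos 27
    nlinarith
  have b2 : (10 : ℝ) ^ 36 ≤ P.b ^ 2 := hb36.trans (le_self_pow₀ hb1 (by norm_num))
  have b27 : (10 : ℝ) ^ 36 ≤ P.b ^ 27 := hb36.trans (le_self_pow₀ hb1 (by norm_num))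
  have b13 : (10 : ℝ) ^ 36 ≤ P.b ^ 13 := hb36.trans (le_self_pow₀ hb1 (by norm_num))
  have u1 : x / P.b ^ 2 ≤ x / 10 := by
    refine div_le_div_of_nonneg_left hx0.le (by norm_num) (le_trans (by norm_num) b2)
  have u2 : x ^ 2 / P.b ^ 27 ≤ x ^ 2 / 10 := by
    refine div_le_div_of_nonneg_left (by positivity) (by norm_num) (le_trans (by norm_num) b27)
  have u3 : (10 : ℝ) ≤ x := le_trans (le_trans (by norm_num) b13) hx13
  have hlast : x * x ≤ x * (1 + x / 10) + x ^ 2 / 10 := by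
    have : x * (1 + V / P.b ^ 5) ≤ x * (1 + x / 10) := mul_le_mul_of_nonneg_left (by linarith) hx0.le
    linarith
  nlinarith

/-- (R2)(iii). Proof: dyadic classes `2^a ≤ nz s < 2^(a+1)` (`a < J`), `V = t 2^a`: `V ≥ t nz s/2 ≥ b^17/2 ≥ b^16` (`OQ.long`),
`V ≤ (ρ/8)(2.1 R) ≤ ρ R/2`, symbols `≤ 15 t |s| ≤ 30 V` (`OQ.sym`). `class_count`: `#class ≤ t 2^a/b^3`, each term `≤ 50K/2^a`;
sum `≤ J · 50 K t/b^3 ≤ t/100`. -/
theorem obstacle_sum (h : QP P E p τ' z' n)
    (hC : ∀ (k : Cd 3) (V : ℝ), KC P k → P.b ^ 16 ≤ V → V ≤ P.rho * nr (im k) → Close P k V)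
    (Y : Finset (Zd 3)) (c : Zd 3 → ℂ) (hY : ∀ s ∈ Y, OQ P E p τ' n s (c s)) {t : ℝ} (ht : 0 < t)
    (ht' : t ≤ P.rho / 8) (hc : ∀ s ∈ Y, ‖c s - τ'‖ ≤ t + 50 * P.K / nz s) :
    ∑ s ∈ Y, 50 * P.K / nz s ≤ t / 100 := by
  classical
  have hy : YY P 4 (im p) := h.sl.yy.mono (by norm_num)
  have hRpos : 0 < nr (im p) := hy.R_pos
  have hρ := P.rho_pos
  have hbpos := P.b_pos
  have hb1 := P.one_le_b
  have hb36 := P.b_ge
  have hKpos := P.K_pos
  have hKb := P.K_le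
  have hpair : ∀ s ∈ Y, 1 ≤ nz s ∧ nz s ≤ 21 / 10 * nr (im p) := fun s hs =>
    ⟨one_le_nz (hY s hs).ne, (OQ.pair h (hY s hs)).2.2.1⟩
  have hdy := dyadic_card Y nz (fun s => 50 * P.K / nz s) 1 one_pos P.J (fun j => t * 2 ^ j / P.b ^ 3)
    (fun j => 50 * P.K / 2 ^ j) (fun j => by positivity) (fun s hs => by
      refine ⟨(hpair s hs).1, ?_⟩
      rw [one_mul]
      refine lt_of_lt_of_le ?_ P.b_pow_le_two
      have h5 := h.sl.yy.hi
      have h6 : 5 * P.b ^ 12000 ≤ P.b ^ 13000 := P.mul_pow_le (by norm_num) (by norm_num)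
      have h7 := P.pow_pos 12000
      have h8 := (hpair s hs).2
      nlinarith) (fun j _ Y' hY' hYg => by
      have h2j : (0 : ℝ) < 2 ^ j := by positivity
      rcases Y'.eq_empty_or_nonempty with rfl | ⟨s₀, hs₀⟩
      · simp only [Finset.card_empty, Nat.cast_zero]
        positivity
      have g0 := hYg s₀ hs₀
      rw [one_mul, one_mul] at g0
      have hs₀Y := hY' hs₀
      have hlong := OQ.long h (hY s₀ hs₀Y) ht ht' (hc s₀ hs₀Y)
      have h6 : nz s₀ < 2 * 2 ^ j := by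
        have := g0.2
        rw [pow_succ] at this
        linarith
      have hV16 : P.b ^ 16 ≤ t * 2 ^ j := by
        have h7 : 2 * P.b ^ 16 ≤ P.b ^ 17 := P.mul_pow_le (by norm_num) (by norm_num)
        nlinarith
      have hVR : t * 2 ^ j ≤ P.rho * nr (im p) / 2 := by
        have h8 : (2 : ℝ) ^ j ≤ 21 / 10 * nr (im p) := g0.1.trans (hpair s₀ hs₀Y).2
        calc t * 2 ^ j ≤ P.rho / 8 * (21 / 10 * nr (im p)) := mul_le_mul ht' h8 h2j.le (by positivity)
          _ ≤ P.rho * nr (im p) / 2 := by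
            have : 0 < P.rho * nr (im p) := mul_pos hρ hRpos
            linarith
      refine class_count h hV16 hVR (fun k hk hVk => hC k _ hk hV16 hVk) Y' fun s hs => ?_
      have g := hYg s hs
      rw [one_mul, one_mul] at g
      have hsY := hY' hs
      refine ⟨(OQ.pair h (hY s hsY)).1, (OQ.sym h (hY s hsY) ht ht' (hc s hsY)).trans ?_⟩
      have h9 : nz s ≤ 2 * 2 ^ j := by
        have := g.2.le
        rw [pow_succ] at this
        linarith
      nlinarith) (fun j _ s hs g1 _ => by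
      rw [one_mul] at g1
      have h2j : (0 : ℝ) < 2 ^ j := by positivity
      exact div_le_div_of_nonneg_left (by positivity) h2j g1)
  refine hdy.trans ?_
  have e : ∀ j ∈ Finset.range P.J, t * 2 ^ j / P.b ^ 3 * (50 * P.K / 2 ^ j) = 50 * P.K * t / P.b ^ 3 := by
    intro j _
    have h2j : (2 : ℝ) ^ j ≠ 0 := by positivity
    have hb3 := (P.pow_pos 3).ne'
    field_simp
  rw [Finset.sum_congr rfl e, Finset.sum_const, nsmul_eq_mul, Finset.card_range]
  have hJ := P.J_le_b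
  have p3 := P.pow_pos 3
  calc (P.J : ℝ) * (50 * P.K * t / P.b ^ 3) ≤ P.b * (50 * P.K * t / P.b ^ 3) :=
        mul_le_mul_of_nonneg_right hJ (by positivity)
    _ = 50 * P.K * t / P.b ^ 2 := by
        field_simp
    _ ≤ t / 100 := by
        rw [div_le_div_iff₀ (P.pow_pos 2) (by norm_num)]
        have h1 : 5000 * P.K ≤ P.b ^ 2 := by nlinarith
        nlinarith

end H9F
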