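import Pool.Agent.Lib.H9F.Q3
import Pool.Agent.Lib.H9F.P2
import Pool.Agent.Lib.H9F.Esc

/-!
# H9F Q4: quiet points are not in `X_A`
-/

open scoped BigOperators Topology
open Set Filter

noncomputable section

namespace H9F

open Fermi

variable {M : ℝ} {μ : ℂ} {P : Big M μ} {F A B : Set (Cd 3)} {E : Frm} {p : Cd 3} {τ' z' : ℂ} {n : Zd 3}

theorem q4_nrc (h : QP P E p τ' z' n) : NrC μ E (nr (im p)) (p + zc n) := by
  have h1 := (h.sl.nrc h.lam (τ := 0) (z := 0) (by rw [norm_zero]; have := P.rho_pos; positivity)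
    (by rw [norm_zero]; have := P.rho_pos; positivity)).1
  rwa [pt_zero] at h1

theorem q4_R (h : QP P E p τ' z' n) : 10 ^ 6 ≤ nr (im p) ∧ P.b ^ 9999 ≤ nr (im p) := by
  have hy : YY P 4 (im p) := h.sl.yy.mono (by norm_num)
  refine ⟨?_, hy.R_ge⟩
  have h1 : 1 * P.b ^ 1 ≤ nr (im p) := hy.mul_le (by norm_num) (by norm_num)
  rw [one_mul, pow_one] at h1
  exact le_trans (le_trans (by norm_num) P.b_ge) h1

/-- parameters of size `4ρ` are small -/
theorem q4_small (h : QP P E p τ' z' n) {τ : ℂ} (hτ : ‖τ‖ ≤ 4 * P.rho) : ‖τ‖ ≤ nr (im p) / 1000 := by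
  have h1 := (q4_R h).1
  have h2 := P.rho_le_one
  linarith

theorem q4_den (h : QP P E p τ' z' n) {τ : ℂ} (hτ : ‖τ‖ ≤ 4 * P.rho) : bil (p + zc n) E.V - 2 * τ ≠ 0 := by
  have h1 := (q4_nrc h).den (q4_small h hτ)
  have h2 := (q4_R h).1
  intro h0
  rw [h0, norm_zero] at h1
  linarith

theorem q4_near (h : QP P E p τ' z' n) {τ : ℂ} (hτ : ‖τ - τ'‖ ≤ P.rho / 8) : ‖τ‖ ≤ 5 / 8 * P.rho := by
  have h1 := norm_add_le (τ - τ') τ'
  rw [sub_add_cancel] at h1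
  have h2 := h.hτ
  linarith

theorem q4_im (h : QP P E p τ' z' n) {τ : ℂ} (hτ : ‖τ - τ'‖ ≤ P.rho / 8) :
    |nr (im (sp μ E (p + zc n) τ)) - nr (im p)| ≤ 5 * P.rho := by
  have h1 := abs_nr_sub_le (im (sp μ E (p + zc n) τ)) (im (p + zc n))
  rw [im_add_zc] at h1
  have h2 := nr_im_pt E (p + zc n) τ (zet μ E (p + zc n) τ)
  rw [im_add_zc] at h2
  have h3 := QP.zet h hτ
  have h4 := P.rho_pos
  refine h1.trans (h2.trans ?_)
  linarith [h3.2.1, h3.2.2]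

theorem q4_good (h : QP P E p τ' z' n) {τ : ℂ} (hτ : ‖τ - τ'‖ ≤ P.rho / 8)
    (hfar : ∀ m : Zd 3, m ≠ 0 → 4 * P.K ≤ ‖q μ (sp μ E (p + zc n) τ) m‖) : Good P 4 (sp μ E (p + zc n) τ) := by
  have hρ := P.rho_pos
  have h4 : ‖τ‖ ≤ 4 * P.rho := (q4_near h hτ).trans (by linarith)
  refine ⟨q_sp (q4_den h h4), ?_, hfar⟩
  have h1 := (abs_le.1 (q4_im h hτ)).1
  have h2 := (q4_R h).2
  have h3 : 2 * P.b ^ 9000 ≤ P.b ^ 9999 := P.mul_pow_le (by norm_num) (by norm_num)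
  have h5 := P.rho_le_one
  have h6 : (10 : ℝ) ^ 36 ≤ P.b ^ 9000 := P.b_ge.trans (le_self_pow₀ P.one_le_b (by norm_num))
  have h7 : (5 : ℝ) ≤ P.b ^ 9000 := le_trans (by norm_num) h6
  linarith

/-- Escape on the sheet. Proof: the set `X` of `s` for which there is an obstacle point is finite (`OQ.pair`: `nz s ≤ 2.1 R`); choose points `c s`;
`OQ.diam` shows that every obstacle point `(s, τ₁)` has `‖τ₁ - c s‖ ≤ 40K/nz s < 50 K/nz s = r s`. `escape` with `T = ρ/8` and `obstacle_sum`.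
Outside the discs (and `‖τ - τ'‖ ≤ ρ/8`) the point `sp μ E (p+n) τ` is 4-good (`q_sp`; `nr (im _) ≥ b^9000`). -/
theorem quiet_escape (h : QP P E p τ' z' n)
    (hC : ∀ (k : Cd 3) (V : ℝ), KC P k → P.b ^ 16 ≤ V → V ≤ P.rho * nr (im k) → Close P k V) :
    ∃ ρ' : ℝ, P.rho / 16 ≤ ρ' ∧ ρ' ≤ P.rho / 8 ∧
      (∀ τ : ℂ, ‖τ - τ'‖ = ρ' → Good P 4 (sp μ E (p + zc n) τ)) ∧
      JoinedIn {τ : ℂ | ‖τ - τ'‖ ≤ P.rho / 8 ∧ Good P 4 (sp μ E (p + zc n) τ)} τ' (τ' + ρ') := by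
  classical
  have hρ := P.rho_pos
  have hK := P.K_pos
  have hfin : {s : Zd 3 | ∃ τ₁, OQ P E p τ' n s τ₁}.Finite := by
    refine (p1_finite (21 / 10 * nr (im p))).subset ?_
    rintro s ⟨τ₁, h1⟩
    exact (OQ.pair h h1).2.2.1
  obtain ⟨c, hc⟩ : ∃ c : Zd 3 → ℂ, ∀ s ∈ hfin.toFinset, OQ P E p τ' n s (c s) := by
    refine ⟨fun s => if hs : ∃ τ₁, OQ P E p τ' n s τ₁ then hs.choose else 0, fun s hs => ?_⟩
    have hs' : ∃ τ₁, OQ P E p τ' n s τ₁ := (Set.Finite.mem_toFinset hfin).1 hs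
    simp only [dif_pos hs']
    exact hs'.choose_spec
  have hpos : ∀ s ∈ hfin.toFinset, 0 < 50 * P.K / nz s := fun s hs => by
    have := nz_pos (hc s hs).ne
    positivity
  obtain ⟨r', h1, h2, h3, h4⟩ := escape hfin.toFinset c (fun s => 50 * P.K / nz s) hpos τ' (T := P.rho / 8) (by positivity)
    (fun t ht ht' Y hY hYc => obstacle_sum h hC Y c (fun s hs => hc s (hY hs)) ht ht' hYc)
  have hgood : ∀ τ : ℂ, ‖τ - τ'‖ ≤ P.rho / 8 → (∀ s ∈ hfin.toFinset, 50 * P.K / nz s < ‖τ - c s‖) →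
      Good P 4 (sp μ E (p + zc n) τ) := by
    intro τ hτ hfree
    refine q4_good h hτ fun m hm => ?_
    by_contra hcon
    rw [not_le] at hcon
    have hO : OQ P E p τ' n m τ := ⟨hm, hτ, hcon⟩
    have hmem : m ∈ hfin.toFinset := (Set.Finite.mem_toFinset hfin).2 ⟨τ, hO⟩
    have h5 := OQ.diam h hO (hc m hmem)
    have h6 := hfree m hmem
    have h7 := nz_pos hm
    rw [div_lt_iff₀ h7] at h6
    nlinarith
  refine ⟨r', by linarith, h2, fun τ hτ => hgood τ (hτ.le.trans h2) (h3 τ hτ), ?_⟩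
  exact h4.mono fun τ hτ => ⟨hτ.1, hgood τ hτ.1 hτ.2⟩

/-- the base point of the patch of the sheet `n` -/
def k0 (μ : ℂ) (E : Frm) (p : Cd 3) (n : Zd 3) : Cd 3 := sp μ E (p + zc n) 0

/-- `k0 = (p + n) + zet(0) V`, `|zet 0| ≤ 13/10 ρ` (`QP.zet`-like estimate: `zet_near`, `zet_lip`), so the imaginary part moves by `≤ 6.5 ρ`
(`nr_im_pt`) and `(k0)·s` differs from `(p+n)·s` by `≤ 6.5 ρ b^120 ≤ b^500/2`. -/
theorem k0_re (h : QP P E p τ' z' n) : RE P (k0 μ E p n) E ∧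
    nr (im (k0 μ E p n) - im p) ≤ 10 * P.rho := by
  have hρ := P.rho_pos
  have hρ1 := P.rho_le_one
  have h0 : ‖(0 : ℂ)‖ ≤ 4 * P.rho := by rw [norm_zero]; positivity
  have hτ4 : ‖τ'‖ ≤ 4 * P.rho := h.hτ.trans (by linarith)
  have hz1 := QP.zet h (τ₁ := τ') (by rw [sub_self, norm_zero]; positivity)
  have hlip := (q4_nrc h).zet_lip (q4_small h hτ4) (q4_small h h0) ((hz1.2.1).trans (by
    have := (q4_R h).1
    linarith))
  rw [sub_zero] at hlip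
  have hz0 : ‖zet μ E (p + zc n) 0‖ ≤ 13 / 10 * P.rho := by
    have h1 := norm_sub_norm_le (zet μ E (p + zc n) 0) (zet μ E (p + zc n) τ')
    rw [norm_sub_rev] at h1
    have h2 := h.hτ
    linarith [hz1.2.1]
  have hnear : nr (im (k0 μ E p n) - im p) ≤ 10 * P.rho := by
    have h1 := nr_im_pt E (p + zc n) 0 (zet μ E (p + zc n) 0)
    rw [im_add_zc, norm_zero] at h1
    refine le_trans h1 ?_
    linarith
  have hnr : ∀ e : Fin 3 → ℝ, dr e e = 1 → |dr (im (k0 μ E p n)) e - dr (im p) e| ≤ 10 * P.rho := by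
    intro e he
    have h1 := abs_dr_le (im (k0 μ E p n) - im p) e
    rw [dr_sub_left] at h1
    have h2 : nr e = 1 := by
      rw [nr, he, Real.sqrt_one]
    rw [h2, mul_one] at h1
    exact h1.trans hnear
  refine ⟨⟨q_sp (q4_den h h0), ?_, ?_, ?_, ?_, ?_⟩, hnear⟩
  · refine h.sl.yy.move (by norm_num) (by norm_num) (by norm_num) (hnear.trans ?_)
    have h6 : (10 : ℝ) ^ 36 ≤ P.b ^ 550 := P.b_ge.trans (le_self_pow₀ P.one_le_b (by norm_num))
    have h7 : (10 : ℝ) ≤ P.b ^ 550 := le_trans (by norm_num) h6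
    linarith
  · intro s hs hs'
    have h1 := h.sl.nf n h.lam s hs hs'
    have e : bil (k0 μ E p n) (zc s) = bil (p + zc n) (zc s) + zet μ E (p + zc n) 0 * bil (zc s) E.V := by
      have e1 : k0 μ E p n = E.pt (p + zc n) 0 (zet μ E (p + zc n) 0) := rfl
      rw [e1]
      unfold Frm.pt
      rw [zero_smul, add_zero, bil_add_left, bil_smul_left, bil_comm E.V]
    have h2 : ‖zet μ E (p + zc n) 0 * bil (zc s) E.V‖ ≤ 13 / 10 * P.rho * (5 * P.b ^ 120) := by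
      rw [norm_mul]
      refine mul_le_mul hz0 ((E.norm_zc_V s).trans (by linarith)) (norm_nonneg _) (by positivity)
    have h3 := norm_sub_le_norm_add (bil (p + zc n) (zc s)) (zet μ E (p + zc n) 0 * bil (zc s) E.V)
    rw [e]
    have h4 : 13 * P.b ^ 120 ≤ P.b ^ 500 := P.mul_pow_le (by norm_num) (by norm_num)
    have h5 : 13 / 10 * P.rho * (5 * P.b ^ 120) ≤ 13 / 2 * P.b ^ 120 := by
      have := P.pow_pos 120
      nlinarith
    linarith
  · have h1 := hnr E.e1 E.h11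
    rw [h.sl.f1, sub_zero] at h1
    linarith
  · have h1 := hnr E.e2 E.h22
    rw [h.sl.f2, sub_zero] at h1
    linarith
  · have h1 := hnr E.e3 E.h33
    rw [h.sl.f3] at h1
    have h2 := abs_nr_sub_le (im (k0 μ E p n)) (im p)
    have h3 := abs_le.1 (h2.trans hnear)
    have h4 := abs_le.1 h1
    rw [abs_le]
    constructor <;> linarith [h3.1, h3.2, h4.1, h4.2]

/-- the sheet is the same (`sp_base`) -/
theorem sp_k0 (h : QP P E p τ' z' n) {τ : ℂ} (hτ : ‖τ‖ ≤ 4 * P.rho) :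
    sp μ E (p + zc n) τ = sp μ E (k0 μ E p n) τ :=
  sp_base (q4_den h hτ) _

theorem q4_circle {τ' w₁ w₂ : ℂ} {r : ℝ} (hr : 0 ≤ r) (h1 : ‖w₁ - τ'‖ = r) (h2 : ‖w₂ - τ'‖ = r) :
    JoinedIn {τ : ℂ | ‖τ - τ'‖ = r} w₁ w₂ := by
  have h := isPathConnected_sphere (E := ℂ) (by rw [Complex.rank_real_complex]; norm_num) τ' hr
  have e : {τ : ℂ | ‖τ - τ'‖ = r} = Metric.sphere τ' r := by
    ext τ
    rw [Set.mem_ofPred_eq, mem_sphere_iff_norm]
  rw [e]
  exact h.joinedIn _ (by rw [mem_sphere_iff_norm]; exact h1) _ (by rw [mem_sphere_iff_norm]; exact h2)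

/-- Quiet points are not in `X_A` if no patch has class `A`. Proof: if `p' = pt p τ' z' ∈ X_A ⊆ F` then some `|q_n(p')| < 4M+8` (`hF.far`): `QP`.
`p' + n ∈ X_A` (`XX_per`), `p' + n = pt (p+n) τ' z'` (`pt_add_zc`), so `CA (sp τ')` (`CA_of_mem`; `QP.zet` for the size). `quiet_escape` and `CA_joined`
(continuity `NrC.continuousOn_sp`): class `A` on the circle `‖τ - τ'‖ = ρ'` (the circle is path connected). A 10-good vertical line `x ∈ [Re τ' - ρ'/2, Re τ' + ρ'/2]` of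
the patch `(k0, E)` (`exists_lineV_of`) crosses the circle at `x + it`, `|t| ≤ 3ρ/4`; `chi_iff` gives `Chi P F A k0 E`. -/
theorem quiet_notin (hF : Fsh μ M F) (D : Decomp F A B) (h : SL P p E) (hτ : ‖τ'‖ ≤ P.rho / 2)
    (hz : ‖z'‖ ≤ P.rho / 2) (hQ : Quiet P E p (τ', z'))
    (hC : ∀ (k : Cd 3) (V : ℝ), KC P k → P.b ^ 16 ≤ V → V ≤ P.rho * nr (im k) → Close P k V)
    (hOb : ∀ k : Cd 3, KC P k → NF P (P.b ^ 500 / 2) k → ObSum P k)
    (hX : ∀ k : Cd 3, RE P k E → nr (im k - im p) ≤ 10 * P.rho → ¬ Chi P F A k E) :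
    E.pt p τ' z' ∉ XX F A := by
  intro hmem
  have hρ := P.rho_pos
  have hM := P.M_nonneg
  have hK := P.K_pos
  obtain ⟨n, hn⟩ : ∃ n, ‖q μ (E.pt p τ' z') n‖ < 4 * M + 8 := by
    by_contra hcon
    push Not at hcon
    exact hF.far _ hcon (XX_subset_F D hmem)
  have hP : QP P E p τ' z' n := ⟨h, hτ, hz, hQ, hn.le⟩
  have hR := q4_R hP
  have hN := q4_nrc hP
  have hτ4 : ‖τ'‖ ≤ 4 * P.rho := hτ.trans (by linarith)
  have hmem' : E.pt (p + zc n) τ' z' ∈ XX F A := by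
    rw [← pt_add_zc]
    exact (XX_per D _ n).2 hmem
  have hself : ‖τ' - τ'‖ ≤ P.rho / 8 := by rw [sub_self, norm_zero]; positivity
  have him := abs_le.1 (q4_im hP hself)
  have hρ1 := P.rho_le_one
  have hCA : CA P F A (sp μ E (p + zc n) τ') := by
    refine CA_of_mem hN (q4_small hP hτ4) ?_ ?_ ?_ hmem'
    · linarith [him.2]
    · linarith [him.1]
    · rw [← q_pt]
      exact hn.le
  obtain ⟨r, hr1, hr2, hcirc, hjoin⟩ := quiet_escape hP hC
  have hr0 : 0 < r := lt_of_lt_of_le (by positivity) hr1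
  have hcont : ContinuousOn (sp μ E (p + zc n)) {τ : ℂ | ‖τ - τ'‖ ≤ P.rho / 8} :=
    hN.continuousOn_sp.mono fun τ hτ' => q4_small hP ((q4_near hP hτ').trans (by linarith))
  have hCA2 : CA P F A (sp μ E (p + zc n) (τ' + r)) := by
    refine CA_joined hF D (hcont.mono fun τ hτ' => hτ'.1) (fun τ hτ' => hτ'.2.mono (by norm_num)) hjoin hCA
  -- the patch
  obtain ⟨hRE, hnear⟩ := k0_re hP
  have hKC : KC P (k0 μ E p n) := by
    refine ⟨hRE.yy.mono (by norm_num), ?_⟩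
    rw [hRE.q0, norm_zero]
    positivity
  have hS : ObSum P (k0 μ E p n) := hOb _ hKC hRE.nf
  have hre := abs_le.1 ((Complex.abs_re_le_norm τ').trans hτ)
  have himt := abs_le.1 ((Complex.abs_im_le_norm τ').trans hτ)
  obtain ⟨x, hx, hl⟩ := exists_lineV_of hRE hS (a := τ'.re - r / 2) (c := τ'.re + r / 2) (by linarith [hre.1])
    (by linarith [hre.2]) (by linarith)
  obtain ⟨t, ht⟩ : ∃ t : ℝ, t = τ'.im + Real.sqrt (r ^ 2 - (x - τ'.re) ^ 2) := ⟨_, rfl⟩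
  have hsq : 0 ≤ r ^ 2 - (x - τ'.re) ^ 2 := by
    have h1 : |x - τ'.re| ≤ r / 2 := abs_le.2 ⟨by linarith [hx.1], by linarith [hx.2]⟩
    have h2 := sq_le_sq' (abs_le.1 h1).1 (abs_le.1 h1).2
    nlinarith
  have hs1 := Real.sq_sqrt hsq
  have hs0 := Real.sqrt_nonneg (r ^ 2 - (x - τ'.re) ^ 2)
  have hs2 : Real.sqrt (r ^ 2 - (x - τ'.re) ^ 2) ≤ r := by
    refine Real.sqrt_le_iff.2 ⟨hr0.le, ?_⟩
    nlinarith [sq_nonneg (x - τ'.re)]
  have hw : ‖((x : ℂ) + (t : ℂ) * Complex.I) - τ'‖ = r := by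
    have h1 : ‖((x : ℂ) + (t : ℂ) * Complex.I) - τ'‖ ^ 2 = r ^ 2 := by
      rw [← Complex.normSq_eq_norm_sq, Complex.normSq_apply]
      have e1 : (((x : ℂ) + (t : ℂ) * Complex.I) - τ').re = x - τ'.re := by simp
      have e2 : (((x : ℂ) + (t : ℂ) * Complex.I) - τ').im = Real.sqrt (r ^ 2 - (x - τ'.re) ^ 2) := by
        have : (((x : ℂ) + (t : ℂ) * Complex.I) - τ').im = t - τ'.im := by simp
        rw [this, ht]
        ring
      rw [e1, e2]
      nlinarith [hs1]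
    exact (pow_left_inj₀ (norm_nonneg _) hr0.le two_ne_zero).1 h1
  have hcirc' : ‖(τ' + r : ℂ) - τ'‖ = r := by
    rw [add_sub_cancel_left, Complex.norm_real, Real.norm_eq_abs, abs_of_pos hr0]
  have hCA3 : CA P F A (sp μ E (p + zc n) ((x : ℂ) + (t : ℂ) * Complex.I)) := by
    refine CA_joined hF D (S := {τ : ℂ | ‖τ - τ'‖ = r}) (hcont.mono fun τ hτ' => ?_) (fun τ hτ' => (hcirc τ hτ').mono (by norm_num))
      (q4_circle hr0.le hcirc' hw) hCA2
    have h1 : ‖τ - τ'‖ = r := hτ'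
    show ‖τ - τ'‖ ≤ P.rho / 8
    rw [h1]
    exact hr2
  have hx34 : |x| ≤ 3 / 4 * P.rho := abs_le.2 ⟨by linarith [hx.1, hre.1], by linarith [hx.2, hre.2]⟩
  have ht34 : |t| ≤ 3 / 4 * P.rho := abs_le.2 ⟨by linarith [himt.1], by linarith [himt.2]⟩
  have hwn : ‖(x : ℂ) + (t : ℂ) * Complex.I‖ ≤ 4 * P.rho :=
    (q4_near hP (by rw [hw]; exact hr2)).trans (by linarith)
  rw [sp_k0 hP hwn] at hCA3
  exact hX _ hRE hnear ((chi_iff hF D hRE hS hx34 (hl.mono (by norm_num)) ht34).2 hCA3)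

end H9F
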