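import Pool.Agent.Lib.H9F.Defs

/-!
# H9F S0: zeros on discs (uniqueness, existence)
-/

open scoped BigOperators Topology
open Set Filter

noncomputable section

namespace H9F

open Fermi

variable {M : ℝ} {μ : ℂ} {F : Set (Cd 3)}

/-- Lipschitz bound from the Cauchy estimate -/
theorem s0_deriv {e : ℂ → ℂ} {r C : ℝ} (hr : 0 < r) (hC : 0 ≤ C) (he : AnalyticOnNhd ℂ e (Metric.ball 0 r))
    (hB : ∀ z, ‖z‖ < r → ‖e z‖ ≤ C) {z : ℂ} (hz : ‖z‖ ≤ r / 2) : ‖deriv e z‖ ≤ C / (r / 2) := by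
  rw [le_div_iff₀ (by linarith)]
  by_contra hcon
  push Not at hcon
  set d := ‖deriv e z‖ with hd
  have hd0 : 0 < d := by
    by_contra h0
    have h1 : d ≤ 0 := not_lt.1 h0
    have h2 : d * (r / 2) ≤ 0 := mul_nonpos_of_nonpos_of_nonneg h1 (by linarith)
    linarith
  have h1 : C / d < r / 2 := by
    rw [div_lt_iff₀ hd0]
    linarith
  have h2 : 0 ≤ C / d := div_nonneg hC hd0.le
  set ρ := (C / d + r / 2) / 2 with hρ
  have h3 : 0 < ρ := by rw [hρ]; linarith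
  have h4 : ρ < r / 2 := by rw [hρ]; linarith
  have h5 : C / d < ρ := by rw [hρ]; linarith
  have hsub : Metric.closedBall z ρ ⊆ Metric.ball 0 r := by
    intro x hx
    rw [Metric.mem_closedBall, dist_eq_norm] at hx
    rw [Metric.mem_ball, dist_zero_right]
    have h6 : ‖x‖ ≤ ‖x - z‖ + ‖z‖ := by
      simpa using norm_add_le (x - z) z
    linarith
  have h6 : DiffContOnCl ℂ e (Metric.ball z ρ) := by
    refine DifferentiableOn.diffContOnCl ?_
    rw [closure_ball z h3.ne']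
    exact (he.differentiableOn).mono hsub
  have h7 := Complex.norm_deriv_le_of_forall_mem_sphere_norm_le h3 h6 (C := C) (fun x hx => by
    apply hB
    have := hsub (Metric.sphere_subset_closedBall hx)
    simpa using this)
  rw [le_div_iff₀ h3] at h7
  rw [div_lt_iff₀ hd0] at h5
  have h8 : ρ * d = d * ρ := mul_comm _ _
  linarith

theorem s0_lip {e : ℂ → ℂ} {r C : ℝ} (hr : 0 < r) (hC : 0 ≤ C) (he : AnalyticOnNhd ℂ e (Metric.ball 0 r))
    (hB : ∀ z, ‖z‖ < r → ‖e z‖ ≤ C) {z₁ z₂ : ℂ} (h₁ : ‖z₁‖ ≤ r / 2) (h₂ : ‖z₂‖ ≤ r / 2) :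
    ‖e z₂ - e z₁‖ ≤ C / (r / 2) * ‖z₂ - z₁‖ := by
  have hconv : Convex ℝ (Metric.closedBall (0 : ℂ) (r / 2)) := convex_closedBall _ _
  refine hconv.norm_image_sub_le_of_norm_deriv_le (fun x hx => ?_) (fun x hx => ?_) (by simpa using h₁) (by simpa using h₂)
  · refine (he x ?_).differentiableAt
    rw [Metric.mem_closedBall, dist_zero_right] at hx
    rw [Metric.mem_ball, dist_zero_right]
    linarith
  · rw [Metric.mem_closedBall, dist_zero_right] at hx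
    exact s0_deriv hr hC he hB hx

/-- `q_0(k + zv) = q_0(k) + 2z k·v + z² v·v` -/
theorem q0_line (μ : ℂ) (k v : Cd 3) (z : ℂ) :
    q μ (k + z • v) 0 = q μ k 0 + 2 * z * bil k v + z ^ 2 * bil v v := by
  rw [q_zero, q_zero]
  simp only [bil3, Pi.add_apply, Pi.smul_apply, smul_eq_mul]
  ring


/-- Uniqueness. Proof: take `e` from `Fsh.one` (site `0`). `|e'| ≤ 2(M+1)/(r/2)` on `|z| ≤ r/2` (Cauchy estimate,
e.g. `Complex.norm_deriv_le_of_forall_mem_sphere_norm_le` on spheres of radius `ρ' < r/2`, or the lemma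
`Fermi.cauchy1`/`line_lip` in `Lib/Fermi/OpEff.lean`), so `|e z₁ - e z₂| ≤ 4(M+1)/r |z₁ - z₂|`
while `q_0(z₁) - q_0(z₂) = (z₁ - z₂)(2 k·v + (z₁+z₂) v·v)`. -/
theorem disc_unique (hM : 0 ≤ M) (hF : Fsh μ M F) {k v : Cd 3} {r : ℝ} (hr : 0 < r)
    (hq : ∀ z : ℂ, ‖z‖ ≤ r → ∀ m, m ≠ 0 → 4 * M + 8 ≤ ‖q μ (k + z • v) m‖)
    (hb : ‖bil v v‖ * r + 4 * (M + 1) / r < 2 * ‖bil k v‖) {z₁ z₂ : ℂ} (h₁ : ‖z₁‖ ≤ r / 2)
    (h₂ : ‖z₂‖ ≤ r / 2) (hz₁ : k + z₁ • v ∈ F) (hz₂ : k + z₂ • v ∈ F) : z₁ = z₂ := by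
  obtain ⟨e, he, hB, hF'⟩ := hF.one k v r 0 hr hq
  have hC : (0 : ℝ) ≤ 2 * (M + 1) := by linarith
  have hl := s0_lip hr hC he hB h₂ h₁
  have e1 := (hF' z₁ (by linarith)).1 hz₁
  have e2 := (hF' z₂ (by linarith)).1 hz₂
  rw [q0_line] at e1 e2
  have e3 : (z₁ - z₂) * (2 * bil k v + (z₁ + z₂) * bil v v) = -(e z₁ - e z₂) := by
    linear_combination e1 - e2
  by_contra hne
  have hd : 0 < ‖z₁ - z₂‖ := norm_pos_iff.2 (sub_ne_zero.2 hne)
  have e4 : ‖z₁ - z₂‖ * ‖2 * bil k v + (z₁ + z₂) * bil v v‖ ≤ 2 * (M + 1) / (r / 2) * ‖z₁ - z₂‖ := by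
    rw [← norm_mul, e3, norm_neg]
    exact hl
  have e5 : ‖2 * bil k v + (z₁ + z₂) * bil v v‖ ≤ 2 * (M + 1) / (r / 2) := by
    rw [mul_comm] at e4
    exact le_of_mul_le_mul_right e4 hd
  have e6 : 2 * ‖bil k v‖ ≤ ‖2 * bil k v + (z₁ + z₂) * bil v v‖ + ‖bil v v‖ * r := by
    have h3 : (2 : ℂ) * bil k v = (2 * bil k v + (z₁ + z₂) * bil v v) - (z₁ + z₂) * bil v v := by ring
    have h4 : ‖(2 : ℂ) * bil k v‖ = 2 * ‖bil k v‖ := by rw [norm_mul, Complex.norm_two]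
    rw [← h4, h3]
    refine (norm_sub_le _ _).trans (add_le_add (le_of_eq (by rw [sub_add_cancel])) ?_)
    rw [norm_mul, mul_comm]
    refine mul_le_mul_of_nonneg_left ?_ (norm_nonneg _)
    exact (norm_add_le _ _).trans (by linarith)
  have e7 : 2 * (M + 1) / (r / 2) = 4 * (M + 1) / r := by
    field_simp
    ring
  rw [e7] at e5
  linarith


/-- Existence. Proof: `T z = -(q_0(k) + z² v·v + e z)/(2 k·v)` maps the closed ball of radius `ρ ≤ r/2` to itself and is a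
contraction there (same Lipschitz estimate of `e`): Banach fixed point (`ContractingWith` on the complete set
`Metric.closedBall 0 ρ`; the Lipschitz constant is `(‖v·v‖ r + 4(M+1)/r)/(2|k·v|) < 1`). -/
theorem disc_exists (hM : 0 ≤ M) (hF : Fsh μ M F) {k v : Cd 3} {r : ℝ} (hr : 0 < r)
    (hq : ∀ z : ℂ, ‖z‖ ≤ r → ∀ m, m ≠ 0 → 4 * M + 8 ≤ ‖q μ (k + z • v) m‖)
    (hb : ‖bil v v‖ * r + 4 * (M + 1) / r < 2 * ‖bil k v‖) {ρ : ℝ} (hρ : 0 < ρ) (hρr : ρ ≤ r / 2)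
    (h : ‖q μ k 0‖ + ‖bil v v‖ * ρ ^ 2 + 2 * (M + 1) ≤ 2 * ‖bil k v‖ * ρ) :
    ∃ z : ℂ, ‖z‖ ≤ ρ ∧ k + z • v ∈ F := by
  obtain ⟨e, he, hB, hF'⟩ := hF.one k v r 0 hr hq
  have hC : (0 : ℝ) ≤ 2 * (M + 1) := by linarith
  have hkv : 0 < ‖bil k v‖ := by
    have h1 : 0 ≤ ‖bil v v‖ * r := mul_nonneg (norm_nonneg _) hr.le
    have h2 : 0 ≤ 4 * (M + 1) / r := div_nonneg (by linarith) hr.le
    linarith
  have hkv0 : bil k v ≠ 0 := norm_pos_iff.1 hkv
  set T : ℂ → ℂ := fun z => -(q μ k 0 + z ^ 2 * bil v v + e z) / (2 * bil k v) with hT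
  have hnorm : ‖2 * bil k v‖ = 2 * ‖bil k v‖ := by rw [norm_mul, Complex.norm_two]
  have hmaps : MapsTo T (Metric.closedBall (0 : ℂ) ρ) (Metric.closedBall 0 ρ) := by
    intro z hz
    rw [Metric.mem_closedBall, dist_zero_right] at hz ⊢
    rw [hT]
    simp only
    rw [norm_div, norm_neg, hnorm, div_le_iff₀ (by linarith)]
    have h1 : ‖q μ k 0 + z ^ 2 * bil v v + e z‖ ≤ ‖q μ k 0‖ + ‖bil v v‖ * ρ ^ 2 + 2 * (M + 1) := by
      refine (norm_add_le _ _).trans (add_le_add ((norm_add_le _ _).trans (add_le_add le_rfl ?_)) (hB z (by linarith)))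
      rw [norm_mul, norm_pow, mul_comm]
      exact mul_le_mul_of_nonneg_left (pow_le_pow_left₀ (norm_nonneg _) hz 2) (norm_nonneg _)
    refine h1.trans (h.trans (le_of_eq ?_))
    ring
  set L : ℝ := (‖bil v v‖ * r + 4 * (M + 1) / r) / (2 * ‖bil k v‖) with hL
  have hL0 : 0 ≤ L := by
    have h1 : 0 ≤ ‖bil v v‖ * r := mul_nonneg (norm_nonneg _) hr.le
    have h2 : 0 ≤ 4 * (M + 1) / r := div_nonneg (by linarith) hr.le
    exact div_nonneg (by linarith) (by linarith)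
  have hL1 : L < 1 := by
    rw [hL, div_lt_one (by linarith)]
    exact hb
  have hlip : ∀ z₁ z₂ : ℂ, ‖z₁‖ ≤ ρ → ‖z₂‖ ≤ ρ → ‖T z₁ - T z₂‖ ≤ L * ‖z₁ - z₂‖ := by
    intro z₁ z₂ h₁ h₂
    have hl := s0_lip hr hC he hB (z₁ := z₂) (z₂ := z₁) (by linarith) (by linarith)
    have e1 : T z₁ - T z₂ = -((z₁ - z₂) * ((z₁ + z₂) * bil v v) + (e z₁ - e z₂)) / (2 * bil k v) := by
      rw [hT]
      field_simp
      ring
    rw [e1, norm_div, norm_neg, hnorm, hL, div_mul_eq_mul_div]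
    refine div_le_div_of_nonneg_right ?_ (by linarith)
    refine (norm_add_le _ _).trans ?_
    rw [norm_mul, norm_mul, add_mul]
    refine add_le_add ?_ ?_
    · rw [mul_comm ‖z₁ - z₂‖]
      refine mul_le_mul_of_nonneg_right ?_ (norm_nonneg _)
      rw [mul_comm]
      refine mul_le_mul_of_nonneg_left ?_ (norm_nonneg _)
      exact (norm_add_le _ _).trans (by linarith)
    · have e7 : 2 * (M + 1) / (r / 2) = 4 * (M + 1) / r := by
        field_simp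
        ring
      rw [e7] at hl
      exact hl
  have hcontr : ContractingWith ⟨L, hL0⟩ (hmaps.restrict T (Metric.closedBall (0 : ℂ) ρ) (Metric.closedBall 0 ρ)) := by
    refine ⟨?_, LipschitzWith.of_dist_le_mul fun x y => ?_⟩
    · rw [← NNReal.coe_lt_coe]
      exact hL1
    · rw [Subtype.dist_eq, Subtype.dist_eq, dist_eq_norm, dist_eq_norm]
      have hx := x.2
      have hy := y.2
      rw [Metric.mem_closedBall, dist_zero_right] at hx hy
      exact hlip x y hx hy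
  have hcomp : IsComplete (Metric.closedBall (0 : ℂ) ρ) := Metric.isClosed_closedBall.isComplete
  obtain ⟨z, hz, hfix, _⟩ := hcontr.exists_fixedPoint' hcomp hmaps (x := 0) (by simp [hρ.le]) (edist_ne_top _ _)
  rw [Metric.mem_closedBall, dist_zero_right] at hz
  refine ⟨z, hz, ?_⟩
  rw [hF' z (by linarith), q0_line]
  have h2 : T z = z := hfix
  rw [hT] at h2
  simp only at h2
  rw [div_eq_iff (mul_ne_zero two_ne_zero hkv0)] at h2
  linear_combination -h2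


end H9F
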