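import Pool.Agent.Lib.H9F.S0
import Pool.Agent.Lib.H9F.G4

/-!
# H9F S1: the class of a good sheet point

`k` good (level 3), `v = conj k / |k|` (`nc v = 1`, `bil k v = nc k`, `bil v v = conj(k·k)/|k|² = conj μ/|k|²`), `R = nr (im k)`,
`nc k ² = 2 R² + Re μ`, `eta = K/(1000 R)`. All `|q_m| ≥ 2K ≥ 4M+8` in the ball of radius `3 eta` (`q_stable`).
-/

open scoped BigOperators Topology
open Set Filter

noncomputable section

namespace H9F

open Fermi

variable {M : ℝ} {μ : ℂ} {P : Big M μ} {F A B : Set (Cd 3)}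

/-- the direction `conj k / |k|` -/
def s1v (k : Cd 3) : Cd 3 := fun j => (starRingEnd ℂ) (k j) / (nc k : ℂ)

theorem s1_nc (k : Cd 3) (h : 0 < nc k) : nc (s1v k) = 1 := by
  have h1 : nc (s1v k) ^ 2 = 1 := by
    rw [nc_sq3]
    simp only [s1v, norm_div, Complex.norm_conj, Complex.norm_real, Real.norm_eq_abs, abs_of_pos h]
    have h2 := nc_sq3 k
    field_simp
    linarith
  have h2 := nc_nonneg (s1v k)
  nlinarith

theorem s1_kv (k : Cd 3) (h : 0 < nc k) : bil k (s1v k) = (nc k : ℂ) := by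
  have h0 : (nc k : ℂ) ≠ 0 := by exact_mod_cast h.ne'
  have h2 : (nc k : ℂ) ^ 2 = k 0 * (starRingEnd ℂ) (k 0) + k 1 * (starRingEnd ℂ) (k 1) + k 2 * (starRingEnd ℂ) (k 2) := by
    simp only [Complex.mul_conj, Complex.normSq_eq_norm_sq]
    exact_mod_cast nc_sq3 k
  rw [bil3]
  simp only [s1v]
  field_simp
  rw [h2]

theorem s1_vv (k : Cd 3) (h : 0 < nc k) : ‖bil (s1v k) (s1v k)‖ = ‖bil k k‖ / nc k ^ 2 := by
  have h0 : (nc k : ℂ) ≠ 0 := by exact_mod_cast h.ne'
  have h1 : bil (s1v k) (s1v k) = (starRingEnd ℂ) (bil k k) / (nc k : ℂ) ^ 2 := by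
    rw [bil3, bil3]
    simp only [s1v, map_add, map_mul]
    field_simp
  rw [h1, norm_div, Complex.norm_conj, norm_pow, Complex.norm_real, Real.norm_eq_abs, abs_of_pos h]

/-- constants at a good point -/
theorem s1_consts {k : Cd 3} {κ : ℝ} (hk : Good P κ k) : 0 < nr (im k) ∧ nr (im k) ≤ nc k ∧
    nc k ≤ 2 * nr (im k) ∧ ‖bil (s1v k) (s1v k)‖ ≤ 1 ∧ 0 < eta P k ∧ eta P k ≤ 1 / 1000 ∧
    eta P k * nr (im k) = P.K / 1000 ∧ 10 ^ 6 ≤ nr (im k) ∧ 10 ^ 6 * (M + 1) ≤ P.K ∧ 0 ≤ M := by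
  have hb := P.one_le_b
  have hbb := P.b_ge
  have hR : P.b ^ 9000 ≤ nr (im k) := hk.big
  have hR2 : 10 * P.b ^ 1 ≤ P.b ^ 9000 := P.mul_pow_le (by norm_num) (by norm_num)
  rw [pow_one] at hR2
  have hR3 : 10 * P.b ≤ nr (im k) := hR2.trans hR
  have hR0 : 0 < nr (im k) := by linarith
  have hmu := P.mu_le_b
  have h1 := nc_sq k
  have h2 := q0_re μ k
  rw [hk.q0, Complex.zero_re] at h2
  have h3 := Complex.abs_re_le_norm μ
  have h4 := abs_le.1 (h3.trans hmu)
  have hsq : 10 * P.b ≤ nr (im k) ^ 2 := by nlinarith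
  have hn1 : nr (im k) ≤ nc k := nr_im_le k
  have hn0 : 0 < nc k := by linarith
  have hn2 : nc k ≤ 2 * nr (im k) := by
    refine le_of_sq_le_sq ?_ (by linarith)
    nlinarith [h4.1, h4.2]
  have hkk : bil k k = μ := by
    have h5 := q_zero μ k
    rw [hk.q0] at h5
    linear_combination -h5
  have hvv : ‖bil (s1v k) (s1v k)‖ ≤ 1 := by
    rw [s1_vv k hn0, hkk, div_le_one (by positivity)]
    nlinarith
  have hK := P.K_pos
  have hKle := P.K_le
  refine ⟨hR0, hn1, hn2, hvv, by unfold eta; positivity, ?_, ?_, ?_, P.K_ge, P.M_nonneg⟩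
  · unfold eta
    rw [div_le_div_iff₀ (by positivity) (by norm_num)]
    have h6 : P.K ≤ P.b := by
      refine le_trans ?_ hKle
      exact le_mul_of_one_le_left hK.le (by norm_num)
    linarith
  · unfold eta
    field_simp
  · linarith

/-- `disc_exists` at `k` with radius `ρ = eta/20`, `r = eta`: `2 nc k ρ ≥ 2.8 R K/(20000 R) ≥ 100 (M+1)`. -/
theorem good_F (hF : Fsh μ M F) {k : Cd 3} (hk : Good P 3 k) :
    ∃ k' ∈ F, ‖k' - k‖ ≤ eta P k / 20 := by
  obtain ⟨hR0, hn1, hn2, hvv, he0, he1, heR, hR6, hKM, hM⟩ := s1_consts hk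
  have hn0 : 0 < nc k := by linarith
  have hkv : ‖bil k (s1v k)‖ = nc k := by
    rw [s1_kv k hn0, Complex.norm_real, Real.norm_eq_abs, abs_of_pos hn0]
  have hv := s1_nc k hn0
  have hsm : ∀ z : ℂ, ‖z • s1v k‖ ≤ ‖z‖ := by
    intro z
    rw [norm_smul]
    have h1 := norm_le_nc (s1v k)
    rw [hv] at h1
    exact mul_le_of_le_one_right (norm_nonneg _) h1
  have hq : ∀ z : ℂ, ‖z‖ ≤ eta P k → ∀ m, m ≠ 0 → 4 * M + 8 ≤ ‖q μ (k + z • s1v k) m‖ := by
    intro z hz m hm
    have h1 := q_stable (k' := k + z • s1v k) hk.big (by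
      rw [add_sub_cancel_left]
      exact (hsm z).trans (by linarith)) m (κ := 3) (by norm_num) (by norm_num) (hk.far m hm)
    nlinarith
  have h4 : 4 * (M + 1) / eta P k ≤ nr (im k) / 250 := by
    rw [div_le_div_iff₀ he0 (by norm_num)]
    nlinarith
  obtain ⟨z, hz, hzF⟩ := disc_exists hM hF (k := k) (v := s1v k) (r := eta P k) he0 hq (by
    rw [hkv]
    nlinarith) (ρ := eta P k / 20) (by linarith) (by linarith) (by
    rw [hkv, hk.q0, norm_zero, zero_add]
    have h5 : ‖bil (s1v k) (s1v k)‖ * (eta P k / 20) ^ 2 ≤ 1 * (eta P k / 20) ^ 2 :=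
      mul_le_mul_of_nonneg_right hvv (by positivity)
    have h6 : eta P k * nr (im k) ≤ eta P k * nc k := mul_le_mul_of_nonneg_left hn1 he0.le
    nlinarith)
  refine ⟨k + z • s1v k, hzF, ?_⟩
  rw [add_sub_cancel_left]
  exact (hsm z).trans hz


/-- Proof: path `c t = k' + t (k'' - k')`, discs of radius `eta` in direction `v`: `disc_path` (Fermi/SCV). Boundary points are not in
`F` (`hF.far`): `|q_0(c t)| ≤ 2 nc(c t - k) nc k + nc(c t - k)² ≤ 1.76 eta nc k` (use `nc_le'`: `nc x ≤ 7/4 ‖x‖`), `|2 z (c t)·v| ≥ 1.99 eta nc k`, so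
`|q_0| ≥ .2 eta nc k ≥ 2·10⁻⁴ K ≥ 4M+8`. So `X_A` meets the disc at `k''`, and by `disc_unique` (radius `r = 2 eta`)
the only point of `F` in this disc is `k''`. -/
theorem good_all (hF : Fsh μ M F) (D : Decomp F A B) {k : Cd 3} (hk : Good P 3 k) {k' k'' : Cd 3}
    (h' : k' ∈ XX F A) (hk' : ‖k' - k‖ ≤ eta P k / 2) (h'' : k'' ∈ F)
    (hk'' : ‖k'' - k‖ ≤ eta P k / 2) : k'' ∈ XX F A := by
  obtain ⟨hR0, hn1, hn2, hvv, he0, he1, heR, hR6, hKM, hM⟩ := s1_consts hk
  have hn0 : 0 < nc k := by linarith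
  have hkv : ‖bil k (s1v k)‖ = nc k := by
    rw [s1_kv k hn0, Complex.norm_real, Real.norm_eq_abs, abs_of_pos hn0]
  have hv := s1_nc k hn0
  have hsm : ∀ z : ℂ, ‖z • s1v k‖ ≤ ‖z‖ := by
    intro z
    rw [norm_smul]
    have h1 := norm_le_nc (s1v k)
    rw [hv] at h1
    exact mul_le_of_le_one_right (norm_nonneg _) h1
  have heR' : P.K / 1000 ≤ eta P k * nc k := by
    rw [← heR]
    exact mul_le_mul_of_nonneg_left hn1 he0.le
  -- points near `k`
  have hx : ∀ c : Cd 3, ‖c - k‖ ≤ eta P k / 2 → nc k - 7 / 8 * eta P k ≤ ‖bil c (s1v k)‖ := by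
    intro c hc
    have h1 : nc (c - k) ≤ 7 / 8 * eta P k := (nc_le' _).trans (by linarith)
    have h2 : bil k (s1v k) = bil c (s1v k) - bil (c - k) (s1v k) := by
      rw [bil_sub_left]; ring
    have h3 : ‖bil (c - k) (s1v k)‖ ≤ 7 / 8 * eta P k := by
      refine (norm_bil_le _ _).trans ?_
      rw [hv, mul_one]
      exact h1
    have h4 : nc k ≤ ‖bil c (s1v k)‖ + ‖bil (c - k) (s1v k)‖ := by
      rw [← hkv, h2]
      exact norm_sub_le _ _
    linarith
  have hfar : ∀ c : Cd 3, ‖c - k‖ ≤ eta P k / 2 → ∀ z : ℂ, ‖z‖ ≤ 2 * eta P k → ∀ m : Zd 3, m ≠ 0 →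
      4 * M + 8 ≤ ‖q μ (c + z • s1v k) m‖ := by
    intro c hc z hz m hm
    have h1 := q_stable (k' := c + z • s1v k) hk.big (by
      have h2 : c + z • s1v k - k = (c - k) + z • s1v k := by abel
      rw [h2]
      refine (norm_add_le _ _).trans ?_
      have h3 := hsm z
      linarith) m (κ := 3) (by norm_num) (by norm_num) (hk.far m hm)
    nlinarith
  have hconv : ∀ t ∈ Icc (0 : ℝ) 1, ‖(k' + (t : ℂ) • (k'' - k')) - k‖ ≤ eta P k / 2 := by
    intro t ht
    have h1 : (k' + (t : ℂ) • (k'' - k')) - k = ((1 - t : ℝ) : ℂ) • (k' - k) + (t : ℂ) • (k'' - k) := by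
      funext j
      simp only [Pi.add_apply, Pi.sub_apply, Pi.smul_apply, smul_eq_mul]
      push_cast
      ring
    rw [h1]
    refine (norm_add_le _ _).trans ?_
    rw [norm_smul, norm_smul, Complex.norm_real, Complex.norm_real, Real.norm_eq_abs, Real.norm_eq_abs,
      abs_of_nonneg ht.1, abs_of_nonneg (by linarith [ht.2] : (0 : ℝ) ≤ 1 - t)]
    have h2 := mul_le_mul_of_nonneg_left hk' (by linarith [ht.2] : (0 : ℝ) ≤ 1 - t)
    have h3 := mul_le_mul_of_nonneg_left hk'' ht.1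
    linarith
  have hbd : ∀ c : Cd 3, ‖c - k‖ ≤ eta P k / 2 → ∀ z : ℂ, ‖z‖ = eta P k → c + z • s1v k ∉ F := by
    intro c hc z hz
    apply hF.far
    intro n
    by_cases hn : n = 0
    · subst hn
      rw [q0_line]
      have h1 : nc (c - k) ≤ 7 / 8 * eta P k := (nc_le' _).trans (by linarith)
      have h2 : q μ c 0 = 2 * bil k (c - k) + bil (c - k) (c - k) := by
        have h3 := q0_line μ k (c - k) 1
        rw [one_smul, add_sub_cancel, hk.q0] at h3
        rw [h3]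
        ring
      have h3 : ‖q μ c 0‖ ≤ 7 / 4 * eta P k * nc k + (7 / 8 * eta P k) ^ 2 := by
        rw [h2]
        refine (norm_add_le _ _).trans ?_
        rw [norm_mul, Complex.norm_two]
        have h4 := norm_bil_le k (c - k)
        have h5 := norm_bil_le (c - k) (c - k)
        have h6 : nc k * nc (c - k) ≤ nc k * (7 / 8 * eta P k) := mul_le_mul_of_nonneg_left h1 hn0.le
        have h7 : nc (c - k) * nc (c - k) ≤ (7 / 8 * eta P k) * (7 / 8 * eta P k) :=
          mul_le_mul h1 h1 (nc_nonneg _) (by positivity)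
        linarith
      have h4 := hx c hc
      have h5 : ‖2 * z * bil c (s1v k)‖ = 2 * eta P k * ‖bil c (s1v k)‖ := by
        rw [norm_mul, norm_mul, Complex.norm_two, hz]
      have h6 : ‖z ^ 2 * bil (s1v k) (s1v k)‖ ≤ eta P k ^ 2 := by
        rw [norm_mul, norm_pow, hz]
        exact mul_le_of_le_one_right (by positivity) hvv
      have h7 : ‖2 * z * bil c (s1v k)‖ ≤ ‖q μ c 0 + 2 * z * bil c (s1v k) + z ^ 2 * bil (s1v k) (s1v k)‖ +
          ‖q μ c 0‖ + ‖z ^ 2 * bil (s1v k) (s1v k)‖ := by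
        have h8 : 2 * z * bil c (s1v k) = (q μ c 0 + 2 * z * bil c (s1v k) + z ^ 2 * bil (s1v k) (s1v k)) -
            q μ c 0 - z ^ 2 * bil (s1v k) (s1v k) := by ring
        calc ‖2 * z * bil c (s1v k)‖ = ‖(q μ c 0 + 2 * z * bil c (s1v k) + z ^ 2 * bil (s1v k) (s1v k)) -
            q μ c 0 - z ^ 2 * bil (s1v k) (s1v k)‖ := by rw [← h8]
          _ ≤ _ := (norm_sub_le _ _).trans (add_le_add (norm_sub_le _ _) le_rfl)
      rw [h5] at h7
      have h8 : 2 * eta P k * (nc k - 7 / 8 * eta P k) ≤ 2 * eta P k * ‖bil c (s1v k)‖ :=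
        mul_le_mul_of_nonneg_left h4 (by linarith)
      have h9 : eta P k * eta P k ≤ eta P k * (1 / 1000) := mul_le_mul_of_nonneg_left he1 he0.le
      nlinarith
    · exact hfar c hc z (by linarith) n hn
  have hpath := disc_path D (fun t : ℝ => k' + (t : ℂ) • (k'' - k')) (by fun_prop) (s1v k) he0
    (fun t ht z hz => hbd _ (hconv t ht) z hz) ⟨0, by rw [norm_zero]; exact he0.le, by
      simpa using h'⟩ 1 ⟨zero_le_one, le_rfl⟩
  obtain ⟨z, hz, hzX⟩ := hpath
  have hend : k' + ((1 : ℝ) : ℂ) • (k'' - k') = k'' := by simp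
  simp only [hend] at hzX
  have hu := disc_unique hM hF (k := k'') (v := s1v k) (r := 2 * eta P k) (by linarith)
    (fun z hz m hm => hfar k'' hk'' z hz m hm) (by
      have h1 := hx k'' hk''
      have h4 : 4 * (M + 1) / (2 * eta P k) ≤ nr (im k) / 250 := by
        rw [div_le_div_iff₀ (by linarith) (by norm_num)]
        nlinarith
      nlinarith [norm_nonneg (bil (s1v k) (s1v k))]) (z₁ := 0) (z₂ := z) (by rw [norm_zero]; linarith) (by linarith)
    (by rw [zero_smul, add_zero]; exact h'') (XX_subset_F D hzX)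
  rw [← hu, zero_smul, add_zero] at hzX
  exact hzX


/-- If `X_A` and `X_B` both meet the ball then all `F`-points of the ball of radius `eta/2` are in `X_A ∩ X_B ⊆ A ∩ B`,
(`XX_subset`), but `X_A` is the closure of `F \ A`: there are points of `F \ A` in the ball. -/
theorem good_excl (hF : Fsh μ M F) (D : Decomp F A B) {k : Cd 3} (hk : Good P 3 k) :
    ¬ (CA P F A k ∧ CA P F B k) := by
  rintro ⟨⟨k', hk', hd'⟩, ⟨k'', hk'', hd''⟩⟩
  obtain ⟨hR0, hn1, hn2, hvv, he0, he1, heR, hR6, hKM, hM⟩ := s1_consts hk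
  have h1 : k' ∈ closure (F \ A) := hk'
  rw [Metric.mem_closure_iff] at h1
  obtain ⟨f, ⟨hfF, hfA⟩, hfd⟩ := h1 (eta P k / 4) (by linarith)
  have h2 : ‖f - k‖ ≤ eta P k / 2 := by
    have h3 : f - k = -(k' - f) + (k' - k) := by abel
    rw [h3]
    refine (norm_add_le _ _).trans ?_
    rw [norm_neg]
    rw [dist_eq_norm] at hfd
    linarith
  have h3 := good_all hF D.symm hk hk'' (hd''.trans (by linarith)) hfF h2
  exact hfA (XX_subset D.symm h3)


end H9F
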