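import Pool.Agent.Lib.H9F.S1

/-!
# H9F S2: the class is locally constant
-/

open scoped BigOperators Topology
open Set Filter

noncomputable section

namespace H9F

open Fermi

variable {M : ℝ} {μ : ℂ} {P : Big M μ} {F A B : Set (Cd 3)}

/-- Proof: `nr (im k')` and `nr (im k)` differ by at most `2‖k'-k‖`, so `eta k'` and `eta k` agree up to 1 %.
`F` has a point `k''` in the ball `eta k'/20` around `k'` (`good_F`); it is within `eta k/2` of `k`, hence in `X_A` by `good_all`. -/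
theorem CA_near (hF : Fsh μ M F) (D : Decomp F A B) {k k' : Cd 3} (hk : Good P 3 k)
    (hk' : Good P 3 k') (h : ‖k' - k‖ ≤ eta P k / 100) (hA : CA P F A k) : CA P F A k' := by
  obtain ⟨hR0, hn1, hn2, hvv, he0, he1, heR, hR6, hKM, hM⟩ := s1_consts hk
  obtain ⟨hR0', hn1', hn2', hvv', he0', he1', heR', hR6', _, _⟩ := s1_consts hk'
  have h1 : |nr (im k') - nr (im k)| ≤ 1 := by
    have h2 := abs_nr_sub_le (im k') (im k)
    have h3 : nr (im k' - im k) ≤ 2 * ‖k' - k‖ := by
      rw [← im_sub]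
      exact (nr_im_le _).trans (nc_le _)
    linarith
  have h1' := (abs_le.1 h1).1
  have h2 : eta P k' ≤ 2 * eta P k := by
    refine le_of_mul_le_mul_right ?_ hR0'
    rw [heR', ← heR, mul_assoc, mul_comm 2, mul_assoc]
    refine mul_le_mul_of_nonneg_left ?_ he0.le
    linarith
  obtain ⟨k'', hF'', hd''⟩ := good_F hF hk'
  obtain ⟨k₀, hk₀, hd₀⟩ := hA
  have h3 : ‖k'' - k‖ ≤ eta P k / 2 := by
    have h4 : k'' - k = (k'' - k') + (k' - k) := by abel
    rw [h4]
    refine (norm_add_le _ _).trans ?_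
    linarith
  exact ⟨k'', good_all hF D hk hk₀ (hd₀.trans (by linarith)) hF'' h3, hd''.trans (by linarith)⟩


/-- along continuous paths of good points (`[0,1]` is preconnected; `CA_near` both ways, `nr (im (γ t))` is bounded
on `[0,1]` so `eta` is bounded below) -/
theorem CA_path (hF : Fsh μ M F) (D : Decomp F A B) (γ : ℝ → Cd 3) (hγ : ContinuousOn γ (Icc 0 1))
    (hg : ∀ t ∈ Icc (0 : ℝ) 1, Good P 3 (γ t)) (hA : CA P F A (γ 0)) : CA P F A (γ 1) := by
  obtain ⟨C, hC⟩ := isCompact_Icc.exists_bound_of_continuousOn hγ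
  have hC0 : 0 < max C 1 := lt_of_lt_of_le one_pos (le_max_right _ _)
  set η₀ : ℝ := P.K / (1000 * (2 * max C 1)) with hη
  have hK := P.K_pos
  have hη0 : 0 < η₀ := by positivity
  have heta : ∀ t ∈ Icc (0 : ℝ) 1, η₀ ≤ eta P (γ t) := by
    intro t ht
    obtain ⟨hR0, _⟩ := s1_consts (hg t ht)
    unfold eta
    rw [hη]
    refine div_le_div_of_nonneg_left hK.le (by positivity) ?_
    refine mul_le_mul_of_nonneg_left ?_ (by norm_num)
    refine (nr_im_le _).trans ((nc_le _).trans ?_)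
    exact mul_le_mul_of_nonneg_left ((hC t ht).trans (le_max_left _ _)) (by norm_num)
  have huc := isCompact_Icc.uniformContinuousOn_of_continuous hγ
  rw [Metric.uniformContinuousOn_iff] at huc
  obtain ⟨δ, hδ, hd⟩ := huc (η₀ / 100) (by positivity)
  obtain ⟨n, hn⟩ := exists_nat_one_div_lt hδ
  have hn0 : (0 : ℝ) < n + 1 := by positivity
  have hmem : ∀ i : ℕ, i ≤ n + 1 → (i : ℝ) / (n + 1) ∈ Icc (0 : ℝ) 1 := by
    intro i hi
    refine ⟨by positivity, ?_⟩
    rw [div_le_one hn0]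
    exact_mod_cast hi
  have key : ∀ i : ℕ, i ≤ n + 1 → CA P F A (γ ((i : ℝ) / (n + 1))) := by
    intro i
    induction i with
    | zero =>
      intro _
      simpa using hA
    | succ i ih =>
      intro hi
      have h1 := ih (by omega)
      have hm1 := hmem i (by omega)
      have hm2 := hmem (i + 1) hi
      refine CA_near hF D (hg _ hm1) (hg _ hm2) ?_ h1
      have h2 := hd _ hm2 _ hm1 (by
        rw [Real.dist_eq]
        have h3 : (((i + 1 : ℕ) : ℝ)) / (n + 1) - (i : ℝ) / (n + 1) = 1 / (n + 1) := by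
          push_cast
          ring
        rw [h3, abs_of_pos (by positivity)]
        exact hn)
      rw [dist_eq_norm] at h2
      have h4 := heta _ hm1
      linarith
  have h5 := key (n + 1) le_rfl
  have h6 : (((n + 1 : ℕ) : ℝ)) / (n + 1) = 1 := by
    push_cast
    exact div_self hn0.ne'
  rw [h6] at h5
  exact h5


/-- along `JoinedIn` in a set of parameters: `f` continuous on `S`, `f x` good for `x ∈ S` -/
theorem CA_joined (hF : Fsh μ M F) (D : Decomp F A B) {S : Set ℂ} {f : ℂ → Cd 3}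
    (hf : ContinuousOn f S) (hg : ∀ x ∈ S, Good P 3 (f x)) {x y : ℂ} (h : JoinedIn S x y)
    (hA : CA P F A (f x)) : CA P F A (f y) := by
  obtain ⟨γ, hγ⟩ := h
  have hmem : ∀ t ∈ Icc (0 : ℝ) 1, γ.extend t ∈ S := by
    intro t ht
    rw [Path.extend_apply γ ht]
    exact hγ _
  have h1 := CA_path hF D (fun t => f (γ.extend t)) (hf.comp γ.extend.continuous.continuousOn hmem)
    (fun t ht => hg _ (hmem t ht)) (by simpa using hA)
  simpa using h1


/-- A point of `X_A` on a line near a good sheet point gives the class: `p' = pt k τ z ∈ X_A` with `|q_0(p')| ≤ 4M+8`,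
`sp μ E k τ` good. `‖p' - sp‖ ≤ (36/5)(3/5)(4M+8)/R ≤ eta/4`. -/
theorem CA_of_mem {E : Frm} {k : Cd 3} {R : ℝ} (hN : NrC μ E R k) {τ z : ℂ} (hτ : ‖τ‖ ≤ R / 1000)
    (hR : nr (im (sp μ E k τ)) ≤ 2 * R) (hR' : 0 < nr (im (sp μ E k τ)))
    (hq : ‖q μ (E.pt k τ z) 0‖ ≤ 4 * M + 8) (hX : E.pt k τ z ∈ XX F A) :
    CA P F A (sp μ E k τ) := by
  have hM := P.M_nonneg
  have hRp : 0 < R := lt_of_lt_of_le (by norm_num) hN.hR
  have h1 := hN.zet_near (z := z) hτ
  refine ⟨E.pt k τ z, hX, ?_⟩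
  have h2 := norm_pt_sub E k τ z τ (zet μ E k τ)
  rw [sub_self, norm_zero, mul_zero, zero_add] at h2
  have h3 : eta P (sp μ E k τ) ≥ P.K / (2000 * R) := by
    unfold eta
    refine div_le_div_of_nonneg_left P.K_pos.le (by positivity) ?_
    linarith
  have h4 := P.c0_le
  unfold Big.c0 at h4
  have h5 : 3 / 5 * ‖q μ (E.pt k τ z) 0‖ / R ≤ 3 / 5 * (4 * M + 8) / R :=
    div_le_div_of_nonneg_right (by linarith) hRp.le
  have h6 : 36 / 5 * (3 / 5 * (4 * M + 8) / R) ≤ P.K / (2000 * R) / 4 := by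
    rw [div_div, mul_div_assoc', div_le_div_iff₀ hRp (by positivity)]
    nlinarith
  show ‖E.pt k τ z - E.pt k τ (zet μ E k τ)‖ ≤ _
  linarith


end H9F
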