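import Pool.Agent.Lib.H9F.NR

/-!
# H9F W0: interface of the last part (complete)
-/

open scoped BigOperators Topology
open Set Filter

noncomputable section

namespace H9F

open Fermi

variable {M : ℝ} {μ : ℂ} {P : Big M μ}

/-- what the torus trick gives for `A` at the scale `P` (file T2) -/
def TN (P : Big M μ) (F A : Set (Cd 3)) : Prop :=
  ∀ p, YY P 2 (im p) →
    (∀ n, ‖q μ p n‖ ≤ 100 * nr (im p) * P.rho → NF P (P.b ^ 500) (p + zc n)) → p ∉ XX F A

theorem YY.add {y v : Fin 3 → ℝ} (hy : YY P 1 y) (hv : nr v ≤ 3 * P.b ^ 500) :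
    YY P 2 (y + v) := by
  have h1 := abs_dr_le v (rz P.nu)
  have h2 : dt (y + v) P.nu = dt y P.nu + dr v (rz P.nu) := by
    rw [dt_eq, dt_eq, dr_add_left]
  have h3 : 3 * P.b ^ 500 ≤ P.b ^ 501 := P.mul_pow_le (by norm_num) le_rfl
  have h4 : P.b ^ 501 ≤ P.b ^ 600 := P.pow_le (by norm_num)
  have h5 : P.b ^ 501 ≤ P.b ^ 9999 := P.pow_le (by norm_num)
  have h6 : 2 * P.b ^ 9999 ≤ P.b ^ 10000 := P.mul_pow_le (by norm_num) le_rfl
  have h7 : P.b ^ 10000 ≤ P.b ^ 12000 := P.pow_le (by norm_num)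
  have h8 := nz_nonneg P.nu
  have h9 := P.pow_pos 9999
  have h10 := nr_add_le y v
  have h11 := nr_sub_le (y + v) v
  rw [add_sub_cancel_right] at h11
  have h12 := hy.nu
  have h13 := hy.lo
  have h14 := hy.hi
  refine ⟨?_, ?_, ?_⟩
  · rw [h2]
    refine (abs_add_le _ _).trans ?_
    have h15 : nr v * nr (rz P.nu) ≤ P.b ^ 600 * nz P.nu :=
      mul_le_mul_of_nonneg_right (hv.trans (h3.trans h4)) h8
    linarith
  · linarith
  · linarith

/-- `YY 2` is contained in `YY 4` -/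
theorem YY.four {y : Fin 3 → ℝ} (hy : YY P 2 y) : YY P 4 y := hy.mono (by norm_num)
theorem YY.two {y : Fin 3 → ℝ} (hy : YY P 1 y) : YY P 2 y := hy.mono (by norm_num)

end H9F
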