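import Pool.Agent.Lib.H9F.Defs

/-!
# H9F W1: a small integer vector orthogonal to a short vector; a shift
-/

open scoped BigOperators Topology
open Set Filter

noncomputable section

namespace H9F

open Fermi

variable {M : ℝ} {μ : ℂ} {P : Big M μ}

/-- Proof: pigeonhole on the box `x_j ∈ {0, …, N}`, `N = B^61`: `(N+1)^3` points, the integers `x·s₀` have modulus `≤ 3 N B^120`, so at
most `6 N B^120 + 1 < (N+1)^3` values (`N² = B^122`). The difference `e` of two points with the same value: `|e_j| ≤ N`,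
`nz e ≤ 2 N ≤ b^62` (`nr_le_of_abs`). (`Finset.exists_ne_map_eq_of_card_lt_of_maps_to`.) -/
theorem orth_int (P : Big M μ) {s₀ : Zd 3} (h : nz s₀ ≤ P.b ^ 120) :
    ∃ e : Zd 3, e ≠ 0 ∧ dr (rz s₀) (rz e) = 0 ∧ nz e ≤ P.b ^ 62 := by
  have hb2 : (2 : ℝ) * P.b ^ 61 ≤ P.b ^ 62 := P.mul_pow_le (by norm_num) le_rfl
  obtain ⟨B, hB⟩ : ∃ B : ℕ, B = P.B := ⟨_, rfl⟩
  have hbB : P.b = (B : ℝ) := by rw [hB]; rfl
  have hB6 : 6 ≤ B := by
    have h1 : (6 : ℝ) ≤ P.b := le_trans (by norm_num) P.b_ge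
    rw [hbB] at h1
    exact_mod_cast h1
  rw [hbB] at h hb2 ⊢
  have hs : ∀ j, |s₀ j| ≤ (B : ℤ) ^ 120 := by
    intro j
    have h1 := (abs_le_nz s₀ j).trans h
    exact_mod_cast h1
  obtain ⟨N, hN⟩ : ∃ N : ℕ, N = B ^ 61 := ⟨_, rfl⟩
  obtain ⟨C, hC⟩ : ∃ C : ℕ, C = B ^ 120 := ⟨_, rfl⟩
  have hNN : N * N = C * (B * B) := by
    rw [hN, hC]
    ring
  have hs' : ∀ j, |s₀ j| ≤ (C : ℤ) := by
    intro j
    have h1 := hs j
    rw [hC]
    push_cast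
    exact h1
  have hcard : (Finset.Icc (-(3 * C * N : ℤ)) (3 * C * N)).card < (Finset.univ : Finset (Fin 3 → Fin (N + 1))).card := by
    rw [Int.card_Icc, Finset.card_univ, Fintype.card_fun, Fintype.card_fin, Fintype.card_fin]
    have e : (3 * (C : ℤ) * N + 1 - -(3 * C * N)).toNat = 6 * (C * N) + 1 := by
      have e1 : (3 * (C : ℤ) * N + 1 - -(3 * C * N)) = ((6 * (C * N) + 1 : ℕ) : ℤ) := by
        push_cast
        ring
      rw [e1, Int.toNat_natCast]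
    rw [e]
    have h1 : 36 ≤ B * B := Nat.mul_le_mul hB6 hB6
    have h2 : C * N * 36 ≤ N * N * N := by
      rw [hNN]
      calc C * N * 36 ≤ C * N * (B * B) := Nat.mul_le_mul_left _ h1
        _ = C * (B * B) * N := by ring
    have h3 : 0 < N := by
      rw [hN]
      positivity
    have e2 : (N + 1) ^ 3 = N * N * N + 3 * (N * N) + 3 * N + 1 := by ring
    rw [e2]
    have h4 : 0 < C * N := by
      rw [hC]
      positivity
    nlinarith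
  obtain ⟨x, -, y, -, hxy, hf⟩ := Finset.exists_ne_map_eq_of_card_lt_of_maps_to hcard
    (f := fun x : Fin 3 → Fin (N + 1) => s₀ 0 * ((x 0 : ℕ) : ℤ) + s₀ 1 * ((x 1 : ℕ) : ℤ) + s₀ 2 * ((x 2 : ℕ) : ℤ))
    (by
      intro x _
      have hx : ∀ j, |s₀ j * ((x j : ℕ) : ℤ)| ≤ (C : ℤ) * N := by
        intro j
        rw [abs_mul]
        refine mul_le_mul (hs' j) ?_ (abs_nonneg _) (by positivity)
        rw [Nat.abs_cast]
        exact_mod_cast Nat.lt_succ_iff.1 (x j).2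
      have h0 := abs_le.1 (hx 0)
      have h1 := abs_le.1 (hx 1)
      have h2 := abs_le.1 (hx 2)
      rw [Finset.coe_Icc, Set.mem_Icc]
      constructor <;> linarith [h0.1, h0.2, h1.1, h1.2, h2.1, h2.2])
  refine ⟨fun j => ((x j : ℕ) : ℤ) - ((y j : ℕ) : ℤ), ?_, ?_, ?_⟩
  · intro h0
    apply hxy
    funext j
    have h1 := congrFun h0 j
    simp only [Pi.zero_apply] at h1
    apply Fin.ext
    omega
  · have hf' : (s₀ 0 * ((x 0 : ℕ) : ℤ) + s₀ 1 * ((x 1 : ℕ) : ℤ) + s₀ 2 * ((x 2 : ℕ) : ℤ) : ℤ) =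
        s₀ 0 * ((y 0 : ℕ) : ℤ) + s₀ 1 * ((y 1 : ℕ) : ℤ) + s₀ 2 * ((y 2 : ℕ) : ℤ) := hf
    have hf2 : ((s₀ 0 * ((x 0 : ℕ) : ℤ) + s₀ 1 * ((x 1 : ℕ) : ℤ) + s₀ 2 * ((x 2 : ℕ) : ℤ) : ℤ) : ℝ) =
        ((s₀ 0 * ((y 0 : ℕ) : ℤ) + s₀ 1 * ((y 1 : ℕ) : ℤ) + s₀ 2 * ((y 2 : ℕ) : ℤ) : ℤ) : ℝ) := by rw [hf']
    push_cast at hf2
    rw [dr3]
    simp only [rz]
    push_cast
    linarith
  · refine (nr_le_of_abs (c := (B : ℝ) ^ 61) fun j => ?_).trans hb2
    have hxj : ((x j : ℕ) : ℝ) ≤ (B : ℝ) ^ 61 := by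
      have h1 : (x j : ℕ) ≤ B ^ 61 := by
        rw [← hN]
        exact Nat.lt_succ_iff.1 (x j).2
      exact_mod_cast h1
    have hyj : ((y j : ℕ) : ℝ) ≤ (B : ℝ) ^ 61 := by
      have h1 : (y j : ℕ) ≤ B ^ 61 := by
        rw [← hN]
        exact Nat.lt_succ_iff.1 (y j).2
      exact_mod_cast h1
    have h3 : (0 : ℝ) ≤ ((x j : ℕ) : ℝ) := Nat.cast_nonneg _
    have h4 : (0 : ℝ) ≤ ((y j : ℕ) : ℝ) := Nat.cast_nonneg _
    simp only [rz]
    push_cast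
    rw [abs_le]
    constructor <;> linarith

theorem w1_two {y t t' : ℝ} {n n' : ℤ} (h : |y + t - n| < 1 / 12) (h' : |y + t' - n'| < 1 / 12)
    (h1 : 1 / 3 ≤ t' - t) (h2 : t' - t ≤ 2 / 3) : False := by
  have h3 := abs_lt.1 h
  have h4 := abs_lt.1 h'
  have h5 : (0 : ℝ) < ((n' - n : ℤ) : ℝ) := by
    push_cast
    linarith [h3.1, h3.2, h4.1, h4.2]
  have h6 : ((n' - n : ℤ) : ℝ) < 1 := by
    push_cast
    linarith [h3.1, h3.2, h4.1, h4.2]
  have h7 : 0 < n' - n := by exact_mod_cast h5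
  have h8 : n' - n < 1 := by exact_mod_cast h6
  omega

/-- Pure. Proof: one of `t = 0, 1/3, 2/3` works: each of the two numbers excludes at most one of them, since two different
of them differ by at least `1/3 > 2/12` modulo `1`. -/
theorem exists_shift (x c₁ c₂ : ℝ) : ∃ t : ℝ, 0 ≤ t ∧ t ≤ 1 ∧
    ∀ n : ℤ, 1 / 12 ≤ |x + t - c₁ - n| ∧ 1 / 12 ≤ |x + t - c₂ - n| := by
  by_contra hcon
  push Not at hcon
  have key : ∀ t : ℝ, 0 ≤ t → t ≤ 1 → (∃ n : ℤ, |(x - c₁) + t - n| < 1 / 12) ∨ (∃ n : ℤ, |(x - c₂) + t - n| < 1 / 12) := by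
    intro t h0 h1
    obtain ⟨n, hn⟩ := hcon t h0 h1
    by_cases h : 1 / 12 ≤ |x + t - c₁ - n|
    · right
      refine ⟨n, ?_⟩
      have h2 := hn h
      rwa [show (x - c₂) + t - (n : ℝ) = x + t - c₂ - n by ring]
    · left
      push Not at h
      refine ⟨n, ?_⟩
      rwa [show (x - c₁) + t - (n : ℝ) = x + t - c₁ - n by ring]
  rcases key 0 le_rfl (by norm_num) with ⟨n0, h0⟩ | ⟨n0, h0⟩ <;>
  rcases key (1 / 3) (by norm_num) (by norm_num) with ⟨n1, h1⟩ | ⟨n1, h1⟩ <;>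
  rcases key (2 / 3) (by norm_num) (by norm_num) with ⟨n2, h2⟩ | ⟨n2, h2⟩ <;>
  first
    | exact w1_two h0 h1 (by norm_num) (by norm_num)
    | exact w1_two h0 h2 (by norm_num) (by norm_num)
    | exact w1_two h1 h2 (by norm_num) (by norm_num)

end H9F
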