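import Pool.Agent.Lib.H9F.W0
import Pool.Agent.Lib.H9F.N1

/-!
# H9F W2: no short obstacle on a shifted strip
-/

open scoped BigOperators Topology
open Set Filter

noncomputable section

namespace H9F

open Fermi

variable {M : ℝ} {μ : ℂ} {P : Big M μ}

theorem w2_Z {X ε R L e1 au av uv ue : ℝ} (hX0 : 0 < X) (hε0 : 0 < ε) (hR0 : 0 < R)
    (hL : 1 ≤ L) (hXe : 10 ^ 10 * X ^ 2 * e1 ≤ R) (hεe : ε * e1 ≤ 1 / 10 ^ 6)
    (huv : |uv| ≤ 4 * X) (hau : |au| ≤ 60 * R * ε) (hav : |av| ≤ X) (hue : |ue| ≤ R * e1) :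
    |(au * L ^ 2 - av * uv) * ue| ≤ 1 / 10 ^ 4 * (R ^ 2 * L ^ 2) := by
  have hN : |(au * L ^ 2 - av * uv) * ue| ≤ (60 * R * ε * L ^ 2 + 4 * X ^ 2) * (R * e1) := by
    rw [abs_mul]
    refine mul_le_mul ?_ hue (abs_nonneg _) (by positivity)
    refine (abs_sub _ _).trans ?_
    rw [abs_mul, abs_mul, abs_of_nonneg (by positivity : 0 ≤ L ^ 2)]
    have h3 : |av| * |uv| ≤ X * (4 * X) := mul_le_mul hav huv (abs_nonneg _) hX0.le
    have h4 : |au| * L ^ 2 ≤ 60 * R * ε * L ^ 2 := mul_le_mul_of_nonneg_right hau (by positivity)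
    have h5 : X * (4 * X) = 4 * X ^ 2 := by ring
    linarith
  have h3 : 60 * R * ε * L ^ 2 * (R * e1) ≤ 60 / 10 ^ 6 * (R ^ 2 * L ^ 2) := by
    calc 60 * R * ε * L ^ 2 * (R * e1) = 60 * (R ^ 2 * L ^ 2) * (ε * e1) := by ring
      _ ≤ 60 * (R ^ 2 * L ^ 2) * (1 / 10 ^ 6) := by gcongr
      _ = _ := by ring
  have h4 : 4 * X ^ 2 * (R * e1) ≤ 4 / 10 ^ 10 * (R ^ 2 * L ^ 2) := by
    calc 4 * X ^ 2 * (R * e1) = 4 / 10 ^ 10 * R * (10 ^ 10 * X ^ 2 * e1) := by ring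
      _ ≤ 4 / 10 ^ 10 * R * R := by gcongr
      _ = 4 / 10 ^ 10 * (R ^ 2 * 1) := by ring
      _ ≤ 4 / 10 ^ 10 * (R ^ 2 * L ^ 2) := by
          have : 1 ≤ L ^ 2 := one_le_pow₀ hL
          gcongr
  have h5 : 0 < R ^ 2 * L ^ 2 := by positivity
  have h6 : (60 * R * ε * L ^ 2 + 4 * X ^ 2) * (R * e1)
      = 60 * R * ε * L ^ 2 * (R * e1) + 4 * X ^ 2 * (R * e1) := by ring
  rw [h6] at hN
  linarith

theorem w2_sq_le {x y : ℝ} (h : |x| ≤ y) : x ^ 2 ≤ y ^ 2 := by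
  rw [← sq_abs]
  exact pow_le_pow_left₀ (abs_nonneg _) h 2

theorem w2_Q {X ε R L au av uv : ℝ} (hX : 10 ^ 10 ≤ X) (hε1 : ε ≤ 1) (hR1 : 10 ^ 10 ≤ R)
    (hL : 1 ≤ L) (huv : |uv| ≤ 4 * X) (hau : |au| ≤ 60 * R * ε) (hav : |av| ≤ X) :
    |au ^ 2 * L ^ 2 - 2 * au * av * uv + av ^ 2 * R ^ 2| ≤ 2 * X ^ 2 * (R ^ 2 * L ^ 2) := by
  have hX0 : 0 < X := lt_of_lt_of_le (by norm_num) hX
  have hR0 : 0 < R := lt_of_lt_of_le (by norm_num) hR1
  have hL2 : 1 ≤ L ^ 2 := one_le_pow₀ hL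
  have h3 : |au| ≤ 60 * R := by
    refine hau.trans ?_
    calc 60 * R * ε ≤ 60 * R * 1 := by gcongr
      _ = 60 * R := mul_one _
  have b1 : au ^ 2 ≤ 3600 * R ^ 2 := by
    have := w2_sq_le h3
    calc au ^ 2 ≤ (60 * R) ^ 2 := this
      _ = _ := by ring
  have b2 : av ^ 2 ≤ X ^ 2 := w2_sq_le hav
  have b3 : |2 * au * av * uv| ≤ 480 * R * X ^ 2 := by
    rw [abs_mul, abs_mul, abs_mul, abs_two]
    have h4 : |au| * |av| ≤ 60 * R * X := mul_le_mul h3 hav (abs_nonneg _) (by positivity)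
    have h5 : |au| * |av| * |uv| ≤ 60 * R * X * (4 * X) :=
      mul_le_mul h4 huv (abs_nonneg _) (by positivity)
    calc 2 * |au| * |av| * |uv| = 2 * (|au| * |av| * |uv|) := by ring
      _ ≤ 2 * (60 * R * X * (4 * X)) := by gcongr
      _ = _ := by ring
  have c1 : au ^ 2 * L ^ 2 ≤ 1 / 10 * (X ^ 2 * (R ^ 2 * L ^ 2)) := by
    have h4 : 36000 ≤ X ^ 2 := by
      calc (36000 : ℝ) ≤ (10 ^ 10) ^ 2 := by norm_num
        _ ≤ X ^ 2 := by gcongr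
    calc au ^ 2 * L ^ 2 ≤ 3600 * R ^ 2 * L ^ 2 := by gcongr
      _ = 1 / 10 * (36000 * (R ^ 2 * L ^ 2)) := by ring
      _ ≤ _ := by gcongr
  have c2 : 480 * R * X ^ 2 ≤ 1 / 10 * (X ^ 2 * (R ^ 2 * L ^ 2)) := by
    have h4 : 4800 * R ≤ R ^ 2 * L ^ 2 := by
      calc 4800 * R ≤ R * R := by
            have : (4800 : ℝ) ≤ R := le_trans (by norm_num) hR1
            gcongr
        _ = R ^ 2 * 1 := by ring
        _ ≤ _ := by gcongr
    calc 480 * R * X ^ 2 = 1 / 10 * (X ^ 2 * (4800 * R)) := by ring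
      _ ≤ _ := by gcongr
  have c3 : av ^ 2 * R ^ 2 ≤ X ^ 2 * (R ^ 2 * L ^ 2) := by
    calc av ^ 2 * R ^ 2 ≤ X ^ 2 * (R ^ 2 * 1) := by rw [mul_one]; gcongr
      _ ≤ _ := by gcongr
  have d1 : 0 ≤ au ^ 2 * L ^ 2 := by positivity
  have d2 : 0 ≤ av ^ 2 * R ^ 2 := by positivity
  have d3 : 0 ≤ X ^ 2 * (R ^ 2 * L ^ 2) := by positivity
  rw [abs_le] at b3 ⊢
  constructor <;> linarith [b3.1, b3.2]

/-- the end -/
theorem w2_end {R e1 p t Z : ℝ} (hR0 : 0 < R) (hte : |t| ≤ e1)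
    (hZ : |Z| ≤ 1 / 1000) (hpe : |p ^ 2 - R ^ 2| * e1 ≤ R / 1000) :
    |p * t + Z - R * t| ≤ 1 / 100 ∨ |p * t + Z + R * t| ≤ 1 / 100 := by
  have he0 : 0 ≤ e1 := (abs_nonneg _).trans hte
  rcases le_total 0 p with hp0 | hp0
  · left
    have h3 : |p - R| * e1 ≤ 1 / 1000 := by
      have h4 : |p - R| * e1 * R ≤ 1 / 1000 * R := by
        calc |p - R| * e1 * R ≤ |p - R| * e1 * (p + R) := by
              apply mul_le_mul_of_nonneg_left (by linarith) (by positivity)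
          _ = |p ^ 2 - R ^ 2| * e1 := by
              have h5 : p ^ 2 - R ^ 2 = (p - R) * (p + R) := by ring
              rw [h5, abs_mul, abs_of_nonneg (by linarith : 0 ≤ p + R)]
              ring
          _ ≤ R / 1000 := hpe
          _ = _ := by ring
      exact le_of_mul_le_mul_right h4 hR0
    have h4 : p * t + Z - R * t = (p - R) * t + Z := by ring
    rw [h4]
    refine (abs_add_le _ _).trans ?_
    rw [abs_mul]
    have h5 : |p - R| * |t| ≤ |p - R| * e1 := mul_le_mul_of_nonneg_left hte (abs_nonneg _)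
    linarith
  · right
    have h3 : |p + R| * e1 ≤ 1 / 1000 := by
      have h4 : |p + R| * e1 * R ≤ 1 / 1000 * R := by
        calc |p + R| * e1 * R ≤ |p + R| * e1 * (R - p) := by
              apply mul_le_mul_of_nonneg_left (by linarith) (by positivity)
          _ = |p ^ 2 - R ^ 2| * e1 := by
              have h5 : p ^ 2 - R ^ 2 = -((p + R) * (R - p)) := by ring
              rw [h5, abs_neg, abs_mul, abs_of_nonneg (by linarith : 0 ≤ R - p)]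
              ring
          _ ≤ R / 1000 := hpe
          _ = _ := by ring
      exact le_of_mul_le_mul_right h4 hR0
    have h4 : p * t + Z + R * t = (p + R) * t + Z := by ring
    rw [h4]
    refine (abs_add_le _ _).trans ?_
    rw [abs_mul]
    have h5 : |p + R| * |t| ≤ |p + R| * e1 := mul_le_mul_of_nonneg_left hte (abs_nonneg _)
    linarith

/-- real inequality, with the small quantities made explicit -/
theorem w2_real0 {X ε R L w A e1 au av uv aw we ue a2 : ℝ} (hX : 10 ^ 10 ≤ X) (hε0 : 0 < ε)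
    (hε1 : ε ≤ 1) (hR0 : 0 < R) (hXR : 10 ^ 10 * X ^ 2 ≤ R) (he0 : 0 ≤ e1)
    (hXe : 10 ^ 10 * X ^ 2 * e1 ≤ R) (hεe : ε * e1 ≤ 1 / 10 ^ 6)
    (hL : 1 ≤ L) (hw : 0 ≤ w) (hw2 : w ^ 2 = R ^ 2 * L ^ 2 - uv ^ 2) (huv : |uv| ≤ 4 * X)
    (hau : |au| ≤ 60 * R * ε) (hav : |av| ≤ X) (haa : |a2 - R ^ 2| ≤ 110 * R * ε)
    (hwe : |we| ≤ w * e1) (hue : |ue| ≤ R * e1)
    (h1 : w ^ 2 * A = aw * we + (au * L ^ 2 - av * uv) * ue)
    (h2 : w ^ 2 * a2 = aw ^ 2 + (au ^ 2 * L ^ 2 - 2 * au * av * uv + av ^ 2 * R ^ 2)) :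
    |A - R * we / w| ≤ 1 / 100 ∨ |A + R * we / w| ≤ 1 / 100 := by
  have hX0 : 0 < X := lt_of_lt_of_le (by norm_num) hX
  have hX2 : 1 ≤ X ^ 2 := one_le_pow₀ (le_trans (by norm_num) hX)
  have hR1 : 10 ^ 10 ≤ R := by
    refine le_trans ?_ hXR
    linarith
  have hL2 : 1 ≤ L ^ 2 := one_le_pow₀ hL
  have hRL : R ^ 2 ≤ R ^ 2 * L ^ 2 := le_mul_of_one_le_right (by positivity) hL2
  have huv2 : uv ^ 2 ≤ 16 * X ^ 2 := by
    have := w2_sq_le huv
    calc uv ^ 2 ≤ (4 * X) ^ 2 := this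
      _ = _ := by ring
  have hRsq : 10 ^ 10 * R ≤ R ^ 2 := by
    rw [sq]
    exact mul_le_mul_of_nonneg_right hR1 hR0.le
  have hw3 : 99 / 100 * (R ^ 2 * L ^ 2) ≤ w ^ 2 := by
    rw [hw2]
    linarith
  have hRLp : 0 < R ^ 2 * L ^ 2 := by positivity
  have hw4 : 0 < w ^ 2 := by linarith
  have hw0 : 0 < w := by
    rcases hw.lt_or_eq with h | h
    · exact h
    · rw [← h] at hw4; norm_num at hw4
  have hZN := w2_Z hX0 hε0 hR0 hL hXe hεe huv hau hav hue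
  have hQ := w2_Q hX hε1 hR1 hL huv hau hav
  have hpw : aw = aw / w * w := by field_simp
  have hte : |we / w| ≤ e1 := by
    rw [abs_div, abs_of_pos hw0, div_le_iff₀ hw0]
    linarith
  have hA : A = aw / w * (we / w) + (au * L ^ 2 - av * uv) * ue / w ^ 2 := by
    field_simp
    linarith
  have hZ : |(au * L ^ 2 - av * uv) * ue / w ^ 2| ≤ 1 / 1000 := by
    rw [abs_div, abs_of_pos hw4, div_le_iff₀ hw4]
    linarith
  have hpp : |(aw / w) ^ 2 - R ^ 2| ≤ 110 * R * ε + 3 * X ^ 2 := by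
    have h3 : w ^ 2 * ((aw / w) ^ 2 - a2)
        = -(au ^ 2 * L ^ 2 - 2 * au * av * uv + av ^ 2 * R ^ 2) := by
      rw [mul_sub, h2, div_pow]
      field_simp
      ring
    have h4 : w ^ 2 * |(aw / w) ^ 2 - a2| ≤ w ^ 2 * (3 * X ^ 2) := by
      rw [← abs_of_pos hw4, ← abs_mul, abs_of_pos hw4, h3, abs_neg]
      refine hQ.trans ?_
      calc 2 * X ^ 2 * (R ^ 2 * L ^ 2) = 99 / 100 * (R ^ 2 * L ^ 2) * (200 / 99 * X ^ 2) := by
            ring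
        _ ≤ w ^ 2 * (200 / 99 * X ^ 2) := by gcongr
        _ ≤ w ^ 2 * (3 * X ^ 2) := by gcongr; norm_num
    have h5 := le_of_mul_le_mul_left h4 hw4
    have h6 := abs_le.1 h5
    have h7 := abs_le.1 haa
    rw [abs_le]
    constructor <;> linarith [h6.1, h6.2, h7.1, h7.2]
  have hpe : |(aw / w) ^ 2 - R ^ 2| * e1 ≤ R / 1000 := by
    calc |(aw / w) ^ 2 - R ^ 2| * e1 ≤ (110 * R * ε + 3 * X ^ 2) * e1 := by gcongr
      _ = 110 * R * (ε * e1) + 3 / 10 ^ 10 * (10 ^ 10 * X ^ 2 * e1) := by ring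
      _ ≤ 110 * R * (1 / 10 ^ 6) + 3 / 10 ^ 10 * R := by gcongr
      _ ≤ R / 1000 := by linarith
  have hRt : R * we / w = R * (we / w) := by rw [mul_div_assoc]
  rw [hRt, hA]
  exact w2_end hR0 hte hZ hpe

/-- Pure vector identities for `w = u × v`.
Proof: expand (`dr3`, `cr`, `ring`). -/
theorem cr_id1 (u v a e : Fin 3 → ℝ) : nr (cr u v) ^ 2 * dr a e =
    dr a (cr u v) * dr (cr u v) e + (dr a u * dr v v - dr a v * dr u v) * dr u e +
      (dr a v * dr u u - dr a u * dr u v) * dr v e := by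
  rw [nr_sq]
  simp only [dr3, cr]
  simp
  ring

theorem cr_id2 (u v a : Fin 3 → ℝ) : nr (cr u v) ^ 2 * dr a a =
    dr a (cr u v) ^ 2 + (dr a u ^ 2 * dr v v - 2 * dr a u * dr a v * dr u v +
      dr a v ^ 2 * dr u u) := by
  rw [nr_sq]
  simp only [dr3, cr]
  simp
  ring

/-- Pure. If `a` is nearly orthogonal to `u` and `v` and has nearly the length of `u`, then `a·e` is near `± |u| (w·e)/|w|`, `w = u × v`,
for a small `e ⟂ v`. (`b`: the big number, `ε = 1/b^100`.)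
Proof: `|w|² = |u|²|v|² - (u·v)² ≥ 0.99 |u|²|v|²`. By `cr_id1` (with `v·e = 0`) `a·e = (a·w)(w·e)/|w|² + Z`,
`|Z| ≤ (60 ε |u| |v|² + 4 b^1000) |u||e|/(0.99 |u|²|v|²) ≤ (61 ε + 5 b^1000/|u|) b^62 ≤ 1/1000`. By `cr_id2`
`((a·w)/|w|)² = |a|² - Z'`, `0 ≤ Z' ≤ 2 (60 ε)² + 2·… + 2 b^1000 ≤ b^1001`, so `|((a·w)/|w|)² - |u|²| ≤ 110 ε |u| + b^1001`, hence
`| |a·w|/|w| - |u| | ≤ 110 ε + b^1001/|u| ≤ 120 ε`, and `|w·e|/|w| ≤ |e| ≤ b^62`. So
`|a·e - (± |u|)(w·e)/|w|| ≤ 1/1000 + 120 b^62/b^100 ≤ 1/100` with the sign of `a·w`. -/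
theorem near_circle {b : ℝ} (hb : 10 ^ 36 ≤ b) {u v a e : Fin 3 → ℝ} (hu : b ^ 9000 ≤ nr u)
    (hv1 : 1 ≤ nr v) (huv : |dr u v| ≤ 4 * b ^ 500) (hau : |dr a u| ≤ 60 * nr u / b ^ 100)
    (hav : |dr a v| ≤ b ^ 500) (haa : |nr a ^ 2 - nr u ^ 2| ≤ 110 * nr u / b ^ 100)
    (he : nr e ≤ b ^ 62) (hve : dr v e = 0) :
    |dr a e - nr u * dr (cr u v) e / nr (cr u v)| ≤ 1 / 100 ∨
      |dr a e + nr u * dr (cr u v) e / nr (cr u v)| ≤ 1 / 100 := by
  have hb0 : 0 < b := lt_of_lt_of_le (by norm_num) hb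
  have hb1 : 1 ≤ b := le_trans (by norm_num) hb
  have hu0 : 0 < nr u := lt_of_lt_of_le (pow_pos hb0 _) hu
  have hsq : (b ^ 500) ^ 2 = b ^ 1000 := by rw [← pow_mul]
  have hmul : ∀ i j : ℕ, i + 1 ≤ j → 10 ^ 10 * b ^ i ≤ b ^ j := by
    intro i j hij
    calc 10 ^ 10 * b ^ i ≤ b * b ^ i := by
          have : (10 : ℝ) ^ 10 ≤ b := le_trans (by norm_num) hb
          exact mul_le_mul_of_nonneg_right this (pow_pos hb0 _).le
      _ = b ^ (i + 1) := by ring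
      _ ≤ b ^ j := pow_le_pow_right₀ hb1 hij
  have hX : 10 ^ 10 ≤ b ^ 500 := by
    have := hmul 0 500 (by norm_num)
    rwa [pow_zero, mul_one] at this
  have hε : 0 < 1 / b ^ 100 := by positivity
  have hε1 : 1 / b ^ 100 ≤ 1 := by
    rw [div_le_one (by positivity)]
    exact one_le_pow₀ hb1
  have hL := lagrange u v
  refine w2_real0 (X := b ^ 500) (ε := 1 / b ^ 100) (R := nr u) (L := nr v) (w := nr (cr u v))
    (e1 := nr e) (au := dr a u) (av := dr a v) (uv := dr u v) (aw := dr a (cr u v))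
    (ue := dr u e) (a2 := dr a a) hX hε hε1 hu0 ?_ (nr_nonneg e) ?_ ?_ hv1 (nr_nonneg _) ?_ huv
    ?_ hav ?_ (abs_dr_le _ _) (abs_dr_le _ _) ?_ ?_
  · rw [hsq]
    exact (hmul 1000 9000 (by norm_num)).trans hu
  · rw [hsq]
    calc 10 ^ 10 * b ^ 1000 * nr e ≤ 10 ^ 10 * b ^ 1000 * b ^ 62 := by gcongr
      _ = 10 ^ 10 * b ^ 1062 := by rw [mul_assoc, ← pow_add]
      _ ≤ b ^ 9000 := hmul 1062 9000 (by norm_num)
      _ ≤ nr u := hu
  · rw [one_div_mul_eq_div, div_le_iff₀ (by positivity)]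
    have h5 : 10 ^ 10 * b ^ 62 ≤ b ^ 100 := hmul 62 100 (by norm_num)
    have h6 : 0 < b ^ 62 := pow_pos hb0 _
    linarith
  · linarith
  · rw [mul_one_div]
    exact hau
  · rw [← nr_sq, mul_one_div]
    exact haa
  · rw [cr_id1 u v a e, hve, ← nr_sq]
    ring
  · rw [cr_id2 u v a, ← nr_sq, ← nr_sq]

/-- the imaginary part on the strip -/
theorem w2_yy {y : Fin 3 → ℝ} (hy : YY P 1 y) {s₀ : Zd 3} (h0 : s₀ ≠ 0) {h : ℝ}
    (hh : |h| * nz s₀ ^ 2 ≤ 3 * P.b ^ 500) {p : Cd 3} (hp : im p = y + h • rz s₀) :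
    YY P 2 (im p) := by
  rw [hp]
  refine hy.add ?_
  rw [nr_smul]
  refine le_trans ?_ hh
  have h1 := one_le_nz h0
  have h2 : nr (rz s₀) ≤ nz s₀ ^ 2 := by
    show nz s₀ ≤ nz s₀ ^ 2
    nlinarith
  exact mul_le_mul_of_nonneg_left h2 (abs_nonneg _)

theorem w2_dt {y : Fin 3 → ℝ} {s₀ : Zd 3} {h : ℝ} {p : Cd 3} (hp : im p = y + h • rz s₀) :
    dt (im p) s₀ = dt y s₀ + h * nz s₀ ^ 2 := by
  rw [hp, dt_eq, dt_eq, nz_sq, dr_add_left, dr_smul_left]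

theorem w2_smul (j : ℤ) (s : Zd 3) (k : Cd 3) :
    bil k (zc (j • s)) = (j : ℂ) * bil k (zc s) := by
  rw [bil3, bil3]
  simp [zc]
  ring

theorem w2_dt_smul (j : ℤ) (s : Zd 3) (y : Fin 3 → ℝ) : dt y (j • s) = (j : ℝ) * dt y s := by
  rw [dt3, dt3]
  simp
  ring

/-- a short obstacle on the strip is a multiple of `s₀` -/
theorem w2_par {y : Fin 3 → ℝ} (hy : YY P 1 y) {s₀ : Zd 3} (h0 : s₀ ≠ 0)
    (hs : nz s₀ ≤ P.b ^ 120) (hys : |dt y s₀| < P.b ^ 500)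
    (hprim : ∀ s, Par s₀ s → ∃ j : ℤ, s = j • s₀) {h : ℝ}
    (hh : |h| * nz s₀ ^ 2 ≤ 3 * P.b ^ 500) {p : Cd 3} (hp : im p = y + h • rz s₀) {s : Zd 3}
    (hs0 : s ≠ 0) (hs1 : nz s ≤ P.b ^ 120) (hd : |dt (im p) s| < P.b ^ 500) :
    ∃ j : ℤ, 1 ≤ |(j : ℝ)| ∧ s = j • s₀ := by
  have hy2 := (w2_yy hy h0 hh hp).four
  have h1 : P.b ^ 120 ≤ P.b ^ 360 := P.pow_le (by norm_num)
  have h2 : |dt (im p) s₀| ≤ 4 * P.b ^ 500 := by
    rw [w2_dt hp]
    refine (abs_add_le _ _).trans ?_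
    rw [abs_mul, abs_of_nonneg (by positivity : 0 ≤ nz s₀ ^ 2)]
    linarith
  have h3 : 4 * P.b ^ 500 ≤ P.b ^ 510 := P.mul_pow_le (by norm_num) (by norm_num)
  have h4 : P.b ^ 500 ≤ P.b ^ 510 := P.pow_le (by norm_num)
  have h5 := par_of_short hy2 (hs.trans h1) (hs1.trans h1) (h2.trans h3) (hd.le.trans h4)
  obtain ⟨j, hj⟩ := hprim s h5
  refine ⟨j, ?_, hj⟩
  have hj0 : j ≠ 0 := by
    rintro rfl
    apply hs0
    rw [hj, zero_smul]
  exact_mod_cast Int.one_le_abs hj0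

/-- (section 11) Proof. `y' = im p = y + h s₀`; `YY P 2 y'` by `YY.add` (`nr (h • rz s₀) = |h| nz s₀ ≤ 3 b^500`). Suppose `s ≠ 0`, `nz s ≤ b^120`,
`‖bil (p + zc n) (zc s)‖ < b^500`. Its imaginary part is `dt y' s` (`bil_zc_im`, `im_add_zc`); `|dt y' s₀| ≤ |dt y s₀| + |h| |s₀|² ≤ 4 b^500`: so
`par_of_short` (at `y'`!) gives `Par s₀ s`, `s = j • s₀`, `j ≠ 0`, and `‖bil (p + zc n) (zc s₀)‖ ≤ ‖bil (p + zc n) (zc s)‖ < b^500`. Let
`a = re p + rz n`: `|dr a (rz s₀)| < b^500`. `near_circle` with `u = y'`, `v = rz s₀` (`q0_re`, `q0_im` for `p + zc n`, `‖μ‖ ≤ b`). `cr y' s₀ = cr y s₀`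
(`cr` bilinear, `cr s₀ s₀ = 0`), and `|nr y' - nr y| ≤ 15 b^1000/R` (`nr y'^2 - nr y^2 = 2 h (y·s₀) + h² |s₀|²`), so
`dr a (rz e)` is within `1/100 + 1/100` of `±nr y * dr (cr y s₀) e / nr (cr y s₀)`; and `dr a (rz e) = dr (re p) (rz e) + (an integer)`.
Contradiction with `hx`. -/
theorem slab_nf {y : Fin 3 → ℝ} (hy : YY P 1 y) {s₀ e : Zd 3} (h0 : s₀ ≠ 0)
    (hs : nz s₀ ≤ P.b ^ 120) (hys : |dt y s₀| < P.b ^ 500)
    (hprim : ∀ s, Par s₀ s → ∃ j : ℤ, s = j • s₀) (he : dr (rz s₀) (rz e) = 0)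
    (he' : nz e ≤ P.b ^ 62) {h : ℝ} (hh : |h| * nz s₀ ^ 2 ≤ 3 * P.b ^ 500) {p : Cd 3}
    (hp : im p = y + h • rz s₀)
    (hx : ∀ n : ℤ,
      1 / 12 ≤ |dr (re p) (rz e) - nr y * dr (cr y (rz s₀)) (rz e) / nr (cr y (rz s₀)) - n| ∧
      1 / 12 ≤ |dr (re p) (rz e) - -(nr y * dr (cr y (rz s₀)) (rz e) / nr (cr y (rz s₀))) - n|) :
    ∀ n, ‖q μ p n‖ ≤ 100 * nr (im p) * P.rho → NF P (P.b ^ 500) (p + zc n) := by
  intro n hn s hs0 hs1
  by_contra hcon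
  push Not at hcon
  have hy2 := w2_yy hy h0 hh hp
  have hy4 := hy2.four
  have hd : |dt (im p) s| < P.b ^ 500 := by
    have h1 := Complex.abs_im_le_norm (bil (p + zc n) (zc s))
    rw [bil_zc_im, im_add_zc] at h1
    linarith
  obtain ⟨j, hj1, hj⟩ := w2_par hy h0 hs hys hprim hh hp hs0 hs1 hd
  have h2 : ‖bil (p + zc n) (zc s₀)‖ < P.b ^ 500 := by
    rw [hj, w2_smul, norm_mul, Complex.norm_intCast] at hcon
    have := norm_nonneg (bil (p + zc n) (zc s₀))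
    nlinarith
  have h3 : |dr (re p + rz n) (rz s₀)| ≤ P.b ^ 500 := by
    have h4 := Complex.abs_re_le_norm (bil (p + zc n) (zc s₀))
    rw [bil_zc_re, re_add_zc, dt_eq] at h4
    linarith
  have hR := hy4.R_pos
  have hR1 : 10 * P.b ^ 9998 ≤ nr (im p) := hy4.mul_le (by norm_num) le_rfl
  have hρ : 100 * nr (im p) * P.rho = 100 * nr (im p) / P.b ^ 100 := by
    unfold Big.rho
    rw [div_eq_mul_inv]
  have hbR : P.b ≤ nr (im p) / P.b ^ 100 := by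
    rw [le_div_iff₀ (P.pow_pos 100)]
    calc P.b * P.b ^ 100 = P.b ^ 101 := by ring
      _ ≤ P.b ^ 9998 := P.pow_le (by norm_num)
      _ ≤ 10 * P.b ^ 9998 := le_mul_of_one_le_left (P.pow_pos 9998).le (by norm_num)
      _ ≤ nr (im p) := hR1
  have hμ := P.mu_le_b
  have hq : ‖q μ (p + zc n) 0‖ ≤ 100 * (nr (im p) / P.b ^ 100) := by
    rw [← q_shift]
    calc ‖q μ p n‖ ≤ 100 * nr (im p) * P.rho := hn
      _ = _ := by rw [hρ, mul_div_assoc]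
  have h4 := (Complex.abs_re_le_norm _).trans hq
  have h5 := (Complex.abs_im_le_norm _).trans hq
  rw [q0_re, re_add_zc, im_add_zc] at h4
  rw [q0_im, re_add_zc, im_add_zc] at h5
  have hμr := (Complex.abs_re_le_norm μ).trans hμ
  have hμi := (Complex.abs_im_le_norm μ).trans hμ
  have h6 : |dr (re p + rz n) (im p)| ≤ 60 * nr (im p) / P.b ^ 100 := by
    rw [mul_div_assoc]
    rw [abs_le] at h5 hμi ⊢
    constructor <;> linarith [h5.1, h5.2, hμi.1, hμi.2]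
  have h7 : |nr (re p + rz n) ^ 2 - nr (im p) ^ 2| ≤ 110 * nr (im p) / P.b ^ 100 := by
    rw [mul_div_assoc]
    rw [abs_le] at h4 hμr ⊢
    constructor <;> linarith [h4.1, h4.2, hμr.1, hμr.2]
  have h8 : |dr (im p) (rz s₀)| ≤ 4 * P.b ^ 500 := by
    rw [← dt_eq, w2_dt hp]
    refine (abs_add_le _ _).trans ?_
    rw [abs_mul, abs_of_nonneg (by positivity : 0 ≤ nz s₀ ^ 2)]
    linarith
  have h9 := near_circle P.b_ge (u := im p) (v := rz s₀) (a := re p + rz n) (e := rz e)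
    ((P.pow_le (by norm_num)).trans hy4.R_ge) (one_le_nz h0) h8 h6 h3 h7 he' he
  -- the cross product and the length
  have h10 : cr (im p) (rz s₀) = cr y (rz s₀) := by
    rw [hp]
    funext i
    fin_cases i <;> simp [cr] <;> ring
  rw [h10] at h9
  set c' := dr (cr y (rz s₀)) (rz e) / nr (cr y (rz s₀)) with hc'
  have h11 : |c'| ≤ P.b ^ 62 := by
    rw [hc', abs_div, abs_of_nonneg (nr_nonneg _)]
    refine div_le_of_le_mul₀ (nr_nonneg _) (P.pow_pos 62).le ?_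
    refine (abs_dr_le _ _).trans ?_
    rw [mul_comm]
    exact mul_le_mul_of_nonneg_right he' (nr_nonneg _)
  have h12 : |nr (im p) - nr y| * P.b ^ 62 ≤ 1 / 100 := by
    have hy1 := (YY.two hy).four
    have hyR := hy1.R_pos
    have hyR1 : 100 * (15 * P.b ^ 1062) ≤ nr y := by
      rw [← mul_assoc]
      exact hy1.mul_le (by norm_num) (by norm_num)
    have h13 : nr (im p) ^ 2 - nr y ^ 2 = h * (2 * dt y s₀) + h * (h * nz s₀ ^ 2) := by
      rw [hp, nr_sq, nr_sq, dt_eq, nz_sq, dr_add_left, dr_add_right, dr_add_right, dr_smul_left,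
        dr_smul_left, dr_smul_right, dr_smul_right, dr_comm (rz s₀) y]
      ring
    have hh1 : |h| ≤ 3 * P.b ^ 500 := by
      refine le_trans ?_ hh
      have := one_le_nz h0
      have h14 : 1 ≤ nz s₀ ^ 2 := one_le_pow₀ this
      exact le_mul_of_one_le_right (abs_nonneg _) h14
    have h14 : |nr (im p) ^ 2 - nr y ^ 2| ≤ 15 * P.b ^ 1000 := by
      rw [h13]
      refine (abs_add_le _ _).trans ?_
      have e1 : |h * (2 * dt y s₀)| ≤ 3 * P.b ^ 500 * (2 * P.b ^ 500) := by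
        rw [abs_mul, abs_mul, abs_two]
        have := P.pow_pos 500
        exact mul_le_mul hh1 (by linarith) (mul_nonneg (by norm_num) (abs_nonneg _))
          (mul_nonneg (by norm_num) this.le)
      have e2 : |h * (h * nz s₀ ^ 2)| ≤ 3 * P.b ^ 500 * (3 * P.b ^ 500) := by
        rw [abs_mul, abs_mul h, abs_of_nonneg (by positivity : 0 ≤ nz s₀ ^ 2)]
        have := P.pow_pos 500
        exact mul_le_mul hh1 hh (mul_nonneg (abs_nonneg _) (sq_nonneg _))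
          (mul_nonneg (by norm_num) this.le)
      have e3 : P.b ^ 500 * P.b ^ 500 = P.b ^ 1000 := by rw [← pow_add]
      calc |h * (2 * dt y s₀)| + |h * (h * nz s₀ ^ 2)|
          ≤ 3 * P.b ^ 500 * (2 * P.b ^ 500) + 3 * P.b ^ 500 * (3 * P.b ^ 500) := add_le_add e1 e2
        _ = 15 * (P.b ^ 500 * P.b ^ 500) := by ring
        _ = _ := by rw [e3]
    have h15 : |nr (im p) - nr y| * nr y ≤ 15 * P.b ^ 1000 := by
      refine le_trans ?_ h14
      have h16 : nr (im p) ^ 2 - nr y ^ 2 = (nr (im p) - nr y) * (nr (im p) + nr y) := by ring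
      rw [h16, abs_mul]
      refine mul_le_mul_of_nonneg_left ?_ (abs_nonneg _)
      rw [abs_of_pos (by linarith)]
      linarith
    have h17 : |nr (im p) - nr y| * P.b ^ 62 * nr y ≤ 1 / 100 * nr y := by
      calc |nr (im p) - nr y| * P.b ^ 62 * nr y = |nr (im p) - nr y| * nr y * P.b ^ 62 := by ring
        _ ≤ 15 * P.b ^ 1000 * P.b ^ 62 := mul_le_mul_of_nonneg_right h15 (P.pow_pos 62).le
        _ = 15 * P.b ^ 1062 := by rw [mul_assoc, ← pow_add]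
        _ ≤ _ := by linarith
    exact le_of_mul_le_mul_right h17 hyR
  have h13 : |nr (im p) * c' - nr y * c'| ≤ 1 / 100 := by
    rw [← sub_mul, abs_mul]
    exact (mul_le_mul_of_nonneg_left h11 (abs_nonneg _)).trans h12
  have h14 : ∃ m : ℤ, dr (re p + rz n) (rz e) = dr (re p) (rz e) - m := by
    refine ⟨-(n 0 * e 0 + n 1 * e 1 + n 2 * e 2), ?_⟩
    rw [dr_add_left, dr3 (rz n)]
    simp only [rz]
    push_cast
    ring
  obtain ⟨m, hm⟩ := h14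
  rw [hm] at h9
  have hx' := hx m
  rw [mul_div_assoc, ← hc'] at h9
  rw [mul_div_assoc, ← hc'] at hx'
  rw [abs_le] at h13
  rcases h9 with h9 | h9
  · have h15 : |dr (re p) (rz e) - nr y * c' - m| ≤ 2 / 100 := by
      rw [abs_le] at h9 ⊢
      constructor <;> linarith [h9.1, h9.2, h13.1, h13.2]
    linarith [hx'.1]
  · have h15 : |dr (re p) (rz e) - -(nr y * c') - m| ≤ 2 / 100 := by
      rw [abs_le] at h9 ⊢
      constructor <;> linarith [h9.1, h9.2, h13.1, h13.2]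
    linarith [hx'.2]

/-- The ends of the strips. Proof: `|dt (im p) s₀| ≥ 3 b^500 - b^500 = 2 b^500` and `≤ 4 b^500`. If some `s ≠ 0`, `nz s ≤ b^120`, has
`‖bil (p + zc n) (zc s)‖ < b^500` then `|dt (im p) s| < b^500`, so `Par s₀ s` (`par_of_short`), `s = j • s₀`, `j ≠ 0`,
`|dt (im p) s| ≥ |dt (im p) s₀| ≥ 2 b^500`, contradiction. -/
theorem slab_end {y : Fin 3 → ℝ} (hy : YY P 1 y) {s₀ : Zd 3} (h0 : s₀ ≠ 0)
    (hs : nz s₀ ≤ P.b ^ 120) (hys : |dt y s₀| < P.b ^ 500)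
    (hprim : ∀ s, Par s₀ s → ∃ j : ℤ, s = j • s₀) {h : ℝ}
    (hh : |h| * nz s₀ ^ 2 = 3 * P.b ^ 500) {p : Cd 3} (hp : im p = y + h • rz s₀) (n : Zd 3) :
    NF P (P.b ^ 500) (p + zc n) := by
  intro s hs0 hs1
  by_contra hcon
  push Not at hcon
  have hd : |dt (im p) s| < P.b ^ 500 := by
    have h1 := Complex.abs_im_le_norm (bil (p + zc n) (zc s))
    rw [bil_zc_im, im_add_zc] at h1
    linarith
  obtain ⟨j, hj1, hj⟩ := w2_par hy h0 hs hys hprim hh.le hp hs0 hs1 hd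
  rw [hj, w2_dt_smul, abs_mul] at hd
  have h2 : 2 * P.b ^ 500 ≤ |dt (im p) s₀| := by
    rw [w2_dt hp]
    have h3 : |h * nz s₀ ^ 2| = 3 * P.b ^ 500 := by
      rw [abs_mul, abs_of_nonneg (by positivity : 0 ≤ nz s₀ ^ 2), hh]
    have h4 := abs_sub_abs_le_abs_sub (h * nz s₀ ^ 2) (-dt y s₀)
    rw [abs_neg, sub_neg_eq_add, add_comm (h * nz s₀ ^ 2)] at h4
    linarith
  have h3 := P.pow_pos 500
  have h4 := abs_nonneg (dt (im p) s₀)
  nlinarith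

end H9F
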