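import Pool.Agent.Lib.H9F.W4

/-!
# H9F W5: no complex line in an integer direction is contained in the Fermi set
-/

open scoped BigOperators Topology
open Set Filter

noncomputable section

namespace H9F

open Fermi

variable {M : ℝ} {μ : ℂ} {P : Big M μ}

theorem w5_re (k : Cd 3) (z : ℂ) (w : Zd 3) : re (k + z • zc w) = re k + z.re • rz w := by
  funext j; simp [re, zc, rz]

theorem w5_im (k : Cd 3) (z : ℂ) (w : Zd 3) : im (k + z • zc w) = im k + z.im • rz w := by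
  funext j; simp [im, zc, rz]

/-- Proof: `q μ (k + z zc w) n - q μ (k + z' zc w) n = (z - z') (2 bil (k + zc n) (zc w) + (z + z') |w|²)`; the imaginary part of the
bracket is `2 dt (im k) w + (z.im + z'.im) |w|² ≥ 2 T |w|² - 2 |im k| |w| ≥ T |w|²` (`|w| ≥ 1`, `T ≥ 2 |im k|`), so
`‖z - z'‖ T |w|² ≤ 2 c`, `|w|² ≥ 1`. -/
theorem sheet_diam {k : Cd 3} {w n : Zd 3} (hw : w ≠ 0) {T c : ℝ} (hT : 2 * nr (im k) ≤ T)
    (hT0 : 0 < T) {z z' : ℂ} (hz : T ≤ z.im) (hz' : T ≤ z'.im) (h : ‖q μ (k + z • zc w) n‖ ≤ c)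
    (h' : ‖q μ (k + z' • zc w) n‖ ≤ c) : ‖z - z'‖ ≤ 2 * c / T := by
  have e1 : q μ (k + z • zc w) n - q μ (k + z' • zc w) n =
      (z - z') * (2 * bil (k + zc n) (zc w) + (z + z') * bil (zc w) (zc w)) := by
    unfold q
    simp only [bil3, Pi.add_apply, Pi.smul_apply, smul_eq_mul]
    ring
  have e2 : (2 * bil (k + zc n) (zc w) + (z + z') * bil (zc w) (zc w) : ℂ).im =
      2 * dt (im k) w + (z.im + z'.im) * nz w ^ 2 := by
    rw [Complex.add_im, Complex.mul_im, Complex.mul_im, bil_zc_im, bil_zc_re, bil_zc_re, bil_zc_im,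
      im_add_zc, re_zc, im_zc, nz_sq, Complex.add_im]
    have h1 : dt (0 : Fin 3 → ℝ) w = 0 := by simp [dt]
    rw [h1, dt_eq (rz w) w]
    simp
  have h3 : |dt (im k) w| ≤ nr (im k) * nz w := abs_dr_le _ _
  have hw1 := one_le_nz hw
  have hY := nr_nonneg (im k)
  have h4 : T ≤ (2 * bil (k + zc n) (zc w) + (z + z') * bil (zc w) (zc w) : ℂ).im := by
    rw [e2]
    have h5 := (abs_le.1 h3).1
    have h6 : (T + T) * nz w ^ 2 ≤ (z.im + z'.im) * nz w ^ 2 := by gcongr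
    have h7 : 2 * (nr (im k) * nz w) ≤ T * nz w := by nlinarith
    have h8 : T * nz w ≤ T * nz w ^ 2 := by
      apply mul_le_mul_of_nonneg_left _ hT0.le
      nlinarith
    have h9 : T ≤ T * nz w ^ 2 := by nlinarith
    nlinarith
  have h5 : T ≤ ‖(2 * bil (k + zc n) (zc w) + (z + z') * bil (zc w) (zc w) : ℂ)‖ :=
    h4.trans ((le_abs_self _).trans (Complex.abs_im_le_norm _))
  have h6 : ‖q μ (k + z • zc w) n - q μ (k + z' • zc w) n‖ ≤ 2 * c := by
    refine (norm_sub_le _ _).trans ?_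
    linarith
  rw [e1, norm_mul] at h6
  rw [le_div_iff₀ hT0]
  exact (mul_le_mul_of_nonneg_left h5 (norm_nonneg _)).trans h6

/-- Proof. Let `a = re k + n + (z.re) w`, `y = im k + (z.im) w`, `Y = |im k|`, `t = z.im ∈ [T, 2T]`, `T ≥ 1`. From `‖q‖ ≤ c`:
`|a|² ≤ |y|² + |μ| + c`, so `|a| ≤ |y| + |μ| + c + 1 ≤ Y + 2T|w| + |μ| + c + 1`, and `|2 a·y| ≤ |μ| + c`; `t (a·w) = a·y - a·(im k)`, so
`|a·w| ≤ (|μ| + c + |a| Y)/T ≤ (|μ| + c) + (Y + |μ| + c + 1 + 2|w|) Y =: C₁` (`T ≥ 1`). So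
`|n·w| ≤ C₁ + |re k||w| + |w|²`, `|n| ≤ |a| + |re k| + |w| ≤ L₀ T` with `L₀ = Y + 2|w| + |μ| + c + 1 + |re k| + |w|`. -/
theorem sheet_near (k : Cd 3) (w : Zd 3) (c : ℝ) (hc : 0 ≤ c) : ∃ L₀ C₀ : ℝ, 1 ≤ L₀ ∧ 0 ≤ C₀ ∧
    ∀ (T : ℝ) (n : Zd 3) (z : ℂ), 1 ≤ T → 0 ≤ z.re → z.re ≤ 1 → T ≤ z.im → z.im ≤ 2 * T →
      ‖q μ (k + z • zc w) n‖ ≤ c → nz n ≤ L₀ * T ∧ |dt (rz w) n| ≤ C₀ := by
  obtain ⟨Y, hYd⟩ : ∃ Y, Y = nr (im k) := ⟨_, rfl⟩
  obtain ⟨R, hRd⟩ : ∃ R, R = nr (re k) := ⟨_, rfl⟩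
  obtain ⟨W, hWd⟩ : ∃ W, W = nz w := ⟨_, rfl⟩
  have hY : 0 ≤ Y := by rw [hYd]; exact nr_nonneg _
  have hR : 0 ≤ R := by rw [hRd]; exact nr_nonneg _
  have hW : 0 ≤ W := by rw [hWd]; exact nz_nonneg _
  have hm : 0 ≤ ‖μ‖ := norm_nonneg _
  refine ⟨Y + 3 * W + ‖μ‖ + c + 1 + R, (‖μ‖ + c) + (Y + 2 * W + ‖μ‖ + c + 1) * Y + R * W + W ^ 2,
    by linarith, by positivity, ?_⟩
  intro T n z hT h0 h1 h2 h3 hq
  obtain ⟨a, ha⟩ : ∃ a, a = re k + z.re • rz w + rz n := ⟨_, rfl⟩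
  obtain ⟨y, hy⟩ : ∃ y, y = im k + z.im • rz w := ⟨_, rfl⟩
  have hre := q0_re μ (k + z • zc w + zc n)
  have him := q0_im μ (k + z • zc w + zc n)
  rw [re_add_zc, im_add_zc, w5_re, w5_im, ← q_shift, ← ha, ← hy] at hre him
  have hr1 := (Complex.abs_re_le_norm (q μ (k + z • zc w) n)).trans hq
  have hi1 := (Complex.abs_im_le_norm (q μ (k + z • zc w) n)).trans hq
  have hr2 := Complex.abs_re_le_norm μ
  have hi2 := Complex.abs_im_le_norm μ
  have hT0 : 0 < T := by linarith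
  have hyn : nr y ≤ Y + 2 * T * W := by
    rw [hy]
    refine (nr_add_le _ _).trans ?_
    rw [nr_smul, ← hYd]
    have : |z.im| ≤ 2 * T := by rw [abs_of_nonneg (by linarith)]; exact h3
    have h5 : |z.im| * nr (rz w) ≤ 2 * T * W := by
      rw [hWd]
      exact mul_le_mul_of_nonneg_right this (nr_nonneg _)
    linarith
  have hy0 := nr_nonneg y
  have han : nr a ≤ nr y + ‖μ‖ + c + 1 := by
    refine le_of_sq_le_sq ?_ (by positivity)
    have h6 : nr a ^ 2 ≤ nr y ^ 2 + ‖μ‖ + c := by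
      have := (abs_le.1 hr1).2
      have := (abs_le.1 hr2).2
      linarith
    nlinarith [mul_nonneg hy0 hm, mul_nonneg hy0 hc, mul_nonneg hm hc]
  have han2 : nr a ≤ (Y + 2 * W + ‖μ‖ + c + 1) * T := by
    have : (Y + ‖μ‖ + c + 1) ≤ (Y + ‖μ‖ + c + 1) * T :=
      le_mul_of_one_le_right (by positivity) hT
    nlinarith
  have ha0 := nr_nonneg a
  constructor
  · have hn : rz n = a - (re k + z.re • rz w) := by rw [ha]; abel
    have h7 : nz n ≤ nr a + (R + W) := by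
      unfold nz
      rw [hn]
      refine (nr_sub_le _ _).trans ?_
      have h8 : nr (re k + z.re • rz w) ≤ R + W := by
        refine (nr_add_le _ _).trans ?_
        rw [nr_smul, ← hRd, abs_of_nonneg h0]
        have : z.re * nr (rz w) ≤ 1 * nr (rz w) := mul_le_mul_of_nonneg_right h1 (nr_nonneg _)
        rw [hWd]
        unfold nz
        linarith
      linarith
    have h9 : R + W ≤ (R + W) * T := le_mul_of_one_le_right (by positivity) hT
    nlinarith
  · have haw : |z.im * dr a (rz w)| ≤ (‖μ‖ + c) + nr a * Y := by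
      have e : z.im * dr a (rz w) = dr a y - dr a (im k) := by
        rw [hy, dr_add_right, dr_smul_right]; ring
      rw [e]
      refine (abs_sub _ _).trans ?_
      have h8 : |dr a y| ≤ ‖μ‖ + c := by
        have e2 : dr a y = ((q μ (k + z • zc w) n).im + μ.im) / 2 := by rw [him]; ring
        rw [e2, abs_div, abs_two]
        have := abs_add_le (q μ (k + z • zc w) n).im μ.im
        have h9 : 0 ≤ |(q μ (k + z • zc w) n).im + μ.im| := abs_nonneg _
        linarith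
      have h9 := abs_dr_le a (im k)
      rw [← hYd] at h9
      linarith
    have haw2 : |dr a (rz w)| ≤ (‖μ‖ + c) + (Y + 2 * W + ‖μ‖ + c + 1) * Y := by
      have h10 : T * |dr a (rz w)| ≤ (‖μ‖ + c) + nr a * Y := by
        rw [abs_mul] at haw
        have h11 : T ≤ |z.im| := h2.trans (le_abs_self _)
        exact (mul_le_mul_of_nonneg_right h11 (abs_nonneg _)).trans haw
      have h12 : nr a * Y ≤ ((Y + 2 * W + ‖μ‖ + c + 1) * T) * Y :=
        mul_le_mul_of_nonneg_right han2 hY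
      have h13 : ‖μ‖ + c ≤ (‖μ‖ + c) * T := le_mul_of_one_le_right (by positivity) hT
      have h14 : T * |dr a (rz w)| ≤ T * ((‖μ‖ + c) + (Y + 2 * W + ‖μ‖ + c + 1) * Y) := by
        nlinarith
      exact le_of_mul_le_mul_left h14 hT0
    have e3 : dt (rz w) n = dr a (rz w) - dr (re k) (rz w) - z.re * W ^ 2 := by
      rw [dt_eq, hWd, nz_sq, ha, dr_add_left, dr_add_left, dr_smul_left, dr_comm (rz n)]
      ring
    rw [e3]
    have h15 := abs_dr_le (re k) (rz w)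
    rw [← hRd] at h15
    have h16 : |dr (re k) (rz w)| ≤ R * W := by rw [hWd]; exact h15
    have h17 : |z.re * W ^ 2| ≤ W ^ 2 := by
      rw [abs_mul, abs_of_nonneg h0, abs_of_nonneg (sq_nonneg W)]
      exact mul_le_of_le_one_left (sq_nonneg W) h1
    have h18 := abs_sub (dr a (rz w) - dr (re k) (rz w)) (z.re * W ^ 2)
    have h19 := abs_sub (dr a (rz w)) (dr (re k) (rz w))
    linarith

/-- (NM) Proof. `c = 4 M + 8` (`0 ≤ c`: otherwise `far` says that `F` is empty: then trivial). Suppose `k + z zc w ∈ F` for all `z`. Take `L₀, C₀`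
from `sheet_near`, `T ≥ max (1, 2 |im k|)`. The rectangle `Q = [0,1] × [T, 2T]` (area `T`) is covered by the sets
`B_n = {z ∈ Q : ‖q μ (k + z zc w) n‖ < c}` (`hF.far`), `n` in the finite set of `n` with `nz n ≤ L₀ T`, `|dt (rz w) n| ≤ C₀`, of cardinality
at most `9 L₀² T² (2 C₀ + 1)` (`count_plane`; the set is finite because the coordinates are bounded), and every nonempty `B_n` lies in a closed disc
of radius `2 c/T` (`sheet_diam`), of area `4 π c²/T²`. So `T ≤ 36 π c² L₀² (2 C₀ + 1)`, false for large `T`. -/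
theorem no_line {F : Set (Cd 3)} (hF : Fsh μ M F) (k : Cd 3) {w : Zd 3} (hw : w ≠ 0) :
    ∃ z : ℂ, k + z • zc w ∉ F := by
  by_contra hcon
  push Not at hcon
  have hex : ∀ z : ℂ, ∃ n, ‖q μ (k + z • zc w) n‖ < 4 * M + 8 := by
    intro z
    by_contra h1
    push Not at h1
    exact hF.far _ h1 (hcon z)
  choose f hf using hex
  have hc : 0 ≤ 4 * M + 8 := (norm_nonneg _).trans (hf 0).le
  obtain ⟨L₀, C₀, hL, hC, hnear⟩ := sheet_near (μ := μ) k w (4 * M + 8) hc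
  obtain ⟨c', hc'⟩ := exists_nat_gt (2 * (4 * M + 8) + 1)
  obtain ⟨N, hN⟩ := exists_nat_gt (max (2 * nr (im k)) (9 * L₀ ^ 2 * c' * (2 * C₀ + 1)) + 1)
  have hN1 : 2 * nr (im k) + 1 < N := lt_of_le_of_lt (by gcongr; exact le_max_left _ _) hN
  have hN2 : 9 * L₀ ^ 2 * c' * (2 * C₀ + 1) + 1 < N :=
    lt_of_le_of_lt (by gcongr; exact le_max_right _ _) hN
  have hc1 : (1 : ℝ) ≤ c' := by linarith
  have hYn := nr_nonneg (im k)
  have hNr : (1 : ℝ) < N := by linarith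
  have hN0 : (0 : ℝ) < N := by linarith
  have hT1 : (1 : ℝ) ≤ c' * N := by nlinarith
  have hT2 : 2 * nr (im k) ≤ c' * N := by nlinarith
  have hTpos : (0 : ℝ) < c' * N := by linarith
  let z : ℕ × ℕ → ℂ := fun p => ⟨(p.1 : ℝ) / N, c' * N + (p.2 : ℝ) / N⟩
  let S : Finset (ℕ × ℕ) := Finset.range N ×ˢ Finset.range (c' * N * N)
  have hzre : ∀ p ∈ S, 0 ≤ (z p).re ∧ (z p).re ≤ 1 := by
    intro p hp
    have h1 : p.1 < N := Finset.mem_range.1 (Finset.mem_product.1 hp).1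
    have h2 : (p.1 : ℝ) ≤ N := by exact_mod_cast h1.le
    exact ⟨div_nonneg (by positivity) hN0.le, (div_le_one hN0).2 h2⟩
  have hzim : ∀ p ∈ S, (c' * N : ℝ) ≤ (z p).im ∧ (z p).im ≤ 2 * (c' * N) := by
    intro p hp
    have h1 : p.2 < c' * N * N := Finset.mem_range.1 (Finset.mem_product.1 hp).2
    have h2 : (p.2 : ℝ) ≤ c' * N * N := by exact_mod_cast h1.le
    have h3 : (p.2 : ℝ) / N ≤ c' * N := by rw [div_le_iff₀ hN0]; exact h2
    have h4 : 0 ≤ (p.2 : ℝ) / N := by positivity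
    exact ⟨by simp only [z]; linarith, by simp only [z]; linarith⟩
  have hinj : Set.InjOn (fun p => f (z p)) (S : Set (ℕ × ℕ)) := by
    intro p hp p' hp' he
    simp only at he
    by_contra hne
    have h1 := hf (z p)
    have h2 := hf (z p')
    rw [← he] at h2
    have h3 := sheet_diam hw hT2 hTpos (hzim p hp).1 (hzim p' hp').1 h1.le h2.le
    have h4 : 1 / (N : ℝ) ≤ ‖z p - z p'‖ := by
      by_cases h5 : p.1 = p'.1
      · have h6 : p.2 ≠ p'.2 := fun h7 => hne (Prod.ext h5 h7)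
        refine le_trans ?_ (Complex.abs_im_le_norm _)
        have e : (z p - z p').im = ((p.2 : ℝ) - p'.2) / N := by
          simp only [z, Complex.sub_im]; ring
        rw [e, abs_div, abs_of_pos hN0]
        gcongr
        have h8 : (1 : ℤ) ≤ |(p.2 : ℤ) - p'.2| := Int.one_le_abs (by omega)
        exact_mod_cast h8
      · refine le_trans ?_ (Complex.abs_re_le_norm _)
        have e : (z p - z p').re = ((p.1 : ℝ) - p'.1) / N := by
          simp only [z, Complex.sub_re]; ring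
        rw [e, abs_div, abs_of_pos hN0]
        gcongr
        have h8 : (1 : ℤ) ≤ |(p.1 : ℤ) - p'.1| := Int.one_le_abs (by omega)
        exact_mod_cast h8
    have h9 : 1 / (N : ℝ) ≤ 2 * (4 * M + 8) / (c' * N) := h4.trans h3
    rw [div_le_div_iff₀ hN0 hTpos] at h9
    nlinarith
  have hcard := count_plane hw (L := L₀ * (c' * N)) (C := C₀) (by nlinarith) hC
    (S.image (fun p => f (z p))) (by
      intro n hn
      obtain ⟨p, hp, rfl⟩ := Finset.mem_image.1 hn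
      exact hnear (c' * N) _ (z p) hT1 (hzre p hp).1 (hzre p hp).2 (hzim p hp).1 (hzim p hp).2
        (hf (z p)).le)
  rw [Finset.card_image_of_injOn hinj, Finset.card_product, Finset.card_range,
    Finset.card_range] at hcard
  push_cast at hcard
  have h1 : (c' : ℝ) * N ^ 2 * N ≤ (c' : ℝ) * N ^ 2 * (9 * L₀ ^ 2 * c' * (2 * C₀ + 1)) := by
    calc (c' : ℝ) * N ^ 2 * N = N * (c' * N * N) := by ring
      _ ≤ 9 * (L₀ * (c' * N)) ^ 2 * (2 * C₀ + 1) := hcard
      _ = _ := by ring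
  have h2 := le_of_mul_le_mul_left h1 (by positivity)
  linarith

end H9F
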