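import Pool.Agent.Lib.H9F.W1
import Pool.Agent.Lib.H9F.W2
import Pool.Agent.Lib.H9F.W5

/-!
# H9F W3: the slabs
-/

open scoped BigOperators Topology
open Set Filter

noncomputable section

namespace H9F

open Fermi

variable {M : ℝ} {μ : ℂ} {P : Big M μ}

theorem w3_smul (j : ℤ) (s : Zd 3) : rz (j • s) = (j : ℝ) • rz s := by
  funext i
  simp [rz]

theorem w3_nz_smul (j : ℤ) (s : Zd 3) : nz (j • s) = |(j : ℝ)| * nz s := by
  rw [nz, w3_smul, nr_smul]
  rfl

theorem w3_par_trans {s s₀ s' : Zd 3} (h0 : s₀ ≠ 0) (h : Par s s₀) (h' : Par s₀ s') :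
    Par s s' := by
  obtain ⟨l, hl⟩ : ∃ l, s₀ l ≠ 0 := by
    by_contra hcon
    push Not at hcon
    exact h0 (funext hcon)
  intro i j
  have h1 := h i l
  have h2 := h j l
  have h3 := h' l i
  have h4 := h' l j
  -- `s i * s₀ l = s l * s₀ i`, `s₀ l * s' i = s₀ i * s' l`
  have h5 : s₀ l * (s₀ l * (s i * s' j)) = s₀ l * (s₀ l * (s j * s' i)) := by
    calc s₀ l * (s₀ l * (s i * s' j)) = (s i * s₀ l) * (s₀ l * s' j) := by ring
      _ = (s l * s₀ i) * (s₀ j * s' l) := by rw [h1, h4]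
      _ = (s l * s₀ j) * (s₀ i * s' l) := by ring
      _ = (s j * s₀ l) * (s₀ l * s' i) := by rw [h2, h3]
      _ = _ := by ring
  exact mul_left_cancel₀ hl (mul_left_cancel₀ hl h5)

theorem w3_im (p : Cd 3) (t : ℝ) (e : Zd 3) : im (p + (t : ℂ) • zc e) = im p := by
  funext i
  simp [im, zc]

theorem w3_im' (p : Cd 3) (z : ℂ) (s : Zd 3) : im (p + z • zc s) = im p + z.im • rz s := by
  funext i
  simp [im, zc, rz]

theorem w3_re' (p : Cd 3) (z : ℂ) (s : Zd 3) : re (p + z • zc s) = re p + z.re • rz s := by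
  funext i
  simp [re, zc, rz]

/-- (section 11) Proof. If `P.b^500 ≤ |dt (im p) s|` for all short `s ≠ 0`, then `NF P (b^500) (p + zc n)` for all `n`
(`bil_zc_im`, `im_add_zc`, `Complex.abs_im_le_norm`), so `hT p`. Otherwise let `s` be short with `|dt (im p) s| < b^500`, `s₀` the primitive vector
of its line (`exists_prim`; `s = j • s₀`, `j ≠ 0`, so `nz s₀ ≤ nz s`, `|dt (im p) s₀| ≤ |dt (im p) s|`; `hprim` for `Par s₀ ·` by transitivity
of `Par` for nonzero vectors), `e` from `orth_int`, `τ` from `exists_shift` with `x = dr (re p) (rz e)`, `c₁ = c`, `c₂ = -c`,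
`c = nr y * dr (cr y s₀) e / nr (cr y s₀)`, `y = im p`. Suppose `p ∈ XX F A`. `strip_path D (fun t => p + ((t * τ / nz e ^ 2 : ℝ) : ℂ) • zc e)`, direction `s₀`,
height `H = 3 b^500/nz s₀ ^ 2`. Ends: `slab_end` (`im (c t + z zc s₀) = y + z.im • rz s₀`) and `hT` (`YY.add`). `no_line`. At `t = 1`:
`dr (re (c 1 + z zc s₀)) e = x + τ` (as `s₀·e = 0`), so `slab_nf` and `hT` give the contradiction. -/
theorem slab_notin {F A B : Set (Cd 3)} (hF : Fsh μ M F) (D : Decomp F A B) (hT : TN P F A)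
    {p : Cd 3} (hy : YY P 1 (im p)) : p ∉ XX F A := by
  by_cases hcase : ∀ s : Zd 3, s ≠ 0 → nz s ≤ P.b ^ 120 → P.b ^ 500 ≤ |dt (im p) s|
  · refine hT p hy.two fun n _ s hs0 hs1 => ?_
    refine (hcase s hs0 hs1).trans ?_
    have h1 := Complex.abs_im_le_norm (bil (p + zc n) (zc s))
    rwa [bil_zc_im, im_add_zc] at h1
  push Not at hcase
  obtain ⟨s, hs0, hs1, hs2⟩ := hcase
  obtain ⟨s₀, h0, hpar, hprim'⟩ := exists_prim hs0
  have hprim : ∀ s', Par s₀ s' → ∃ j : ℤ, s' = j • s₀ :=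
    fun s' h => hprim' s' (w3_par_trans h0 hpar h)
  obtain ⟨j, hj⟩ := hprim' s (fun i j => mul_comm _ _)
  have hj0 : j ≠ 0 := by
    rintro rfl
    apply hs0
    rw [hj, zero_smul]
  have hj1 : 1 ≤ |(j : ℝ)| := by exact_mod_cast Int.one_le_abs hj0
  have hn0 : nz s₀ ≤ P.b ^ 120 := by
    refine le_trans ?_ hs1
    rw [hj, w3_nz_smul]
    exact le_mul_of_one_le_left (nz_nonneg _) hj1
  have hd0 : |dt (im p) s₀| < P.b ^ 500 := by
    refine lt_of_le_of_lt ?_ hs2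
    rw [hj, w2_dt_smul, abs_mul]
    exact le_mul_of_one_le_left (abs_nonneg _) hj1
  obtain ⟨e, he0, he1, he2⟩ := orth_int P hn0
  obtain ⟨τ, _, _, hτ⟩ := exists_shift (dr (re p) (rz e))
    (nr (im p) * dr (cr (im p) (rz s₀)) (rz e) / nr (cr (im p) (rz s₀)))
    (-(nr (im p) * dr (cr (im p) (rz s₀)) (rz e) / nr (cr (im p) (rz s₀))))
  intro hp
  have hs00 : 0 < nz s₀ := nz_pos h0
  have hH : 0 < 3 * P.b ^ 500 / nz s₀ ^ 2 := by
    have := P.pow_pos 500
    exact div_pos (mul_pos (by norm_num) this) (pow_pos hs00 2)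
  have hst := strip_path D (fun t : ℝ => p + ((t * τ / nz e ^ 2 : ℝ) : ℂ) • zc e) ?_ s₀ hH ?_ ?_
    ⟨0, by simpa using hH.le, by simpa using hp⟩ 1 (by simp)
  · obtain ⟨z, hz, hX⟩ := hst
    have him : im (p + ((1 * τ / nz e ^ 2 : ℝ) : ℂ) • zc e + z • zc s₀)
        = im p + z.im • rz s₀ := by
      rw [w3_im', w3_im]
    have hzH : |z.im| * nz s₀ ^ 2 ≤ 3 * P.b ^ 500 := by
      rw [lt_div_iff₀ (pow_pos hs00 2)] at hz
      exact hz.le
    have hre : dr (re (p + ((1 * τ / nz e ^ 2 : ℝ) : ℂ) • zc e + z • zc s₀)) (rz e)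
        = dr (re p) (rz e) + τ := by
      rw [w3_re', w3_re', dr_add_left, dr_add_left, dr_smul_left, dr_smul_left, he1,
        Complex.ofReal_re, ← nz_sq]
      have := (nz_pos he0).ne'
      field_simp
      ring
    refine hT _ (w2_yy hy h0 hzH him) ?_ hX
    refine slab_nf hy h0 hn0 hd0 hprim he1 he2 hzH him ?_
    rw [hre]
    exact hτ
  · fun_prop
  · intro t _ z hz hX
    have him : im (p + ((t * τ / nz e ^ 2 : ℝ) : ℂ) • zc e + z • zc s₀)
        = im p + z.im • rz s₀ := by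
      rw [w3_im', w3_im]
    have hzH : |z.im| * nz s₀ ^ 2 = 3 * P.b ^ 500 := by
      rw [hz]
      field_simp
    refine hT _ (w2_yy hy h0 hzH.le him) ?_ hX
    intro n _
    exact slab_end hy h0 hn0 hd0 hprim hzH him n
  · intro t _
    exact no_line hF _ h0

end H9F
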