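import Pool.Agent.Lib.H9F.Defs

/-!
# H9F W4: lattice points near a plane and in a ball
-/

open scoped BigOperators Topology
open Set Filter

noncomputable section

namespace H9F

open Fermi

variable {M : ℝ} {μ : ℂ} {P : Big M μ}

/-- the scalar product in `ℤ` -/
def w4_dot (w n : Zd 3) : ℤ := w 0 * n 0 + w 1 * n 1 + w 2 * n 2

theorem w4_dt (w n : Zd 3) : dt (rz w) n = ((w4_dot w n : ℤ) : ℝ) := by
  rw [dt3]
  unfold w4_dot rz
  push_cast
  rfl

theorem w4_mem {z : ℤ} {C : ℝ} (h : |(z : ℝ)| ≤ C) : z ∈ Finset.Icc (-⌊C⌋) ⌊C⌋ := by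
  rw [abs_le] at h
  rw [Finset.mem_Icc]
  constructor
  · have : -z ≤ ⌊C⌋ := by
      rw [Int.le_floor]
      push_cast
      linarith
    omega
  · rw [Int.le_floor]
    exact h.2

theorem w4_card {C : ℝ} (hC : 0 ≤ C) : ((Finset.Icc (-⌊C⌋) ⌊C⌋).card : ℝ) ≤ 2 * C + 1 := by
  rw [Int.card_Icc]
  have h0 : 0 ≤ ⌊C⌋ := Int.floor_nonneg.2 hC
  have h1 : ((⌊C⌋ + 1 - -⌊C⌋).toNat : ℤ) = 2 * ⌊C⌋ + 1 := by
    rw [Int.toNat_of_nonneg (by omega)]
    ring
  have h2 : ((⌊C⌋ + 1 - -⌊C⌋).toNat : ℝ) = 2 * (⌊C⌋ : ℝ) + 1 := by exact_mod_cast h1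
  rw [h2]
  have := Int.floor_le C
  linarith

theorem w4_aux {w : Zd 3} (j k : Fin 3)
    (hinj : ∀ n m : Zd 3, w4_dot w n = w4_dot w m → n j = m j → n k = m k → n = m)
    {L C : ℝ} (hL : 1 ≤ L) (hC : 0 ≤ C)
    (X : Finset (Zd 3)) (hX : ∀ n ∈ X, nz n ≤ L ∧ |dt (rz w) n| ≤ C) :
    (X.card : ℝ) ≤ 9 * L ^ 2 * (2 * C + 1) := by
  classical
  have h1 : X.card ≤ ((Finset.Icc (-⌊C⌋) ⌊C⌋) ×ˢ ((Finset.Icc (-⌊L⌋) ⌊L⌋) ×ˢ
      (Finset.Icc (-⌊L⌋) ⌊L⌋))).card := by
    apply Finset.card_le_card_of_injOn (fun n : Zd 3 => (w4_dot w n, (n j, n k)))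
    · intro n hn
      have h2 := hX n hn
      rw [w4_dt] at h2
      have hj := (abs_le_nz n j).trans h2.1
      have hk := (abs_le_nz n k).trans h2.1
      rw [Finset.mem_coe, Finset.mem_product, Finset.mem_product]
      exact ⟨w4_mem h2.2, w4_mem hj, w4_mem hk⟩
    · intro n _ m _ h
      simp only [Prod.mk.injEq] at h
      exact hinj n m h.1 h.2.1 h.2.2
  have h2 : (X.card : ℝ) ≤ ((Finset.Icc (-⌊C⌋) ⌊C⌋).card : ℝ) *
      (((Finset.Icc (-⌊L⌋) ⌊L⌋).card : ℝ) * ((Finset.Icc (-⌊L⌋) ⌊L⌋).card : ℝ)) := by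
    rw [Finset.card_product, Finset.card_product] at h1
    exact_mod_cast h1
  have h3 := w4_card hC
  have h4 := w4_card (by linarith : 0 ≤ L)
  have h5 : ((Finset.Icc (-⌊L⌋) ⌊L⌋).card : ℝ) ≤ 3 * L := by linarith
  refine h2.trans ?_
  calc _ ≤ (2 * C + 1) * ((3 * L) * (3 * L)) := by
        apply mul_le_mul h3 _ (by positivity) (by positivity)
        exact mul_le_mul h5 h5 (by positivity) (by positivity)
    _ = 9 * L ^ 2 * (2 * C + 1) := by ring

/-- Proof: choose `i` with `w i ≠ 0`. The map `n ↦ (dt (rz w) n, the two coordinates n j, j ≠ i)` is injective; the integer `w·n` takes at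
most `2 C + 1` values, each coordinate at most `2 L + 1 ≤ 3 L` values. -/
theorem count_plane {w : Zd 3} (hw : w ≠ 0) {L C : ℝ} (hL : 1 ≤ L) (hC : 0 ≤ C)
    (X : Finset (Zd 3)) (hX : ∀ n ∈ X, nz n ≤ L ∧ |dt (rz w) n| ≤ C) :
    (X.card : ℝ) ≤ 9 * L ^ 2 * (2 * C + 1) := by
  by_cases h0 : w 0 = 0
  · by_cases h1 : w 1 = 0
    · have h2 : w 2 ≠ 0 := by
        intro h2
        apply hw
        funext j
        fin_cases j
        · exact h0
        · exact h1
        · exact h2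
      refine w4_aux 0 1 (fun n m hd e0 e1 => ?_) hL hC X hX
      unfold w4_dot at hd
      rw [e0, e1] at hd
      have e2 : n 2 = m 2 := mul_left_cancel₀ h2 (by linarith)
      funext j
      fin_cases j
      · exact e0
      · exact e1
      · exact e2
    · refine w4_aux 0 2 (fun n m hd e0 e2 => ?_) hL hC X hX
      unfold w4_dot at hd
      rw [e0, e2] at hd
      have e1 : n 1 = m 1 := mul_left_cancel₀ h1 (by linarith)
      funext j
      fin_cases j
      · exact e0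
      · exact e1
      · exact e2
  · refine w4_aux 1 2 (fun n m hd e1 e2 => ?_) hL hC X hX
    unfold w4_dot at hd
    rw [e1, e2] at hd
    have e0 : n 0 = m 0 := mul_left_cancel₀ h0 (by linarith)
    funext j
    fin_cases j
    · exact e0
    · exact e1
    · exact e2

end H9F
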