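import Pool.Agent.Lib.H9F.W3

/-!
# H9F W6: from the annulus to the real space
-/

open scoped BigOperators Topology
open Set Filter

noncomputable section

namespace H9F

open Fermi

variable {M : ℝ} {μ : ℂ} {P : Big M μ}

/-- Proof: `ν = (1, N, N²)`, `e = (N, -1, 0)`, `f = ν × e`: expand. `f ≠ 0` as its last coordinate is `-1 - N²`. -/
theorem nu_e (P : Big M μ) : ∃ (e : Zd 3) (f : Fin 3 → ℝ), e ≠ 0 ∧ dr (rz e) (rz P.nu) = 0 ∧
    dr f (rz P.nu) = 0 ∧ dr f (rz e) = 0 ∧ nr f = 1 := by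
  set N : ℤ := (P.B : ℤ) ^ 830 with hN
  have hnu : P.nu = ![1, N, N ^ 2] := by
    unfold Big.nu
    rw [hN, ← pow_mul]
  set e : Zd 3 := ![N, -1, 0] with he
  have he0 : e ≠ 0 := by
    intro h
    have := congrFun h 1
    simp [he] at this
  set f : Fin 3 → ℝ := cr (rz P.nu) (rz e) with hf
  have hf0 : f ≠ 0 := by
    intro h
    have h1 := congrFun h 2
    rw [hf, hnu, he] at h1
    simp [cr, rz] at h1
    nlinarith [sq_nonneg (N : ℝ)]
  have hf1 := nr_pos hf0
  refine ⟨e, (nr f)⁻¹ • f, he0, ?_, ?_, ?_, ?_⟩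
  · rw [hnu, he, dr3]
    simp [rz]
  · rw [dr_smul_left, dr_comm, hf, dr_cr_left, mul_zero]
  · rw [dr_smul_left, dr_comm, hf, dr_cr_right, mul_zero]
  · rw [nr_smul, abs_inv, abs_of_pos hf1]
    field_simp

/-- (section 12) Proof. `e, f` from `nu_e`, `T = b^11000`. For `|im p| ≤ b`, and a real vector `v = α f + β e/|e|` with
`T² ≤ α² + β² ≤ 2 T²`: `nr v ^ 2 = α² + β²`, `v·ν = 0`, so `YY P 1 (im p + v)`: `|dt (im p) ν| ≤ b |ν| ≤ b^600 |ν|`,
`T - b ≤ nr (im p + v) ≤ 2 T + b`. Suppose `p ∈ XX F A`. `strip_path D (fun t => p + (Complex.I * (t * T)) • rc f)`, direction `e`, height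
`T/nz e`. Ends `|z.im| = T/nz e`: imaginary part `im p + t T f ± T e/|e|`, `slab_notin`. `no_line`. At `t = 1`: imaginary part
`im p + T f + (z.im) e`, `|z.im| nz e ≤ T`: `slab_notin`, contradiction. -/
theorem near_real {F A B : Set (Cd 3)} (hF : Fsh μ M F) (D : Decomp F A B) (hT : TN P F A)
    {p : Cd 3} (hp : nr (im p) ≤ P.b) : p ∉ XX F A := by
  obtain ⟨e, f, he0, heν, hfν, hfe, hf1⟩ := nu_e P
  have hen := nz_pos he0
  have hT0 := P.pow_pos 11000
  -- displaced imaginary parts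
  have hb1 : 2 * P.b ^ 1 ≤ P.b ^ 11000 := P.mul_pow_le (by norm_num) (by norm_num)
  have hb2 : P.b ^ 1 ≤ P.b ^ 600 := P.pow_le (by norm_num)
  have hb3 : 2 * P.b ^ 10000 ≤ P.b ^ 11000 := P.mul_pow_le (by norm_num) (by norm_num)
  have hb4 : 3 * P.b ^ 11000 ≤ P.b ^ 12000 := P.mul_pow_le (by norm_num) (by norm_num)
  rw [pow_one] at hb1 hb2
  generalize P.b ^ 11000 = T at hT0 hb1 hb3 hb4
  have key : ∀ α β : ℝ, T ^ 2 ≤ α ^ 2 + β ^ 2 * nz e ^ 2 → α ^ 2 + β ^ 2 * nz e ^ 2 ≤ 2 * T ^ 2 →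
      YY P 1 (im p + (α • f + β • rz e)) := by
    intro α β h1 h2
    have h3 : nr (α • f + β • rz e) ^ 2 = α ^ 2 + β ^ 2 * nz e ^ 2 := by
      rw [nr_sq, dr_add_left, dr_add_right, dr_add_right, dr_smul_left, dr_smul_left, dr_smul_left,
        dr_smul_left, dr_smul_right, dr_smul_right, dr_smul_right, dr_smul_right, hfe,
        dr_comm (rz e) f, hfe, ← nr_sq, hf1, nz_sq]
      ring
    have h4 : T ≤ nr (α • f + β • rz e) := by
      refine le_of_sq_le_sq ?_ (nr_nonneg _)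
      rw [h3]
      exact h1
    have h5 : nr (α • f + β • rz e) ≤ 2 * T := by
      refine le_of_sq_le_sq ?_ (by linarith)
      rw [h3]
      nlinarith
    have h6 : dr (α • f + β • rz e) (rz P.nu) = 0 := by
      rw [dr_add_left, dr_smul_left, dr_smul_left, hfν, heν]
      ring
    have h7 := nr_add_le (im p) (α • f + β • rz e)
    have h8 := nr_sub_le (im p + (α • f + β • rz e)) (im p)
    rw [add_sub_cancel_left] at h8
    refine ⟨?_, ?_, ?_⟩
    · rw [dt_eq, dr_add_left, h6, add_zero, one_mul]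
      refine (abs_dr_le _ _).trans ?_
      exact mul_le_mul_of_nonneg_right (hp.trans hb2) (nz_nonneg _)
    · rw [one_mul]
      linarith
    · rw [one_mul]
      linarith
  have him : ∀ (t : ℝ) (z : ℂ), im (p + (Complex.I * ((t * T : ℝ) : ℂ)) • rc f + z • zc e)
      = im p + ((t * T) • f + z.im • rz e) := by
    intro t z
    funext i
    simp [im, zc, rc, rz]
    ring
  intro hX
  have hH : 0 < T / nz e := div_pos hT0 hen
  have hst := strip_path D (fun t : ℝ => p + (Complex.I * ((t * T : ℝ) : ℂ)) • rc f) ?_ e hH ?_ ?_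
    ⟨0, by simpa using hH.le, by simpa using hX⟩ 1 (by simp)
  · obtain ⟨z, hz, hX1⟩ := hst
    refine slab_notin hF D hT ?_ hX1
    rw [him]
    have hz1 : |z.im| * nz e ≤ T := by
      rw [lt_div_iff₀ hen] at hz
      exact hz.le
    have hz2 : z.im ^ 2 * nz e ^ 2 ≤ T ^ 2 := by
      have h1 := pow_le_pow_left₀ (mul_nonneg (abs_nonneg _) hen.le) hz1 2
      rwa [mul_pow, sq_abs] at h1
    have hz3 : 0 ≤ z.im ^ 2 * nz e ^ 2 := by positivity
    refine key _ _ ?_ ?_
    · rw [one_mul]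
      linarith
    · rw [one_mul]
      linarith
  · fun_prop
  · intro t ht z hz hX1
    refine slab_notin hF D hT ?_ hX1
    rw [him]
    have hz1 : |z.im| * nz e = T := by
      rw [hz]
      field_simp
    have hz2 : z.im ^ 2 * nz e ^ 2 = T ^ 2 := by
      rw [← hz1, mul_pow, sq_abs]
    have ht2 : (t * T) ^ 2 ≤ T ^ 2 := by
      rw [mul_pow]
      have h1 : t ^ 2 ≤ 1 := pow_le_one₀ ht.1 ht.2
      exact mul_le_of_le_one_left (by positivity) h1
    have ht3 : 0 ≤ (t * T) ^ 2 := by positivity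
    refine key _ _ ?_ ?_
    · rw [hz2]
      linarith
    · rw [hz2]
      linarith
  · intro t _
    exact no_line hF _ he0

end H9F
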